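import Pool.Agent.Helper83.CR.St

/-!
# Project CR: time and space averages (module Av)
-/

set_option autoImplicit false

open MeasureTheory Set Filter Topology
open scoped ENNReal ContDiff

noncomputable section

namespace Pool.Agent.Helper83.CR

open Pool.Agent.Helper52.NSE (E3 pd divg TestField MemH1s MemL2s IsWeakSolution gradSq kin
  IsSmoothBoundedDomain)
open Pool.Agent.Helper60.EC (D Cc curl grad cr ip sq nl adv sm gsq fn Hs)

private theorem Av_cs {α : Type} [MeasurableSpace α] (μ : Measure α) {f : α → ℝ≥0∞}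
    (hf : AEMeasurable f μ) : (∫⁻ a, f a ∂μ) ^ 2 ≤ μ univ * ∫⁻ a, f a ^ 2 ∂μ := by
  have h := ENNReal.lintegral_mul_le_Lp_mul_Lq μ (p := 2) (q := 2)
    (by constructor <;> norm_num) hf (aemeasurable_const (b := (1 : ℝ≥0∞)))
  simp only [Pi.mul_apply, mul_one, ENNReal.one_rpow, lintegral_const, one_mul] at h
  have h2 : ∀ a, f a ^ (2 : ℝ) = f a ^ 2 := fun a => by
    rw [← ENNReal.rpow_natCast]
    norm_num
  simp only [h2] at h
  have h3 := pow_le_pow_left' h 2
  rw [mul_pow, ← ENNReal.rpow_natCast (_ ^ (1 / 2 : ℝ)), ← ENNReal.rpow_natCast (_ ^ (1 / 2 : ℝ)),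
    ← ENNReal.rpow_mul, ← ENNReal.rpow_mul] at h3
  norm_num at h3
  rw [mul_comm]
  exact h3

private theorem Av_dom {κ : E3 → ℝ} (hκ : Cc κ) {f : E3 → E3} (hf : MemLp f 2 volume) (x : E3) :
    Integrable (fun y => (κ (x - y) ^ 2 + ‖f y‖ ^ 2) / 2) volume ∧
      ∫ y, (κ (x - y) ^ 2 + ‖f y‖ ^ 2) / 2 = ((∫ y, κ y ^ 2) + sq f) / 2 := by
  have h1 : Integrable (fun y => κ y ^ 2) volume := by
    have hc : Continuous fun y => κ y ^ 2 := hκ.smooth.continuous.pow 2
    refine hc.integrable_of_hasCompactSupport ?_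
    exact hκ.comp.comp_left (g := fun z : ℝ => z ^ 2) (by norm_num)
  have h2 : Integrable (fun y => κ (x - y) ^ 2) volume := h1.comp_sub_left x
  have h3 : Integrable (fun y => ‖f y‖ ^ 2) volume := by
    rwa [memLp_two_iff_integrable_sq_norm hf.1] at hf
  refine ⟨(h2.add h3).div_const 2, ?_⟩
  rw [integral_div, integral_add h2 h3, integral_sub_left_eq_self (fun y => κ y ^ 2)]
  rfl

private theorem Av_le {κ : E3 → ℝ} {f : E3 → E3} (x y : E3) :
    ‖κ (x - y) • f y‖ ≤ (κ (x - y) ^ 2 + ‖f y‖ ^ 2) / 2 := by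
  rw [norm_smul, Real.norm_eq_abs]
  have := sq_nonneg (|κ (x - y)| - ‖f y‖)
  rw [← sq_abs (κ (x - y))]
  nlinarith

private theorem Av_int {κ : E3 → ℝ} (hκ : Cc κ) {f : E3 → E3} (hf : MemLp f 2 volume) (x : E3) :
    Integrable (fun y => κ (x - y) • f y) volume := by
  refine (Av_dom hκ hf x).1.mono' ?_ (Eventually.of_forall fun y => Av_le x y)
  have : Continuous fun y => κ (x - y) := hκ.smooth.continuous.comp (continuous_const.sub
    continuous_id)
  exact this.aestronglyMeasurable.smul hf.1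

private theorem Av_bd {κ : E3 → ℝ} (hκ : Cc κ) {f : E3 → E3} (hf : MemLp f 2 volume) (x : E3) :
    ‖mo κ f x‖ ≤ ((∫ y, κ y ^ 2) + sq f) / 2 := by
  rw [← (Av_dom hκ hf x).2]
  refine (norm_integral_le_integral_norm _).trans ?_
  exact integral_mono_of_nonneg (Eventually.of_forall fun y => norm_nonneg _) (Av_dom hκ hf x).1
    (Eventually.of_forall fun y => Av_le x y)

private theorem Av_sub {κ : E3 → ℝ} (hκ : Cc κ) {f g : E3 → E3} (hf : MemLp f 2 volume)
    (hg : MemLp g 2 volume) (x : E3) :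
    mo κ (fun y => f y - g y) x = mo κ f x - mo κ g x := by
  unfold mo
  rw [← integral_sub (Av_int hκ hf x) (Av_int hκ hg x)]
  apply integral_congr_ae
  exact Eventually.of_forall fun y => by simp only [smul_sub]

private theorem Av_lint {f : E3 → E3} (hf : MemLp f 2 volume) :
    ∫⁻ x, ‖f x‖ₑ ^ 2 = ENNReal.ofReal (sq f) := by
  have h3 : Integrable (fun y => ‖f y‖ ^ 2) volume := by
    rwa [memLp_two_iff_integrable_sq_norm hf.1] at hf
  unfold Pool.Agent.Helper60.EC.sq
  rw [ofReal_integral_eq_lintegral_ofReal h3 (Eventually.of_forall fun y => by positivity)]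
  apply lintegral_congr
  intro x
  rw [ENNReal.ofReal_pow (norm_nonneg _), ofReal_norm]

private theorem Av_two (a b : E3) : ‖a + b‖ₑ ^ 2 ≤ 2 * ‖a‖ₑ ^ 2 + 2 * ‖b‖ₑ ^ 2 := by
  rw [← ofReal_norm, ← ofReal_norm, ← ofReal_norm,
    ← ENNReal.ofReal_pow (norm_nonneg _), ← ENNReal.ofReal_pow (norm_nonneg _),
    ← ENNReal.ofReal_pow (norm_nonneg _)]
  have h3 := norm_add_le a b
  have h4 := norm_nonneg (a + b)
  have h5 : ‖a + b‖ ^ 2 ≤ 2 * ‖a‖ ^ 2 + 2 * ‖b‖ ^ 2 := by
    nlinarith [sq_nonneg (‖a‖ - ‖b‖), norm_nonneg a, norm_nonneg b]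
  refine (ENNReal.ofReal_le_ofReal h5).trans (le_of_eq ?_)
  rw [ENNReal.ofReal_add (by positivity) (by positivity), ENNReal.ofReal_mul (by norm_num),
    ENNReal.ofReal_mul (by norm_num), ENNReal.ofReal_ofNat]

/-- Jensen and Tonelli -/
private theorem Av_jensen {s h : ℝ} (h0 : 0 < h) {F : ℝ × E3 → E3} (hF : StronglyMeasurable F) :
    ∫⁻ x, ‖h⁻¹ • ∫ t in s..(s + h), F (t, x)‖ₑ ^ 2 ≤
      (ENNReal.ofReal h)⁻¹ * ∫⁻ t in Ioc s (s + h), ∫⁻ x, ‖F (t, x)‖ₑ ^ 2 := by
  have hh : ENNReal.ofReal h ≠ 0 := by simpa using h0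
  have hh' : ENNReal.ofReal h ≠ ⊤ := ENNReal.ofReal_ne_top
  have h1 : ∀ x, ‖h⁻¹ • ∫ t in s..(s + h), F (t, x)‖ₑ ^ 2 ≤
      (ENNReal.ofReal h)⁻¹ * ∫⁻ t in Ioc s (s + h), ‖F (t, x)‖ₑ ^ 2 := by
    intro x
    have hm : Measurable fun t => ‖F (t, x)‖ₑ :=
      (hF.comp_measurable (measurable_id.prodMk measurable_const)).enorm
    rw [intervalIntegral.integral_of_le (by linarith), enorm_smul]
    have h2 : ‖∫ t in Ioc s (s + h), F (t, x)‖ₑ ≤ ∫⁻ t in Ioc s (s + h), ‖F (t, x)‖ₑ :=
      enorm_integral_le_lintegral_enorm _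
    have h3 := Av_cs (volume.restrict (Ioc s (s + h))) hm.aemeasurable
    rw [Measure.restrict_apply_univ, Real.volume_Ioc, show s + h - s = h by ring] at h3
    have h4 : ‖(h⁻¹ : ℝ)‖ₑ = (ENNReal.ofReal h)⁻¹ := by
      rw [← ofReal_norm, Real.norm_of_nonneg (by positivity),
        ENNReal.ofReal_inv_of_pos h0]
    rw [h4, mul_pow]
    calc (ENNReal.ofReal h)⁻¹ ^ 2 * ‖∫ t in Ioc s (s + h), F (t, x)‖ₑ ^ 2
        ≤ (ENNReal.ofReal h)⁻¹ ^ 2 * (∫⁻ t in Ioc s (s + h), ‖F (t, x)‖ₑ) ^ 2 := by gcongr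
      _ ≤ (ENNReal.ofReal h)⁻¹ ^ 2 * (ENNReal.ofReal h *
            ∫⁻ t in Ioc s (s + h), ‖F (t, x)‖ₑ ^ 2) := by gcongr
      _ = (ENNReal.ofReal h)⁻¹ * ∫⁻ t in Ioc s (s + h), ‖F (t, x)‖ₑ ^ 2 := by
          rw [pow_two, mul_assoc, ← mul_assoc _ (ENNReal.ofReal h),
            ENNReal.inv_mul_cancel hh hh', one_mul]
  refine (lintegral_mono h1).trans ?_
  rw [lintegral_const_mul' _ _ (by simpa using h0)]
  have h5 : ∫⁻ x, ∫⁻ t in Ioc s (s + h), ‖F (t, x)‖ₑ ^ 2 =
      ∫⁻ t in Ioc s (s + h), ∫⁻ x, ‖F (t, x)‖ₑ ^ 2 := by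
    rw [lintegral_lintegral_swap]
    have : Measurable fun p : E3 × ℝ => ‖F (p.2, p.1)‖ₑ ^ 2 :=
      ((hF.comp_measurable measurable_swap).enorm).pow_const 2
    exact this.aemeasurable
  rw [h5]

/-- averages of a function of time -/
private theorem Av_time {h : ℝ} (G : ℝ → ℝ≥0∞) (hG : Measurable G) :
    ∫⁻ s in Ioo (-1 : ℝ) (-h), ∫⁻ t in Ioc s (s + h), G t ≤
      ENNReal.ofReal h * ∫⁻ t in Ioo (-1 : ℝ) 0, G t := by
  set S : Set (ℝ × ℝ) := {p | p.1 < p.2 ∧ p.2 ≤ p.1 + h} with hS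
  have hSm : MeasurableSet S := by
    apply MeasurableSet.inter
    · exact measurableSet_lt measurable_fst measurable_snd
    · exact measurableSet_le measurable_snd (measurable_fst.add_const h)
  have h1 : ∀ s, ∫⁻ t in Ioc s (s + h), G t = ∫⁻ t, S.indicator (fun p => G p.2) (s, t) := by
    intro s
    rw [← lintegral_indicator measurableSet_Ioc]
    apply lintegral_congr
    intro t
    by_cases ht : t ∈ Ioc s (s + h)
    · rw [indicator_of_mem ht, indicator_of_mem (show (s, t) ∈ S from ht)]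
    · rw [indicator_of_notMem ht, indicator_of_notMem (show (s, t) ∉ S from ht)]
  simp only [h1]
  have hm : Measurable (S.indicator fun p : ℝ × ℝ => G p.2) :=
    (hG.comp measurable_snd).indicator hSm
  rw [lintegral_lintegral_swap (f := fun s t => S.indicator (fun p : ℝ × ℝ => G p.2) (s, t))
      hm.aemeasurable, ← lintegral_const_mul _ hG,
    ← lintegral_indicator measurableSet_Ioo]
  apply lintegral_mono
  intro t
  by_cases ht : t ∈ Ioo (-1 : ℝ) 0
  · simp only
    rw [indicator_of_mem ht]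
    calc ∫⁻ s in Ioo (-1 : ℝ) (-h), S.indicator (fun p => G p.2) (s, t)
        ≤ ∫⁻ s in Ioo (-1 : ℝ) (-h), (Ico (t - h) t).indicator (fun _ => G t) s := by
          apply lintegral_mono
          intro s
          simp only
          by_cases hs : (s, t) ∈ S
          · rw [indicator_of_mem hs, indicator_of_mem]
            have h2 := hs.1
            have h3 := hs.2
            simp only at h2 h3
            exact ⟨by linarith, h2⟩
          · rw [indicator_of_notMem hs]
            exact bot_le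
      _ ≤ ∫⁻ s, (Ico (t - h) t).indicator (fun _ => G t) s := setLIntegral_le_lintegral _ _
      _ = ENNReal.ofReal h * G t := by
          rw [lintegral_indicator measurableSet_Ico, setLIntegral_const, Real.volume_Ico,
            show t - (t - h) = h by ring, mul_comm]
  · rw [indicator_of_notMem ht, nonpos_iff_eq_zero, lintegral_eq_zero_iff']
    · refine (ae_restrict_iff' measurableSet_Ioo).2 (Eventually.of_forall fun s hs => ?_)
      apply indicator_of_notMem
      rintro ⟨h2, h3⟩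
      simp only at h2 h3
      exact ht ⟨by linarith [hs.1], by linarith [hs.2]⟩
    · exact (hm.comp (measurable_id.prodMk measurable_const)).aemeasurable

theorem hAv (hTr : StTr) (hMoB : StMoB) : StAv := by
  intro O u A K c e hB hK C h κ h0 h1 hm k
  set U := u k with hU
  set a := A k with ha
  set E := e k with hE
  have hE0 : 0 ≤ E := hB.enn k
  have hh : ENNReal.ofReal h ≠ 0 := by simpa using h0
  have hh' : ENNReal.ofReal h ≠ ⊤ := ENNReal.ofReal_ne_top
  set RHS : ℝ := 2 * K * (1 + 2 * Real.sqrt K) * (E + h ^ (1 / 4 : ℝ)) + 2 * h ^ 2 * K with hRHS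
  have hh4 : 0 ≤ h ^ (1 / 4 : ℝ) := by positivity
  have hRHS0 : 0 ≤ RHS := by rw [hRHS]; positivity
  -- the integral as a lower integral
  by_cases hInt : IntegrableOn (fun q : ℝ × E3 =>
      ‖(h⁻¹ • ∫ t in q.1..(q.1 + h), mo κ (U t) q.2) - U q.1 q.2‖ ^ 2)
      ((Ioo (-1 : ℝ) (-h)) ×ˢ (univ : Set E3)) mQ
  swap
  · rw [integral_undef hInt]
    exact hRHS0
  have hset : (mQ).restrict ((Ioo (-1 : ℝ) (-h)) ×ˢ (univ : Set E3)) =
      (volume.restrict (Ioo (-1 : ℝ) (-h))).prod (volume : Measure E3) := by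
    rw [← Measure.prod_restrict, Measure.restrict_univ, Measure.restrict_restrict
      measurableSet_Ioo, inter_eq_left.2 (Ioo_subset_Ioo_right (by linarith))]
  rw [IntegrableOn, hset] at hInt
  rw [hset]
  rw [← ENNReal.ofReal_le_ofReal_iff hRHS0, ofReal_integral_eq_lintegral_ofReal hInt
    (Eventually.of_forall fun q => by positivity), lintegral_prod _
    hInt.aestronglyMeasurable.aemeasurable.ennreal_ofReal]
  -- generic times
  have hsub : volume.restrict (Ioo (-1 : ℝ) (-h)) ≤ volume.restrict (Ioo (-1 : ℝ) 0) :=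
    Measure.restrict_mono (Ioo_subset_Ioo_right (by linarith)) le_rfl
  have hac : volume.restrict (Ioo (-1 : ℝ) (-h)) ≪ mI := Measure.absolutelyContinuous_of_le hsub
  have hmeas := hB.meas k
  rw [← hU] at hmeas
  set V : ℝ × E3 → E3 := hmeas.mk _ with hV
  have hVm : StronglyMeasurable V := hmeas.stronglyMeasurable_mk
  have hVe : ∀ᵐ t ∂mI, ∀ᵐ y, U t y = V (t, y) := by
    have := hmeas.ae_eq_mk
    exact Measure.ae_ae_of_ae_prod this
  set W : ℝ × E3 → E3 := fun p => ∫ y, κ (p.2 - y) • V (p.1, y) with hW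
  have hWm : StronglyMeasurable W := by
    apply StronglyMeasurable.integral_prod_right
      (f := fun (p : ℝ × E3) (y : E3) => κ (p.2 - y) • V (p.1, y))
    have hc : Continuous fun q : (ℝ × E3) × E3 => κ (q.1.2 - q.2) :=
      hm.cc.smooth.continuous.comp ((continuous_snd.comp continuous_fst).sub continuous_snd)
    have hv : StronglyMeasurable fun q : (ℝ × E3) × E3 => V (q.1.1, q.2) :=
      hVm.comp_measurable ((measurable_fst.comp measurable_fst).prodMk measurable_snd)
    exact hc.stronglyMeasurable.smul hv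
  have hWe : ∀ᵐ t ∂mI, ∀ x, mo κ (U t) x = W (t, x) := by
    filter_upwards [hVe] with t ht x
    apply integral_congr_ae
    filter_upwards [ht] with y hy
    rw [hy]
  have hH1 := hB.h1 k
  have hEn := hB.energy k
  have hTi := hB.time k
  rw [← hU, ← ha] at hH1 hTi
  rw [← hU] at hEn
  rw [← hE] at hTi
  -- integrability in time
  set B0 : ℝ := ((∫ y, κ y ^ 2) + K) / 2 with hB0
  have hIt : ∀ x, Integrable (fun t => mo κ (U t) x) mI := by
    intro x
    have hmx : AEStronglyMeasurable (fun t => mo κ (U t) x) mI := by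
      refine ⟨fun t => W (t, x), hWm.comp_measurable (measurable_id.prodMk measurable_const), ?_⟩
      filter_upwards [hWe] with t ht
      exact ht x
    refine Integrable.of_bound hmx B0 ?_
    filter_upwards [hH1, hEn] with t ht1 ht2
    refine (Av_bd hm.cc ht1.l2 x).trans ?_
    rw [hB0]
    linarith
  -- one time
  set g : ℝ → ℝ := fun t => Real.sqrt (gs (a t)) with hg
  have hgs0 : ∀ t, 0 ≤ gs (a t) := fun t => integral_nonneg fun x => by positivity
  set c0 : ℝ≥0∞ := ENNReal.ofReal (K * (E + h ^ (1 / 4 : ℝ))) with hc0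
  have hone : ∀ᵐ s ∂(volume.restrict (Ioo (-1 : ℝ) (-h))),
      ∫⁻ x, ENNReal.ofReal (‖(h⁻¹ • ∫ t in s..(s + h), mo κ (U t) x) - U s x‖ ^ 2) ≤
        2 * ((ENNReal.ofReal h)⁻¹ * ∫⁻ t in Ioc s (s + h),
          c0 * (1 + ENNReal.ofReal (g s) + ENNReal.ofReal (g t))) +
          2 * ENNReal.ofReal (h ^ 2 * gs (a s)) := by
    have hmem : ∀ᵐ s ∂(volume.restrict (Ioo (-1 : ℝ) (-h))), s ∈ Ioo (-1 : ℝ) (-h) :=
      ae_restrict_mem measurableSet_Ioo
    filter_upwards [hmem, hac.ae_le hH1, hac.ae_le hWe, hac.ae_le hTi] with s hs hs1 hs2 hs3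
    have hIoc : Ioc s (s + h) ⊆ Ioo (-1 : ℝ) 0 := fun t ht =>
      ⟨by linarith [hs.1, ht.1], by linarith [hs.2, ht.2]⟩
    have hac2 : volume.restrict (Ioc s (s + h)) ≪ mI :=
      Measure.absolutelyContinuous_of_le (Measure.restrict_mono hIoc le_rfl)
    set F : ℝ × E3 → E3 := fun p => W p - W (s, p.2) with hF
    have hFm : StronglyMeasurable F :=
      hWm.sub (hWm.comp_measurable (measurable_const.prodMk measurable_snd))
    have hdec : ∀ x, (h⁻¹ • ∫ t in s..(s + h), mo κ (U t) x) - U s x =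
        (h⁻¹ • ∫ t in s..(s + h), F (t, x)) + (mo κ (U s) x - U s x) := by
      intro x
      have h2 : ∫ t in s..(s + h), F (t, x) =
          ∫ t in s..(s + h), (mo κ (U t) x - mo κ (U s) x) := by
        rw [intervalIntegral.integral_of_le (by linarith),
          intervalIntegral.integral_of_le (by linarith)]
        apply integral_congr_ae
        filter_upwards [hac2.ae_le hWe] with t ht
        rw [ht x, hs2 x]
      rw [h2, intervalIntegral.integral_sub, intervalIntegral.integral_const,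
        show s + h - s = h by ring, smul_sub, smul_smul, inv_mul_cancel₀ h0.ne', one_smul]
      · abel
      · rw [intervalIntegrable_iff_integrableOn_Ioc_of_le (by linarith)]
        exact (hIt x).mono_measure (Measure.restrict_mono hIoc le_rfl)
      · exact intervalIntegrable_const
    have h3 : ∀ x, ENNReal.ofReal (‖(h⁻¹ • ∫ t in s..(s + h), mo κ (U t) x) - U s x‖ ^ 2) ≤
        2 * ‖h⁻¹ • ∫ t in s..(s + h), F (t, x)‖ₑ ^ 2 + 2 * ‖mo κ (U s) x - U s x‖ₑ ^ 2 := by
      intro x
      rw [hdec x, ENNReal.ofReal_pow (norm_nonneg _), ofReal_norm]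
      exact Av_two _ _
    refine (lintegral_mono h3).trans ?_
    have hmoB := hMoB (U s) hs1.l2
    have hb2 : MemLp (fun x => mo κ (U s) x - U s x) 2 volume :=
      (hmoB.2 C h κ hm).1.sub hs1.l2
    rw [lintegral_add_right' _ ((hb2.1.enorm.pow_const 2).const_mul 2),
      lintegral_const_mul' _ _ (by norm_num), lintegral_const_mul' _ _ (by norm_num), Av_lint hb2]
    gcongr
    · -- the average in time
      refine (Av_jensen h0 hFm).trans (mul_le_mul' le_rfl ?_)
      apply lintegral_mono_ae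
      have hmem2 : ∀ᵐ t ∂(volume.restrict (Ioc s (s + h))), t ∈ Ioc s (s + h) :=
        ae_restrict_mem measurableSet_Ioc
      filter_upwards [hmem2, hac2.ae_le hH1, hac2.ae_le hWe, hac2.ae_le hs3] with t ht ht1 ht2 ht3
      have h4 : ∀ x, F (t, x) = mo κ (fun y => U t y - U s y) x := by
        intro x
        rw [Av_sub hm.cc ht1.l2 hs1.l2, ht2 x, hs2 x]
      have h5 : MemLp (fun y => U t y - U s y) 2 volume := ht1.l2.sub hs1.l2
      have h6 := (hMoB _ h5).2 C h κ hm
      calc ∫⁻ x, ‖F (t, x)‖ₑ ^ 2 = ENNReal.ofReal (sq (mo κ (fun y => U t y - U s y))) := by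
            rw [← Av_lint h6.1]
            apply lintegral_congr
            intro x
            rw [h4 x]
        _ ≤ ENNReal.ofReal (K * (1 + g s + g t) * (E + h ^ (1 / 4 : ℝ))) := by
            apply ENNReal.ofReal_le_ofReal
            refine h6.2.1.trans ((ht3 ht.1).trans ?_)
            have h7 : (t - s) ^ (1 / 4 : ℝ) ≤ h ^ (1 / 4 : ℝ) :=
              Real.rpow_le_rpow (by linarith [ht.1]) (by linarith [ht.2]) (by norm_num)
            have h8 : 0 ≤ K * (1 + g s + g t) := by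
              have := Real.sqrt_nonneg (gs (a s))
              have := Real.sqrt_nonneg (gs (a t))
              rw [hg]
              positivity
            gcongr
        _ = c0 * (1 + ENNReal.ofReal (g s) + ENNReal.ofReal (g t)) := by
            have h9 : 0 ≤ g s := Real.sqrt_nonneg _
            have h10 : 0 ≤ g t := Real.sqrt_nonneg _
            rw [hc0, ← ENNReal.ofReal_one, ← ENNReal.ofReal_add zero_le_one h9,
              ← ENNReal.ofReal_add (by positivity) h10, ← ENNReal.ofReal_mul (by positivity)]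
            congr 1
            ring
    · -- mollification in space
      refine (hmoB.2 C h κ hm).2.2 _ fun z hz => ?_
      have h4 := hTr (U s) (a s) hs1 (-z)
      rw [norm_neg] at h4
      have h5 : (fun x => U s (x - z) - U s x) = fun x => U s (x + -z) - U s x := by
        funext x
        rw [sub_eq_add_neg x z]
      rw [h5]
      refine h4.trans ?_
      have h6 : ‖z‖ ^ 2 ≤ h ^ 2 := pow_le_pow_left₀ (norm_nonneg _) hz.le 2
      exact mul_le_mul_of_nonneg_right h6 (hgs0 s)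
  refine (lintegral_mono_ae hone).trans ?_
  -- summation
  have hgI : Integrable (fun s => gs (a s)) mI := hB.gint k
  have hgm : AEMeasurable (fun t => ENNReal.ofReal (g t)) mI :=
    (hgI.aestronglyMeasurable.aemeasurable.sqrt).ennreal_ofReal
  set G : ℝ → ℝ≥0∞ := hgm.mk _ with hG
  have hGm : Measurable G := hgm.measurable_mk
  have hGe : ∀ᵐ t ∂mI, ENNReal.ofReal (g t) = G t := hgm.ae_eq_mk
  have hG2 : ∫⁻ t in Ioo (-1 : ℝ) 0, G t ≤ ENNReal.ofReal (Real.sqrt K) := by
    have h2 := Av_cs (volume.restrict (Ioo (-1 : ℝ) 0)) hGm.aemeasurable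
    rw [Measure.restrict_apply_univ, Real.volume_Ioo] at h2
    norm_num at h2
    have h3 : ∫⁻ t in Ioo (-1 : ℝ) 0, G t ^ 2 ≤ ENNReal.ofReal K := by
      have h4 : ∫⁻ t in Ioo (-1 : ℝ) 0, G t ^ 2 =
          ∫⁻ t in Ioo (-1 : ℝ) 0, ENNReal.ofReal (gs (a t)) := by
        apply lintegral_congr_ae
        filter_upwards [hGe] with t ht
        rw [← ht, hg, ← ENNReal.ofReal_pow (Real.sqrt_nonneg _), Real.sq_sqrt (hgs0 t)]
      rw [h4, ← ofReal_integral_eq_lintegral_ofReal hgI (Eventually.of_forall fun t => hgs0 t)]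
      exact ENNReal.ofReal_le_ofReal (hB.gbd k)
    have h5 : (∫⁻ t in Ioo (-1 : ℝ) 0, G t) ^ 2 ≤ (ENNReal.ofReal (Real.sqrt K)) ^ 2 := by
      rw [← ENNReal.ofReal_pow (Real.sqrt_nonneg _), Real.sq_sqrt hK]
      exact h2.trans h3
    by_contra hlt
    rw [not_le] at hlt
    exact absurd h5 (not_le.2 (ENNReal.pow_lt_pow_left two_ne_zero hlt))
  have hG3 : ∫⁻ s in Ioo (-1 : ℝ) (-h), G s ≤ ENNReal.ofReal (Real.sqrt K) :=
    (lintegral_mono' hsub le_rfl).trans hG2
  have hG4 := Av_time (h := h) G hGm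
  have hstep : ∀ᵐ s ∂(volume.restrict (Ioo (-1 : ℝ) (-h))),
      2 * ((ENNReal.ofReal h)⁻¹ * ∫⁻ t in Ioc s (s + h),
          c0 * (1 + ENNReal.ofReal (g s) + ENNReal.ofReal (g t))) +
          2 * ENNReal.ofReal (h ^ 2 * gs (a s)) =
      (2 * c0 * (1 + G s) + 2 * ENNReal.ofReal (h ^ 2) * ENNReal.ofReal (gs (a s))) +
        2 * c0 * (ENNReal.ofReal h)⁻¹ * ∫⁻ t in Ioc s (s + h), G t := by
    have hmem : ∀ᵐ s ∂(volume.restrict (Ioo (-1 : ℝ) (-h))), s ∈ Ioo (-1 : ℝ) (-h) :=
      ae_restrict_mem measurableSet_Ioo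
    filter_upwards [hmem, hac.ae_le hGe] with s hs hs1
    have hIoc : Ioc s (s + h) ⊆ Ioo (-1 : ℝ) 0 := fun t ht =>
      ⟨by linarith [hs.1, ht.1], by linarith [hs.2, ht.2]⟩
    have hac2 : volume.restrict (Ioc s (s + h)) ≪ mI :=
      Measure.absolutelyContinuous_of_le (Measure.restrict_mono hIoc le_rfl)
    have h2 : ∫⁻ t in Ioc s (s + h), c0 * (1 + ENNReal.ofReal (g s) + ENNReal.ofReal (g t)) =
        c0 * (1 + G s) * ENNReal.ofReal h + c0 * ∫⁻ t in Ioc s (s + h), G t := by
      have h3 : ∫⁻ t in Ioc s (s + h), c0 * (1 + ENNReal.ofReal (g s) + ENNReal.ofReal (g t)) =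
          ∫⁻ t in Ioc s (s + h), (c0 * (1 + G s) + c0 * G t) := by
        apply lintegral_congr_ae
        filter_upwards [hac2.ae_le hGe] with t ht
        rw [hs1, ht, mul_add]
      rw [h3, lintegral_add_left measurable_const, setLIntegral_const, Real.volume_Ioc,
        show s + h - s = h by ring, lintegral_const_mul _ hGm]
    rw [h2, ENNReal.ofReal_mul (by positivity), mul_add (ENNReal.ofReal h)⁻¹,
      mul_comm (c0 * (1 + G s)) (ENNReal.ofReal h), ← mul_assoc (ENNReal.ofReal h)⁻¹,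
      ENNReal.inv_mul_cancel hh hh', one_mul]
    ring
  rw [lintegral_congr_ae hstep]
  have hm1 : AEMeasurable (fun s => 2 * c0 * (1 + G s) +
      2 * ENNReal.ofReal (h ^ 2) * ENNReal.ofReal (gs (a s)))
      (volume.restrict (Ioo (-1 : ℝ) (-h))) := by
    apply AEMeasurable.add
    · exact ((measurable_const.add hGm).const_mul _).aemeasurable
    · apply AEMeasurable.const_mul
      exact (hgI.aestronglyMeasurable.aemeasurable.ennreal_ofReal).mono_ac hac
  have hm2 : Measurable fun s => 2 * c0 * (1 + G s) := (measurable_const.add hGm).const_mul _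
  have hc0' : c0 ≠ ⊤ := by rw [hc0]; exact ENNReal.ofReal_ne_top
  have hm3 : Measurable fun s => 1 + G s := measurable_const.add hGm
  rw [lintegral_add_left' hm1, lintegral_add_left hm2, lintegral_const_mul _ hm3,
    lintegral_add_left measurable_const, lintegral_const_mul' _ _
      (by finiteness), lintegral_const_mul' _ _ (by
        apply ENNReal.mul_ne_top
        · exact ENNReal.mul_ne_top (by norm_num) hc0'
        · simpa using h0)]
  have hv : ∫⁻ _s in Ioo (-1 : ℝ) (-h), (1 : ℝ≥0∞) ≤ 1 := by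
    rw [setLIntegral_const, Real.volume_Ioo, one_mul, ← ENNReal.ofReal_one]
    apply ENNReal.ofReal_le_ofReal
    linarith
  have hgK : ∫⁻ s in Ioo (-1 : ℝ) (-h), ENNReal.ofReal (gs (a s)) ≤ ENNReal.ofReal K := by
    refine (lintegral_mono' hsub le_rfl).trans ?_
    rw [← ofReal_integral_eq_lintegral_ofReal hgI (Eventually.of_forall fun t => hgs0 t)]
    exact ENNReal.ofReal_le_ofReal (hB.gbd k)
  calc 2 * c0 * ((∫⁻ _s in Ioo (-1 : ℝ) (-h), (1 : ℝ≥0∞)) + ∫⁻ s in Ioo (-1 : ℝ) (-h), G s) +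
        2 * ENNReal.ofReal (h ^ 2) * (∫⁻ s in Ioo (-1 : ℝ) (-h), ENNReal.ofReal (gs (a s))) +
        2 * c0 * (ENNReal.ofReal h)⁻¹ *
          (∫⁻ s in Ioo (-1 : ℝ) (-h), ∫⁻ t in Ioc s (s + h), G t)
      ≤ 2 * c0 * (1 + ENNReal.ofReal (Real.sqrt K)) +
        2 * ENNReal.ofReal (h ^ 2) * ENNReal.ofReal K +
        2 * c0 * (ENNReal.ofReal h)⁻¹ * (ENNReal.ofReal h * ENNReal.ofReal (Real.sqrt K)) := by
        gcongr
        exact hG4.trans (by gcongr)
    _ = 2 * c0 * (1 + 2 * ENNReal.ofReal (Real.sqrt K)) +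
        2 * ENNReal.ofReal (h ^ 2) * ENNReal.ofReal K := by
        rw [mul_assoc (2 * c0), ← mul_assoc (ENNReal.ofReal h)⁻¹, ENNReal.inv_mul_cancel hh hh',
          one_mul]
        ring
    _ = ENNReal.ofReal RHS := by
        have h2 : (2 : ℝ≥0∞) = ENNReal.ofReal 2 := by simp
        have hs := Real.sqrt_nonneg K
        rw [hRHS, hc0, h2, ← ENNReal.ofReal_one, ← ENNReal.ofReal_mul (by norm_num),
          ← ENNReal.ofReal_mul (by norm_num), ← ENNReal.ofReal_mul (by norm_num),
          ← ENNReal.ofReal_add (by norm_num) (by positivity),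
          ← ENNReal.ofReal_mul (by positivity), ← ENNReal.ofReal_mul (by positivity),
          ← ENNReal.ofReal_add (by positivity) (by positivity)]
        congr 1
        ring

end Pool.Agent.Helper83.CR
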