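import Pool.Agent.Helper83.CR.St

/-!
# Project CR, module Bb: bounds in `L²(mQ)`
-/

set_option autoImplicit false

open MeasureTheory Set Filter Topology
open scoped ENNReal ContDiff

noncomputable section

namespace Pool.Agent.Helper83.CR

open Pool.Agent.Helper52.NSE (E3 pd divg TestField MemH1s MemL2s IsWeakSolution gradSq kin
  IsSmoothBoundedDomain)
open Pool.Agent.Helper60.EC (D Cc curl grad cr ip sq nl adv sm gsq fn Hs)

/-- Fubini: a field with a bound for almost every time is in `L²(mQ)` -/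
theorem Bb_key {f : ℝ → E3 → E3} {b : ℝ → ℝ} {K : ℝ}
    (hm : AEStronglyMeasurable (fun q : ℝ × E3 => f q.1 q.2) mQ)
    (h2 : ∀ᵐ s ∂mI, MemLp (f s) 2 volume) (hb : ∀ᵐ s ∂mI, sq (f s) ≤ b s)
    (hbi : Integrable b mI) (hK : ∫ s in Ioo (-1 : ℝ) 0, b s ≤ K) :
    MemLp (fun q : ℝ × E3 => f q.1 q.2) 2 mQ ∧ ∫ q : ℝ × E3, ‖f q.1 q.2‖ ^ 2 ∂mQ ≤ K := by
  have hmn : AEStronglyMeasurable (fun q : ℝ × E3 => ‖f q.1 q.2‖ ^ 2) mQ := hm.norm.pow 2
  have h2' : ∀ᵐ s ∂mI, Integrable (fun y => ‖f s y‖ ^ 2) volume := by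
    filter_upwards [h2] with s hs
    exact (memLp_two_iff_integrable_sq_norm hs.1).1 hs
  have hm1 : AEStronglyMeasurable (fun s => ∫ y, ‖f s y‖ ^ 2) mI :=
    hmn.integral_prod_right'
  have hi1 : Integrable (fun s => ∫ y, ‖f s y‖ ^ 2) mI := by
    refine hbi.mono' hm1 ?_
    filter_upwards [hb] with s hs
    rw [Real.norm_of_nonneg (integral_nonneg fun y => by positivity)]
    exact hs
  have hI : Integrable (fun q : ℝ × E3 => ‖f q.1 q.2‖ ^ 2) mQ := by
    rw [integrable_prod_iff hmn]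
    refine ⟨h2', ?_⟩
    refine hi1.congr (Eventually.of_forall fun s => ?_)
    simp only [norm_pow, norm_norm]
  refine ⟨(memLp_two_iff_integrable_sq_norm hm).2 hI, ?_⟩
  rw [integral_prod _ hI]
  refine le_trans ?_ hK
  exact integral_mono_ae hi1 hbi hb

theorem Bb_gs {A : Fin 3 → E3 → E3} (hA : ∀ i, MemLp (A i) 2 volume) (i : Fin 3) :
    sq (A i) ≤ gs A := by
  have hi : ∀ j, Integrable (fun x => ‖A j x‖ ^ 2) volume := fun j =>
    (memLp_two_iff_integrable_sq_norm (hA j).1).1 (hA j)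
  unfold Pool.Agent.Helper60.EC.sq gs
  refine integral_mono (hi i) (integrable_finsetSum _ fun j _ => hi j) fun x => ?_
  exact Finset.single_le_sum (f := fun j => ‖A j x‖ ^ 2) (fun j _ => by positivity)
    (Finset.mem_univ i)

/-- **Bb**. Elementary consequences of `BUS`. -/
theorem hBb : StBb := by
  intro O u A K c e h
  refine ⟨fun k => ?_, fun k i => ?_⟩
  · refine Bb_key (b := fun _ => K) (h.meas k) ?_ (h.energy k) (integrable_const K) ?_
    · filter_upwards [h.h1 k] with s hs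
      exact hs.l2
    · rw [setIntegral_const, measureReal_def, Real.volume_Ioo]
      norm_num
  · refine Bb_key (f := fun s => A k s i) (b := fun s => gs (A k s)) (h.gmeas k i) ?_ ?_
      (h.gint k) (h.gbd k)
    · filter_upwards [h.h1 k] with s hs
      exact hs.gl2 i
    · filter_upwards [h.h1 k] with s hs
      exact Bb_gs hs.gl2 i

end Pool.Agent.Helper83.CR
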