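import Pool.Agent.Helper83.CR.St

/-! Project CR, module Bt: calculus of the renormalising function -/

set_option autoImplicit false

open MeasureTheory Set Filter Topology
open scoped ENNReal ContDiff

noncomputable section

namespace Pool.Agent.Helper83.CR

open Pool.Agent.Helper52.NSE (E3)

theorem Bt_nonneg (κ : ℝ) (y : E3) : 0 ≤ bt κ y := by
  unfold bt
  have : 0 ≤ Real.log (1 + ‖y‖ ^ 2 / κ ^ 2) := Real.log_nonneg (by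
    have : 0 ≤ ‖y‖ ^ 2 / κ ^ 2 := by positivity
    linarith)
  linarith

theorem Bt_norm_gb {κ : ℝ} (hκ : 0 < κ) (y : E3) : ‖gb κ y‖ = ‖y‖ / (κ ^ 2 + ‖y‖ ^ 2) := by
  unfold gb
  rw [norm_smul, norm_inv, Real.norm_of_nonneg (by positivity), inv_mul_eq_div]

theorem Bt_r {κ r : ℝ} (hκ : 0 < κ) : r / (κ ^ 2 + r ^ 2) ≤ 1 / (2 * κ) := by
  rw [div_le_div_iff₀ (by positivity) (by positivity)]
  nlinarith [sq_nonneg (κ - r)]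

theorem Bt_gb_le {κ : ℝ} (hκ : 0 < κ) (y : E3) : ‖gb κ y‖ ≤ 1 / (2 * κ) := by
  rw [Bt_norm_gb hκ]
  exact Bt_r hκ

theorem Bt_gb_mul {κ : ℝ} (hκ : 0 < κ) (y : E3) : ‖gb κ y‖ * ‖y‖ ≤ 1 := by
  rw [Bt_norm_gb hκ, div_mul_eq_mul_div, div_le_one (by positivity)]
  nlinarith [sq_nonneg κ]

theorem Bt_fderiv {κ : ℝ} (hκ : 0 < κ) (y : E3) :
    HasFDerivAt (bt κ) (innerSL ℝ (gb κ y)) y := by
  have hpos : 0 < 1 + ‖y‖ ^ 2 / κ ^ 2 := by positivity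
  have h1 : HasFDerivAt (fun x : E3 => ‖x‖ ^ 2) (2 • (innerSL ℝ y)) y :=
    (hasStrictFDerivAt_norm_sq y).hasFDerivAt
  have h2 : HasFDerivAt (fun x : E3 => 1 + ‖x‖ ^ 2 / κ ^ 2)
      ((κ ^ 2)⁻¹ • (2 • (innerSL ℝ y))) y := by
    have := (h1.mul_const ((κ ^ 2)⁻¹)).const_add 1
    exact this
  have h3 := (h2.log hpos.ne').const_mul (1 / 2 : ℝ)
  have h4 : HasFDerivAt (bt κ) _ y := h3
  refine h4.congr_fderiv ?_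
  ext v
  have hk : κ ^ 2 + ‖y‖ ^ 2 ≠ 0 := by positivity
  have hk2 : κ ≠ 0 := hκ.ne'
  simp only [gb, smul_apply, innerSL_apply_apply, smul_eq_mul, nsmul_eq_mul, real_inner_smul_left]
  push_cast
  field_simp

theorem Bt_lip {κ : ℝ} (hκ : 0 < κ) (y y' : E3) : |bt κ y - bt κ y'| ≤ ‖y - y'‖ / (2 * κ) := by
  have h := Convex.norm_image_sub_le_of_norm_hasFDerivWithin_le (f := bt κ)
    (f' := fun z => innerSL ℝ (gb κ z)) (C := 1 / (2 * κ)) (s := univ) (x := y') (y := y)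
    (fun z _ => (Bt_fderiv hκ z).hasFDerivWithinAt)
    (fun z _ => by rw [innerSL_apply_norm]; exact Bt_gb_le hκ z) convex_univ trivial trivial
  rw [Real.norm_eq_abs] at h
  calc |bt κ y - bt κ y'| ≤ 1 / (2 * κ) * ‖y - y'‖ := h
    _ = _ := by ring

theorem Bt_zero (κ : ℝ) : bt κ 0 = 0 := by
  simp [bt]

theorem Bt_gb_lip {κ : ℝ} (hκ : 0 < κ) (y y' : E3) :
    ‖gb κ y - gb κ y'‖ ≤ 3 / κ ^ 2 * ‖y - y'‖ := by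
  have hp : 0 < κ ^ 2 + ‖y‖ ^ 2 := by positivity
  have hp' : 0 < κ ^ 2 + ‖y'‖ ^ 2 := by positivity
  have hκ2 : 0 < κ ^ 2 := by positivity
  have e : gb κ y - gb κ y' = (κ ^ 2 + ‖y‖ ^ 2)⁻¹ • (y - y') +
      ((κ ^ 2 + ‖y‖ ^ 2)⁻¹ - (κ ^ 2 + ‖y'‖ ^ 2)⁻¹) • y' := by
    unfold gb
    rw [smul_sub, sub_smul]
    abel
  have h1 : ‖(κ ^ 2 + ‖y‖ ^ 2)⁻¹ • (y - y')‖ ≤ 1 / κ ^ 2 * ‖y - y'‖ := by
    rw [norm_smul, norm_inv, Real.norm_of_nonneg hp.le]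
    refine mul_le_mul_of_nonneg_right ?_ (norm_nonneg _)
    rw [← one_div]
    exact one_div_le_one_div_of_le hκ2 (by nlinarith [sq_nonneg ‖y‖])
  have e2 : (κ ^ 2 + ‖y‖ ^ 2)⁻¹ - (κ ^ 2 + ‖y'‖ ^ 2)⁻¹ =
      (‖y'‖ - ‖y‖) * ((‖y'‖ + ‖y‖) / ((κ ^ 2 + ‖y‖ ^ 2) * (κ ^ 2 + ‖y'‖ ^ 2))) := by
    field_simp
    ring
  have h2 : ‖((κ ^ 2 + ‖y‖ ^ 2)⁻¹ - (κ ^ 2 + ‖y'‖ ^ 2)⁻¹) • y'‖ ≤ 2 / κ ^ 2 * ‖y - y'‖ := by
    rw [norm_smul, e2, norm_mul, Real.norm_eq_abs, Real.norm_eq_abs, abs_of_nonneg (a := (‖y'‖ + ‖y‖) / _)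
      (by positivity)]
    have a1 : |‖y'‖ - ‖y‖| ≤ ‖y - y'‖ := by
      rw [norm_sub_rev]
      exact abs_norm_sub_norm_le _ _
    have a2 : (‖y'‖ + ‖y‖) / ((κ ^ 2 + ‖y‖ ^ 2) * (κ ^ 2 + ‖y'‖ ^ 2)) * ‖y'‖ ≤ 2 / κ ^ 2 := by
      have b1 : ‖y'‖ * ‖y'‖ / ((κ ^ 2 + ‖y‖ ^ 2) * (κ ^ 2 + ‖y'‖ ^ 2)) ≤ 1 / κ ^ 2 := by
        rw [div_le_div_iff₀ (by positivity) (by positivity)]
        nlinarith [sq_nonneg ‖y‖, sq_nonneg ‖y'‖, mul_nonneg (sq_nonneg ‖y‖) (sq_nonneg ‖y'‖),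
          mul_nonneg (sq_nonneg κ) (sq_nonneg ‖y'‖), mul_nonneg (sq_nonneg κ) (sq_nonneg ‖y‖),
          mul_nonneg (sq_nonneg κ) (sq_nonneg κ)]
      have b2 : ‖y‖ * ‖y'‖ / ((κ ^ 2 + ‖y‖ ^ 2) * (κ ^ 2 + ‖y'‖ ^ 2)) ≤ 1 / κ ^ 2 := by
        have c1 := Bt_r (r := ‖y‖) hκ
        have c2 := Bt_r (r := ‖y'‖) hκ
        have e3 : ‖y‖ * ‖y'‖ / ((κ ^ 2 + ‖y‖ ^ 2) * (κ ^ 2 + ‖y'‖ ^ 2)) =
            ‖y‖ / (κ ^ 2 + ‖y‖ ^ 2) * (‖y'‖ / (κ ^ 2 + ‖y'‖ ^ 2)) := by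
          rw [div_mul_div_comm]
        rw [e3]
        calc _ ≤ 1 / (2 * κ) * (1 / (2 * κ)) := mul_le_mul c1 c2 (by positivity) (by positivity)
          _ = 1 / 4 * (1 / κ ^ 2) := by field_simp; ring
          _ ≤ 1 / κ ^ 2 := by
            have : 0 ≤ 1 / κ ^ 2 := by positivity
            linarith
      have e4 : (‖y'‖ + ‖y‖) / ((κ ^ 2 + ‖y‖ ^ 2) * (κ ^ 2 + ‖y'‖ ^ 2)) * ‖y'‖ =
          ‖y'‖ * ‖y'‖ / ((κ ^ 2 + ‖y‖ ^ 2) * (κ ^ 2 + ‖y'‖ ^ 2)) +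
          ‖y‖ * ‖y'‖ / ((κ ^ 2 + ‖y‖ ^ 2) * (κ ^ 2 + ‖y'‖ ^ 2)) := by ring
      have e5 : (2 : ℝ) / κ ^ 2 = 1 / κ ^ 2 + 1 / κ ^ 2 := by ring
      rw [e4, e5]
      exact add_le_add b1 b2
    calc |‖y'‖ - ‖y‖| * ((‖y'‖ + ‖y‖) / ((κ ^ 2 + ‖y‖ ^ 2) * (κ ^ 2 + ‖y'‖ ^ 2))) * ‖y'‖
        = |‖y'‖ - ‖y‖| * ((‖y'‖ + ‖y‖) / ((κ ^ 2 + ‖y‖ ^ 2) * (κ ^ 2 + ‖y'‖ ^ 2)) * ‖y'‖) := by ring
      _ ≤ ‖y - y'‖ * (2 / κ ^ 2) := mul_le_mul a1 a2 (by positivity) (norm_nonneg _)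
      _ = _ := by ring
  rw [e]
  refine (norm_add_le _ _).trans ?_
  calc _ ≤ 1 / κ ^ 2 * ‖y - y'‖ + 2 / κ ^ 2 * ‖y - y'‖ := add_le_add h1 h2
    _ = _ := by ring

theorem Bt_small {κ : ℝ} (hκ : 0 < κ) (h3 : κ ≤ 1 / 3) (y : E3) :
    bt κ y ≤ Real.log (1 / κ) * (1 + ‖y‖) := by
  have hr : 0 ≤ ‖y‖ := norm_nonneg _
  have h1 : 1 + ‖y‖ ^ 2 / κ ^ 2 ≤ ((1 + ‖y‖) * (1 / κ)) ^ 2 := by
    have e1 : 1 + ‖y‖ ^ 2 / κ ^ 2 = (κ ^ 2 + ‖y‖ ^ 2) / κ ^ 2 := by field_simp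
    have e2 : ((1 + ‖y‖) * (1 / κ)) ^ 2 = (1 + ‖y‖) ^ 2 / κ ^ 2 := by field_simp
    rw [e1, e2]
    refine div_le_div_of_nonneg_right ?_ (by positivity)
    nlinarith
  have h2 : Real.log (1 + ‖y‖ ^ 2 / κ ^ 2) ≤ 2 * Real.log ((1 + ‖y‖) * (1 / κ)) := by
    have := Real.log_le_log (by positivity) h1
    rwa [Real.log_pow, Nat.cast_ofNat] at this
  have h4 : Real.log ((1 + ‖y‖) * (1 / κ)) = Real.log (1 + ‖y‖) + Real.log (1 / κ) :=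
    Real.log_mul (by positivity) (by positivity)
  have h5 : Real.log (1 + ‖y‖) ≤ ‖y‖ := by
    have := Real.log_le_sub_one_of_pos (x := 1 + ‖y‖) (by positivity)
    linarith
  have h6 : 1 ≤ Real.log (1 / κ) := by
    have h7 : (3 : ℝ) ≤ 1 / κ := by
      rw [le_div_iff₀ hκ]
      linarith
    rw [Real.le_log_iff_exp_le (by positivity)]
    have := Real.exp_one_lt_d9
    linarith
  unfold bt
  nlinarith

theorem Bt_lim (y : E3) : Tendsto (fun n : ℕ => bt (1 / ((n : ℝ) + 3)) y / Real.log ((n : ℝ) + 3))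
    atTop (𝓝 (iz y)) := by
  by_cases hy : y = 0
  · subst hy
    simp [Bt_zero, iz]
  · have hiz : iz y = 1 := by simp [iz, hy]
    rw [hiz]
    have ha : 0 < ‖y‖ ^ 2 := by
      have := norm_pos_iff.2 hy
      positivity
    have hm : Tendsto (fun n : ℕ => (n : ℝ) + 3) atTop atTop :=
      tendsto_atTop_add_const_right _ _ tendsto_natCast_atTop_atTop
    have hlog : Tendsto (fun n : ℕ => Real.log ((n : ℝ) + 3)) atTop atTop :=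
      Real.tendsto_log_atTop.comp hm
    have hinv : Tendsto (fun n : ℕ => (((n : ℝ) + 3) ^ 2)⁻¹) atTop (𝓝 0) := by
      have := (tendsto_inv_atTop_zero.comp hm).pow 2
      rw [zero_pow two_ne_zero] at this
      refine this.congr fun n => ?_
      simp only [Function.comp_apply, inv_pow]
    have h1 : Tendsto (fun n : ℕ => Real.log (‖y‖ ^ 2 + (((n : ℝ) + 3) ^ 2)⁻¹)) atTop
        (𝓝 (Real.log (‖y‖ ^ 2))) := by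
      have h0 : Tendsto (fun n : ℕ => ‖y‖ ^ 2 + (((n : ℝ) + 3) ^ 2)⁻¹) atTop (𝓝 (‖y‖ ^ 2 + 0)) :=
        hinv.const_add _
      rw [add_zero] at h0
      exact h0.log ha.ne'
    have h2 : Tendsto (fun n : ℕ => 1 + (1 / 2) * Real.log (‖y‖ ^ 2 + (((n : ℝ) + 3) ^ 2)⁻¹) /
        Real.log ((n : ℝ) + 3)) atTop (𝓝 (1 + 0)) :=
      ((h1.const_mul (1 / 2)).div_atTop hlog).const_add 1
    rw [add_zero] at h2
    refine h2.congr fun n => ?_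
    have hn : (0 : ℝ) < (n : ℝ) + 3 := by positivity
    have hl : 0 < Real.log ((n : ℝ) + 3) := Real.log_pos (by
      have : (0 : ℝ) ≤ n := Nat.cast_nonneg n
      linarith)
    have e1 : 1 + ‖y‖ ^ 2 / (1 / ((n : ℝ) + 3)) ^ 2 =
        ((n : ℝ) + 3) ^ 2 * (‖y‖ ^ 2 + (((n : ℝ) + 3) ^ 2)⁻¹) := by
      field_simp
      ring
    have e2 : Real.log (((n : ℝ) + 3) ^ 2 * (‖y‖ ^ 2 + (((n : ℝ) + 3) ^ 2)⁻¹)) =
        2 * Real.log ((n : ℝ) + 3) + Real.log (‖y‖ ^ 2 + (((n : ℝ) + 3) ^ 2)⁻¹) := by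
      rw [Real.log_mul (by positivity) (by positivity), Real.log_pow, Nat.cast_ofNat]
    unfold bt
    rw [e1, e2]
    field_simp

theorem hBt : StBt :=
  ⟨fun κ hκ => ⟨Bt_nonneg κ, fun y => by
      have := Bt_lip hκ y 0
      rwa [Bt_zero, sub_zero, sub_zero, abs_of_nonneg (Bt_nonneg κ y)] at this,
    Bt_lip hκ, Bt_gb_le hκ, Bt_gb_mul hκ, Bt_gb_lip hκ, Bt_fderiv hκ, fun h3 => Bt_small hκ h3⟩,
    Bt_lim⟩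

end Pool.Agent.Helper83.CR
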