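import Pool.Agent.Helper83.CR.St
import Pool.Agent.Helper60.EC.G4b

/-! Project CR: module Bus -/

set_option autoImplicit false

open MeasureTheory Set Filter Topology
open scoped ENNReal ContDiff

noncomputable section

namespace Pool.Agent.Helper83.CR

open Pool.Agent.Helper52.NSE (E3 pd divg TestField MemH1s MemL2s IsWeakSolution gradSq kin
  IsSmoothBoundedDomain)
open Pool.Agent.Helper60.EC (D Cc curl grad cr ip sq nl adv sm gsq fn Hs)

theorem Bus_sv (Ω : Set E3) (u : ℝ → E3 → E3) (t₀ r : ℝ) (z : E3) (s : ℝ) (y : E3) :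
    sv Ω u t₀ r (r • z) s y = sv Ω u t₀ r 0 s (z + y) := by
  unfold sv
  rw [zero_add, smul_add]

theorem Bus_sA (Ω : Set E3) (G : ℝ → Fin 3 → E3 → E3) (t₀ r : ℝ) (z : E3) (s : ℝ) (i : Fin 3)
    (y : E3) : sA Ω G t₀ r (r • z) s i y = sA Ω G t₀ r 0 s i (z + y) := by
  unfold sA
  rw [zero_add, smul_add]

theorem Bus_gs (Ω : Set E3) (G : ℝ → Fin 3 → E3 → E3) (t₀ r : ℝ) (z : E3) (s : ℝ) :
    gs (sA Ω G t₀ r (r • z) s) = gs (sA Ω G t₀ r 0 s) := by
  unfold gs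
  simp only [Bus_sA]
  exact integral_add_left_eq_self (fun y => ∑ i, ‖sA Ω G t₀ r 0 s i y‖ ^ 2) z

/-- the mass in a ball, as a function of the time, is integrable -/
theorem Bus_int {w : ℝ → E3 → E3} {K : ℝ}
    (hm : AEStronglyMeasurable (fun q : ℝ × E3 => w q.1 q.2) mQ)
    (hE : ∀ s ∈ Icc (-1 : ℝ) 0, MemLp (w s) 2 volume ∧ sq (w s) ≤ K) (B : Set E3) :
    Integrable (fun s => ∫ x in B, ‖w s x‖ ^ 2) mI := by
  have h1 : AEStronglyMeasurable (fun q : ℝ × E3 => ‖w q.1 q.2‖ ^ 2) mQ := (hm.norm).pow 2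
  have h2 : AEStronglyMeasurable (fun q : ℝ × E3 => ‖w q.1 q.2‖ ^ 2)
      (mI.prod (volume.restrict B)) := by
    refine h1.mono_ac ?_
    exact Measure.AbsolutelyContinuous.prod (Measure.AbsolutelyContinuous.refl _)
      Measure.restrict_le_self.absolutelyContinuous
  have h3 : AEStronglyMeasurable (fun s => ∫ x in B, ‖w s x‖ ^ 2) mI := h2.integral_prod_right'
  refine Integrable.mono' (integrable_const K) h3 ?_
  filter_upwards [ae_restrict_mem measurableSet_Ioo] with s hs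
  obtain ⟨m, hk⟩ := hE s ⟨hs.1.le, hs.2.le⟩
  rw [Real.norm_of_nonneg (integral_nonneg fun x => by positivity)]
  refine le_trans ?_ hk
  exact setIntegral_le_integral ((memLp_two_iff_integrable_sq_norm m.1).1 m)
    (Eventually.of_forall fun x => by positivity)

theorem Bus_mass {v w : ℝ → E3 → E3} {y z : E3} {K δ : ℝ}
    (hw : ∀ s x, w s x = v s (z + x))
    (hm : AEStronglyMeasurable (fun q : ℝ × E3 => w q.1 q.2) mQ)
    (hE : ∀ s ∈ Icc (-1 : ℝ) 0, MemLp (w s) 2 volume ∧ sq (w s) ≤ K)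
    (hz : z ∈ Metric.ball y 1)
    (h : δ ≤ ∫ s in Ioo (-1 : ℝ) 0, ∫ x in Metric.ball y 1, ‖v s x‖ ^ 2) :
    δ ≤ ∫ s in Ioo (-1 : ℝ) 0, ∫ x in Metric.ball (0 : E3) 2, ‖w s x‖ ^ 2 := by
  refine h.trans ?_
  refine integral_mono_of_nonneg ?_ (Bus_int hm hE _) ?_
  · exact Eventually.of_forall fun s => integral_nonneg fun x => by positivity
  filter_upwards [ae_restrict_mem measurableSet_Ioo] with s hs
  obtain ⟨m, hk⟩ := hE s ⟨hs.1.le, hs.2.le⟩
  have e1 : ∫ x in Metric.ball y 1, ‖v s x‖ ^ 2 = ∫ x in Metric.ball (y - z) 1, ‖w s x‖ ^ 2 := by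
    rw [← integral_indicator Metric.isOpen_ball.measurableSet,
      ← integral_indicator Metric.isOpen_ball.measurableSet,
      ← integral_add_left_eq_self
        (fun x => (Metric.ball y 1).indicator (fun x => ‖v s x‖ ^ 2) x) z]
    refine integral_congr_ae (Eventually.of_forall fun x => ?_)
    simp only
    have e2 : z + x ∈ Metric.ball y 1 ↔ x ∈ Metric.ball (y - z) 1 := by
      rw [Metric.mem_ball, Metric.mem_ball, dist_eq_norm, dist_eq_norm]
      have : z + x - y = x - (y - z) := by abel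
      rw [this]
    by_cases hx : x ∈ Metric.ball (y - z) 1
    · rw [indicator_of_mem hx, indicator_of_mem (e2.2 hx), hw]
    · rw [indicator_of_notMem hx, indicator_of_notMem (fun hh => hx (e2.1 hh))]
  rw [e1]
  have hsub : Metric.ball (y - z) 1 ⊆ Metric.ball (0 : E3) 2 := by
    intro x hx
    rw [Metric.mem_ball, dist_eq_norm] at hx hz
    rw [mem_ball_zero_iff]
    have e3 : x = (x - (y - z)) - (z - y) := by abel
    calc ‖x‖ = ‖(x - (y - z)) - (z - y)‖ := by rw [← e3]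
      _ ≤ ‖x - (y - z)‖ + ‖z - y‖ := norm_sub_le _ _
      _ < 2 := by linarith
  exact setIntegral_mono_set ((memLp_two_iff_integrable_sq_norm m.1).1 m).integrableOn
    (Eventually.of_forall fun x => by positivity) hsub.eventuallyLE

/-- the final value is small on balls -/
theorem Bus_ip {Ω : Set E3} (hΩ : MeasurableSet Ω) {u : ℝ → E3 → E3} {t₀ r : ℝ} (hr : 0 < r)
    (x₀ : E3) (hs : MemLp (sv Ω u t₀ r x₀ 0) 2 volume) {φ : E3 → E3} (hφ : Cc φ) {ρ : ℝ}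
    (hρ : tsupport φ ⊆ Metric.ball 0 ρ) :
    |ip (sv Ω u t₀ r x₀ 0) φ| ≤
      Real.sqrt (∫ x in Ω ∩ Metric.ball x₀ (r * ρ), ‖u t₀ x‖ ^ 2) * Real.sqrt (sq φ) := by
  have hφm : MemLp φ 2 volume := hφ.smooth.continuous.memLp_of_hasCompactSupport hφ.comp
  have hr3 : (0 : ℝ) < r ^ 3 := by positivity
  have hp1 : (0 : ℝ) < r ^ (3 / 2 : ℝ) := Real.rpow_pos_of_pos hr _
  have h1 : ip (sv Ω u t₀ r x₀ 0) φ =
      ∫ x in Metric.ball 0 ρ, inner ℝ (sv Ω u t₀ r x₀ 0 x) (φ x) := by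
    unfold ip
    rw [setIntegral_eq_integral_of_forall_compl_eq_zero]
    intro x hx
    have : φ x = 0 := by
      by_contra hne
      exact hx (hρ (subset_tsupport _ hne))
    rw [this, inner_zero_right]
  have h5 := Pool.Agent.Helper52.NSE.cs (Ω := Metric.ball 0 ρ) (f := sv Ω u t₀ r x₀ 0) (g := φ)
    (hs.restrict _) (hφm.restrict _)
  have h6 : Pool.Agent.Helper52.NSE.nm (Metric.ball 0 ρ) φ ≤ Real.sqrt (sq φ) := by
    unfold Pool.Agent.Helper52.NSE.nm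
    apply Real.sqrt_le_sqrt
    unfold Pool.Agent.Helper60.EC.sq
    refine setIntegral_le_integral ?_ (Eventually.of_forall fun x => by positivity)
    exact (memLp_two_iff_integrable_sq_norm hφm.1).1 hφm
  have h7 : Pool.Agent.Helper52.NSE.nm (Metric.ball 0 ρ) (sv Ω u t₀ r x₀ 0) =
      Real.sqrt (∫ x in Ω ∩ Metric.ball x₀ (r * ρ), ‖u t₀ x‖ ^ 2) := by
    unfold Pool.Agent.Helper52.NSE.nm
    congr 1
    rw [← integral_indicator Metric.isOpen_ball.measurableSet,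
      ← integral_indicator (hΩ.inter Metric.isOpen_ball.measurableSet)]
    have h8 : ∀ y : E3, (Metric.ball 0 ρ).indicator (fun y => ‖sv Ω u t₀ r x₀ 0 y‖ ^ 2) y =
        r ^ 3 * (Ω ∩ Metric.ball x₀ (r * ρ)).indicator (fun x => ‖u t₀ x‖ ^ 2) (x₀ + r • y) := by
      intro y
      have e2 : x₀ + r • y ∈ Metric.ball x₀ (r * ρ) ↔ y ∈ Metric.ball 0 ρ := by
        rw [Metric.mem_ball, mem_ball_zero_iff, dist_eq_norm, add_sub_cancel_left, norm_smul,
          Real.norm_of_nonneg hr.le, mul_lt_mul_iff_right₀ hr]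
      by_cases hy : y ∈ Metric.ball 0 ρ
      · rw [indicator_of_mem hy]
        unfold sv ze
        rw [mul_zero, add_zero]
        by_cases hyo : x₀ + r • y ∈ Ω
        · have hyb : x₀ + r • y ∈ Ω ∩ Metric.ball x₀ (r * ρ) := ⟨hyo, e2.2 hy⟩
          rw [indicator_of_mem hyo, indicator_of_mem hyb, norm_smul,
            Real.norm_of_nonneg hp1.le, mul_pow, pow_two (r ^ (3 / 2 : ℝ)),
            Pool.Agent.Helper60.EC.G4a_rpow1 hr]
        · rw [indicator_of_notMem hyo, indicator_of_notMem (fun hh => hyo hh.1), smul_zero,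
            norm_zero]
          ring
      · rw [indicator_of_notMem hy, indicator_of_notMem (fun hh => hy (e2.1 hh.2)), mul_zero]
    simp only [h8]
    rw [integral_const_mul, Pool.Agent.Helper60.EC.G4a_cov _ x₀ hr, ← mul_assoc,
      mul_inv_cancel₀ hr3.ne', one_mul]
  rw [h1]
  refine h5.trans ?_
  rw [h7]
  exact mul_le_mul_of_nonneg_left h6 (Real.sqrt_nonneg _)

theorem Bus_rp {r : ℕ → ℝ} (hr0 : Tendsto r atTop (𝓝 0)) {a : ℝ} (ha : 0 < a) :
    Tendsto (fun j => r j ^ a) atTop (𝓝 0) := by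
  have h1 : ContinuousAt (fun d : ℝ => d ^ a) 0 := continuousAt_id.rpow_const (Or.inr ha.le)
  have h2 := h1.tendsto.comp hr0
  rw [Real.zero_rpow ha.ne'] at h2
  exact h2

theorem Bus_F {Ω : Set E3} {ν T : ℝ} {u₀ : E3 → E3} {f u : ℝ → E3 → E3}
    {G : ℝ → Fin 3 → E3 → E3} (h : IsWeakSolution Ω ν T u₀ f u G) {t₀ : ℝ} (ht₀ : t₀ ∈ Ioc 0 T)
    {r : ℕ → ℝ} (hr : ∀ j, 0 < r j ∧ r j ^ (5 / 2 : ℝ) ≤ t₀) (hr0 : Tendsto r atTop (𝓝 0)) :
    Tendsto (fun j => ∫ τ in (t₀ - r j ^ (5 / 2 : ℝ))..t₀, fn Ω f τ) atTop (𝓝 0) := by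
  rw [Metric.tendsto_atTop]
  intro ε hε
  obtain ⟨δ, hδ, h1⟩ := Pool.Agent.Helper60.EC.G3b_small h ht₀ hε
  have h2 := Metric.tendsto_atTop.1 (Bus_rp hr0 (a := 5 / 2) (by norm_num)) δ hδ
  obtain ⟨N, hN⟩ := h2
  refine ⟨N, fun j hj => ?_⟩
  have hp : (0 : ℝ) < r j ^ (5 / 2 : ℝ) := Real.rpow_pos_of_pos (hr j).1 _
  have h3 := hN j hj
  rw [Real.dist_eq, sub_zero, abs_of_pos hp] at h3
  rw [Real.dist_eq, sub_zero, abs_of_nonneg (intervalIntegral.integral_nonneg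
    (by linarith) fun τ _ => Pool.Agent.Helper60.EC.G4b_fn_nonneg Ω f τ)]
  exact h1 _ (by linarith [(hr j).2]) (by linarith) (by linarith)

theorem hBus (h1 : StLow) (h2 : StFr) (h3 : StFrT) (h4 : StCen) : StBus := by
  intro Ω ν T u₀ f u G hO hb hν hw t₀ ht₀ hloss hcr
  obtain ⟨r, M, c, hr, hrt, hc, hM, hlow⟩ := h1 Ω ν T u₀ f u G hO hb hν hw t₀ ht₀ hloss hcr
  obtain ⟨K, hK⟩ := hw.bound
  obtain ⟨C, hC, hT⟩ := h3
  have hK0 : 0 ≤ K :=
    (integral_nonneg fun x => by positivity).trans (hK t₀ ⟨ht₀.1.le, ht₀.2⟩)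
  obtain ⟨P, hP⟩ : ∃ P : ℝ, P = 1 + C * K ^ (1 / 4 : ℝ) * M ^ (3 / 4 : ℝ) := ⟨_, rfl⟩
  have hP0 : 0 ≤ P := by
    rw [hP]
    have := mul_nonneg (mul_nonneg hC.le (Real.rpow_nonneg hK0 (1 / 4)))
      (Real.rpow_nonneg hM (3 / 4))
    linarith
  obtain ⟨K', hKK, hMK, hPK, h1K⟩ : ∃ K' : ℝ, K ≤ K' ∧ M ≤ K' ∧ P ≤ K' ∧ 1 ≤ K' :=
    ⟨K + M + P + 1, by linarith, by linarith, by linarith, by linarith⟩
  have hK'0 : 0 < K' := by linarith
  obtain ⟨e₀, δ, he₀, hδ, hcen⟩ := h4 K' c hK'0 hc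
  obtain ⟨F, hF⟩ : ∃ F : ℕ → ℝ, ∀ j, F j = ∫ τ in (t₀ - r j ^ (5 / 2 : ℝ))..t₀, fn Ω f τ :=
    ⟨_, fun _ => rfl⟩
  have hF0 : ∀ j, 0 ≤ F j := by
    intro j
    rw [hF]
    have hp : (0 : ℝ) < r j ^ (5 / 2 : ℝ) := Real.rpow_pos_of_pos (hr j).1 _
    exact intervalIntegral.integral_nonneg (by linarith) fun τ _ =>
      Pool.Agent.Helper60.EC.G4b_fn_nonneg Ω f τ
  have hFt : Tendsto F atTop (𝓝 0) := by
    have := Bus_F hw ht₀ hr hrt
    refine this.congr fun j => (hF j).symm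
  have hFr : ∀ j (x₀ : E3), Fr {y | x₀ + r j • y ∈ Ω} K (ν * r j ^ (1 / 2 : ℝ)) (F j)
      (sv Ω u t₀ (r j) x₀) (sA Ω G t₀ (r j) x₀) := by
    intro j x₀
    rw [hF]
    exact h2 Ω ν T u₀ f u G hO hb hν hw K hK t₀ ht₀ (r j) (hr j).1 (hr j).2 x₀
  have hn0 : ∀ j, 0 ≤ ν * r j ^ (1 / 2 : ℝ) := fun j =>
    mul_nonneg hν.le (Real.rpow_nonneg (hr j).1.le _)
  have hnt : Tendsto (fun j => ν * r j ^ (1 / 2 : ℝ)) atTop (𝓝 0) := by
    have := (Bus_rp hrt (a := 1 / 2) (by norm_num)).const_mul ν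
    rwa [mul_zero] at this
  obtain ⟨e, he⟩ : ∃ e : ℕ → ℝ, ∀ j, e j =
      ν * r j ^ (1 / 2 : ℝ) * Real.sqrt M + 2 * Real.sqrt K * F j := ⟨_, fun _ => rfl⟩
  have hen : ∀ j, 0 ≤ e j := by
    intro j
    rw [he]
    have a1 := mul_nonneg (hn0 j) (Real.sqrt_nonneg M)
    have a2 := mul_nonneg (mul_nonneg (by norm_num : (0 : ℝ) ≤ 2) (Real.sqrt_nonneg K)) (hF0 j)
    linarith
  have het : Tendsto e atTop (𝓝 0) := by
    have a1 := (hnt.mul_const (Real.sqrt M)).add (hFt.const_mul (2 * Real.sqrt K))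
    rw [zero_mul, mul_zero, add_zero] at a1
    exact a1.congr fun j => (he j).symm
  have hgs : ∀ j (z : E3), ∫ s in Ioo (-1 : ℝ) 0, gs (sA Ω G t₀ (r j) (r j • z) s) ≤ M := by
    intro j z
    simp only [Bus_gs]
    exact (hlow j).1
  have htime : ∀ j (z : E3), ∀ᵐ s ∂mI, ∀ᵐ t ∂mI, s < t →
      sq (fun y => sv Ω u t₀ (r j) (r j • z) t y - sv Ω u t₀ (r j) (r j • z) s y) ≤
        K' * (1 + Real.sqrt (gs (sA Ω G t₀ (r j) (r j • z) s)) +
          Real.sqrt (gs (sA Ω G t₀ (r j) (r j • z) t))) * (e j + (t - s) ^ (1 / 4 : ℝ)) := by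
    intro j z
    have a1 := hT _ K _ (F j) _ _ M (hFr j (r j • z)) hK0 (hn0 j) (hF0 j) hM (hgs j z)
    filter_upwards [a1] with s hs
    filter_upwards [hs] with t ht hst
    refine (ht hst).trans ?_
    rw [← hP, ← he]
    have b1 : 0 ≤ (t - s) ^ (1 / 4 : ℝ) := Real.rpow_nonneg (by linarith) _
    have b2 := Real.sqrt_nonneg (gs (sA Ω G t₀ (r j) (r j • z) s))
    have b3 := Real.sqrt_nonneg (gs (sA Ω G t₀ (r j) (r j • z) t))
    exact mul_le_mul_of_nonneg_right (mul_le_mul_of_nonneg_right hPK (by linarith))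
      (by linarith [hen j])
  obtain ⟨N, hN⟩ : ∃ N, ∀ j, N ≤ j → e j ≤ e₀ :=
    eventually_atTop.1 (het.eventually (ge_mem_nhds he₀))
  have hy : ∀ j, ∃ z : E3, r (j + N) • z ∈ Ω ∧ ∃ y, z ∈ Metric.ball y 1 ∧
      δ ≤ ∫ s in Ioo (-1 : ℝ) 0, ∫ x in Metric.ball y 1,
        ‖sv Ω u t₀ (r (j + N)) 0 s x‖ ^ 2 := by
    intro j
    have g := hFr (j + N) 0
    have b1 : ∀ᵐ s ∂mI, sq (sv Ω u t₀ (r (j + N)) 0 s) ≤ K' := by
      filter_upwards [ae_restrict_mem measurableSet_Ioo] with s hs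
      exact (g.energy s ⟨hs.1.le, hs.2.le⟩).2.trans hKK
    have b2 := htime (j + N) 0
    simp only [smul_zero] at b2
    obtain ⟨y, hy⟩ := hcen _ _ (e (j + N)) (hen _) (hN _ (Nat.le_add_left N j)) g.meas g.h1 b1
      g.gint ((hlow (j + N)).1.trans hMK) b2 (hlow (j + N)).2
    by_contra hne
    push Not at hne
    have b3 : ∀ z ∈ Metric.ball y 1, r (j + N) • z ∉ Ω := by
      intro z hz hzo
      exact absurd hy (not_le.2 (hne z hzo y hz))
    have b4 : ∀ s, ∫ x in Metric.ball y 1, ‖sv Ω u t₀ (r (j + N)) 0 s x‖ ^ 2 = 0 := by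
      intro s
      refine setIntegral_eq_zero_of_forall_eq_zero fun x hx => ?_
      rw [g.off s x (by
        simp only [mem_ofPred_eq, zero_add]
        exact b3 x hx), norm_zero]
      ring
    simp only [b4, integral_zero] at hy
    linarith
  choose z hz y hzy hmass using hy
  refine ⟨fun j => r (j + N) • z j, fun j => r (j + N),
    fun j => sv Ω u t₀ (r (j + N)) (r (j + N) • z j),
    fun j => sA Ω G t₀ (r (j + N)) (r (j + N) • z j), K', δ, fun j => e (j + N), hz,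
    fun j => (hr _).1, hrt.comp (tendsto_add_atTop_nat N), hK'0.le, hδ, ?_⟩
  have hu : MemLp (u t₀) 2 (volume.restrict Ω) := (hw.mem t₀ ⟨ht₀.1.le, ht₀.2⟩).memLp
  constructor
  · exact fun k => (hFr _ _).meas
  · exact fun k => (hFr _ _).gmeas
  · exact fun k => (hFr _ _).off
  · exact fun k => (hFr _ _).goff
  · exact fun k => (hFr _ _).h1
  · exact fun k => (hFr _ _).div
  · intro k
    filter_upwards [ae_restrict_mem measurableSet_Ioo] with s hs
    exact ((hFr (k + N) (r (k + N) • z k)).energy s ⟨hs.1.le, hs.2.le⟩).2.trans hKK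
  · exact fun k => (hFr _ _).gint
  · exact fun k => (hgs _ _).trans hMK
  · exact fun k => hen _
  · exact het.comp (tendsto_add_atTop_nat N)
  · exact fun k => htime _ _
  · -- eqn
    intro θ hθ φ
    by_cases hφ : ∃ k, TestField {y | r (k + N) • z k + r (k + N) • y ∈ Ω} φ
    · obtain ⟨k₀, hk₀⟩ := hφ
      have hφc : Cc φ := ⟨hk₀.smooth, hk₀.compact⟩
      obtain ⟨Mθ, hMθ⟩ : ∃ Mθ : ℝ, ∀ s, |θ s| ≤ Mθ := by
        obtain ⟨B, hB⟩ := hθ.smooth.continuous.bounded_above_of_compact_support hθ.comp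
        exact ⟨B, fun s => by simpa [Real.norm_eq_abs] using hB s⟩
      have hMθ0 : 0 ≤ Mθ := (abs_nonneg _).trans (hMθ 0)
      obtain ⟨ρ, hρ⟩ := hφc.comp.isCompact.isBounded.subset_ball (0 : E3)
      have a1 := Pool.Agent.Helper60.EC.G4b_ball hu (fun j => r (j + N) • z j)
        (hrt.comp (tendsto_add_atTop_nat N)) (fun j => (hr (j + N)).1) ρ
      have a2 := (((hnt.comp (tendsto_add_atTop_nat N)).mul_const (Real.sqrt (gsq φ))).mul_const
        (Real.sqrt M)).add ((hFt.comp (tendsto_add_atTop_nat N)).const_mul (Real.sqrt (sq φ)))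
      have a3 := (a2.const_mul Mθ).add ((a1.mul_const (Real.sqrt (sq φ))).const_mul Mθ)
      simp only [zero_mul, mul_zero, add_zero] at a3
      refine ⟨_, a3, fun k hk => ?_⟩
      have g := hFr (k + N) (r (k + N) • z k)
      have b1 := g.eqn θ hθ Mθ hMθ φ hk
      have b2 := Bus_ip hO.measurableSet (hr (k + N)).1 (r (k + N) • z k)
        (g.energy 0 ⟨by norm_num, le_rfl⟩).1 hφc hρ
      have b3 : |θ 0 * ip (sv Ω u t₀ (r (k + N)) (r (k + N) • z k) 0) φ| ≤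
          Mθ * (Real.sqrt (∫ x in Ω ∩ Metric.ball (r (k + N) • z k) (r (k + N) * ρ),
            ‖u t₀ x‖ ^ 2) * Real.sqrt (sq φ)) := by
        rw [abs_mul]
        exact mul_le_mul (hMθ 0) b2 (abs_nonneg _) hMθ0
      have b4 : Real.sqrt (∫ s in Ioo (-1 : ℝ) 0,
          gs (sA Ω G t₀ (r (k + N)) (r (k + N) • z k) s)) ≤ Real.sqrt M :=
        Real.sqrt_le_sqrt (hgs _ _)
      have b5 : Mθ * (ν * r (k + N) ^ (1 / 2 : ℝ) * Real.sqrt (gsq φ) *
          Real.sqrt (∫ s in Ioo (-1 : ℝ) 0, gs (sA Ω G t₀ (r (k + N)) (r (k + N) • z k) s)) +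
          Real.sqrt (sq φ) * F (k + N)) ≤ Mθ * (ν * r (k + N) ^ (1 / 2 : ℝ) *
            Real.sqrt (gsq φ) * Real.sqrt M + Real.sqrt (sq φ) * F (k + N)) := by
        refine mul_le_mul_of_nonneg_left (add_le_add ?_ le_rfl) hMθ0
        exact mul_le_mul_of_nonneg_left b4 (mul_nonneg (hn0 _) (Real.sqrt_nonneg _))
      have b6 := abs_add_le ((∫ s in Ioo (-1 : ℝ) 0,
        (deriv θ s * ip (sv Ω u t₀ (r (k + N)) (r (k + N) • z k) s) φ +
          θ s * nl φ (sv Ω u t₀ (r (k + N)) (r (k + N) • z k) s))) -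
            θ 0 * ip (sv Ω u t₀ (r (k + N)) (r (k + N) • z k) 0) φ)
        (θ 0 * ip (sv Ω u t₀ (r (k + N)) (r (k + N) • z k) 0) φ)
      rw [sub_add_cancel] at b6
      exact b6.trans (add_le_add (b1.trans b5) b3)
    · push Not at hφ
      exact ⟨fun _ => 0, tendsto_const_nhds, fun k hk => absurd hk (hφ k)⟩
  · -- mass
    intro k
    have g := hFr (k + N) (r (k + N) • z k)
    exact Bus_mass (fun s x => Bus_sv Ω u t₀ (r (k + N)) (z k) s x) g.meas g.energy (hzy k)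
      (hmass k)

end Pool.Agent.Helper83.CR
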