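import Pool.Agent.Helper83.CR.St

/-!
# Project CR (MP_a38b17_an), module Cen: the centre of the concentration
-/

set_option autoImplicit false

open MeasureTheory Set Filter Topology
open scoped ENNReal ContDiff

noncomputable section

namespace Pool.Agent.Helper83.CR

open Pool.Agent.Helper52.NSE (E3 pd divg TestField MemH1s MemL2s IsWeakSolution gradSq kin
  IsSmoothBoundedDomain)
open Pool.Agent.Helper60.EC (D Cc curl grad cr ip sq nl adv sm gsq fn Hs)

/-- Young's inequality for the exponents `1/4`, `3/4` -/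
theorem Cen_young (a b r : ℝ) (ha : 0 ≤ a) (hb : 0 ≤ b) (hr : 0 < r) :
    a ^ (1 / 4 : ℝ) * b ^ (3 / 4 : ℝ) ≤ a / r ^ 12 + r ^ 4 * b := by
  have h := Real.geom_mean_le_arith_mean2_weighted (w₁ := 1 / 4) (w₂ := 3 / 4)
    (p₁ := a / r ^ 12) (p₂ := r ^ 4 * b) (by norm_num) (by norm_num) (by positivity)
    (by positivity) (by norm_num)
  have h1 : (a / r ^ 12) ^ (1 / 4 : ℝ) = a ^ (1 / 4 : ℝ) / r ^ 3 := by
    rw [Real.div_rpow ha (by positivity)]
    congr 1
    rw [← Real.rpow_natCast r 12, ← Real.rpow_mul hr.le, ← Real.rpow_natCast r 3]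
    norm_num
  have h2 : (r ^ 4 * b) ^ (3 / 4 : ℝ) = r ^ 3 * b ^ (3 / 4 : ℝ) := by
    rw [Real.mul_rpow (by positivity) hb]
    congr 1
    rw [← Real.rpow_natCast r 4, ← Real.rpow_mul hr.le, ← Real.rpow_natCast r 3]
    norm_num
  rw [h1, h2] at h
  have h3 : a ^ (1 / 4 : ℝ) / r ^ 3 * (r ^ 3 * b ^ (3 / 4 : ℝ)) =
      a ^ (1 / 4 : ℝ) * b ^ (3 / 4 : ℝ) := by
    field_simp
  rw [h3] at h
  have h4 : 0 ≤ a / r ^ 12 := by positivity
  have h5 : 0 ≤ r ^ 4 * b := by positivity
  linarith

/-- the integral of the increments of a primitive of a nonnegative function -/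
theorem Cen_incr (g : ℝ → ℝ) (hg : Integrable g volume) (h0 : ∀ x, 0 ≤ g x) (h : ℝ)
    (hh : 0 ≤ h) :
    Integrable (fun s => (∫ t in (-1 : ℝ)..(s + h), g t) - ∫ t in (-1 : ℝ)..s, g t) mI ∧
    ∫ s in Ioo (-1 : ℝ) 0, ((∫ t in (-1 : ℝ)..(s + h), g t) - ∫ t in (-1 : ℝ)..s, g t) ≤
      h * ∫ t, g t := by
  set P : ℝ → ℝ := fun x => ∫ t in (-1 : ℝ)..x, g t with hP
  have hPc : Continuous P := intervalIntegral.continuous_primitive
    (fun a b => hg.intervalIntegrable) (-1)
  have hint : Integrable (fun s => P (s + h) - P s) mI := by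
    have : Continuous (fun s => P (s + h) - P s) := by fun_prop
    exact (this.integrableOn_Icc (a := -1) (b := 0)).mono_set Ioo_subset_Icc_self
  refine ⟨hint, ?_⟩
  have hPle : ∀ x, P x ≤ ∫ t, g t := by
    intro x
    rcases le_total (-1) x with hx | hx
    · simp only [hP]
      rw [intervalIntegral.integral_of_le hx]
      exact setIntegral_le_integral hg (Eventually.of_forall h0)
    · simp only [hP]
      rw [intervalIntegral.integral_of_ge hx]
      have h1 : 0 ≤ ∫ t in Ioc x (-1), g t := integral_nonneg h0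
      have h2 : 0 ≤ ∫ t, g t := integral_nonneg h0
      linarith
  have hP0 : ∀ x, -1 ≤ x → 0 ≤ P x := by
    intro x hx
    exact intervalIntegral.integral_nonneg hx (fun t _ => h0 t)
  have e1 : ∫ s in Ioo (-1 : ℝ) 0, (P (s + h) - P s) = ∫ s in (-1 : ℝ)..0, (P (s + h) - P s) := by
    rw [intervalIntegral.integral_of_le (by norm_num), integral_Ioc_eq_integral_Ioo]
  have e2 : ∫ s in (-1 : ℝ)..0, (P (s + h) - P s) =
      (∫ s in (-1 : ℝ)..0, P (s + h)) - ∫ s in (-1 : ℝ)..0, P s := by
    apply intervalIntegral.integral_sub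
    · exact (by fun_prop : Continuous fun s => P (s + h)).intervalIntegrable _ _
    · exact hPc.intervalIntegrable _ _
  have e3 : ∫ s in (-1 : ℝ)..0, P (s + h) = ∫ s in (-1 + h)..(0 + h), P s :=
    intervalIntegral.integral_comp_add_right (fun s => P s) h
  have e4 : (∫ s in (-1 : ℝ)..(-1 + h), P s) + ∫ s in (-1 + h)..(0 + h), P s =
      (∫ s in (-1 : ℝ)..0, P s) + ∫ s in (0 : ℝ)..(0 + h), P s := by
    rw [intervalIntegral.integral_add_adjacent_intervals (hPc.intervalIntegrable _ _)
      (hPc.intervalIntegrable _ _),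
      intervalIntegral.integral_add_adjacent_intervals (hPc.intervalIntegrable _ _)
      (hPc.intervalIntegrable _ _)]
  have e5 : 0 ≤ ∫ s in (-1 : ℝ)..(-1 + h), P s := by
    apply intervalIntegral.integral_nonneg (by linarith)
    intro u hu
    exact hP0 u hu.1
  have e6 : ∫ s in (0 : ℝ)..(0 + h), P s ≤ h * ∫ t, g t := by
    have : ∫ s in (0 : ℝ)..(0 + h), P s ≤ ∫ s in (0 : ℝ)..(0 + h), (∫ t, g t) := by
      apply intervalIntegral.integral_mono_on (by linarith) (hPc.intervalIntegrable _ _)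
        (continuous_const.intervalIntegrable _ _)
      intro x _
      exact hPle x
    rw [intervalIntegral.integral_const, smul_eq_mul] at this
    simpa using this
  rw [e1, e2, e3]
  linarith

/-- the choice of the constants -/
theorem Cen_consts (K c C : ℝ) (hK : 0 < K) (hc : 0 < c) (hC : 0 < C) :
    ∃ r h e₀ δ : ℝ, 0 < r ∧ 0 < h ∧ h < 1 ∧ 0 < e₀ ∧ 0 < δ ∧
      C * ((2 * δ / h + 2 * K * (e₀ + h ^ (1 / 4 : ℝ)) * (3 + 2 * K) + K * h) / r ^ 12 +
        r ^ 4 * (2 * K)) < c := by
  obtain ⟨r, hr, hrc⟩ : ∃ r : ℝ, 0 < r ∧ C * (r ^ 4 * (2 * K)) ≤ c / 4 := by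
    refine ⟨min 1 (c / (4 * C * (2 * K))), by positivity, ?_⟩
    set r := min 1 (c / (4 * C * (2 * K))) with hr
    have hr0 : 0 < r := by positivity
    have hr1 : r ≤ 1 := min_le_left _ _
    have hr2 : r ≤ c / (4 * C * (2 * K)) := min_le_right _ _
    have h1 : r ^ 4 ≤ r := by
      calc r ^ 4 ≤ r ^ 1 := pow_le_pow_of_le_one hr0.le hr1 (by norm_num)
        _ = r := pow_one r
    have h2 : r * (4 * C * (2 * K)) ≤ c := by
      rwa [le_div_iff₀ (by positivity)] at hr2
    have h3 : C * (r ^ 4 * (2 * K)) ≤ C * (r * (2 * K)) := by gcongr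
    nlinarith
  set B := C / r ^ 12 with hB
  have hB0 : 0 < B := by positivity
  set Q := 2 * K * (3 + 2 * K) with hQ
  have hQ0 : 0 < Q := by positivity
  obtain ⟨p, hp, hp1, hp2⟩ : ∃ p : ℝ, 0 < p ∧ p < 1 ∧ B * (p * (Q + K)) ≤ c / 8 := by
    refine ⟨min (1 / 2) (c / (8 * B * (Q + K))), by positivity, ?_, ?_⟩
    · exact lt_of_le_of_lt (min_le_left _ _) (by norm_num)
    · have h1 : min (1 / 2) (c / (8 * B * (Q + K))) ≤ c / (8 * B * (Q + K)) := min_le_right _ _
      rw [le_div_iff₀ (by positivity)] at h1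
      nlinarith
  set h := p ^ 4 with hh
  have hh0 : 0 < h := by positivity
  have hh1 : h < 1 := pow_lt_one₀ hp.le hp1 (by norm_num)
  have hhp : h ≤ p := by
    calc h = p ^ 4 := rfl
      _ ≤ p ^ 1 := pow_le_pow_of_le_one hp.le hp1.le (by norm_num)
      _ = p := pow_one p
  have hh4 : h ^ (1 / 4 : ℝ) = p := by
    rw [hh, ← Real.rpow_natCast p 4, ← Real.rpow_mul hp.le]
    norm_num
  refine ⟨r, h, c / (8 * B * Q), c * h / (16 * B), hr, hh0, hh1, by positivity, by positivity, ?_⟩
  rw [hh4]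
  have k1 : C * ((2 * (c * h / (16 * B)) / h + 2 * K * (c / (8 * B * Q) + p) * (3 + 2 * K) +
      K * h) / r ^ 12 + r ^ 4 * (2 * K)) = B * (2 * (c * h / (16 * B)) / h) +
      B * (Q * (c / (8 * B * Q))) + B * (Q * p) + B * (K * h) + C * (r ^ 4 * (2 * K)) := by
    simp only [hB, hQ]
    ring
  have k2 : B * (2 * (c * h / (16 * B)) / h) = c / 8 := by field_simp; ring
  have k3 : B * (Q * (c / (8 * B * Q))) = c / 8 := by field_simp
  have k4 : B * (Q * p) + B * (K * h) ≤ c / 8 := by
    have : B * (K * h) ≤ B * (K * p) := by gcongr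
    nlinarith
  rw [k1, k2, k3]
  linarith

/-- `|b|² ≤ 2 |a|² + 2 |a - b|²`, integrated over a ball -/
theorem Cen_ball (a b : E3 → E3) (ha : MemLp a 2 volume) (hb : MemLp b 2 volume) (y : E3) :
    ∫ x in Metric.ball y 1, ‖b x‖ ^ 2 ≤ 2 * (∫ x in Metric.ball y 1, ‖a x‖ ^ 2) +
      2 * sq (fun x => a x - b x) := by
  have ha2 : Integrable (fun x => ‖a x‖ ^ 2) volume := ha.norm.integrable_sq
  have hb2 : Integrable (fun x => ‖b x‖ ^ 2) volume := hb.norm.integrable_sq
  have hab2 : Integrable (fun x => ‖a x - b x‖ ^ 2) volume := (ha.sub hb).norm.integrable_sq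
  have h1 : ∫ x in Metric.ball y 1, ‖b x‖ ^ 2 ≤
      ∫ x in Metric.ball y 1, (2 * ‖a x‖ ^ 2 + 2 * ‖a x - b x‖ ^ 2) := by
    apply setIntegral_mono hb2.integrableOn
      ((ha2.const_mul 2).add (hab2.const_mul 2)).integrableOn
    intro x
    show ‖b x‖ ^ 2 ≤ 2 * ‖a x‖ ^ 2 + 2 * ‖a x - b x‖ ^ 2
    have h2 : ‖b x‖ ≤ ‖a x‖ + ‖a x - b x‖ := by
      have : b x = a x - (a x - b x) := by abel
      calc ‖b x‖ = ‖a x - (a x - b x)‖ := by rw [← this]
        _ ≤ ‖a x‖ + ‖a x - b x‖ := norm_sub_le _ _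
    have h3 := norm_nonneg (b x)
    nlinarith [sq_nonneg (‖a x‖ - ‖a x - b x‖), mul_self_le_mul_self h3 h2]
  rw [integral_add (ha2.const_mul 2).integrableOn (hab2.const_mul 2).integrableOn,
    integral_const_mul, integral_const_mul] at h1
  have h4 : ∫ x in Metric.ball y 1, ‖a x - b x‖ ^ 2 ≤ sq (fun x => a x - b x) := by
    unfold Pool.Agent.Helper60.EC.sq
    exact setIntegral_le_integral hab2 (Eventually.of_forall fun x => by positivity)
  linarith

theorem hCen (hL : StLions) : StCen := by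
  obtain ⟨C, hC, hLions⟩ := hL
  intro K c hK hc
  obtain ⟨r, h, e₀, δ, hr, hh, hh1, he₀, hδ, hfin⟩ := Cen_consts K c C hK hc hC
  refine ⟨e₀, δ, he₀, hδ, ?_⟩
  intro u A e he hee hmeas hH1 hsq hgint hgK htime hcq
  by_contra hcon
  push Not at hcon
  -- the functions of time
  set m : E3 → ℝ → ℝ := fun y s => ∫ x in Metric.ball y 1, ‖u s x‖ ^ 2 with hm
  have hgs0 : ∀ s, 0 ≤ gs (A s) := by
    intro s
    unfold gs
    exact integral_nonneg fun x => Finset.sum_nonneg fun i _ => by positivity
  have hm0 : ∀ y s, 0 ≤ m y s := by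
    intro y s
    exact integral_nonneg fun x => by positivity
  set G : ℝ → ℝ := (Ioo (-1 : ℝ) 0).indicator fun s => 1 + gs (A s) with hG
  have hG0 : ∀ s, 0 ≤ G s := by
    intro s
    apply indicator_nonneg
    intro s _
    have := hgs0 s
    linarith
  have hone : Integrable (fun _ : ℝ => (1 : ℝ)) mI := by
    exact integrable_const _
  have hvol : (mI : Measure ℝ).real univ = 1 := by
    simp [mI, Measure.real]
  have hGi : Integrable G volume := by
    rw [hG, integrable_indicator_iff measurableSet_Ioo]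
    exact hone.add hgint
  have hGint : ∫ t, G t = 1 + ∫ s in Ioo (-1 : ℝ) 0, gs (A s) := by
    rw [hG, integral_indicator measurableSet_Ioo, integral_add hone hgint]
    simp
  obtain ⟨hPi, hPle⟩ := Cen_incr G hGi hG0 h hh.le
  set Lam : ℝ → ℝ := fun s => 2 * δ / h + 2 * K * (e + h ^ (1 / 4 : ℝ)) *
    (1 + G s + h⁻¹ * ((∫ t in (-1 : ℝ)..(s + h), G t) - ∫ t in (-1 : ℝ)..s, G t)) +
    (Ici (-h)).indicator (fun _ => K) s with hLam
  have hincr0 : ∀ s : ℝ, 0 ≤ (∫ t in (-1 : ℝ)..(s + h), G t) - ∫ t in (-1 : ℝ)..s, G t := by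
    intro s
    rw [intervalIntegral.integral_interval_sub_left hGi.intervalIntegrable
      hGi.intervalIntegrable]
    exact intervalIntegral.integral_nonneg (by linarith) fun t _ => hG0 t
  have hh4 : 0 ≤ h ^ (1 / 4 : ℝ) := by positivity
  have hLam0 : ∀ s, 0 ≤ Lam s := by
    intro s
    have h1 : 0 ≤ (Ici (-h)).indicator (fun _ => K) s := indicator_nonneg (fun _ _ => hK.le) s
    have h2 := hincr0 s
    have h3 := hG0 s
    simp only [hLam]
    positivity
  -- the bound for the integral of `Lam`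
  have hKind : Integrable (fun s => (Ici (-h)).indicator (fun _ => K) s) mI :=
    (integrable_const K).indicator measurableSet_Ici
  have hLami : Integrable Lam mI := by
    simp only [hLam]
    refine Integrable.add (Integrable.add (integrable_const _) ?_) hKind
    refine Integrable.const_mul ?_ _
    refine Integrable.add (Integrable.add (integrable_const _) hGi.integrableOn) ?_
    exact hPi.const_mul _
  have hKindI : ∫ s in Ioo (-1 : ℝ) 0, (Ici (-h)).indicator (fun _ => K) s ≤ K * h := by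
    rw [setIntegral_indicator measurableSet_Ici, setIntegral_const, smul_eq_mul, mul_comm]
    apply mul_le_mul_of_nonneg_left _ hK.le
    have hsub : Ioo (-1 : ℝ) 0 ∩ Ici (-h) ⊆ Icc (-h) 0 := by
      intro x hx
      exact ⟨hx.2, hx.1.2.le⟩
    calc volume.real (Ioo (-1 : ℝ) 0 ∩ Ici (-h)) ≤ volume.real (Icc (-h) 0) :=
          measureReal_mono hsub (by simp)
      _ = h := by
          rw [Real.volume_real_Icc_of_le (by linarith)]
          ring
  have hGm : ∫ s in Ioo (-1 : ℝ) 0, G s ≤ 1 + K := by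
    calc ∫ s in Ioo (-1 : ℝ) 0, G s ≤ ∫ s, G s :=
          setIntegral_le_integral hGi (Eventually.of_forall hG0)
      _ = 1 + ∫ s in Ioo (-1 : ℝ) 0, gs (A s) := hGint
      _ ≤ 1 + K := by linarith
  have hLamI : ∫ s in Ioo (-1 : ℝ) 0, Lam s ≤
      2 * δ / h + 2 * K * (e₀ + h ^ (1 / 4 : ℝ)) * (3 + 2 * K) + K * h := by
    have e1 : ∫ s in Ioo (-1 : ℝ) 0, Lam s = 2 * δ / h + 2 * K * (e + h ^ (1 / 4 : ℝ)) *
        (1 + (∫ s in Ioo (-1 : ℝ) 0, G s) + h⁻¹ * ∫ s in Ioo (-1 : ℝ) 0,
          ((∫ t in (-1 : ℝ)..(s + h), G t) - ∫ t in (-1 : ℝ)..s, G t)) +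
        ∫ s in Ioo (-1 : ℝ) 0, (Ici (-h)).indicator (fun _ => K) s := by
      simp only [hLam]
      rw [integral_add _ hKind, integral_add (integrable_const _), integral_const_mul,
        integral_add _ (hPi.const_mul _), integral_add (integrable_const _) hGi.integrableOn,
        integral_const_mul, integral_const, integral_const]
      · simp
      · exact (integrable_const _).add hGi.integrableOn
      · exact (((integrable_const _).add hGi.integrableOn).add (hPi.const_mul _)).const_mul _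
      · exact (integrable_const _).add
          ((((integrable_const _).add hGi.integrableOn).add (hPi.const_mul _)).const_mul _)
    have e2 : h⁻¹ * ∫ s in Ioo (-1 : ℝ) 0,
          ((∫ t in (-1 : ℝ)..(s + h), G t) - ∫ t in (-1 : ℝ)..s, G t) ≤ 1 + K := by
      calc h⁻¹ * ∫ s in Ioo (-1 : ℝ) 0,
          ((∫ t in (-1 : ℝ)..(s + h), G t) - ∫ t in (-1 : ℝ)..s, G t)
          ≤ h⁻¹ * (h * ∫ t, G t) := by gcongr
        _ = ∫ t, G t := by field_simp
        _ ≤ 1 + K := by rw [hGint]; linarith
    rw [e1]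
    have e3 : 2 * K * (e + h ^ (1 / 4 : ℝ)) *
        (1 + (∫ s in Ioo (-1 : ℝ) 0, G s) + h⁻¹ * ∫ s in Ioo (-1 : ℝ) 0,
          ((∫ t in (-1 : ℝ)..(s + h), G t) - ∫ t in (-1 : ℝ)..s, G t)) ≤
        2 * K * (e₀ + h ^ (1 / 4 : ℝ)) * (3 + 2 * K) := by
      apply mul_le_mul
      · gcongr
      · linarith
      · have h1 : 0 ≤ ∫ s in Ioo (-1 : ℝ) 0, G s := integral_nonneg hG0
        have h2 : 0 ≤ ∫ s in Ioo (-1 : ℝ) 0,
          ((∫ t in (-1 : ℝ)..(s + h), G t) - ∫ t in (-1 : ℝ)..s, G t) :=
          integral_nonneg hincr0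
        positivity
      · positivity
    linarith
  -- integrability of `m y`
  have hmI : ∀ y, Integrable (m y) mI := by
    intro y
    have h1 : AEStronglyMeasurable (fun s => ∫ x in Metric.ball y 1, ‖u s x‖ ^ 2) mI := by
      have h2 : AEStronglyMeasurable (fun q : ℝ × E3 => ‖u q.1 q.2‖ ^ 2)
          ((volume.restrict (Ioo (-1 : ℝ) 0)).prod (volume.restrict (Metric.ball y 1))) := by
        have h3 : AEStronglyMeasurable (fun q : ℝ × E3 => ‖u q.1 q.2‖ ^ 2) mQ :=
          (hmeas.norm.pow 2)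
        refine h3.mono_measure ?_
        exact Measure.prod_mono le_rfl Measure.restrict_le_self
      exact h2.integral_prod_right'
    refine Integrable.mono' (integrable_const K) h1 ?_
    filter_upwards [hH1, hsq] with s hs1 hs2
    rw [Real.norm_of_nonneg (hm0 y s)]
    calc m y s ≤ sq (u s) := setIntegral_le_integral hs1.l2.norm.integrable_sq
          (Eventually.of_forall fun x => by positivity)
      _ ≤ K := hs2
  -- the pointwise bound
  have hbound : ∀ᵐ s ∂mI, ∀ y, m y s ≤ Lam s := by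
    filter_upwards [hH1, hsq, htime, ae_restrict_mem measurableSet_Ioo] with s hs1 hs2 hs3 hs4 y
    rcases le_or_gt (-h) s with hsh | hsh
    · -- near the final time
      have h1 : m y s ≤ K := by
        calc m y s ≤ sq (u s) := setIntegral_le_integral hs1.l2.norm.integrable_sq
              (Eventually.of_forall fun x => by positivity)
          _ ≤ K := hs2
      have h2 : (Ici (-h)).indicator (fun _ => K) s = K := indicator_of_mem hsh _
      have h3 := hincr0 s
      have h4 := hG0 s
      simp only [hLam, h2]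
      have h5 : 0 ≤ 2 * δ / h + 2 * K * (e + h ^ (1 / 4 : ℝ)) *
        (1 + G s + h⁻¹ * ((∫ t in (-1 : ℝ)..(s + h), G t) - ∫ t in (-1 : ℝ)..s, G t)) := by
        positivity
      linarith
    · -- the average
      have hsubset : Ioo s (s + h) ⊆ Ioo (-1 : ℝ) 0 := by
        intro t ht
        exact ⟨lt_trans hs4.1 ht.1, by linarith [ht.2]⟩
      have hms : IntegrableOn (m y) (Ioo s (s + h)) := (hmI y).mono_measure
        (Measure.restrict_mono hsubset le_rfl)
      have hGs : G s = 1 + gs (A s) := by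
        rw [hG, indicator_of_mem hs4]
      set Z := 2 * K * (e + h ^ (1 / 4 : ℝ)) with hZ
      have hZ0 : 0 ≤ Z := by positivity
      have h1 : ∫ t in Ioo s (s + h), m y s ≤
          ∫ t in Ioo s (s + h), (2 * m y t + (Z * (1 + G s) + Z * G t)) := by
        apply integral_mono_ae
        · exact integrableOn_const (by simp)
        · exact (hms.const_mul 2).add ((integrableOn_const (by simp)).add
            ((hGi.integrableOn).const_mul Z))
        · have h2 : ∀ᵐ t ∂(volume.restrict (Ioo s (s + h))), s < t →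
              sq (fun y => u t y - u s y) ≤
              K * (1 + Real.sqrt (gs (A s)) + Real.sqrt (gs (A t))) *
                (e + (t - s) ^ (1 / 4 : ℝ)) :=
            ae_restrict_of_ae_restrict_of_subset hsubset hs3
          have h3 : ∀ᵐ t ∂(volume.restrict (Ioo s (s + h))), H1 (u t) (A t) :=
            ae_restrict_of_ae_restrict_of_subset hsubset hH1
          filter_upwards [h2, h3, ae_restrict_mem measurableSet_Ioo] with t ht1 ht2 ht3
          show m y s ≤ 2 * m y t + (Z * (1 + G s) + Z * G t)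
          have hGt : G t = 1 + gs (A t) := by
            rw [hG, indicator_of_mem (hsubset ht3)]
          have h4 := Cen_ball (u t) (u s) ht2.l2 hs1.l2 y
          have h5 := ht1 ht3.1
          have h6 : Real.sqrt (gs (A s)) ≤ G s := by
            rw [hGs]
            have := hgs0 s
            rw [Real.sqrt_le_left (by linarith)]
            nlinarith
          have h7 : Real.sqrt (gs (A t)) ≤ G t := by
            rw [hGt]
            have := hgs0 t
            rw [Real.sqrt_le_left (by linarith)]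
            nlinarith
          have h8 : (t - s) ^ (1 / 4 : ℝ) ≤ h ^ (1 / 4 : ℝ) :=
            Real.rpow_le_rpow (by linarith [ht3.1]) (by linarith [ht3.2]) (by norm_num)
          have h9 : K * (1 + Real.sqrt (gs (A s)) + Real.sqrt (gs (A t))) *
                (e + (t - s) ^ (1 / 4 : ℝ)) ≤ K * (1 + G s + G t) * (e + h ^ (1 / 4 : ℝ)) := by
            have := hG0 s
            have := hG0 t
            have h10 : 0 ≤ (t - s) ^ (1 / 4 : ℝ) := Real.rpow_nonneg (by linarith [ht3.1]) _
            gcongr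
          have h11 : 2 * sq (fun x => u t x - u s x) ≤ Z * (1 + G s) + Z * G t := by
            calc 2 * sq (fun x => u t x - u s x) ≤
                2 * (K * (1 + G s + G t) * (e + h ^ (1 / 4 : ℝ))) := by linarith
              _ = Z * (1 + G s) + Z * G t := by rw [hZ]; ring
          simp only [hm] at h4 ⊢
          linarith
      have h2 : ∫ t in Ioo s (s + h), m y s = h * m y s := by
        rw [setIntegral_const, smul_eq_mul, Real.volume_real_Ioo_of_le (by linarith)]
        ring
      have h3 : ∫ t in Ioo s (s + h), (2 * m y t + (Z * (1 + G s) + Z * G t)) =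
          2 * (∫ t in Ioo s (s + h), m y t) + (h * (Z * (1 + G s)) +
            Z * ∫ t in Ioo s (s + h), G t) := by
        have i1 : IntegrableOn (fun _ : ℝ => Z * (1 + G s)) (Ioo s (s + h)) :=
          integrableOn_const (by simp)
        have i2 : IntegrableOn (fun t : ℝ => Z * G t) (Ioo s (s + h)) :=
          (hGi.integrableOn).const_mul Z
        have i3 : IntegrableOn (fun t : ℝ => 2 * m y t) (Ioo s (s + h)) := hms.const_mul 2
        have i4 : IntegrableOn (fun t : ℝ => Z * (1 + G s) + Z * G t) (Ioo s (s + h)) :=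
          i1.add i2
        rw [integral_add i3 i4, integral_const_mul, integral_add i1 i2,
            setIntegral_const, smul_eq_mul,
            Real.volume_real_Ioo_of_le (by linarith), integral_const_mul Z G]
        ring
      have h4 : ∫ t in Ioo s (s + h), m y t ≤ δ := by
        calc ∫ t in Ioo s (s + h), m y t ≤ ∫ t in Ioo (-1 : ℝ) 0, m y t :=
              setIntegral_mono_set (hmI y) (Eventually.of_forall (hm0 y))
                (Eventually.of_forall hsubset)
          _ ≤ δ := (hcon y).le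
      have h5 : ∫ t in Ioo s (s + h), G t = (∫ t in (-1 : ℝ)..(s + h), G t) -
          ∫ t in (-1 : ℝ)..s, G t := by
        rw [intervalIntegral.integral_interval_sub_left hGi.intervalIntegrable
          hGi.intervalIntegrable, intervalIntegral.integral_of_le (by linarith),
          integral_Ioc_eq_integral_Ioo]
      have h6 : h * m y s ≤ 2 * δ + (h * (Z * (1 + G s)) + Z *
          ((∫ t in (-1 : ℝ)..(s + h), G t) - ∫ t in (-1 : ℝ)..s, G t)) := by
        rw [← h2, ← h5]
        linarith
      have h7 : (Ici (-h)).indicator (fun _ => K) s = 0 :=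
        indicator_of_notMem (by simp [hsh]) _
      simp only [hLam, h7, add_zero]
      have h8 : m y s = h⁻¹ * (h * m y s) := by field_simp
      rw [h8]
      calc h⁻¹ * (h * m y s) ≤ h⁻¹ * (2 * δ + (h * (Z * (1 + G s)) + Z *
          ((∫ t in (-1 : ℝ)..(s + h), G t) - ∫ t in (-1 : ℝ)..s, G t))) := by gcongr
        _ = _ := by field_simp
  -- the fourth powers
  have hq : ∀ᵐ s ∂mI, q4 (u s) ≤ C * (Lam s / r ^ 12 + r ^ 4 * (K + gs (A s))) := by
    filter_upwards [hH1, hsq, hbound] with s hs1 hs2 hs3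
    have h1 := hLions (u s) (A s) (Lam s) hs1 hs3
    have h2 : (sq (u s) + gs (A s)) ^ (3 / 4 : ℝ) ≤ (K + gs (A s)) ^ (3 / 4 : ℝ) := by
      apply Real.rpow_le_rpow
      · have : 0 ≤ sq (u s) := by
          unfold Pool.Agent.Helper60.EC.sq
          exact integral_nonneg fun x => by positivity
        have := hgs0 s
        positivity
      · linarith
      · norm_num
    calc q4 (u s) ≤ C * (Lam s) ^ (1 / 4 : ℝ) * (sq (u s) + gs (A s)) ^ (3 / 4 : ℝ) := h1
      _ ≤ C * (Lam s) ^ (1 / 4 : ℝ) * (K + gs (A s)) ^ (3 / 4 : ℝ) := by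
          have := hLam0 s
          gcongr
      _ = C * ((Lam s) ^ (1 / 4 : ℝ) * (K + gs (A s)) ^ (3 / 4 : ℝ)) := by ring
      _ ≤ _ := by
          have := Cen_young (Lam s) (K + gs (A s)) r (hLam0 s) (by have := hgs0 s; linarith) hr
          gcongr
  have hqI : ∫ s in Ioo (-1 : ℝ) 0, q4 (u s) ≤
      ∫ s in Ioo (-1 : ℝ) 0, C * (Lam s / r ^ 12 + r ^ 4 * (K + gs (A s))) := by
    apply integral_mono_of_nonneg
    · exact Eventually.of_forall fun s => Real.sqrt_nonneg _
    · exact (((hLami.div_const _).add (((integrable_const K).add hgint).const_mul _))).const_mul _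
    · exact hq
  have hend : ∫ s in Ioo (-1 : ℝ) 0, C * (Lam s / r ^ 12 + r ^ 4 * (K + gs (A s))) =
      C * ((∫ s in Ioo (-1 : ℝ) 0, Lam s) / r ^ 12 + r ^ 4 * (K + ∫ s in Ioo (-1 : ℝ) 0,
        gs (A s))) := by
    have i1 : Integrable (fun s => Lam s / r ^ 12) mI := hLami.div_const _
    have i2 : Integrable (fun s => K + gs (A s)) mI := (integrable_const K).add hgint
    have i3 : Integrable (fun s => r ^ 4 * (K + gs (A s))) mI := i2.const_mul _
    rw [integral_const_mul, integral_add i1 i3, integral_const_mul (r ^ 4) (fun s => K + gs (A s)),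
      integral_add (integrable_const K) hgint, integral_div]
    simp
  have hlast : C * ((∫ s in Ioo (-1 : ℝ) 0, Lam s) / r ^ 12 + r ^ 4 * (K +
      ∫ s in Ioo (-1 : ℝ) 0, gs (A s))) ≤
      C * ((2 * δ / h + 2 * K * (e₀ + h ^ (1 / 4 : ℝ)) * (3 + 2 * K) + K * h) / r ^ 12 +
        r ^ 4 * (2 * K)) := by
    have : K + ∫ s in Ioo (-1 : ℝ) 0, gs (A s) ≤ 2 * K := by linarith
    gcongr
  linarith

end Pool.Agent.Helper83.CR
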