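import Pool.Agent.Helper83.CR.St

/-!
# Project CR, module Chain: the chain rule for `bt κ` along an indefinite integral
-/

set_option autoImplicit false

open MeasureTheory Set Filter Topology
open scoped ENNReal ContDiff

noncomputable section

namespace Pool.Agent.Helper83.CR

open Pool.Agent.Helper52.NSE (E3)

/-- Domination of increments preserves absolute continuity. -/
private theorem Chain_ac {g R : ℝ → ℝ} {a b C : ℝ} (hR : AbsolutelyContinuousOnInterval R a b)
    (h : ∀ x ∈ uIcc a b, ∀ y ∈ uIcc a b, dist (g x) (g y) ≤ C * dist (R x) (R y)) :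
    AbsolutelyContinuousOnInterval g a b := by
  have h1 : Tendsto (fun E : ℕ × (ℕ → ℝ × ℝ) =>
      C * ∑ i ∈ Finset.range E.1, dist (R (E.2 i).1) (R (E.2 i).2))
      (AbsolutelyContinuousOnInterval.totalLengthFilter ⊓
        𝓟 (AbsolutelyContinuousOnInterval.disjWithin a b)) (𝓝 0) := by
    have := Filter.Tendsto.const_mul C hR
    rwa [mul_zero] at this
  refine squeeze_zero' ?_ ?_ h1
  · filter_upwards with E
    exact Finset.sum_nonneg (fun _ _ => dist_nonneg)
  · have h2 : ∀ᶠ E : ℕ × (ℕ → ℝ × ℝ) in AbsolutelyContinuousOnInterval.totalLengthFilter ⊓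
        𝓟 (AbsolutelyContinuousOnInterval.disjWithin a b),
        E ∈ AbsolutelyContinuousOnInterval.disjWithin a b :=
      eventually_inf_principal.mpr (by simp)
    filter_upwards [h2] with E hE
    rw [Finset.mul_sum]
    refine Finset.sum_le_sum fun i hi => ?_
    exact h _ (hE.1 i hi).1 _ (hE.1 i hi).2

theorem hChain (hB : StBt) : StChain := by
  intro κ hκ q hq s hs
  obtain ⟨-, -, hLip, -, -, -, hder, -⟩ := hB.1 κ hκ
  have hs0 : s ≤ 0 := hs.2.le
  have hqi : IntervalIntegrable q volume s 0 := by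
    rw [intervalIntegrable_iff_integrableOn_Ioo_of_le hs0]
    exact hq.mono_set (Ioo_subset_Ioo_left hs.1.le)
  have hsub : ∀ x ∈ uIcc s 0, ∀ y ∈ uIcc s 0, IntervalIntegrable q volume x y := by
    intro x hx y hy
    exact hqi.mono_set (uIcc_subset_uIcc hx hy)
  set g : ℝ → ℝ := fun τ => bt κ (∫ σ in τ..0, q σ) with hg
  have hac : AbsolutelyContinuousOnInterval g s 0 := by
    refine Chain_ac (C := 1 / (2 * κ))
      (hqi.norm.absolutelyContinuousOnInterval_intervalIntegral (c := s) (by simp)) ?_
    intro x hx y hy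
    have h0 : (0 : ℝ) ∈ uIcc s 0 := right_mem_uIcc
    have hs' : s ∈ uIcc s 0 := left_mem_uIcc
    have e1 : (∫ σ in x..0, q σ) - (∫ σ in y..0, q σ) = ∫ σ in x..y, q σ := by
      rw [sub_eq_iff_eq_add]
      exact (intervalIntegral.integral_add_adjacent_intervals (hsub x hx y hy)
        (hsub y hy 0 h0)).symm
    have e2 : (∫ σ in s..x, ‖q σ‖) - (∫ σ in s..y, ‖q σ‖) = ∫ σ in y..x, ‖q σ‖ :=
      intervalIntegral.integral_interval_sub_left (hsub s hs' x hx).norm (hsub s hs' y hy).norm
    rw [Real.dist_eq, Real.dist_eq, e2]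
    refine (hLip _ _).trans ?_
    rw [e1, intervalIntegral.integral_symm, norm_neg, div_eq_inv_mul, one_div]
    exact mul_le_mul_of_nonneg_left intervalIntegral.norm_integral_le_abs_integral_norm
      (by positivity)
  have hftc := hac.integral_deriv_eq_sub
  have hd : ∫ τ in s..0, deriv g τ =
      ∫ τ in s..0, -(inner ℝ (gb κ (∫ σ in τ..0, q σ)) (q τ) : ℝ) := by
    refine intervalIntegral.integral_congr_ae ?_
    filter_upwards [hqi.ae_hasDerivAt_integral] with τ h1 h2
    have h3 := h1 (uIoc_subset_uIcc h2) 0 right_mem_uIcc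
    have h4 : HasDerivAt (fun τ => ∫ σ in τ..0, q σ) (-q τ) τ := by
      have h5 := h3.neg
      refine h5.congr_of_eventuallyEq (Eventually.of_forall fun x => ?_)
      exact intervalIntegral.integral_symm _ _
    have h5 := (hder (∫ σ in τ..0, q σ)).comp_hasDerivAt τ h4
    have h6 : deriv g τ = (innerSL ℝ (gb κ (∫ σ in τ..0, q σ))) (-q τ) := h5.deriv
    rw [h6, innerSL_apply_apply, inner_neg_right]
  rw [hd, intervalIntegral.integral_neg] at hftc
  have h0 : g 0 = 0 := by
    simp [hg, bt]
  rw [h0, zero_sub, neg_inj] at hftc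
  exact hftc.symm

end Pool.Agent.Helper83.CR
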