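import Pool.Agent.Helper83.CR.M_Ha

set_option autoImplicit false

open MeasureTheory Set Filter Topology
open scoped ENNReal ContDiff

noncomputable section

namespace Pool.Agent.Helper83.CR

open Pool.Agent.Helper52.NSE (E3 pd divg TestField MemH1s MemL2s IsWeakSolution gradSq kin
  IsSmoothBoundedDomain)
open Pool.Agent.Helper60
open Pool.Agent.Helper60.EC (D Cc curl grad cr ip sq nl adv sm gsq fn Hs)

theorem CmtB_grad_zero {k : E3 → ℝ} (hk : ∀ z, 0 ≤ k z) {z : E3} (h0 : k z = 0) :
    grad k z = 0 := by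
  have h1 : fderiv ℝ k z = 0 := by
    refine IsLocalMin.fderiv_eq_zero ?_
    exact Filter.Eventually.of_forall fun y => by rw [h0]; exact hk y
  refine EC.Calc3b_ext ?_ ?_ ?_ <;> rw [EC.Calc3b_grad] <;> simp [EC.D, h1]

theorem CmtB_grad_le (k : E3 → ℝ) (z : E3) : ‖grad k z‖ ≤ ∑ i, ‖D i k z‖ := by
  have h := EC.norm_grad_sq k z
  rw [Fin.sum_univ_three] at h ⊢
  have h0 := norm_nonneg (D 0 k z)
  have h1 := norm_nonneg (D 1 k z)
  have h2 := norm_nonneg (D 2 k z)
  refine (sq_le_sq₀ (norm_nonneg _) (by positivity)).1 ?_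
  rw [h]
  nlinarith [mul_nonneg h0 h1, mul_nonneg h0 h2, mul_nonneg h1 h2]

theorem CmtB_grad_int {C ε : ℝ} {k : E3 → ℝ} (hk : Mol C ε k) :
    Integrable (fun z => ‖grad k z‖) volume ∧ ∫ z, ‖grad k z‖ ≤ 3 * (C / ε) := by
  have hg : Cc (grad k) := EC.cc_grad hk.cc
  have hgi : Integrable (fun z => ‖grad k z‖) volume :=
    (hg.smooth.continuous.integrable_of_hasCompactSupport hg.comp).norm
  have hd : ∀ i : Fin 3, Integrable (fun z => ‖D i k z‖) volume := fun i =>
    ((EC.cc_D hk.cc i).smooth.continuous.integrable_of_hasCompactSupport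
      (EC.cc_D hk.cc i).comp).norm
  refine ⟨hgi, ?_⟩
  calc ∫ z, ‖grad k z‖ ≤ ∫ z, ∑ i, ‖D i k z‖ :=
        integral_mono hgi (integrable_finsetSum _ fun i _ => hd i) fun z => CmtB_grad_le k z
    _ = ∑ i, ∫ z, ‖D i k z‖ := integral_finsetSum _ fun i _ => hd i
    _ ≤ ∑ _i : Fin 3, C / ε := Finset.sum_le_sum fun i _ => hk.d i
    _ = 3 * (C / ε) := by simp

theorem CmtB_cont : Continuous fun p : E3 × E3 => cr p.1 p.2 := by
  have hc : ∀ k : Fin 3, Continuous fun v : E3 => v k := fun k =>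
    (EuclideanSpace.proj (𝕜 := ℝ) k : E3 →L[ℝ] ℝ).continuous
  have h1 : Continuous (fun p : Fin 3 → ℝ => (WithLp.toLp 2 p : E3)) :=
    PiLp.continuous_toLp 2 _
  unfold EC.cr
  refine h1.comp (continuous_pi fun i => ?_)
  have h (k : Fin 3) : Continuous fun p : E3 × E3 => p.1 k := (hc k).comp continuous_fst
  have h' (k : Fin 3) : Continuous fun p : E3 × E3 => p.2 k := (hc k).comp continuous_snd
  fin_cases i
  · exact ((h 1).mul (h' 2)).sub ((h 2).mul (h' 1))
  · exact ((h 2).mul (h' 0)).sub ((h 0).mul (h' 2))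
  · exact ((h 0).mul (h' 1)).sub ((h 1).mul (h' 0))

theorem CmtB_cs {f g : E3 → E3} (hf : MemLp f 2 volume) (hg : MemLp g 2 volume) :
    ∫ x, ‖f x‖ * ‖g x‖ ≤ Real.sqrt (sq f) * Real.sqrt (sq g) := by
  have h := EC.Calc2b_cs (μ := (volume : Measure E3)) hf.norm hg.norm
  have e : ∀ x, (inner ℝ ‖f x‖ ‖g x‖ : ℝ) = ‖f x‖ * ‖g x‖ := fun x => by
    simp [mul_comm]
  simp only [e, norm_norm] at h
  exact (le_abs_self _).trans h

/-- the commutator bound for two fields -/
theorem CmtB_main {C ε : ℝ} {k : E3 → ℝ} (hk : Mol C ε k) {o w : E3 → E3}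
    (ho : MemLp o 2 volume) (hw : MemLp w 2 volume) (hO : MemLp (mo k o) 2 volume)
    (hW : MemLp (mo k w) 2 volume) {S R : ℝ} (hS : 0 ≤ S) (hR : 0 ≤ R)
    (hoS : ∀ z : E3, ‖z‖ < ε → Real.sqrt (sq (fun x => o (x - z) - o x)) ≤ S)
    (hwR : ∀ z : E3, ‖z‖ < ε → Real.sqrt (sq (fun x => w (x - z) - w x)) ≤ R)
    (hOS : Real.sqrt (sq (fun x => mo k o x - o x)) ≤ S)
    (hWR : Real.sqrt (sq (fun x => mo k w x - w x)) ≤ R) :
    Integrable (cmt k o w) volume ∧ ∫ x, ‖cmt k o w x‖ ≤ 3 * (C / ε) * (4 * S * R) := by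
  set o' : E3 → E3 := ho.1.mk o with ho'
  set w' : E3 → E3 := hw.1.mk w with hw'
  have hoo : o =ᵐ[volume] o' := ho.1.ae_eq_mk
  have hww : w =ᵐ[volume] w' := hw.1.ae_eq_mk
  have ho'm : StronglyMeasurable o' := ho.1.stronglyMeasurable_mk
  have hw'm : StronglyMeasurable w' := hw.1.stronglyMeasurable_mk
  set F : E3 × E3 → E3 := fun p => cr (grad k p.1)
    (cr (o' (p.2 - p.1) - mo k o p.2) (w' (p.2 - p.1) - mo k w p.2)) with hF
  have hFm : AEStronglyMeasurable F (volume.prod volume) := by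
    have hsub : Measurable fun p : E3 × E3 => p.2 - p.1 := measurable_snd.sub measurable_fst
    have h1 : AEStronglyMeasurable (fun p : E3 × E3 => o' (p.2 - p.1) - mo k o p.2)
        (volume.prod volume) :=
      (ho'm.comp_measurable hsub).aestronglyMeasurable.sub hO.1.comp_snd
    have h2 : AEStronglyMeasurable (fun p : E3 × E3 => w' (p.2 - p.1) - mo k w p.2)
        (volume.prod volume) :=
      (hw'm.comp_measurable hsub).aestronglyMeasurable.sub hW.1.comp_snd
    have h3 : AEStronglyMeasurable (fun p : E3 × E3 => grad k p.1) (volume.prod volume) :=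
      ((EC.cc_grad hk.cc).smooth.continuous.comp continuous_fst).aestronglyMeasurable
    exact CmtB_cont.comp_aestronglyMeasurable
      (h3.prodMk (CmtB_cont.comp_aestronglyMeasurable (h1.prodMk h2)))
  -- for fixed `z`
  have hz : ∀ z : E3, Integrable (fun x => F (z, x)) volume ∧
      ∫ x, ‖F (z, x)‖ ≤ ‖grad k z‖ * (4 * S * R) := by
    intro z
    have hmp : MeasurePreserving (fun x : E3 => x - z) volume volume :=
      measurePreserving_sub_right volume z
    have htr : ∀ {f : E3 → E3}, MemLp f 2 volume → MemLp (fun x => f (x - z)) 2 volume :=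
      fun hf => hf.comp_measurePreserving hmp
    have ha : MemLp (fun x => o (x - z) - mo k o x) 2 volume := (htr ho).sub hO
    have hb : MemLp (fun x => w (x - z) - mo k w x) 2 volume := (htr hw).sub hW
    have hoz : ∀ᵐ x : E3, o (x - z) = o' (x - z) :=
      hmp.quasiMeasurePreserving.tendsto_ae.eventually hoo
    have hwz : ∀ᵐ x : E3, w (x - z) = w' (x - z) :=
      hmp.quasiMeasurePreserving.tendsto_ae.eventually hww
    have hFe : (fun x => F (z, x)) =ᵐ[volume] fun x => cr (grad k z)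
        (cr (o (x - z) - mo k o x) (w (x - z) - mo k w x)) := by
      filter_upwards [hoz, hwz] with x h1 h2
      simp only [hF, h1, h2]
    have hab : Integrable (fun x => ‖o (x - z) - mo k o x‖ * ‖w (x - z) - mo k w x‖) volume :=
      Ha_prod_int ha hb
    have hFle : ∀ᵐ x : E3, ‖F (z, x)‖ ≤
        ‖grad k z‖ * (‖o (x - z) - mo k o x‖ * ‖w (x - z) - mo k w x‖) := by
      filter_upwards [hFe] with x hx
      rw [hx]
      exact (EC.norm_cr_le _ _).trans (mul_le_mul_of_nonneg_left (EC.norm_cr_le _ _)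
        (norm_nonneg _))
    have hFz : AEStronglyMeasurable (fun x => F (z, x)) volume := by
      refine AEStronglyMeasurable.congr ?_ hFe.symm
      have m1 : AEStronglyMeasurable (fun x => cr (o (x - z) - mo k o x) (w (x - z) - mo k w x))
          volume := CmtB_cont.comp_aestronglyMeasurable (ha.1.prodMk hb.1)
      have m0 : AEStronglyMeasurable (fun _ : E3 => grad k z) volume := aestronglyMeasurable_const
      exact CmtB_cont.comp_aestronglyMeasurable (m0.prodMk m1)
    have hFi : Integrable (fun x => F (z, x)) volume := (hab.const_mul ‖grad k z‖).mono' hFz hFle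
    refine ⟨hFi, ?_⟩
    rcases lt_or_ge ‖z‖ ε with hze | hze
    · have hcs : ∫ x, ‖o (x - z) - mo k o x‖ * ‖w (x - z) - mo k w x‖ ≤
          Real.sqrt (sq fun x => o (x - z) - mo k o x) *
            Real.sqrt (sq fun x => w (x - z) - mo k w x) := CmtB_cs ha hb
      have h1 : Real.sqrt (sq fun x => o (x - z) - mo k o x) ≤ 2 * S := by
        have e : (fun x => o (x - z) - mo k o x) =
            fun x => (o (x - z) - o x) - (mo k o x - o x) := by
          funext x; abel
        rw [e]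
        refine (EC.sqrt_sq_sub_le ((htr ho).sub ho) (hO.sub ho)).trans ?_
        have g1 : Real.sqrt (sq ((fun x => o (x - z)) - o)) ≤ S := hoS z hze
        have g2 : Real.sqrt (sq (mo k o - o)) ≤ S := hOS
        linarith
      have h2 : Real.sqrt (sq fun x => w (x - z) - mo k w x) ≤ 2 * R := by
        have e : (fun x => w (x - z) - mo k w x) =
            fun x => (w (x - z) - w x) - (mo k w x - w x) := by
          funext x; abel
        rw [e]
        refine (EC.sqrt_sq_sub_le ((htr hw).sub hw) (hW.sub hw)).trans ?_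
        have g1 : Real.sqrt (sq ((fun x => w (x - z)) - w)) ≤ R := hwR z hze
        have g2 : Real.sqrt (sq (mo k w - w)) ≤ R := hWR
        linarith
      calc ∫ x, ‖F (z, x)‖ ≤ ∫ x, ‖grad k z‖ * (‖o (x - z) - mo k o x‖ *
              ‖w (x - z) - mo k w x‖) := integral_mono_ae hFi.norm (hab.const_mul _) hFle
        _ = ‖grad k z‖ * ∫ x, ‖o (x - z) - mo k o x‖ * ‖w (x - z) - mo k w x‖ :=
            integral_const_mul _ _
        _ ≤ ‖grad k z‖ * ((2 * S) * (2 * R)) := by
            refine mul_le_mul_of_nonneg_left ?_ (norm_nonneg _)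
            exact hcs.trans (mul_le_mul h1 h2 (Real.sqrt_nonneg _) (by positivity))
        _ = ‖grad k z‖ * (4 * S * R) := by ring
    · have hg : grad k z = 0 := CmtB_grad_zero hk.nn (hk.supp z hze)
      have h0 : ∀ x, ‖F (z, x)‖ = 0 := by
        intro x
        have h1 : ‖F (z, x)‖ ≤ ‖grad k z‖ * ‖cr (o' (x - z) - mo k o x)
          (w' (x - z) - mo k w x)‖ := EC.norm_cr_le _ _
        rw [hg, norm_zero, zero_mul] at h1
        exact le_antisymm h1 (norm_nonneg _)
      simp only [h0, integral_zero]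
      positivity
  obtain ⟨hgi, hgC⟩ := CmtB_grad_int hk
  have hFint : Integrable F (volume.prod volume) := by
    rw [integrable_prod_iff hFm]
    refine ⟨Eventually.of_forall fun z => (hz z).1, ?_⟩
    refine (hgi.mul_const (4 * S * R)).mono' hFm.norm.integral_prod_right'
      (Eventually.of_forall fun z => ?_)
    rw [Real.norm_of_nonneg (integral_nonneg fun x => norm_nonneg _)]
    exact (hz z).2
  have hcmt : ∀ x, cmt k o w x = ∫ z, F (z, x) := by
    intro x
    have h1 : cmt k o w x = ∫ y, cr (grad k (x - y))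
        (cr (o' y - mo k o x) (w' y - mo k w x)) := by
      unfold cmt
      refine integral_congr_ae ?_
      filter_upwards [hoo, hww] with y h1 h2
      rw [h1, h2]
    rw [h1, ← integral_sub_left_eq_self _ volume x]
    refine integral_congr_ae (Eventually.of_forall fun z => ?_)
    simp only [hF, sub_sub_cancel]
  have hcmt' : cmt k o w = fun x => ∫ z, F (z, x) := funext hcmt
  have hci : Integrable (cmt k o w) volume := by
    rw [hcmt']
    exact hFint.integral_prod_right
  refine ⟨hci, ?_⟩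
  calc ∫ x, ‖cmt k o w x‖ ≤ ∫ x, ∫ z, ‖F (z, x)‖ := by
        refine integral_mono hci.norm hFint.norm.integral_prod_right fun x => ?_
        show ‖cmt k o w x‖ ≤ _
        rw [hcmt x]
        exact norm_integral_le_integral_norm _
    _ = ∫ z, ∫ x, ‖F (z, x)‖ := by
        rw [← integral_prod_symm _ hFint.norm, integral_prod _ hFint.norm]
    _ ≤ ∫ z, ‖grad k z‖ * (4 * S * R) :=
        integral_mono hFint.norm.integral_prod_left (hgi.mul_const _) fun z => (hz z).2
    _ = (∫ z, ‖grad k z‖) * (4 * S * R) := integral_mul_const _ _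
    _ ≤ 3 * (C / ε) * (4 * S * R) := mul_le_mul_of_nonneg_right hgC (by positivity)

theorem hCmtB (h₁ : StTr) (h₂ : StMoB) : StCmtB := by
  intro C ε k hε hk w A hA S hS hSo
  have ho : MemLp (om A) 2 volume := Ha_om_memLp hA.gl2
  have hw : MemLp w 2 volume := hA.l2
  obtain ⟨-, hO⟩ := h₂ (om A) ho
  obtain ⟨-, hW⟩ := h₂ w hw
  obtain ⟨hO1, -, hO3⟩ := hO C ε k hk
  obtain ⟨hW1, -, hW3⟩ := hW C ε k hk
  have hgs : 0 ≤ gs A := Ha_gs_nn A
  set R : ℝ := ε * Real.sqrt (gs A) with hR
  have hR0 : 0 ≤ R := by positivity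
  have hR2 : R ^ 2 = ε ^ 2 * gs A := by
    rw [hR, mul_pow, Real.sq_sqrt hgs]
  have hwR : ∀ z : E3, ‖z‖ < ε → sq (fun x => w (x - z) - w x) ≤ R ^ 2 := by
    intro z hz
    have h3 := h₁ w A hA (-z)
    rw [norm_neg] at h3
    simp only [← sub_eq_add_neg] at h3
    refine h3.trans ?_
    rw [hR2]
    refine mul_le_mul_of_nonneg_right ?_ hgs
    exact pow_le_pow_left₀ (norm_nonneg _) hz.le 2
  have hmain := CmtB_main hk ho hw hO1 hW1 hS hR0
    (fun z hz => (Real.sqrt_le_left hS).2 (hSo z hz))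
    (fun z hz => (Real.sqrt_le_left hR0).2 (hwR z hz))
    ((Real.sqrt_le_left hS).2 (hO3 (S ^ 2) hSo)) ((Real.sqrt_le_left hR0).2 (hW3 (R ^ 2) hwR))
  refine ⟨hmain.1, hmain.2.trans (le_of_eq ?_)⟩
  rw [hR]
  field_simp
  ring

end Pool.Agent.Helper83.CR
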