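import Pool.Agent.Helper83.CR.St
import Pool.Agent.Helper60.EC.Calc2
import Pool.Agent.Helper60.EC.Calc3b

/-! Project CR, module CmtI: the commutator identity -/

set_option autoImplicit false

open MeasureTheory Set Filter Topology
open scoped ENNReal ContDiff

noncomputable section

namespace Pool.Agent.Helper83.CR

open Pool.Agent.Helper52.NSE (E3 pd divg)
open Pool.Agent.Helper60.EC

theorem CmtI_cr_cont : Continuous fun p : E3 × E3 => cr p.1 p.2 := by
  unfold cr
  refine (PiLp.continuous_toLp 2 _).comp (continuous_pi fun i => ?_)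
  fin_cases i
  · show Continuous fun p : E3 × E3 => p.1 1 * p.2 2 - p.1 2 * p.2 1
    fun_prop
  · show Continuous fun p : E3 × E3 => p.1 2 * p.2 0 - p.1 0 * p.2 2
    fun_prop
  · show Continuous fun p : E3 × E3 => p.1 0 * p.2 1 - p.1 1 * p.2 0
    fun_prop

theorem CmtI_cr_meas {a b : E3 → E3} (ha : AEStronglyMeasurable a volume)
    (hb : AEStronglyMeasurable b volume) :
    AEStronglyMeasurable (fun y => cr (a y) (b y)) volume :=
  CmtI_cr_cont.comp_aestronglyMeasurable (ha.prodMk hb)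

theorem CmtI_om_eq (A : Fin 3 → E3 → E3) (x : E3) :
    om A x = cr (EuclideanSpace.single 0 1) (A 0 x) + cr (EuclideanSpace.single 1 1) (A 1 x) +
      cr (EuclideanSpace.single 2 1) (A 2 x) := by
  refine Calc3b_ext ?_ ?_ ?_
  · rw [PiLp.add_apply, PiLp.add_apply, Calc3b_cr0, Calc3b_cr0, Calc3b_cr0]
    show (A 1 x) 2 - (A 2 x) 1 = _
    simp
    ring
  · rw [PiLp.add_apply, PiLp.add_apply, Calc3b_cr1, Calc3b_cr1, Calc3b_cr1]
    show (A 2 x) 0 - (A 0 x) 2 = _
    simp
    ring
  · rw [PiLp.add_apply, PiLp.add_apply, Calc3b_cr2, Calc3b_cr2, Calc3b_cr2]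
    show (A 0 x) 1 - (A 1 x) 0 = _
    simp
    ring

theorem CmtI_om_l2 {A : Fin 3 → E3 → E3} (hA : ∀ i, MemLp (A i) 2 volume) :
    MemLp (om A) 2 volume := by
  have h : ∀ i : Fin 3, MemLp (fun x => cr (EuclideanSpace.single i 1) (A i x)) 2 volume := by
    intro i
    refine (hA i).of_le_mul (c := 1) (CmtI_cr_meas aestronglyMeasurable_const (hA i).1)
      (ae_of_all _ fun x => ?_)
    refine (norm_cr_le _ _).trans ?_
    rw [PiLp.norm_single, norm_one]
  have e : om A = fun x => cr (EuclideanSpace.single 0 1) (A 0 x) +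
      cr (EuclideanSpace.single 1 1) (A 1 x) + cr (EuclideanSpace.single 2 1) (A 2 x) :=
    funext fun x => CmtI_om_eq A x
  rw [e]
  exact ((h 0).add (h 1)).add (h 2)

theorem CmtI_cross (a b c : E3) :
    cr a (cr b c) = (inner ℝ a c : ℝ) • b - (inner ℝ a b : ℝ) • c := by
  refine Calc3b_ext ?_ ?_ ?_ <;>
    rw [Calc3b_inner, Calc3b_inner, PiLp.sub_apply, PiLp.smul_apply, PiLp.smul_apply,
      smul_eq_mul, smul_eq_mul]
  · rw [Calc3b_cr0, Calc3b_cr1, Calc3b_cr2]; ring
  · rw [Calc3b_cr1, Calc3b_cr2, Calc3b_cr0]; ring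
  · rw [Calc3b_cr2, Calc3b_cr0, Calc3b_cr1]; ring

theorem CmtI_sub_left (a b c : E3) : cr (a - b) c = cr a c - cr b c := by
  refine Calc3b_ext ?_ ?_ ?_ <;> rw [PiLp.sub_apply] <;>
    simp only [Calc3b_cr0, Calc3b_cr1, Calc3b_cr2, PiLp.sub_apply] <;> ring

theorem CmtI_sub_right (a b c : E3) : cr a (b - c) = cr a b - cr a c := by
  refine Calc3b_ext ?_ ?_ ?_ <;> rw [PiLp.sub_apply] <;>
    simp only [Calc3b_cr0, Calc3b_cr1, Calc3b_cr2, PiLp.sub_apply] <;> ring

theorem CmtI_int_smul {g : E3 → ℝ} {w : E3 → E3} (hg : MemLp g 2 volume)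
    (hw : MemLp w 2 volume) : Integrable (fun x => g x • w x) volume := by
  refine (hg.norm.integrable_mul hw.norm).mono' (hg.1.smul hw.1) (ae_of_all _ fun x => ?_)
  rw [norm_smul]
  exact le_rfl

/-- the terms `∫ ⟨∇k, V⟩ f` -/
theorem CmtI_term {k : E3 → ℝ} (hk : Cc k) {f : E3 → E3} (hf : MemLp f 2 volume) (x V : E3) :
    Integrable (fun y => (inner ℝ (grad k (x - y)) V : ℝ) • f y) volume ∧
      ∫ y, (inner ℝ (grad k (x - y)) V : ℝ) • f y = ∑ i, V i • mo (D i k) f x := by
  have hi : ∀ i, Integrable (fun y => D i k (x - y) • f y) volume := by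
    intro i
    have h1 : MemLp (fun y => D i k (x - y)) 2 volume := by
      have hc : Cc (fun y => D i k (x - y)) :=
        ⟨(cc_D hk i).smooth.comp (by fun_prop),
          (cc_D hk i).comp.comp_homeomorph (Homeomorph.subLeft x)⟩
      exact cc_memLp hc 2
    exact CmtI_int_smul h1 hf
  have e : ∀ y, (inner ℝ (grad k (x - y)) V : ℝ) • f y = ∑ i, V i • (D i k (x - y) • f y) := by
    intro y
    rw [Calc3b_inner, Fin.sum_univ_three, Calc3b_grad, Calc3b_grad, Calc3b_grad, add_smul,
      add_smul, smul_smul, smul_smul, smul_smul, mul_comm (V 0), mul_comm (V 1), mul_comm (V 2)]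
  simp_rw [e]
  have hi' : ∀ i, Integrable (fun y => V i • (D i k (x - y) • f y)) volume :=
    fun i => (hi i).smul (V i)
  refine ⟨integrable_finsetSum _ fun i _ => hi' i, ?_⟩
  rw [integral_finsetSum _ fun i _ => hi' i]
  refine Finset.sum_congr rfl fun i _ => ?_
  rw [integral_smul]
  rfl

theorem CmtI_inner_int {k : E3 → ℝ} (hk : Cc k) {f : E3 → E3} (hf : MemLp f 2 volume)
    (x : E3) : Integrable (fun y => (inner ℝ (grad k (x - y)) (f y) : ℝ)) volume := by
  have hc : Cc (fun y => grad k (x - y)) :=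
    ⟨(cc_grad hk).smooth.comp (by fun_prop),
      (cc_grad hk).comp.comp_homeomorph (Homeomorph.subLeft x)⟩
  have h1 := cc_memLp hc 2
  exact (h1.norm.integrable_mul hf.norm).mono' (h1.1.inner hf.1)
    (ae_of_all _ fun _ => norm_inner_le_norm _ _)

theorem hCmtI (hM : StMoA) (hC : StCu) : StCmtI := by
  intro k hk w A hH hdv x
  have ho : MemLp (om A) 2 volume := CmtI_om_l2 hH.gl2
  obtain ⟨hM1, _⟩ := hM k hk
  obtain ⟨_, hMo, _⟩ := hM1 (om A) ho
  obtain ⟨_, hMw, _⟩ := hM1 w hH.l2
  obtain ⟨_, hC2⟩ := hC w A hH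
  obtain ⟨_, c2, c3⟩ := hC2 k hk x
  have c3' := c3 hdv
  set V := mo k w x
  set W := mo k (om A) x
  have hg : Cc (grad k) := cc_grad hk
  have hgx : Cc (fun y => grad k (x - y)) :=
    ⟨hg.smooth.comp (by fun_prop), hg.comp.comp_homeomorph (Homeomorph.subLeft x)⟩
  obtain ⟨M, hMb⟩ := hgx.comp.exists_bound_of_continuous hgx.smooth.continuous
  have hgm : AEStronglyMeasurable (fun y => grad k (x - y)) volume :=
    hgx.smooth.continuous.aestronglyMeasurable
  -- the four terms
  have i1 : Integrable (fun y => cr (grad k (x - y)) (cr (om A y) (w y))) volume := by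
    refine ((ho.norm.integrable_mul hH.l2.norm).const_mul M).mono'
      (CmtI_cr_meas hgm (CmtI_cr_meas ho.1 hH.l2.1)) (ae_of_all _ fun y => ?_)
    refine (norm_cr_le _ _).trans ?_
    exact mul_le_mul (hMb y) (norm_cr_le _ _) (norm_nonneg _) ((norm_nonneg _).trans (hMb y))
  obtain ⟨t2, v2⟩ := CmtI_term hk ho x V
  obtain ⟨t3, v3⟩ := CmtI_term hk hH.l2 x W
  have s2 : Integrable (fun y => (inner ℝ (grad k (x - y)) (om A y) : ℝ) • V) volume :=
    (CmtI_inner_int hk ho x).smul_const V
  have s3 : Integrable (fun y => (inner ℝ (grad k (x - y)) (w y) : ℝ) • W) volume :=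
    (CmtI_inner_int hk hH.l2 x).smul_const W
  have hk0 : ∀ i, ∫ y, D i k (x - y) = 0 := by
    intro i
    rw [integral_sub_left_eq_self (fun z => D i k z) volume x]
    exact integral_D_eq_zero (hk.smooth.of_le (by norm_num)) hk.comp i
  have ki : ∀ i, Integrable (fun y => D i k (x - y)) volume := by
    intro i
    exact ((cc_D hk i).smooth.continuous.integrable_of_hasCompactSupport
      (cc_D hk i).comp).comp_sub_left x
  have hinn : ∀ Z : E3, Integrable (fun y => (inner ℝ (grad k (x - y)) Z : ℝ)) volume ∧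
      ∫ y, (inner ℝ (grad k (x - y)) Z : ℝ) = 0 := by
    intro Z
    have e : ∀ y, (inner ℝ (grad k (x - y)) Z : ℝ) = ∑ i, D i k (x - y) * Z i := by
      intro y
      rw [Calc3b_inner, Fin.sum_univ_three, Calc3b_grad, Calc3b_grad, Calc3b_grad]
    simp_rw [e]
    refine ⟨integrable_finsetSum _ fun i _ => (ki i).mul_const _, ?_⟩
    rw [integral_finsetSum _ fun i _ => (ki i).mul_const _]
    refine Finset.sum_eq_zero fun i _ => ?_
    rw [integral_mul_const, hk0, zero_mul]
  have e : ∀ y, cr (grad k (x - y)) (cr (om A y - W) (w y - V)) =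
      cr (grad k (x - y)) (cr (om A y) (w y)) -
        ((inner ℝ (grad k (x - y)) V : ℝ) • om A y -
          (inner ℝ (grad k (x - y)) (om A y) : ℝ) • V) -
        ((inner ℝ (grad k (x - y)) (w y) : ℝ) • W - (inner ℝ (grad k (x - y)) W : ℝ) • w y) +
        ((inner ℝ (grad k (x - y)) V : ℝ) • W - (inner ℝ (grad k (x - y)) W : ℝ) • V) := by
    intro y
    rw [← CmtI_cross, ← CmtI_cross, ← CmtI_cross, CmtI_sub_left, CmtI_sub_right, CmtI_sub_right,
      CmtI_sub_right, CmtI_sub_right, CmtI_sub_right]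
    abel
  have hcmt : cmt k (om A) w x = qf k A w x - (∑ i, V i • mo (D i k) (om A) x) +
      (∑ i, W i • mo (D i k) w x) := by
    show ∫ y, cr (grad k (x - y)) (cr (om A y - W) (w y - V)) = _
    simp_rw [e]
    have j2 : Integrable (fun y => (inner ℝ (grad k (x - y)) V : ℝ) • om A y -
        (inner ℝ (grad k (x - y)) (om A y) : ℝ) • V) volume := t2.sub s2
    have j3 : Integrable (fun y => (inner ℝ (grad k (x - y)) (w y) : ℝ) • W -
        (inner ℝ (grad k (x - y)) W : ℝ) • w y) volume := s3.sub t3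
    have j12 : Integrable (fun y => cr (grad k (x - y)) (cr (om A y) (w y)) -
        ((inner ℝ (grad k (x - y)) V : ℝ) • om A y -
          (inner ℝ (grad k (x - y)) (om A y) : ℝ) • V)) volume := i1.sub j2
    have j123 : Integrable (fun y => cr (grad k (x - y)) (cr (om A y) (w y)) -
        ((inner ℝ (grad k (x - y)) V : ℝ) • om A y -
          (inner ℝ (grad k (x - y)) (om A y) : ℝ) • V) -
        ((inner ℝ (grad k (x - y)) (w y) : ℝ) • W -
          (inner ℝ (grad k (x - y)) W : ℝ) • w y)) volume := j12.sub j3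
    have j4 : Integrable (fun y => (inner ℝ (grad k (x - y)) V : ℝ) • W -
        (inner ℝ (grad k (x - y)) W : ℝ) • V) volume :=
      ((hinn V).1.smul_const W).sub ((hinn W).1.smul_const V)
    rw [integral_add j123 j4, integral_sub j12 j3, integral_sub i1 j2,
      integral_sub t2 s2, integral_sub s3 t3,
      integral_sub ((hinn V).1.smul_const W) ((hinn W).1.smul_const V), v2, v3,
      integral_smul_const, integral_smul_const, integral_smul_const, integral_smul_const, c2, c3',
      (hinn V).2, (hinn W).2]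
    simp only [zero_smul, sub_zero, zero_sub, add_zero, sub_neg_eq_add]
    rfl
  rw [hcmt]
  unfold adv
  simp_rw [hMo, hMw]
  abel

end Pool.Agent.Helper83.CR
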