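import Pool.Agent.Helper83.CR.St
import Pool.Agent.Helper60.EC.Calc1b

/-! Module Ct: a countable family of test functions suffices for weak derivatives. -/

set_option autoImplicit false

open MeasureTheory Set Filter Topology
open scoped ENNReal ContDiff

noncomputable section

namespace Pool.Agent.Helper83.CR

open Pool.Agent.Helper52.NSE (E3)
open Pool.Agent.Helper60.EC (D Cc)

/-- the space of the values and the three derivatives -/
abbrev Ct_Y : Type := Lp ℝ 2 (volume : Measure E3) × (Fin 3 → Lp ℝ 2 (volume : Measure E3))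

theorem Ct_D {ψ : E3 → ℝ} (hψ : Cc ψ) (i : Fin 3) : Cc (D i ψ) :=
  Pool.Agent.Helper60.EC.cc_D hψ i

/-- the embedding -/
def Ct_F (ψ : {ψ : E3 → ℝ // Cc ψ}) : Ct_Y :=
  ((Pool.Agent.Helper60.EC.cc_memLp ψ.2 2).toLp ψ.1,
    fun i => (Pool.Agent.Helper60.EC.cc_memLp (Ct_D ψ.2 i) 2).toLp (D i ψ.1))

theorem hCt : StCt := by
  have hne : Nonempty (range Ct_F) := ⟨⟨_, ⟨⟨fun _ => 0, contDiff_const, HasCompactSupport.zero⟩, rfl⟩⟩⟩
  have h2 : Fact ((2 : ℝ≥0∞) ≠ ⊤) := ⟨by norm_num⟩
  have hsc : SecondCountableTopology (Lp ℝ 2 (volume : Measure E3)) := inferInstance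
  obtain ⟨u, hu⟩ := TopologicalSpace.exists_dense_seq (range Ct_F)
  choose ψ hψ using fun n => (u n).2
  refine ⟨fun n => (ψ n).1, fun n => (ψ n).2, fun w A hw hA hn => ⟨hw, hA, fun φ hφ i => ?_⟩⟩
  -- the functional
  let B : ℝ →L[ℝ] E3 →L[ℝ] E3 := ContinuousLinearMap.lsmul ℝ ℝ
  let Λ : Ct_Y → E3 := fun y =>
    B.lpPairing volume 2 2 (y.2 i) (hw.toLp w) + B.lpPairing volume 2 2 y.1 ((hA i).toLp (A i))
  have hΛc : Continuous Λ := by
    refine Continuous.add ?_ ?_
    · exact ((B.lpPairing volume 2 2).continuous.comp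
        ((continuous_apply i).comp continuous_snd)).clm_apply continuous_const
    · exact ((B.lpPairing volume 2 2).continuous.comp continuous_fst).clm_apply continuous_const
  have hΛ : ∀ χ : {ψ : E3 → ℝ // Cc ψ}, Λ (Ct_F χ) =
      (∫ x, D i χ.1 x • w x) + ∫ x, χ.1 x • A i x := by
    intro χ
    simp only [Λ, ContinuousLinearMap.lpPairing_eq_integral]
    congr 1
    · refine integral_congr_ae ?_
      filter_upwards [(Pool.Agent.Helper60.EC.cc_memLp (Ct_D χ.2 i) 2).coeFn_toLp,
        hw.coeFn_toLp] with x h1 h2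
      simp only [Ct_F]
      rw [h1, h2]
      rfl
    · refine integral_congr_ae ?_
      filter_upwards [(Pool.Agent.Helper60.EC.cc_memLp χ.2 2).coeFn_toLp,
        (hA i).coeFn_toLp] with x h1 h2
      simp only [Ct_F]
      rw [h1, h2]
      rfl
  have hzero : ∀ n, Λ (u n : Ct_Y) = 0 := by
    intro n
    rw [← hψ n, hΛ, hn n i]
    exact neg_add_cancel _
  have hall : ∀ z : range Ct_F, Λ (z : Ct_Y) = 0 := by
    have hc : Continuous fun z : range Ct_F => Λ (z : Ct_Y) := hΛc.comp continuous_subtype_val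
    have := hu.equalizer hc (continuous_const (y := (0 : E3))) (by funext n; exact hzero n)
    intro z
    exact congrFun this z
  have := hall ⟨Ct_F ⟨φ, hφ⟩, ⟨_, rfl⟩⟩
  rw [hΛ] at this
  exact eq_neg_of_add_eq_zero_left this

end Pool.Agent.Helper83.CR
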