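import Pool.Agent.Helper83.CR.St
import Pool.Agent.Helper60.EC.Calc2a

/-!
# Project CR, module Cu: weak curl and divergence
-/

set_option autoImplicit false

open MeasureTheory Set Filter Topology
open scoped ENNReal ContDiff

noncomputable section

namespace Pool.Agent.Helper83.CR

open Pool.Agent.Helper52.NSE (E3 pd divg TestField MemH1s MemL2s IsWeakSolution gradSq kin
  IsSmoothBoundedDomain)
open Pool.Agent.Helper60.EC (D Cc curl grad cr ip sq nl adv sm gsq fn Hs cc_D cc_memLp cc_curl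
  Calc2a_inner3 D_comp_affine D_comm D_apply Calc1b_coord Calc2a_apply_comp)

theorem Cu_int {ψ : E3 → ℝ} (hψ : Cc ψ) {a : E3 → E3} (ha : MemLp a 2 volume) (j : Fin 3) :
    Integrable (fun y => ψ y * (a y) j) volume :=
  (cc_memLp hψ 2).integrable_mul (ha.eval_piLp j)

theorem Cu_w {w : E3 → E3} {A : Fin 3 → E3 → E3} (h : H1 w A) {ψ : E3 → ℝ} (hψ : Cc ψ)
    (i j : Fin 3) : ∫ y, D i ψ y * (w y) j = -∫ y, ψ y * (A i y) j := by
  have h1 := congrArg (fun v : E3 => v j) (h.weak ψ hψ i)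
  have h2 := eval_integral_piLp (μ := (volume : Measure E3)) (f := fun x => D i ψ x • w x)
    (fun l => Cu_int (cc_D hψ i) h.l2 l) j
  have h3 := eval_integral_piLp (μ := (volume : Measure E3)) (f := fun x => ψ x • A i x)
    (fun l => Cu_int hψ (h.gl2 i) l) j
  simp only [PiLp.neg_apply] at h1
  rw [h2, h3] at h1
  exact h1

theorem Cu_kc {k : E3 → ℝ} (hk : Cc k) (x : E3) : Cc (fun y => k (x - y)) :=
  ⟨hk.smooth.comp (contDiff_const.sub contDiff_id), hk.comp.comp_homeomorph (Homeomorph.subLeft x)⟩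

theorem Cu_kD {k : E3 → ℝ} (hk : Cc k) (x : E3) (i : Fin 3) (y : E3) :
    D i (fun y => k (x - y)) y = -D i k (x - y) := by
  have h := D_comp_affine (hk.smooth.differentiable (by simp)) (-1) x i y
  simp only [neg_smul, one_smul, ← sub_eq_add_neg] at h
  exact h

/-- `∫ D i k (x - y) w_j = ∫ k (x - y) (A i)_j` -/
theorem Cu_k {w : E3 → E3} {A : Fin 3 → E3 → E3} (h : H1 w A) {k : E3 → ℝ} (hk : Cc k) (x : E3)
    (i j : Fin 3) : ∫ y, D i k (x - y) * (w y) j = ∫ y, k (x - y) * (A i y) j := by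
  have h1 := Cu_w h (Cu_kc hk x) i j
  simp only [Cu_kD hk, neg_mul, integral_neg] at h1
  exact neg_injective h1

theorem Cu_six {f₁ f₂ f₃ f₄ f₅ f₆ : E3 → ℝ} (h₁ : Integrable f₁ volume)
    (h₂ : Integrable f₂ volume) (h₃ : Integrable f₃ volume) (h₄ : Integrable f₄ volume)
    (h₅ : Integrable f₅ volume) (h₆ : Integrable f₆ volume) {F : E3 → ℝ}
    (hF : ∀ x, F x = (f₁ x - f₂ x) + (f₃ x - f₄ x) + (f₅ x - f₆ x)) :
    ∫ x, F x = (∫ x, f₁ x) - (∫ x, f₂ x) + ((∫ x, f₃ x) - ∫ x, f₄ x) +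
      ((∫ x, f₅ x) - ∫ x, f₆ x) := by
  simp only [hF]
  have e1 : ∫ x, (f₁ x - f₂ x) + (f₃ x - f₄ x) + (f₅ x - f₆ x) =
      (∫ x, (f₁ x - f₂ x) + (f₃ x - f₄ x)) + ∫ x, (f₅ x - f₆ x) :=
    integral_add ((h₁.sub h₂).add (h₃.sub h₄)) (h₅.sub h₆)
  have e2 : ∫ x, (f₁ x - f₂ x) + (f₃ x - f₄ x) = (∫ x, f₁ x - f₂ x) + ∫ x, f₃ x - f₄ x :=
    integral_add (h₁.sub h₂) (h₃.sub h₄)
  rw [e1, e2, integral_sub h₁ h₂, integral_sub h₃ h₄, integral_sub h₅ h₆]

/-- **Cu**. Weak curl and divergence. -/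
theorem hCu : StCu := by
  intro w A h
  refine ⟨?_, ?_⟩
  · intro φ hφ
    have hc : ∀ l : Fin 3, Cc (fun x => φ x l) := fun l =>
      ⟨Calc1b_coord hφ.smooth l, Calc2a_apply_comp hφ.comp l⟩
    have hD : ∀ i l : Fin 3, ∀ x, D i (fun x => φ x l) x = (D i φ x) l := fun i l x =>
      D_apply (hφ.smooth.differentiable (by simp) x) i l
    have I := fun i l j : Fin 3 => Cu_int (cc_D (hc l) i) h.l2 j
    have J := fun l i j : Fin 3 => Cu_int (hc l) (h.gl2 i) j
    have e1 : ip w (curl φ) = _ := Cu_six (I 1 2 0) (I 2 1 0) (I 2 0 1) (I 0 2 1) (I 0 1 2) (I 1 0 2)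
      (F := fun x => inner ℝ (w x) (curl φ x)) (by
        intro x
        rw [Calc2a_inner3]
        simp only [hD]
        simp [curl]
        ring)
    have e2 : ip (om A) φ = _ := Cu_six (J 0 1 2) (J 0 2 1) (J 1 2 0) (J 1 0 2) (J 2 0 1) (J 2 1 0)
      (F := fun x => inner ℝ (om A x) (φ x)) (by
        intro x
        rw [Calc2a_inner3]
        simp [om]
        ring)
    rw [e1, e2, Cu_w h (hc 2) 1 0, Cu_w h (hc 1) 2 0, Cu_w h (hc 0) 2 1, Cu_w h (hc 2) 0 1,
      Cu_w h (hc 1) 0 2, Cu_w h (hc 0) 1 2]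
    ring
  · intro k hk x
    have hDk : ∀ i, Cc (D i k) := fun i => cc_D hk i
    have W := fun i j : Fin 3 => Cu_int (Cu_kc (hDk i) x) h.l2 j
    have V := fun i j : Fin 3 => Cu_int (Cu_kc hk x) (h.gl2 i) j
    have U := fun l i j : Fin 3 => Cu_int (Cu_kc (hDk l) x) (h.gl2 i) j
    refine ⟨?_, ?_, ?_⟩
    · ext j
      have hi1 : ∀ l : Fin 3, Integrable (fun y => (cr (grad k (x - y)) (w y)) l) volume := by
        intro l
        fin_cases l
        · exact (W 1 2).sub (W 2 1)
        · exact (W 2 0).sub (W 0 2)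
        · exact (W 0 1).sub (W 1 0)
      have hi2 : ∀ l : Fin 3, Integrable (fun y => (k (x - y) • om A y) l) volume := by
        intro l
        have e : ∀ a b c d : Fin 3, (fun y => k (x - y) * ((A a y) b - (A c y) d)) =
            fun y => k (x - y) * (A a y) b - k (x - y) * (A c y) d := by
          intro a b c d; funext y; ring
        fin_cases l
        · change Integrable (fun y => k (x - y) * ((A 1 y) 2 - (A 2 y) 1)) volume
          rw [e]; exact (V 1 2).sub (V 2 1)
        · change Integrable (fun y => k (x - y) * ((A 2 y) 0 - (A 0 y) 2)) volume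
          rw [e]; exact (V 2 0).sub (V 0 2)
        · change Integrable (fun y => k (x - y) * ((A 0 y) 1 - (A 1 y) 0)) volume
          rw [e]; exact (V 0 1).sub (V 1 0)
      unfold mo
      rw [eval_integral_piLp hi1 j, eval_integral_piLp hi2 j]
      have e : ∀ a b c d : Fin 3, ∫ y, (D a k (x - y) * (w y) b - D c k (x - y) * (w y) d) =
          ∫ y, k (x - y) * ((A a y) b - (A c y) d) := by
        intro a b c d
        simp only [mul_sub]
        rw [integral_sub (W a b) (W c d), integral_sub (V a b) (V c d), Cu_k h hk, Cu_k h hk]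
      fin_cases j
      · exact e 1 2 2 1
      · exact e 2 0 0 2
      · exact e 0 1 1 0
    · have e1 := Cu_six (U 0 1 2) (U 0 2 1) (U 1 2 0) (U 1 0 2) (U 2 0 1) (U 2 1 0)
        (F := fun y => inner ℝ (grad k (x - y)) (om A y)) (by
          intro y
          rw [Calc2a_inner3]
          simp [om, grad]
          ring)
      have hc : ∀ i j y, D i (D j k) y = D j (D i k) y := fun i j y =>
        D_comm (hk.smooth.of_le (by norm_cast)) i j y
      rw [e1, ← Cu_k h (hDk 0), ← Cu_k h (hDk 0), ← Cu_k h (hDk 1), ← Cu_k h (hDk 1),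
        ← Cu_k h (hDk 2), ← Cu_k h (hDk 2)]
      simp only [hc 1 0, hc 2 0, hc 2 1]
      ring
    · intro hdv
      have hi : ∀ i ∈ (Finset.univ : Finset (Fin 3)),
          Integrable (fun y => D i k (x - y) * (w y) i) volume := fun i _ => W i i
      have hi' : ∀ i ∈ (Finset.univ : Finset (Fin 3)),
          Integrable (fun y => k (x - y) * (A i y) i) volume := fun i _ => V i i
      have e1 : ∀ y, (inner ℝ (grad k (x - y)) (w y) : ℝ) = ∑ i, D i k (x - y) * (w y) i := by
        intro y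
        rw [Calc2a_inner3, Fin.sum_univ_three]
        simp [grad]
      simp only [e1]
      rw [integral_finsetSum _ hi]
      have e2 : ∑ i, ∫ y, D i k (x - y) * (w y) i = ∑ i, ∫ y, k (x - y) * (A i y) i :=
        Finset.sum_congr rfl fun i _ => Cu_k h hk x i i
      rw [e2, ← integral_finsetSum _ hi']
      refine integral_eq_zero_of_ae ?_
      filter_upwards [hdv] with y hy
      have : ∑ i, k (x - y) * (A i y) i = k (x - y) * dv A y := by
        rw [dv, Finset.mul_sum]
      rw [this, hy]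
      simp

end Pool.Agent.Helper83.CR
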