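import Pool.Agent.Helper83.CR.St

/-!
# Project CR (MP_a38b17_an), module Dbr
-/

set_option autoImplicit false

open MeasureTheory Set Filter Topology
open scoped ENNReal ContDiff

noncomputable section

namespace Pool.Agent.Helper83.CR

theorem Dbr_deriv {ψ : ℝ → ℝ} (h : Continuous ψ) (s : ℝ) :
    HasDerivAt (fun u => ∫ x in (-1 : ℝ)..u, ψ x) (ψ s) s :=
  intervalIntegral.integral_hasDerivAt_right (h.intervalIntegrable _ _)
    h.aestronglyMeasurable.stronglyMeasurableAtFilter h.continuousAt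

theorem Dbr_smooth {ψ : ℝ → ℝ} (h : ContDiff ℝ ∞ ψ) :
    ContDiff ℝ ∞ (fun u => ∫ x in (-1 : ℝ)..u, ψ x) := by
  rw [contDiff_infty_iff_deriv]
  refine ⟨fun s => (Dbr_deriv h.continuous s).differentiableAt, ?_⟩
  have e : deriv (fun u => ∫ x in (-1 : ℝ)..u, ψ x) = ψ :=
    funext fun s => (Dbr_deriv h.continuous s).deriv
  rw [e]
  exact h

/-- the cutoff -/
def Dbr_lam (s : ℝ) : ℝ := Real.smoothTransition (1 - 2 * s)

theorem Dbr_lam_one {s : ℝ} (hs : s ≤ 0) : Dbr_lam s = 1 :=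
  Real.smoothTransition.one_of_one_le (by linarith)

theorem Dbr_lam_zero {s : ℝ} (hs : 1 / 2 ≤ s) : Dbr_lam s = 0 :=
  Real.smoothTransition.zero_of_nonpos (by linarith)

theorem Dbr_lam_smooth : ContDiff ℝ ∞ Dbr_lam :=
  (Real.smoothTransition.contDiff).comp (by fun_prop)

/-- the time factors whose derivatives are given test functions -/
theorem Dbr_theta {ψ : ℝ → ℝ} (h : ContDiff ℝ ∞ ψ) (hc : HasCompactSupport ψ)
    (hs : tsupport ψ ⊆ Ioo (-1) 0) :
    ∃ θ : ℝ → ℝ, Tc θ ∧ ∀ s ∈ Ioo (-1 : ℝ) 0, deriv θ s = ψ s := by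
  obtain ⟨a, ha, ha'⟩ : ∃ a : ℝ, -1 < a ∧ ∀ s ≤ a, ψ s = 0 := by
    rcases (tsupport ψ).eq_empty_or_nonempty with he | hne
    · refine ⟨-(1 / 2), by norm_num, fun s _ => ?_⟩
      exact image_eq_zero_of_notMem_tsupport (by rw [he]; exact notMem_empty _)
    · obtain ⟨m, hm, hm'⟩ := (show IsCompact (tsupport ψ) from hc).exists_isLeast hne
      have h1 := (hs hm).1
      refine ⟨(-1 + m) / 2, by linarith, fun s hs' => ?_⟩
      refine image_eq_zero_of_notMem_tsupport fun h2 => ?_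
      have := hm' h2
      linarith
  have hz : ∀ s ≤ a, ∫ x in (-1 : ℝ)..s, ψ x = 0 := by
    intro s hsa
    have e : ∫ x in (-1 : ℝ)..s, ψ x = ∫ x in (-1 : ℝ)..s, (0 : ℝ) := by
      refine intervalIntegral.integral_congr fun x hx => ?_
      have hx2 := hx.2
      exact ha' x (hx2.trans (max_le ha.le hsa))
    rw [e]
    simp
  refine ⟨fun s => Dbr_lam s * ∫ x in (-1 : ℝ)..s, ψ x, ⟨?_, ?_, ?_⟩, ?_⟩
  · exact Dbr_lam_smooth.mul (Dbr_smooth h)
  · refine HasCompactSupport.intro (isCompact_Icc (a := a) (b := 1 / 2)) fun s hs' => ?_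
    rw [mem_Icc, not_and_or, not_le, not_le] at hs'
    rcases hs' with h1 | h1
    · simp only [hz s h1.le, mul_zero]
    · simp only [Dbr_lam_zero h1.le, zero_mul]
  · have h1 : tsupport (fun s => Dbr_lam s * ∫ x in (-1 : ℝ)..s, ψ x) ⊆ Icc a (1 / 2) := by
      refine closure_minimal ?_ isClosed_Icc
      intro s hs'
      by_contra hs''
      rw [mem_Icc, not_and_or, not_le, not_le] at hs''
      apply hs'
      rcases hs'' with h1 | h1
      · simp only [hz s h1.le, mul_zero]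
      · simp only [Dbr_lam_zero h1.le, zero_mul]
    exact h1.trans fun s hs' => ⟨ha.trans_le hs'.1, hs'.2.trans_lt (by norm_num)⟩
  · intro s hs'
    have h1 : (fun s => Dbr_lam s * ∫ x in (-1 : ℝ)..s, ψ x) =ᶠ[𝓝 s]
        fun s => ∫ x in (-1 : ℝ)..s, ψ x := by
      filter_upwards [Iio_mem_nhds hs'.2] with t ht
      rw [Dbr_lam_one (le_of_lt ht), one_mul]
    rw [h1.deriv_eq]
    exact (Dbr_deriv h.continuous s).deriv

/-- integration by parts with Fubini -/
theorem Dbr_parts {q : ℝ → ℝ} (hq : IntegrableOn q (Ioo (-1) 0)) {θ : ℝ → ℝ} (hθ : Tc θ) :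
    ∫ t in Ioo (-1 : ℝ) 0, deriv θ t * ∫ τ in t..0, q τ = ∫ t in Ioo (-1 : ℝ) 0, θ t * q t := by
  have hd : Continuous (deriv θ) := hθ.smooth.continuous_deriv (by simp)
  have hdc : HasCompactSupport (deriv θ) := hθ.comp.deriv
  have hdi : Integrable (deriv θ) volume := hd.integrable_of_hasCompactSupport hdc
  have h1 : ∀ t ∈ Ioo (-1 : ℝ) 0, deriv θ t * ∫ τ in t..0, q τ =
      ∫ τ in Ioo (-1 : ℝ) 0, {p : ℝ × ℝ | p.1 < p.2}.indicator
        (fun p : ℝ × ℝ => deriv θ p.1 * q p.2) (t, τ) := by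
    intro t ht
    rw [intervalIntegral.integral_of_le ht.2.le, ← integral_Ioc_eq_integral_Ioo,
      ← integral_const_mul]
    have e : ∀ τ, {p : ℝ × ℝ | p.1 < p.2}.indicator (fun p : ℝ × ℝ => deriv θ p.1 * q p.2) (t, τ)
        = (Ioi t).indicator (fun τ => deriv θ t * q τ) τ := by
      intro τ
      by_cases h : t < τ
      · rw [indicator_of_mem (by exact h), indicator_of_mem (by exact h)]
      · rw [indicator_of_notMem (by exact h), indicator_of_notMem (by exact h)]
    simp only [e]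
    rw [setIntegral_indicator measurableSet_Ioi]
    congr 2
    ext τ
    simp only [mem_Ioc, mem_inter_iff, mem_Ioi]
    constructor
    · rintro ⟨h1, h2⟩
      exact ⟨⟨by linarith [ht.1], h2⟩, h1⟩
    · rintro ⟨⟨h1, h2⟩, h3⟩
      exact ⟨h3, h2⟩
  have hint : Integrable (fun p : ℝ × ℝ => {p : ℝ × ℝ | p.1 < p.2}.indicator
      (fun p : ℝ × ℝ => deriv θ p.1 * q p.2) p)
      ((volume.restrict (Ioo (-1 : ℝ) 0)).prod (volume.restrict (Ioo (-1 : ℝ) 0))) := by
    have h2 : Integrable (fun p : ℝ × ℝ => deriv θ p.1 * q p.2)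
        ((volume.restrict (Ioo (-1 : ℝ) 0)).prod (volume.restrict (Ioo (-1 : ℝ) 0))) :=
      Integrable.mul_prod (hdi.mono_measure Measure.restrict_le_self) hq
    exact h2.indicator (measurableSet_lt measurable_fst measurable_snd)
  have h3 : ∫ t in Ioo (-1 : ℝ) 0, deriv θ t * ∫ τ in t..0, q τ =
      ∫ t in Ioo (-1 : ℝ) 0, ∫ τ in Ioo (-1 : ℝ) 0, {p : ℝ × ℝ | p.1 < p.2}.indicator
        (fun p : ℝ × ℝ => deriv θ p.1 * q p.2) (t, τ) :=
    setIntegral_congr_fun measurableSet_Ioo h1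
  rw [h3]
  have h4 := integral_integral_swap (f := fun t τ => {p : ℝ × ℝ | p.1 < p.2}.indicator
        (fun p : ℝ × ℝ => deriv θ p.1 * q p.2) (t, τ)) (μ := volume.restrict (Ioo (-1 : ℝ) 0))
        (ν := volume.restrict (Ioo (-1 : ℝ) 0)) hint
  rw [h4]
  refine setIntegral_congr_fun measurableSet_Ioo fun τ hτ => ?_
  have e : ∀ t, {p : ℝ × ℝ | p.1 < p.2}.indicator (fun p : ℝ × ℝ => deriv θ p.1 * q p.2) (t, τ)
      = (Iio τ).indicator (fun t => deriv θ t * q τ) t := by
    intro t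
    by_cases h : t < τ
    · rw [indicator_of_mem (by exact h), indicator_of_mem (by exact h)]
    · rw [indicator_of_notMem (by exact h), indicator_of_notMem (by exact h)]
  simp only [e]
  rw [setIntegral_indicator measurableSet_Iio, integral_mul_const]
  congr 1
  have e2 : Ioo (-1 : ℝ) 0 ∩ Iio τ = Ioo (-1) τ := by
    ext t
    simp only [mem_inter_iff, mem_Ioo, mem_Iio]
    constructor
    · rintro ⟨⟨h1, h2⟩, h3⟩
      exact ⟨h1, h3⟩
    · rintro ⟨h1, h2⟩
      exact ⟨⟨h1, by linarith [hτ.2]⟩, h2⟩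
  have h6 : ∫ t in (-1 : ℝ)..τ, deriv θ t = θ τ - θ (-1) :=
    intervalIntegral.integral_deriv_eq_sub'  θ rfl
      (fun x _ => (hθ.smooth.differentiable (by simp)) x) hd.continuousOn
  have h5 : θ (-1) = 0 :=
    image_eq_zero_of_notMem_tsupport fun h7 => lt_irrefl _ (hθ.supp h7).1
  rw [e2, ← integral_Ioc_eq_integral_Ioo, ← intervalIntegral.integral_of_le hτ.1.le, h6, h5,
    sub_zero]

theorem hDbr : StDbr := by
  intro b q hb hq h
  have hq' : IntervalIntegrable q volume (-1) 0 := by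
    rw [intervalIntegrable_iff_integrableOn_Ioo_of_le (by norm_num)]
    exact hq
  set B : ℝ → ℝ := fun s => ∫ τ in s..0, q τ with hB
  have hBc : ContinuousOn B (Icc (-1) 0) := by
    have h1 := intervalIntegral.continuousOn_primitive_interval_left (f := q) (μ := volume)
      (a := -1) (b := 0) (by
        rw [uIcc_of_le (by norm_num)]
        rw [integrableOn_Icc_iff_integrableOn_Ioo]
        exact hq)
    rw [uIcc_of_le (by norm_num)] at h1
    exact h1
  have hBi : IntegrableOn B (Ioo (-1) 0) := by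
    have h1 : IntegrableOn B (Icc (-1) 0) := hBc.integrableOn_compact isCompact_Icc
    exact h1.mono_set Ioo_subset_Icc_self
  have hdiff : IntegrableOn (fun s => b s - B s) (Ioo (-1) 0) := hb.sub hBi
  have h1 : ∀ᵐ s, s ∈ Ioo (-1 : ℝ) 0 → b s - B s = 0 := by
    refine IsOpen.ae_eq_zero_of_integral_contDiff_smul_eq_zero isOpen_Ioo
      hdiff.locallyIntegrableOn ?_
    intro ψ hψ hψc hψs
    obtain ⟨θ, hθ, hθ'⟩ := Dbr_theta hψ hψc hψs
    have h2 : ∫ x, ψ x • (b x - B x) = ∫ x in Ioo (-1 : ℝ) 0, ψ x • (b x - B x) := by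
      refine (setIntegral_eq_integral_of_forall_compl_eq_zero fun x hx => ?_).symm
      rw [image_eq_zero_of_notMem_tsupport fun h3 => hx (hψs h3), zero_smul]
    rw [h2]
    have hdb : ∃ M, ∀ x, ‖deriv θ x‖ ≤ M := by
      have hd : Continuous (deriv θ) := hθ.smooth.continuous_deriv (by simp)
      exact hd.bounded_above_of_compact_support hθ.comp.deriv
    have hθb : ∃ M, ∀ x, ‖θ x‖ ≤ M :=
      hθ.smooth.continuous.bounded_above_of_compact_support hθ.comp
    obtain ⟨M, hM⟩ := hdb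
    obtain ⟨N, hN⟩ := hθb
    have hdm : AEStronglyMeasurable (deriv θ) (volume.restrict (Ioo (-1 : ℝ) 0)) :=
      (hθ.smooth.continuous_deriv (by simp)).aestronglyMeasurable
    have i1 : IntegrableOn (fun x => deriv θ x * b x) (Ioo (-1) 0) :=
      hb.bdd_mul (c := M) hdm (ae_of_all _ hM)
    have i2 : IntegrableOn (fun x => deriv θ x * B x) (Ioo (-1) 0) :=
      hBi.bdd_mul (c := M) hdm (ae_of_all _ hM)
    have i3 : IntegrableOn (fun x => θ x * q x) (Ioo (-1) 0) :=
      hq.bdd_mul (c := N) hθ.smooth.continuous.aestronglyMeasurable (ae_of_all _ hN)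
    have h3 : ∫ x in Ioo (-1 : ℝ) 0, ψ x • (b x - B x) =
        ∫ x in Ioo (-1 : ℝ) 0, (deriv θ x * b x - deriv θ x * B x) := by
      refine setIntegral_congr_fun measurableSet_Ioo fun x hx => ?_
      simp only [smul_eq_mul]
      rw [hθ' x hx]
      ring
    rw [h3, integral_sub i1 i2, Dbr_parts hq hθ]
    have h4 := h θ hθ
    rw [integral_sub i1 i3] at h4
    exact h4
  rw [ae_restrict_iff' measurableSet_Ioo]
  filter_upwards [h1] with s hs hs'
  have := hs hs'
  linarith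

end Pool.Agent.Helper83.CR
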