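import Pool.Agent.Helper83.CR.M_Ineq
import Pool.Agent.Helper60.EC.G7a

/-! Project CR, module Eps: the mollifier is removed -/

set_option autoImplicit false

open MeasureTheory Set Filter Topology
open scoped ENNReal ContDiff

noncomputable section

namespace Pool.Agent.Helper83.CR

open Pool.Agent.Helper52.NSE (E3 pd divg TestField MemH1s MemL2s IsWeakSolution gradSq kin
  IsSmoothBoundedDomain)
open Pool.Agent.Helper60.EC (D Cc curl grad cr ip sq nl adv sm gsq fn Hs cc_memLp Calc2b_cs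
  Calc2b_int sqrt_sq_sub_le Calc3b_nsq sq_nonneg' norm_grad_sq cc_grad Calc1c_bound Calc2a_int
  G7a_kernel)

set_option linter.unusedSectionVars false

section cs

variable {F G : Type} [NormedAddCommGroup F] [InnerProductSpace ℝ F] [FiniteDimensional ℝ F]
  [NormedAddCommGroup G] [InnerProductSpace ℝ G] [FiniteDimensional ℝ G]

theorem Eps_cs {f : E3 → F} {g : E3 → G} (hf : MemLp f 2 volume) (hg : MemLp g 2 volume) :
    Integrable (fun x => ‖f x‖ * ‖g x‖) volume ∧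
      ∫ x, ‖f x‖ * ‖g x‖ ≤ Real.sqrt (Helper60.EC.sq f) * Real.sqrt (Helper60.EC.sq g) := by
  refine ⟨hf.norm.integrable_mul hg.norm, ?_⟩
  have h3 := Calc2b_cs (F := ℝ) hf.norm hg.norm
  simp only [norm_norm] at h3
  have h4 : ∫ x, ‖f x‖ * ‖g x‖ = ∫ x, (inner ℝ ‖f x‖ ‖g x‖ : ℝ) := by
    refine integral_congr_ae (Eventually.of_forall fun y => ?_)
    simp only [RCLike.inner_apply, conj_trivial]
    ring
  rw [h4]
  exact (le_abs_self _).trans h3

end cs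

/-- the first term -/
theorem Eps_T (hBt : StBt) {κ : ℝ} (hκ : 0 < κ) {ψ : E3 → ℝ} (hψm : Continuous ψ) {Γ : ℝ}
    (hψ0 : ∀ x, 0 ≤ ψ x) (hψ : ∀ x, ψ x ≤ Γ) {f f' g g' : E3 → E3} (hf : MemLp f 2 volume)
    (hf' : MemLp f' 2 volume) (hg : MemLp g 2 volume) (hg' : MemLp g' 2 volume) :
    Integrable (fun x => ‖f x‖ * ψ x * bt κ (g x)) volume ∧
    (0 ≤ ∫ x, ‖f x‖ * ψ x * bt κ (g x)) ∧
    (∫ x, ‖f x‖ * ψ x * bt κ (g x)) ≤ Γ / (2 * κ) * (Real.sqrt (sq f) * Real.sqrt (sq g)) ∧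
    |(∫ x, ‖f x‖ * ψ x * bt κ (g x)) - ∫ x, ‖f' x‖ * ψ x * bt κ (g' x)| ≤
      Γ / (2 * κ) * (Real.sqrt (sq fun x => f x - f' x) * Real.sqrt (sq g) +
        Real.sqrt (sq f') * Real.sqrt (sq fun x => g x - g' x)) := by
  obtain ⟨b0, b1, b2, -⟩ := hBt.1 κ hκ
  have hΓ : 0 ≤ Γ := (hψ0 0).trans (hψ 0)
  have hle : ∀ (a b : E3) (x : E3), ‖a‖ * ψ x * bt κ b ≤ Γ / (2 * κ) * (‖a‖ * ‖b‖) := by
    intro a b x
    calc ‖a‖ * ψ x * bt κ b ≤ ‖a‖ * Γ * (‖b‖ / (2 * κ)) := by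
          have h1 := b0 b
          have h2 := b1 b
          have h3 := hψ x
          have h4 := hψ0 x
          gcongr
      _ = Γ / (2 * κ) * (‖a‖ * ‖b‖) := by ring
  have hnn : ∀ (a b : E3) (x : E3), 0 ≤ ‖a‖ * ψ x * bt κ b := fun a b x =>
    mul_nonneg (mul_nonneg (norm_nonneg _) (hψ0 x)) (b0 b)
  have hi : ∀ {u z : E3 → E3}, MemLp u 2 volume → MemLp z 2 volume →
      Integrable (fun x => ‖u x‖ * ψ x * bt κ (z x)) volume := by
    intro u z hu hz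
    have h1 := (Eps_cs hu hz).1.const_mul (Γ / (2 * κ))
    refine h1.mono' ((hu.1.norm.mul hψm.aestronglyMeasurable).mul
      ((Ineq_bt_cont hκ).comp_aestronglyMeasurable hz.1)) (Eventually.of_forall fun x => ?_)
    rw [Real.norm_of_nonneg (hnn _ _ _)]
    exact hle _ _ _
  have hsf : MemLp (fun x => f x - f' x) 2 volume := hf.sub hf'
  have hsg : MemLp (fun x => g x - g' x) 2 volume := hg.sub hg'
  refine ⟨hi hf hg, integral_nonneg fun x => hnn _ _ _, ?_, ?_⟩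
  · refine (integral_mono (hi hf hg) ((Eps_cs hf hg).1.const_mul (Γ / (2 * κ)))
      fun x => hle _ _ _).trans ?_
    rw [integral_const_mul]
    exact mul_le_mul_of_nonneg_left (Eps_cs hf hg).2 (by positivity)
  · rw [← integral_sub (hi hf hg) (hi hf' hg')]
    refine (abs_integral_le_integral_abs).trans ?_
    have c1 := Eps_cs hsf hg
    have c2 := Eps_cs hf' hsg
    have hb : ∀ x, |‖f x‖ * ψ x * bt κ (g x) - ‖f' x‖ * ψ x * bt κ (g' x)| ≤
        Γ / (2 * κ) * (‖f x - f' x‖ * ‖g x‖ + ‖f' x‖ * ‖g x - g' x‖) := by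
      intro x
      have e : ‖f x‖ * ψ x * bt κ (g x) - ‖f' x‖ * ψ x * bt κ (g' x) =
          ψ x * ((‖f x‖ - ‖f' x‖) * bt κ (g x) + ‖f' x‖ * (bt κ (g x) - bt κ (g' x))) := by ring
      rw [e, abs_mul, abs_of_nonneg (hψ0 x)]
      have h1 : |(‖f x‖ - ‖f' x‖) * bt κ (g x)| ≤ ‖f x - f' x‖ * (‖g x‖ / (2 * κ)) := by
        rw [abs_mul, abs_of_nonneg (b0 _)]
        exact mul_le_mul (abs_norm_sub_norm_le _ _) (b1 _) (b0 _) (norm_nonneg _)
      have h2 : |‖f' x‖ * (bt κ (g x) - bt κ (g' x))| ≤ ‖f' x‖ * (‖g x - g' x‖ / (2 * κ)) := by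
        rw [abs_mul, abs_of_nonneg (norm_nonneg _)]
        exact mul_le_mul_of_nonneg_left (b2 _ _) (norm_nonneg _)
      calc ψ x * |(‖f x‖ - ‖f' x‖) * bt κ (g x) + ‖f' x‖ * (bt κ (g x) - bt κ (g' x))|
          ≤ Γ * (‖f x - f' x‖ * (‖g x‖ / (2 * κ)) + ‖f' x‖ * (‖g x - g' x‖ / (2 * κ))) :=
            mul_le_mul (hψ x) ((abs_add_le _ _).trans (add_le_add h1 h2)) (abs_nonneg _) hΓ
        _ = Γ / (2 * κ) * (‖f x - f' x‖ * ‖g x‖ + ‖f' x‖ * ‖g x - g' x‖) := by ring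
    refine (integral_mono ((hi hf hg).sub (hi hf' hg')).abs
      ((c1.1.add c2.1).const_mul (Γ / (2 * κ))) hb).trans ?_
    rw [integral_const_mul]
    refine mul_le_mul_of_nonneg_left ?_ (by positivity)
    rw [integral_add' c1.1 c2.1]
    exact add_le_add c1.2 c2.2

theorem Eps_l2 (a b c : ℝ) (ha : 0 ≤ a) (hb : 0 ≤ b) (hc : 0 ≤ c) :
    Real.sqrt (a ^ 2 + b ^ 2 + c ^ 2) ≤ a + b + c := by
  rw [Real.sqrt_le_iff]
  exact ⟨by positivity, by nlinarith [mul_nonneg ha hb, mul_nonneg ha hc, mul_nonneg hb hc]⟩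

theorem Eps_pi (p q : Fin 3 → E3) :
    |Real.sqrt (∑ i, ‖p i‖ ^ 2) - Real.sqrt (∑ i, ‖q i‖ ^ 2)| ≤ ∑ i, ‖p i - q i‖ := by
  have h1 := abs_norm_sub_norm_le (WithLp.toLp 2 p : PiLp 2 fun _ : Fin 3 => E3)
    (WithLp.toLp 2 q : PiLp 2 fun _ : Fin 3 => E3)
  rw [PiLp.norm_eq_of_L2, PiLp.norm_eq_of_L2, PiLp.norm_eq_of_L2] at h1
  refine h1.trans ?_
  rw [Fin.sum_univ_three, Fin.sum_univ_three]
  exact Eps_l2 _ _ _ (norm_nonneg _) (norm_nonneg _) (norm_nonneg _)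

/-- the second term -/
theorem Eps_U {φ : E3 → ℝ} (hφ : Cc φ) (h0 : ∀ x, 0 ≤ φ x) {B B' : Fin 3 → E3 → E3}
    (hB : ∀ i, MemLp (B i) 2 volume) (hB' : ∀ i, MemLp (B' i) 2 volume) :
    Integrable (fun x => φ x * Real.sqrt (∑ i, ‖B i x‖ ^ 2)) volume ∧
    (0 ≤ ∫ x, φ x * Real.sqrt (∑ i, ‖B i x‖ ^ 2)) ∧
    |(∫ x, φ x * Real.sqrt (∑ i, ‖B i x‖ ^ 2)) - ∫ x, φ x * Real.sqrt (∑ i, ‖B' i x‖ ^ 2)| ≤
      Real.sqrt (Helper60.EC.sq φ) * ∑ i, Real.sqrt (sq fun x => B i x - B' i x) := by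
  have hm : MemLp φ 2 volume := cc_memLp hφ 2
  have hi : ∀ {P : Fin 3 → E3 → E3}, (∀ i, MemLp (P i) 2 volume) →
      Integrable (fun x => φ x * Real.sqrt (∑ i, ‖P i x‖ ^ 2)) volume := by
    intro P hP
    have h1 : Integrable (fun x => ∑ i, ‖φ x‖ * ‖P i x‖) volume :=
      integrable_finsetSum _ fun i _ => (Eps_cs hm (hP i)).1
    refine h1.mono' (hφ.smooth.continuous.aestronglyMeasurable.mul
      (Real.continuous_sqrt.comp_aestronglyMeasurable
        (Finset.aestronglyMeasurable_fun_sum _ fun i _ => (hP i).1.norm.pow 2)))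
      (Eventually.of_forall fun x => ?_)
    rw [norm_mul, ← Finset.mul_sum]
    refine mul_le_mul_of_nonneg_left ?_ (norm_nonneg _)
    rw [Real.norm_of_nonneg (Real.sqrt_nonneg _), Fin.sum_univ_three, Fin.sum_univ_three]
    exact Eps_l2 _ _ _ (norm_nonneg _) (norm_nonneg _) (norm_nonneg _)
  refine ⟨hi hB, integral_nonneg fun x => mul_nonneg (h0 x) (Real.sqrt_nonneg _), ?_⟩
  rw [← integral_sub (hi hB) (hi hB')]
  refine (abs_integral_le_integral_abs).trans ?_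
  have h2 : ∀ i, MemLp (fun x => B i x - B' i x) 2 volume := fun i => (hB i).sub (hB' i)
  have h1 : Integrable (fun x => ∑ i, ‖φ x‖ * ‖B i x - B' i x‖) volume :=
    integrable_finsetSum _ fun i _ => (Eps_cs hm (h2 i)).1
  refine (integral_mono ((hi hB).sub (hi hB')).abs h1 fun x => ?_).trans ?_
  · show |φ x * Real.sqrt (∑ i, ‖B i x‖ ^ 2) - φ x * Real.sqrt (∑ i, ‖B' i x‖ ^ 2)| ≤ _
    rw [← mul_sub, abs_mul, ← Finset.mul_sum, Real.norm_eq_abs]
    exact mul_le_mul_of_nonneg_left (Eps_pi (fun i => B i x) fun i => B' i x) (abs_nonneg _)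
  · rw [integral_finsetSum _ fun i _ => (Eps_cs hm (h2 i)).1, Finset.mul_sum]
    exact Finset.sum_le_sum fun i _ => (Eps_cs hm (h2 i)).2

/-- the approximation by mollification -/
theorem Eps_conv (hMoB : StMoB) {C : ℝ} {k : ℕ → E3 → ℝ}
    (hk : ∀ n : ℕ, Mol C (1 / ((n : ℝ) + 1)) (k n)) {f : E3 → E3} (hf : MemLp f 2 volume) :
    Tendsto (fun n => sq (fun x => mo (k n) f x - f x)) atTop (𝓝 0) := by
  obtain ⟨h1, h2⟩ := hMoB f hf
  rw [Metric.tendsto_atTop]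
  intro η hη
  rw [Metric.tendsto_nhds_nhds] at h1
  obtain ⟨δ, hδ, h3⟩ := h1 (η / 2) (by positivity)
  obtain ⟨N, hN⟩ := exists_nat_one_div_lt hδ
  refine ⟨N, fun n hn => ?_⟩
  have hle : (1 : ℝ) / ((n : ℝ) + 1) ≤ 1 / ((N : ℝ) + 1) := Nat.one_div_le_one_div hn
  have h4 := (h2 C _ (k n) (hk n)).2.2 (η / 2) fun z hz => by
    have h5 := h3 (x := z) (by rw [dist_zero_right]; linarith)
    rw [dist_zero_right, Real.norm_of_nonneg (sq_nonneg' _)] at h5
    exact h5.le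
  rw [dist_zero_right, Real.norm_of_nonneg (sq_nonneg' _)]
  linarith

/-- the commutator tends to zero -/
theorem Eps_cmt (hMoB : StMoB) (hCmtB : StCmtB) {C : ℝ} (hC : 0 ≤ C) {k : ℕ → E3 → ℝ}
    (hk : ∀ n : ℕ, Mol C (1 / ((n : ℝ) + 1)) (k n)) {w : E3 → E3} {A : Fin 3 → E3 → E3}
    (h : H1 w A) : Tendsto (fun n => ∫ x, ‖cmt (k n) (om A) w x‖) atTop (𝓝 0) := by
  obtain ⟨hm, -⟩ := Ineq_om_memLp h.gl2
  obtain ⟨h1, -⟩ := hMoB (om A) hm
  rw [Metric.tendsto_atTop]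
  intro η hη
  set Q : ℝ := 12 * C * Real.sqrt (gs A) with hQ
  have hQ0 : 0 ≤ Q := by positivity
  set S : ℝ := η / (Q + 1) with hS
  have hS0 : 0 < S := by positivity
  rw [Metric.tendsto_nhds_nhds] at h1
  obtain ⟨δ, hδ, h3⟩ := h1 (S ^ 2) (by positivity)
  obtain ⟨N, hN⟩ := exists_nat_one_div_lt hδ
  refine ⟨N, fun n hn => ?_⟩
  have hle : (1 : ℝ) / ((n : ℝ) + 1) ≤ 1 / ((N : ℝ) + 1) := Nat.one_div_le_one_div hn
  have h4 := (hCmtB C _ (k n) (by positivity) (hk n) w A h S hS0.le fun z hz => by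
    have h5 := h3 (x := z) (by rw [dist_zero_right]; linarith)
    rw [dist_zero_right, Real.norm_of_nonneg (sq_nonneg' _)] at h5
    exact h5.le).2
  rw [dist_zero_right, Real.norm_of_nonneg (integral_nonneg fun x => norm_nonneg _)]
  refine h4.trans_lt ?_
  have e : 12 * C * S * Real.sqrt (gs A) = Q * η / (Q + 1) := by
    rw [hQ, hS]
    ring
  rw [e, div_lt_iff₀ (by positivity)]
  nlinarith


/-- the left-hand side -/
theorem Eps_L (hBt : StBt) {κ : ℝ} (hκ : 0 < κ) {φ : E3 → ℝ} (hφ : Cc φ) {g g' : E3 → E3}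
    (hg : MemLp g 2 volume) (hg' : MemLp g' 2 volume) :
    |(∫ x, φ x * bt κ (g x)) - ∫ x, φ x * bt κ (g' x)| ≤
      1 / (2 * κ) * (Real.sqrt (Helper60.EC.sq φ) * Real.sqrt (sq fun x => g x - g' x)) := by
  obtain ⟨b0, b1, b2, -⟩ := hBt.1 κ hκ
  have hm : MemLp φ 2 volume := cc_memLp hφ 2
  have hi : ∀ {u : E3 → E3}, MemLp u 2 volume → Integrable (fun x => φ x * bt κ (u x)) volume := by
    intro u hu
    refine ((Eps_cs hm hu).1.const_mul (1 / (2 * κ))).mono'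
      (hφ.smooth.continuous.aestronglyMeasurable.mul
        ((Ineq_bt_cont hκ).comp_aestronglyMeasurable hu.1)) (Eventually.of_forall fun x => ?_)
    rw [norm_mul, Real.norm_of_nonneg (b0 _)]
    calc ‖φ x‖ * bt κ (u x) ≤ ‖φ x‖ * (‖u x‖ / (2 * κ)) :=
          mul_le_mul_of_nonneg_left (b1 _) (norm_nonneg _)
      _ = 1 / (2 * κ) * (‖φ x‖ * ‖u x‖) := by ring
  have hs : MemLp (fun x => g x - g' x) 2 volume := hg.sub hg'
  rw [← integral_sub (hi hg) (hi hg')]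
  refine (abs_integral_le_integral_abs).trans ?_
  refine (integral_mono ((hi hg).sub (hi hg')).abs ((Eps_cs hm hs).1.const_mul (1 / (2 * κ)))
    fun x => ?_).trans ?_
  · show |φ x * bt κ (g x) - φ x * bt κ (g' x)| ≤ _
    rw [← mul_sub, abs_mul]
    calc |φ x| * |bt κ (g x) - bt κ (g' x)| ≤ |φ x| * (‖g x - g' x‖ / (2 * κ)) :=
          mul_le_mul_of_nonneg_left (b2 _ _) (abs_nonneg _)
      _ = 1 / (2 * κ) * (‖φ x‖ * ‖g x - g' x‖) := by
          rw [Real.norm_eq_abs]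
          ring
  · rw [integral_const_mul]
    exact mul_le_mul_of_nonneg_left (Eps_cs hm hs).2 (by positivity)

/-- everything at one time -/
theorem Eps_time (hMoB : StMoB) (hCmtB : StCmtB) (hBt : StBt) {C : ℝ} (hC : 0 ≤ C)
    {k : ℕ → E3 → ℝ} (hk : ∀ n : ℕ, Mol C (1 / ((n : ℝ) + 1)) (k n)) {κ : ℝ} (hκ : 0 < κ)
    {φ : E3 → ℝ} (hφ : Cc φ) (h0 : ∀ x, 0 ≤ φ x) :
    ∃ B : ℝ, ∀ (w : E3 → E3) (A : Fin 3 → E3 → E3), H1 w A →
      (∀ n, |∫ x, rh (k n) κ φ A w x| ≤ B * (1 + sq w + gs A)) ∧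
      Tendsto (fun n => ∫ x, rh (k n) κ φ A w x) atTop (𝓝 (∫ x, rl κ φ A w x)) ∧
      Tendsto (fun n => ∫ x, φ x * bt κ (mo (k n) (om A) x)) atTop
        (𝓝 (∫ x, φ x * bt κ (om A x))) := by
  obtain ⟨Φ, hΦ0, hΦ⟩ := Calc1c_bound φ hφ.smooth.continuous hφ.comp
  have hgφ := cc_grad hφ
  obtain ⟨Γ, hΓ0, hΓ⟩ := Calc1c_bound (fun x => ‖grad φ x‖) hgφ.smooth.continuous.norm
    hgφ.comp.norm
  have hψ : ∀ x, ‖grad φ x‖ ≤ Γ := fun x => (le_abs_self _).trans (hΓ x)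
  have hψm : Continuous fun x => ‖grad φ x‖ := hgφ.smooth.continuous.norm
  have hψ0 : ∀ x, 0 ≤ ‖grad φ x‖ := fun x => norm_nonneg _
  set sφ : ℝ := Real.sqrt (Helper60.EC.sq φ) with hsφ
  have hsφ0 : 0 ≤ sφ := Real.sqrt_nonneg _
  refine ⟨Γ / κ + 3 * sφ + 24 * Φ * C / κ, fun w A hH => ?_⟩
  obtain ⟨hm, hle⟩ := Ineq_om_memLp hH.gl2
  have hg := Ineq_gs_nonneg A
  have hV : ∀ n, MemLp (mo (k n) w) 2 volume ∧ sq (mo (k n) w) ≤ sq w := fun n =>
    ⟨((hMoB w hH.l2).2 C _ (k n) (hk n)).1, ((hMoB w hH.l2).2 C _ (k n) (hk n)).2.1⟩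
  have hW : ∀ n, MemLp (mo (k n) (om A)) 2 volume ∧ sq (mo (k n) (om A)) ≤ sq (om A) := fun n =>
    ⟨((hMoB _ hm).2 C _ (k n) (hk n)).1, ((hMoB _ hm).2 C _ (k n) (hk n)).2.1⟩
  have hAm : ∀ n i, MemLp (mo (k n) (A i)) 2 volume ∧ sq (mo (k n) (A i)) ≤ sq (A i) :=
    fun n i => ⟨((hMoB _ (hH.gl2 i)).2 C _ (k n) (hk n)).1,
      ((hMoB _ (hH.gl2 i)).2 C _ (k n) (hk n)).2.1⟩
  have hc : ∀ n, Integrable (cmt (k n) (om A) w) volume ∧
      ∫ x, ‖cmt (k n) (om A) w x‖ ≤ 48 * C * gs A := fun n =>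
    Ineq_cmt hCmtB (by positivity) (hk n) hH
  -- the three terms
  set T : ℕ → ℝ := fun n => ∫ x, ‖mo (k n) w x‖ * ‖grad φ x‖ * bt κ (mo (k n) (om A) x) with hT
  set U : ℕ → ℝ := fun n => ∫ x, φ x * Real.sqrt (∑ i, ‖mo (k n) (A i) x‖ ^ 2) with hU
  set N : ℕ → ℝ := fun n => ∫ x, φ x * (‖cmt (k n) (om A) w x‖ / (2 * κ)) with hN
  have iT : ∀ n, Integrable (fun x => ‖mo (k n) w x‖ * ‖grad φ x‖ *
      bt κ (mo (k n) (om A) x)) volume := fun n =>
    (Eps_T hBt hκ hψm hψ0 hψ (hV n).1 (hV n).1 (hW n).1 (hW n).1).1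
  have iU : ∀ n, Integrable (fun x => φ x * Real.sqrt (∑ i, ‖mo (k n) (A i) x‖ ^ 2)) volume :=
    fun n => (Eps_U hφ h0 (fun i => (hAm n i).1) fun i => (hAm n i).1).1
  have ptN : ∀ n x, φ x * (‖cmt (k n) (om A) w x‖ / (2 * κ)) ≤
      Φ / (2 * κ) * ‖cmt (k n) (om A) w x‖ := by
    intro n x
    have h1 : φ x ≤ Φ := (le_abs_self _).trans (hΦ x)
    calc φ x * (‖cmt (k n) (om A) w x‖ / (2 * κ)) ≤ Φ * (‖cmt (k n) (om A) w x‖ / (2 * κ)) := by
          gcongr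
      _ = Φ / (2 * κ) * ‖cmt (k n) (om A) w x‖ := by ring
  have nnN : ∀ n x, 0 ≤ φ x * (‖cmt (k n) (om A) w x‖ / (2 * κ)) := fun n x =>
    mul_nonneg (h0 x) (by positivity)
  have iN : ∀ n, Integrable (fun x => φ x * (‖cmt (k n) (om A) w x‖ / (2 * κ))) volume := by
    intro n
    refine ((hc n).1.norm.const_mul (Φ / (2 * κ))).mono'
      (hφ.smooth.continuous.aestronglyMeasurable.mul
        ((hc n).1.norm.div_const (2 * κ)).aestronglyMeasurable)
      (Eventually.of_forall fun x => ?_)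
    rw [Real.norm_of_nonneg (nnN n x)]
    exact ptN n x
  have hsum : ∀ n, ∫ x, rh (k n) κ φ A w x = T n + U n + N n := by
    intro n
    have e := integral_add ((iT n).add (iU n)) (iN n)
    have e' := integral_add (iT n) (iU n)
    exact e.trans (congrArg₂ (· + ·) e' rfl)
  have hTl := fun n => Eps_T hBt hκ hψm hψ0 hψ (hV n).1 hH.l2 (hW n).1 hm
  have hUl := fun n => Eps_U hφ h0 (fun i => (hAm n i).1) hH.gl2
  have hsuml : ∫ x, rl κ φ A w x = (∫ x, ‖w x‖ * ‖grad φ x‖ * bt κ (om A x)) +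
      ∫ x, φ x * Real.sqrt (∑ i, ‖A i x‖ ^ 2) := by
    rw [← integral_add (Eps_T hBt hκ hψm hψ0 hψ hH.l2 hH.l2 hm hm).1
      (Eps_U hφ h0 hH.gl2 hH.gl2).1]
    rfl
  have cV := (Real.continuous_sqrt.tendsto 0).comp (Eps_conv hMoB hk hH.l2)
  have cW := (Real.continuous_sqrt.tendsto 0).comp (Eps_conv hMoB hk hm)
  have cA := fun i => (Real.continuous_sqrt.tendsto 0).comp (Eps_conv hMoB hk (hH.gl2 i))
  have cN := Eps_cmt hMoB hCmtB hC hk hH
  rw [Real.sqrt_zero] at cV cW cA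
  refine ⟨fun n => ?_, ?_, ?_⟩
  · have hX0 : 0 ≤ Real.sqrt (sq w) := Real.sqrt_nonneg _
    have hY0 : 0 ≤ Real.sqrt (gs A) := Real.sqrt_nonneg _
    have hX2 : Real.sqrt (sq w) ^ 2 = sq w := Real.sq_sqrt (sq_nonneg' w)
    have hY2 : Real.sqrt (gs A) ^ 2 = gs A := Real.sq_sqrt hg
    have h3 : Real.sqrt (sq (om A)) ≤ 2 * Real.sqrt (gs A) := by
      rw [show (2 : ℝ) = Real.sqrt 4 by
        rw [show (4 : ℝ) = 2 ^ 2 by norm_num, Real.sqrt_sq (by norm_num)],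
        ← Real.sqrt_mul (by norm_num)]
      apply Real.sqrt_le_sqrt
      linarith
    have t1 : T n ≤ Γ / κ * (1 + sq w + gs A) := by
      have h4 : Real.sqrt (sq (mo (k n) w)) * Real.sqrt (sq (mo (k n) (om A))) ≤
          Real.sqrt (sq w) * (2 * Real.sqrt (gs A)) :=
        mul_le_mul (Real.sqrt_le_sqrt (hV n).2) ((Real.sqrt_le_sqrt (hW n).2).trans h3)
          (Real.sqrt_nonneg _) hX0
      have h5 : Real.sqrt (sq w) * Real.sqrt (gs A) ≤ 1 + sq w + gs A := by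
        nlinarith [sq_nonneg (Real.sqrt (sq w) - Real.sqrt (gs A))]
      calc T n ≤ Γ / (2 * κ) * (Real.sqrt (sq (mo (k n) w)) *
            Real.sqrt (sq (mo (k n) (om A)))) := (hTl n).2.2.1
        _ ≤ Γ / (2 * κ) * (Real.sqrt (sq w) * (2 * Real.sqrt (gs A))) := by gcongr
        _ = Γ / κ * (Real.sqrt (sq w) * Real.sqrt (gs A)) := by
            field_simp
        _ ≤ Γ / κ * (1 + sq w + gs A) := by gcongr
    have t1' : 0 ≤ T n := (hTl n).2.1
    have t2' : 0 ≤ U n := (hUl n).2.1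
    have t2 : U n ≤ 3 * sφ * (1 + sq w + gs A) := by
      have z : ∀ i : Fin 3, MemLp (fun _ : E3 => (0 : E3)) 2 volume := fun i =>
        MemLp.zero'
      have h4 := (Eps_U hφ h0 (fun i => (hAm n i).1) z).2.2
      have e0 : ∫ x, φ x * Real.sqrt (∑ i : Fin 3, ‖(0 : E3)‖ ^ 2) = 0 := by simp
      have e1 : ∀ i, sq (fun x => mo (k n) (A i) x - 0) = sq (mo (k n) (A i)) := fun i => by
        simp only [sub_zero]
      rw [e0, sub_zero, abs_of_nonneg t2'] at h4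
      refine h4.trans ?_
      have h5 : ∀ i, Real.sqrt (sq (fun x => mo (k n) (A i) x - 0)) ≤ 1 + sq w + gs A := by
        intro i
        rw [e1 i]
        have h6 : sq (A i) ≤ gs A := by
          have e : gs A = ∑ i, sq (A i) :=
            integral_finsetSum _ fun i _ => Calc2b_int (hH.gl2 i)
          rw [e]
          exact Finset.single_le_sum (f := fun i => sq (A i)) (fun j _ => sq_nonneg' _)
            (Finset.mem_univ i)
        have h7 : Real.sqrt (sq (mo (k n) (A i))) ≤ Real.sqrt (gs A) :=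
          Real.sqrt_le_sqrt ((hAm n i).2.trans h6)
        nlinarith [sq_nonneg (Real.sqrt (gs A) - 1), sq_nonneg' w]
      calc sφ * ∑ i, Real.sqrt (sq (fun x => mo (k n) (A i) x - 0))
          ≤ sφ * ∑ _i : Fin 3, (1 + sq w + gs A) :=
            mul_le_mul_of_nonneg_left (Finset.sum_le_sum fun i _ => h5 i) hsφ0
        _ = 3 * sφ * (1 + sq w + gs A) := by
            rw [Finset.sum_const, Finset.card_univ, Fintype.card_fin, nsmul_eq_mul]
            push_cast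
            ring
    have t3' : 0 ≤ N n := integral_nonneg (nnN n)
    have t3 : N n ≤ 24 * Φ * C / κ * (1 + sq w + gs A) := by
      calc N n ≤ ∫ x, Φ / (2 * κ) * ‖cmt (k n) (om A) w x‖ :=
            integral_mono (iN n) ((hc n).1.norm.const_mul _) (ptN n)
        _ = Φ / (2 * κ) * ∫ x, ‖cmt (k n) (om A) w x‖ := integral_const_mul _ _
        _ ≤ Φ / (2 * κ) * (48 * C * gs A) := by
            have := (hc n).2
            gcongr
        _ = 24 * Φ * C / κ * gs A := by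
            field_simp
            ring
        _ ≤ 24 * Φ * C / κ * (1 + sq w + gs A) := by
            have := sq_nonneg' w
            refine mul_le_mul_of_nonneg_left (by linarith) (by positivity)
    rw [hsum n, abs_of_nonneg (by positivity)]
    calc T n + U n + N n ≤ Γ / κ * (1 + sq w + gs A) + 3 * sφ * (1 + sq w + gs A) +
          24 * Φ * C / κ * (1 + sq w + gs A) := add_le_add (add_le_add t1 t2) t3
      _ = (Γ / κ + 3 * sφ + 24 * Φ * C / κ) * (1 + sq w + gs A) := by ring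
  · have lT : Tendsto T atTop (𝓝 (∫ x, ‖w x‖ * ‖grad φ x‖ * bt κ (om A x))) := by
      rw [tendsto_iff_dist_tendsto_zero]
      refine squeeze_zero (fun n => dist_nonneg)
        (g := fun n => Γ / (2 * κ) * (Real.sqrt (sq fun x => mo (k n) w x - w x) *
          Real.sqrt (sq (om A)) + Real.sqrt (sq w) *
            Real.sqrt (sq fun x => mo (k n) (om A) x - om A x))) (fun n => ?_) ?_
      · rw [Real.dist_eq]
        refine ((hTl n).2.2.2).trans ?_
        have h1 := Real.sqrt_le_sqrt (hW n).2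
        have h2 := Real.sqrt_nonneg (sq fun x => mo (k n) w x - w x)
        refine mul_le_mul_of_nonneg_left (add_le_add_left ?_ _) (by positivity)
        exact mul_le_mul_of_nonneg_left h1 h2
      · have h1 := ((cV.mul_const (Real.sqrt (sq (om A)))).add
          (cW.const_mul (Real.sqrt (sq w)))).const_mul (Γ / (2 * κ))
        rw [zero_mul, mul_zero, add_zero, mul_zero] at h1
        exact h1
    have lU : Tendsto U atTop (𝓝 (∫ x, φ x * Real.sqrt (∑ i, ‖A i x‖ ^ 2))) := by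
      rw [tendsto_iff_dist_tendsto_zero]
      refine squeeze_zero (fun n => dist_nonneg)
        (g := fun n => sφ * ∑ i, Real.sqrt (sq fun x => mo (k n) (A i) x - A i x))
        (fun n => ?_) ?_
      · rw [Real.dist_eq]
        exact (hUl n).2.2
      · have h1 := (tendsto_finsetSum Finset.univ fun i _ => cA i).const_mul sφ
        rw [Finset.sum_const_zero, mul_zero] at h1
        exact h1
    have lN : Tendsto N atTop (𝓝 0) := by
      refine squeeze_zero (fun n => integral_nonneg (nnN n))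
        (g := fun n => Φ / (2 * κ) * ∫ x, ‖cmt (k n) (om A) w x‖) (fun n => ?_) ?_
      · rw [← integral_const_mul]
        exact integral_mono (iN n) ((hc n).1.norm.const_mul _) (ptN n)
      · have h1 := cN.const_mul (Φ / (2 * κ))
        rwa [mul_zero] at h1
    have h1 := (lT.add lU).add lN
    rw [add_zero, ← hsuml] at h1
    exact h1.congr fun n => (hsum n).symm
  · rw [tendsto_iff_dist_tendsto_zero]
    refine squeeze_zero (fun n => dist_nonneg)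
      (g := fun n => 1 / (2 * κ) * (sφ * Real.sqrt (sq fun x => mo (k n) (om A) x - om A x)))
      (fun n => ?_) ?_
    · rw [Real.dist_eq]
      exact Eps_L hBt hκ hφ (hW n).1 hm
    · have h1 := (cW.const_mul sφ).const_mul (1 / (2 * κ))
      rw [mul_zero, mul_zero] at h1
      exact h1

theorem hEps (hIneq : StIneq) (hMoB : StMoB) (hCmtB : StCmtB) (hBt : StBt) (hFu : StFu)
    (_hQf : StQf) : StEps := by
  intro v A hE κ hκ φ hφ h0
  have hCl : Cls v A := hE.toCls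
  obtain ⟨C, hC, hker⟩ := G7a_kernel
  have hk0 : ∀ n : ℕ, ∃ k : E3 → ℝ, Mol C (1 / ((n : ℝ) + 1)) k := by
    intro n
    obtain ⟨k, h1, h2, h3, h4, h5⟩ := hker (1 / ((n : ℝ) + 1)) (by positivity)
    exact ⟨k, h1, h2, h3, h4, h5⟩
  choose k hk using hk0
  obtain ⟨fv, fA, -, -⟩ := hFu v A hCl
  obtain ⟨B, hB⟩ := Eps_time hMoB hCmtB hBt hC hk hκ hφ h0
  have hI : ∀ n, Integrable (fun q : ℝ × E3 => rh (k n) κ φ (A q.1) (v q.1) q.2) mQ := fun n =>
    (hIneq v A hE C _ (k n) (by positivity) (hk n) κ hκ φ hφ h0).1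
  have hL : ∀ n, ∀ᵐ s ∂mI, ∫ x, φ x * bt κ (mo (k n) (om (A s)) x) ≤
      ∫ q : ℝ × E3, rh (k n) κ φ (A q.1) (v q.1) q.2 ∂mQ := fun n =>
    (hIneq v A hE C _ (k n) (by positivity) (hk n) κ hκ φ hφ h0).2
  obtain ⟨b0, b1, -⟩ := hBt.1 κ hκ
  -- measurability of the limit
  have mo' : Measurable fun q : ℝ × E3 => om (A q.1) q.2 := by
    have h1 : Measurable fun q : ℝ × E3 => fun i => A q.1 i q.2 :=
      measurable_pi_iff.2 hCl.gmeas
    exact Ineq_om_cont.measurable.comp h1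
  have mφ : Measurable fun q : ℝ × E3 => φ q.2 :=
    hφ.smooth.continuous.measurable.comp measurable_snd
  have mg : Measurable fun q : ℝ × E3 => grad φ q.2 :=
    (cc_grad hφ).smooth.continuous.measurable.comp measurable_snd
  have hrm : Measurable fun q : ℝ × E3 => rl κ φ (A q.1) (v q.1) q.2 := by
    unfold rl
    refine ((hCl.meas.norm.mul mg.norm).mul ((Ineq_bt_cont hκ).measurable.comp mo')).add
      (mφ.mul ?_)
    exact Real.continuous_sqrt.measurable.comp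
      (Finset.measurable_sum _ fun i _ => (hCl.gmeas i).norm.pow_const 2)
  obtain ⟨Γ, hΓ0, hΓ⟩ := Calc1c_bound (fun x => ‖grad φ x‖)
    (cc_grad hφ).smooth.continuous.norm (cc_grad hφ).comp.norm
  have hrl : Integrable (fun q : ℝ × E3 => rl κ φ (A q.1) (v q.1) q.2) mQ := by
    have iv : Integrable (fun q : ℝ × E3 => ‖v q.1 q.2‖ ^ 2) mQ := hCl.int.norm.integrable_sq
    have iA : Integrable (fun q : ℝ × E3 => ∑ i, ‖A q.1 i q.2‖ ^ 2) mQ :=
      integrable_finsetSum _ fun i _ => (hCl.gint i).norm.integrable_sq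
    have iφ : Integrable (fun q : ℝ × E3 => (1 : ℝ) * φ q.2 ^ 2) mQ :=
      (integrable_const (1 : ℝ)).mul_prod (cc_memLp hφ 2).integrable_sq
    refine (((iv.add (iA.const_mul 2)).const_mul (Γ / (2 * κ))).add (iφ.add iA)).mono'
      hrm.aestronglyMeasurable (Eventually.of_forall fun q => ?_)
    have hb := b0 (om (A q.1) q.2)
    have hφq := h0 q.2
    have hnn : 0 ≤ rl κ φ (A q.1) (v q.1) q.2 := by
      unfold rl
      positivity
    rw [Real.norm_of_nonneg hnn]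
    have h1 : bt κ (om (A q.1) q.2) ≤ ‖om (A q.1) q.2‖ / (2 * κ) := b1 _
    have h2 : ‖grad φ q.2‖ ≤ Γ := (le_abs_self _).trans (hΓ q.2)
    have h3 := Ineq_om_le (A q.1) q.2
    have h4 : ‖v q.1 q.2‖ * ‖grad φ q.2‖ * bt κ (om (A q.1) q.2) ≤
        Γ / (2 * κ) * (‖v q.1 q.2‖ ^ 2 + 2 * ∑ i, ‖A q.1 i q.2‖ ^ 2) := by
      calc ‖v q.1 q.2‖ * ‖grad φ q.2‖ * bt κ (om (A q.1) q.2)
          ≤ ‖v q.1 q.2‖ * Γ * (‖om (A q.1) q.2‖ / (2 * κ)) := by gcongr
        _ = Γ / (2 * κ) * (‖v q.1 q.2‖ * ‖om (A q.1) q.2‖) := by ring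
        _ ≤ Γ / (2 * κ) * (‖v q.1 q.2‖ ^ 2 + 2 * ∑ i, ‖A q.1 i q.2‖ ^ 2) := by
            refine mul_le_mul_of_nonneg_left ?_ (by positivity)
            nlinarith [sq_nonneg (‖v q.1 q.2‖ - ‖om (A q.1) q.2‖), norm_nonneg (v q.1 q.2),
              norm_nonneg (om (A q.1) q.2)]
    have hS : 0 ≤ ∑ i, ‖A q.1 i q.2‖ ^ 2 := Finset.sum_nonneg fun i _ => by positivity
    have h5 : φ q.2 * Real.sqrt (∑ i, ‖A q.1 i q.2‖ ^ 2) ≤
        1 * φ q.2 ^ 2 + ∑ i, ‖A q.1 i q.2‖ ^ 2 := by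
      have h6 := Real.sq_sqrt hS
      nlinarith [sq_nonneg (φ q.2 - Real.sqrt (∑ i, ‖A q.1 i q.2‖ ^ 2)),
        Real.sqrt_nonneg (∑ i, ‖A q.1 i q.2‖ ^ 2)]
    exact add_le_add h4 h5
  refine ⟨hrl, ?_⟩
  have hR : Tendsto (fun n => ∫ q : ℝ × E3, rh (k n) κ φ (A q.1) (v q.1) q.2 ∂mQ) atTop
      (𝓝 (∫ q : ℝ × E3, rl κ φ (A q.1) (v q.1) q.2 ∂mQ)) := by
    rw [integral_prod _ hrl]
    have e : (fun n => ∫ q : ℝ × E3, rh (k n) κ φ (A q.1) (v q.1) q.2 ∂mQ) =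
        fun n => ∫ t, (∫ x, rh (k n) κ φ (A t) (v t) x) ∂mI := by
      funext n
      exact integral_prod _ (hI n)
    rw [e]
    refine tendsto_integral_of_dominated_convergence
      (fun t => B * (1 + sq (v t) + gs (A t))) (fun n => ?_) ?_ (fun n => ?_) ?_
    · exact (hI n).integral_prod_left.aestronglyMeasurable
    · exact (((integrable_const (1 : ℝ)).add fv).add fA).const_mul B
    · filter_upwards [hCl.h1] with t ht
      rw [Real.norm_eq_abs]
      exact (hB (v t) (A t) ht).1 n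
    · filter_upwards [hCl.h1] with t ht
      exact (hB (v t) (A t) ht).2.1
  filter_upwards [ae_all_iff.2 hL, hCl.h1] with s hs hs1
  exact le_of_tendsto_of_tendsto' (hB (v s) (A s) hs1).2.2 hR hs

end Pool.Agent.Helper83.CR
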