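import Pool.Agent.Helper83.CR.St
import Pool.Agent.Helper60.EC.G5
import Pool.Agent.Helper60.EC.Calc1b
import Pool.Agent.Helper60.EC.Calc3a

/-!
# Project CR (MP_a38b17_an), module Fin
-/

set_option autoImplicit false

open MeasureTheory Set Filter Topology
open scoped ENNReal ContDiff

noncomputable section

namespace Pool.Agent.Helper83.CR

open Pool.Agent.Helper52.NSE (E3 pd divg TestField MemH1s MemL2s IsWeakSolution gradSq kin
  IsSmoothBoundedDomain)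
open Pool.Agent.Helper60.EC (D Cc curl grad cr ip sq nl adv sm gsq fn Hs)

/-- `BUS` passes to subsequences -/
theorem Fin_sub {O : ℕ → Set E3} {u : ℕ → ℝ → E3 → E3} {A : ℕ → ℝ → Fin 3 → E3 → E3} {K c : ℝ}
    {e : ℕ → ℝ} (h : BUS O u A K c e) {ρ : ℕ → ℕ} (hρ : StrictMono ρ) :
    BUS (fun k => O (ρ k)) (fun k => u (ρ k)) (fun k => A (ρ k)) K c (fun k => e (ρ k)) where
  meas k := h.meas (ρ k)
  gmeas k := h.gmeas (ρ k)
  off k := h.off (ρ k)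
  goff k := h.goff (ρ k)
  h1 k := h.h1 (ρ k)
  div k := h.div (ρ k)
  energy k := h.energy (ρ k)
  gint k := h.gint (ρ k)
  gbd k := h.gbd (ρ k)
  enn k := h.enn (ρ k)
  e0 := h.e0.comp hρ.tendsto_atTop
  time k := h.time (ρ k)
  eqn := by
    intro θ hθ φ
    obtain ⟨ε, hε, h2⟩ := h.eqn θ hθ φ
    exact ⟨fun k => ε (ρ k), hε.comp hρ.tendsto_atTop, fun k => h2 (ρ k)⟩
  mass k := h.mass (ρ k)

theorem Fin_wk_sub {F : ℕ → ℝ → E3 → E3} {F' : ℝ → E3 → E3} (h : Wk F F') {ρ : ℕ → ℕ}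
    (hρ : StrictMono ρ) : Wk (fun k => F (ρ k)) F' :=
  fun Ψ hΨ => (h Ψ hΨ).comp hρ.tendsto_atTop

/-- a weakly convergent subsequence -/
theorem Fin_wk (hWc : StWc) (hBb : StBb) {O : ℕ → Set E3} {u : ℕ → ℝ → E3 → E3}
    {A : ℕ → ℝ → Fin 3 → E3 → E3} {K c : ℝ} {e : ℕ → ℝ} (h : BUS O u A K c e) :
    ∃ ρ : ℕ → ℕ, StrictMono ρ ∧ ∃ (v : ℝ → E3 → E3) (A' : ℝ → Fin 3 → E3 → E3),
      (Measurable fun q : ℝ × E3 => v q.1 q.2) ∧ (∀ i, Measurable fun q : ℝ × E3 => A' q.1 i q.2) ∧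
      MemLp (fun q : ℝ × E3 => v q.1 q.2) 2 mQ ∧
      (∀ i, MemLp (fun q : ℝ × E3 => A' q.1 i q.2) 2 mQ) ∧
      Wk (fun k => u (ρ k)) v ∧ ∀ i, Wk (fun k s => A (ρ k) s i) (fun s => A' s i) := by
  obtain ⟨hu, hA⟩ := hBb O u A K c e h
  obtain ⟨ρ, hρ, v, hv1, hv2, hv3⟩ := hWc u K (fun k => (hu k).1) (fun k => (hu k).2)
  obtain ⟨ρ0, hρ0, B0, hB01, hB02, hB03⟩ := hWc (fun k s => A (ρ k) s 0) K
    (fun k => (hA (ρ k) 0).1) (fun k => (hA (ρ k) 0).2)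
  obtain ⟨ρ1, hρ1, B1, hB11, hB12, hB13⟩ := hWc (fun k s => A (ρ (ρ0 k)) s 1) K
    (fun k => (hA (ρ (ρ0 k)) 1).1) (fun k => (hA (ρ (ρ0 k)) 1).2)
  obtain ⟨ρ2, hρ2, B2, hB21, hB22, hB23⟩ := hWc (fun k s => A (ρ (ρ0 (ρ1 k))) s 2) K
    (fun k => (hA (ρ (ρ0 (ρ1 k))) 2).1) (fun k => (hA (ρ (ρ0 (ρ1 k))) 2).2)
  refine ⟨fun k => ρ (ρ0 (ρ1 (ρ2 k))), hρ.comp (hρ0.comp (hρ1.comp hρ2)), v,
    fun s i => ![B0 s, B1 s, B2 s] i, hv1, ?_, hv2, ?_, ?_, ?_⟩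
  · intro i
    fin_cases i
    · exact hB01
    · exact hB11
    · exact hB21
  · intro i
    fin_cases i
    · exact hB02
    · exact hB12
    · exact hB22
  · exact Fin_wk_sub hv3 (hρ0.comp (hρ1.comp hρ2))
  · intro i
    fin_cases i
    · exact Fin_wk_sub hB03 (hρ1.comp hρ2)
    · exact Fin_wk_sub hB13 hρ2
    · exact hB23

theorem Fin_eqC {v : ℝ → E3 → E3} (h : EqU univ v) : EqC v := by
  intro θ hθ φ hφ
  refine h θ hθ (curl φ) ⟨(Pool.Agent.Helper60.EC.cc_curl hφ).smooth,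
    (Pool.Agent.Helper60.EC.cc_curl hφ).comp, subset_univ _, fun x => ?_⟩
  exact Pool.Agent.Helper60.EC.divg_curl (by exact_mod_cast contDiff_infty.1 hφ.smooth 2) x

/-- the mass of the limit -/
theorem Fin_mass (hBb : StBb) {O : ℕ → Set E3} {u : ℕ → ℝ → E3 → E3}
    {A : ℕ → ℝ → Fin 3 → E3 → E3} {K c : ℝ} {e : ℕ → ℝ} (h : BUS O u A K c e) (hc : 0 < c)
    {v : ℝ → E3 → E3} (hv : MemLp (fun q : ℝ × E3 => v q.1 q.2) 2 mQ) (hSg : Sg u v)
    (h0 : ∀ᵐ t ∂mI, v t =ᵐ[volume] 0) : False := by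
  obtain ⟨hu, -⟩ := hBb O u A K c e h
  have h1 := hSg 2
  have h2 : ∀ k, c ≤ ∫ q in (univ : Set ℝ) ×ˢ Metric.ball (0 : E3) 2,
      ‖u k q.1 q.2 - v q.1 q.2‖ ^ 2 ∂mQ := by
    intro k
    have hint : Integrable (fun q : ℝ × E3 => ‖u k q.1 q.2 - v q.1 q.2‖ ^ 2) mQ := by
      have h3 := (((hu k).1).sub hv).integrable_norm_pow (p := 2) (by norm_num)
      exact h3
    rw [setIntegral_prod _ hint.integrableOn, Measure.restrict_univ]
    refine (h.mass k).trans (le_of_eq ?_)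
    refine integral_congr_ae ?_
    filter_upwards [h0] with s hs
    refine setIntegral_congr_ae Metric.isOpen_ball.measurableSet ?_
    filter_upwards [hs] with y hy _
    rw [hy]
    simp
  have h3 := ge_of_tendsto' h1 h2
  linarith

theorem hFin (hLV : StLV) (hWc : StWc) (hBb : StBb) (hSc : StSc) (hLc : StLc) (hLe : StLe)
    (hOf : StOf) (hHa : StHa) : StFin := by
  intro Ω hΩ x r hx hr hr0 u A K c e hK hc hB
  obtain ⟨φ, hφ, hdom⟩ := Pool.Agent.Helper60.EC.domains hΩ x r hx hr hr0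
  have hB1 := Fin_sub hB hφ
  obtain ⟨ρ, hρ, v, A', hv1, hA1, hv2, hA2, hv3, hA3⟩ := Fin_wk hWc hBb hB1
  have hB2 := Fin_sub hB1 hρ
  have hCls : Cls v A' := hLc _ _ _ K c _ hB2 v A' hv1 hA1 hv2 hA2 hv3 hA3
  have hSg := hSc _ _ _ K c _ hB2 hK v hv2 hv3
  have hEqC : EqC v := by
    rcases hdom with hA | ⟨n, d, hn, hb1, hb2⟩
    · refine Fin_eqC (hLe _ _ _ K c _ hB2 v hv1 hv2 hSg univ fun ψ hψ => ?_)
      have h1 := hρ.tendsto_atTop.eventually (hA (tsupport ψ) hψ.compact)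
      filter_upwards [h1] with k hk
      exact ⟨hψ.smooth, hψ.compact, fun y hy => hk y hy, hψ.div⟩
    · refine hHa n d hn v A' hCls ?_ ?_
      · refine hOf _ _ _ K c _ hB2 v A' hCls hSg n d hn fun y hy => ?_
        have h1 := hρ.tendsto_atTop.eventually (hb2 y hy)
        filter_upwards [h1] with k hk
        exact hk
      · refine hLe _ _ _ K c _ hB2 v hv1 hv2 hSg (Hs n d) fun ψ hψ => ?_
        have h1 := hρ.tendsto_atTop.eventually (hb1 (tsupport ψ) hψ.compact hψ.supp)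
        filter_upwards [h1] with k hk
        exact ⟨hψ.smooth, hψ.compact, fun y hy => hk y hy, hψ.div⟩
  have hEF : EF v A' := ⟨hCls, hEqC⟩
  exact Fin_mass hBb hB2 hc hv2 hSg (hLV v A' hEF)

end Pool.Agent.Helper83.CR
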