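import Pool.Agent.Helper83.CR.St

/-! # Project CR, module Fr -/

set_option autoImplicit false

open MeasureTheory Set Filter Topology
open scoped ENNReal ContDiff

noncomputable section

namespace Pool.Agent.Helper83.CR

open Pool.Agent.Helper52.NSE (E3 pd divg TestField)
open Pool.Agent.Helper60.EC (D Cc curl grad cr ip sq nl adv sm gsq fn Hs)

theorem hFr (h₁ : StFrA) (h₂ : StFrB) (h₃ : StFrC) : StFr := by
  intro Ω ν T u₀ f u G hO hb hν h K hK t₀ ht₀ r hr hr1 x₀
  obtain ⟨a1, a2, a3, a4, _, _, a7, _⟩ := h₁ Ω ν T u₀ f u G hO hb h K hK t₀ ht₀ r hr hr1 x₀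
  obtain ⟨_, b2⟩ := h₂ Ω ν T u₀ f u G hO hb hν h K hK t₀ ht₀ r hr hr1 x₀
  have c := h₃ Ω ν T u₀ f u G hO hb hν h t₀ ht₀ r hr hr1 x₀
  refine
    { meas := a1
      gmeas := a2
      off := fun s y hy => ?_
      goff := fun s i y hy => ?_
      h1 := a3.mono fun s hs => hs.1
      div := a3.mono fun s hs => hs.2
      energy := a4
      gint := a7
      time := b2
      eqn := c }
  · have hy' : x₀ + r • y ∉ Ω := hy
    unfold sv ze
    rw [indicator_of_notMem hy', smul_zero]
  · have hy' : x₀ + r • y ∉ Ω := hy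
    unfold sA ze
    rw [indicator_of_notMem hy', smul_zero]

end Pool.Agent.Helper83.CR
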