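import Pool.Agent.Helper83.CR.St
import Pool.Agent.Helper60.EC.G4b

/-! Project CR, module FrA: the rescaled solution -/

set_option autoImplicit false

open MeasureTheory Set Filter Topology
open scoped ENNReal ContDiff

noncomputable section

namespace Pool.Agent.Helper83.CR

open Pool.Agent.Helper52.NSE (E3 pd divg TestField MemH1s MemL2s IsWeakSolution gradSq kin
  IsSmoothBoundedDomain)
open Pool.Agent.Helper60.EC (D Cc curl grad cr ip sq nl adv sm gsq fn Hs G4a_cov G4a_inv G4a_D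
  G4a_smooth G4a_comp G4a_rpow1 G4b_memLp G4b_sq G4b_pow1)

/-- change of variables, vector valued -/
theorem FrA_cov (f : E3 → E3) (x₀ : E3) {r : ℝ} (hr : 0 < r) :
    ∫ y, f (x₀ + r • y) = (r ^ 3)⁻¹ • ∫ x, f x := by
  have h1 := Measure.integral_comp_smul (volume : Measure E3) (fun z => f (x₀ + z)) r
  rw [h1, integral_add_left_eq_self f x₀]
  rw [finrank_euclideanSpace, Fintype.card_fin, abs_of_pos (by positivity)]

theorem FrA_qx (x₀ : E3) {r : ℝ} (hr : 0 < r) :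
    Measure.QuasiMeasurePreserving (fun y : E3 => x₀ + r • y) volume volume :=
  (quasiMeasurePreserving_add_left volume x₀).comp
    (Measure.quasiMeasurePreserving_smul volume hr.ne')

theorem FrA_qt {t₀ R T : ℝ} (hR : 0 < R) (h1 : R ≤ t₀) (h2 : t₀ ≤ T) :
    Measure.QuasiMeasurePreserving (fun s : ℝ => t₀ + R * s) mI (volume.restrict (Icc 0 T)) := by
  have h3 : Measure.QuasiMeasurePreserving (fun s : ℝ => t₀ + R * s) volume volume :=
    (quasiMeasurePreserving_add_left (volume : Measure ℝ) t₀).comp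
      (Measure.quasiMeasurePreserving_smul (volume : Measure ℝ) hR.ne')
  refine h3.restrict ?_
  intro s hs
  have h4 : -R ≤ R * s := by nlinarith [hs.1]
  have h5 : R * s ≤ 0 := by nlinarith [hs.2]
  exact ⟨by linarith, by linarith⟩

theorem FrA_meas {Ω : Set E3} (hΩ : MeasurableSet Ω) {T : ℝ} {u : ℝ → E3 → E3}
    (h : AEStronglyMeasurable (fun q : ℝ × E3 => u q.1 q.2)
      ((volume.restrict (Icc 0 T)).prod (volume.restrict Ω))) {t₀ R : ℝ} (hR : 0 < R)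
    (h1 : R ≤ t₀) (h2 : t₀ ≤ T) (x₀ : E3) {r : ℝ} (hr : 0 < r) (c : ℝ) :
    AEStronglyMeasurable (fun q : ℝ × E3 => c • ze Ω (u (t₀ + R * q.1)) (x₀ + r • q.2)) mQ := by
  have h3 : AEStronglyMeasurable (fun q : ℝ × E3 => ze Ω (u q.1) q.2)
      ((volume.restrict (Icc 0 T)).prod volume) := by
    have e1 : (fun q : ℝ × E3 => ze Ω (u q.1) q.2) =
        ((univ : Set ℝ) ×ˢ Ω).indicator (fun q : ℝ × E3 => u q.1 q.2) := by
      ext1 q
      unfold ze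
      by_cases hq : q.2 ∈ Ω
      · rw [indicator_of_mem hq, indicator_of_mem (by simp [hq])]
      · rw [indicator_of_notMem hq, indicator_of_notMem (by simp [hq])]
    rw [e1, aestronglyMeasurable_indicator_iff (MeasurableSet.univ.prod hΩ)]
    have e2 : ((volume.restrict (Icc 0 T)).prod (volume : Measure E3)).restrict
        ((univ : Set ℝ) ×ˢ Ω) = (volume.restrict (Icc 0 T)).prod (volume.restrict Ω) := by
      rw [← Measure.prod_restrict, Measure.restrict_univ]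
    rw [e2]
    exact h
  have h4 := h3.comp_quasiMeasurePreserving
    (QuasiMeasurePreserving.prodMap (FrA_qt hR h1 h2) (FrA_qx x₀ hr))
  exact h4.const_smul c

/-- scaling of `H1` -/
theorem FrA_H1 {w : E3 → E3} {A : Fin 3 → E3 → E3} (h : H1 w A) (x₀ : E3) {r : ℝ} (hr : 0 < r)
    (a : ℝ) : H1 (fun y => a • w (x₀ + r • y)) (fun i y => (a * r) • A i (x₀ + r • y)) := by
  refine ⟨G4b_memLp x₀ hr a h.l2, fun i => G4b_memLp x₀ hr (a * r) (h.gl2 i), ?_⟩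
  intro ψ hψ i
  have hΨ : Cc (fun x => (1 : ℝ) • ψ (r⁻¹ • (x - x₀))) :=
    ⟨G4a_smooth hψ.smooth _ _ _, G4a_comp hψ.comp _ hr _⟩
  have h1 := h.weak _ hΨ i
  have hD : ∀ x, D i (fun x => (1 : ℝ) • ψ (r⁻¹ • (x - x₀))) x =
      r⁻¹ * D i ψ (r⁻¹ • (x - x₀)) := by
    intro x
    rw [G4a_D hψ.smooth, one_mul, smul_eq_mul]
  simp only [hD] at h1
  simp only [one_smul] at h1
  have e1 : ∀ y : E3, D i ψ y • (a • w (x₀ + r • y)) =
      (a * r) • (fun x => (r⁻¹ * D i ψ (r⁻¹ • (x - x₀))) • w x) (x₀ + r • y) := by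
    intro y
    simp only
    rw [G4a_inv x₀ hr, smul_smul, smul_smul]
    congr 1
    field_simp
  have e2 : ∀ y : E3, ψ y • ((a * r) • A i (x₀ + r • y)) =
      (a * r) • (fun x => ψ (r⁻¹ • (x - x₀)) • A i x) (x₀ + r • y) := by
    intro y
    simp only
    rw [G4a_inv x₀ hr, smul_comm]
  simp only [e1, e2]
  rw [integral_smul, integral_smul,
    FrA_cov (fun x => (r⁻¹ * D i ψ (r⁻¹ • (x - x₀))) • w x) x₀ hr,
    FrA_cov (fun x => ψ (r⁻¹ • (x - x₀)) • A i x) x₀ hr, h1]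
  simp only [smul_neg]

theorem FrA_pow5 {r : ℝ} (hr : 0 < r) : r ^ (5 / 2 : ℝ) * r ^ (5 / 2 : ℝ) = r ^ 5 := by
  rw [← Real.rpow_add hr, ← Real.rpow_natCast]
  norm_num

theorem FrA_pow2 {r : ℝ} (hr : 0 < r) : r ^ 2 * (r ^ (5 / 2 : ℝ))⁻¹ = r ^ (-(1 / 2) : ℝ) := by
  rw [← Real.rpow_neg hr.le, ← Real.rpow_natCast, ← Real.rpow_add hr]
  norm_num

theorem FrA_sqrt {r : ℝ} (hr : 0 < r) : Real.sqrt (r ^ 3) = r ^ (3 / 2 : ℝ) := by
  rw [← G4a_rpow1 hr]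
  exact Real.sqrt_mul_self (Real.rpow_nonneg hr.le _)

theorem FrA_gs {Ω : Set E3} (hΩ : MeasurableSet Ω) (G : Fin 3 → E3 → E3) (x₀ : E3) {r : ℝ}
    (hr : 0 < r) :
    gs (fun i y => r ^ (5 / 2 : ℝ) • ze Ω (G i) (x₀ + r • y)) = r ^ 2 * gradSq Ω G := by
  have hp : (0 : ℝ) < r ^ (5 / 2 : ℝ) := Real.rpow_pos_of_pos hr _
  unfold gs gradSq
  have e1 : ∀ y : E3, ∑ i, ‖r ^ (5 / 2 : ℝ) • ze Ω (G i) (x₀ + r • y)‖ ^ 2 =
      r ^ 5 * (fun x => ∑ i, ‖ze Ω (G i) x‖ ^ 2) (x₀ + r • y) := by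
    intro y
    simp only
    rw [Finset.mul_sum]
    refine Finset.sum_congr rfl fun i _ => ?_
    rw [norm_smul, Real.norm_of_nonneg hp.le, mul_pow, pow_two (r ^ (5 / 2 : ℝ)), FrA_pow5 hr]
  simp only [e1]
  rw [integral_const_mul, G4a_cov (fun x => ∑ i, ‖ze Ω (G i) x‖ ^ 2) x₀ hr, ← mul_assoc]
  have e2 : r ^ 5 * (r ^ 3)⁻¹ = r ^ 2 := by field_simp
  rw [e2, ← integral_indicator hΩ]
  congr 2
  ext x
  unfold ze
  by_cases hx : x ∈ Ω
  · simp only [indicator_of_mem hx]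
  · simp only [indicator_of_notMem hx]
    simp

theorem FrA_q4 (w : E3 → E3) (x₀ : E3) {r : ℝ} (hr : 0 < r) :
    q4 (fun y => r ^ (3 / 2 : ℝ) • w (x₀ + r • y)) = r ^ (3 / 2 : ℝ) * q4 w := by
  have hp : (0 : ℝ) < r ^ (3 / 2 : ℝ) := Real.rpow_pos_of_pos hr _
  unfold q4
  have e1 : ∀ y : E3, ‖r ^ (3 / 2 : ℝ) • w (x₀ + r • y)‖ ^ 4 =
      r ^ 6 * (fun x => ‖w x‖ ^ 4) (x₀ + r • y) := by
    intro y
    simp only
    rw [norm_smul, Real.norm_of_nonneg hp.le, mul_pow]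
    congr 1
    have : (r ^ (3 / 2 : ℝ)) ^ 4 = (r ^ (3 / 2 : ℝ) * r ^ (3 / 2 : ℝ)) ^ 2 := by ring
    rw [this, G4a_rpow1 hr]
    ring
  simp only [e1]
  rw [integral_const_mul, G4a_cov (fun x => ‖w x‖ ^ 4) x₀ hr, ← mul_assoc]
  have e2 : r ^ 6 * (r ^ 3)⁻¹ = r ^ 3 := by field_simp
  rw [e2, Real.sqrt_mul (by positivity), FrA_sqrt hr]

theorem FrA_int {T : ℝ} {g : ℝ → ℝ} (hg : IntegrableOn g (Icc 0 T)) {t₀ R : ℝ} (hR : 0 < R)
    (h1 : R ≤ t₀) (h2 : t₀ ≤ T) : Integrable (fun s => g (t₀ + R * s)) mI := by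
  have h3 : IntegrableOn g (Ioo (t₀ - R) t₀) :=
    hg.mono_set fun x hx => ⟨by linarith [hx.1], by linarith [hx.2]⟩
  rw [← integrable_indicator_iff measurableSet_Ioo] at h3
  have h4 : Integrable (fun s => (Ioo (t₀ - R) t₀).indicator g (t₀ + R * s)) :=
    (h3.comp_add_left t₀).comp_mul_left' hR.ne'
  have h5 : (fun s => (Ioo (t₀ - R) t₀).indicator g (t₀ + R * s)) =
      (Ioo (-1 : ℝ) 0).indicator (fun s => g (t₀ + R * s)) := by
    ext s
    by_cases hs : s ∈ Ioo (-1 : ℝ) 0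
    · rw [indicator_of_mem hs, indicator_of_mem]
      constructor
      · nlinarith [hs.1]
      · nlinarith [hs.2]
    · rw [indicator_of_notMem hs, indicator_of_notMem]
      rintro ⟨h6, h7⟩
      apply hs
      constructor
      · by_contra h8
        have h9 : s ≤ -1 := not_lt.1 h8
        nlinarith
      · by_contra h8
        have h9 : 0 ≤ s := not_lt.1 h8
        nlinarith
  rw [h5, integrable_indicator_iff measurableSet_Ioo] at h4
  exact h4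

theorem hFrA (hEx : StEx) : StFrA := by
  intro Ω ν T u₀ f u G hΩo hΩb h K hK t₀ ht₀ r hr hrt x₀
  have hΩm : MeasurableSet Ω := hΩo.measurableSet
  have hR : (0 : ℝ) < r ^ (5 / 2 : ℝ) := Real.rpow_pos_of_pos hr _
  have hgi : IntegrableOn (fun τ => gradSq Ω (G τ)) (Icc 0 T) := h.grad_int
  have hgs : ∀ s, gs (sA Ω G t₀ r x₀ s) = r ^ 2 * gradSq Ω (G (t₀ + r ^ (5 / 2 : ℝ) * s)) :=
    fun s => FrA_gs hΩm (G (t₀ + r ^ (5 / 2 : ℝ) * s)) x₀ hr
  refine ⟨?_, ?_, ?_, ?_, hgs, ?_, ?_, ?_⟩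
  · exact FrA_meas hΩm h.meas hR hrt ht₀.2 x₀ hr (r ^ (3 / 2 : ℝ))
  · intro i
    exact FrA_meas hΩm (u := fun t => G t i) (h.grad_meas i) hR hrt ht₀.2 x₀ hr (r ^ (5 / 2 : ℝ))
  · have h1 := (FrA_qt hR hrt ht₀.2).ae h.grad_mem
    filter_upwards [h1] with s hs
    obtain ⟨h2, h3, -, -⟩ := hEx Ω hΩo _ _ hs
    have h4 := FrA_H1 h2 x₀ hr (r ^ (3 / 2 : ℝ))
    rw [G4b_pow1 hr] at h4
    refine ⟨h4, ?_⟩
    have h5 := (FrA_qx x₀ hr).ae h3
    filter_upwards [h5] with y hy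
    change dv (fun i => ze Ω (G (t₀ + r ^ (5 / 2 : ℝ) * s) i)) (x₀ + r • y) = 0 at hy
    have h6 : dv (sA Ω G t₀ r x₀ s) y = r ^ (5 / 2 : ℝ) *
        dv (fun i => ze Ω (G (t₀ + r ^ (5 / 2 : ℝ) * s) i)) (x₀ + r • y) := by
      unfold dv sA
      rw [Finset.mul_sum]
      refine Finset.sum_congr rfl fun i _ => ?_
      rw [PiLp.smul_apply, smul_eq_mul]
    rw [h6, hy, mul_zero]
    rfl
  · intro s hs
    have hτ : t₀ + r ^ (5 / 2 : ℝ) * s ∈ Icc 0 T := by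
      have h4 : -r ^ (5 / 2 : ℝ) ≤ r ^ (5 / 2 : ℝ) * s := by nlinarith [hs.1]
      have h5 : r ^ (5 / 2 : ℝ) * s ≤ 0 := by nlinarith [hs.2]
      exact ⟨by linarith, by linarith [ht₀.2]⟩
    have h1 : MemLp (u (t₀ + r ^ (5 / 2 : ℝ) * s)) 2 (volume.restrict Ω) := (h.mem _ hτ).memLp
    have h2 : MemLp (ze Ω (u (t₀ + r ^ (5 / 2 : ℝ) * s))) 2 volume :=
      (memLp_indicator_iff_restrict hΩm).2 h1
    refine ⟨G4b_memLp x₀ hr _ h2, ?_⟩
    have h3 := G4b_sq (ze Ω (u (t₀ + r ^ (5 / 2 : ℝ) * s))) x₀ hr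
    have h4 : sq (ze Ω (u (t₀ + r ^ (5 / 2 : ℝ) * s))) =
        ∫ x in Ω, ‖u (t₀ + r ^ (5 / 2 : ℝ) * s) x‖ ^ 2 := by
      unfold Pool.Agent.Helper60.EC.sq
      rw [← integral_indicator hΩm]
      congr 1
      ext x
      unfold ze
      by_cases hx : x ∈ Ω
      · simp only [indicator_of_mem hx]
      · simp only [indicator_of_notMem hx]
        simp
    exact h3.le.trans (h4.le.trans (hK _ hτ))
  · intro s
    exact FrA_q4 (ze Ω (u (t₀ + r ^ (5 / 2 : ℝ) * s))) x₀ hr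
  · simp only [hgs]
    exact (FrA_int hgi hR hrt ht₀.2).const_mul _
  · simp only [hgs]
    rw [← integral_Ioc_eq_integral_Ioo, ← intervalIntegral.integral_of_le (by norm_num),
      intervalIntegral.integral_const_mul,
      intervalIntegral.integral_comp_add_mul (fun τ => gradSq Ω (G τ)) hR.ne' t₀, smul_eq_mul,
      ← mul_assoc, FrA_pow2 hr]
    congr 2 <;> ring

end Pool.Agent.Helper83.CR
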