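import Pool.Agent.Helper83.CR.St
import Pool.Agent.Helper60.EC.G3b
import Pool.Agent.Helper60.EC.G4a

/-!
# Project CR, module FrB: the time estimate and the drop of the energy, rescaled
-/

set_option autoImplicit false

open MeasureTheory Set Filter Topology
open scoped ENNReal ContDiff

noncomputable section

namespace Pool.Agent.Helper83.CR

open Pool.Agent.Helper52.NSE (E3 pd divg TestField MemH1s MemL2s IsWeakSolution gradSq kin
  IsSmoothBoundedDomain)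
open Pool.Agent.Helper60.EC (D Cc curl grad cr ip sq nl adv sm gsq fn Hs)

theorem FrB_qmp (t₀ : ℝ) {c : ℝ} (hc : 0 < c) :
    Measure.QuasiMeasurePreserving (fun s : ℝ => t₀ + c * s) volume volume := by
  have h1 : Measure.QuasiMeasurePreserving (fun s : ℝ => c * s) volume volume := by
    refine ⟨measurable_const_mul c, ?_⟩
    have h2 := Real.map_volume_mul_left (a := c) hc.ne'
    rw [h2]
    exact Measure.smul_absolutelyContinuous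
  exact (measurePreserving_add_left volume t₀).quasiMeasurePreserving.comp h1

theorem FrB_ae {T t₀ c : ℝ} (ht₀ : t₀ ∈ Ioc 0 T) (hc : 0 < c) (hct : c ≤ t₀) {P : ℝ → Prop}
    (h : ∀ᵐ t ∂(volume.restrict (Icc 0 T)), P t) : ∀ᵐ s ∂mI, P (t₀ + c * s) := by
  rw [ae_restrict_iff' measurableSet_Icc] at h
  rw [ae_restrict_iff' measurableSet_Ioo]
  filter_upwards [(FrB_qmp t₀ hc).ae h] with s hs hs1
  refine hs ⟨?_, ?_⟩
  · have h1 : c * (-1) ≤ c * s := mul_le_mul_of_nonneg_left hs1.1.le hc.le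
    linarith
  · have h1 : c * s ≤ c * 0 := mul_le_mul_of_nonneg_left hs1.2.le hc.le
    linarith [ht₀.2]

theorem FrB_fn {Ω : Set E3} {ν T : ℝ} {u₀ : E3 → E3} {f u : ℝ → E3 → E3}
    {G : ℝ → Fin 3 → E3 → E3} (h : IsWeakSolution Ω ν T u₀ f u G) {t₀ a s t : ℝ}
    (ht₀ : t₀ ∈ Ioc 0 T) (ha : 0 ≤ a) (has : a ≤ s) (hst : s ≤ t) (ht : t ≤ t₀) :
    ∫ τ in s..t, fn Ω f τ ≤ ∫ τ in a..t₀, fn Ω f τ := by
  refine intervalIntegral.integral_mono_interval has hst ht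
    (Eventually.of_forall fun x => Real.sqrt_nonneg _) ?_
  exact Pool.Agent.Helper52.NSE.ii_of (Pool.Agent.Helper60.EC.G3b_fn_int h) ha
    (has.trans (hst.trans ht)) ht₀.2

/-- the scaling of the interval integrals -/
theorem FrB_int (g g' : ℝ → ℝ) (t₀ : ℝ) {c a : ℝ} (hc : 0 < c) (ha : a ≠ 0)
    (h : ∀ s, g' s = a * g (t₀ + c * s)) (s t : ℝ) :
    ∫ τ in (t₀ + c * s)..(t₀ + c * t), g τ = c * a⁻¹ * ∫ τ in s..t, g' τ := by
  have h1 : ∫ τ in s..t, g' τ = a * ∫ τ in s..t, g (t₀ + c * τ) := by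
    rw [← intervalIntegral.integral_const_mul]
    exact intervalIntegral.integral_congr fun τ _ => h τ
  rw [h1, intervalIntegral.integral_comp_add_mul g hc.ne' t₀, smul_eq_mul]
  field_simp

theorem FrB_sq {Ω : Set E3} (hΩ : IsOpen Ω) (u : ℝ → E3 → E3) (t₀ : ℝ) {r : ℝ} (hr : 0 < r)
    (x₀ : E3) (s t : ℝ) :
    sq (fun y => sv Ω u t₀ r x₀ t y - sv Ω u t₀ r x₀ s y) =
      ∫ x in Ω, ‖u (t₀ + r ^ (5 / 2 : ℝ) * t) x - u (t₀ + r ^ (5 / 2 : ℝ) * s) x‖ ^ 2 := by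
  unfold Pool.Agent.Helper60.EC.sq sv
  have hp1 : (0 : ℝ) < r ^ (3 / 2 : ℝ) := Real.rpow_pos_of_pos hr _
  have hr3 : (0 : ℝ) < r ^ 3 := by positivity
  have h1 : ∀ y : E3, ‖r ^ (3 / 2 : ℝ) • ze Ω (u (t₀ + r ^ (5 / 2 : ℝ) * t)) (x₀ + r • y) -
      r ^ (3 / 2 : ℝ) • ze Ω (u (t₀ + r ^ (5 / 2 : ℝ) * s)) (x₀ + r • y)‖ ^ 2 =
      r ^ 3 * (fun x => Ω.indicator (fun x => ‖u (t₀ + r ^ (5 / 2 : ℝ) * t) x -
        u (t₀ + r ^ (5 / 2 : ℝ) * s) x‖ ^ 2) x) (x₀ + r • y) := by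
    intro y
    rw [← smul_sub, norm_smul, Real.norm_of_nonneg hp1.le, mul_pow, pow_two (r ^ (3 / 2 : ℝ)),
      Pool.Agent.Helper60.EC.G4a_rpow1 hr]
    congr 1
    unfold ze
    by_cases hy : x₀ + r • y ∈ Ω
    · simp only [indicator_of_mem hy]
    · simp only [indicator_of_notMem hy, sub_self, norm_zero]
      norm_num
  simp only [h1]
  rw [integral_const_mul, Pool.Agent.Helper60.EC.G4a_cov _ x₀ hr, ← mul_assoc,
    mul_inv_cancel₀ hr3.ne', one_mul, integral_indicator hΩ.measurableSet]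

theorem FrB_rp1 {r : ℝ} (hr : 0 < r) : r⁻¹ * (r ^ (5 / 2 : ℝ) * r⁻¹) = r ^ (1 / 2 : ℝ) := by
  rw [← Real.rpow_neg_one, ← Real.rpow_add hr, ← Real.rpow_add hr]
  norm_num

theorem FrB_rp2 {r : ℝ} (hr : 0 < r) :
    r⁻¹ * (r ^ (5 / 2 : ℝ) * (r ^ (3 / 2 : ℝ))⁻¹) = 1 := by
  rw [← Real.rpow_neg_one, ← Real.rpow_neg hr.le, ← Real.rpow_add hr, ← Real.rpow_add hr]
  norm_num

/-- **FrB**. The time estimate and the drop of the energy for the rescaled solution. -/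
theorem hFrB (hWt : StWt) (hFrA : StFrA) : StFrB := by
  intro Ω ν T u₀ f u G hΩ hΩb hν h K hK t₀ ht₀ r hr hrt x₀
  obtain ⟨-, -, -, -, hgs, hq4, -, -⟩ := hFrA Ω ν T u₀ f u G hΩ hΩb h K hK t₀ ht₀ r hr hrt x₀
  have hW := hWt Ω ν T u₀ f u G hΩ hΩb hν h K hK
  obtain ⟨c, hcdef⟩ : ∃ c, c = r ^ (5 / 2 : ℝ) := ⟨_, rfl⟩
  have hc : 0 < c := by rw [hcdef]; exact Real.rpow_pos_of_pos hr _
  have hct : c ≤ t₀ := by rw [hcdef]; exact hrt
  have hae := FrB_ae ht₀ hc hct h.grad_mem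
  have hsg : ∀ s, Real.sqrt (gs (sA Ω G t₀ r x₀ s)) =
      r * Real.sqrt (gradSq Ω (G (t₀ + c * s))) := by
    intro s
    rw [hgs s, Real.sqrt_mul (by positivity), Real.sqrt_sq hr.le, hcdef]
  have hsg' : ∀ s, Real.sqrt (gradSq Ω (G (t₀ + c * s))) =
      r⁻¹ * Real.sqrt (gs (sA Ω G t₀ r x₀ s)) := by
    intro s
    rw [hsg s, ← mul_assoc, inv_mul_cancel₀ hr.ne', one_mul]
  have hI1 := FrB_int (fun τ => Real.sqrt (gradSq Ω (G τ)))
    (fun s => Real.sqrt (gs (sA Ω G t₀ r x₀ s))) t₀ hc hr.ne' hsg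
  have hp : (0 : ℝ) < r ^ (3 / 2 : ℝ) := Real.rpow_pos_of_pos hr _
  have hI2 := FrB_int (fun τ => q4 (ze Ω (u τ))) (fun s => q4 (sv Ω u t₀ r x₀ s)) t₀ hc hp.ne'
    (fun s => by rw [hq4 s, hcdef])
  have hr1 : r⁻¹ * (c * r⁻¹) = r ^ (1 / 2 : ℝ) := by rw [hcdef]; exact FrB_rp1 hr
  have hr2 : r⁻¹ * (c * (r ^ (3 / 2 : ℝ))⁻¹) = 1 := by rw [hcdef]; exact FrB_rp2 hr
  -- the products
  have hprod : ∀ X s t : ℝ, r⁻¹ * X * (ν * (∫ τ in (t₀ + c * s)..(t₀ + c * t),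
      Real.sqrt (gradSq Ω (G τ))) + ∫ τ in (t₀ + c * s)..(t₀ + c * t), q4 (ze Ω (u τ))) =
      X * (ν * r ^ (1 / 2 : ℝ) * (∫ τ in s..t, Real.sqrt (gs (sA Ω G t₀ r x₀ τ))) +
        ∫ τ in s..t, q4 (sv Ω u t₀ r x₀ τ)) := by
    intro X s t
    rw [hI1 s t, hI2 s t]
    have e1 : ∀ P Q : ℝ, r⁻¹ * X * (ν * (c * r⁻¹ * P) + c * (r ^ (3 / 2 : ℝ))⁻¹ * Q) =
        X * (ν * (r⁻¹ * (c * r⁻¹)) * P + (r⁻¹ * (c * (r ^ (3 / 2 : ℝ))⁻¹)) * Q) := by
      intro P Q; ring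
    rw [e1, hr1, hr2, one_mul]
  have hsI : ∀ s ∈ Ioo (-1 : ℝ) 0, t₀ - c ≤ t₀ + c * s ∧ t₀ + c * s < t₀ := by
    intro s hs
    have h1 : c * (-1) ≤ c * s := mul_le_mul_of_nonneg_left hs.1.le hc.le
    have h2 : c * s < c * 0 := mul_lt_mul_of_pos_left hs.2 hc
    constructor <;> linarith
  rw [← hcdef]
  constructor
  · filter_upwards [hae, ae_restrict_mem measurableSet_Ioo] with s hs hs1
    obtain ⟨h1, h2⟩ := hsI s hs1
    have h3 := (hW (t₀ + c * s) t₀ (by linarith) h2 ht₀.2 hs).1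
    have h4 := FrB_fn h ht₀ (a := t₀ - c) (by linarith) h1 h2.le le_rfl
    have h5 := hprod (Real.sqrt (gs (sA Ω G t₀ r x₀ s))) s 0
    rw [mul_zero, add_zero, ← hsg' s] at h5
    rw [h5] at h3
    have h6 := mul_le_mul_of_nonneg_left h4 (Real.sqrt_nonneg K)
    linarith
  · filter_upwards [hae, ae_restrict_mem measurableSet_Ioo] with s hs hs1
    filter_upwards [hae, ae_restrict_mem measurableSet_Ioo] with t ht ht1 hst
    obtain ⟨h1, h2⟩ := hsI s hs1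
    obtain ⟨h1', h2'⟩ := hsI t ht1
    have hst' : t₀ + c * s < t₀ + c * t := by
      have := mul_lt_mul_of_pos_left hst hc
      linarith
    have h3 := (hW (t₀ + c * s) (t₀ + c * t) (by linarith) hst' (h2'.le.trans ht₀.2) hs).2 ht
    have h4 := FrB_fn h ht₀ (a := t₀ - c) (by linarith) h1 hst'.le h2'.le
    have h5 := hprod (Real.sqrt (gs (sA Ω G t₀ r x₀ s)) + Real.sqrt (gs (sA Ω G t₀ r x₀ t))) s t
    rw [mul_add r⁻¹ (Real.sqrt (gs (sA Ω G t₀ r x₀ s))), ← hsg' s, ← hsg' t] at h5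
    rw [h5] at h3
    have h6 := mul_le_mul_of_nonneg_left h4
      (show 0 ≤ 2 * Real.sqrt K by positivity)
    have h7 := FrB_sq hΩ u t₀ hr x₀ s t
    rw [← hcdef] at h7
    rw [h7]
    linarith

end Pool.Agent.Helper83.CR
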