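import Pool.Agent.Helper83.CR.St
import Pool.Agent.Helper60.EC.G4b
import Pool.Agent.Helper60.EC.G2c

/-!
# Project CR, FrC: the equation for the rescaled solution
-/

set_option autoImplicit false

open MeasureTheory Set Filter Topology
open scoped ENNReal ContDiff

noncomputable section

namespace Pool.Agent.Helper83.CR

open Pool.Agent.Helper52.NSE (E3 pd divg TestField MemH1s MemL2s IsWeakSolution gradSq kin
  IsSmoothBoundedDomain ii_of sqrt_cs sqrt_int)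
open Pool.Agent.Helper60.EC (D Cc curl grad cr ip sq nl adv sm gsq fn Hs testField_scale
  scale_norms G2c_ip G2c_nl G2c_force G2c_visc G4b_cov_time G2c_gsq G2c_nm)
open Pool.Agent.Helper7.NT (gp Bf gp_le gp_time pair_time Bf_time)

theorem FrC_zero {θ : ℝ → ℝ} (hθ : Tc θ) : θ (-1) = 0 := by
  apply image_eq_zero_of_notMem_tsupport
  intro h
  have := (hθ.supp h).1
  exact lt_irrefl _ this

/-- integration by parts in time -/
theorem FrC_ibp {θ : ℝ → ℝ} (hθ : Tc θ) {R b : ℝ → ℝ}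
    (hR : IntervalIntegrable R volume (-1) 0)
    (hb : ∀ s ∈ Icc (-1 : ℝ) 0, b s = b 0 - ∫ τ in s..0, R τ) :
    ∫ s in (-1 : ℝ)..0, deriv θ s * b s = θ 0 * b 0 - ∫ s in (-1 : ℝ)..0, θ s * R s := by
  have hle : (-1 : ℝ) ≤ 0 := by norm_num
  have hθc : ContDiff ℝ 1 θ := hθ.smooth.of_le (by exact_mod_cast le_top)
  have hθd : Continuous (deriv θ) := hθc.continuous_deriv le_rfl
  have h1 : AbsolutelyContinuousOnInterval θ (-1) 0 :=
    hθc.contDiffOn.absolutelyContinuousOnInterval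
  have hmem : (-1 : ℝ) ∈ uIcc (-1 : ℝ) 0 := left_mem_uIcc
  have h2 := hR.absolutelyContinuousOnInterval_intervalIntegral hmem
  have h3 := h1.integral_mul_deriv_eq_deriv_mul h2
  have h4 : ∫ s in (-1 : ℝ)..0, θ s * deriv (fun x => ∫ v in (-1 : ℝ)..x, R v) s =
      ∫ s in (-1 : ℝ)..0, θ s * R s := by
    apply intervalIntegral.integral_congr_ae
    filter_upwards [hR.ae_hasDerivAt_integral] with x hx hx'
    rw [(hx (uIoc_subset_uIcc hx') (-1) hmem).deriv]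
  rw [h4, intervalIntegral.integral_same, mul_zero, sub_zero] at h3
  have hb1 : b (-1) = b 0 - ∫ τ in (-1 : ℝ)..0, R τ := hb (-1) ⟨le_rfl, hle⟩
  have h5 : ∫ s in (-1 : ℝ)..0, deriv θ s * b s =
      ∫ s in (-1 : ℝ)..0, (deriv θ s * b (-1) + deriv θ s * ∫ v in (-1 : ℝ)..s, R v) := by
    apply intervalIntegral.integral_congr
    intro s hs
    rw [uIcc_of_le hle] at hs
    have i1 : IntervalIntegrable R volume (-1) s := hR.mono_set (by
      rw [uIcc_of_le hle, uIcc_of_le hs.1]; exact Icc_subset_Icc le_rfl hs.2)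
    have i2 : IntervalIntegrable R volume s 0 := hR.mono_set (by
      rw [uIcc_of_le hle, uIcc_of_le hs.2]; exact Icc_subset_Icc hs.1 le_rfl)
    have h6 := intervalIntegral.integral_add_adjacent_intervals i1 i2
    simp only
    rw [hb s hs, hb1, ← h6]
    ring
  have hc : ContinuousOn (fun x => ∫ v in (-1 : ℝ)..x, R v) (uIcc (-1 : ℝ) 0) := h2.continuousOn
  have i3 : IntervalIntegrable (fun s => deriv θ s * b (-1)) volume (-1) 0 :=
    (hθd.mul continuous_const).intervalIntegrable _ _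
  have i4 : IntervalIntegrable (fun s => deriv θ s * ∫ v in (-1 : ℝ)..s, R v) volume (-1) 0 :=
    (hθd.continuousOn.mul hc).intervalIntegrable
  rw [h5, intervalIntegral.integral_add i3 i4, intervalIntegral.integral_mul_const]
  have h7 : ∫ s in (-1 : ℝ)..0, deriv θ s = θ 0 - θ (-1) :=
    intervalIntegral.integral_deriv_eq_sub (fun x _ => (hθc.differentiable one_ne_zero) x)
      (hθd.intervalIntegrable _ _)
  rw [h7, FrC_zero hθ, sub_zero]
  have h8 : ∫ s in (-1 : ℝ)..0, deriv θ s * ∫ v in (-1 : ℝ)..s, R v =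
      θ 0 * (∫ v in (-1 : ℝ)..0, R v) - ∫ s in (-1 : ℝ)..0, θ s * R s := by
    rw [h3]; ring
  rw [h8, hb1]
  ring

theorem FrC_ii {g : ℝ → ℝ} {T t₀ κ : ℝ} (hg : IntegrableOn g (Icc 0 T)) (hκ : 0 < κ)
    (hκt : κ ≤ t₀) (ht : t₀ ≤ T) : IntervalIntegrable (fun τ => g (t₀ + κ * τ)) volume (-1) 0 := by
  have h1 : IntervalIntegrable g volume (t₀ - κ) t₀ :=
    ii_of hg (by linarith) (by linarith) ht
  have h2 := (h1.comp_add_left t₀).comp_mul_left (c := κ)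
  have e1 : (t₀ - κ - t₀) / κ = -1 := by field_simp; ring
  have e2 : (t₀ - t₀) / κ = 0 := by simp
  rw [e1, e2] at h2
  exact h2

theorem FrC_ze {Ω : Set E3} (hΩ : IsOpen Ω) {w : E3 → E3} (hw : MemL2s Ω w) :
    MemLp (ze Ω w) 2 volume ∧ ze Ω w =ᵐ[volume.restrict Ω] w := by
  refine ⟨?_, ?_⟩
  · unfold ze
    rw [memLp_indicator_iff_restrict hΩ.measurableSet]
    exact hw.memLp
  · filter_upwards [ae_restrict_mem hΩ.measurableSet] with x hx
    unfold ze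
    rw [indicator_of_mem hx]

theorem FrC_rpow1 {r : ℝ} (hr : 0 < r) :
    r⁻¹ * (Real.sqrt (r ^ (5 / 2 : ℝ)) * r ^ (1 / 4 : ℝ)) = r ^ (1 / 2 : ℝ) := by
  rw [Real.sqrt_eq_rpow, ← Real.rpow_mul hr.le, ← Real.rpow_add hr, ← Real.rpow_neg_one,
    ← Real.rpow_add hr]
  norm_num

theorem FrC_rpow2 {r : ℝ} (hr : 0 < r) {I : ℝ} :
    Real.sqrt I = r ^ (1 / 4 : ℝ) * Real.sqrt (r ^ (-(1 / 2) : ℝ) * I) := by
  rw [Real.sqrt_mul (Real.rpow_nonneg hr.le _), Real.sqrt_eq_rpow (r ^ (-(1 / 2) : ℝ)),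
    ← Real.rpow_mul hr.le, ← mul_assoc, ← Real.rpow_add hr]
  norm_num

theorem hFrC (h1 : StFrA) : StFrC := by
  intro Ω ν T u₀ f u G hΩ hbd hν h t₀ ht₀ r hr hrt x₀ θ hθ M hM φ hφ
  obtain ⟨K, hK⟩ := h.bound
  obtain ⟨-, -, -, -, -, -, -, hgs⟩ := h1 Ω ν T u₀ f u G hΩ hbd h K hK t₀ ht₀ r hr hrt x₀
  set κ : ℝ := r ^ (5 / 2 : ℝ) with hκ
  have hκ0 : 0 < κ := Real.rpow_pos_of_pos hr _
  have hM0 : 0 ≤ M := (abs_nonneg _).trans (hM 0)
  have hφc : Cc φ := ⟨hφ.smooth, hφ.compact⟩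
  have hT := testField_scale x₀ hr hφ
  have htime : ∀ s ∈ Icc (-1 : ℝ) 0, t₀ + κ * s ∈ Icc 0 T := by
    intro s hs
    constructor
    · nlinarith [hs.1]
    · nlinarith [hs.2, ht₀.2]
  have hsn : ∀ s ∈ Icc (-1 : ℝ) 0, _ := fun s hs =>
    scale_norms x₀ hr (FrC_ze hΩ (h.mem _ (htime s hs))).1 hφc
  set Φ : E3 → E3 := fun x => r ^ (-(3 / 2) : ℝ) • φ (r⁻¹ • (x - x₀)) with hΦ
  have hsqΦ : sq Φ = sq φ := (hsn 0 ⟨by norm_num, le_rfl⟩).2.2.2.1
  have hgsqΦ : gsq Φ = r⁻¹ ^ 2 * gsq φ := (hsn 0 ⟨by norm_num, le_rfl⟩).2.2.2.2.1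
  -- the pairing
  have hip : ∀ s ∈ Icc (-1 : ℝ) 0, ip (sv Ω u t₀ r x₀ s) φ =
      ∫ x in Ω, inner ℝ (u (t₀ + κ * s) x) (Φ x) := by
    intro s hs
    rw [← G2c_ip hT (FrC_ze hΩ (h.mem _ (htime s hs))).2]
    exact (hsn s hs).2.1
  have hnl : ∀ s ∈ Icc (-1 : ℝ) 0, nl φ (sv Ω u t₀ r x₀ s) =
      κ * Bf Ω (u (t₀ + κ * s)) (pd Φ) (u (t₀ + κ * s)) := by
    intro s hs
    rw [← G2c_nl hT (FrC_ze hΩ (h.mem _ (htime s hs))).2]
    exact (hsn s hs).2.2.1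
  -- integrability
  have hA : ∀ i, MemLp (pd Φ i) 2 (volume.restrict Ω) := fun i => hT.pd_memLp i _ 2
  have igp0 := gp_time h hA
  have ipair0 := pair_time h (hT.memLp _ 2)
  have iBf0 : IntegrableOn (fun τ => Bf Ω (u τ) (pd Φ) (u τ)) (Icc 0 T) := by
    have h0 : MemLp (fun _ : E3 => (0 : E3)) 6 (volume.restrict Ω) := MemLp.zero
    have := Bf_time hΩ hbd h h0 hA
    simpa using this
  set N : ℝ → ℝ := fun t => ν * gp Ω (G t) (pd Φ) - ∫ x in Ω, inner ℝ (f t x) (Φ x) with hN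
  set B : ℝ → ℝ := fun t => Bf Ω (u t) (pd Φ) (u t) with hB
  have iN0 : IntegrableOn N (Icc 0 T) := (igp0.const_mul ν).sub ipair0
  set R : ℝ → ℝ := fun τ => κ * (B (t₀ + κ * τ) - N (t₀ + κ * τ)) with hR
  have iB : IntervalIntegrable (fun τ => B (t₀ + κ * τ)) volume (-1) 0 :=
    FrC_ii iBf0 hκ0 hrt ht₀.2
  have iN : IntervalIntegrable (fun τ => N (t₀ + κ * τ)) volume (-1) 0 :=
    FrC_ii iN0 hκ0 hrt ht₀.2
  have iR : IntervalIntegrable R volume (-1) 0 := (iB.sub iN).const_mul κ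
  -- the equation
  have hb : ∀ s ∈ Icc (-1 : ℝ) 0, ip (sv Ω u t₀ r x₀ s) φ =
      ip (sv Ω u t₀ r x₀ 0) φ - ∫ τ in s..0, R τ := by
    intro s hs
    rw [hip s hs, hip 0 ⟨by norm_num, le_rfl⟩]
    have e1 := h.eqn Φ hT (t₀ + κ * s) (t₀ + κ * 0) (htime s hs).1
      (by nlinarith [hs.2]) (by linarith [ht₀.2])
    have e2 : ∫ τ in (t₀ + κ * s)..(t₀ + κ * 0),
        Pool.Agent.Helper52.NSE.rhs Ω ν (f τ) (u τ) (G τ) Φ =
        ∫ τ in (t₀ + κ * s)..(t₀ + κ * 0), (B τ - N τ) := by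
      apply intervalIntegral.integral_congr
      intro τ _
      simp only [hB, hN]
      unfold Pool.Agent.Helper52.NSE.rhs gp Bf
      ring
    rw [e2, ← G4b_cov_time (fun τ => B τ - N τ) t₀ hr s 0] at e1
    have e3 : ∫ τ in s..0, R τ = ∫ τ in s..0, r ^ (5 / 2 : ℝ) *
        (fun τ => B τ - N τ) (t₀ + r ^ (5 / 2 : ℝ) * τ) := rfl
    rw [e3]
    linarith
  have hibp := FrC_ibp hθ iR (b := fun s => ip (sv Ω u t₀ r x₀ s) φ) hb
  -- the left-hand side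
  have hle : (-1 : ℝ) ≤ 0 := by norm_num
  have hθc : Continuous θ := hθ.smooth.continuous
  have hθd : Continuous (deriv θ) := (hθ.smooth.of_le (m := 1)
    (by exact_mod_cast le_top)).continuous_deriv le_rfl
  have inl : IntervalIntegrable (fun s => θ s * (κ * B (t₀ + κ * s))) volume (-1) 0 :=
    (iB.const_mul κ).continuousOn_mul hθc.continuousOn
  have iib : IntervalIntegrable (fun s => deriv θ s * ip (sv Ω u t₀ r x₀ s) φ) volume (-1) 0 := by
    have hc : ContinuousOn (fun s => ip (sv Ω u t₀ r x₀ s) φ) (Icc (-1 : ℝ) 0) := by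
      have hw := h.weak_cont Φ (hT.memLp _ 2)
      have hcomp : ContinuousOn (fun s : ℝ => ∫ x in Ω, inner ℝ (u (t₀ + κ * s) x) (Φ x))
          (Icc (-1 : ℝ) 0) :=
        hw.comp (by fun_prop) htime
      exact hcomp.congr hip
    apply ContinuousOn.intervalIntegrable
    rw [uIcc_of_le hle]
    exact hθd.continuousOn.mul hc
  have hL : ∫ s in Ioo (-1 : ℝ) 0, (deriv θ s * ip (sv Ω u t₀ r x₀ s) φ +
      θ s * nl φ (sv Ω u t₀ r x₀ s)) =
      (∫ s in (-1 : ℝ)..0, deriv θ s * ip (sv Ω u t₀ r x₀ s) φ) +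
        ∫ s in (-1 : ℝ)..0, θ s * (κ * B (t₀ + κ * s)) := by
    rw [← intervalIntegral.integral_add iib inl, ← integral_Ioc_eq_integral_Ioo,
      ← intervalIntegral.integral_of_le hle]
    apply intervalIntegral.integral_congr
    intro s hs
    rw [uIcc_of_le hle] at hs
    simp only
    rw [hnl s hs]
  have hmain : (∫ s in Ioo (-1 : ℝ) 0, (deriv θ s * ip (sv Ω u t₀ r x₀ s) φ +
      θ s * nl φ (sv Ω u t₀ r x₀ s))) - θ 0 * ip (sv Ω u t₀ r x₀ 0) φ =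
      ∫ t in (t₀ - κ)..t₀, θ (κ⁻¹ * (t - t₀)) * N t := by
    have iθR : IntervalIntegrable (fun s => θ s * R s) volume (-1) 0 :=
      iR.continuousOn_mul hθc.continuousOn
    have e4 := G4b_cov_time (fun t => θ (κ⁻¹ * (t - t₀)) * N t) t₀ hr (-1) 0
    have e5 : t₀ + r ^ (5 / 2 : ℝ) * (-1) = t₀ - κ := by rw [hκ]; ring
    rw [e5, mul_zero, add_zero] at e4
    rw [hL, hibp, ← e4]
    have e6 : θ 0 * ip (sv Ω u t₀ r x₀ 0) φ - (∫ s in (-1 : ℝ)..0, θ s * R s) +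
        (∫ s in (-1 : ℝ)..0, θ s * (κ * B (t₀ + κ * s))) - θ 0 * ip (sv Ω u t₀ r x₀ 0) φ =
        (∫ s in (-1 : ℝ)..0, θ s * (κ * B (t₀ + κ * s))) - ∫ s in (-1 : ℝ)..0, θ s * R s := by ring
    rw [e6, ← intervalIntegral.integral_sub inl iθR]
    apply intervalIntegral.integral_congr
    intro s _
    simp only
    have e7 : κ⁻¹ * (t₀ + r ^ (5 / 2 : ℝ) * s - t₀) = s := by
      rw [← hκ]; field_simp; ring
    rw [e7, hR]
    simp only
    rw [← hκ]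
    ring
  rw [hmain]
  -- the bound
  have ht0' : 0 ≤ t₀ - κ := by linarith
  have htt : t₀ - κ < t₀ := by linarith
  have hg0 : ∀ t, 0 ≤ gradSq Ω (G t) := fun t => Pool.Agent.Helper52.NSE.gsq_nonneg Ω (G t)
  have isq := sqrt_int h.grad_int hg0
  have isq' : IntervalIntegrable (fun τ => Real.sqrt (gradSq Ω (G τ))) volume (t₀ - κ) t₀ :=
    ii_of isq ht0' htt.le ht₀.2
  have ifn : IntervalIntegrable (fun τ => fn Ω f τ) volume (t₀ - κ) t₀ :=
    ii_of h.nmf_int ht0' htt.le ht₀.2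
  have hbound : |∫ t in (t₀ - κ)..t₀, θ (κ⁻¹ * (t - t₀)) * N t| ≤
      ∫ t in (t₀ - κ)..t₀, (M * (ν * Real.sqrt (gsq Φ)) * Real.sqrt (gradSq Ω (G t)) +
        M * Real.sqrt (sq Φ) * fn Ω f t) := by
    rw [← Real.norm_eq_abs]
    refine intervalIntegral.norm_integral_le_of_norm_le htt.le ?_
      ((isq'.const_mul _).add (ifn.const_mul _))
    have k1 := (ae_restrict_iff' measurableSet_Icc).mp h.force_mem
    have k2 := (ae_restrict_iff' measurableSet_Icc).mp h.grad_mem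
    filter_upwards [k1, k2] with t hf hG ht
    have htI : t ∈ Icc 0 T := ⟨ht0'.trans ht.1.le, ht.2.trans ht₀.2⟩
    rw [norm_mul, Real.norm_eq_abs, Real.norm_eq_abs]
    have a1 : |N t| ≤ ν * (Real.sqrt (gradSq Ω (G t)) * Real.sqrt (gsq Φ)) +
        fn Ω f t * Real.sqrt (sq Φ) := by
      have b1 : |gp Ω (G t) (pd Φ)| ≤ Real.sqrt (gradSq Ω (G t)) * Real.sqrt (gsq Φ) := by
        have := gp_le (hG htI).grad_memLp hA
        rw [G2c_gsq hT] at this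
        exact this
      have b2 : |∫ x in Ω, inner ℝ (f t x) (Φ x)| ≤ fn Ω f t * Real.sqrt (sq Φ) := by
        have := Pool.Agent.Helper52.NSE.cs (hf htI).memLp (hT.memLp (volume.restrict Ω) 2)
        rw [G2c_nm hT] at this
        exact this
      refine (abs_sub _ _).trans ?_
      rw [abs_mul, abs_of_pos hν]
      exact add_le_add (mul_le_mul_of_nonneg_left b1 hν.le) b2
    have a2 : 0 ≤ ν * (Real.sqrt (gradSq Ω (G t)) * Real.sqrt (gsq Φ)) +
        fn Ω f t * Real.sqrt (sq Φ) := (abs_nonneg _).trans a1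
    refine (mul_le_mul (hM _) a1 (abs_nonneg _) hM0).trans (le_of_eq ?_)
    ring
  refine hbound.trans ?_
  rw [intervalIntegral.integral_add (isq'.const_mul _) (ifn.const_mul _),
    intervalIntegral.integral_const_mul, intervalIntegral.integral_const_mul, hsqΦ]
  have hcs := sqrt_cs (g := fun τ => gradSq Ω (G τ)) h.grad_int hg0 ht0' htt ht₀.2
  have e8 : t₀ - (t₀ - κ) = κ := by ring
  rw [e8] at hcs
  have e9 : Real.sqrt (gsq Φ) = r⁻¹ * Real.sqrt (gsq φ) := by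
    rw [hgsqΦ, Real.sqrt_mul (by positivity), Real.sqrt_sq (by positivity)]
  have e10 : ν * Real.sqrt (gsq Φ) * ∫ t in (t₀ - κ)..t₀, Real.sqrt (gradSq Ω (G t)) ≤
      ν * r ^ (1 / 2 : ℝ) * Real.sqrt (gsq φ) *
        Real.sqrt (∫ s in Ioo (-1 : ℝ) 0, gs (sA Ω G t₀ r x₀ s)) := by
    have h11 : 0 ≤ ν * Real.sqrt (gsq Φ) := mul_nonneg hν.le (Real.sqrt_nonneg _)
    refine (mul_le_mul_of_nonneg_left hcs h11).trans (le_of_eq ?_)
    rw [hgs, FrC_rpow2 hr (I := ∫ τ in (t₀ - κ)..t₀, gradSq Ω (G τ)), e9, ← FrC_rpow1 hr]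
    ring
  have h12 := mul_le_mul_of_nonneg_left e10 hM0
  calc M * (ν * Real.sqrt (gsq Φ)) * (∫ t in (t₀ - κ)..t₀, Real.sqrt (gradSq Ω (G t))) +
        M * Real.sqrt (sq φ) * ∫ t in (t₀ - κ)..t₀, fn Ω f t
      = M * (ν * Real.sqrt (gsq Φ) * (∫ t in (t₀ - κ)..t₀, Real.sqrt (gradSq Ω (G t)))) +
        M * (Real.sqrt (sq φ) * ∫ t in (t₀ - κ)..t₀, fn Ω f t) := by ring
    _ ≤ _ := by
      rw [mul_add]
      exact add_le_add h12 le_rfl

end Pool.Agent.Helper83.CR
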