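import Pool.Agent.Helper83.CR.St

/-!
# Project CR, module FrT: the time estimate in its final form
-/

set_option autoImplicit false

open MeasureTheory Set Filter Topology
open scoped ENNReal ContDiff

noncomputable section

namespace Pool.Agent.Helper83.CR

open Pool.Agent.Helper52.NSE (E3 pd divg TestField MemH1s MemL2s IsWeakSolution gradSq kin
  IsSmoothBoundedDomain)
open Pool.Agent.Helper60.EC (D Cc curl grad cr ip sq nl adv sm gsq fn Hs)

/-- Hölder's inequality for powers with exponent less than one -/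
theorem FrT_h {g : ℝ → ℝ} (hg : ∀ s, 0 ≤ g s) {μ : Measure ℝ} [IsFiniteMeasure μ]
    (hi : Integrable g μ) {a : ℝ} (ha : 0 < a) (ha1 : a < 1) :
    Integrable (fun τ => g τ ^ a) μ ∧
      ∫ τ, g τ ^ a ∂μ ≤ (∫ τ, g τ ∂μ) ^ a * (μ.real univ) ^ (1 - a) := by
  have hmeas : AEStronglyMeasurable (fun τ => g τ ^ a) μ :=
    (hi.1.aemeasurable.pow_const a).aestronglyMeasurable
  have h1 : Integrable (fun τ => g τ ^ a) μ := by
    refine ((integrable_const (1 : ℝ)).add hi).mono' hmeas (ae_of_all _ fun τ => ?_)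
    rw [Real.norm_of_nonneg (Real.rpow_nonneg (hg τ) a)]
    show g τ ^ a ≤ 1 + g τ
    rcases le_total (g τ) 1 with h | h
    · exact (Real.rpow_le_one (hg τ) h ha.le).trans (by linarith [hg τ])
    · have := Real.rpow_le_rpow_of_exponent_le h ha1.le
      rw [Real.rpow_one] at this
      linarith
  refine ⟨h1, ?_⟩
  have hpq : (1 / a).HolderConjugate (1 / (1 - a)) := by
    rw [Real.holderConjugate_iff]
    refine ⟨?_, ?_⟩
    · rw [lt_div_iff₀ ha]
      linarith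
    · rw [one_div, one_div, inv_inv, inv_inv]
      ring
  have mf : MemLp (fun τ => g τ ^ a) (ENNReal.ofReal (1 / a)) μ := by
    have h2 : MemLp g 1 μ := memLp_one_iff_integrable.2 hi
    have h3 := h2.norm_rpow_div (ENNReal.ofReal a)
    rw [ENNReal.toReal_ofReal ha.le] at h3
    have h4 : (1 : ℝ≥0∞) / ENNReal.ofReal a = ENNReal.ofReal (1 / a) := by
      rw [ENNReal.ofReal_div_of_pos ha, ENNReal.ofReal_one]
    rw [h4] at h3
    refine h3.congr_norm hmeas (ae_of_all _ fun τ => ?_)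
    simp only [Real.norm_eq_abs]
    rw [abs_of_nonneg (hg τ)]
  have mg : MemLp (fun _ : ℝ => (1 : ℝ)) (ENNReal.ofReal (1 / (1 - a))) μ := memLp_const 1
  have h5 := integral_mul_le_Lp_mul_Lq_of_nonneg (μ := μ) hpq
    (f := fun τ => g τ ^ a) (g := fun _ => (1 : ℝ))
    (ae_of_all _ fun τ => Real.rpow_nonneg (hg τ) a) (ae_of_all _ fun _ => zero_le_one) mf mg
  have h6 : ∀ τ, (g τ ^ a) ^ (1 / a) = g τ := fun τ => by
    rw [← Real.rpow_mul (hg τ), mul_one_div_cancel ha.ne', Real.rpow_one]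
  simp_rw [h6, mul_one, Real.one_rpow, one_div, inv_inv] at h5
  rw [integral_const, smul_eq_mul, mul_one] at h5
  exact h5

theorem hFrT (h : StLady) : StFrT := by
  obtain ⟨C, hC, hL⟩ := h
  refine ⟨C, hC, ?_⟩
  intro O K n F v B M hFr hK hn hF hM hint
  have g0 : ∀ s, 0 ≤ gs (B s) := fun s =>
    integral_nonneg fun x => Finset.sum_nonneg fun i _ => by positivity
  have hI : ∀ᵐ s ∂mI, s ∈ Ioo (-1 : ℝ) 0 := ae_restrict_mem measurableSet_Ioo
  have hgi := hFr.gint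
  have hq : ∀ᵐ τ ∂mI, q4 (v τ) ≤ C * K ^ (1 / 4 : ℝ) * gs (B τ) ^ (3 / 4 : ℝ) := by
    filter_upwards [hFr.h1, hI] with τ h1 h2
    refine (hL _ _ h1).2.trans ?_
    have h3 : sq (v τ) ≤ K := (hFr.energy τ ⟨h2.1.le, h2.2.le⟩).2
    have h4 : 0 ≤ sq (v τ) := integral_nonneg fun x => by positivity
    have h5 : sq (v τ) ^ (1 / 4 : ℝ) ≤ K ^ (1 / 4 : ℝ) := Real.rpow_le_rpow h4 h3 (by norm_num)
    exact mul_le_mul_of_nonneg_right (mul_le_mul_of_nonneg_left h5 hC.le)
      (Real.rpow_nonneg (g0 τ) _)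
  filter_upwards [hFr.time, hI] with s hs hs1
  filter_upwards [hs, hI] with t ht ht1
  intro hst
  refine (ht hst).trans ?_
  have hsub : Ioc s t ⊆ Ioo (-1 : ℝ) 0 := fun τ hτ => ⟨hs1.1.trans hτ.1, hτ.2.trans_lt ht1.2⟩
  have hle : volume.restrict (Ioc s t) ≤ mI := Measure.restrict_mono hsub le_rfl
  have hgi2 : Integrable (fun τ => gs (B τ)) (volume.restrict (Ioc s t)) := hgi.mono_measure hle
  have hvol : (volume.restrict (Ioc s t)).real univ = t - s := by
    rw [measureReal_restrict_apply_univ, Real.volume_real_Ioc_of_le hst.le]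
  have hGM : ∫ τ in Ioc s t, gs (B τ) ≤ M := by
    refine le_trans ?_ hint
    exact integral_mono_measure hle (ae_of_all _ fun τ => g0 τ) hgi
  have hG0 : 0 ≤ ∫ τ in Ioc s t, gs (B τ) := integral_nonneg fun τ => g0 τ
  have hts : 0 < t - s := sub_pos.2 hst
  have hts1 : t - s ≤ 1 := by linarith [hs1.1, ht1.2]
  -- the square root
  have a1 : ∫ τ in s..t, Real.sqrt (gs (B τ)) ≤ Real.sqrt M := by
    rw [intervalIntegral.integral_of_le hst.le]
    have h1 := (FrT_h g0 hgi2 (a := 1 / 2) (by norm_num) (by norm_num)).2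
    have h2 : ∀ τ, gs (B τ) ^ (1 / 2 : ℝ) = Real.sqrt (gs (B τ)) := fun τ =>
      (Real.sqrt_eq_rpow _).symm
    simp_rw [h2] at h1
    rw [hvol] at h1
    refine h1.trans ?_
    rw [← Real.sqrt_eq_rpow]
    have h3 : (t - s) ^ (1 - 1 / 2 : ℝ) ≤ 1 := Real.rpow_le_one hts.le hts1 (by norm_num)
    have h4 : 0 ≤ (t - s) ^ (1 - 1 / 2 : ℝ) := Real.rpow_nonneg hts.le _
    calc Real.sqrt (∫ τ in Ioc s t, gs (B τ)) * (t - s) ^ (1 - 1 / 2 : ℝ)
        ≤ Real.sqrt M * 1 := mul_le_mul (Real.sqrt_le_sqrt hGM) h3 h4 (Real.sqrt_nonneg _)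
      _ = Real.sqrt M := mul_one _
  -- the `L⁴` norm
  have a2 : ∫ τ in s..t, q4 (v τ) ≤
      C * K ^ (1 / 4 : ℝ) * M ^ (3 / 4 : ℝ) * (t - s) ^ (1 / 4 : ℝ) := by
    rw [intervalIntegral.integral_of_le hst.le]
    obtain ⟨h1, h2⟩ := FrT_h g0 hgi2 (a := 3 / 4) (by norm_num) (by norm_num)
    have h3 : ∫ τ in Ioc s t, q4 (v τ) ≤
        ∫ τ in Ioc s t, C * K ^ (1 / 4 : ℝ) * gs (B τ) ^ (3 / 4 : ℝ) :=
      integral_mono_of_nonneg (ae_of_all _ fun τ => Real.sqrt_nonneg _) (h1.const_mul _)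
        ((Measure.absolutelyContinuous_of_le hle).ae_le hq)
    refine h3.trans ?_
    rw [integral_const_mul, mul_assoc (C * K ^ (1 / 4 : ℝ))]
    refine mul_le_mul_of_nonneg_left ?_ (by positivity)
    rw [hvol] at h2
    refine h2.trans ?_
    have h4 : (1 - 3 / 4 : ℝ) = 1 / 4 := by norm_num
    rw [h4]
    exact mul_le_mul_of_nonneg_right (Real.rpow_le_rpow hG0 hGM (by norm_num)) (by positivity)
  have b1 : 0 ≤ Real.sqrt (gs (B s)) + Real.sqrt (gs (B t)) := by positivity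
  set g := Real.sqrt (gs (B s)) + Real.sqrt (gs (B t)) with hg
  set W := C * K ^ (1 / 4 : ℝ) * M ^ (3 / 4 : ℝ) with hW
  have bW : 0 ≤ W := by positivity
  set Z := (t - s) ^ (1 / 4 : ℝ) with hZ
  have bZ : 0 ≤ Z := by positivity
  have bX : 0 ≤ n * Real.sqrt M := by positivity
  have bY : 0 ≤ 2 * Real.sqrt K * F := by positivity
  have c1 : g * (n * (∫ τ in s..t, Real.sqrt (gs (B τ))) + ∫ τ in s..t, q4 (v τ)) ≤
      g * (n * Real.sqrt M + W * Z) :=
    mul_le_mul_of_nonneg_left (add_le_add (mul_le_mul_of_nonneg_left a1 hn) a2) b1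
  have c2 : 1 + Real.sqrt (gs (B s)) + Real.sqrt (gs (B t)) = 1 + g := by rw [hg]; ring
  rw [c2]
  refine (add_le_add c1 le_rfl).trans ?_
  have d1 : 0 ≤ W * Z := mul_nonneg bW bZ
  have d2 := mul_nonneg b1 bX
  have d3 := mul_nonneg b1 bY
  have d4 := mul_nonneg b1 bZ
  have d5 := mul_nonneg bW bX
  have d6 := mul_nonneg bW bY
  have d7 := mul_nonneg bW d2
  have d8 := mul_nonneg bW d3
  nlinarith

end Pool.Agent.Helper83.CR
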