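import Pool.Agent.Helper83.CR.St

/-! Project CR: module Fu -/

set_option autoImplicit false

open MeasureTheory Set Filter Topology
open scoped ENNReal ContDiff

noncomputable section

namespace Pool.Agent.Helper83.CR

open Pool.Agent.Helper52.NSE (E3 pd divg TestField MemH1s MemL2s IsWeakSolution gradSq kin
  IsSmoothBoundedDomain)
open Pool.Agent.Helper60.EC (D Cc curl grad cr ip sq nl adv sm gsq fn Hs)

theorem hFu : StFu := by
  intro v A h
  have h1 : Integrable (fun q : ℝ × E3 => ‖v q.1 q.2‖ ^ 2) (mI.prod volume) :=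
    (memLp_two_iff_integrable_sq_norm h.int.1).1 h.int
  have h2 : Integrable (fun q : ℝ × E3 => ∑ i, ‖A q.1 i q.2‖ ^ 2) (mI.prod volume) :=
    integrable_finsetSum _ fun i _ => (memLp_two_iff_integrable_sq_norm (h.gint i).1).1 (h.gint i)
  refine ⟨h1.integral_prod_left, h2.integral_prod_left, ?_, ?_⟩
  · exact (integral_prod _ h1).symm
  · exact (integral_prod _ h2).symm

end Pool.Agent.Helper83.CR
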