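import Pool.Agent.Helper83.CR.St
import Pool.Agent.Helper60.EC.Calc1
import Pool.Agent.Helper60.EC.Calc2
import Pool.Agent.Helper60.EC.Calc3

/-!
# Project CR, module Ha: no boundary term in the half-space
-/

set_option autoImplicit false

open MeasureTheory Set Filter Topology
open scoped ENNReal ContDiff

noncomputable section

namespace Pool.Agent.Helper83.CR

open Pool.Agent.Helper52.NSE (E3 pd divg TestField MemH1s MemL2s IsWeakSolution gradSq kin
  IsSmoothBoundedDomain)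
open Pool.Agent.Helper60.EC (D Cc curl grad cr ip sq nl adv sm gsq fn Hs)
open Pool.Agent.Helper60

/-- the derivative of the smooth transition is bounded -/
theorem Ha_st : ∃ S : ℝ, 0 ≤ S ∧ ∀ x, |deriv Real.smoothTransition x| ≤ S := by
  have hc : ContDiff ℝ ∞ Real.smoothTransition := Real.smoothTransition.contDiff
  have hd : Continuous (deriv Real.smoothTransition) := hc.continuous_deriv (by simp)
  obtain ⟨S, hS⟩ := (isCompact_Icc (a := (0 : ℝ)) (b := 1)).exists_bound_of_continuousOn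
    hd.continuousOn
  have hS0 : 0 ≤ S := (norm_nonneg _).trans (hS 0 ⟨le_refl _, zero_le_one⟩)
  refine ⟨S, hS0, fun x => ?_⟩
  by_cases h0 : x < 0
  · have : deriv Real.smoothTransition x = 0 := by
      have h1 : Real.smoothTransition =ᶠ[𝓝 x] fun _ => 0 := by
        filter_upwards [Iio_mem_nhds h0] with y hy
        exact Real.smoothTransition.zero_of_nonpos (le_of_lt hy)
      rw [h1.deriv_eq, deriv_const]
    rw [this, abs_zero]
    exact hS0
  · by_cases h1 : 1 < x
    · have : deriv Real.smoothTransition x = 0 := by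
        have h2 : Real.smoothTransition =ᶠ[𝓝 x] fun _ => 1 := by
          filter_upwards [Ioi_mem_nhds h1] with y hy
          exact Real.smoothTransition.one_of_one_le (le_of_lt hy)
        rw [h2.deriv_eq, deriv_const]
      rw [this, abs_zero]
      exact hS0
    · exact hS x ⟨not_lt.1 h0, not_lt.1 h1⟩

/-- the cutoff function at distance `h` from the hyperplane -/
def Ha_z (n : E3) (d h : ℝ) (y : E3) : ℝ :=
  Real.smoothTransition ((d - inner ℝ n y) / h - 1)

theorem Ha_z_smooth (n : E3) (d h : ℝ) : ContDiff ℝ ∞ (Ha_z n d h) := by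
  unfold Ha_z
  exact Real.smoothTransition.contDiff.comp
    (((contDiff_const.sub (contDiff_const.inner ℝ contDiff_id)).div_const h).sub contDiff_const)

theorem Ha_z_nn (n : E3) (d h : ℝ) (y : E3) : 0 ≤ Ha_z n d h y :=
  Real.smoothTransition.nonneg _

theorem Ha_z_le (n : E3) (d h : ℝ) (y : E3) : Ha_z n d h y ≤ 1 :=
  Real.smoothTransition.le_one _

theorem Ha_z_zero {n : E3} {d h : ℝ} (hh : 0 < h) {y : E3} (hy : d - h ≤ inner ℝ n y) :
    Ha_z n d h y = 0 := by
  refine Real.smoothTransition.zero_of_nonpos ?_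
  have : (d - inner ℝ n y) / h ≤ 1 := by
    rw [div_le_one hh]
    linarith
  linarith

theorem Ha_z_one {n : E3} {d h : ℝ} (hh : 0 < h) {y : E3} (hy : (inner ℝ n y : ℝ) ≤ d - 2 * h) :
    Ha_z n d h y = 1 := by
  refine Real.smoothTransition.one_of_one_le ?_
  have : 2 ≤ (d - inner ℝ n y) / h := by
    rw [le_div_iff₀ hh]
    linarith
  linarith

theorem Ha_z_fderiv (n : E3) (d h : ℝ) (y z : E3) : fderiv ℝ (Ha_z n d h) y z =
    deriv Real.smoothTransition ((d - inner ℝ n y) / h - 1) * (-(inner ℝ n z) / h) := by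
  have hc : ContDiff ℝ ∞ Real.smoothTransition := Real.smoothTransition.contDiff
  have h1 : HasDerivAt Real.smoothTransition
      (deriv Real.smoothTransition ((d - inner ℝ n y) / h - 1)) ((d - inner ℝ n y) / h - 1) :=
    (hc.differentiable (by simp) _).hasDerivAt
  have h2 : HasFDerivAt (fun y : E3 => (d - inner ℝ n y) / h - 1)
      ((h⁻¹ : ℝ) • (-(innerSL ℝ n))) y := by
    have h3 : HasFDerivAt (fun y : E3 => (inner ℝ n y : ℝ)) (innerSL ℝ n) y :=
      (innerSL ℝ n).hasFDerivAt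
    have h4 := ((h3.const_sub d).const_mul h⁻¹).sub_const 1
    refine h4.congr_of_eventuallyEq (Eventually.of_forall fun w => ?_)
    simp only [div_eq_inv_mul]
  have h5 := h1.comp_hasFDerivAt y h2
  have h6 : HasFDerivAt (Ha_z n d h) (deriv Real.smoothTransition ((d - inner ℝ n y) / h - 1) •
      ((h⁻¹ : ℝ) • (-(innerSL ℝ n)))) y := h5
  rw [h6.fderiv]
  simp only [ContinuousLinearMap.smul_apply, ContinuousLinearMap.neg_apply, innerSL_apply_apply,
    smul_eq_mul]
  ring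

theorem Ha_z_grad (n : E3) (d h : ℝ) (y : E3) : grad (Ha_z n d h) y =
    (-(deriv Real.smoothTransition ((d - inner ℝ n y) / h - 1)) / h) • n := by
  refine ext_inner_right ℝ fun z => ?_
  rw [EC.inner_grad, Ha_z_fderiv, real_inner_smul_left]
  ring

theorem Ha_z_grad_le {n : E3} (hn : ‖n‖ = 1) (d : ℝ) {h S : ℝ} (hh : 0 < h)
    (hS : ∀ x, |deriv Real.smoothTransition x| ≤ S) (y : E3) :
    ‖grad (Ha_z n d h) y‖ ≤ S / h := by
  rw [Ha_z_grad, norm_smul, hn, mul_one, Real.norm_eq_abs, abs_div, abs_neg, abs_of_pos hh]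
  exact div_le_div_of_nonneg_right (hS _) hh.le

theorem Ha_z_grad_zero {n : E3} {d h : ℝ} (hh : 0 < h) {y : E3}
    (hy : (inner ℝ n y : ℝ) ≤ d - 3 * h) : grad (Ha_z n d h) y = 0 := by
  rw [Ha_z_grad]
  have h1 : 1 < (d - inner ℝ n y) / h - 1 := by
    have : 3 ≤ (d - inner ℝ n y) / h := by
      rw [le_div_iff₀ hh]
      linarith
    linarith
  have h2 : deriv Real.smoothTransition ((d - inner ℝ n y) / h - 1) = 0 := by
    have h3 : Real.smoothTransition =ᶠ[𝓝 ((d - inner ℝ n y) / h - 1)] fun _ => 1 := by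
      filter_upwards [Ioi_mem_nhds h1] with y hy
      exact Real.smoothTransition.one_of_one_le (le_of_lt hy)
    rw [h3.deriv_eq, deriv_const]
  rw [h2, neg_zero, zero_div, zero_smul]

/-- the widths -/
def Ha_h (m : ℕ) : ℝ := 1 / ((m : ℝ) + 1)

theorem Ha_h_pos (m : ℕ) : 0 < Ha_h m := by unfold Ha_h; positivity

theorem Ha_h_le (m : ℕ) : Ha_h m ≤ 1 := by
  unfold Ha_h
  rw [div_le_one (by positivity)]
  have : (0 : ℝ) ≤ m := m.cast_nonneg
  linarith

theorem Ha_h_tendsto : Tendsto Ha_h atTop (𝓝 0) := tendsto_one_div_add_atTop_nhds_zero_nat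

/-- the test fields -/
def Ha_C (n : E3) (d : ℝ) (φ : E3 → E3) (m : ℕ) : E3 → E3 := curl (sm (Ha_z n d (Ha_h m)) φ)

theorem Ha_cc (n : E3) (d : ℝ) {φ : E3 → E3} (hφ : Cc φ) (m : ℕ) :
    Cc (sm (Ha_z n d (Ha_h m)) φ) := EC.cc_sm' (Ha_z_smooth _ _ _) hφ

theorem Ha_curl_tf {φ : E3 → E3} (hφ : Cc φ) : TestField univ (curl φ) where
  smooth := (EC.cc_curl hφ).smooth
  compact := (EC.cc_curl hφ).comp
  supp := subset_univ _
  div := EC.divg_curl (hφ.smooth.of_le (by norm_cast))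

theorem Ha_tf {n : E3} {d : ℝ} {φ : E3 → E3} (hφ : Cc φ) (m : ℕ) :
    TestField (Hs n d) (Ha_C n d φ m) where
  smooth := (EC.cc_curl (Ha_cc n d hφ m)).smooth
  compact := (EC.cc_curl (Ha_cc n d hφ m)).comp
  supp := by
    have hclosed : IsClosed {y : E3 | (inner ℝ n y : ℝ) ≤ d - Ha_h m} :=
      isClosed_le (continuous_const.inner continuous_id) continuous_const
    have h1 : tsupport (sm (Ha_z n d (Ha_h m)) φ) ⊆ {y : E3 | (inner ℝ n y : ℝ) ≤ d - Ha_h m} := by
      refine closure_minimal (fun y hy => ?_) hclosed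
      by_contra hc
      refine hy ?_
      have h2 : d - Ha_h m ≤ inner ℝ n y := (not_le.1 hc).le
      unfold sm
      rw [Ha_z_zero (Ha_h_pos m) h2, zero_smul]
    have h2 : tsupport (Ha_C n d φ m) ⊆ tsupport (sm (Ha_z n d (Ha_h m)) φ) := by
      refine closure_minimal (fun y hy => ?_) (isClosed_tsupport _)
      by_contra hc
      refine hy ?_
      have h3 := fun i => EC.Calc1b_D0 (u := sm (Ha_z n d (Ha_h m)) φ) hc i
      unfold Ha_C curl
      rw [h3 0, h3 1, h3 2]
      ext k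
      fin_cases k <;> simp
    refine (h2.trans h1).trans fun y hy => ?_
    have h3 : (inner ℝ n y : ℝ) ≤ d - Ha_h m := hy
    have h4 := Ha_h_pos m
    show (inner ℝ n y : ℝ) < d
    linarith
  div := EC.divg_curl ((Ha_cc n d hφ m).smooth.of_le (by norm_cast))

theorem Ha_C_eq (n : E3) (d : ℝ) {φ : E3 → E3} (hφ : Cc φ) (m : ℕ) (y : E3) :
    Ha_C n d φ m y = cr (grad (Ha_z n d (Ha_h m)) y) (φ y) + Ha_z n d (Ha_h m) y • curl φ y :=
  EC.curl_sm ((Ha_z_smooth n d (Ha_h m)).differentiable (by simp) y)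
    (hφ.smooth.differentiable (by simp) y)

theorem Ha_bdd {φ : E3 → E3} (hφ : Cc φ) : ∃ M : ℝ, 0 ≤ M ∧ ∀ y, ‖φ y‖ ≤ M := by
  obtain ⟨M, hM⟩ := hφ.comp.exists_bound_of_continuous hφ.smooth.continuous
  exact ⟨max M 0, le_max_right _ _, fun y => (hM y).trans (le_max_left _ _)⟩

theorem Ha_om_sq (A : Fin 3 → E3 → E3) (x : E3) : ‖om A x‖ ^ 2 ≤ 2 * ∑ i, ‖A i x‖ ^ 2 := by
  have h0 : om A x 0 = (A 1 x) 2 - (A 2 x) 1 := rfl
  have h1 : om A x 1 = (A 2 x) 0 - (A 0 x) 2 := rfl
  have h2 : om A x 2 = (A 0 x) 1 - (A 1 x) 0 := rfl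
  rw [Fin.sum_univ_three, EC.Calc3b_nsq, EC.Calc3b_nsq, EC.Calc3b_nsq, EC.Calc3b_nsq, h0, h1, h2]
  nlinarith [sq_nonneg ((A 1 x) 2 + (A 2 x) 1), sq_nonneg ((A 2 x) 0 + (A 0 x) 2),
    sq_nonneg ((A 0 x) 1 + (A 1 x) 0), sq_nonneg ((A 0 x) 0), sq_nonneg ((A 1 x) 1),
    sq_nonneg ((A 2 x) 2)]

theorem Ha_om_zero {A : Fin 3 → E3 → E3} {x : E3} (h : ∀ i, A i x = 0) : om A x = 0 := by
  unfold om
  rw [h 0, h 1, h 2]
  ext k
  fin_cases k <;> simp

theorem Ha_om_meas {A : Fin 3 → E3 → E3} (h : ∀ i, AEStronglyMeasurable (A i) volume) :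
    AEStronglyMeasurable (om A) volume := by
  have hc : ∀ i k : Fin 3, AEMeasurable (fun x => A i x k) volume := fun i k =>
    ((EuclideanSpace.proj (𝕜 := ℝ) k : E3 →L[ℝ] ℝ).continuous.comp_aestronglyMeasurable
      (h i)).aemeasurable
  refine AEMeasurable.aestronglyMeasurable ?_
  have h1 : Measurable (fun p : Fin 3 → ℝ => (WithLp.toLp 2 p : E3)) :=
    (WithLp.measurable_toLp 2 _)
  have h2 : AEMeasurable (fun x => (![(A 1 x) 2 - (A 2 x) 1, (A 2 x) 0 - (A 0 x) 2,
      (A 0 x) 1 - (A 1 x) 0] : Fin 3 → ℝ)) volume := by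
    refine aemeasurable_pi_lambda _ fun i => ?_
    fin_cases i
    · exact (hc 1 2).sub (hc 2 1)
    · exact (hc 2 0).sub (hc 0 2)
    · exact (hc 0 1).sub (hc 1 0)
  exact h1.comp_aemeasurable h2

/-- `∫ ‖om A‖² ≤ 2 gs A` -/
theorem Ha_gs_int {A : Fin 3 → E3 → E3} (h : ∀ i, MemLp (A i) 2 volume) :
    Integrable (fun x => ∑ i, ‖A i x‖ ^ 2) volume :=
  integrable_finset_sum _ fun i _ => EC.Calc2b_int (h i)

theorem Ha_om_memLp {A : Fin 3 → E3 → E3} (h : ∀ i, MemLp (A i) 2 volume) :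
    MemLp (om A) 2 volume := by
  have hm := Ha_om_meas fun i => (h i).1
  rw [memLp_two_iff_integrable_sq_norm hm]
  refine ((Ha_gs_int h).const_mul 2).mono' (hm.norm.pow 2) (Eventually.of_forall fun x => ?_)
  rw [Real.norm_of_nonneg (by positivity)]
  exact Ha_om_sq A x

theorem Ha_sq_om {A : Fin 3 → E3 → E3} (h : ∀ i, MemLp (A i) 2 volume) :
    sq (om A) ≤ 2 * gs A := by
  unfold EC.sq gs
  rw [← integral_const_mul]
  exact integral_mono (EC.Calc2b_int (Ha_om_memLp h)) ((Ha_gs_int h).const_mul 2)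
    fun x => Ha_om_sq A x

theorem Ha_gs_nn (A : Fin 3 → E3 → E3) : 0 ≤ gs A :=
  integral_nonneg fun x => Finset.sum_nonneg fun i _ => by positivity

theorem Ha_prod_int {f g : E3 → E3} (hf : MemLp f 2 volume) (hg : MemLp g 2 volume) :
    Integrable (fun x => ‖f x‖ * ‖g x‖) volume := hf.norm.integrable_mul hg.norm

theorem Ha_cr_meas {f g : E3 → E3} (hf : AEStronglyMeasurable f volume)
    (hg : AEStronglyMeasurable g volume) :
    AEStronglyMeasurable (fun x => cr (f x) (g x)) volume := by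
  have h : Continuous fun p : E3 × E3 => cr p.1 p.2 := by
    unfold cr
    refine (PiLp.continuous_toLp 2 _).comp (continuous_pi fun i => ?_)
    fin_cases i <;> simp <;> fun_prop
  exact h.comp_aestronglyMeasurable (hf.prodMk hg)

/-- the convergence of the linear term -/
theorem Ha_lin {n : E3} {d : ℝ} {φ : E3 → E3} (hφ : Cc φ) (u : E3 → E3)
    (hu : AEStronglyMeasurable u volume) (hui : Integrable (fun x => ‖u x‖ * ‖φ x‖) volume)
    (hu0 : ∀ᵐ y : E3, d ≤ inner ℝ n y → u y = 0) :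
    Tendsto (fun m => ip u (sm (Ha_z n d (Ha_h m)) φ)) atTop (𝓝 (ip u φ)) := by
  refine tendsto_integral_of_dominated_convergence (fun x => ‖u x‖ * ‖φ x‖) (fun m => ?_)
    hui (fun m => Eventually.of_forall fun x => ?_) ?_
  · exact hu.inner (Ha_cc n d hφ m).smooth.continuous.aestronglyMeasurable
  · refine (norm_inner_le_norm _ _).trans ?_
    refine mul_le_mul_of_nonneg_left ?_ (norm_nonneg _)
    unfold sm
    rw [norm_smul, Real.norm_eq_abs, abs_of_nonneg (Ha_z_nn _ _ _ _)]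
    exact mul_le_of_le_one_left (norm_nonneg _) (Ha_z_le _ _ _ _)
  · filter_upwards [hu0] with x hx
    by_cases hd : d ≤ inner ℝ n x
    · rw [hx hd]
      simp only [inner_zero_left]
      exact tendsto_const_nhds
    · have h1 : ∀ᶠ m in atTop, Ha_h m < (d - inner ℝ n x) / 2 :=
        Ha_h_tendsto.eventually_lt_const (by linarith [not_le.1 hd])
      refine tendsto_const_nhds.congr' ?_
      filter_upwards [h1] with m hm
      have h2 : Ha_z n d (Ha_h m) x = 1 := Ha_z_one (Ha_h_pos m) (by linarith)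
      unfold sm
      rw [h2, one_smul]

/-- the strips shrink -/
theorem Ha_strip {n : E3} {d : ℝ} {g : E3 → ℝ} (hg : Integrable g volume)
    (hz : ∀ᵐ y : E3, d ≤ inner ℝ n y → g y = 0) :
    Tendsto (fun m => ∫ y in {y : E3 | d - 3 * Ha_h m < inner ℝ n y}, g y) atTop (𝓝 0) := by
  have hms : ∀ m, MeasurableSet {y : E3 | d - 3 * Ha_h m < inner ℝ n y} := fun m =>
    (isOpen_lt continuous_const (continuous_const.inner continuous_id)).measurableSet
  have h0 : (𝓝 (0 : ℝ)) = 𝓝 (∫ _ : E3, (0 : ℝ)) := by rw [integral_zero]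
  rw [h0]
  have h1 : (fun m => ∫ y in {y : E3 | d - 3 * Ha_h m < inner ℝ n y}, g y) = fun m =>
      ∫ y, ({y : E3 | d - 3 * Ha_h m < inner ℝ n y}).indicator g y := by
    funext m
    rw [integral_indicator (hms m)]
  rw [h1]
  refine tendsto_integral_of_dominated_convergence (fun x => ‖g x‖) (fun m => ?_) hg.norm
    (fun m => Eventually.of_forall fun x => norm_indicator_le_norm_self _ _) ?_
  · exact hg.1.indicator (hms m)
  · filter_upwards [hz] with x hx
    by_cases hd : d ≤ inner ℝ n x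
    · refine tendsto_const_nhds.congr fun m => ?_
      by_cases hm : x ∈ {y : E3 | d - 3 * Ha_h m < inner ℝ n y}
      · rw [indicator_of_mem hm, hx hd]
      · rw [indicator_of_notMem hm]
    · have h1 : ∀ᶠ m in atTop, Ha_h m < (d - inner ℝ n x) / 3 :=
        Ha_h_tendsto.eventually_lt_const (by linarith [not_le.1 hd])
      refine tendsto_const_nhds.congr' ?_
      filter_upwards [h1] with m hm
      rw [indicator_of_notMem]
      intro hc
      have hc' : d - 3 * Ha_h m < inner ℝ n x := hc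
      linarith

/-- the trilinear term at one time -/
theorem Ha_nl (hStrip : StStrip) (hNl : StNl) {n : E3} {d : ℝ} (hn : ‖n‖ = 1) {w : E3 → E3}
    {A : Fin 3 → E3 → E3} (hH : H1 w A) (hdv : dv A =ᵐ[volume] 0)
    (hz : ∀ᵐ y : E3, d ≤ inner ℝ n y → w y = 0 ∧ ∀ i, A i y = 0) {φ : E3 → E3} (hφ : Cc φ)
    {S M : ℝ} (hS0 : 0 ≤ S) (hS : ∀ x, |deriv Real.smoothTransition x| ≤ S) (hM0 : 0 ≤ M)
    (hM1 : ∀ y, ‖φ y‖ ≤ M) (hM2 : ∀ y, ‖curl φ y‖ ≤ M) :
    (∀ m, |nl (Ha_C n d φ m) w| ≤ M * (6 * S + 1) * (gs A + sq w)) ∧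
      Tendsto (fun m => nl (Ha_C n d φ m) w) atTop (𝓝 (nl (curl φ) w)) := by
  have ho2 : MemLp (om A) 2 volume := Ha_om_memLp hH.gl2
  have hcc := EC.cc_curl hφ
  have how : Integrable (fun x => ‖om A x‖ * ‖w x‖) volume := Ha_prod_int ho2 hH.l2
  set q : E3 → E3 := fun x => cr (om A x) (w x) with hq
  have hqm : AEStronglyMeasurable q volume := Ha_cr_meas ho2.1 hH.l2.1
  have hqn : ∀ x, ‖q x‖ ≤ ‖om A x‖ * ‖w x‖ := fun x => EC.norm_cr_le _ _
  have hqi : Integrable q volume := how.mono' hqm (Eventually.of_forall hqn)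
  have hqc : Integrable (fun x => ‖q x‖ * ‖curl φ x‖) volume := by
    refine (hqi.norm.mul_const M).mono' (hqm.norm.mul hcc.smooth.continuous.norm.aestronglyMeasurable)
      (Eventually.of_forall fun x => ?_)
    rw [Real.norm_of_nonneg (by positivity)]
    exact mul_le_mul_of_nonneg_left (hM2 x) (norm_nonneg _)
  have hq0 : ∀ᵐ y : E3, d ≤ inner ℝ n y → q y = 0 := by
    filter_upwards [hz] with y hy hd
    have h1 := Ha_om_zero (hy hd).2
    have h2 : ‖q y‖ ≤ 0 := by
      refine (hqn y).trans ?_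
      rw [h1, norm_zero, zero_mul]
    exact norm_le_zero_iff.1 h2
  have hlim := Ha_lin (n := n) (d := d) hcc q hqm hqc hq0
  -- the boundary term
  set g : E3 → ℝ := fun x => ∑ i, ‖A i x‖ ^ 2 with hg
  have hgi : Integrable g volume := Ha_gs_int hH.gl2
  have hgnn : ∀ x, 0 ≤ g x := fun x => Finset.sum_nonneg fun i _ => by positivity
  set T : ℕ → Set E3 := fun m => {y : E3 | d - 3 * Ha_h m < inner ℝ n y} with hT
  have hTm : ∀ m, MeasurableSet (T m) := fun m =>
    (isOpen_lt continuous_const (continuous_const.inner continuous_id)).measurableSet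
  have hG0 : Tendsto (fun m => ∫ y in T m, g y) atTop (𝓝 0) := by
    refine Ha_strip hgi ?_
    filter_upwards [hz] with y hy hd
    exact Finset.sum_eq_zero fun i _ => by rw [(hy hd).2 i, norm_zero, zero_pow two_ne_zero]
  have hGle : ∀ m, ∫ y in T m, g y ≤ gs A := fun m =>
    setIntegral_le_integral hgi (Eventually.of_forall hgnn)
  set P : ℕ → ℝ := fun m => ∫ x, (inner ℝ (q x) (cr (grad (Ha_z n d (Ha_h m)) x) (φ x)) : ℝ)
    with hP
  have hgm : ∀ m, Continuous (grad (Ha_z n d (Ha_h m))) := fun m =>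
    (EC.grad_smooth (Ha_z_smooth n d (Ha_h m))).continuous
  have hbm : ∀ m, AEStronglyMeasurable
      (fun x => (inner ℝ (q x) (cr (grad (Ha_z n d (Ha_h m)) x) (φ x)) : ℝ)) volume := fun m =>
    hqm.inner (Ha_cr_meas (hgm m).aestronglyMeasurable hφ.smooth.continuous.aestronglyMeasurable)
  have hbb : ∀ m x, ‖(inner ℝ (q x) (cr (grad (Ha_z n d (Ha_h m)) x) (φ x)) : ℝ)‖ ≤
      (T m).indicator (fun x => S * M * (1 / 2 * ‖om A x‖ ^ 2 +
        1 / (2 * Ha_h m ^ 2) * ‖w x‖ ^ 2)) x := by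
    intro m x
    have hh := Ha_h_pos m
    by_cases hx : x ∈ T m
    · rw [indicator_of_mem hx]
      refine (norm_inner_le_norm _ _).trans ?_
      have h1 : ‖cr (grad (Ha_z n d (Ha_h m)) x) (φ x)‖ ≤ S / Ha_h m * M :=
        (EC.norm_cr_le _ _).trans (mul_le_mul (Ha_z_grad_le hn d hh hS x) (hM1 x) (norm_nonneg _)
          (by positivity))
      refine (mul_le_mul (hqn x) h1 (norm_nonneg _) (by positivity)).trans ?_
      have h2 : 1 / 2 * ‖om A x‖ ^ 2 + 1 / (2 * Ha_h m ^ 2) * ‖w x‖ ^ 2 -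
          ‖om A x‖ * ‖w x‖ / Ha_h m = 1 / 2 * (‖om A x‖ - ‖w x‖ / Ha_h m) ^ 2 := by
        field_simp
        ring
      have h3 : ‖om A x‖ * ‖w x‖ / Ha_h m ≤
          1 / 2 * ‖om A x‖ ^ 2 + 1 / (2 * Ha_h m ^ 2) * ‖w x‖ ^ 2 := by
        have : 0 ≤ 1 / 2 * (‖om A x‖ - ‖w x‖ / Ha_h m) ^ 2 := by positivity
        linarith
      calc ‖om A x‖ * ‖w x‖ * (S / Ha_h m * M) = S * M * (‖om A x‖ * ‖w x‖ / Ha_h m) := by ring
        _ ≤ _ := mul_le_mul_of_nonneg_left h3 (by positivity)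
    · rw [indicator_of_notMem hx, Ha_z_grad_zero hh (not_lt.1 hx)]
      have : cr 0 (φ x) = 0 := by
        have h1 := EC.norm_cr_le 0 (φ x)
        rw [norm_zero, zero_mul] at h1
        exact norm_le_zero_iff.1 h1
      rw [this, inner_zero_right, norm_zero]
  have hoi := EC.Calc2b_int ho2
  have hwi := EC.Calc2b_int hH.l2
  have hbi : ∀ m, Integrable ((T m).indicator (fun x => S * M * (1 / 2 * ‖om A x‖ ^ 2 +
        1 / (2 * Ha_h m ^ 2) * ‖w x‖ ^ 2))) volume := fun m =>
    (((hoi.const_mul _).add (hwi.const_mul _)).const_mul _).indicator (hTm m)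
  have hPi : ∀ m, Integrable
      (fun x => (inner ℝ (q x) (cr (grad (Ha_z n d (Ha_h m)) x) (φ x)) : ℝ)) volume := fun m =>
    (hbi m).mono' (hbm m) (Eventually.of_forall (hbb m))
  have hPle : ∀ m, |P m| ≤ 6 * (S * M) * ∫ y in T m, g y := by
    intro m
    have hh := Ha_h_pos m
    have h1 : |P m| ≤ ∫ x, (T m).indicator (fun x => S * M * (1 / 2 * ‖om A x‖ ^ 2 +
        1 / (2 * Ha_h m ^ 2) * ‖w x‖ ^ 2)) x :=
      norm_integral_le_of_norm_le (hbi m) (Eventually.of_forall (hbb m))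
    rw [integral_indicator (hTm m), integral_const_mul, integral_add
      (hoi.const_mul _).integrableOn (hwi.const_mul _).integrableOn, integral_const_mul,
      integral_const_mul] at h1
    have h2 : ∫ x in T m, ‖om A x‖ ^ 2 ≤ 2 * ∫ y in T m, g y := by
      rw [← integral_const_mul]
      exact integral_mono hoi.integrableOn (hgi.const_mul 2).integrableOn fun x => Ha_om_sq A x
    have h3 : ∫ x in T m, ‖w x‖ ^ 2 ≤ (3 * Ha_h m) ^ 2 * ∫ y in T m, g y :=
      hStrip n d hn w A hH hz (3 * Ha_h m) (by positivity)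
    have hG : 0 ≤ ∫ y in T m, g y := integral_nonneg hgnn
    refine h1.trans ?_
    have h4 : 1 / (2 * Ha_h m ^ 2) * (∫ x in T m, ‖w x‖ ^ 2) ≤ 9 / 2 * ∫ y in T m, g y := by
      calc 1 / (2 * Ha_h m ^ 2) * (∫ x in T m, ‖w x‖ ^ 2)
          ≤ 1 / (2 * Ha_h m ^ 2) * ((3 * Ha_h m) ^ 2 * ∫ y in T m, g y) :=
            mul_le_mul_of_nonneg_left h3 (by positivity)
        _ = 9 / 2 * ∫ y in T m, g y := by
            field_simp
            ring
    calc S * M * (1 / 2 * (∫ x in T m, ‖om A x‖ ^ 2) +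
          1 / (2 * Ha_h m ^ 2) * ∫ x in T m, ‖w x‖ ^ 2)
        ≤ S * M * (6 * ∫ y in T m, g y) := by
          refine mul_le_mul_of_nonneg_left ?_ (by positivity)
          linarith
      _ = 6 * (S * M) * ∫ y in T m, g y := by ring
  -- the formula
  have hQi : ∀ m, Integrable (fun x => (inner ℝ (q x) (sm (Ha_z n d (Ha_h m)) (curl φ) x) : ℝ))
      volume := by
    intro m
    refine hqc.mono' (hqm.inner (Ha_cc n d hcc m).smooth.continuous.aestronglyMeasurable)
      (Eventually.of_forall fun x => ?_)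
    refine (norm_inner_le_norm _ _).trans ?_
    refine mul_le_mul_of_nonneg_left ?_ (norm_nonneg _)
    unfold sm
    rw [norm_smul, Real.norm_eq_abs, abs_of_nonneg (Ha_z_nn _ _ _ _)]
    exact mul_le_of_le_one_left (norm_nonneg _) (Ha_z_le _ _ _ _)
  have hnl : ∀ m, nl (Ha_C n d φ m) w = -(P m + ip q (sm (Ha_z n d (Ha_h m)) (curl φ))) := by
    intro m
    have ht := Ha_tf (n := n) (d := d) hφ m
    rw [hNl w A hH hdv (Ha_C n d φ m) ⟨ht.smooth, ht.compact, subset_univ _, ht.div⟩]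
    congr 1
    show _ = P m + ∫ x, (inner ℝ (q x) (sm (Ha_z n d (Ha_h m)) (curl φ) x) : ℝ)
    rw [← integral_add (hPi m) (hQi m)]
    refine integral_congr_ae (Eventually.of_forall fun x => ?_)
    show (inner ℝ (cr (om A x) (w x)) (Ha_C n d φ m x) : ℝ) = _
    rw [Ha_C_eq n d hφ m x, inner_add_right]
    rfl
  have hQle : ∀ m, |ip q (sm (Ha_z n d (Ha_h m)) (curl φ))| ≤ M * (gs A + sq w) := by
    intro m
    have h1 : |ip q (sm (Ha_z n d (Ha_h m)) (curl φ))| ≤
        ∫ x, M * (1 / 2 * ‖om A x‖ ^ 2 + 1 / 2 * ‖w x‖ ^ 2) := by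
      refine norm_integral_le_of_norm_le (μ := volume)
        (f := fun x => (inner ℝ (q x) (sm (Ha_z n d (Ha_h m)) (curl φ) x) : ℝ))
        (((hoi.const_mul _).add (hwi.const_mul _)).const_mul _) (Eventually.of_forall fun x => ?_)
      refine (norm_inner_le_norm _ _).trans ?_
      have h2 : ‖sm (Ha_z n d (Ha_h m)) (curl φ) x‖ ≤ M := by
        unfold sm
        rw [norm_smul, Real.norm_eq_abs, abs_of_nonneg (Ha_z_nn _ _ _ _)]
        exact (mul_le_of_le_one_left (norm_nonneg _) (Ha_z_le _ _ _ _)).trans (hM2 x)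
      refine (mul_le_mul (hqn x) h2 (norm_nonneg _) (by positivity)).trans ?_
      rw [mul_comm]
      refine mul_le_mul_of_nonneg_left ?_ hM0
      nlinarith [sq_nonneg (‖om A x‖ - ‖w x‖)]
    rw [integral_const_mul, integral_add (hoi.const_mul _) (hwi.const_mul _), integral_const_mul,
      integral_const_mul] at h1
    refine h1.trans (mul_le_mul_of_nonneg_left ?_ hM0)
    have h3 : ∫ x, ‖om A x‖ ^ 2 ≤ 2 * gs A := Ha_sq_om hH.gl2
    have h4 : 0 ≤ ∫ x, ‖w x‖ ^ 2 := integral_nonneg fun x => by positivity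
    have h5 : sq w = ∫ x, ‖w x‖ ^ 2 := rfl
    rw [h5]
    linarith
  have hgs := Ha_gs_nn A
  have hsq : 0 ≤ sq w := integral_nonneg fun x => by positivity
  constructor
  · intro m
    rw [hnl m, abs_neg]
    refine (abs_add_le _ _).trans ?_
    have h1 := (hPle m).trans (mul_le_mul_of_nonneg_left (hGle m) (by positivity))
    have h2 := hQle m
    have h3 : 0 ≤ 6 * (S * M) * sq w := by positivity
    nlinarith
  · have hP0 : Tendsto P atTop (𝓝 0) := by
      refine squeeze_zero_norm (a := fun m => 6 * (S * M) * ∫ y in T m, g y) (fun m => ?_) ?_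
      · exact hPle m
      · have := hG0.const_mul (6 * (S * M))
        rwa [mul_zero] at this
    have h1 : nl (curl φ) w = -(0 + ip q (curl φ)) := by
      rw [hNl w A hH hdv (curl φ) (Ha_curl_tf hφ), zero_add]
      rfl
    rw [h1]
    exact ((hP0.add hlim).neg).congr fun m => (hnl m).symm

theorem Ha_ip_meas {v : ℝ → E3 → E3} (hv : Measurable fun q : ℝ × E3 => v q.1 q.2) {φ : E3 → E3}
    (hφ : Continuous φ) : AEStronglyMeasurable (fun t => ip (v t) φ) mI := by
  have h1 : StronglyMeasurable fun p : ℝ × E3 => (inner ℝ (v p.1 p.2) (φ p.2) : ℝ) :=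
    hv.stronglyMeasurable.inner (hφ.measurable.comp measurable_snd).stronglyMeasurable
  exact (StronglyMeasurable.integral_prod_right' (ν := (volume : Measure E3)) h1).aestronglyMeasurable

theorem Ha_nl_meas {v : ℝ → E3 → E3} (hv : Measurable fun q : ℝ × E3 => v q.1 q.2) {φ : E3 → E3}
    (hφ : Cc φ) : AEStronglyMeasurable (fun t => nl φ (v t)) mI := by
  have h1 : StronglyMeasurable fun p : ℝ × E3 =>
      ∑ i, (v p.1 p.2) i * (inner ℝ (v p.1 p.2) (D i φ p.2) : ℝ) := by
    refine Finset.stronglyMeasurable_fun_sum _ fun i _ => ?_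
    have h2 : StronglyMeasurable fun p : ℝ × E3 => (v p.1 p.2) i :=
      ((EuclideanSpace.proj (𝕜 := ℝ) i : E3 →L[ℝ] ℝ).continuous.measurable.comp
        hv).stronglyMeasurable
    have h3 : StronglyMeasurable fun p : ℝ × E3 => (inner ℝ (v p.1 p.2) (D i φ p.2) : ℝ) :=
      hv.stronglyMeasurable.inner
        ((EC.D_smooth hφ.smooth i).continuous.measurable.comp measurable_snd).stronglyMeasurable
    exact h2.mul h3
  exact (StronglyMeasurable.integral_prod_right' (ν := (volume : Measure E3)) h1).aestronglyMeasurable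

/-- **Ha**: no boundary term in the half-space -/
theorem hHa (hStrip : StStrip) (hNl : StNl) (hCu : StCu) (hFu : StFu) : StHa := by
  intro n d hn v A hv hz hE θ hθ φ hφ
  obtain ⟨S, hS0, hS⟩ := Ha_st
  obtain ⟨M1, hM10, hM1⟩ := Ha_bdd hφ
  obtain ⟨M2, hM20, hM2⟩ := Ha_bdd (EC.cc_curl hφ)
  have hM0 : 0 ≤ max M1 M2 := hM10.trans (le_max_left _ _)
  have hM1' : ∀ y, ‖φ y‖ ≤ max M1 M2 := fun y => (hM1 y).trans (le_max_left _ _)
  have hM2' : ∀ y, ‖curl φ y‖ ≤ max M1 M2 := fun y => (hM2 y).trans (le_max_right _ _)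
  set M := max M1 M2 with hM
  obtain ⟨a, ha⟩ := hθ.comp.exists_bound_of_continuous hθ.smooth.continuous
  obtain ⟨b, hb⟩ := hθ.comp.deriv.exists_bound_of_continuous
    (hθ.smooth.continuous_deriv (by simp))
  have ha0 : 0 ≤ a := (norm_nonneg _).trans (ha 0)
  have hb0 : 0 ≤ b := (norm_nonneg _).trans (hb 0)
  obtain ⟨hsqi, hgsi, -, -⟩ := hFu v A hv
  have hθm : AEStronglyMeasurable θ mI := hθ.smooth.continuous.aestronglyMeasurable
  have hθm' : AEStronglyMeasurable (deriv θ) mI :=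
    (hθ.smooth.continuous_deriv (by simp)).aestronglyMeasurable
  have hF0 : ∀ m, ∫ t in Ioo (-1 : ℝ) 0, (deriv θ t * ip (v t) (Ha_C n d φ m) +
      θ t * nl (Ha_C n d φ m) (v t)) = 0 := fun m => hE θ hθ _ (Ha_tf hφ m)
  have hlim : Tendsto (fun m => ∫ t in Ioo (-1 : ℝ) 0, (deriv θ t * ip (v t) (Ha_C n d φ m) +
      θ t * nl (Ha_C n d φ m) (v t))) atTop (𝓝 (∫ t in Ioo (-1 : ℝ) 0,
        (deriv θ t * ip (v t) (curl φ) + θ t * nl (curl φ) (v t)))) := by
    refine tendsto_integral_of_dominated_convergence (fun t => b * (2 * gs (A t) + sq φ) +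
      a * (M * (6 * S + 1) * (gs (A t) + sq (v t)))) (fun m => ?_) ?_ (fun m => ?_) ?_
    · have hcc := EC.cc_curl (Ha_cc n d hφ m)
      exact (hθm'.mul (Ha_ip_meas hv.meas hcc.smooth.continuous)).add
        (hθm.mul (Ha_nl_meas hv.meas hcc))
    · exact (((hgsi.const_mul 2).add (integrable_const _)).const_mul b).add
        (((hgsi.add hsqi).const_mul _).const_mul a)
    · filter_upwards [hv.h1, hv.div, hz] with t h1 h2 h3
      have hlin : |ip (v t) (Ha_C n d φ m)| ≤ 2 * gs (A t) + sq φ := by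
        unfold Ha_C
        rw [(hCu (v t) (A t) h1).1 _ (Ha_cc n d hφ m)]
        have ho2 : MemLp (om (A t)) 2 volume := Ha_om_memLp h1.gl2
        have hoi := EC.Calc2b_int ho2
        have hφi := EC.Calc2b_int (EC.cc_memLp hφ 2)
        have h4 : |ip (om (A t)) (sm (Ha_z n d (Ha_h m)) φ)| ≤
            ∫ x, (‖om (A t) x‖ ^ 2 + ‖φ x‖ ^ 2) := by
          refine norm_integral_le_of_norm_le (μ := volume)
            (f := fun x => (inner ℝ (om (A t) x) (sm (Ha_z n d (Ha_h m)) φ x) : ℝ))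
            (hoi.add hφi) (Eventually.of_forall fun x => ?_)
          refine (norm_inner_le_norm _ _).trans ?_
          have h5 : ‖sm (Ha_z n d (Ha_h m)) φ x‖ ≤ ‖φ x‖ := by
            unfold sm
            rw [norm_smul, Real.norm_eq_abs, abs_of_nonneg (Ha_z_nn _ _ _ _)]
            exact mul_le_of_le_one_left (norm_nonneg _) (Ha_z_le _ _ _ _)
          refine (mul_le_mul_of_nonneg_left h5 (norm_nonneg _)).trans ?_
          nlinarith [sq_nonneg (‖om (A t) x‖ - ‖φ x‖), sq_nonneg (‖om (A t) x‖),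
            sq_nonneg (‖φ x‖)]
        rw [integral_add hoi hφi] at h4
        have h6 : ∫ x, ‖om (A t) x‖ ^ 2 ≤ 2 * gs (A t) := Ha_sq_om h1.gl2
        have h7 : sq φ = ∫ x, ‖φ x‖ ^ 2 := rfl
        rw [h7]
        linarith
      have hnl := (Ha_nl hStrip hNl hn h1 h2 h3 hφ hS0 hS hM0 hM1' hM2').1 m
      refine (norm_add_le _ _).trans (add_le_add ?_ ?_)
      · rw [norm_mul]
        exact mul_le_mul (hb t) hlin (norm_nonneg _) hb0
      · rw [norm_mul]
        exact mul_le_mul (ha t) hnl (norm_nonneg _) ha0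
    · filter_upwards [hv.h1, hv.div, hz] with t h1 h2 h3
      have hnl := (Ha_nl hStrip hNl hn h1 h2 h3 hφ hS0 hS hM0 hM1' hM2').2
      have hlin : Tendsto (fun m => ip (v t) (Ha_C n d φ m)) atTop (𝓝 (ip (v t) (curl φ))) := by
        have ho2 : MemLp (om (A t)) 2 volume := Ha_om_memLp h1.gl2
        have h4 := Ha_lin (n := n) (d := d) hφ (om (A t)) ho2.1
          (Ha_prod_int ho2 (EC.cc_memLp hφ 2)) (by
            filter_upwards [h3] with y hy hd
            exact Ha_om_zero (hy hd).2)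
        rw [(hCu (v t) (A t) h1).1 φ hφ]
        refine h4.congr fun m => ?_
        unfold Ha_C
        rw [(hCu (v t) (A t) h1).1 _ (Ha_cc n d hφ m)]
      exact (hlin.const_mul _).add (hnl.const_mul _)
  have h0 : (fun m : ℕ => ∫ t in Ioo (-1 : ℝ) 0, (deriv θ t * ip (v t) (Ha_C n d φ m) +
      θ t * nl (Ha_C n d φ m) (v t))) = fun _ => 0 := funext hF0
  rw [h0] at hlim
  exact tendsto_nhds_unique hlim tendsto_const_nhds

end Pool.Agent.Helper83.CR
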