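import Pool.Agent.Helper83.CR.St
import Pool.Agent.Helper60.EC.Calc2b
import Pool.Agent.Helper60.EC.Calc3b
import Pool.Agent.Helper60.EC.Calc1c
import Pool.Agent.Helper60.EC.Calc2a

/-! Project CR, module Ineq: the renormalised inequality with a fixed mollifier -/

set_option autoImplicit false

open MeasureTheory Set Filter Topology
open scoped ENNReal ContDiff

noncomputable section

namespace Pool.Agent.Helper83.CR

open Pool.Agent.Helper52.NSE (E3 pd divg TestField MemH1s MemL2s IsWeakSolution gradSq kin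
  IsSmoothBoundedDomain)
open Pool.Agent.Helper60.EC (D Cc curl grad cr ip sq nl adv sm gsq fn Hs cc_memLp Calc2b_cs
  Calc2b_int sqrt_sq_sub_le Calc3b_nsq sq_nonneg' norm_grad_sq cc_grad Calc1c_bound Calc2a_int)

/-- Cauchy-Schwarz for a convolution -/
theorem Ineq_mo {k : E3 → ℝ} (hk : Cc k) {f : E3 → E3} (hf : MemLp f 2 volume) (x : E3) :
    ‖mo k f x‖ ≤ Real.sqrt (sq k) * Real.sqrt (sq f) := by
  have h1 : MemLp (fun y => k (x - y)) 2 volume :=
    (cc_memLp hk 2).comp_measurePreserving (Measure.measurePreserving_sub_left volume x)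
  have h2 : ∫ y, ‖k (x - y)‖ ^ 2 = (Helper60.EC.sq k : ℝ) :=
    integral_sub_left_eq_self (fun z => ‖k z‖ ^ 2) volume x
  have h3 := Calc2b_cs (F := ℝ) h1.norm hf.norm
  simp only [norm_norm] at h3
  rw [h2] at h3
  have h4 : ‖mo k f x‖ ≤ ∫ y, (inner ℝ ‖k (x - y)‖ ‖f y‖ : ℝ) := by
    refine (norm_integral_le_integral_norm _).trans (le_of_eq ?_)
    refine integral_congr_ae (Eventually.of_forall fun y => ?_)
    simp only [norm_smul, RCLike.inner_apply, conj_trivial]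
    ring
  exact h4.trans ((le_abs_self _).trans h3)

theorem Ineq_om_le (A : Fin 3 → E3 → E3) (x : E3) : ‖om A x‖ ^ 2 ≤ 2 * ∑ i, ‖A i x‖ ^ 2 := by
  have e0 : om A x 0 = (A 1 x) 2 - (A 2 x) 1 := rfl
  have e1 : om A x 1 = (A 2 x) 0 - (A 0 x) 2 := rfl
  have e2 : om A x 2 = (A 0 x) 1 - (A 1 x) 0 := rfl
  rw [Fin.sum_univ_three, Calc3b_nsq, Calc3b_nsq, Calc3b_nsq, Calc3b_nsq, e0, e1, e2]
  nlinarith [sq_nonneg ((A 1 x) 2 + (A 2 x) 1), sq_nonneg ((A 2 x) 0 + (A 0 x) 2),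
    sq_nonneg ((A 0 x) 1 + (A 1 x) 0), sq_nonneg ((A 0 x) 0), sq_nonneg ((A 1 x) 1),
    sq_nonneg ((A 2 x) 2)]

theorem Ineq_om_cont : Continuous (fun p : Fin 3 → E3 =>
    (!₂[(p 1) 2 - (p 2) 1, (p 2) 0 - (p 0) 2, (p 0) 1 - (p 1) 0] : E3)) := by
  refine (PiLp.continuous_toLp 2 _).comp (continuous_pi fun i => ?_)
  have h : ∀ i j : Fin 3, Continuous fun p : Fin 3 → E3 => (p i) j := fun i j =>
    (EuclideanSpace.proj (𝕜 := ℝ) j).continuous.comp (continuous_apply i)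
  fin_cases i
  · exact (h 1 2).sub (h 2 1)
  · exact (h 2 0).sub (h 0 2)
  · exact (h 0 1).sub (h 1 0)

theorem Ineq_om_memLp {A : Fin 3 → E3 → E3} (h : ∀ i, MemLp (A i) 2 volume) :
    MemLp (om A) 2 volume ∧ sq (om A) ≤ 2 * gs A := by
  have hm : AEStronglyMeasurable (om A) volume := by
    have h1 : AEMeasurable (fun x => fun i => A i x) (volume : Measure E3) :=
      aemeasurable_pi_iff.2 fun i => (h i).1.aemeasurable
    exact (Ineq_om_cont.measurable.comp_aemeasurable h1).aestronglyMeasurable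
  have hi : Integrable (fun x => ∑ i, ‖A i x‖ ^ 2) volume :=
    integrable_finsetSum _ fun i _ => Calc2b_int (h i)
  have hp : MemLp (om A) 2 volume := by
    rw [memLp_two_iff_integrable_sq_norm hm]
    refine (hi.const_mul 2).mono' (hm.norm.pow 2) (Eventually.of_forall fun x => ?_)
    rw [Real.norm_of_nonneg (by positivity)]
    exact Ineq_om_le A x
  refine ⟨hp, ?_⟩
  unfold Helper60.EC.sq gs
  rw [← integral_const_mul]
  exact integral_mono (Calc2b_int hp) (hi.const_mul 2) fun x => Ineq_om_le A x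

theorem Ineq_gs_nonneg (A : Fin 3 → E3 → E3) : 0 ≤ gs A :=
  integral_nonneg fun x => Finset.sum_nonneg fun i _ => by positivity

/-- the gradients after mollification -/
theorem Ineq_mo_sum {k : E3 → ℝ} (hk : Cc k) {A : Fin 3 → E3 → E3}
    (h : ∀ i, MemLp (A i) 2 volume) (x : E3) :
    Real.sqrt (∑ i, ‖mo k (A i) x‖ ^ 2) ≤ Real.sqrt (sq k) * Real.sqrt (gs A) := by
  rw [← Real.sqrt_mul (sq_nonneg' k)]
  apply Real.sqrt_le_sqrt
  have e : gs A = ∑ i, sq (A i) := integral_finsetSum _ fun i _ => Calc2b_int (h i)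
  rw [e, Finset.mul_sum]
  refine Finset.sum_le_sum fun i _ => ?_
  have h1 := pow_le_pow_left₀ (norm_nonneg _) (Ineq_mo hk (h i) x) 2
  rwa [mul_pow, Real.sq_sqrt (sq_nonneg' k), Real.sq_sqrt (sq_nonneg' _)] at h1


theorem Ineq_bt_cont {κ : ℝ} (hκ : 0 < κ) : Continuous (bt κ) := by
  unfold bt
  refine continuous_const.mul (Continuous.log ?_ fun y => ?_)
  · exact continuous_const.add ((continuous_norm.pow 2).div_const _)
  · positivity

theorem Ineq_gb_cont {κ : ℝ} (hκ : 0 < κ) : Continuous (gb κ) := by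
  have h : Continuous fun y : E3 => (κ ^ 2 + ‖y‖ ^ 2)⁻¹ :=
    (continuous_const.add (continuous_norm.pow 2)).inv₀ fun y =>
      (add_pos_of_pos_of_nonneg (pow_pos hκ 2) (sq_nonneg _)).ne'
  exact h.smul continuous_id

theorem Ineq_rh_nonneg (hBt : StBt) {κ : ℝ} (hκ : 0 < κ) (k : E3 → ℝ) {φ : E3 → ℝ}
    (h0 : ∀ x, 0 ≤ φ x) (A : Fin 3 → E3 → E3) (w : E3 → E3) (x : E3) : 0 ≤ rh k κ φ A w x := by
  have hb := (hBt.1 κ hκ).1 (mo k (om A) x)
  have h1 := h0 x
  unfold rh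
  positivity

/-- the commutator, with the trivial modulus of continuity -/
theorem Ineq_cmt (hCmtB : StCmtB) {C ε : ℝ} {k : E3 → ℝ} (hε : 0 < ε) (hk : Mol C ε k)
    {w : E3 → E3} {A : Fin 3 → E3 → E3} (h : H1 w A) :
    Integrable (cmt k (om A) w) volume ∧
      ∫ x, ‖cmt k (om A) w x‖ ≤ 48 * C * gs A := by
  obtain ⟨hm, hle⟩ := Ineq_om_memLp h.gl2
  have hC0 : 0 ≤ C := by
    have h1 : 0 ≤ C / ε := (integral_nonneg fun z => norm_nonneg _).trans (hk.d 0)
    by_contra hn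
    exact absurd h1 (not_le.2 (div_neg_of_neg_of_pos (not_le.1 hn) hε))
  have hg := Ineq_gs_nonneg A
  have hs : ∀ z : E3, ‖z‖ < ε → sq (fun x => om A (x - z) - om A x) ≤
      (2 * Real.sqrt (sq (om A))) ^ 2 := by
    intro z _
    have h1 : MemLp (fun x => om A (x - z)) 2 volume :=
      hm.comp_measurePreserving (measurePreserving_sub_right volume z)
    have h2 : sq (fun x => om A (x - z)) = sq (om A) :=
      integral_sub_right_eq_self (fun x => ‖om A x‖ ^ 2) z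
    have h3 := sqrt_sq_sub_le h1 hm
    rw [h2] at h3
    have h4 : Real.sqrt (sq (fun x => om A (x - z) - om A x)) ≤ 2 * Real.sqrt (sq (om A)) := by
      linarith
    have h5 := pow_le_pow_left₀ (Real.sqrt_nonneg _) h4 2
    rwa [Real.sq_sqrt (sq_nonneg' _)] at h5
  obtain ⟨h1, h2⟩ := hCmtB C ε k hε hk w A h (2 * Real.sqrt (sq (om A))) (by positivity) hs
  refine ⟨h1, h2.trans ?_⟩
  have h3 : Real.sqrt (sq (om A)) ≤ 2 * Real.sqrt (gs A) := by
    rw [show (2 : ℝ) = Real.sqrt 4 by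
      rw [show (4 : ℝ) = 2 ^ 2 by norm_num, Real.sqrt_sq (by norm_num)], ← Real.sqrt_mul (by norm_num)]
    apply Real.sqrt_le_sqrt
    linarith
  have h4 := Real.sqrt_nonneg (gs A)
  have h5 : Real.sqrt (gs A) * Real.sqrt (gs A) = gs A := Real.mul_self_sqrt hg
  calc 12 * C * (2 * Real.sqrt (sq (om A))) * Real.sqrt (gs A)
      = 24 * C * (Real.sqrt (sq (om A)) * Real.sqrt (gs A)) := by ring
    _ ≤ 24 * C * (2 * Real.sqrt (gs A) * Real.sqrt (gs A)) := by gcongr
    _ = 48 * C * (Real.sqrt (gs A) * Real.sqrt (gs A)) := by ring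
    _ = 48 * C * gs A := by rw [h5]

/-- the bound for the right-hand side at one time -/
theorem Ineq_bound (hBt : StBt) (hCmtB : StCmtB) {C ε : ℝ} {k : E3 → ℝ} (hε : 0 < ε)
    (hk : Mol C ε k) {κ : ℝ} (hκ : 0 < κ) {φ : E3 → ℝ} (hφ : Cc φ) (h0 : ∀ x, 0 ≤ φ x) :
    ∃ B : ℝ, ∀ (w : E3 → E3) (A : Fin 3 → E3 → E3), H1 w A →
      Integrable (rh k κ φ A w) volume → ∫ x, rh k κ φ A w x ≤ B * (1 + sq w + gs A) := by
  obtain ⟨Φ, hΦ0, hΦ⟩ := Calc1c_bound φ hφ.smooth.continuous hφ.comp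
  set sk : ℝ := Real.sqrt (Helper60.EC.sq k) with hsk
  have hsk0 : 0 ≤ sk := Real.sqrt_nonneg _
  have hgφ := cc_grad hφ
  have iG : Integrable (fun x => ‖grad φ x‖) volume :=
    (Calc2a_int hgφ.smooth.continuous hgφ.comp).norm
  have iP : Integrable φ volume := Calc2a_int hφ.smooth.continuous hφ.comp
  set G : ℝ := ∫ x, ‖grad φ x‖ with hG
  set P : ℝ := ∫ x, φ x with hP
  have hG0 : 0 ≤ G := integral_nonneg fun x => norm_nonneg _
  have hP0 : 0 ≤ P := integral_nonneg h0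
  have hC0 : 0 ≤ C := by
    have h1 : 0 ≤ C / ε := (integral_nonneg fun z => norm_nonneg _).trans (hk.d 0)
    by_contra hn
    exact absurd h1 (not_le.2 (div_neg_of_neg_of_pos (not_le.1 hn) hε))
  refine ⟨sk ^ 2 / κ * G + sk * P + 24 * Φ * C / κ, fun w A hH hI => ?_⟩
  obtain ⟨hm, hle⟩ := Ineq_om_memLp hH.gl2
  obtain ⟨c1, c2⟩ := Ineq_cmt hCmtB hε hk hH
  have hg := Ineq_gs_nonneg A
  set X : ℝ := Real.sqrt (sq w) with hX
  set Y : ℝ := Real.sqrt (gs A) with hY
  have hX0 : 0 ≤ X := Real.sqrt_nonneg _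
  have hY0 : 0 ≤ Y := Real.sqrt_nonneg _
  have hX2 : X ^ 2 = sq w := Real.sq_sqrt (sq_nonneg' w)
  have hY2 : Y ^ 2 = gs A := Real.sq_sqrt hg
  have h3 : Real.sqrt (sq (om A)) ≤ 2 * Y := by
    rw [hY, show (2 : ℝ) = Real.sqrt 4 by
      rw [show (4 : ℝ) = 2 ^ 2 by norm_num, Real.sqrt_sq (by norm_num)], ← Real.sqrt_mul (by norm_num)]
    apply Real.sqrt_le_sqrt
    linarith
  have hpt : ∀ x, rh k κ φ A w x ≤ (sk ^ 2 / κ * (X * Y)) * ‖grad φ x‖ + (sk * Y) * φ x +
      Φ / (2 * κ) * ‖cmt k (om A) w x‖ := by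
    intro x
    obtain ⟨b0, b1, -⟩ := hBt.1 κ hκ
    have t1 : ‖mo k w x‖ ≤ sk * X := Ineq_mo hk.cc hH.l2 x
    have t2 : ‖mo k (om A) x‖ ≤ sk * (2 * Y) :=
      (Ineq_mo hk.cc hm x).trans (mul_le_mul_of_nonneg_left h3 hsk0)
    have t3 : bt κ (mo k (om A) x) ≤ sk * (2 * Y) / (2 * κ) :=
      (b1 _).trans (div_le_div_of_nonneg_right t2 (by positivity))
    have t4 := Ineq_mo_sum hk.cc hH.gl2 x
    unfold rh
    refine add_le_add (add_le_add ?_ ?_) ?_
    · calc ‖mo k w x‖ * ‖grad φ x‖ * bt κ (mo k (om A) x)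
          ≤ (sk * X) * ‖grad φ x‖ * (sk * (2 * Y) / (2 * κ)) := by
            have := b0 (mo k (om A) x)
            gcongr
        _ = (sk ^ 2 / κ * (X * Y)) * ‖grad φ x‖ := by
            field_simp
    · rw [mul_comm]
      exact mul_le_mul_of_nonneg_right t4 (h0 x)
    · have t5 : φ x ≤ Φ := (le_abs_self _).trans (hΦ x)
      calc φ x * (‖cmt k (om A) w x‖ / (2 * κ)) ≤ Φ * (‖cmt k (om A) w x‖ / (2 * κ)) := by
            gcongr
        _ = Φ / (2 * κ) * ‖cmt k (om A) w x‖ := by ring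
  have hint : ∫ x, rh k κ φ A w x ≤ (sk ^ 2 / κ * (X * Y)) * G + (sk * Y) * P +
      Φ / (2 * κ) * ∫ x, ‖cmt k (om A) w x‖ := by
    have i1 : Integrable (fun x => (sk ^ 2 / κ * (X * Y)) * ‖grad φ x‖) volume := iG.const_mul _
    have i2 : Integrable (fun x => (sk * Y) * φ x) volume := iP.const_mul _
    have i3 : Integrable (fun x => Φ / (2 * κ) * ‖cmt k (om A) w x‖) volume :=
      c1.norm.const_mul _
    refine (integral_mono hI ((i1.add i2).add i3) hpt).trans (le_of_eq ?_)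
    rw [integral_add' (i1.add i2) i3, integral_add' i1 i2, integral_const_mul,
      integral_const_mul, integral_const_mul]
  refine hint.trans ?_
  have hXY : X * Y ≤ 1 + sq w + gs A := by
    rw [← hX2, ← hY2]
    nlinarith [sq_nonneg (X - Y), sq_nonneg X, sq_nonneg Y]
  have hY1 : Y ≤ 1 + sq w + gs A := by
    rw [← hX2, ← hY2]
    nlinarith [sq_nonneg (Y - 1), sq_nonneg X, sq_nonneg Y]
  have hgs1 : gs A ≤ 1 + sq w + gs A := by
    have := sq_nonneg' w
    linarith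
  have e3 : Φ / (2 * κ) * ∫ x, ‖cmt k (om A) w x‖ ≤ 24 * Φ * C / κ * gs A := by
    calc Φ / (2 * κ) * ∫ x, ‖cmt k (om A) w x‖ ≤ Φ / (2 * κ) * (48 * C * gs A) := by gcongr
      _ = 24 * Φ * C / κ * gs A := by
        field_simp
        ring
  calc (sk ^ 2 / κ * (X * Y)) * G + (sk * Y) * P + Φ / (2 * κ) * ∫ x, ‖cmt k (om A) w x‖
      ≤ (sk ^ 2 / κ * G) * (X * Y) + (sk * P) * Y + 24 * Φ * C / κ * gs A := by
        have : (sk ^ 2 / κ * (X * Y)) * G + (sk * Y) * P =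
          (sk ^ 2 / κ * G) * (X * Y) + (sk * P) * Y := by ring
        rw [this]
        linarith
    _ ≤ (sk ^ 2 / κ * G) * (1 + sq w + gs A) + (sk * P) * (1 + sq w + gs A) +
        24 * Φ * C / κ * (1 + sq w + gs A) := by gcongr
    _ = (sk ^ 2 / κ * G + sk * P + 24 * Φ * C / κ) * (1 + sq w + gs A) := by ring

theorem hIneq (hRep : StRep) (hChain : StChain) (hSl : StSl) (hQf : StQf) (hFu : StFu)
    (hCmtB : StCmtB) (hBt : StBt) : StIneq := by
  intro v A hE C ε k hε hk κ hκ φ hφ hφ0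
  have hC : Cls v A := hE.toCls
  obtain ⟨b0, b1, -, b3, -⟩ := hBt.1 κ hκ
  obtain ⟨fv, fA, -, -⟩ := hFu v A hC
  obtain ⟨⟨M, hM0, hM⟩, hmeas⟩ := hQf k hk.cc
  obtain ⟨m1, m2, m3, m4, m5⟩ := hmeas v A hC.meas hC.gmeas
  obtain ⟨hR1, hR2⟩ := hRep v A hE k hk.cc
  obtain ⟨B, hB⟩ := Ineq_bound hBt hCmtB hε hk hκ hφ hφ0
  have hgood : ∀ᵐ t ∂mI, H1 (v t) (A t) ∧ dv (A t) =ᵐ[volume] 0 := by
    filter_upwards [hC.h1, hC.div] with t h1 h2 using ⟨h1, h2⟩
  have hrn : ∀ t x, 0 ≤ rh k κ φ (A t) (v t) x := fun t x =>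
    Ineq_rh_nonneg hBt hκ k hφ0 (A t) (v t) x
  have mφ : Measurable fun q : ℝ × E3 => φ q.2 :=
    hφ.smooth.continuous.measurable.comp measurable_snd
  have mg : Measurable fun q : ℝ × E3 => grad φ q.2 :=
    (cc_grad hφ).smooth.continuous.measurable.comp measurable_snd
  have hrm : Measurable fun q : ℝ × E3 => rh k κ φ (A q.1) (v q.1) q.2 := by
    unfold rh
    refine ((((m1.norm).mul mg.norm).mul
      ((Ineq_bt_cont hκ).measurable.comp m3)).add (mφ.mul ?_)).add (mφ.mul (m5.norm.div_const _))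
    exact Real.continuous_sqrt.measurable.comp
      (Finset.measurable_sum _ fun i _ => (m2 i).norm.pow_const 2)
  have hI : Integrable (fun q : ℝ × E3 => rh k κ φ (A q.1) (v q.1) q.2) mQ := by
    rw [integrable_prod_iff hrm.aestronglyMeasurable]
    refine ⟨?_, ?_⟩
    · filter_upwards [hgood] with t ht
      exact (hSl C ε k hε hk (v t) (A t) ht.1 ht.2 κ hκ φ hφ hφ0).2.1
    · have i1 : Integrable (fun t => B * (1 + sq (v t) + gs (A t))) mI :=
        (((integrable_const (1 : ℝ)).add fv).add fA).const_mul B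
      refine i1.mono' (hrm.aestronglyMeasurable.norm.integral_prod_right') ?_
      filter_upwards [hgood] with t ht
      have h1 := (hSl C ε k hε hk (v t) (A t) ht.1 ht.2 κ hκ φ hφ hφ0).2.1
      have e : (∫ x, ‖rh k κ φ (A t) (v t) x‖) = ∫ x, rh k κ φ (A t) (v t) x :=
        integral_congr_ae (Eventually.of_forall fun x => Real.norm_of_nonneg (hrn t x))
      have h2 : 0 ≤ ∫ x, rh k κ φ (A t) (v t) x := integral_nonneg (hrn t)
      show ‖∫ x, ‖rh k κ φ (A t) (v t) x‖‖ ≤ _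
      rw [e, Real.norm_of_nonneg h2]
      exact hB (v t) (A t) ht.1 h1
  refine ⟨hI, ?_⟩
  -- the function to which Fubini is applied
  let F : ℝ → E3 → ℝ := fun τ x =>
    φ x * (inner ℝ (gb κ (mo k (om (A τ)) x)) (qf k (A τ) (v τ) x) : ℝ)
  have hFm : Measurable (Function.uncurry F) :=
    mφ.mul (((Ineq_gb_cont hκ).measurable.comp m3).inner m4)
  have hF : Integrable (Function.uncurry F) mQ := by
    have i1 : Integrable (fun t => 1 / (2 * κ) * (M * (gs (A t) + sq (v t)))) mI :=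
      ((fA.add fv).const_mul M).const_mul _
    have i2 : Integrable (fun x => |φ x|) volume :=
      (Calc2a_int hφ.smooth.continuous hφ.comp).abs
    refine (i1.mul_prod i2).mono' hFm.aestronglyMeasurable ?_
    filter_upwards [(Measure.quasiMeasurePreserving_fst (μ := mI)
      (ν := (volume : Measure E3))).ae hgood] with q hq
    have h1 := (hM (v q.1) (A q.1) hq.1).2 q.2
    have h2 : ‖(inner ℝ (gb κ (mo k (om (A q.1)) q.2)) (qf k (A q.1) (v q.1) q.2) : ℝ)‖ ≤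
        1 / (2 * κ) * (M * (gs (A q.1) + sq (v q.1))) := by
      refine (norm_inner_le_norm _ _).trans ?_
      refine mul_le_mul (b3 _) (h1.trans ?_) (norm_nonneg _) (by positivity)
      refine mul_le_mul_of_nonneg_left ?_ hM0
      have g0 := Ineq_gs_nonneg (A q.1)
      have s0 := sq_nonneg' (v q.1)
      have e1 := Real.sq_sqrt g0
      have e2 := Real.sq_sqrt s0
      nlinarith [sq_nonneg (Real.sqrt (gs (A q.1)) - Real.sqrt (sq (v q.1))),
        Real.sqrt_nonneg (gs (A q.1)), Real.sqrt_nonneg (sq (v q.1))]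
    show ‖φ q.2 * _‖ ≤ _
    rw [norm_mul, Real.norm_eq_abs (φ q.2), mul_comm]
    exact mul_le_mul_of_nonneg_right h2 (abs_nonneg _)
  filter_upwards [hR2, ae_restrict_mem measurableSet_Ioo] with s hs hsI
  have hsub : Ioo s 0 ⊆ Ioo (-1 : ℝ) 0 := Ioo_subset_Ioo_left hsI.1.le
  have hmono : volume.restrict (Ioo s 0) ≤ (mI : Measure ℝ) := Measure.restrict_mono hsub le_rfl
  have hR2s : ∀ᵐ τ ∂(volume.restrict (Ioo s 0)), ∀ x,
      mo k (om (A τ)) x = ∫ σ in τ..0, qf k (A σ) (v σ) x := ae_mono hmono hR2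
  have hgs : ∀ᵐ τ ∂(volume.restrict (Ioo s 0)), H1 (v τ) (A τ) ∧ dv (A τ) =ᵐ[volume] 0 :=
    ae_mono hmono hgood
  have hpt : ∀ x, bt κ (mo k (om (A s)) x) = ∫ τ in Ioo s 0,
      (inner ℝ (gb κ (mo k (om (A τ)) x)) (qf k (A τ) (v τ) x) : ℝ) := by
    intro x
    rw [hs x, hChain κ hκ (fun τ => qf k (A τ) (v τ) x) (hR1 x) s hsI,
      intervalIntegral.integral_of_le hsI.2.le, integral_Ioc_eq_integral_Ioo]
    refine integral_congr_ae ?_
    filter_upwards [hR2s] with τ hτ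
    rw [hτ x]
  have e1 : ∫ x, φ x * bt κ (mo k (om (A s)) x) = ∫ x, ∫ τ in Ioo s 0, F τ x := by
    refine integral_congr_ae (Eventually.of_forall fun x => ?_)
    show φ x * bt κ (mo k (om (A s)) x) = _
    rw [hpt x, ← integral_const_mul]
  have eprod : (volume.restrict (Ioo s 0)).prod (volume : Measure E3) =
      mQ.restrict (Ioo s 0 ×ˢ univ) := by
    rw [← Measure.prod_restrict, Measure.restrict_restrict measurableSet_Ioo,
      Measure.restrict_univ, inter_eq_left.2 hsub]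
  have hFs : Integrable (Function.uncurry F) ((volume.restrict (Ioo s 0)).prod volume) := by
    rw [eprod]
    exact hF.restrict
  have e2 : ∫ x, ∫ τ in Ioo s 0, F τ x = ∫ τ in Ioo s 0, ∫ x, F τ x :=
    (integral_integral_swap hFs).symm
  have hRi : Integrable (fun τ => ∫ x, rh k κ φ (A τ) (v τ) x) mI := hI.integral_prod_left
  rw [e1, e2, integral_prod _ hI]
  refine (integral_mono_ae (g := fun τ => ∫ x, rh k κ φ (A τ) (v τ) x) hFs.integral_prod_left
    (hRi.mono_measure hmono) ?_).trans ?_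
  · filter_upwards [hgs] with τ hτ
    exact (hSl C ε k hε hk (v τ) (A τ) hτ.1 hτ.2 κ hκ φ hφ hφ0).2.2
  · exact setIntegral_mono_set hRi (Eventually.of_forall fun τ => integral_nonneg (hrn τ))
      (LE.le.eventuallyLE hsub)

end Pool.Agent.Helper83.CR
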