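import Pool.Agent.Helper83.CR.St
import Pool.Agent.Helper60.EC.Calc1c

/-! # Project CR, module Iter -/

set_option autoImplicit false

open MeasureTheory Set Filter Topology
open scoped ENNReal ContDiff

noncomputable section

namespace Pool.Agent.Helper83.CR

open Pool.Agent.Helper52.NSE (E3 pd divg TestField)
open Pool.Agent.Helper60.EC (D Cc curl grad cr ip sq nl adv sm gsq fn Hs Cut exists_cut)

theorem Iter_vec_meas {X : Type} [MeasurableSpace X] {a b c : X → ℝ} (ha : Measurable a)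
    (hb : Measurable b) (hc : Measurable c) : Measurable fun x => (!₂[a x, b x, c x] : E3) := by
  have h1 : Measurable fun x => (fun i : Fin 3 => (![a x, b x, c x] : Fin 3 → ℝ) i) := by
    rw [measurable_pi_iff]
    intro i
    fin_cases i
    · exact ha
    · exact hb
    · exact hc
  exact (WithLp.measurable_toLp 2 (Fin 3 → ℝ)).comp h1

theorem Iter_coord {X : Type} [MeasurableSpace X] {f : X → E3} (hf : Measurable f) (i : Fin 3) :
    Measurable fun x => f x i :=
  (measurable_pi_apply i).comp ((WithLp.measurable_ofLp 2 (Fin 3 → ℝ)).comp hf)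

theorem Iter_iz_meas {A : ℝ → Fin 3 → E3 → E3}
    (h : ∀ i, Measurable fun q : ℝ × E3 => A q.1 i q.2) :
    Measurable fun q : ℝ × E3 => iz (om (A q.1) q.2) := by
  have h1 : Measurable fun q : ℝ × E3 => om (A q.1) q.2 :=
    Iter_vec_meas ((Iter_coord (h 1) 2).sub (Iter_coord (h 2) 1))
      ((Iter_coord (h 2) 0).sub (Iter_coord (h 0) 2))
      ((Iter_coord (h 0) 1).sub (Iter_coord (h 1) 0))
  have h2 : Measurable iz := by
    unfold iz
    exact Measurable.ite (measurableSet_singleton _) measurable_const measurable_const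
  exact h2.comp h1

theorem Iter_iz_nonneg (y : E3) : 0 ≤ iz y := by
  unfold iz; split_ifs <;> norm_num

theorem Iter_iz_le (y : E3) : iz y ≤ 1 := by
  unfold iz; split_ifs <;> norm_num

theorem Iter_step {g : ℝ → ℝ} {K W M α : ℝ} (hK : 0 ≤ K)
    (h : ∀ R : ℝ, 1 ≤ R → ∀ a : ℝ, 0 < a → g R ≤ K / R * (a / 2 * W + 1 / (2 * a) * g (3 * R)))
    (hM : ∀ R : ℝ, 1 ≤ R → g R ≤ M * R ^ α) :
    ∀ R : ℝ, 1 ≤ R → g R ≤ (K * (W + M * 3 ^ α) / 2) * R ^ (α / 2 - 1) := by
  intro R hR
  have hR0 : 0 < R := by linarith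
  have ha : 0 < R ^ (α / 2) := Real.rpow_pos_of_pos hR0 _
  refine (h R hR (R ^ (α / 2)) ha).trans ?_
  have h1 : g (3 * R) ≤ M * 3 ^ α * (R ^ (α / 2) * R ^ (α / 2)) := by
    refine (hM (3 * R) (by linarith)).trans (le_of_eq ?_)
    rw [Real.mul_rpow (by norm_num) hR0.le, ← Real.rpow_add hR0, add_halves]
    ring
  have h2 : 1 / (2 * R ^ (α / 2)) * g (3 * R) ≤ M * 3 ^ α * R ^ (α / 2) / 2 := by
    calc 1 / (2 * R ^ (α / 2)) * g (3 * R)
        ≤ 1 / (2 * R ^ (α / 2)) * (M * 3 ^ α * (R ^ (α / 2) * R ^ (α / 2))) :=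
          mul_le_mul_of_nonneg_left h1 (by positivity)
      _ = M * 3 ^ α * R ^ (α / 2) / 2 := by field_simp
  have h3 : R ^ (α / 2 - 1) = R ^ (α / 2) / R := by
    rw [Real.rpow_sub hR0, Real.rpow_one]
  calc K / R * (R ^ (α / 2) / 2 * W + 1 / (2 * R ^ (α / 2)) * g (3 * R))
      ≤ K / R * (R ^ (α / 2) / 2 * W + M * 3 ^ α * R ^ (α / 2) / 2) :=
        mul_le_mul_of_nonneg_left (by linarith) (by positivity)
    _ = (K * (W + M * 3 ^ α) / 2) * R ^ (α / 2 - 1) := by rw [h3]; ring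

/-- a nondecreasing function which satisfies the recursive inequality vanishes -/
theorem Iter_zero {g : ℝ → ℝ} {K W M : ℝ} (hK : 0 ≤ K)
    (h : ∀ R : ℝ, 1 ≤ R → ∀ a : ℝ, 0 < a → g R ≤ K / R * (a / 2 * W + 1 / (2 * a) * g (3 * R)))
    (hM : ∀ R : ℝ, 1 ≤ R → g R ≤ M * R ^ (3 : ℝ)) (hmono : ∀ R S, R ≤ S → g R ≤ g S) :
    ∀ R : ℝ, g R ≤ 0 := by
  have h1 := Iter_step hK h hM
  have h2 := Iter_step hK h h1
  set C : ℝ := K * (W + K * (W + M * 3 ^ (3 : ℝ)) / 2 * 3 ^ ((3 : ℝ) / 2 - 1)) / 2 with hC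
  have h3 : ∀ R : ℝ, 1 ≤ R → g R ≤ C * R ^ (-(3 / 4) : ℝ) := by
    intro R hR
    have := h2 R hR
    rwa [show ((3 : ℝ) / 2 - 1) / 2 - 1 = -(3 / 4) by norm_num] at this
  intro R
  have h4 : Tendsto (fun S : ℝ => C * S ^ (-(3 / 4) : ℝ)) atTop (𝓝 0) := by
    have := (tendsto_rpow_neg_atTop (y := (3 / 4 : ℝ)) (by norm_num)).const_mul C
    rwa [mul_zero] at this
  refine ge_of_tendsto h4 ?_
  filter_upwards [eventually_ge_atTop (max R 1)] with S hS
  exact (hmono R S ((le_max_left _ _).trans hS)).trans (h3 S ((le_max_right _ _).trans hS))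

theorem Iter_grad_le {χ : E3 → ℝ} {C : ℝ} {x : E3} (h : ∀ i, |D i χ x| ≤ C) :
    ‖grad χ x‖ ≤ 2 * C := by
  have hC : 0 ≤ C := (abs_nonneg _).trans (h 0)
  rw [EuclideanSpace.norm_eq, Real.sqrt_le_left (by positivity), Fin.sum_univ_three]
  have e0 : ‖(grad χ x) 0‖ ^ 2 = (D 0 χ x) ^ 2 := by simp [grad]
  have e1 : ‖(grad χ x) 1‖ ^ 2 = (D 1 χ x) ^ 2 := by simp [grad]
  have e2 : ‖(grad χ x) 2‖ ^ 2 = (D 2 χ x) ^ 2 := by simp [grad]
  rw [e0, e1, e2]
  have k := fun i => sq_le_sq.2 ((h i).trans (le_abs_self C))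
  nlinarith [k 0, k 1, k 2, sq_nonneg C]

/-- space-time balls -/
def IterE (R : ℝ) : Set (ℝ × E3) := univ ×ˢ Metric.ball (0 : E3) R

theorem Iter_E_meas (R : ℝ) : MeasurableSet (IterE R) :=
  MeasurableSet.univ.prod Metric.isOpen_ball.measurableSet

theorem Iter_mQ_E (R : ℝ) : mQ (IterE R) = volume (Metric.ball (0 : E3) R) := by
  unfold IterE mQ
  rw [Measure.prod_prod, Measure.restrict_apply_univ, Real.volume_Ioo]
  norm_num

theorem Iter_E_lt (R : ℝ) : mQ (IterE R) < ⊤ := by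
  rw [Iter_mQ_E]
  exact measure_ball_lt_top

theorem hIter : StIter := by
  intro v A hcl hyp
  set Z : ℝ × E3 → ℝ := fun q => iz (om (A q.1) q.2) with hZ
  have hZm : Measurable Z := Iter_iz_meas hcl.gmeas
  have hZ0 : ∀ q, 0 ≤ Z q := fun q => Iter_iz_nonneg _
  have hZ1 : ∀ q, Z q ≤ 1 := fun q => Iter_iz_le _
  have hZi : ∀ R, IntegrableOn Z (IterE R) mQ := by
    intro R
    refine Measure.integrableOn_of_bounded (M := 1) (Iter_E_lt R).ne hZm.aestronglyMeasurable ?_
    exact Eventually.of_forall fun q => by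
      rw [Real.norm_of_nonneg (hZ0 q)]
      exact hZ1 q
  set g : ℝ → ℝ := fun R => ∫ q in IterE R, Z q ∂mQ with hg
  set W : ℝ := ∫ q : ℝ × E3, ‖v q.1 q.2‖ ^ 2 ∂mQ with hW
  have hWi : Integrable (fun q : ℝ × E3 => ‖v q.1 q.2‖ ^ 2) mQ := hcl.int.integrable_norm_pow
    (by norm_num)
  obtain ⟨K, hK, hcut⟩ := exists_cut
  have hmono : ∀ R S, R ≤ S → g R ≤ g S := by
    intro R S hRS
    refine setIntegral_mono_set (hZi S) (Eventually.of_forall hZ0) ?_
    exact LE.le.eventuallyLE (prod_mono le_rfl (Metric.ball_subset_ball hRS))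
  have hM : ∀ R : ℝ, 1 ≤ R → g R ≤ (volume (Metric.ball (0 : E3) 1)).toReal * R ^ (3 : ℝ) := by
    intro R hR
    have h1 : g R ≤ ∫ q in IterE R, (1 : ℝ) ∂mQ :=
      setIntegral_mono (hZi R) (by simpa using (Iter_E_lt R)) hZ1
    refine h1.trans (le_of_eq ?_)
    rw [setIntegral_const, smul_eq_mul, mul_one, measureReal_def, Iter_mQ_E,
      Measure.addHaar_ball _ _ (by linarith), ENNReal.toReal_mul, ENNReal.toReal_ofReal (by positivity),
      mul_comm]
    congr 1
    rw [finrank_euclideanSpace, Fintype.card_fin]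
    norm_cast
  have hrec : ∀ R : ℝ, 1 ≤ R → ∀ a : ℝ, 0 < a →
      g R ≤ K / R * (a / 2 * W + 1 / (2 * a) * g (3 * R)) := by
    intro R hR a ha
    have hR0 : 0 < R := by linarith
    obtain ⟨χ, hχ, hχ01, hχ1⟩ := hcut 0 (2 * R) (by linarith)
    have hgr : ∀ x, ‖grad χ x‖ ≤ K / R := by
      intro x
      have := Iter_grad_le (χ := χ) (x := x) (fun i => hχ.d1 i x)
      refine this.trans (le_of_eq ?_)
      field_simp
    have hgr0 : ∀ x, x ∉ Metric.ball (0 : E3) (3 * R) → grad χ x = 0 := by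
      intro x hx
      rw [Metric.mem_ball, dist_zero_right, not_lt] at hx
      have h1 : ∀ i, D i χ x = 0 := by
        intro i
        have h2 : χ =ᶠ[𝓝 x] fun _ => 0 := by
          have h3 : {y : E3 | 2 * R < ‖y‖} ∈ 𝓝 x :=
            (isOpen_lt continuous_const continuous_norm).mem_nhds (by
              change 2 * R < ‖x‖
              linarith)
          filter_upwards [h3] with y hy
          exact hχ.supp y (by rw [sub_zero]; exact le_of_lt hy)
        unfold D
        rw [h2.fderiv_eq]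
        simp
      unfold grad
      rw [h1 0, h1 1, h1 2]
      ext i
      fin_cases i <;> rfl
    -- the left-hand side
    have hχc : Continuous χ := hχ.cc.smooth.continuous
    have hχi : Integrable χ volume := hχc.integrable_of_hasCompactSupport hχ.cc.comp
    have hfi : Integrable (fun q : ℝ × E3 => χ q.2 * Z q) mQ := by
      have h1 : Integrable (fun q : ℝ × E3 => χ q.2) mQ := hχi.comp_snd _
      refine h1.mul_bdd (c := 1) hZm.aestronglyMeasurable ?_
      exact Eventually.of_forall fun q => by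
        rw [Real.norm_of_nonneg (hZ0 q)]
        exact hZ1 q
    have hL1 : g R ≤ ∫ q, χ q.2 * Z q ∂mQ := by
      rw [hg]
      change ∫ q in IterE R, Z q ∂mQ ≤ _
      rw [← integral_indicator (Iter_E_meas R)]
      refine integral_mono ((hZi R).integrable_indicator (Iter_E_meas R)) hfi ?_
      intro q
      change (IterE R).indicator Z q ≤ χ q.2 * Z q
      by_cases hq : q ∈ IterE R
      · rw [indicator_of_mem hq]
        have h1 : χ q.2 = 1 := by
          refine hχ1 q.2 ?_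
          have : ‖q.2‖ < R := by
            have := hq.2
            rwa [Metric.mem_ball, dist_zero_right] at this
          rw [sub_zero]
          linarith
        rw [h1, one_mul]
      · rw [indicator_of_notMem hq]
        exact mul_nonneg (hχ01 q.2).1 (hZ0 q)
    set I : ℝ := ∫ q : ℝ × E3, ‖v q.1 q.2‖ * ‖grad χ q.2‖ * Z q ∂mQ with hI
    have hL2 : ∫ q, χ q.2 * Z q ∂mQ ≤ I := by
      have h1 : ∫ q, χ q.2 * Z q ∂mQ = ∫ s, ∫ x, χ x * Z (s, x) ∂volume ∂mI :=
        integral_prod _ hfi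
      rw [h1]
      have h2 : ∫ s, I ∂mI = I := by
        rw [integral_const, measureReal_def]
        change (volume.restrict (Ioo (-1 : ℝ) 0) univ).toReal • I = I
        rw [Measure.restrict_apply_univ, Real.volume_Ioo]
        norm_num
      rw [← h2]
      refine integral_mono_ae hfi.integral_prod_left (integrable_const _) ?_
      exact hyp χ hχ.cc (fun x => (hχ01 x).1)
    have hbd : ∀ q : ℝ × E3, ‖v q.1 q.2‖ * ‖grad χ q.2‖ * Z q ≤
        K / R * (a / 2 * ‖v q.1 q.2‖ ^ 2 + 1 / (2 * a) * (IterE (3 * R)).indicator Z q) := by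
      intro q
      have hKR : 0 ≤ K / R := by positivity
      by_cases hq : q ∈ IterE (3 * R)
      · rw [indicator_of_mem hq]
        have h1 : ‖v q.1 q.2‖ * ‖grad χ q.2‖ * Z q ≤ ‖v q.1 q.2‖ * (K / R) * Z q := by
          gcongr
          · exact hZ0 q
          · exact hgr q.2
        refine h1.trans ?_
        have h2 : ‖v q.1 q.2‖ * Z q ≤ a / 2 * ‖v q.1 q.2‖ ^ 2 + 1 / (2 * a) * Z q := by
          have h3 : Z q ^ 2 ≤ Z q := by
            have := mul_le_mul_of_nonneg_left (hZ1 q) (hZ0 q)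
            rw [mul_one] at this
            rw [pow_two]
            exact this
          have h4 : 0 ≤ (a * ‖v q.1 q.2‖ - Z q) ^ 2 / (2 * a) := by positivity
          have h5 : (a * ‖v q.1 q.2‖ - Z q) ^ 2 / (2 * a) =
              a / 2 * ‖v q.1 q.2‖ ^ 2 - ‖v q.1 q.2‖ * Z q + 1 / (2 * a) * Z q ^ 2 := by
            field_simp
            ring
          have h6 : 1 / (2 * a) * Z q ^ 2 ≤ 1 / (2 * a) * Z q :=
            mul_le_mul_of_nonneg_left h3 (by positivity)
          linarith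
        calc ‖v q.1 q.2‖ * (K / R) * Z q = K / R * (‖v q.1 q.2‖ * Z q) := by ring
          _ ≤ _ := mul_le_mul_of_nonneg_left h2 hKR
      · rw [indicator_of_notMem hq, hgr0 q.2 (fun h => hq ⟨mem_univ _, h⟩), norm_zero]
        have : 0 ≤ K / R * (a / 2 * ‖v q.1 q.2‖ ^ 2 + 1 / (2 * a) * 0) := by positivity
        linarith
    have hri : Integrable (fun q : ℝ × E3 => K / R * (a / 2 * ‖v q.1 q.2‖ ^ 2 +
        1 / (2 * a) * (IterE (3 * R)).indicator Z q)) mQ :=
      ((hWi.const_mul _).add (((hZi (3 * R)).integrable_indicator (Iter_E_meas _)).const_mul _)).const_mul _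
    have hR1 : I ≤ K / R * (a / 2 * W + 1 / (2 * a) * g (3 * R)) := by
      have h1 : I ≤ ∫ q : ℝ × E3, K / R * (a / 2 * ‖v q.1 q.2‖ ^ 2 +
          1 / (2 * a) * (IterE (3 * R)).indicator Z q) ∂mQ :=
        integral_mono_of_nonneg (Eventually.of_forall fun q =>
          mul_nonneg (mul_nonneg (norm_nonneg _) (norm_nonneg _)) (hZ0 q)) hri
          (Eventually.of_forall hbd)
      refine h1.trans (le_of_eq ?_)
      rw [integral_const_mul, integral_add (hWi.const_mul _)
        (((hZi (3 * R)).integrable_indicator (Iter_E_meas _)).const_mul _),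
        integral_const_mul, integral_const_mul, integral_indicator (Iter_E_meas _)]
    exact hL1.trans (hL2.trans hR1)
  have hz := Iter_zero hK.le hrec hM hmono
  -- conclusion
  have h1 : ∀ n : ℕ, ∀ᵐ q ∂mQ, q ∈ IterE n → Z q = 0 := by
    intro n
    have h2 : ∫ q in IterE n, Z q ∂mQ = 0 :=
      le_antisymm (hz n) (setIntegral_nonneg (Iter_E_meas _) fun q _ => hZ0 q)
    have h3 := (setIntegral_eq_zero_iff_of_nonneg_ae (Eventually.of_forall hZ0) (hZi n)).1 h2
    exact (ae_restrict_iff' (Iter_E_meas _)).1 h3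
  have h2 : ∀ᵐ q ∂mQ, Z q = 0 := by
    filter_upwards [ae_all_iff.2 h1] with q hq
    obtain ⟨n, hn⟩ := exists_nat_gt ‖q.2‖
    exact hq n ⟨mem_univ _, by rwa [Metric.mem_ball, dist_zero_right]⟩
  have h3 : ∀ᵐ s ∂mI, ∀ᵐ x, Z (s, x) = 0 := Measure.ae_ae_of_ae_prod h2
  filter_upwards [h3] with s hs
  filter_upwards [hs] with x hx
  change iz (om (A s) x) = 0 at hx
  change om (A s) x = 0
  by_contra hne
  unfold iz at hx
  rw [if_neg hne] at hx
  exact one_ne_zero hx

end Pool.Agent.Helper83.CR
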