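import Pool.Agent.Helper83.CR.M_Ha

set_option autoImplicit false

open MeasureTheory Set Filter Topology
open scoped ENNReal ContDiff

noncomputable section

namespace Pool.Agent.Helper83.CR

open Pool.Agent.Helper52.NSE (E3 pd divg TestField MemH1s MemL2s IsWeakSolution gradSq kin
  IsSmoothBoundedDomain)
open Pool.Agent.Helper60
open Pool.Agent.Helper60.EC (D Cc curl grad cr ip sq nl adv sm gsq fn Hs)

theorem Kap_om_meas {A : ℝ → Fin 3 → E3 → E3}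
    (h : ∀ i, Measurable fun q : ℝ × E3 => A q.1 i q.2) :
    Measurable fun q : ℝ × E3 => om (A q.1) q.2 := by
  have hc : ∀ i k : Fin 3, Measurable (fun q : ℝ × E3 => (A q.1 i q.2) k) := fun i k =>
    (EuclideanSpace.proj (𝕜 := ℝ) k : E3 →L[ℝ] ℝ).continuous.measurable.comp (h i)
  have h1 : Measurable (fun p : Fin 3 → ℝ => (WithLp.toLp 2 p : E3)) :=
    (WithLp.measurable_toLp 2 _)
  have h2 : Measurable (fun q : ℝ × E3 => (![(A q.1 1 q.2) 2 - (A q.1 2 q.2) 1,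
      (A q.1 2 q.2) 0 - (A q.1 0 q.2) 2, (A q.1 0 q.2) 1 - (A q.1 1 q.2) 0] : Fin 3 → ℝ)) := by
    refine measurable_pi_lambda _ fun i => ?_
    fin_cases i
    · exact (hc 1 2).sub (hc 2 1)
    · exact (hc 2 0).sub (hc 0 2)
    · exact (hc 0 1).sub (hc 1 0)
  exact h1.comp h2

theorem Kap_snd {g : E3 → ℝ} (hg : Integrable g volume) :
    Integrable (fun q : ℝ × E3 => g q.2) mQ := by
  have : IsFiniteMeasure mI := by infer_instance
  exact hg.comp_snd mI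

theorem Kap_A_int {v : ℝ → E3 → E3} {A : ℝ → Fin 3 → E3 → E3} (hE : Cls v A) :
    Integrable (fun q : ℝ × E3 => ∑ i, ‖A q.1 i q.2‖ ^ 2) mQ :=
  integrable_finsetSum _ fun i _ =>
    (memLp_two_iff_integrable_sq_norm (hE.gint i).1).1 (hE.gint i)

theorem Kap_v_int {v : ℝ → E3 → E3} {A : ℝ → Fin 3 → E3 → E3} (hE : Cls v A) :
    Integrable (fun q : ℝ × E3 => ‖v q.1 q.2‖ ^ 2) mQ :=
  (memLp_two_iff_integrable_sq_norm hE.int.1).1 hE.int

theorem Kap_I1 {v : ℝ → E3 → E3} {A : ℝ → Fin 3 → E3 → E3} (hE : Cls v A) {φ : E3 → ℝ}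
    (hφ : Cc φ) : Integrable (fun q : ℝ × E3 => ‖v q.1 q.2‖ * ‖grad φ q.2‖ *
      (1 + ‖om (A q.1) q.2‖)) mQ := by
  have hg : Cc (grad φ) := EC.cc_grad hφ
  obtain ⟨M, hM0, hM⟩ := Ha_bdd hg
  have hg2 : Integrable (fun x => ‖grad φ x‖ ^ 2) volume :=
    EC.Calc2b_int (EC.cc_memLp hg 2)
  have hb : Integrable (fun q : ℝ × E3 => (‖v q.1 q.2‖ ^ 2 + ‖grad φ q.2‖ ^ 2) +
      M ^ 2 * (2 * ∑ i, ‖A q.1 i q.2‖ ^ 2)) mQ :=
    ((Kap_v_int hE).add (Kap_snd hg2)).add (((Kap_A_int hE).const_mul 2).const_mul _)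
  have hm : AEStronglyMeasurable (fun q : ℝ × E3 => ‖v q.1 q.2‖ * ‖grad φ q.2‖ *
      (1 + ‖om (A q.1) q.2‖)) mQ := by
    have h1 : Measurable fun q : ℝ × E3 => ‖v q.1 q.2‖ := hE.meas.norm
    have h2 : Measurable fun q : ℝ × E3 => ‖grad φ q.2‖ :=
      (hg.smooth.continuous.measurable.comp measurable_snd).norm
    have h3 : Measurable fun q : ℝ × E3 => ‖om (A q.1) q.2‖ := (Kap_om_meas hE.gmeas).norm
    exact ((h1.mul h2).mul (measurable_const.add h3)).aestronglyMeasurable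
  refine hb.mono' hm (Eventually.of_forall fun q => ?_)
  have hn : 0 ≤ ‖v q.1 q.2‖ * ‖grad φ q.2‖ * (1 + ‖om (A q.1) q.2‖) := by positivity
  rw [Real.norm_of_nonneg hn]
  have h1 : ‖om (A q.1) q.2‖ ^ 2 ≤ 2 * ∑ i, ‖A q.1 i q.2‖ ^ 2 := Ha_om_sq (A q.1) q.2
  have h2 : ‖grad φ q.2‖ ≤ M := hM q.2
  set a := ‖v q.1 q.2‖
  set b := ‖grad φ q.2‖
  set c := ‖om (A q.1) q.2‖
  have hb0 : 0 ≤ b := norm_nonneg _
  have hc0 : 0 ≤ c := norm_nonneg _
  have h3 : b ^ 2 * c ^ 2 ≤ M ^ 2 * (2 * ∑ i, ‖A q.1 i q.2‖ ^ 2) :=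
    mul_le_mul (pow_le_pow_left₀ hb0 h2 2) h1 (by positivity) (by positivity)
  nlinarith [sq_nonneg (a - b), sq_nonneg (a - b * c)]

theorem Kap_I2 {v : ℝ → E3 → E3} {A : ℝ → Fin 3 → E3 → E3} (hE : Cls v A) {φ : E3 → ℝ}
    (hφ : Cc φ) (hφ0 : ∀ x, 0 ≤ φ x) : Integrable (fun q : ℝ × E3 => φ q.2 *
      Real.sqrt (∑ i, ‖A q.1 i q.2‖ ^ 2)) mQ := by
  have hφ2 : Integrable (fun x => ‖φ x‖ ^ 2) volume := by
    have h := EC.cc_memLp hφ 2
    exact (memLp_two_iff_integrable_sq_norm h.1).1 h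
  have hb : Integrable (fun q : ℝ × E3 => ‖φ q.2‖ ^ 2 + ∑ i, ‖A q.1 i q.2‖ ^ 2) mQ :=
    (Kap_snd hφ2).add (Kap_A_int hE)
  have hm : AEStronglyMeasurable (fun q : ℝ × E3 => φ q.2 *
      Real.sqrt (∑ i, ‖A q.1 i q.2‖ ^ 2)) mQ := by
    have h1 : Measurable fun q : ℝ × E3 => φ q.2 :=
      hφ.smooth.continuous.measurable.comp measurable_snd
    have h2 : Measurable fun q : ℝ × E3 => ∑ i, ‖A q.1 i q.2‖ ^ 2 :=
      Finset.measurable_sum _ fun i _ => (hE.gmeas i).norm.pow_const 2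
    exact (h1.mul (Real.continuous_sqrt.measurable.comp h2)).aestronglyMeasurable
  refine hb.mono' hm (Eventually.of_forall fun q => ?_)
  have hn : 0 ≤ φ q.2 * Real.sqrt (∑ i, ‖A q.1 i q.2‖ ^ 2) :=
    mul_nonneg (hφ0 _) (Real.sqrt_nonneg _)
  rw [Real.norm_of_nonneg hn]
  have hs : Real.sqrt (∑ i, ‖A q.1 i q.2‖ ^ 2) ^ 2 = ∑ i, ‖A q.1 i q.2‖ ^ 2 :=
    Real.sq_sqrt (Finset.sum_nonneg fun i _ => by positivity)
  have h1 : ‖φ q.2‖ = φ q.2 := Real.norm_of_nonneg (hφ0 _)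
  rw [h1]
  set T := Real.sqrt (∑ i, ‖A q.1 i q.2‖ ^ 2) with hT
  nlinarith [sq_nonneg (φ q.2 - T), sq_nonneg (φ q.2), sq_nonneg T]

theorem hKap (h₁ : StEps) (h₂ : StBt) (_h₃ : StFu) : StKap := by
  intro v A hE φ hφ hφ0
  obtain ⟨hb, hlim⟩ := h₂
  have hC : Cls v A := hE.toCls
  set κ : ℕ → ℝ := fun n => 1 / ((n : ℝ) + 3) with hκd
  set L : ℕ → ℝ := fun n => Real.log ((n : ℝ) + 3) with hLd
  have hκ : ∀ n, 0 < κ n := fun n => by positivity
  have hκ3 : ∀ n, κ n ≤ 1 / 3 := fun n => by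
    refine one_div_le_one_div_of_le (by norm_num) ?_
    have : (0 : ℝ) ≤ n := Nat.cast_nonneg n
    linarith
  have hL1 : ∀ n, 1 ≤ L n := fun n => by
    have hn : (0 : ℝ) ≤ n := Nat.cast_nonneg n
    rw [hLd]
    simp only
    rw [Real.le_log_iff_exp_le (by positivity)]
    have := Real.exp_one_lt_d9
    linarith
  have hLpos : ∀ n, 0 < L n := fun n => lt_of_lt_of_le one_pos (hL1 n)
  have hLκ : ∀ n, Real.log (1 / κ n) = L n := fun n => by
    simp only [hκd, hLd, one_div_one_div]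
  have hLtop : Tendsto L atTop atTop := by
    refine Real.tendsto_log_atTop.comp ?_
    exact tendsto_atTop_add_const_right _ _ tendsto_natCast_atTop_atTop
  have hbd : ∀ n y, bt (κ n) y / L n ≤ 1 + ‖y‖ := fun n y => by
    rw [div_le_iff₀ (hLpos n)]
    have h := (hb (κ n) (hκ n)).2.2.2.2.2.2.2 (hκ3 n) y
    rw [hLκ n] at h
    linarith
  have hbn : ∀ n y, 0 ≤ bt (κ n) y / L n := fun n y =>
    div_nonneg ((hb (κ n) (hκ n)).1 y) (hLpos n).le
  have hEps := fun n => h₁ v A hE (κ n) (hκ n) φ hφ hφ0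
  -- the right-hand side
  have hR : Tendsto (fun n => ∫ q : ℝ × E3, rl (κ n) φ (A q.1) (v q.1) q.2 / L n ∂mQ) atTop
      (𝓝 (∫ q : ℝ × E3, ‖v q.1 q.2‖ * ‖grad φ q.2‖ * iz (om (A q.1) q.2) ∂mQ)) := by
    refine tendsto_integral_of_dominated_convergence (fun q : ℝ × E3 =>
      ‖v q.1 q.2‖ * ‖grad φ q.2‖ * (1 + ‖om (A q.1) q.2‖) +
        φ q.2 * Real.sqrt (∑ i, ‖A q.1 i q.2‖ ^ 2)) (fun n => ((hEps n).1.div_const _).1)
      ((Kap_I1 hC hφ).add (Kap_I2 hC hφ hφ0)) (fun n => Eventually.of_forall fun q => ?_)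
      (Eventually.of_forall fun q => ?_)
    · have e : rl (κ n) φ (A q.1) (v q.1) q.2 / L n =
          ‖v q.1 q.2‖ * ‖grad φ q.2‖ * (bt (κ n) (om (A q.1) q.2) / L n) +
            φ q.2 * Real.sqrt (∑ i, ‖A q.1 i q.2‖ ^ 2) / L n := by
        unfold rl; ring
      have h2 : 0 ≤ φ q.2 * Real.sqrt (∑ i, ‖A q.1 i q.2‖ ^ 2) :=
        mul_nonneg (hφ0 _) (Real.sqrt_nonneg _)
      have h3 : 0 ≤ ‖v q.1 q.2‖ * ‖grad φ q.2‖ * (bt (κ n) (om (A q.1) q.2) / L n) :=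
        mul_nonneg (by positivity) (hbn n _)
      rw [e, Real.norm_of_nonneg (add_nonneg h3 (div_nonneg h2 (hLpos n).le))]
      refine add_le_add (mul_le_mul_of_nonneg_left (hbd n _) (by positivity)) ?_
      exact div_le_self h2 (hL1 n)
    · have e : ∀ n, rl (κ n) φ (A q.1) (v q.1) q.2 / L n =
          ‖v q.1 q.2‖ * ‖grad φ q.2‖ * (bt (κ n) (om (A q.1) q.2) / L n) +
            φ q.2 * Real.sqrt (∑ i, ‖A q.1 i q.2‖ ^ 2) / L n := fun n => by
        unfold rl; ring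
      simp only [e]
      have h1 : Tendsto (fun n => ‖v q.1 q.2‖ * ‖grad φ q.2‖ *
          (bt (κ n) (om (A q.1) q.2) / L n)) atTop
          (𝓝 (‖v q.1 q.2‖ * ‖grad φ q.2‖ * iz (om (A q.1) q.2))) :=
        (hlim (om (A q.1) q.2)).const_mul _
      have h2 : Tendsto (fun n => φ q.2 * Real.sqrt (∑ i, ‖A q.1 i q.2‖ ^ 2) / L n) atTop
          (𝓝 0) := hLtop.const_div_atTop _
      simpa using h1.add h2
  -- the left-hand side
  have hall : ∀ᵐ s ∂mI, ∀ n, ∫ x, φ x * bt (κ n) (om (A s) x) ≤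
      ∫ q : ℝ × E3, rl (κ n) φ (A q.1) (v q.1) q.2 ∂mQ := ae_all_iff.2 fun n => (hEps n).2
  filter_upwards [hall, hC.h1] with s hs hH
  have ho2 : MemLp (om (A s)) 2 volume := Ha_om_memLp hH.gl2
  have hφ1 : Integrable φ volume :=
    hφ.smooth.continuous.integrable_of_hasCompactSupport hφ.comp
  have hφ2 : MemLp φ 2 volume := EC.cc_memLp hφ 2
  have hbtc : ∀ n, Continuous (bt (κ n)) := fun n =>
    continuous_iff_continuousAt.2 fun y =>
      ((hb (κ n) (hκ n)).2.2.2.2.2.2.1 y).continuousAt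
  have hLt : Tendsto (fun n => ∫ x, φ x * (bt (κ n) (om (A s) x) / L n)) atTop
      (𝓝 (∫ x, φ x * iz (om (A s) x))) := by
    refine tendsto_integral_of_dominated_convergence (fun x => φ x + ‖φ x‖ * ‖om (A s) x‖)
      (fun n => ?_) (hφ1.add (hφ2.norm.integrable_mul ho2.norm))
      (fun n => Eventually.of_forall fun x => ?_) (Eventually.of_forall fun x => ?_)
    · refine hφ.smooth.continuous.aestronglyMeasurable.mul ?_
      have h := (hbtc n).comp_aestronglyMeasurable ho2.1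
      simpa only [div_eq_mul_inv, Function.comp_def] using h.mul_const (L n)⁻¹
    · have h3 : 0 ≤ φ x * (bt (κ n) (om (A s) x) / L n) := mul_nonneg (hφ0 _) (hbn n _)
      rw [Real.norm_of_nonneg h3, Real.norm_of_nonneg (hφ0 x)]
      have := mul_le_mul_of_nonneg_left (hbd n (om (A s) x)) (hφ0 x)
      linarith
    · exact (hlim (om (A s) x)).const_mul _
  refine le_of_tendsto_of_tendsto' hLt hR fun n => ?_
  have e1 : ∫ x, φ x * (bt (κ n) (om (A s) x) / L n) =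
      (∫ x, φ x * bt (κ n) (om (A s) x)) / L n := by
    rw [← integral_div]
    refine integral_congr_ae (Eventually.of_forall fun x => ?_)
    simp only
    ring
  rw [e1, integral_div]
  exact div_le_div_of_nonneg_right (hs n) (hLpos n).le

end Pool.Agent.Helper83.CR
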