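import Pool.Agent.Helper83.CR.St

/-! # Project CR, module LV -/

set_option autoImplicit false

open MeasureTheory Set Filter Topology
open scoped ENNReal ContDiff

noncomputable section

namespace Pool.Agent.Helper83.CR

open Pool.Agent.Helper52.NSE (E3 pd divg TestField)
open Pool.Agent.Helper60.EC (D Cc curl grad cr ip sq nl adv sm gsq fn Hs)

theorem hLV (h₁ : StKap) (h₂ : StIter) (h₃ : StZero) : StLV := by
  intro v A h
  have h4 := h₂ v A h.toCls (fun φ hφ h0 => h₁ v A h φ hφ h0)
  filter_upwards [h.h1, h.div, h4] with t ht1 ht2 ht3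
  exact h₃ (v t) (A t) ht1 ht3 ht2

end Pool.Agent.Helper83.CR
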