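import Pool.Agent.Helper83.CR.St
import Pool.Agent.Helper60.EC.G1b
import Pool.Agent.Helper7.NT.Sob

/-!
# Project CR, module Lady: Ladyzhenskaya's inequality
-/

set_option autoImplicit false

open MeasureTheory Set Filter Topology
open scoped ENNReal ContDiff

noncomputable section

namespace Pool.Agent.Helper83.CR

open Pool.Agent.Helper52.NSE (E3 pd divg TestField MemH1s MemL2s IsWeakSolution gradSq kin
  IsSmoothBoundedDomain le_of_eps fderiv_le_sum)
open Pool.Agent.Helper60.EC (D Cc curl grad cr ip sq nl adv sm gsq fn Hs cc_memLp cc_D G1b_sq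
  D_smooth)

/-- Sobolev for smooth compactly supported fields -/
theorem Lady_cc : ∃ K : NNReal, ∀ φ : E3 → E3, Cc φ →
    eLpNorm φ 6 volume ≤ K * ∑ i, eLpNorm (D i φ) 2 volume := by
  refine ⟨eLpNormLESNormFDerivOfEqInnerConst (volume : Measure E3) (2 : NNReal), fun φ hφ => ?_⟩
  have hfr : Module.finrank ℝ E3 = 3 := by simp
  have h1 : eLpNorm φ ((6 : NNReal) : ℝ≥0∞) volume ≤
      eLpNormLESNormFDerivOfEqInnerConst (volume : Measure E3) (2 : NNReal) *
        eLpNorm (fderiv ℝ φ) ((2 : NNReal) : ℝ≥0∞) volume := by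
    refine eLpNorm_le_eLpNorm_fderiv_of_eq_inner volume (hφ.smooth.of_le (by exact_mod_cast le_top))
      hφ.comp (by norm_num) (by rw [hfr]; norm_num) ?_
    rw [hfr]
    norm_num
  refine h1.trans ?_
  refine mul_le_mul_right ?_ _
  have h3 : eLpNorm (fderiv ℝ φ) 2 volume ≤
      eLpNorm (∑ i : Fin 3, fun x => ‖D i φ x‖) 2 volume := by
    refine eLpNorm_mono fun x => ?_
    have h2 : (∑ i : Fin 3, fun x => ‖D i φ x‖) x = ∑ i, ‖D i φ x‖ := by
      rw [Finset.sum_apply]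
    rw [h2, Real.norm_of_nonneg (Finset.sum_nonneg fun i _ => norm_nonneg _)]
    exact fderiv_le_sum φ x
  refine h3.trans ((eLpNorm_sum_le (fun i _ =>
    (D_smooth hφ.smooth i).continuous.norm.aestronglyMeasurable) (by norm_num)).trans ?_)
  refine Finset.sum_le_sum fun i _ => le_of_eq ?_
  rw [eLpNorm_norm]

/-- convergence of the squares of the norms gives convergence of the norms -/
theorem Lady_conv {f : ℕ → E3 → E3} {g : E3 → E3} (hf : ∀ n, MemLp (f n) 2 volume)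
    (hg : MemLp g 2 volume) (h : Tendsto (fun n => sq (fun x => f n x - g x)) atTop (𝓝 0)) :
    Tendsto (fun n => eLpNorm (f n - g) 2 volume) atTop (𝓝 0) := by
  have h1 : ∀ n, eLpNorm (f n - g) 2 volume =
      ENNReal.ofReal (Real.sqrt (sq (fun x => f n x - g x))) := by
    intro n
    have hd : MemLp (fun x => f n x - g x) 2 volume := (hf n).sub hg
    have h5 : sq (fun x => f n x - g x) =
      (eLpNorm (fun x => f n x - g x) 2 volume).toReal ^ 2 := G1b_sq hd
    rw [h5, Real.sqrt_sq ENNReal.toReal_nonneg, ENNReal.ofReal_toReal hd.2.ne]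
    rfl
  simp_rw [h1]
  have h2 : Tendsto (fun n => Real.sqrt (sq (fun x => f n x - g x))) atTop (𝓝 (Real.sqrt 0)) :=
    (Real.continuous_sqrt.tendsto 0).comp h
  have h3 := ENNReal.tendsto_ofReal h2
  simpa using h3

/-- Sobolev for `H¹` -/
theorem Lady_h1 (hA : StApx) {K : NNReal} (hK : ∀ φ : E3 → E3, Cc φ →
    eLpNorm φ 6 volume ≤ K * ∑ i, eLpNorm (D i φ) 2 volume)
    {w : E3 → E3} {A : Fin 3 → E3 → E3} (hw : H1 w A) :
    eLpNorm w 6 volume ≤ K * ∑ i, eLpNorm (A i) 2 volume := by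
  obtain ⟨φ, hφ, hφ1, hφ2⟩ := hA w A hw
  have m1 : ∀ n, MemLp (φ n) 2 volume := fun n => cc_memLp (hφ n) 2
  have m2 : ∀ n i, MemLp (D i (φ n)) 2 volume := fun n i => cc_memLp (cc_D (hφ n) i) 2
  have c1 := Lady_conv m1 hw.l2 hφ1
  have c2 : ∀ i, Tendsto (fun n => eLpNorm (D i (φ n) - A i) 2 volume) atTop (𝓝 0) :=
    fun i => Lady_conv (fun n => m2 n i) (hw.gl2 i) (hφ2 i)
  have hmeas : TendstoInMeasure volume φ atTop w :=
    tendstoInMeasure_of_tendsto_eLpNorm (p := 2) (by norm_num)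
      (fun n => (m1 n).1) hw.l2.1 c1
  obtain ⟨ns, hns, hae⟩ := hmeas.exists_seq_tendsto_ae
  have hfat := Lp.eLpNorm_lim_le_liminf_eLpNorm (p := 6)
    (fun n => (m1 (ns n)).1) w hae
  refine hfat.trans ?_
  refine le_of_eps (D := K * 3) (by finiteness) fun ε hε => ?_
  have hev : ∀ᶠ n in atTop, eLpNorm (φ (ns n)) 6 volume ≤
      K * ∑ i, eLpNorm (A i) 2 volume + K * 3 * ε := by
    have h1 : ∀ᶠ n in atTop, ∀ i, eLpNorm (D i (φ (ns n)) - A i) 2 volume < ε :=
      eventually_all.2 fun i =>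
        ((c2 i).comp hns.tendsto_atTop).eventually_lt_const hε
    filter_upwards [h1] with n hn
    refine (hK _ (hφ (ns n))).trans ?_
    have h2 : ∀ i, eLpNorm (D i (φ (ns n))) 2 volume ≤ eLpNorm (A i) 2 volume + ε := by
      intro i
      have h3 : D i (φ (ns n)) = A i + (D i (φ (ns n)) - A i) := by
        funext x
        simp
      rw [h3]
      refine (eLpNorm_add_le (hw.gl2 i).1 ((m2 _ i).1.sub (hw.gl2 i).1) (by norm_num)).trans ?_
      exact add_le_add le_rfl (hn i).le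
    calc (K : ℝ≥0∞) * ∑ i, eLpNorm (D i (φ (ns n))) 2 volume
        ≤ K * ∑ i : Fin 3, (eLpNorm (A i) 2 volume + ε) :=
          mul_le_mul_right (Finset.sum_le_sum fun i _ => h2 i) _
      _ = K * ∑ i, eLpNorm (A i) 2 volume + K * 3 * ε := by
          rw [Finset.sum_add_distrib, mul_add, Finset.sum_const, Finset.card_univ,
            Fintype.card_fin, nsmul_eq_mul, mul_assoc]
          rfl
  exact liminf_le_of_frequently_le' hev.frequently

theorem Lady_gs {A : Fin 3 → E3 → E3} (hA : ∀ i, MemLp (A i) 2 volume) (i : Fin 3) :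
    eLpNorm (A i) 2 volume ≤ ENNReal.ofReal (Real.sqrt (gs A)) := by
  have h1 : eLpNorm (A i) 2 volume = ENNReal.ofReal (Real.sqrt (sq (A i))) := by
    have h5 : sq (A i) = (eLpNorm (A i) 2 volume).toReal ^ 2 := G1b_sq (hA i)
    rw [h5, Real.sqrt_sq ENNReal.toReal_nonneg, ENNReal.ofReal_toReal (hA i).2.ne]
  rw [h1]
  refine ENNReal.ofReal_le_ofReal (Real.sqrt_le_sqrt ?_)
  have hint : ∀ j, Integrable (fun x => ‖A j x‖ ^ 2) volume := fun j =>
    (hA j).integrable_norm_pow (by norm_num)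
  unfold Pool.Agent.Helper60.EC.sq gs
  refine integral_mono (hint i) (integrable_finset_sum _ fun j _ => hint j) fun x => ?_
  exact Finset.single_le_sum (f := fun j => ‖A j x‖ ^ 2) (fun j _ => by positivity)
    (Finset.mem_univ i)

theorem hLady (h : StApx) : StLady := by
  obtain ⟨K, hK⟩ := Lady_cc
  obtain ⟨L, hL⟩ : ∃ L : ℝ, L = 3 * ((K : ℝ) + 1) := ⟨_, rfl⟩
  have hLpos : 0 < L := by rw [hL]; positivity
  refine ⟨L ^ (3 / 2 : ℝ), by positivity, fun w A hw => ?_⟩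
  have hs := Real.sqrt_nonneg (gs A)
  have hg0 : 0 ≤ gs A := integral_nonneg fun x => Finset.sum_nonneg fun i _ => by positivity
  have hq0 : 0 ≤ sq w := integral_nonneg fun x => by positivity
  have e6 : eLpNorm w 6 volume ≤ ENNReal.ofReal (L * Real.sqrt (gs A)) := by
    refine (Lady_h1 h hK hw).trans ?_
    calc (K : ℝ≥0∞) * ∑ i, eLpNorm (A i) 2 volume
        ≤ K * ∑ _i : Fin 3, ENNReal.ofReal (Real.sqrt (gs A)) :=
          mul_le_mul_right (Finset.sum_le_sum fun i _ => Lady_gs hw.gl2 i) _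
      _ = ENNReal.ofReal (3 * (K : ℝ) * Real.sqrt (gs A)) := by
          rw [Finset.sum_const, Finset.card_univ, Fintype.card_fin, nsmul_eq_mul,
            ENNReal.ofReal_mul (by positivity), ENNReal.ofReal_mul (by norm_num),
            ENNReal.ofReal_coe_nnreal, ← mul_assoc, mul_comm (K : ℝ≥0∞)]
          congr 2
          norm_num
      _ ≤ ENNReal.ofReal (L * Real.sqrt (gs A)) := by
          refine ENNReal.ofReal_le_ofReal (mul_le_mul_of_nonneg_right ?_ hs)
          rw [hL]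
          linarith
  have m6 : MemLp w 6 volume := ⟨hw.l2.1, e6.trans_lt ENNReal.ofReal_lt_top⟩
  have i6 : Integrable (fun x => ‖w x‖ ^ 6) volume := by
    have := m6.integrable_norm_pow (by norm_num)
    simpa using this
  have i2 : Integrable (fun x => ‖w x‖ ^ 2) volume := hw.l2.integrable_norm_pow (by norm_num)
  have i4 : Integrable (fun x => ‖w x‖ ^ 4) volume := by
    refine (i2.add i6).mono' (hw.l2.1.norm.pow 4) (ae_of_all _ fun x => ?_)
    rw [Real.norm_of_nonneg (by positivity)]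
    have h0 := norm_nonneg (w x)
    show ‖w x‖ ^ 4 ≤ ‖w x‖ ^ 2 + ‖w x‖ ^ 6
    nlinarith [sq_nonneg (‖w x‖ ^ 2 - 1), mul_nonneg (pow_nonneg h0 2) (sq_nonneg (‖w x‖ ^ 2 - 1)),
      pow_nonneg h0 2, pow_nonneg h0 6]
  refine ⟨i4, ?_⟩
  -- the sixth power
  have b6 : ∫ x, ‖w x‖ ^ 6 ≤ (L * Real.sqrt (gs A)) ^ 6 := by
    have h1 : eLpNorm w 6 volume = ENNReal.ofReal ((∫ x, ‖w x‖ ^ (6 : ℝ)) ^ (6⁻¹ : ℝ)) := by
      have := m6.eLpNorm_eq_integral_rpow_norm (by norm_num) (by norm_num)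
      simpa using this
    rw [h1] at e6
    have h2 : ∀ x, ‖w x‖ ^ (6 : ℝ) = ‖w x‖ ^ 6 := fun x => by
      rw [← Real.rpow_natCast]
      norm_num
    simp_rw [h2] at e6
    have h3 : 0 ≤ ∫ x, ‖w x‖ ^ 6 := integral_nonneg fun x => by positivity
    rw [ENNReal.ofReal_le_ofReal_iff (by positivity)] at e6
    have h4 : ∫ x, ‖w x‖ ^ 6 = ((∫ x, ‖w x‖ ^ 6) ^ (6⁻¹ : ℝ)) ^ 6 := by
      rw [← Real.rpow_natCast, ← Real.rpow_mul h3]
      norm_num
    rw [h4]
    exact pow_le_pow_left₀ (by positivity) e6 6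
  -- Hölder
  have hold : ∫ x, ‖w x‖ ^ 4 ≤ (sq w) ^ (1 / 2 : ℝ) * (∫ x, ‖w x‖ ^ 6) ^ (1 / 2 : ℝ) := by
    have mf : MemLp (fun x => ‖w x‖) (ENNReal.ofReal 2) volume := by
      have := hw.l2.norm
      simpa using this
    have mg : MemLp (fun x => ‖w x‖ ^ 3) (ENNReal.ofReal 2) volume := by
      have h1 : MemLp (fun x => ‖w x‖ ^ 3) 2 volume := by
        refine (memLp_two_iff_integrable_sq (f := fun x => ‖w x‖ ^ 3) (hw.l2.1.norm.pow 3)).2 ?_
        refine i6.congr (ae_of_all _ fun x => ?_)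
        ring
      simpa using h1
    have h1 := integral_mul_le_Lp_mul_Lq_of_nonneg (μ := (volume : Measure E3)) (p := 2) (q := 2)
      (f := fun x => ‖w x‖) (g := fun x => ‖w x‖ ^ 3)
      (Real.HolderConjugate.two_two)
      (ae_of_all _ fun x => norm_nonneg _) (ae_of_all _ fun x => by positivity) mf mg
    have h2 : ∀ x, ‖w x‖ * ‖w x‖ ^ 3 = ‖w x‖ ^ 4 := fun x => by ring
    have h3 : ∀ x, ‖w x‖ ^ (2 : ℝ) = ‖w x‖ ^ 2 := fun x => by
      rw [← Real.rpow_natCast]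
      norm_num
    have h4 : ∀ x, (‖w x‖ ^ 3) ^ (2 : ℝ) = ‖w x‖ ^ 6 := fun x => by
      rw [← Real.rpow_natCast, ← Real.rpow_natCast, ← Real.rpow_mul (norm_nonneg _)]
      norm_num
    simp_rw [h2, h3, h4] at h1
    exact h1
  have hfin : ∫ x, ‖w x‖ ^ 4 ≤ ((sq w) ^ (1 / 4 : ℝ) * (L ^ (3 / 2 : ℝ) * (gs A) ^ (3 / 4 : ℝ))) ^ 2 := by
    refine hold.trans ?_
    have h1 : (∫ x, ‖w x‖ ^ 6) ^ (1 / 2 : ℝ) ≤ (L ^ (3 / 2 : ℝ) * (gs A) ^ (3 / 4 : ℝ)) ^ 2 := by
      refine (Real.rpow_le_rpow (integral_nonneg fun x => by positivity) b6 (by norm_num)).trans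
        (le_of_eq ?_)
      rw [← Real.sqrt_eq_rpow, mul_pow, mul_pow]
      have e1 : Real.sqrt (gs A) ^ 6 = (gs A) ^ 3 := by
        rw [show (6 : ℕ) = 2 * 3 from rfl, pow_mul, Real.sq_sqrt hg0]
      have e2 : (L ^ (3 / 2 : ℝ)) ^ 2 = L ^ 3 := by
        rw [← Real.rpow_natCast, ← Real.rpow_mul hLpos.le, ← Real.rpow_natCast]
        norm_num
      rw [e1, e2, Real.sqrt_mul (by positivity)]
      congr 1
      · rw [show (6 : ℕ) = 3 * 2 from rfl, pow_mul, Real.sqrt_sq (by positivity)]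
      · rw [Real.sqrt_eq_rpow, ← Real.rpow_natCast, ← Real.rpow_mul hg0, ← Real.rpow_natCast,
          ← Real.rpow_mul hg0]
        norm_num
    have h2 : (sq w) ^ (1 / 2 : ℝ) = ((sq w) ^ (1 / 4 : ℝ)) ^ 2 := by
      rw [← Real.rpow_natCast, ← Real.rpow_mul hq0]
      norm_num
    rw [mul_pow, ← h2]
    exact mul_le_mul_of_nonneg_left h1 (by positivity)
  unfold q4
  refine (Real.sqrt_le_sqrt hfin).trans (le_of_eq ?_)
  rw [Real.sqrt_sq (by positivity)]
  ring

end Pool.Agent.Helper83.CR
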