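import Pool.Agent.Helper83.CR.St
import Pool.Agent.Helper60.EC.G6

/-! Project CR, module Le: the limit equation -/

set_option autoImplicit false

open MeasureTheory Set Filter Topology
open scoped ENNReal ContDiff

noncomputable section

namespace Pool.Agent.Helper83.CR

open Pool.Agent.Helper52.NSE (E3 TestField)
open Pool.Agent.Helper60.EC (D Cc ip sq nl G6_cc G6_bd G6_pt)

/-- the space-time integrand of the weak formulation -/
def Le_F (θ : ℝ → ℝ) (φ : E3 → E3) (w : ℝ → E3 → E3) (q : ℝ × E3) : ℝ :=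
  deriv θ q.1 * inner ℝ (w q.1 q.2) (φ q.2) +
    θ q.1 * ∑ i, (w q.1 q.2) i * inner ℝ (w q.1 q.2) (D i φ q.2)

theorem Le_bd {θ : ℝ → ℝ} (hθ : Tc θ) : ∃ M : ℝ, 0 ≤ M ∧ ∀ s, |θ s| ≤ M ∧ |deriv θ s| ≤ M := by
  obtain ⟨a, ha⟩ := hθ.smooth.continuous.bounded_above_of_compact_support hθ.comp
  obtain ⟨b, hb⟩ := (hθ.smooth.continuous_deriv (by simp)).bounded_above_of_compact_support
    hθ.comp.deriv
  refine ⟨max (max a b) 0, le_max_right _ _, fun s => ⟨?_, ?_⟩⟩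
  · exact (ha s).trans ((le_max_left _ _).trans (le_max_left _ _))
  · exact (hb s).trans ((le_max_right _ _).trans (le_max_left _ _))

theorem Le_bd2 {φ : E3 → E3} (hφ : Cc φ) : ∃ M R : ℝ, 0 ≤ M ∧ (∀ x, ‖φ x‖ ≤ M) ∧
    (∀ i x, ‖D i φ x‖ ≤ M) ∧ ∀ x, x ∉ Metric.ball (0 : E3) R → φ x = 0 ∧ ∀ i, D i φ x = 0 := by
  obtain ⟨a, ha⟩ := hφ.smooth.continuous.bounded_above_of_compact_support hφ.comp
  obtain ⟨b, hb0, hb⟩ := G6_bd hφ
  obtain ⟨R, hR⟩ := hφ.comp.isCompact.isBounded.subset_ball (0 : E3)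
  refine ⟨max a b, R, hb0.trans (le_max_right _ _), fun x => (ha x).trans (le_max_left _ _),
    fun i x => (hb i x).trans (le_max_right _ _), fun x hx => ?_⟩
  have hx' : x ∉ tsupport φ := fun h => hx (hR h)
  refine ⟨image_eq_zero_of_notMem_tsupport hx', fun i => ?_⟩
  unfold D
  have h : fderiv ℝ φ x = 0 := by
    by_contra h
    exact hx' (support_fderiv_subset ℝ h)
  rw [h]; rfl

theorem Le_meas {θ : ℝ → ℝ} (hθ : Tc θ) {φ : E3 → E3} (hφ : Cc φ) {w : ℝ → E3 → E3}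
    (hw : AEStronglyMeasurable (fun q : ℝ × E3 => w q.1 q.2) mQ) :
    AEStronglyMeasurable (fun q : ℝ × E3 => deriv θ q.1 * inner ℝ (w q.1 q.2) (φ q.2)) mQ ∧
    AEStronglyMeasurable (fun q : ℝ × E3 =>
      θ q.1 * ∑ i, (w q.1 q.2) i * inner ℝ (w q.1 q.2) (D i φ q.2)) mQ := by
  have h1 : Continuous (deriv θ) := hθ.smooth.continuous_deriv (by simp)
  have h2 : Continuous θ := hθ.smooth.continuous
  have h3 : Continuous φ := hφ.smooth.continuous
  refine ⟨?_, ?_⟩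
  · exact ((h1.comp continuous_fst).aestronglyMeasurable).mul
      (hw.inner (h3.comp continuous_snd).aestronglyMeasurable)
  · refine ((h2.comp continuous_fst).aestronglyMeasurable).mul ?_
    refine Finset.aestronglyMeasurable_fun_sum _ fun i _ => ?_
    have h4 : AEStronglyMeasurable (fun q : ℝ × E3 => (w q.1 q.2) i) mQ :=
      (EuclideanSpace.proj (𝕜 := ℝ) i : E3 →L[ℝ] ℝ).continuous.comp_aestronglyMeasurable hw
    have h5 : Continuous (D i φ) := (Pool.Agent.Helper60.EC.cc_D hφ i).smooth.continuous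
    exact h4.mul (hw.inner (h5.comp continuous_snd).aestronglyMeasurable)

theorem Le_int {θ : ℝ → ℝ} (hθ : Tc θ) {φ : E3 → E3} (hφ : Cc φ) {w : ℝ → E3 → E3}
    (hw : MemLp (fun q : ℝ × E3 => w q.1 q.2) 2 mQ) :
    Integrable (Le_F θ φ w) mQ ∧ ∫ q, Le_F θ φ w q ∂mQ =
      ∫ s in Ioo (-1 : ℝ) 0, (deriv θ s * ip (w s) φ + θ s * nl φ (w s)) := by
  obtain ⟨Mθ, hMθ0, hMθ⟩ := Le_bd hθ
  obtain ⟨M, R, hM0, hM1, hM2, hM3⟩ := Le_bd2 hφ
  obtain ⟨m1, m2⟩ := Le_meas hθ hφ hw.1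
  -- the dominating function
  set S : Set (ℝ × E3) := (univ : Set ℝ) ×ˢ Metric.ball (0 : E3) R with hS
  have hSm : MeasurableSet S := MeasurableSet.univ.prod Metric.isOpen_ball.measurableSet
  have hSf : mQ S < ⊤ := by
    rw [hS, Measure.prod_prod]
    refine ENNReal.mul_lt_top ?_ Metric.isBounded_ball.measure_lt_top
    simp
  have hsq : Integrable (fun q : ℝ × E3 => ‖w q.1 q.2‖ ^ 2) mQ := hw.integrable_norm_pow (by norm_num)
  have hone : Integrable (S.indicator fun _ => (1 : ℝ)) mQ :=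
    (integrable_indicator_iff hSm).2 (integrableOn_const (hs := hSf.ne))
  have i1 : Integrable (fun q : ℝ × E3 => deriv θ q.1 * inner ℝ (w q.1 q.2) (φ q.2)) mQ := by
    refine Integrable.mono' ((hsq.add hone).const_mul (Mθ * M)) m1 (ae_of_all _ fun q => ?_)
    rw [Real.norm_eq_abs, abs_mul]
    by_cases hq : q ∈ S
    · have h1 : |(inner ℝ (w q.1 q.2) (φ q.2) : ℝ)| ≤ ‖w q.1 q.2‖ * M :=
        (abs_real_inner_le_norm _ _).trans (mul_le_mul_of_nonneg_left (hM1 _) (norm_nonneg _))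
      have h2 : |deriv θ q.1| * |(inner ℝ (w q.1 q.2) (φ q.2) : ℝ)| ≤ Mθ * (‖w q.1 q.2‖ * M) :=
        mul_le_mul (hMθ _).2 h1 (abs_nonneg _) hMθ0
      refine h2.trans ?_
      simp only [Pi.add_apply, indicator_of_mem hq]
      have h3 : ‖w q.1 q.2‖ ≤ ‖w q.1 q.2‖ ^ 2 + 1 := by nlinarith [sq_nonneg (‖w q.1 q.2‖ - 1)]
      calc Mθ * (‖w q.1 q.2‖ * M) = (Mθ * M) * ‖w q.1 q.2‖ := by ring
        _ ≤ _ := mul_le_mul_of_nonneg_left h3 (mul_nonneg hMθ0 hM0)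
    · have hq2 : q.2 ∉ Metric.ball (0 : E3) R := fun h => hq ⟨mem_univ _, h⟩
      rw [(hM3 _ hq2).1, inner_zero_right, abs_zero, mul_zero]
      simp only [Pi.add_apply, indicator_of_notMem hq]
      positivity
  have i2 : Integrable (fun q : ℝ × E3 =>
      θ q.1 * ∑ i, (w q.1 q.2) i * inner ℝ (w q.1 q.2) (D i φ q.2)) mQ := by
    refine Integrable.mono' (hsq.const_mul (Mθ * (3 * M))) m2 (ae_of_all _ fun q => ?_)
    rw [Real.norm_eq_abs, abs_mul]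
    have h1 := G6_pt (w q.1 q.2) 0 (fun i => D i φ q.2) (fun i => hM2 i q.2)
    simp only [PiLp.zero_apply, zero_mul, Finset.sum_const_zero, sub_zero, norm_zero, add_zero]
      at h1
    refine (mul_le_mul (hMθ _).1 h1 (abs_nonneg _) hMθ0).trans (le_of_eq ?_)
    ring
  have i3 : Integrable (Le_F θ φ w) mQ := i1.add i2
  refine ⟨i3, ?_⟩
  rw [integral_prod _ i3]
  refine integral_congr_ae ?_
  filter_upwards [i1.prod_right_ae, i2.prod_right_ae] with s h1 h2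
  unfold Le_F
  rw [integral_add h1 h2, integral_const_mul, integral_const_mul]
  rfl

theorem Le_pt {θ : ℝ → ℝ} {φ : E3 → E3} {Mθ M R : ℝ} (hMθ0 : 0 ≤ Mθ)
    (hMθ : ∀ s, |θ s| ≤ Mθ ∧ |deriv θ s| ≤ Mθ) (hM0 : 0 ≤ M) (hM1 : ∀ x, ‖φ x‖ ≤ M)
    (hM2 : ∀ i x, ‖D i φ x‖ ≤ M)
    (hM3 : ∀ x, x ∉ Metric.ball (0 : E3) R → φ x = 0 ∧ ∀ i, D i φ x = 0)
    (w v : ℝ → E3 → E3) (q : ℝ × E3) :
    |Le_F θ φ w q - Le_F θ φ v q| ≤ ((univ : Set ℝ) ×ˢ Metric.ball (0 : E3) R).indicator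
      (fun q => 3 * Mθ * M * (‖w q.1 q.2 - v q.1 q.2‖ * (1 + ‖w q.1 q.2‖ + ‖v q.1 q.2‖))) q := by
  by_cases hq : q ∈ (univ : Set ℝ) ×ˢ Metric.ball (0 : E3) R
  · rw [indicator_of_mem hq]
    have e : Le_F θ φ w q - Le_F θ φ v q =
        deriv θ q.1 * inner ℝ (w q.1 q.2 - v q.1 q.2) (φ q.2) +
        θ q.1 * ((∑ i, (w q.1 q.2) i * inner ℝ (w q.1 q.2) (D i φ q.2)) -
          ∑ i, (v q.1 q.2) i * inner ℝ (v q.1 q.2) (D i φ q.2)) := by
      unfold Le_F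
      rw [inner_sub_left]
      ring
    rw [e]
    refine (abs_add_le _ _).trans ?_
    rw [abs_mul, abs_mul]
    have h1 : |(inner ℝ (w q.1 q.2 - v q.1 q.2) (φ q.2) : ℝ)| ≤ ‖w q.1 q.2 - v q.1 q.2‖ * M :=
      (abs_real_inner_le_norm _ _).trans (mul_le_mul_of_nonneg_left (hM1 _) (norm_nonneg _))
    have h2 := mul_le_mul (hMθ q.1).2 h1 (abs_nonneg _) hMθ0
    have h3 := G6_pt (w q.1 q.2) (v q.1 q.2) (fun i => D i φ q.2) (fun i => hM2 i q.2)
    have h4 := mul_le_mul (hMθ q.1).1 h3 (abs_nonneg _) hMθ0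
    have h5 : 0 ≤ Mθ * (‖w q.1 q.2 - v q.1 q.2‖ * M) := by positivity
    calc _ ≤ Mθ * (‖w q.1 q.2 - v q.1 q.2‖ * M) +
        Mθ * (3 * M * (‖w q.1 q.2 - v q.1 q.2‖ * (‖w q.1 q.2‖ + ‖v q.1 q.2‖))) := add_le_add h2 h4
      _ ≤ 3 * (Mθ * (‖w q.1 q.2 - v q.1 q.2‖ * M)) +
        Mθ * (3 * M * (‖w q.1 q.2 - v q.1 q.2‖ * (‖w q.1 q.2‖ + ‖v q.1 q.2‖))) := by linarith
      _ = _ := by ring
  · rw [indicator_of_notMem hq]
    have hq2 : q.2 ∉ Metric.ball (0 : E3) R := fun h => hq ⟨mem_univ _, h⟩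
    unfold Le_F
    simp [(hM3 _ hq2).1, (hM3 _ hq2).2]

theorem hLe (hBb : StBb) : StLe := by
  intro O u A K c e hB v hvm hv hSg U hU θ hθ φ hφ
  obtain ⟨hu, -⟩ := hBb O u A K c e hB
  have hc := G6_cc hφ
  obtain ⟨Mθ, hMθ0, hMθ⟩ := Le_bd hθ
  obtain ⟨M, R, hM0, hM1, hM2, hM3⟩ := Le_bd2 hc
  set S : Set (ℝ × E3) := (univ : Set ℝ) ×ˢ Metric.ball (0 : E3) R with hS
  have hSm : MeasurableSet S := MeasurableSet.univ.prod Metric.isOpen_ball.measurableSet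
  have hSf : mQ S < ⊤ := by
    rw [hS, Measure.prod_prod]
    refine ENNReal.mul_lt_top ?_ Metric.isBounded_ball.measure_lt_top
    simp
  set I : (ℝ → E3 → E3) → ℝ := fun w =>
    ∫ s in Ioo (-1 : ℝ) 0, (deriv θ s * ip (w s) φ + θ s * nl φ (w s)) with hI
  obtain ⟨iv, ev⟩ := Le_int hθ hc hv
  set N : ℝ := 3 * Mθ * M with hN
  have hN0 : 0 ≤ N := by positivity
  set V : ℝ := ∫ q : ℝ × E3, ‖v q.1 q.2‖ ^ 2 ∂mQ with hV
  set m : ℝ := mQ.real S with hm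
  set d : ℕ → ℝ := fun k => ∫ q in S, ‖u k q.1 q.2 - v q.1 q.2‖ ^ 2 ∂mQ with hd
  have hd0 : Tendsto d atTop (𝓝 0) := hSg R
  have key : ∀ k, ∀ η : ℝ, 0 < η →
      |I (u k) - I v| ≤ N * (η / 2 * (3 * (m + K + V)) + (2 * η)⁻¹ * d k) := by
    intro k η hη
    obtain ⟨ik, ek⟩ := Le_int hθ hc (hu k).1
    have h1 : I (u k) - I v = ∫ q, (Le_F θ φ (u k) q - Le_F θ φ v q) ∂mQ := by
      rw [integral_sub ik iv, ek, ev]
    have sqk : Integrable (fun q : ℝ × E3 => ‖u k q.1 q.2‖ ^ 2) mQ :=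
      (hu k).1.integrable_norm_pow (by norm_num)
    have sqv : Integrable (fun q : ℝ × E3 => ‖v q.1 q.2‖ ^ 2) mQ :=
      hv.integrable_norm_pow (by norm_num)
    have sqd : Integrable (fun q : ℝ × E3 => ‖u k q.1 q.2 - v q.1 q.2‖ ^ 2) mQ :=
      ((hu k).1.sub hv).integrable_norm_pow (by norm_num)
    have one : IntegrableOn (fun _ : ℝ × E3 => (1 : ℝ)) S mQ :=
      integrableOn_const (hs := hSf.ne)
    -- the integrable majorant
    have hG : IntegrableOn (fun q : ℝ × E3 => N * (η / 2 * (3 * (1 + ‖u k q.1 q.2‖ ^ 2 +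
        ‖v q.1 q.2‖ ^ 2)) + (2 * η)⁻¹ * ‖u k q.1 q.2 - v q.1 q.2‖ ^ 2)) S mQ :=
      ((((((one.add sqk.integrableOn).add sqv.integrableOn).const_mul 3).const_mul (η / 2)).add
        (sqd.integrableOn.const_mul _)).const_mul N)
    have hpt : ∀ q : ℝ × E3, |Le_F θ φ (u k) q - Le_F θ φ v q| ≤ S.indicator (fun q : ℝ × E3 =>
        N * (η / 2 * (3 * (1 + ‖u k q.1 q.2‖ ^ 2 +
        ‖v q.1 q.2‖ ^ 2)) + (2 * η)⁻¹ * ‖u k q.1 q.2 - v q.1 q.2‖ ^ 2)) q := by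
      intro q
      refine (Le_pt hMθ0 hMθ hM0 hM1 hM2 hM3 (u k) v q).trans ?_
      refine indicator_le_indicator ?_
      refine mul_le_mul_of_nonneg_left ?_ hN0
      set a := ‖u k q.1 q.2 - v q.1 q.2‖
      set b := ‖u k q.1 q.2‖
      set c := ‖v q.1 q.2‖
      have h2 : a * (1 + b + c) ≤ η / 2 * (1 + b + c) ^ 2 + (2 * η)⁻¹ * a ^ 2 := by
        have h3 : 0 ≤ (η * (1 + b + c) - a) ^ 2 / (2 * η) := by positivity
        have h4 : (η * (1 + b + c) - a) ^ 2 / (2 * η) =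
            η / 2 * (1 + b + c) ^ 2 + (2 * η)⁻¹ * a ^ 2 - a * (1 + b + c) := by
          field_simp; ring
        linarith
      have h3 : (1 + b + c) ^ 2 ≤ 3 * (1 + b ^ 2 + c ^ 2) := by
        nlinarith [sq_nonneg (1 - b), sq_nonneg (1 - c), sq_nonneg (b - c)]
      have h4 := mul_le_mul_of_nonneg_left h3 (by positivity : 0 ≤ η / 2)
      linarith
    rw [h1]
    refine abs_integral_le_integral_abs.trans ?_
    refine (integral_mono (ik.sub iv).abs ((integrable_indicator_iff hSm).2 hG) hpt).trans ?_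
    rw [integral_indicator hSm, integral_const_mul]
    refine mul_le_mul_of_nonneg_left ?_ hN0
    have h5 : IntegrableOn (fun q : ℝ × E3 => 1 + ‖u k q.1 q.2‖ ^ 2) S mQ :=
      one.add sqk.integrableOn
    have h6 : IntegrableOn (fun q : ℝ × E3 => 1 + ‖u k q.1 q.2‖ ^ 2 + ‖v q.1 q.2‖ ^ 2) S mQ :=
      h5.add sqv.integrableOn
    rw [integral_add ((h6.const_mul 3).const_mul _) (sqd.integrableOn.const_mul _),
      integral_const_mul, integral_const_mul, integral_const_mul, integral_add h5 sqv.integrableOn,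
      integral_add one sqk.integrableOn]
    have h7 : ∫ q in S, (1 : ℝ) ∂mQ = m := by simp [hm]
    have h8 : ∫ q in S, ‖u k q.1 q.2‖ ^ 2 ∂mQ ≤ K :=
      (setIntegral_le_integral sqk (ae_of_all _ fun _ => by positivity)).trans (hu k).2
    have h9 : ∫ q in S, ‖v q.1 q.2‖ ^ 2 ∂mQ ≤ V :=
      setIntegral_le_integral sqv (ae_of_all _ fun _ => by positivity)
    rw [h7]
    gcongr
  obtain ⟨ε, hε, hεk⟩ := hB.eqn θ hθ φ
  have hev := hU φ hφ
  have hfin : ∀ δ : ℝ, 0 < δ → |I v| ≤ δ := by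
    intro δ hδ
    set Q : ℝ := N * (3 / 2 * (m + K + V)) with hQ
    set η : ℝ := δ / (2 * (|Q| + 1)) with hη
    have hη0 : 0 < η := by positivity
    have h1 : Tendsto (fun k => ε k + N * (η / 2 * (3 * (m + K + V)) + (2 * η)⁻¹ * d k)) atTop
        (𝓝 (0 + N * (η / 2 * (3 * (m + K + V)) + (2 * η)⁻¹ * 0))) :=
      hε.add ((tendsto_const_nhds.add (hd0.const_mul _)).const_mul _)
    have h2 : |I v| ≤ 0 + N * (η / 2 * (3 * (m + K + V)) + (2 * η)⁻¹ * 0) := by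
      refine ge_of_tendsto h1 ?_
      filter_upwards [hev] with k hk
      have h3 := hεk k hk
      have h4 := key k η hη0
      have h5 : |I v| ≤ |I (u k)| + |I (u k) - I v| := by
        have : I v = I (u k) - (I (u k) - I v) := by ring
        calc |I v| = |I (u k) - (I (u k) - I v)| := by rw [← this]
          _ ≤ _ := abs_sub _ _
      linarith
    have h3 : 0 + N * (η / 2 * (3 * (m + K + V)) + (2 * η)⁻¹ * 0) = η * Q := by
      rw [hQ]; ring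
    rw [h3] at h2
    have h4 : η * Q ≤ δ := by
      have h5 : η * Q ≤ η * (|Q| + 1) :=
        mul_le_mul_of_nonneg_left ((le_abs_self _).trans (by linarith)) hη0.le
      have h6 : η * (|Q| + 1) = δ / 2 := by
        rw [hη]; field_simp
      linarith
    exact h2.trans h4
  have h0 : |I v| = 0 := le_antisymm (le_of_forall_pos_le_add fun δ hδ => by
    simpa using hfin δ hδ) (abs_nonneg _)
  exact abs_eq_zero.1 h0

end Pool.Agent.Helper83.CR
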