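import Pool.Agent.Helper83.CR.St
import Pool.Agent.Helper60.EC.Calc2

/-! Project CR, module Lions: the `L⁴` norm is controlled by the local masses -/

set_option autoImplicit false

open MeasureTheory Set Filter Topology
open scoped ENNReal ContDiff

noncomputable section

namespace Pool.Agent.Helper83.CR

open Pool.Agent.Helper52.NSE (E3 pd divg)
open Pool.Agent.Helper60.EC

/-- products of an integrable pair -/
theorem Lions_int {g : E3 → ℝ} {w : E3 → E3} (hg : MemLp g 2 volume) (hw : MemLp w 2 volume) :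
    Integrable (fun x => g x • w x) volume := by
  refine (hg.norm.integrable_mul hw.norm).mono' (hg.1.smul hw.1) (ae_of_all _ fun x => ?_)
  rw [norm_smul]
  exact le_rfl

/-- localisation of an `H¹` field -/
theorem Lions_prod {χ : E3 → ℝ} {w : E3 → E3} {A : Fin 3 → E3 → E3} (hχ : Cc χ) (h : H1 w A) :
    H1 (sm χ w) (fun i x => D i χ x • w x + χ x • A i x) := by
  have bd : ∀ g : E3 → ℝ, Cc g → ∀ f : E3 → E3, MemLp f 2 volume →
      MemLp (fun x => g x • f x) 2 volume := by
    intro g hg f hf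
    obtain ⟨M, hM⟩ := hg.comp.exists_bound_of_continuous hg.smooth.continuous
    refine hf.of_le_mul (c := M) (hg.smooth.continuous.aestronglyMeasurable.smul hf.1)
      (ae_of_all _ fun x => ?_)
    rw [norm_smul]
    exact mul_le_mul_of_nonneg_right (hM x) (norm_nonneg _)
  refine ⟨bd χ hχ w h.l2, fun i => (bd _ (cc_D hχ i) w h.l2).add (bd χ hχ _ (h.gl2 i)), ?_⟩
  intro ψ hψ i
  have hψχ : Cc (fun y => ψ y * χ y) := ⟨hψ.smooth.mul hχ.smooth, hψ.comp.mul_right⟩
  have hdψ : ∀ y, DifferentiableAt ℝ ψ y := fun y => hψ.smooth.differentiable (by norm_num) y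
  have hdχ : ∀ y, DifferentiableAt ℝ χ y := fun y => hχ.smooth.differentiable (by norm_num) y
  have h1 := h.weak _ hψχ i
  have e1 : ∀ x, D i (fun y => ψ y * χ y) x • w x =
      D i ψ x • sm χ w x + (ψ x * D i χ x) • w x := by
    intro x
    rw [D_mul (hdψ x) (hdχ x), add_smul]
    unfold sm
    rw [smul_smul]
  have m1 : MemLp (fun x => D i ψ x) 2 volume := cc_memLp (cc_D hψ i) 2
  have i1 : Integrable (fun x => D i ψ x • sm χ w x) volume := Lions_int m1 (bd χ hχ w h.l2)
  have c2 : Cc (fun x => ψ x * D i χ x) :=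
    ⟨hψ.smooth.mul (D_smooth hχ.smooth i), hψ.comp.mul_right⟩
  have i2 : Integrable (fun x => (ψ x * D i χ x) • w x) volume :=
    Lions_int (cc_memLp c2 2) h.l2
  have i3 : Integrable (fun x => (ψ x * χ x) • A i x) volume :=
    Lions_int (cc_memLp hψχ 2) (h.gl2 i)
  simp_rw [e1] at h1
  rw [integral_add i1 i2] at h1
  have e2 : ∀ x, ψ x • (D i χ x • w x + χ x • A i x) =
      (ψ x * D i χ x) • w x + (ψ x * χ x) • A i x := by
    intro x
    rw [smul_add, smul_smul, smul_smul]
  simp_rw [e2]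
  rw [integral_add i2 i3, neg_add]
  rw [← h1]
  abel

theorem Lions_sq_int {f : E3 → E3} (hf : MemLp f 2 volume) :
    Integrable (fun x => ‖f x‖ ^ 2) volume := hf.integrable_norm_pow (by norm_num)

theorem hLions (hL : StLady) : StLions := by
  obtain ⟨C, hC, hLady⟩ := hL
  obtain ⟨K, hK, hcut⟩ := exists_cut
  obtain ⟨χ, hχ, h01, h1⟩ := hcut 0 1 one_pos
  have hχc : Continuous χ := hχ.cc.smooth.continuous
  -- the constants
  have hg0 : Continuous (fun z : E3 => χ (-z) ^ 4) := (hχc.comp continuous_neg).pow 4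
  have hgs : HasCompactSupport (fun z : E3 => χ (-z) ^ 4) := by
    have : HasCompactSupport (fun z : E3 => χ (-z)) := hχ.cc.comp.comp_homeomorph (Homeomorph.neg E3)
    exact this.comp_left (g := fun r : ℝ => r ^ 4) (by norm_num)
  have hgi : Integrable (fun z : E3 => χ (-z) ^ 4) volume := hg0.integrable_of_hasCompactSupport hgs
  have hm : 0 < ∫ z : E3, χ (-z) ^ 4 := by
    rw [integral_pos_iff_support_of_nonneg (fun z => by positivity) hgi]
    refine lt_of_lt_of_le (Metric.measure_ball_pos volume (0 : E3) (r := 1 / 2) (by norm_num))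
      (measure_mono ?_)
    intro z hz
    rw [mem_ball_zero_iff] at hz
    show χ (-z) ^ 4 ≠ 0
    rw [h1 (-z) (by rw [sub_zero, norm_neg]; exact hz.le)]
    norm_num
  set m : ℝ := ∫ z : E3, χ (-z) ^ 4
  let b : E3 → ℝ := (Metric.closedBall (0 : E3) 1).indicator fun _ => 1
  have hbi : Integrable b volume := by
    show Integrable ((Metric.closedBall (0 : E3) 1).indicator fun _ => (1:ℝ)) volume
    rw [integrable_indicator_iff Metric.isClosed_closedBall.measurableSet]
    exact integrableOn_const (isCompact_closedBall (0:E3) 1).measure_lt_top.ne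
  have hb0 : ∀ z, 0 ≤ b z := fun z => indicator_nonneg (fun _ _ => zero_le_one) z
  have hb1 : ∀ z, b z ≤ 1 := fun z => indicator_le' (fun _ _ => le_rfl) (fun _ _ => zero_le_one) z
  set V : ℝ := ∫ z, b z
  have hV : 0 ≤ V := integral_nonneg hb0
  set Q : ℝ := 6 * K ^ 2 + 2
  have hQ : 0 < Q := by positivity
  set c0 : ℝ := C ^ 2 * V / m
  have hc0 : 0 ≤ c0 := by positivity
  refine ⟨Real.sqrt c0 * Q ^ (3 / 4 : ℝ) + 1, by positivity, fun w A lam hH hlam => ?_⟩
  have hlam0 : 0 ≤ lam := (integral_nonneg fun x => by positivity).trans (hlam 0)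
  -- the functions
  let f : E3 → ℝ := fun x => ‖w x‖ ^ 4
  have hf : Integrable f volume := (hLady w A hH).1
  have hf0 : ∀ x, 0 ≤ f x := fun x => by positivity
  let ee : E3 → ℝ := fun x => 6 * K ^ 2 * ‖w x‖ ^ 2 + 2 * ∑ i, ‖A i x‖ ^ 2
  have hee0 : ∀ x, 0 ≤ ee x := fun x => by positivity
  have hAi : Integrable (fun x => ∑ i, ‖A i x‖ ^ 2) volume :=
    integrable_finsetSum _ fun i _ => Lions_sq_int (hH.gl2 i)
  have hwi := Lions_sq_int hH.l2
  have hee : Integrable ee volume := (hwi.const_mul _).add (hAi.const_mul _)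
  have hEm : ∫ x, ee x = 6 * K ^ 2 * sq w + 2 * gs A := by
    show ∫ x, (6 * K ^ 2 * ‖w x‖ ^ 2 + 2 * ∑ i, ‖A i x‖ ^ 2) = _
    rw [integral_add (hwi.const_mul _) (hAi.const_mul _), integral_const_mul, integral_const_mul]
    rfl
  have hsw : 0 ≤ sq w := sq_nonneg' w
  have hgA : 0 ≤ gs A := integral_nonneg fun x => by positivity
  set Em : ℝ := ∫ x, ee x
  have hEm0 : 0 ≤ Em := integral_nonneg hee0
  have hEmT : Em ≤ Q * (sq w + gs A) := by
    rw [hEm]
    show _ ≤ (6 * K ^ 2 + 2) * (sq w + gs A)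
    have h6 : 0 ≤ 6 * K ^ 2 := by positivity
    nlinarith [mul_nonneg h6 hgA]
  let E : E3 → ℝ := fun y => ∫ t, ee t * b (y - t)
  have hEint : ∀ y, Integrable (fun t => ee t * b (y - t)) volume := by
    intro y
    refine hee.mono' ?_ (ae_of_all _ fun t => ?_)
    · refine hee.1.mul ?_
      have : Measurable b := measurable_const.indicator Metric.isClosed_closedBall.measurableSet
      exact (this.comp (by fun_prop : Measurable fun t : E3 => y - t)).aestronglyMeasurable
    · rw [Real.norm_of_nonneg (mul_nonneg (hee0 t) (hb0 _))]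
      exact mul_le_of_le_one_right (hee0 t) (hb1 _)
  have hEle : ∀ y, E y ≤ Em := by
    intro y
    refine integral_mono (hEint y) hee fun t => ?_
    exact mul_le_of_le_one_right (hee0 t) (hb1 _)
  have hE0 : ∀ y, 0 ≤ E y := fun y => integral_nonneg fun t => mul_nonneg (hee0 t) (hb0 _)
  have hEi : Integrable E volume :=
    hee.integrable_convolution (ContinuousLinearMap.mul ℝ ℝ) hbi
  have hEE : ∫ y, E y = Em * V :=
    integral_convolution (ContinuousLinearMap.mul ℝ ℝ) hee hbi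
  let F : E3 → ℝ := fun y => ∫ t, f t * χ (-(y - t)) ^ 4
  have hFi : Integrable F volume :=
    hf.integrable_convolution (ContinuousLinearMap.mul ℝ ℝ) hgi
  have hFF : ∫ y, F y = (∫ x, f x) * m :=
    integral_convolution (ContinuousLinearMap.mul ℝ ℝ) hf hgi
  -- the local estimate
  have hloc : ∀ y, F y ≤ C ^ 2 * lam ^ (1 / 2 : ℝ) * Em ^ (1 / 2 : ℝ) * E y := by
    intro y
    let χy : E3 → ℝ := fun x => χ (-y + (1 : ℝ) • x)
    have hχy : Cc χy := by
      refine ⟨hχ.cc.smooth.comp (by fun_prop), ?_⟩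
      have e : χy = χ ∘ (Homeomorph.addLeft (-y)) := by
        funext x
        show χ (-y + (1 : ℝ) • x) = χ (-y + x)
        rw [one_smul]
      rw [e]
      exact hχ.cc.comp.comp_homeomorph _
    have hDχy : ∀ i x, D i χy x = D i χ (-y + (1 : ℝ) • x) := by
      intro i x
      show D i (fun x => χ (-y + (1 : ℝ) • x)) x = _
      rw [D_comp_affine (hχ.cc.smooth.differentiable (by norm_num)) 1 (-y) i x, one_smul]
    have hP := Lions_prod hχy hH
    obtain ⟨_, hq⟩ := hLady _ _ hP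
    have hsq : sq (sm χy w) ≤ lam := by
      refine le_trans ?_ (hlam y)
      rw [← integral_indicator Metric.isOpen_ball.measurableSet]
      refine integral_mono (Lions_sq_int hP.l2) (hwi.indicator Metric.isOpen_ball.measurableSet)
        fun x => ?_
      show ‖χy x • w x‖ ^ 2 ≤ _
      by_cases hx : x ∈ Metric.ball y 1
      · rw [indicator_of_mem hx, norm_smul, Real.norm_of_nonneg (h01 _).1]
        refine pow_le_pow_left₀ (by have := (h01 (-y + (1:ℝ) • x)).1; positivity) ?_ 2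
        exact mul_le_of_le_one_left (norm_nonneg _) (h01 _).2
      · rw [indicator_of_notMem hx]
        rw [mem_ball_iff_norm, not_lt] at hx
        have h0 : χy x = 0 := hχ.supp _ (by
          rw [sub_zero, one_smul, neg_add_eq_sub]
          exact hx)
        rw [h0, zero_smul, norm_zero]
        norm_num
    have hgs' : gs (fun i x => D i χy x • w x + χy x • A i x) ≤ E y := by
      refine integral_mono (integrable_finsetSum _ fun i _ => Lions_sq_int (hP.gl2 i))
        (hEint y) fun x => ?_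
      show ∑ i, ‖D i χy x • w x + χy x • A i x‖ ^ 2 ≤ ee x * b (y - x)
      by_cases hx : ‖y - x‖ ≤ 1
      · have hb : b (y - x) = 1 := indicator_of_mem (mem_closedBall_zero_iff.2 hx) _
        rw [hb, mul_one]
        have hi : ∀ i, ‖D i χy x • w x + χy x • A i x‖ ^ 2 ≤
            2 * K ^ 2 * ‖w x‖ ^ 2 + 2 * ‖A i x‖ ^ 2 := by
          intro i
          have a1 : ‖D i χy x • w x‖ ≤ K * ‖w x‖ := by
            rw [norm_smul, hDχy, Real.norm_eq_abs]
            refine mul_le_mul_of_nonneg_right ?_ (norm_nonneg _)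
            have := hχ.d1 i (-y + (1 : ℝ) • x)
            rwa [div_one] at this
          have a2 : ‖χy x • A i x‖ ≤ ‖A i x‖ := by
            rw [norm_smul, Real.norm_of_nonneg (h01 _).1]
            exact mul_le_of_le_one_left (norm_nonneg _) (h01 _).2
          have a3 : ‖D i χy x • w x + χy x • A i x‖ ≤ K * ‖w x‖ + ‖A i x‖ :=
            (norm_add_le _ _).trans (add_le_add a1 a2)
          have a4 : ‖D i χy x • w x + χy x • A i x‖ ^ 2 ≤ (K * ‖w x‖ + ‖A i x‖) ^ 2 :=
            pow_le_pow_left₀ (norm_nonneg _) a3 2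
          nlinarith [sq_nonneg (K * ‖w x‖ - ‖A i x‖)]
        show _ ≤ 6 * K ^ 2 * ‖w x‖ ^ 2 + 2 * ∑ i, ‖A i x‖ ^ 2
        rw [Fin.sum_univ_three, Fin.sum_univ_three]
        linarith [hi 0, hi 1, hi 2]
      · have hz : ∀ z : E3, 1 < ‖z‖ → z ∉ tsupport χ := by
          intro z hz hz'
          have hsub : tsupport χ ⊆ Metric.closedBall 0 1 := by
            refine closure_minimal ?_ Metric.isClosed_closedBall
            intro v hv
            by_contra hv'
            rw [mem_closedBall_zero_iff, not_le] at hv'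
            exact hv (hχ.supp v (by rw [sub_zero]; exact hv'.le))
          have := hsub hz'
          rw [mem_closedBall_zero_iff] at this
          linarith
        have hz1 : 1 < ‖-y + (1 : ℝ) • x‖ := by
          rw [one_smul, neg_add_eq_sub, ← norm_sub_rev]
          exact not_le.1 hx
        have hb : 0 ≤ ee x * b (y - x) := mul_nonneg (hee0 x) (hb0 _)
        refine le_trans (le_of_eq ?_) hb
        refine Finset.sum_eq_zero fun i _ => ?_
        rw [hDχy, Calc1b_D0 (hz _ hz1) i, zero_smul]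
        have h0 : χ (-y + (1 : ℝ) • x) = 0 := image_eq_zero_of_notMem_tsupport (hz _ hz1)
        have h0' : χy x = 0 := h0
        rw [h0', zero_smul, add_zero, norm_zero]
        norm_num
    set G := gs (fun i x => D i χy x • w x + χy x • A i x)
    have hG0 : 0 ≤ G := integral_nonneg fun x => by positivity
    have hsq0 : 0 ≤ sq (sm χy w) := sq_nonneg' _
    -- square of Ladyzhenskaya
    have hFq : F y = q4 (sm χy w) ^ 2 := by
      unfold q4
      rw [Real.sq_sqrt (integral_nonneg fun x => by positivity)]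
      refine integral_congr_ae (ae_of_all _ fun x => ?_)
      show ‖w x‖ ^ 4 * χ (-(y - x)) ^ 4 = ‖χ (-y + (1 : ℝ) • x) • w x‖ ^ 4
      rw [norm_smul, Real.norm_of_nonneg (h01 _).1, mul_pow, mul_comm, one_smul, neg_sub,
        neg_add_eq_sub]
    have hq0 : 0 ≤ q4 (sm χy w) := Real.sqrt_nonneg _
    rw [hFq]
    have h2 : q4 (sm χy w) ^ 2 ≤
        (C * (sq (sm χy w)) ^ (1 / 4 : ℝ) * G ^ (3 / 4 : ℝ)) ^ 2 := pow_le_pow_left₀ hq0 hq 2
    have h3 : (C * (sq (sm χy w)) ^ (1 / 4 : ℝ) * G ^ (3 / 4 : ℝ)) ^ 2 =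
        C ^ 2 * (sq (sm χy w)) ^ (1 / 2 : ℝ) * (G ^ (1 / 2 : ℝ) * G) := by
      rw [mul_pow, mul_pow]
      have r1 : ((sq (sm χy w)) ^ (1 / 4 : ℝ)) ^ 2 = (sq (sm χy w)) ^ (1 / 2 : ℝ) := by
        rw [← Real.rpow_natCast, ← Real.rpow_mul hsq0]; norm_num
      have r2 : (G ^ (3 / 4 : ℝ)) ^ 2 = G ^ (1 / 2 : ℝ) * G := by
        rw [← Real.rpow_natCast, ← Real.rpow_mul hG0]
        rcases hG0.eq_or_lt with h0 | h0
        · rw [← h0, mul_zero, Real.zero_rpow (by norm_num)]
        · rw [← Real.rpow_add_one h0.ne']; norm_num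
      rw [r1, r2]
    have h4 : (sq (sm χy w)) ^ (1 / 2 : ℝ) ≤ lam ^ (1 / 2 : ℝ) :=
      Real.rpow_le_rpow hsq0 hsq (by norm_num)
    have h5 : G ^ (1 / 2 : ℝ) ≤ Em ^ (1 / 2 : ℝ) :=
      Real.rpow_le_rpow hG0 (hgs'.trans (hEle y)) (by norm_num)
    calc q4 (sm χy w) ^ 2 ≤ C ^ 2 * (sq (sm χy w)) ^ (1 / 2 : ℝ) * (G ^ (1 / 2 : ℝ) * G) := by
          rw [← h3]; exact h2
      _ ≤ C ^ 2 * lam ^ (1 / 2 : ℝ) * (Em ^ (1 / 2 : ℝ) * E y) := by
          refine mul_le_mul (mul_le_mul_of_nonneg_left h4 (by positivity))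
            (mul_le_mul h5 hgs' hG0 (by positivity)) (by positivity) (by positivity)
      _ = _ := by ring
  -- integrate
  have hint : (∫ x, f x) * m ≤ C ^ 2 * lam ^ (1 / 2 : ℝ) * Em ^ (1 / 2 : ℝ) * (Em * V) := by
    rw [← hFF, ← hEE, ← integral_const_mul]
    exact integral_mono hFi (hEi.const_mul _) hloc
  have hfin : ∫ x, f x ≤ c0 * (lam ^ (1 / 2 : ℝ) * (Em ^ (1 / 2 : ℝ) * Em)) := by
    have : c0 * (lam ^ (1 / 2 : ℝ) * (Em ^ (1 / 2 : ℝ) * Em)) =
        C ^ 2 * lam ^ (1 / 2 : ℝ) * Em ^ (1 / 2 : ℝ) * (Em * V) / m := by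
      show C ^ 2 * V / m * _ = _
      field_simp
    rw [this, le_div_iff₀ hm]
    exact hint
  set T : ℝ := sq w + gs A
  have hT : 0 ≤ T := add_nonneg hsw hgA
  have hpow : Em ^ (1 / 2 : ℝ) * Em ≤ (Q * T) ^ (1 / 2 : ℝ) * (Q * T) :=
    mul_le_mul (Real.rpow_le_rpow hEm0 hEmT (by norm_num)) hEmT hEm0 (by positivity)
  have hfin2 : ∫ x, f x ≤ (Real.sqrt c0 * lam ^ (1 / 4 : ℝ) * (Q * T) ^ (3 / 4 : ℝ)) ^ 2 := by
    refine hfin.trans ?_
    rw [mul_pow, mul_pow, Real.sq_sqrt hc0]
    have r1 : (lam ^ (1 / 4 : ℝ)) ^ 2 = lam ^ (1 / 2 : ℝ) := by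
      rw [← Real.rpow_natCast, ← Real.rpow_mul hlam0]; norm_num
    have hQT : 0 ≤ Q * T := by positivity
    have r2 : ((Q * T) ^ (3 / 4 : ℝ)) ^ 2 = (Q * T) ^ (1 / 2 : ℝ) * (Q * T) := by
      rw [← Real.rpow_natCast, ← Real.rpow_mul hQT]
      rcases hQT.eq_or_lt with h0 | h0
      · rw [← h0, mul_zero, Real.zero_rpow (by norm_num)]
      · rw [← Real.rpow_add_one h0.ne']; norm_num
    rw [r1, r2, mul_assoc]
    exact mul_le_mul_of_nonneg_left (mul_le_mul_of_nonneg_left hpow (by positivity)) hc0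
  have hq : q4 w ≤ Real.sqrt c0 * lam ^ (1 / 4 : ℝ) * (Q * T) ^ (3 / 4 : ℝ) :=
    Real.sqrt_le_iff.2 ⟨by positivity, hfin2⟩
  refine hq.trans ?_
  rw [Real.mul_rpow hQ.le hT]
  have hp : 0 ≤ lam ^ (1 / 4 : ℝ) * T ^ (3 / 4 : ℝ) := by positivity
  nlinarith

end Pool.Agent.Helper83.CR
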