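import Pool.Agent.Helper83.CR.St
import Pool.Agent.Helper60.EC.G3b

/-! Project CR, module Low: a loss of energy makes `∫ ‖u_k‖_4²` large -/

set_option autoImplicit false

open MeasureTheory Set Filter Topology
open scoped ENNReal ContDiff

noncomputable section

namespace Pool.Agent.Helper83.CR

open Pool.Agent.Helper52.NSE (E3 pd divg TestField MemH1s MemL2s IsWeakSolution gradSq kin
  IsSmoothBoundedDomain)
open Pool.Agent.Helper60.EC (D Cc curl grad cr ip sq nl adv sm gsq fn Hs G3b_small)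

theorem Low_q4_nonneg (w : E3 → E3) : 0 ≤ q4 w := Real.sqrt_nonneg _

theorem Low_gs_nonneg (A : Fin 3 → E3 → E3) : 0 ≤ gs A :=
  integral_nonneg fun _ => Finset.sum_nonneg fun _ _ => by positivity

/-- the integral over `(s, 0)` of a nonnegative function -/
theorem Low_le {g : ℝ → ℝ} (hg : Integrable g mI) (h0 : ∀ t, 0 ≤ g t) {s : ℝ}
    (hs : s ∈ Ioo (-1 : ℝ) 0) : ∫ t in s..0, g t ≤ ∫ t in Ioo (-1 : ℝ) 0, g t := by
  rw [intervalIntegral.integral_of_le hs.2.le, integral_Ioc_eq_integral_Ioo]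
  refine setIntegral_mono_set hg (Eventually.of_forall h0) ?_
  exact (Ioo_subset_Ioo_left hs.1.le).eventuallyLE

/-- change of variables in time -/
theorem Low_cov {F : ℝ → ℝ} {t₀ τ : ℝ} (hτ : 0 < τ)
    (hF : IntervalIntegrable F volume (t₀ - τ) t₀) :
    Integrable (fun s => F (t₀ + τ * s)) mI := by
  have h1 := hF.comp_add_left t₀
  have h2 := h1.comp_mul_left (c := τ)
  have e1 : (t₀ - τ - t₀) / τ = -1 := by field_simp; ring
  have e2 : (t₀ - t₀) / τ = 0 := by simp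
  rw [e1, e2] at h2
  rw [intervalIntegrable_iff_integrableOn_Ioo_of_le (by norm_num)] at h2
  exact h2

/-- a good time in `(-1, -1/2)` -/
theorem Low_time {g : ℝ → ℝ} {P : ℝ → Prop} {M : ℝ} (hg : Integrable g mI) (h0 : ∀ t, 0 ≤ g t)
    (hM : ∫ t in Ioo (-1 : ℝ) 0, g t ≤ M) (hP : ∀ᵐ s ∂mI, P s) :
    ∃ s ∈ Ioo (-1 : ℝ) (-(1 / 2)), P s ∧ g s ≤ 2 * M + 1 := by
  by_contra hcon
  push Not at hcon
  have hsub : Ioo (-1 : ℝ) (-(1 / 2)) ⊆ Ioo (-1) 0 := Ioo_subset_Ioo_right (by norm_num)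
  have h1 : ∀ᵐ s ∂(volume.restrict (Ioo (-1 : ℝ) (-(1 / 2)))), P s :=
    ae_mono (Measure.restrict_mono hsub le_rfl) hP
  have h2 : ∀ᵐ s ∂(volume.restrict (Ioo (-1 : ℝ) (-(1 / 2)))), 2 * M + 1 ≤ g s := by
    filter_upwards [h1, ae_restrict_mem measurableSet_Ioo] with s hs hs'
    exact (hcon s hs' hs).le
  have h3 : ∫ _ in Ioo (-1 : ℝ) (-(1 / 2)), (2 * M + 1) ≤ ∫ t in Ioo (-1 : ℝ) (-(1 / 2)), g t := by
    refine integral_mono_ae ?_ (hg.mono_measure (Measure.restrict_mono hsub le_rfl)) h2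
    exact integrable_const _
  have h4 : ∫ t in Ioo (-1 : ℝ) (-(1 / 2)), g t ≤ ∫ t in Ioo (-1 : ℝ) 0, g t :=
    setIntegral_mono_set hg (Eventually.of_forall h0) hsub.eventuallyLE
  have h5 : ∫ _ in Ioo (-1 : ℝ) (-(1 / 2)), (2 * M + 1) = (2 * M + 1) * (1 / 2) := by
    rw [setIntegral_const, smul_eq_mul, mul_comm]
    congr 1
    rw [Measure.real, Real.volume_Ioo]
    norm_num
  linarith

theorem hLow (hA : StFrA) (hB : StFrB) (hQ : StQ4) : StLow := by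
  intro Ω ν T u₀ f u G hΩ hbd hν h t₀ ht₀ hloss hcr
  obtain ⟨η₀, δ₀, hη₀, hδ₀, hno⟩ : ∃ η₀ δ₀ : ℝ, 0 < η₀ ∧ 0 < δ₀ ∧ ∀ s ∈ Ioo (t₀ - δ₀) t₀, 0 ≤ s →
      kin Ω (u t₀) + η₀ < kin Ω (u s) := by
    unfold Pool.Agent.Helper7.NT.NoLoss at hloss
    push Not at hloss
    exact hloss
  obtain ⟨M₀, hM₀⟩ := hcr
  obtain ⟨K₀, hK₀⟩ := h.bound
  obtain ⟨K, hKdef⟩ : ∃ K, K = |K₀| + 1 := ⟨_, rfl⟩
  have hKpos : 0 < K := by rw [hKdef]; positivity
  have hK : ∀ t ∈ Icc 0 T, ∫ x in Ω, ‖u t x‖ ^ 2 ≤ K := fun t ht => by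
    rw [hKdef]
    linarith [hK₀ t ht, le_abs_self K₀]
  obtain ⟨M, hMdef⟩ : ∃ M, M = |M₀| := ⟨_, rfl⟩
  have hM : 0 ≤ M := by rw [hMdef]; positivity
  have hs1 : 0 < Real.sqrt (2 * M + 1) := Real.sqrt_pos.2 (by linarith)
  have hsK : 0 < Real.sqrt K := Real.sqrt_pos.2 hKpos
  obtain ⟨c, hcdef⟩ : ∃ c, c = η₀ / (4 * Real.sqrt (2 * M + 1)) := ⟨_, rfl⟩
  have hc : 0 < c := by rw [hcdef]; positivity
  have key : ∀ ε : ℝ, 0 < ε → ∃ r : ℝ, 0 < r ∧ r < ε ∧ r ^ (5 / 2 : ℝ) ≤ t₀ ∧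
      (∫ s in Ioo (-1 : ℝ) 0, gs (sA Ω G t₀ r 0 s)) ≤ M ∧
      c ≤ ∫ s in Ioo (-1 : ℝ) 0, q4 (sv Ω u t₀ r 0 s) := by
    intro ε hε
    obtain ⟨δ₁, hδ₁, hfn⟩ := G3b_small h ht₀ (ε := η₀ / (4 * Real.sqrt K)) (by positivity)
    -- an upper bound for `r`
    obtain ⟨ρ, hρdef⟩ : ∃ ρ, ρ = min ε
      ((η₀ / (4 * (Real.sqrt (2 * M + 1) * (ν * (1 + M))))) ^ (2 : ℕ)) := ⟨_, rfl⟩
    have hρ : 0 < ρ := by
      rw [hρdef]
      refine lt_min hε ?_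
      have : 0 < η₀ / (4 * (Real.sqrt (2 * M + 1) * (ν * (1 + M)))) := by positivity
      positivity
    have hρ5 : 0 < ρ ^ (5 / 2 : ℝ) := Real.rpow_pos_of_pos hρ _
    obtain ⟨s₀, hs₀, hs₀0, hs₀M⟩ := hM₀ (min δ₀ (min δ₁ (ρ ^ (5 / 2 : ℝ))))
      (lt_min hδ₀ (lt_min hδ₁ hρ5))
    obtain ⟨τ, hτdef⟩ : ∃ τ, τ = t₀ - s₀ := ⟨_, rfl⟩
    have hτ : 0 < τ := by rw [hτdef]; linarith [hs₀.2]
    have hτ0 : τ < δ₀ := by
      rw [hτdef]; have := hs₀.1; linarith [min_le_left δ₀ (min δ₁ (ρ ^ (5 / 2 : ℝ)))]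
    have hτ1' : τ < min δ₁ (ρ ^ (5 / 2 : ℝ)) := by
      rw [hτdef]; have := hs₀.1; linarith [min_le_right δ₀ (min δ₁ (ρ ^ (5 / 2 : ℝ)))]
    have hτ1 : τ < δ₁ := hτ1'.trans_le (min_le_left _ _)
    have hτ2 : τ < ρ ^ (5 / 2 : ℝ) := hτ1'.trans_le (min_le_right _ _)
    obtain ⟨r, hrdef⟩ : ∃ r, r = τ ^ (2 / 5 : ℝ) := ⟨_, rfl⟩
    have hr : 0 < r := by rw [hrdef]; exact Real.rpow_pos_of_pos hτ _
    have hr5 : r ^ (5 / 2 : ℝ) = τ := by
      rw [hrdef, ← Real.rpow_mul hτ.le]; norm_num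
    have hr1 : r ^ (1 / 2 : ℝ) = τ ^ (1 / 5 : ℝ) := by
      rw [hrdef, ← Real.rpow_mul hτ.le]; norm_num
    have hrρ : r < ρ := by
      by_contra hcon
      push Not at hcon
      have := Real.rpow_le_rpow hρ.le hcon (by norm_num : (0 : ℝ) ≤ 5 / 2)
      rw [hr5] at this
      linarith
    have hrt : r ^ (5 / 2 : ℝ) ≤ t₀ := by rw [hr5, hτdef]; linarith
    have hr12 : r ^ (1 / 2 : ℝ) * (Real.sqrt (2 * M + 1) * (ν * (1 + M))) < η₀ / 4 := by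
      have h1 : r < (η₀ / (4 * (Real.sqrt (2 * M + 1) * (ν * (1 + M))))) ^ (2 : ℕ) :=
        hrρ.trans_le (by rw [hρdef]; exact min_le_right _ _)
      have h2 : r ^ (1 / 2 : ℝ) < η₀ / (4 * (Real.sqrt (2 * M + 1) * (ν * (1 + M)))) := by
        rw [← Real.sqrt_eq_rpow]
        exact (Real.sqrt_lt' (by positivity)).2 h1
      have h3 : 0 < Real.sqrt (2 * M + 1) * (ν * (1 + M)) := by positivity
      calc r ^ (1 / 2 : ℝ) * (Real.sqrt (2 * M + 1) * (ν * (1 + M)))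
          < η₀ / (4 * (Real.sqrt (2 * M + 1) * (ν * (1 + M)))) *
            (Real.sqrt (2 * M + 1) * (ν * (1 + M))) := mul_lt_mul_of_pos_right h2 h3
        _ = η₀ / 4 := by field_simp
    obtain ⟨-, -, -, -, -, hq4, hgint, hgeq⟩ :=
      hA Ω ν T u₀ f u G hΩ hbd h K hK t₀ ht₀ r hr hrt 0
    obtain ⟨hdrop, -⟩ := hB Ω ν T u₀ f u G hΩ hbd hν h K hK t₀ ht₀ r hr hrt 0
    have hgM : (∫ s in Ioo (-1 : ℝ) 0, gs (sA Ω G t₀ r 0 s)) ≤ M := by
      rw [hgeq, hr5]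
      have e1 : t₀ - τ = s₀ := by rw [hτdef]; ring
      rw [e1]
      have h1 : (∫ τ' in s₀..t₀, gradSq Ω (G τ')) ≤ M * r ^ (1 / 2 : ℝ) := by
        rw [hr1, hτdef]
        refine hs₀M.trans ?_
        refine mul_le_mul_of_nonneg_right (by rw [hMdef]; exact le_abs_self _) ?_
        exact Real.rpow_nonneg (by linarith [hs₀.2]) _
      have h2 : r ^ (-(1 / 2) : ℝ) * r ^ (1 / 2 : ℝ) = 1 := by
        rw [← Real.rpow_add hr]; norm_num
      calc r ^ (-(1 / 2) : ℝ) * ∫ τ' in s₀..t₀, gradSq Ω (G τ')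
          ≤ r ^ (-(1 / 2) : ℝ) * (M * r ^ (1 / 2 : ℝ)) :=
            mul_le_mul_of_nonneg_left h1 (Real.rpow_nonneg hr.le _)
        _ = M * (r ^ (-(1 / 2) : ℝ) * r ^ (1 / 2 : ℝ)) := by ring
        _ = M := by rw [h2, mul_one]
    refine ⟨r, hr, hrρ.trans_le (by rw [hρdef]; exact min_le_left _ _), hrt, hgM, ?_⟩
    -- integrability of `q4`
    have hqint : Integrable (fun s => q4 (sv Ω u t₀ r 0 s)) mI := by
      have h1 := hQ Ω ν T u₀ f u G hΩ hbd h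
      have h2 : IntervalIntegrable (fun τ' => q4 (ze Ω (u τ'))) volume (t₀ - τ) t₀ := by
        rw [intervalIntegrable_iff_integrableOn_Ioc_of_le (by linarith)]
        refine h1.mono_set ?_
        intro x hx
        refine ⟨?_, hx.2.trans ht₀.2⟩
        have := hx.1
        rw [hτdef] at this
        linarith
      have h3 := Low_cov hτ h2
      have h4 : (fun s => q4 (sv Ω u t₀ r 0 s)) =
          fun s => r ^ (3 / 2 : ℝ) * q4 (ze Ω (u (t₀ + τ * s))) := by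
        funext s
        rw [hq4 s, hr5]
      rw [h4]
      exact h3.const_mul _
    have hsint : Integrable (fun s => Real.sqrt (gs (sA Ω G t₀ r 0 s))) mI := by
      refine ((integrable_const (1 : ℝ)).add hgint).mono'
        (Real.continuous_sqrt.comp_aestronglyMeasurable hgint.aestronglyMeasurable) ?_
      refine Eventually.of_forall fun s => ?_
      have h0 := Low_gs_nonneg (sA Ω G t₀ r 0 s)
      rw [Real.norm_eq_abs, abs_of_nonneg (Real.sqrt_nonneg _)]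
      show Real.sqrt (gs (sA Ω G t₀ r 0 s)) ≤ 1 + gs (sA Ω G t₀ r 0 s)
      refine (Real.sqrt_le_left (by linarith)).2 ?_
      nlinarith
    have hsM : (∫ s in Ioo (-1 : ℝ) 0, Real.sqrt (gs (sA Ω G t₀ r 0 s))) ≤ 1 + M := by
      have h1 : (∫ s in Ioo (-1 : ℝ) 0, Real.sqrt (gs (sA Ω G t₀ r 0 s))) ≤
          ∫ s in Ioo (-1 : ℝ) 0, (1 + gs (sA Ω G t₀ r 0 s)) := by
        refine integral_mono hsint ((integrable_const (1 : ℝ)).add hgint) fun s => ?_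
        have h0 := Low_gs_nonneg (sA Ω G t₀ r 0 s)
        show Real.sqrt (gs (sA Ω G t₀ r 0 s)) ≤ 1 + gs (sA Ω G t₀ r 0 s)
        refine (Real.sqrt_le_left (by linarith)).2 ?_
        nlinarith
      rw [integral_add (integrable_const _) hgint, setIntegral_const] at h1
      have h2 : (volume.real (Ioo (-1 : ℝ) 0)) • (1 : ℝ) = 1 := by
        rw [Measure.real, Real.volume_Ioo]
        norm_num
      rw [h2] at h1
      linarith
    obtain ⟨s, hs, hsd, hsg⟩ := Low_time hgint (fun _ => Low_gs_nonneg _) hgM hdrop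
    have hs' : s ∈ Ioo (-1 : ℝ) 0 := ⟨hs.1, by linarith [hs.2]⟩
    have hk : kin Ω (u t₀) + η₀ < kin Ω (u (t₀ + r ^ (5 / 2 : ℝ) * s)) := by
      rw [hr5]
      have h1 : -τ < τ * s := by nlinarith [hs.1]
      have h2 : τ * s < 0 := mul_neg_of_pos_of_neg hτ hs'.2
      refine hno _ ⟨by linarith, by linarith⟩ ?_
      have : t₀ - τ = s₀ := by rw [hτdef]; ring
      linarith
    have hfn' : Real.sqrt K * ∫ τ' in (t₀ - r ^ (5 / 2 : ℝ))..t₀, fn Ω f τ' < η₀ / 4 := by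
      rw [hr5]
      have h1 := hfn (t₀ - τ) (by rw [hτdef]; linarith) (by linarith) (by linarith)
      calc Real.sqrt K * ∫ τ' in (t₀ - τ)..t₀, fn Ω f τ'
          < Real.sqrt K * (η₀ / (4 * Real.sqrt K)) := mul_lt_mul_of_pos_left h1 hsK
        _ = η₀ / 4 := by field_simp
    have hI1 := Low_le hsint (fun _ => Real.sqrt_nonneg _) hs'
    have hI2 := Low_le hqint (fun _ => Low_q4_nonneg _) hs'
    have hI2' : 0 ≤ ∫ t in s..0, q4 (sv Ω u t₀ r 0 t) :=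
      intervalIntegral.integral_nonneg hs'.2.le fun _ _ => Low_q4_nonneg _
    have hI1' : 0 ≤ ∫ t in s..0, Real.sqrt (gs (sA Ω G t₀ r 0 t)) :=
      intervalIntegral.integral_nonneg hs'.2.le fun _ _ => Real.sqrt_nonneg _
    have hg1 : Real.sqrt (gs (sA Ω G t₀ r 0 s)) ≤ Real.sqrt (2 * M + 1) := Real.sqrt_le_sqrt hsg
    have hr0 : 0 ≤ r ^ (1 / 2 : ℝ) := Real.rpow_nonneg hr.le _
    obtain ⟨Q, hQdef⟩ : ∃ Q, Q = ∫ s in Ioo (-1 : ℝ) 0, q4 (sv Ω u t₀ r 0 s) := ⟨_, rfl⟩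
    rw [← hQdef] at hI2 ⊢
    have hmain : Real.sqrt (gs (sA Ω G t₀ r 0 s)) *
        (ν * r ^ (1 / 2 : ℝ) * (∫ τ in s..0, Real.sqrt (gs (sA Ω G t₀ r 0 τ))) +
          ∫ τ in s..0, q4 (sv Ω u t₀ r 0 τ)) ≤
        Real.sqrt (2 * M + 1) * (ν * r ^ (1 / 2 : ℝ) * (1 + M) + Q) := by
      have h1 : ν * r ^ (1 / 2 : ℝ) * (∫ τ in s..0, Real.sqrt (gs (sA Ω G t₀ r 0 τ))) ≤
          ν * r ^ (1 / 2 : ℝ) * (1 + M) :=
        mul_le_mul_of_nonneg_left (hI1.trans hsM) (by positivity)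
      refine mul_le_mul hg1 (by linarith) ?_ hs1.le
      have : 0 ≤ ν * r ^ (1 / 2 : ℝ) * (∫ τ in s..0, Real.sqrt (gs (sA Ω G t₀ r 0 τ))) := by
        positivity
      linarith
    have hfin : η₀ / 2 < Real.sqrt (2 * M + 1) * Q := by
      have e1 : Real.sqrt (2 * M + 1) * (ν * r ^ (1 / 2 : ℝ) * (1 + M) + Q) =
        r ^ (1 / 2 : ℝ) * (Real.sqrt (2 * M + 1) * (ν * (1 + M))) +
          Real.sqrt (2 * M + 1) * Q := by ring
      rw [e1] at hmain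
      linarith [hsd]
    rw [hcdef, div_le_iff₀ (by positivity)]
    nlinarith
  choose r hr0 hr1 hr2 hr3 hr4 using key
  have hpos : ∀ j : ℕ, (0 : ℝ) < 1 / ((j : ℝ) + 1) := fun j => by positivity
  refine ⟨fun j => r (1 / ((j : ℝ) + 1)) (hpos j), M, c, fun j => ⟨hr0 _ _, hr2 _ _⟩, ?_, hc, hM,
    fun j => ⟨hr3 _ _, hr4 _ _⟩⟩
  exact squeeze_zero (fun j => (hr0 _ _).le) (fun j => (hr1 _ (hpos j)).le)
    tendsto_one_div_add_atTop_nhds_zero_nat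

end Pool.Agent.Helper83.CR
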