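import Pool.Agent.Helper83.CR.St
import Pool.Agent.Helper60.EC.Mol

/-! Project CR, MoA: mollification of an L² field -/

set_option autoImplicit false

open MeasureTheory Set Filter Topology
open scoped ENNReal ContDiff

noncomputable section

namespace Pool.Agent.Helper83.CR

open Pool.Agent.Helper52.NSE (E3 pd divg TestField)
open Pool.Agent.Helper60.EC

theorem MoA_eq (k : E3 → ℝ) (f : E3 → E3) (x : E3) : mo k f x = Mol_M k f x := by
  have h1 : Mol_M k f x = ∫ t, k t • f (x - t) := rfl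
  rw [h1]
  unfold mo
  rw [← integral_sub_left_eq_self (fun y => k (x - y) • f y) volume x]
  simp

theorem MoA_eq' (k : E3 → ℝ) (f : E3 → E3) : mo k f = Mol_M k f := funext (MoA_eq k f)

theorem MoA_refl {k : E3 → ℝ} (hk : Cc k) (x : E3) : Cc (fun t => k (x - t)) := by
  refine ⟨hk.smooth.comp (contDiff_const.sub contDiff_id), ?_⟩
  exact hk.comp.comp_homeomorph (Homeomorph.subLeft x)

theorem MoA_D_refl {k : E3 → ℝ} (hk : Cc k) (x : E3) (i : Fin 3) (t : E3) :
    D i (fun t => k (x - t)) t = -D i k (x - t) := by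
  have h := D_comp_affine (hk.smooth.differentiable (by simp)) (-1) x i t
  have e1 : (fun y => k (x + (-1 : ℝ) • y)) = fun y => k (x - y) := by
    funext y
    rw [neg_one_smul, sub_eq_add_neg]
  rw [e1] at h
  rw [h, neg_one_smul, neg_one_smul, ← sub_eq_add_neg]

theorem MoA_sq_refl (k : E3 → ℝ) (x : E3) :
    Helper60.EC.sq (fun t => k (x - t)) = Helper60.EC.sq k := by
  unfold Helper60.EC.sq
  exact integral_sub_left_eq_self (fun y => ‖k y‖ ^ 2) volume x

theorem MoA_D {k : E3 → ℝ} (hk : Cc k) {f : E3 → E3} (hf : MemLp f 2 volume) (i : Fin 3) (x : E3) :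
    D i (mo k f) x = mo (D i k) f x := by
  rw [MoA_eq', Mol_D hk (Mol_loc hf), MoA_eq]
  rfl

theorem MoA_bound {k : E3 → ℝ} (hk : Cc k) {f : E3 → E3} (hf : MemLp f 2 volume) (x : E3) :
    ‖mo k f x‖ ≤ Real.sqrt (sq k) * Real.sqrt (sq f) := by
  have h1 : ‖mo k f x‖ ≤ ∫ y, ‖k (x - y) • f y‖ := norm_integral_le_integral_norm _
  have hk2 : MemLp (fun y => ‖k (x - y)‖) 2 volume := (cc_memLp (MoA_refl hk x) 2).norm
  have hf2 : MemLp (fun y => ‖f y‖) 2 volume := hf.norm
  have h2 := ip_le hk2 hf2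
  have e1 : ip (fun y => ‖k (x - y)‖) (fun y => ‖f y‖) = ∫ y, ‖k (x - y) • f y‖ := by
    unfold ip
    refine integral_congr_ae (Filter.Eventually.of_forall fun y => ?_)
    simp only [norm_smul]
    rw [real_inner_comm]
    rfl
  have e2 : Helper60.EC.sq (fun y => ‖k (x - y)‖) = Helper60.EC.sq k := by
    rw [← MoA_sq_refl k x]
    unfold Helper60.EC.sq
    simp only [norm_norm]
  have e3 : Helper60.EC.sq (fun y => ‖f y‖) = Helper60.EC.sq f := by
    unfold Helper60.EC.sq
    simp only [norm_norm]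
  rw [e1, e2, e3] at h2
  exact h1.trans ((le_abs_self _).trans h2)

theorem MoA_weak {k : E3 → ℝ} (hk : Cc k) {w : E3 → E3} {A : Fin 3 → E3 → E3} (h : H1 w A)
    (i : Fin 3) (x : E3) : D i (mo k w) x = mo k (A i) x := by
  rw [MoA_D hk h.l2]
  have h1 := h.weak _ (MoA_refl hk x) i
  simp_rw [MoA_D_refl hk, neg_smul] at h1
  rw [integral_neg, neg_inj] at h1
  exact h1

theorem hMoA : StMoA := by
  intro k hk
  refine ⟨fun f hf => ⟨?_, fun i x => MoA_D hk hf i x, fun x => MoA_bound hk hf x⟩,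
    fun w A h i x => MoA_weak hk h i x⟩
  rw [MoA_eq']
  exact Mol_smooth hk (Mol_loc hf)

end Pool.Agent.Helper83.CR
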