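import Pool.Agent.Helper83.CR.St
import Pool.Agent.Helper60.EC.Mol
import Pool.Agent.Helper60.EC.Z5

/-! Project CR, MoB: continuity of translations in L², mollification in L² -/

set_option autoImplicit false

open MeasureTheory Set Filter Topology
open scoped ENNReal ContDiff

noncomputable section

namespace Pool.Agent.Helper83.CR

open Pool.Agent.Helper52.NSE (E3 pd divg TestField)
open Pool.Agent.Helper60.EC

theorem MoB_eq (k : E3 → ℝ) (f : E3 → E3) : mo k f = Mol_M k f := by
  funext x
  have h1 : Mol_M k f x = ∫ t, k t • f (x - t) := rfl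
  rw [h1]
  unfold mo
  rw [← integral_sub_left_eq_self (fun y => k (x - y) • f y) volume x]
  simp

theorem MoB_shift {f : E3 → E3} (hf : MemLp f 2 volume) (z : E3) :
    MemLp (fun x => f (x - z)) 2 volume :=
  hf.comp_measurePreserving (measurePreserving_sub_right volume z)

theorem MoB_sq_shift (f : E3 → E3) (z : E3) :
    Helper60.EC.sq (fun x => f (x - z)) = Helper60.EC.sq f := by
  unfold Helper60.EC.sq
  exact integral_sub_right_eq_self (fun y => ‖f y‖ ^ 2) z

/-- continuity of translations for test fields -/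
theorem MoB_cc {g : E3 → E3} (hg : Cc g) :
    Tendsto (fun z : E3 => Helper60.EC.sq (fun x => g (x - z) - g x)) (𝓝 0) (𝓝 0) := by
  obtain ⟨M, hM⟩ := hg.comp.exists_bound_of_continuous hg.smooth.continuous
  obtain ⟨R, hR⟩ := hg.comp.isCompact.isBounded.subset_closedBall (0 : E3)
  have hz : ∀ x, R < ‖x‖ → g x = 0 := by
    intro x hx
    apply image_eq_zero_of_notMem_tsupport
    intro h
    have := mem_closedBall_zero_iff.1 (hR h)
    linarith
  have hb : Integrable ((Metric.closedBall (0 : E3) (R + 1)).indicator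
      fun _ => (2 * M) ^ 2) volume := by
    rw [integrable_indicator_iff Metric.isClosed_closedBall.measurableSet]
    exact integrableOn_const measure_closedBall_lt_top.ne
  have h0 : (0 : ℝ) = ∫ _x : E3, (0 : ℝ) := by simp
  unfold Helper60.EC.sq
  rw [h0]
  refine tendsto_integral_filter_of_dominated_convergence
    ((Metric.closedBall (0 : E3) (R + 1)).indicator fun _ => (2 * M) ^ 2) ?_ ?_ hb ?_
  · refine Filter.Eventually.of_forall fun z => Continuous.aestronglyMeasurable ?_
    have := hg.smooth.continuous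
    fun_prop
  · have : Metric.ball (0 : E3) 1 ∈ 𝓝 (0 : E3) := Metric.ball_mem_nhds _ one_pos
    filter_upwards [this] with z hz1
    rw [mem_ball_zero_iff] at hz1
    refine Filter.Eventually.of_forall fun x => ?_
    rw [Real.norm_of_nonneg (by positivity)]
    by_cases hx : x ∈ Metric.closedBall (0 : E3) (R + 1)
    · rw [indicator_of_mem hx]
      refine pow_le_pow_left₀ (norm_nonneg _) ?_ 2
      refine (norm_sub_le _ _).trans ?_
      linarith [hM (x - z), hM x]
    · rw [indicator_of_notMem hx]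
      rw [mem_closedBall_zero_iff, not_le] at hx
      have h1 : R < ‖x - z‖ := by
        have := norm_sub_norm_le x z
        linarith
      rw [hz x (by linarith), hz _ h1]
      simp
  · refine Filter.Eventually.of_forall fun x => ?_
    have hc : Continuous fun z : E3 => ‖g (x - z) - g x‖ ^ 2 := by
      have := hg.smooth.continuous
      fun_prop
    have := hc.tendsto 0
    simpa using this

/-- continuity of translations -/
theorem MoB_trans {f : E3 → E3} (hf : MemLp f 2 volume) :
    Tendsto (fun z : E3 => Helper60.EC.sq (fun x => f (x - z) - f x)) (𝓝 0) (𝓝 0) := by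
  have key : Tendsto (fun z : E3 => Real.sqrt (Helper60.EC.sq (fun x => f (x - z) - f x)))
      (𝓝 0) (𝓝 0) := by
    rw [Metric.tendsto_nhds]
    intro ε hε
    obtain ⟨g, hg, hs⟩ := Z5_dense hf (show 0 < ε / 4 by positivity)
    have hgm : MemLp g 2 volume := cc_memLp hg 2
    have h1 : Tendsto (fun z : E3 => Real.sqrt (Helper60.EC.sq (fun x => g (x - z) - g x)))
        (𝓝 0) (𝓝 0) := by
      have := (Real.continuous_sqrt.tendsto 0).comp (MoB_cc hg)
      rw [Real.sqrt_zero] at this
      exact this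
    rw [Metric.tendsto_nhds] at h1
    filter_upwards [h1 (ε / 4) (by positivity)] with z hz
    rw [Real.dist_eq, sub_zero, abs_of_nonneg (Real.sqrt_nonneg _)] at hz ⊢
    have hd : MemLp (fun x => f x - g x) 2 volume := hf.sub hgm
    have m1 : MemLp (fun x => f (x - z) - g (x - z)) 2 volume := MoB_shift hd z
    have m2 : MemLp (fun x => g (x - z) - g x) 2 volume := (MoB_shift hgm z).sub hgm
    have s1 := sqrt_sq_add_le m1 m2
    have m3 : MemLp (fun x => (f (x - z) - g (x - z)) + (g (x - z) - g x)) 2 volume := m1.add m2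
    have s2 := sqrt_sq_sub_le m3 hd
    have e1 : (fun x => (f (x - z) - g (x - z)) + (g (x - z) - g x) - (f x - g x)) =
        fun x => f (x - z) - f x := by
      funext x
      abel
    rw [e1] at s2
    have e2 : Helper60.EC.sq (fun x => f (x - z) - g (x - z)) =
        Helper60.EC.sq (fun x => f x - g x) := MoB_sq_shift (fun x => f x - g x) z
    rw [e2] at s1
    have h4 : Real.sqrt (Helper60.EC.sq (fun x => f x - g x)) ≤ ε / 4 := by
      have := Real.sqrt_le_sqrt hs
      rwa [Real.sqrt_sq (by positivity)] at this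
    linarith
  have h2 := key.pow 2
  have e : (fun z : E3 => Real.sqrt (Helper60.EC.sq (fun x => f (x - z) - f x)) ^ 2) =
      fun z : E3 => Helper60.EC.sq (fun x => f (x - z) - f x) := by
    funext z
    exact Real.sq_sqrt (sq_nonneg' _)
  rw [e] at h2
  simpa using h2

/-- Jensen's inequality -/
theorem MoB_jensen {k : E3 → ℝ} (hk : Mol_K k) {u : E3 → E3}
    (i2 : Integrable (fun t => k t • u t) volume)
    (i1 : Integrable (fun t => k t * ‖u t‖ ^ 2) volume) :
    ‖∫ t, k t • u t‖ ^ 2 ≤ ∫ t, k t * ‖u t‖ ^ 2 := by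
  set c : E3 := ∫ t, k t • u t with hc
  have i3 : Integrable (fun t => k t) volume := Calc2a_int hk.cc.smooth.continuous hk.cc.comp
  have i4 : Integrable (fun t => 2 * (inner ℝ c (k t • u t) : ℝ)) volume :=
    (i2.const_inner c).const_mul 2
  have hnn : 0 ≤ ∫ t, k t * ‖u t - c‖ ^ 2 :=
    integral_nonneg fun t => mul_nonneg (hk.nn t) (by positivity)
  have e : ∀ t, k t * ‖u t - c‖ ^ 2 =
      (k t * ‖u t‖ ^ 2 - 2 * (inner ℝ c (k t • u t) : ℝ)) + k t * ‖c‖ ^ 2 := by
    intro t
    rw [norm_sub_sq_real, inner_smul_right, real_inner_comm]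
    ring
  simp_rw [e] at hnn
  have i5 : Integrable (fun t => k t * ‖u t‖ ^ 2 -
      2 * (inner ℝ c (k t • u t) : ℝ)) volume := i1.sub i4
  rw [integral_add i5 (i3.mul_const _), integral_sub i1 i4, integral_const_mul,
    integral_mul_const, hk.one, integral_inner i2, ← hc, real_inner_self_eq_norm_sq] at hnn
  linarith

theorem MoB_prod {k : E3 → ℝ} (hk : Mol_K k) {f : E3 → E3} (hf : MemLp f 2 volume) :
    Integrable (fun p : E3 × E3 => k p.2 * ‖f (p.1 - p.2) - f p.1‖ ^ 2)
      (volume.prod volume) := by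
  have i3 : Integrable (fun t => k t) volume := Calc2a_int hk.cc.smooth.continuous hk.cc.comp
  have hf2 : Integrable (fun x => ‖f x‖ ^ 2) volume := Calc2b_int hf
  have j1 : Integrable (fun p : E3 × E3 => k p.2 * ‖f (p.1 - p.2)‖ ^ 2) (volume.prod volume) :=
    i3.convolution_integrand (ContinuousLinearMap.mul ℝ ℝ) hf2
  have j2 : Integrable (fun p : E3 × E3 => ‖f p.1‖ ^ 2 * k p.2) (volume.prod volume) :=
    hf2.mul_prod i3
  refine ((j1.const_mul 2).add (j2.const_mul 2)).mono' ?_ ?_
  · have m1 : AEStronglyMeasurable (fun p : E3 × E3 => f (p.1 - p.2)) (volume.prod volume) :=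
      hf.1.comp_quasiMeasurePreserving
        (quasiMeasurePreserving_sub_of_right_invariant volume volume)
    have m2 : AEStronglyMeasurable (fun p : E3 × E3 => f p.1) (volume.prod volume) :=
      hf.1.comp_fst
    have m3 : AEStronglyMeasurable (fun p : E3 × E3 => k p.2) (volume.prod volume) :=
      (hk.cc.smooth.continuous.comp continuous_snd).aestronglyMeasurable
    exact m3.mul ((m1.sub m2).norm.pow 2)
  · refine Filter.Eventually.of_forall fun p => ?_
    have h0 := hk.nn p.2
    rw [Real.norm_of_nonneg (by positivity)]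
    have h1 : ‖f (p.1 - p.2) - f p.1‖ ^ 2 ≤ 2 * ‖f (p.1 - p.2)‖ ^ 2 + 2 * ‖f p.1‖ ^ 2 := by
      have h2 := norm_sub_le (f (p.1 - p.2)) (f p.1)
      have h3 := pow_le_pow_left₀ (norm_nonneg _) h2 2
      nlinarith [sq_nonneg (‖f (p.1 - p.2)‖ - ‖f p.1‖)]
    calc k p.2 * ‖f (p.1 - p.2) - f p.1‖ ^ 2
        ≤ k p.2 * (2 * ‖f (p.1 - p.2)‖ ^ 2 + 2 * ‖f p.1‖ ^ 2) :=
          mul_le_mul_of_nonneg_left h1 h0
      _ = 2 * (k p.2 * ‖f (p.1 - p.2)‖ ^ 2) + 2 * (‖f p.1‖ ^ 2 * k p.2) := by ring

theorem MoB_main {k : E3 → ℝ} (hk : Mol_K k) {f : E3 → E3} (hf : MemLp f 2 volume) {ε S : ℝ}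
    (hs : ∀ z, ε ≤ ‖z‖ → k z = 0)
    (hS : ∀ z : E3, ‖z‖ < ε → Helper60.EC.sq (fun x => f (x - z) - f x) ≤ S) :
    Helper60.EC.sq (fun x => Mol_M k f x - f x) ≤ S := by
  have i3 : Integrable (fun t => k t) volume := Calc2a_int hk.cc.smooth.continuous hk.cc.comp
  have hp := MoB_prod hk hf
  have hm : MemLp (fun x => Mol_M k f x - f x) 2 volume := (Mol_l2 hk hf).1.sub hf
  have h1 : ∀ᵐ x : E3, ‖Mol_M k f x - f x‖ ^ 2 ≤ ∫ t, k t * ‖f (x - t) - f x‖ ^ 2 := by
    filter_upwards [hp.prod_right_ae] with x hx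
    have i1 := Mol_exists hk.cc (Mol_loc hf) x
    have i2 : Integrable (fun t => k t • (f (x - t) - f x)) volume := by
      simp_rw [smul_sub]
      exact i1.sub (i3.smul_const _)
    have e : Mol_M k f x - f x = ∫ t, k t • (f (x - t) - f x) := by
      simp_rw [smul_sub]
      rw [integral_sub i1 (i3.smul_const _), integral_smul_const, hk.one, one_smul]
      rfl
    rw [e]
    exact MoB_jensen hk i2 hx
  have h2 : Helper60.EC.sq (fun x => Mol_M k f x - f x) ≤
      ∫ x, ∫ t, k t * ‖f (x - t) - f x‖ ^ 2 :=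
    integral_mono_ae (Calc2b_int hm) hp.integral_prod_left h1
  have h3 : ∫ x, ∫ t, k t * ‖f (x - t) - f x‖ ^ 2 = ∫ t, ∫ x, k t * ‖f (x - t) - f x‖ ^ 2 :=
    integral_integral_swap hp
  have h4 : ∫ t, ∫ x, k t * ‖f (x - t) - f x‖ ^ 2 ≤ ∫ t, k t * S := by
    refine integral_mono hp.integral_prod_right (i3.mul_const S) fun t => ?_
    simp only
    rw [integral_const_mul]
    rcases lt_or_ge ‖t‖ ε with ht | ht
    · exact mul_le_mul_of_nonneg_left (hS t ht) (hk.nn t)
    · rw [hs t ht, zero_mul, zero_mul]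
  rw [integral_mul_const, hk.one, one_mul] at h4
  linarith

theorem hMoB : StMoB := by
  intro f hf
  refine ⟨MoB_trans hf, ?_⟩
  intro C ε k hk
  have hK : Mol_K k := ⟨hk.cc, hk.nn, hk.one⟩
  rw [MoB_eq]
  refine ⟨(Mol_l2 hK hf).1, (Mol_l2 hK hf).2, ?_⟩
  intro S hS
  exact MoB_main hK hf hk.supp hS

end Pool.Agent.Helper83.CR
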