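import Pool.Agent.Helper83.CR.St
import Pool.Agent.Helper60.EC.G6
import Pool.Agent.Helper60.EC.G1b
import Pool.Agent.Helper60.EC.Calc2
import Pool.Agent.Helper60.EC.Calc3

/-! # Project CR, module Nl -/

set_option autoImplicit false

open MeasureTheory Set Filter Topology
open scoped ENNReal ContDiff

noncomputable section

namespace Pool.Agent.Helper83.CR

open Pool.Agent.Helper52.NSE (E3 pd divg TestField)
open Pool.Agent.Helper60.EC (D Cc curl grad cr ip sq nl adv sm gsq fn Hs)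

/-- the field paired with `D i w` -/
def Nl_P (C : E3 → E3) (i : Fin 3) (w : E3 → E3) (x : E3) : E3 :=
  (inner ℝ (w x) (C x) : ℝ) • EuclideanSpace.single i (1 : ℝ) + (w x) i • C x - (C x) i • w x

theorem Nl_inner_single (a : E3) (i : Fin 3) :
    (inner ℝ a (EuclideanSpace.single i (1 : ℝ)) : ℝ) = a i := by
  rw [EuclideanSpace.inner_single_right]
  simp

theorem Nl_P_inner (C w : E3 → E3) (i : Fin 3) (a x : E3) :
    (inner ℝ a (Nl_P C i w x) : ℝ) =
      a i * inner ℝ (w x) (C x) + (w x) i * inner ℝ a (C x) - (C x) i * inner ℝ a (w x) := by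
  unfold Nl_P
  rw [inner_sub_right, inner_add_right, inner_smul_right, inner_smul_right, inner_smul_right,
    Nl_inner_single]
  ring

theorem Nl_coord_le (a : E3) (i : Fin 3) : |a i| ≤ ‖a‖ := by
  have := PiLp.norm_apply_le a i
  simpa using this

theorem Nl_P_norm (C w : E3 → E3) (i : Fin 3) (x : E3) :
    ‖Nl_P C i w x‖ ≤ 3 * ‖C x‖ * ‖w x‖ := by
  unfold Nl_P
  refine (norm_sub_le _ _).trans ?_
  have h0 := norm_add_le ((inner ℝ (w x) (C x) : ℝ) • EuclideanSpace.single i (1 : ℝ))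
    ((w x) i • C x)
  have h1 : ‖(inner ℝ (w x) (C x) : ℝ) • EuclideanSpace.single i (1 : ℝ)‖ ≤ ‖C x‖ * ‖w x‖ := by
    rw [norm_smul, Real.norm_eq_abs]
    have h2 := abs_real_inner_le_norm (w x) (C x)
    simp only [PiLp.norm_single, norm_one, mul_one]
    linarith
  have h2 : ‖(w x) i • C x‖ ≤ ‖C x‖ * ‖w x‖ := by
    rw [norm_smul, Real.norm_eq_abs, mul_comm]
    exact mul_le_mul_of_nonneg_left (Nl_coord_le _ _) (norm_nonneg _)
  have h3 : ‖(C x) i • w x‖ ≤ ‖C x‖ * ‖w x‖ := by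
    rw [norm_smul, Real.norm_eq_abs]
    exact mul_le_mul_of_nonneg_right (Nl_coord_le _ _) (norm_nonneg _)
  linarith

theorem Nl_P_sub (C w w' : E3 → E3) (i : Fin 3) (x : E3) :
    Nl_P C i w x - Nl_P C i w' x = Nl_P C i (fun y => w y - w' y) x := by
  unfold Nl_P
  rw [inner_sub_left, PiLp.sub_apply, sub_smul, sub_smul, smul_sub]
  abel

theorem Nl_P_mem {C w : E3 → E3} (hC : Cc C) (hw : MemLp w 2 volume) (i : Fin 3) :
    MemLp (Nl_P C i w) 2 volume := by
  obtain ⟨M, hM⟩ := hC.smooth.continuous.bounded_above_of_compact_support hC.comp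
  have hm : AEStronglyMeasurable (Nl_P C i w) volume := by
    have hCm : AEStronglyMeasurable C volume := hC.smooth.continuous.aestronglyMeasurable
    have h1 : AEStronglyMeasurable (fun x => (w x) i) volume :=
      (EuclideanSpace.proj (𝕜 := ℝ) i : E3 →L[ℝ] ℝ).continuous.comp_aestronglyMeasurable hw.1
    have h2 : AEStronglyMeasurable (fun x => (C x) i) volume :=
      (EuclideanSpace.proj (𝕜 := ℝ) i : E3 →L[ℝ] ℝ).continuous.comp_aestronglyMeasurable hCm
    have h3 : AEStronglyMeasurable (fun x => (inner ℝ (w x) (C x) : ℝ)) volume :=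
      AEStronglyMeasurable.inner hw.1 hCm
    have h4 : AEStronglyMeasurable
        (fun x => (inner ℝ (w x) (C x) : ℝ) • (EuclideanSpace.single i (1 : ℝ) : E3)) volume :=
      h3.smul_const _
    have h5 : AEStronglyMeasurable (fun x => (w x) i • C x) volume := h1.smul hCm
    have h6 : AEStronglyMeasurable (fun x => (C x) i • w x) volume := h2.smul hw.1
    exact (h4.add h5).sub h6
  refine MemLp.of_le_mul (c := 3 * M) hw hm (ae_of_all _ fun x => ?_)
  refine (Nl_P_norm C w i x).trans ?_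
  have := hM x
  have := norm_nonneg (w x)
  gcongr

theorem Nl_P_sq {C : E3 → E3} {M : ℝ} (hM : ∀ x, ‖C x‖ ≤ M) {w : E3 → E3}
    (hw : MemLp w 2 volume) (i : Fin 3) :
    sq (Nl_P C i w) ≤ (3 * M) ^ 2 * sq w := by
  unfold Pool.Agent.Helper60.EC.sq
  rw [← integral_const_mul]
  refine integral_mono_of_nonneg (ae_of_all _ fun x => by positivity)
    ((Pool.Agent.Helper60.EC.Calc2b_int hw).const_mul _) (ae_of_all _ fun x => ?_)
  have h1 := Nl_P_norm C w i x
  have h2 : ‖Nl_P C i w x‖ ≤ 3 * M * ‖w x‖ := h1.trans (by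
    have := hM x
    have := norm_nonneg (w x)
    gcongr)
  have h3 : ‖Nl_P C i w x‖ ^ 2 ≤ (3 * M * ‖w x‖) ^ 2 := pow_le_pow_left₀ (norm_nonneg _) h2 2
  refine h3.trans (le_of_eq ?_)
  ring

/-- continuity of `ip` in `L²` -/
theorem Nl_ip_tendsto {f g : ℕ → E3 → E3} {f' g' : E3 → E3} (hf : ∀ n, MemLp (f n) 2 volume)
    (hf' : MemLp f' 2 volume) (hg : ∀ n, MemLp (g n) 2 volume) (hg' : MemLp g' 2 volume)
    (h1 : Tendsto (fun n => sq (fun x => f n x - f' x)) atTop (𝓝 0))
    (h2 : Tendsto (fun n => sq (fun x => g n x - g' x)) atTop (𝓝 0)) :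
    Tendsto (fun n => ip (f n) (g n)) atTop (𝓝 (ip f' g')) := by
  have hs1 : Tendsto (fun n => Real.sqrt (sq (fun x => f n x - f' x))) atTop (𝓝 0) := by
    have := (Real.continuous_sqrt.tendsto 0).comp h1
    rwa [Real.sqrt_zero] at this
  have hs2 : Tendsto (fun n => Real.sqrt (sq (fun x => g n x - g' x))) atTop (𝓝 0) := by
    have := (Real.continuous_sqrt.tendsto 0).comp h2
    rwa [Real.sqrt_zero] at this
  have hb : Tendsto (fun n => Real.sqrt (sq (fun x => f n x - f' x)) *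
      (Real.sqrt (sq g') + Real.sqrt (sq (fun x => g n x - g' x))) +
      Real.sqrt (sq f') * Real.sqrt (sq (fun x => g n x - g' x))) atTop (𝓝 0) := by
    have := (hs1.mul (hs2.const_add (Real.sqrt (sq g')))).add (hs2.const_mul (Real.sqrt (sq f')))
    simpa using this
  rw [tendsto_iff_norm_sub_tendsto_zero]
  refine squeeze_zero (fun n => norm_nonneg _) (fun n => ?_) hb
  rw [Real.norm_eq_abs]
  have hd1 : MemLp (fun x => f n x - f' x) 2 volume := (hf n).sub hf'
  have hd2 : MemLp (fun x => g n x - g' x) 2 volume := (hg n).sub hg'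
  have e : ip (f n) (g n) - ip f' g' =
      ip (fun x => f n x - f' x) (g n) + ip f' (fun x => g n x - g' x) := by
    unfold ip
    have i1 : Integrable (fun x => (inner ℝ (f n x - f' x) (g n x) : ℝ)) volume := by
      exact Pool.Agent.Helper60.EC.G1b_int hd1 (hg n)
    have i2 : Integrable (fun x => (inner ℝ (f' x) (g n x - g' x) : ℝ)) volume := by
      exact Pool.Agent.Helper60.EC.G1b_int hf' hd2
    have i3 : Integrable (fun x => (inner ℝ (f n x) (g n x) : ℝ)) volume := by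
      exact Pool.Agent.Helper60.EC.G1b_int (hf n) (hg n)
    have i4 : Integrable (fun x => (inner ℝ (f' x) (g' x) : ℝ)) volume := by
      exact Pool.Agent.Helper60.EC.G1b_int hf' hg'
    rw [← integral_sub i3 i4, ← integral_add i1 i2]
    congr 1
    funext x
    rw [inner_sub_left, inner_sub_right]
    ring
  rw [e]
  refine (abs_add_le _ _).trans (add_le_add ?_ ?_)
  · refine (Pool.Agent.Helper60.EC.ip_le hd1 (hg n)).trans
      (mul_le_mul_of_nonneg_left ?_ (Real.sqrt_nonneg _))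
    have h3 := Pool.Agent.Helper60.EC.sqrt_sq_add_le hg' hd2
    have e2 : (fun x => g' x + (g n x - g' x)) = g n := by
      funext x
      abel
    rwa [e2] at h3
  · exact Pool.Agent.Helper60.EC.ip_le hf' hd2

/-- the identity for smooth fields -/
theorem Nl_smooth {C φ : E3 → E3} (hC : TestField univ C) (hφ : Cc φ) :
    nl C φ = -∑ i, ip (D i φ) (Nl_P C i φ) := by
  have hCs : ContDiff ℝ ∞ C := hC.smooth
  have hCd : ∀ x, DifferentiableAt ℝ C x := fun x => hCs.differentiable (by norm_num) x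
  have hφd : ∀ x, DifferentiableAt ℝ φ x := fun x => hφ.smooth.differentiable (by norm_num) x
  have hCcc : Cc C := ⟨hC.smooth, hC.compact⟩
  have i1 : ∀ i, Integrable (fun x => (inner ℝ (D i φ x) (Nl_P C i φ x) : ℝ)) volume := fun i =>
    Pool.Agent.Helper60.EC.G1b_int
      (Pool.Agent.Helper60.EC.cc_memLp (Pool.Agent.Helper60.EC.cc_D hφ i) 2)
      (Nl_P_mem hCcc (Pool.Agent.Helper60.EC.cc_memLp hφ 2) i)
  have i2 : Integrable (fun x => ∑ i, (φ x) i * inner ℝ (φ x) (D i C x)) volume :=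
    Pool.Agent.Helper60.EC.G6_nli hCcc (Pool.Agent.Helper60.EC.cc_memLp hφ 2)
  have key : ∀ x, (∑ i, (φ x) i * inner ℝ (φ x) (D i C x)) +
      ∑ i, (inner ℝ (D i φ x) (Nl_P C i φ x) : ℝ) =
      ∑ i, D i (fun y => (φ y) i * (inner ℝ (φ y) (C y) : ℝ) -
        (1 / 2 * (inner ℝ (φ y) (φ y) : ℝ)) * (C y) i) x := by
    intro x
    have e1 : ∀ i, D i (fun y => (φ y) i * (inner ℝ (φ y) (C y) : ℝ) -
        (1 / 2 * (inner ℝ (φ y) (φ y) : ℝ)) * (C y) i) x =
        (D i φ x) i * inner ℝ (φ x) (C x) + (φ x) i * (inner ℝ (D i φ x) (C x) +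
          inner ℝ (φ x) (D i C x)) - ((inner ℝ (D i φ x) (φ x) : ℝ) * (C x) i +
          1 / 2 * inner ℝ (φ x) (φ x) * (D i C x) i) := by
      intro i
      have d1 : DifferentiableAt ℝ (fun y => (φ y) i) x :=
        ((EuclideanSpace.proj (𝕜 := ℝ) i : E3 →L[ℝ] ℝ).differentiableAt).comp x (hφd x)
      have d2 : DifferentiableAt ℝ (fun y => (C y) i) x :=
        ((EuclideanSpace.proj (𝕜 := ℝ) i : E3 →L[ℝ] ℝ).differentiableAt).comp x (hCd x)
      have d3 : DifferentiableAt ℝ (fun y => (inner ℝ (φ y) (C y) : ℝ)) x :=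
        (hφd x).inner ℝ (hCd x)
      have d4 : DifferentiableAt ℝ (fun y => (inner ℝ (φ y) (φ y) : ℝ)) x :=
        (hφd x).inner ℝ (hφd x)
      have d5 : DifferentiableAt ℝ (fun y => 1 / 2 * (inner ℝ (φ y) (φ y) : ℝ)) x :=
        d4.const_mul _
      have d6 : DifferentiableAt ℝ (fun y => (φ y) i * (inner ℝ (φ y) (C y) : ℝ)) x := d1.mul d3
      have d7 : DifferentiableAt ℝ (fun y => (1 / 2 * (inner ℝ (φ y) (φ y) : ℝ)) * (C y) i) x :=
        d5.mul d2
      rw [Pool.Agent.Helper60.EC.D_sub d6 d7,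
        Pool.Agent.Helper60.EC.D_mul d1 d3, Pool.Agent.Helper60.EC.D_mul d5 d2,
        Pool.Agent.Helper60.EC.D_apply (hφd x), Pool.Agent.Helper60.EC.D_apply (hCd x),
        Pool.Agent.Helper60.EC.D_inner (hφd x) (hCd x)]
      have e2 : D i (fun y => 1 / 2 * (inner ℝ (φ y) (φ y) : ℝ)) x =
          inner ℝ (D i φ x) (φ x) := by
        have h := Pool.Agent.Helper60.EC.D_const_smul d4 (1 / 2 : ℝ) i
        simp only [smul_eq_mul] at h
        rw [h, Pool.Agent.Helper60.EC.D_inner (hφd x) (hφd x), real_inner_comm (φ x)]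
        ring
      rw [e2]
    simp_rw [e1, Nl_P_inner]
    have hdiv : ∑ i, (D i C x) i = 0 := hC.div x
    have e3 : ∑ i, 1 / 2 * (inner ℝ (φ x) (φ x) : ℝ) * (D i C x) i = 0 := by
      rw [← Finset.mul_sum, hdiv, mul_zero]
    have e4 : (∑ i, (φ x) i * inner ℝ (φ x) (D i C x)) +
        (∑ i, ((D i φ x) i * inner ℝ (φ x) (C x) + (φ x) i * inner ℝ (D i φ x) (C x) -
          (C x) i * inner ℝ (D i φ x) (φ x))) =
        (∑ i, ((D i φ x) i * inner ℝ (φ x) (C x) + (φ x) i * (inner ℝ (D i φ x) (C x) +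
          inner ℝ (φ x) (D i C x)) - ((inner ℝ (D i φ x) (φ x) : ℝ) * (C x) i +
          1 / 2 * inner ℝ (φ x) (φ x) * (D i C x) i))) +
          ∑ i, 1 / 2 * (inner ℝ (φ x) (φ x) : ℝ) * (D i C x) i := by
      rw [← Finset.sum_add_distrib, ← Finset.sum_add_distrib]
      refine Finset.sum_congr rfl fun i _ => ?_
      ring
    rw [e4, e3, add_zero]
  have h0 : ∫ x, ((∑ i, (φ x) i * inner ℝ (φ x) (D i C x)) +
      ∑ i, (inner ℝ (D i φ x) (Nl_P C i φ x) : ℝ)) = 0 := by
    simp_rw [key]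
    refine Pool.Agent.Helper60.EC.Calc2a_div (fun i => ?_) (fun i => ?_)
    · have c1 : ContDiff ℝ 1 φ := hφ.smooth.of_le (by exact_mod_cast le_top)
      have c2 : ContDiff ℝ 1 C := hCs.of_le (by exact_mod_cast le_top)
      exact ((Pool.Agent.Helper60.EC.Calc2a_apply_contDiff c1 i).mul (c1.inner ℝ c2)).sub
        ((contDiff_const.mul (c1.inner ℝ c1)).mul
          (Pool.Agent.Helper60.EC.Calc2a_apply_contDiff c2 i))
    · refine HasCompactSupport.sub ?_ ?_
      · exact Pool.Agent.Helper60.EC.Calc2a_mul_comp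
          (Or.inl (Pool.Agent.Helper60.EC.Calc2a_apply_comp hφ.comp i))
      · exact Pool.Agent.Helper60.EC.Calc2a_mul_comp
          (Or.inr (Pool.Agent.Helper60.EC.Calc2a_apply_comp hC.compact i))
  rw [integral_add i2 (integrable_finsetSum _ fun i _ => i1 i),
    integral_finsetSum _ fun i _ => i1 i] at h0
  unfold nl ip
  linarith

theorem hNl (h₁ : StApx) : StNl := by
  intro w A hw hdv C hC
  obtain ⟨φ, hφ, hφw, hφA⟩ := h₁ w A hw
  have hCcc : Cc C := ⟨hC.smooth, hC.compact⟩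
  obtain ⟨M, hM0⟩ := hC.smooth.continuous.bounded_above_of_compact_support hC.compact
  obtain ⟨M', hM'0, hM'⟩ := Pool.Agent.Helper60.EC.G6_bd hCcc
  have hφ2 : ∀ n, MemLp (φ n) 2 volume := fun n => Pool.Agent.Helper60.EC.cc_memLp (hφ n) 2
  have hDφ : ∀ n i, MemLp (D i (φ n)) 2 volume := fun n i =>
    Pool.Agent.Helper60.EC.cc_memLp (Pool.Agent.Helper60.EC.cc_D (hφ n) i) 2
  have hs : Tendsto (fun n => Real.sqrt (sq (fun x => φ n x - w x))) atTop (𝓝 0) := by
    have := (Real.continuous_sqrt.tendsto 0).comp hφw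
    rwa [Real.sqrt_zero] at this
  -- the left-hand side
  have hl : Tendsto (fun n => nl C (φ n)) atTop (𝓝 (nl C w)) := by
    rw [tendsto_iff_norm_sub_tendsto_zero]
    have hb : Tendsto (fun n => 3 * M' * (Real.sqrt (sq (fun x => φ n x - w x)) *
        ((Real.sqrt (sq w) + Real.sqrt (sq (fun x => φ n x - w x))) + Real.sqrt (sq w))))
        atTop (𝓝 0) := by
      have := (hs.mul ((hs.const_add (Real.sqrt (sq w))).add_const
        (Real.sqrt (sq w)))).const_mul (3 * M')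
      simpa using this
    refine squeeze_zero (fun n => norm_nonneg _) (fun n => ?_) hb
    rw [Real.norm_eq_abs]
    refine (Pool.Agent.Helper60.EC.G6_nl_sub hCcc hM'0 hM' (hφ2 n) hw.l2).trans ?_
    have h3 := Pool.Agent.Helper60.EC.sqrt_sq_add_le hw.l2 ((hφ2 n).sub hw.l2)
    have e2 : (fun x => w x + (φ n - w) x) = φ n := by
      funext x
      simp
    rw [e2] at h3
    have h4 : Real.sqrt (sq (φ n)) ≤ Real.sqrt (sq w) +
        Real.sqrt (sq (fun x => φ n x - w x)) := h3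
    gcongr
  -- the right-hand side
  have hr : Tendsto (fun n => -∑ i, ip (D i (φ n)) (Nl_P C i (φ n))) atTop
      (𝓝 (-∑ i, ip (A i) (Nl_P C i w))) := by
    refine Tendsto.neg (tendsto_finsetSum _ fun i _ => ?_)
    refine Nl_ip_tendsto (fun n => hDφ n i) (hw.gl2 i) (fun n => Nl_P_mem hCcc (hφ2 n) i)
      (Nl_P_mem hCcc hw.l2 i) (hφA i) ?_
    have hb : Tendsto (fun n => (3 * M) ^ 2 * sq (fun x => φ n x - w x)) atTop (𝓝 0) := by
      have := hφw.const_mul ((3 * M) ^ 2)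
      simpa using this
    refine squeeze_zero (fun n => Pool.Agent.Helper60.EC.sq_nonneg' _) (fun n => ?_) hb
    have e : (fun x => Nl_P C i (φ n) x - Nl_P C i w x) =
        Nl_P C i (fun y => φ n y - w y) := by
      funext x
      exact Nl_P_sub C (φ n) w i x
    rw [e]
    exact Nl_P_sq hM0 ((hφ2 n).sub hw.l2) i
  have hl' : Tendsto (fun n => nl C (φ n)) atTop (𝓝 (-∑ i, ip (A i) (Nl_P C i w))) := by
    refine hr.congr fun n => ?_
    exact (Nl_smooth hC (hφ n)).symm
  rw [tendsto_nhds_unique hl hl']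
  congr 1
  unfold ip
  have i1 : ∀ i, Integrable (fun x => (inner ℝ (A i x) (Nl_P C i w x) : ℝ)) volume := fun i =>
    Pool.Agent.Helper60.EC.G1b_int (hw.gl2 i) (Nl_P_mem hCcc hw.l2 i)
  rw [← integral_finsetSum _ fun i _ => i1 i]
  refine integral_congr_ae ?_
  filter_upwards [hdv] with x hx
  simp_rw [Nl_P_inner]
  have hx' : (A 0 x) 0 + (A 1 x) 1 + (A 2 x) 2 = 0 := by
    have : dv A x = (A 0 x) 0 + (A 1 x) 1 + (A 2 x) 2 := by
      unfold dv
      rw [Fin.sum_univ_three]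
    rw [← this, hx]
    rfl
  rw [Fin.sum_univ_three]
  simp only [Pool.Agent.Helper60.EC.Calc3b_inner, Pool.Agent.Helper60.EC.Calc3b_cr0,
    Pool.Agent.Helper60.EC.Calc3b_cr1, Pool.Agent.Helper60.EC.Calc3b_cr2]
  have o0 : om A x 0 = (A 1 x) 2 - (A 2 x) 1 := rfl
  have o1 : om A x 1 = (A 2 x) 0 - (A 0 x) 2 := rfl
  have o2 : om A x 2 = (A 0 x) 1 - (A 1 x) 0 := rfl
  rw [o0, o1, o2]
  linear_combination (w x 0 * C x 0 + w x 1 * C x 1 + w x 2 * C x 2) * hx'

end Pool.Agent.Helper83.CR
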