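import Pool.Agent.Helper83.CR.St
import Pool.Agent.Helper60.EC.Calc2

/-! Project CR, module Of: the limit vanishes outside the limit domain -/

set_option autoImplicit false

open MeasureTheory Set Filter Topology
open scoped ENNReal ContDiff

noncomputable section

namespace Pool.Agent.Helper83.CR

open Pool.Agent.Helper52.NSE (E3 pd divg)
open Pool.Agent.Helper60.EC

/-- hyperplanes are null sets -/
theorem Of_null {n : E3} (hn : ‖n‖ = 1) (d : ℝ) : volume {y : E3 | (inner ℝ n y : ℝ) = d} = 0 := by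
  have hnn : (inner ℝ n n : ℝ) = 1 := by rw [real_inner_self_eq_norm_sq, hn, one_pow]
  let s : AffineSubspace ℝ E3 := AffineSubspace.mk' (d • n) (LinearMap.ker (innerₛₗ ℝ n))
  have hs : {y : E3 | (inner ℝ n y : ℝ) = d} ⊆ (s : Set E3) := by
    intro y hy
    have hy' : (inner ℝ n y : ℝ) = d := hy
    show y ∈ s
    rw [AffineSubspace.mem_mk']
    rw [LinearMap.mem_ker, vsub_eq_sub, innerₛₗ_apply_apply, inner_sub_right,
      real_inner_smul_right, hnn, hy']
    ring
  have hne : s ≠ ⊤ := by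
    intro h
    have h1 : ((d + 1) • n) ∈ s := by rw [h]; exact AffineSubspace.mem_top ℝ E3 _
    rw [AffineSubspace.mem_mk', LinearMap.mem_ker, vsub_eq_sub, innerₛₗ_apply_apply,
      inner_sub_right, real_inner_smul_right, real_inner_smul_right, hnn] at h1
    linarith
  exact measure_mono_null hs (Measure.addHaar_affineSubspace volume s hne)

/-- a subsequence converges almost everywhere -/
theorem Of_sub {μ : Measure (ℝ × E3)} {u : ℕ → ℝ × E3 → E3} {v : ℝ × E3 → E3}
    (hu : ∀ k, MemLp (u k) 2 μ) (hv : MemLp v 2 μ)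
    (h : Tendsto (fun k => ∫ q, ‖u k q - v q‖ ^ 2 ∂μ) atTop (𝓝 0)) :
    ∃ ns : ℕ → ℕ, StrictMono ns ∧ ∀ᵐ q ∂μ, Tendsto (fun i => u (ns i) q) atTop (𝓝 (v q)) := by
  have h1 : Tendsto (fun k => eLpNorm (u k - v) 2 μ) atTop (𝓝 0) := by
    have e : ∀ k, eLpNorm (u k - v) 2 μ =
        ENNReal.ofReal ((∫ q, ‖u k q - v q‖ ^ 2 ∂μ) ^ (1 / 2 : ℝ)) := by
      intro k
      rw [((hu k).sub hv).eLpNorm_eq_integral_rpow_norm (by norm_num) (by norm_num)]
      norm_num
    simp_rw [e]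
    rw [← ENNReal.ofReal_zero]
    refine ENNReal.tendsto_ofReal ?_
    have h2 := h.rpow_const (p := (1 / 2 : ℝ)) (Or.inr (by norm_num))
    rwa [Real.zero_rpow (by norm_num)] at h2
  exact (tendstoInMeasure_of_tendsto_eLpNorm (by norm_num) (fun k => (hu k).1) hv.1
    h1).exists_seq_tendsto_ae

theorem hOf (hB : StBb) : StOf := by
  intro O u A K c e h v A' hv hS n d hn hO
  obtain ⟨hb, _⟩ := hB O u A K c e h
  -- `v = 0` almost everywhere on `d < ⟨n, y⟩`
  have hR : ∀ R : ℕ, ∀ᵐ q ∂mQ, q ∈ (univ : Set ℝ) ×ˢ Metric.ball (0 : E3) (R : ℝ) →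
      d < inner ℝ n q.2 → v q.1 q.2 = 0 := by
    intro R
    have hmeas : MeasurableSet ((univ : Set ℝ) ×ˢ Metric.ball (0 : E3) (R : ℝ)) :=
      MeasurableSet.univ.prod Metric.isOpen_ball.measurableSet
    obtain ⟨ns, hns, hae⟩ := Of_sub
      (μ := mQ.restrict ((univ : Set ℝ) ×ˢ Metric.ball (0 : E3) (R : ℝ)))
      (u := fun k q => u k q.1 q.2) (v := fun q => v q.1 q.2)
      (fun k => (hb k).1.restrict _) (hv.int.restrict _) (hS R)
    rw [ae_restrict_iff' hmeas] at hae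
    filter_upwards [hae] with q hq hqR hqd
    have h1 := hq hqR
    have h2 : ∀ᶠ i in atTop, u (ns i) q.1 q.2 = 0 := by
      filter_upwards [hns.tendsto_atTop.eventually (hO q.2 hqd)] with i hi
      exact h.off (ns i) q.1 q.2 hi
    have h3 : Tendsto (fun i => u (ns i) q.1 q.2) atTop (𝓝 0) :=
      tendsto_const_nhds.congr' (by filter_upwards [h2] with i hi; exact hi.symm)
    exact tendsto_nhds_unique h1 h3
  have hall : ∀ᵐ q ∂mQ, d < inner ℝ n q.2 → v q.1 q.2 = 0 := by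
    filter_upwards [ae_all_iff.2 hR] with q hq hqd
    obtain ⟨R, hR'⟩ := exists_nat_gt ‖q.2‖
    exact hq R ⟨trivial, mem_ball_zero_iff.2 hR'⟩ hqd
  have hall2 : ∀ᵐ t ∂mI, ∀ᵐ y : E3, d < inner ℝ n y → v t y = 0 :=
    Measure.ae_ae_of_ae_prod hall
  filter_upwards [hall2, hv.h1] with t ht hH
  have hU : IsOpen {y : E3 | d < inner ℝ n y} := isOpen_lt continuous_const (by fun_prop)
  have hne : ∀ᵐ y : E3, (inner ℝ n y : ℝ) ≠ d := by
    rw [ae_iff]
    simpa using Of_null hn d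
  have hgr : ∀ i, ∀ᵐ y : E3, y ∈ {y : E3 | d < inner ℝ n y} → A' t i y = 0 := by
    intro i
    refine hU.ae_eq_zero_of_integral_contDiff_smul_eq_zero
      (((hH.gl2 i).locallyIntegrable (by norm_num)).locallyIntegrableOn _) ?_
    intro ψ hψ hψc hψs
    have h1 := hH.weak ψ ⟨hψ, hψc⟩ i
    have h2 : ∫ x, D i ψ x • v t x = 0 := by
      rw [integral_eq_zero_of_ae]
      filter_upwards [ht] with y hy
      show D i ψ y • v t y = 0
      by_cases hyU : y ∈ tsupport ψ
      · rw [hy (hψs hyU), smul_zero]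
      · rw [Calc1b_D0 hyU i, zero_smul]
    rw [h2] at h1
    exact neg_eq_zero.1 h1.symm
  filter_upwards [ht, hne, ae_all_iff.2 hgr] with y hy1 hy2 hy3 hy
  have hlt : d < inner ℝ n y := lt_of_le_of_ne hy (Ne.symm hy2)
  exact ⟨hy1 hlt, fun i => hy3 i hlt⟩

end Pool.Agent.Helper83.CR
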