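import Pool.Agent.Helper83.CR.St

/-!
# Project CR, module Q4: integrability in time of the `L⁴` norm
-/

set_option autoImplicit false

open MeasureTheory Set Filter Topology
open scoped ENNReal ContDiff

noncomputable section

namespace Pool.Agent.Helper83.CR

open Pool.Agent.Helper52.NSE (E3 pd divg TestField MemH1s MemL2s IsWeakSolution gradSq kin
  IsSmoothBoundedDomain)
open Pool.Agent.Helper60.EC (D Cc curl grad cr ip sq nl adv sm gsq fn Hs)

theorem Q4_pow {x : ℝ} (hx : 0 ≤ x) : x ^ (3 / 4 : ℝ) ≤ 1 + x := by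
  rcases le_total x 1 with h | h
  · have := Real.rpow_le_one hx h (by norm_num : (0 : ℝ) ≤ 3 / 4)
    linarith
  · have := Real.rpow_le_rpow_of_exponent_le h (by norm_num : (3 / 4 : ℝ) ≤ 1)
    rw [Real.rpow_one] at this
    linarith

theorem Q4_ze (Ω : Set E3) (hΩ : MeasurableSet Ω) (w : E3 → E3) :
    ∫ x, ‖ze Ω w x‖ ^ 4 = ∫ x in Ω, ‖w x‖ ^ 4 := by
  rw [← integral_indicator hΩ]
  congr 1
  funext x
  unfold ze
  by_cases hx : x ∈ Ω
  · rw [indicator_of_mem hx, indicator_of_mem hx]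
  · rw [indicator_of_notMem hx, indicator_of_notMem hx]
    simp

theorem hQ4 (h1 : StLady) (h2 : StEx) : StQ4 := by
  intro Ω ν T u₀ f u G hΩ _ hu
  obtain ⟨C, hC, hL⟩ := h1
  obtain ⟨K, hK⟩ := hu.bound
  have hmeas : AEStronglyMeasurable (fun τ => q4 (ze Ω (u τ))) (volume.restrict (Icc 0 T)) := by
    have h3 : AEStronglyMeasurable (fun q : ℝ × E3 => ‖u q.1 q.2‖ ^ 4)
        ((volume.restrict (Icc 0 T)).prod (volume.restrict Ω)) := hu.meas.norm.pow 4
    have h4 := h3.integral_prod_right'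
    have h5 := Real.continuous_sqrt.comp_aestronglyMeasurable h4
    refine h5.congr (Eventually.of_forall fun τ => ?_)
    simp only [q4]
    rw [Q4_ze Ω hΩ.measurableSet]
  have hK0 : 0 ≤ max K 0 := le_max_right _ _
  have hint : Integrable (fun τ => C * (max K 0) ^ (1 / 4 : ℝ) * (1 + gradSq Ω (G τ)))
      (volume.restrict (Icc 0 T)) := by
    refine Integrable.const_mul ?_ _
    exact (integrable_const (1 : ℝ)).add hu.grad_int
  refine Integrable.mono' hint hmeas ?_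
  filter_upwards [hu.grad_mem, ae_restrict_mem (measurableSet_Icc)] with τ hτ hτI
  obtain ⟨hH, -, hgs, hsq⟩ := h2 Ω hΩ _ _ hτ
  obtain ⟨-, hb⟩ := hL _ _ hH
  rw [hgs, hsq] at hb
  have h6 : 0 ≤ q4 (ze Ω (u τ)) := Real.sqrt_nonneg _
  rw [Real.norm_of_nonneg h6]
  have h7 : 0 ≤ ∫ x in Ω, ‖u τ x‖ ^ 2 := integral_nonneg fun x => by positivity
  have h8 : (∫ x in Ω, ‖u τ x‖ ^ 2) ^ (1 / 4 : ℝ) ≤ (max K 0) ^ (1 / 4 : ℝ) :=
    Real.rpow_le_rpow h7 ((hK τ hτI).trans (le_max_left _ _)) (by norm_num)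
  have h9 : 0 ≤ gradSq Ω (G τ) := by
    unfold gradSq
    exact integral_nonneg fun x => by positivity
  have h10 := Q4_pow h9
  have h11 : 0 ≤ (gradSq Ω (G τ)) ^ (3 / 4 : ℝ) := Real.rpow_nonneg h9 _
  have h12 : 0 ≤ (max K 0) ^ (1 / 4 : ℝ) := Real.rpow_nonneg hK0 _
  calc q4 (ze Ω (u τ)) ≤ C * (∫ x in Ω, ‖u τ x‖ ^ 2) ^ (1 / 4 : ℝ) *
        (gradSq Ω (G τ)) ^ (3 / 4 : ℝ) := hb
    _ ≤ C * (max K 0) ^ (1 / 4 : ℝ) * (1 + gradSq Ω (G τ)) := by
        refine mul_le_mul (mul_le_mul_of_nonneg_left h8 hC.le) h10 h11 ?_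
        exact mul_nonneg hC.le h12

end Pool.Agent.Helper83.CR
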