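import Pool.Agent.Helper83.CR.St
import Pool.Agent.Helper60.EC.Calc1b
import Pool.Agent.Helper60.EC.Calc2b
import Pool.Agent.Helper60.EC.Calc3b

/-! Project CR, module Qf: bounds and measurability for `qf`. -/

set_option autoImplicit false

open MeasureTheory Set Filter Topology
open scoped ENNReal ContDiff

noncomputable section

namespace Pool.Agent.Helper83.CR

open Pool.Agent.Helper60
open Pool.Agent.Helper52.NSE (E3 pd divg TestField MemH1s MemL2s IsWeakSolution gradSq kin
  IsSmoothBoundedDomain)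
open Pool.Agent.Helper60.EC (D Cc curl grad cr ip sq nl adv sm gsq fn Hs)

theorem Qf_om_sq (A : Fin 3 → E3 → E3) (x : E3) : ‖om A x‖ ^ 2 ≤ 2 * ∑ i, ‖A i x‖ ^ 2 := by
  have h0 : om A x 0 = (A 1 x) 2 - (A 2 x) 1 := rfl
  have h1 : om A x 1 = (A 2 x) 0 - (A 0 x) 2 := rfl
  have h2 : om A x 2 = (A 0 x) 1 - (A 1 x) 0 := rfl
  rw [Fin.sum_univ_three, EC.Calc3b_nsq, EC.Calc3b_nsq, EC.Calc3b_nsq, EC.Calc3b_nsq, h0, h1, h2]
  nlinarith [sq_nonneg ((A 1 x) 2 + (A 2 x) 1), sq_nonneg ((A 2 x) 0 + (A 0 x) 2),
    sq_nonneg ((A 0 x) 1 + (A 1 x) 0), sq_nonneg ((A 0 x) 0), sq_nonneg ((A 1 x) 1),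
    sq_nonneg ((A 2 x) 2)]

/-- the vorticity as a function of the gradient -/
def Qf_omc (p : E3 × E3 × E3) : E3 :=
  !₂[p.2.1 2 - p.2.2 1, p.2.2 0 - p.1 2, p.1 1 - p.2.1 0]

theorem Qf_omc_cont : Continuous Qf_omc := by
  unfold Qf_omc
  refine (PiLp.continuous_toLp 2 _).comp (continuous_pi fun i => ?_)
  fin_cases i <;> simp <;> fun_prop

theorem Qf_om (A : Fin 3 → E3 → E3) (x : E3) : om A x = Qf_omc (A 0 x, A 1 x, A 2 x) := rfl

theorem Qf_cr_cont : Continuous fun p : E3 × E3 => cr p.1 p.2 := by
  unfold cr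
  refine (PiLp.continuous_toLp 2 _).comp (continuous_pi fun i => ?_)
  fin_cases i <;> simp <;> fun_prop

theorem Qf_cr_aesm {f g : E3 → E3} (hf : AEStronglyMeasurable f volume)
    (hg : AEStronglyMeasurable g volume) :
    AEStronglyMeasurable (fun x => cr (f x) (g x)) volume :=
  Qf_cr_cont.comp_aestronglyMeasurable (hf.prodMk hg)

theorem Qf_cr_c {f g : E3 → E3} (hf : Continuous f) (hg : Continuous g) :
    Continuous (fun x => cr (f x) (g x)) :=
  Qf_cr_cont.comp (hf.prodMk hg)

theorem Qf_cr_m {T : Type} [MeasurableSpace T] {f g : T → E3} (hf : Measurable f)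
    (hg : Measurable g) : Measurable (fun x => cr (f x) (g x)) :=
  Qf_cr_cont.measurable.comp (hf.prodMk hg)

theorem Qf_om_aesm {A : Fin 3 → E3 → E3} (h : ∀ i, AEStronglyMeasurable (A i) volume) :
    AEStronglyMeasurable (om A) volume :=
  Qf_omc_cont.comp_aestronglyMeasurable ((h 0).prodMk ((h 1).prodMk (h 2)))

theorem Qf_gs_int {A : Fin 3 → E3 → E3} (h : ∀ i, MemLp (A i) 2 volume) :
    Integrable (fun x => ∑ i, ‖A i x‖ ^ 2) volume :=
  integrable_finsetSum _ fun i _ => EC.Calc2b_int (h i)

theorem Qf_om_memLp {A : Fin 3 → E3 → E3} (h : ∀ i, MemLp (A i) 2 volume) :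
    MemLp (om A) 2 volume := by
  have hm := Qf_om_aesm fun i => (h i).1
  rw [memLp_two_iff_integrable_sq_norm hm]
  refine ((Qf_gs_int h).const_mul 2).mono' (hm.norm.pow 2) (Eventually.of_forall fun x => ?_)
  rw [Real.norm_of_nonneg (by positivity)]
  exact Qf_om_sq A x

theorem Qf_sq_om {A : Fin 3 → E3 → E3} (h : ∀ i, MemLp (A i) 2 volume) :
    sq (om A) ≤ 2 * gs A := by
  unfold EC.sq gs
  rw [← integral_const_mul]
  exact integral_mono (EC.Calc2b_int (Qf_om_memLp h)) ((Qf_gs_int h).const_mul 2)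
    fun x => Qf_om_sq A x

/-- Cauchy-Schwarz for the product of the norms -/
theorem Qf_cs {f g : E3 → E3} (hf : MemLp f 2 volume) (hg : MemLp g 2 volume) :
    Integrable (fun x => ‖f x‖ * ‖g x‖) volume ∧
      ∫ x, ‖f x‖ * ‖g x‖ ≤ Real.sqrt (sq f) * Real.sqrt (sq g) := by
  refine ⟨hf.norm.integrable_mul hg.norm, ?_⟩
  have h1 := EC.Calc2b_cs (F := ℝ) (μ := (volume : Measure E3)) hf.norm hg.norm
  have h2 : (∫ x, (inner ℝ (‖f x‖) (‖g x‖) : ℝ)) = ∫ x, ‖f x‖ * ‖g x‖ := by
    refine integral_congr_ae (Eventually.of_forall fun x => ?_)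
    simp only [RCLike.inner_apply, conj_trivial]
    ring
  rw [h2] at h1
  simp only [norm_norm] at h1
  exact (le_abs_self _).trans h1

section meas

variable {T : Type} [MeasurableSpace T]

theorem Qf_int_meas {f : T → E3 → E3} (h : Measurable fun p : T × E3 => f p.1 p.2) :
    Measurable fun t => ∫ y, f t y := by
  have h1 : StronglyMeasurable (Function.uncurry f) := h.stronglyMeasurable
  exact h1.integral_prod_right.measurable

end meas

/-- **Module Qf.** -/
theorem hQf : StQf := by
  intro k hk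
  have hG := EC.cc_grad hk
  have hGc : Continuous (grad k) := hG.smooth.continuous
  have hkc : Continuous k := hk.smooth.continuous
  refine ⟨?_, ?_⟩
  · obtain ⟨C, hC⟩ := hG.comp.exists_bound_of_continuous hGc
    have hC0 : 0 ≤ C := (norm_nonneg _).trans (hC 0)
    refine ⟨C * Real.sqrt 2, by positivity, ?_⟩
    intro w A hw
    have ho := Qf_om_memLp hw.gl2
    obtain ⟨hi, hcs⟩ := Qf_cs ho hw.l2
    have hb : ∀ x y, ‖cr (grad k (x - y)) (cr (om A y) (w y))‖ ≤ C * (‖om A y‖ * ‖w y‖) := by
      intro x y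
      refine (EC.norm_cr_le _ _).trans ?_
      exact mul_le_mul (hC _) (EC.norm_cr_le _ _) (norm_nonneg _) hC0
    have hm : ∀ x, AEStronglyMeasurable (fun y => cr (grad k (x - y)) (cr (om A y) (w y)))
        volume := by
      intro x
      have h1 : AEStronglyMeasurable (fun y => cr (om A y) (w y)) (volume : Measure E3) :=
        Qf_cr_aesm ho.1 hw.l2.1
      have h2 : AEStronglyMeasurable (fun y => grad k (x - y)) (volume : Measure E3) :=
        (hGc.comp (continuous_const.sub continuous_id)).aestronglyMeasurable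
      exact Qf_cr_aesm h2 h1
    refine ⟨?_, ?_⟩
    · have hcont : ∀ y, Continuous fun x => cr (grad k (x - y)) (cr (om A y) (w y)) := by
        intro y
        have h1 : Continuous fun x : E3 => grad k (x - y) :=
          hGc.comp (continuous_id.sub continuous_const)
        have h2 : Continuous fun _ : E3 => cr (om A y) (w y) := continuous_const
        exact Qf_cr_c h1 h2
      have h3 : Continuous fun x => ∫ y, cr (grad k (x - y)) (cr (om A y) (w y)) := by
        refine continuous_of_dominated (F := fun x y => cr (grad k (x - y)) (cr (om A y) (w y)))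
          (bound := fun y => C * (‖om A y‖ * ‖w y‖)) hm ?_ (hi.const_mul C) ?_
        · intro x
          exact Eventually.of_forall fun y => hb x y
        · exact Eventually.of_forall hcont
      exact h3
    · intro x
      have h1 : ‖qf k A w x‖ ≤ ∫ y, C * (‖om A y‖ * ‖w y‖) := by
        refine (norm_integral_le_integral_norm _).trans ?_
        exact integral_mono_of_nonneg (Eventually.of_forall fun y => norm_nonneg _)
          (hi.const_mul C) (Eventually.of_forall fun y => hb x y)
      refine h1.trans ?_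
      rw [integral_const_mul, mul_assoc]
      refine mul_le_mul_of_nonneg_left ?_ hC0
      refine hcs.trans ?_
      rw [← mul_assoc]
      refine mul_le_mul_of_nonneg_right ?_ (Real.sqrt_nonneg _)
      rw [← Real.sqrt_mul (by norm_num)]
      exact Real.sqrt_le_sqrt (Qf_sq_om hw.gl2)
  · intro v A hv hA
    have hmo : ∀ f : ℝ → E3 → E3, (Measurable fun q : ℝ × E3 => f q.1 q.2) →
        Measurable fun q : ℝ × E3 => mo k (f q.1) q.2 := by
      intro f hf
      refine Qf_int_meas (T := ℝ × E3) (f := fun q y => k (q.2 - y) • f q.1 y) ?_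
      have h1 : Measurable fun p : (ℝ × E3) × E3 => f p.1.1 p.2 :=
        hf.comp ((measurable_fst.comp measurable_fst).prodMk measurable_snd)
      have h2 : Measurable fun p : (ℝ × E3) × E3 => k (p.1.2 - p.2) :=
        hkc.measurable.comp ((measurable_snd.comp measurable_fst).sub measurable_snd)
      exact h2.smul h1
    have hom : Measurable fun q : ℝ × E3 => om (A q.1) q.2 :=
      Qf_omc_cont.measurable.comp ((hA 0).prodMk ((hA 1).prodMk (hA 2)))
    have hcr : ∀ f g : (ℝ × E3) × E3 → E3, Measurable f → Measurable g →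
        Measurable fun p : (ℝ × E3) × E3 => cr (f p) (g p) := by
      intro f g hf hg
      exact Qf_cr_m hf hg
    have hGm : Measurable fun p : (ℝ × E3) × E3 => grad k (p.1.2 - p.2) :=
      hGc.measurable.comp ((measurable_snd.comp measurable_fst).sub measurable_snd)
    have hvp : Measurable fun p : (ℝ × E3) × E3 => v p.1.1 p.2 :=
      hv.comp ((measurable_fst.comp measurable_fst).prodMk measurable_snd)
    have hop : Measurable fun p : (ℝ × E3) × E3 => om (A p.1.1) p.2 :=
      hom.comp ((measurable_fst.comp measurable_fst).prodMk measurable_snd)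
    have hmv := hmo v hv
    have hmo' := hmo (fun t => om (A t)) hom
    refine ⟨hmv, fun i => hmo (fun t => A t i) (hA i), hmo', ?_, ?_⟩
    · exact Qf_int_meas (T := ℝ × E3)
        (f := fun q y => cr (grad k (q.2 - y)) (cr (om (A q.1) y) (v q.1 y)))
        (hcr _ _ hGm (hcr _ _ hop hvp))
    · exact Qf_int_meas (T := ℝ × E3)
        (f := fun q y => cr (grad k (q.2 - y)) (cr (om (A q.1) y - mo k (om (A q.1)) q.2)
          (v q.1 y - mo k (v q.1) q.2)))
        (hcr _ _ hGm (hcr _ _ (hop.sub (hmo'.comp measurable_fst))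
          (hvp.sub (hmv.comp measurable_fst))))

end Pool.Agent.Helper83.CR
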