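import Pool.Agent.Helper83.CR.St
import Pool.Agent.Helper60.EC.Calc1b
import Pool.Agent.Helper60.EC.Calc2b
import Pool.Agent.Helper60.EC.Calc3a

/-!
# Project CR, module Rep: the mollified vorticity equation, integrated in time
-/

set_option autoImplicit false

open MeasureTheory Set Filter Topology
open scoped ENNReal ContDiff

noncomputable section

namespace Pool.Agent.Helper83.CR

open Pool.Agent.Helper52.NSE (E3 pd divg TestField MemH1s MemL2s IsWeakSolution gradSq kin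
  IsSmoothBoundedDomain)
open Pool.Agent.Helper60.EC

/-- the test field -/
def Rep_phi (k : E3 → ℝ) (x : E3) (j : Fin 3) (y : E3) : E3 :=
  k (x - y) • EuclideanSpace.single j (1 : ℝ)

theorem Rep_cc {k : E3 → ℝ} (hk : Cc k) (x : E3) (j : Fin 3) : Cc (Rep_phi k x j) := by
  have h1 : ContDiff ℝ ∞ (fun y : E3 => k (x - y)) :=
    hk.smooth.comp (contDiff_const.sub contDiff_id)
  have h2 : HasCompactSupport (fun y : E3 => k (x - y)) :=
    hk.comp.comp_homeomorph (Homeomorph.subLeft x)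
  exact ⟨h1.smul contDiff_const, h2.smul_right⟩

theorem Rep_D {k : E3 → ℝ} (hk : Cc k) (x : E3) (j i : Fin 3) (y : E3) :
    D i (Rep_phi k x j) y = -(D i k (x - y)) • EuclideanSpace.single j (1 : ℝ) := by
  have hd : Differentiable ℝ k := hk.smooth.differentiable (by simp)
  have e1 : (fun y : E3 => k (x - y)) = fun y => k (x + (-1 : ℝ) • y) := by
    funext y
    rw [neg_one_smul, sub_eq_add_neg]
  have h1 : D i (fun y : E3 => k (x - y)) y = -(D i k (x - y)) := by
    rw [e1, D_comp_affine hd, neg_one_smul, neg_one_smul, ← sub_eq_add_neg]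
  have h2 : DifferentiableAt ℝ (fun y : E3 => k (x - y)) y := by
    have : ContDiff ℝ ∞ (fun y : E3 => k (x - y)) :=
      hk.smooth.comp (contDiff_const.sub contDiff_id)
    exact this.differentiable (by simp) y
  have h3 := D_clm (ContinuousLinearMap.toSpanSingleton ℝ (EuclideanSpace.single j (1 : ℝ) : E3))
    h2 i
  rw [h1] at h3
  exact h3

theorem Rep_inner {k : E3 → ℝ} (hk : Cc k) (x : E3) (j : Fin 3) (y b : E3) :
    (inner ℝ b (curl (Rep_phi k x j) y) : ℝ) = (cr (grad k (x - y)) b) j := by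
  rw [Calc3b_inner]
  simp only [Calc3b_curl0, Calc3b_curl1, Calc3b_curl2, Rep_D hk]
  fin_cases j
  · simp [cr, grad]
    ring
  · simp [cr, grad]
    ring
  · simp [cr, grad]
    ring

theorem Rep_omc (A : Fin 3 → E3 → E3) (x : E3) : om A x 0 = (A 1 x) 2 - (A 2 x) 1 ∧
    om A x 1 = (A 2 x) 0 - (A 0 x) 2 ∧ om A x 2 = (A 0 x) 1 - (A 1 x) 0 := ⟨rfl, rfl, rfl⟩

theorem Rep_om_sq (A : Fin 3 → E3 → E3) (x : E3) : ‖om A x‖ ^ 2 ≤ 2 * ∑ i, ‖A i x‖ ^ 2 := by
  obtain ⟨h0, h1, h2⟩ := Rep_omc A x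
  rw [Calc3b_nsq, h0, h1, h2, Fin.sum_univ_three, Calc3b_nsq, Calc3b_nsq, Calc3b_nsq]
  nlinarith [sq_nonneg ((A 1 x) 2 + (A 2 x) 1), sq_nonneg ((A 2 x) 0 + (A 0 x) 2),
    sq_nonneg ((A 0 x) 1 + (A 1 x) 0), sq_nonneg ((A 0 x) 0), sq_nonneg ((A 1 x) 1),
    sq_nonneg ((A 2 x) 2)]

theorem Rep_om_meas {A : Fin 3 → E3 → E3} (h : ∀ i, AEStronglyMeasurable (A i) volume) :
    AEStronglyMeasurable (om A) volume := by
  have hc : ∀ i k, AEStronglyMeasurable (fun x => (A i x) k) volume := fun i k =>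
    (EuclideanSpace.proj (𝕜 := ℝ) k : E3 →L[ℝ] ℝ).continuous.comp_aestronglyMeasurable (h i)
  have h1 : AEMeasurable (fun x => (![(A 1 x) 2 - (A 2 x) 1, (A 2 x) 0 - (A 0 x) 2,
      (A 0 x) 1 - (A 1 x) 0] : Fin 3 → ℝ)) volume := by
    rw [aemeasurable_pi_iff]
    intro k
    fin_cases k
    · exact ((hc 1 2).sub (hc 2 1)).aemeasurable
    · exact ((hc 2 0).sub (hc 0 2)).aemeasurable
    · exact ((hc 0 1).sub (hc 1 0)).aemeasurable
  exact (PiLp.continuous_toLp 2 _).comp_aestronglyMeasurable h1.aestronglyMeasurable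

theorem Rep_om_memLp {w : E3 → E3} {A : Fin 3 → E3 → E3} (h : H1 w A) :
    MemLp (om A) 2 volume := by
  have h1 := Rep_om_meas fun i => (h.gl2 i).1
  have h2 : MemLp (fun x => ‖A 0 x‖ + ‖A 1 x‖ + ‖A 2 x‖) 2 volume :=
    ((h.gl2 0).norm.add (h.gl2 1).norm).add (h.gl2 2).norm
  refine h2.of_le_mul (c := 2) h1 (Eventually.of_forall fun x => ?_)
  have h3 := Rep_om_sq A x
  rw [Fin.sum_univ_three] at h3
  have h4 : 0 ≤ ‖A 0 x‖ + ‖A 1 x‖ + ‖A 2 x‖ := by positivity
  rw [Real.norm_of_nonneg h4]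
  refine abs_le_of_sq_le_sq' ?_ (by positivity) |>.2
  nlinarith [norm_nonneg (A 0 x), norm_nonneg (A 1 x), norm_nonneg (A 2 x),
    mul_nonneg (norm_nonneg (A 0 x)) (norm_nonneg (A 1 x)),
    mul_nonneg (norm_nonneg (A 0 x)) (norm_nonneg (A 2 x)),
    mul_nonneg (norm_nonneg (A 1 x)) (norm_nonneg (A 2 x))]

theorem Rep_om_le {w : E3 → E3} {A : Fin 3 → E3 → E3} (h : H1 w A) :
    sq (om A) ≤ 2 * gs A := by
  unfold Pool.Agent.Helper60.EC.sq gs
  rw [← integral_const_mul]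
  refine integral_mono (Calc2b_int (Rep_om_memLp h)) ?_ fun x => Rep_om_sq A x
  refine Integrable.const_mul ?_ 2
  exact integrable_finsetSum _ fun i _ => Calc2b_int (h.gl2 i)

theorem Rep_cr_cont : Continuous fun p : E3 × E3 => cr p.1 p.2 := by
  refine (PiLp.continuous_toLp 2 _).comp (continuous_pi fun k => ?_)
  have h1 : ∀ k : Fin 3, Continuous fun p : E3 × E3 => p.1 k := fun k =>
    (EuclideanSpace.proj (𝕜 := ℝ) k : E3 →L[ℝ] ℝ).continuous.comp continuous_fst
  have h2 : ∀ k : Fin 3, Continuous fun p : E3 × E3 => p.2 k := fun k =>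
    (EuclideanSpace.proj (𝕜 := ℝ) k : E3 →L[ℝ] ℝ).continuous.comp continuous_snd
  fin_cases k
  · exact ((h1 1).mul (h2 2)).sub ((h1 2).mul (h2 1))
  · exact ((h1 2).mul (h2 0)).sub ((h1 0).mul (h2 2))
  · exact ((h1 0).mul (h2 1)).sub ((h1 1).mul (h2 0))

theorem Rep_int1 {k : E3 → ℝ} (hk : Cc k) {w : E3 → E3} {A : Fin 3 → E3 → E3} (h : H1 w A)
    (x : E3) : Integrable (fun y => cr (grad k (x - y)) (cr (om A y) (w y))) volume := by
  have ho := Rep_om_memLp h
  have hg : Cc (grad k) := cc_grad hk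
  obtain ⟨C, hC⟩ := hg.comp.exists_bound_of_continuous hg.smooth.continuous
  have h1 : Integrable (fun y => ‖om A y‖ * ‖w y‖) volume := ho.norm.integrable_mul h.l2.norm
  refine (h1.const_mul C).mono' ?_ (Eventually.of_forall fun y => ?_)
  · have h2 : AEStronglyMeasurable (fun y => cr (om A y) (w y)) volume :=
      Rep_cr_cont.comp_aestronglyMeasurable (ho.1.prodMk h.l2.1)
    have h3 : AEStronglyMeasurable (fun y => grad k (x - y)) volume :=
      (hg.smooth.continuous.comp (continuous_const.sub continuous_id)).aestronglyMeasurable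
    exact Rep_cr_cont.comp_aestronglyMeasurable (h3.prodMk h2)
  · refine (norm_cr_le _ _).trans ?_
    exact mul_le_mul (hC _) (norm_cr_le _ _) (norm_nonneg _) ((norm_nonneg _).trans (hC 0))

theorem Rep_int2 {k : E3 → ℝ} (hk : Cc k) {w : E3 → E3} {A : Fin 3 → E3 → E3} (h : H1 w A)
    (x : E3) : Integrable (fun y => k (x - y) • om A y) volume := by
  have ho := Rep_om_memLp h
  have h2 : Cc (fun y : E3 => k (x - y)) :=
    ⟨hk.smooth.comp (contDiff_const.sub contDiff_id),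
      hk.comp.comp_homeomorph (Homeomorph.subLeft x)⟩
  have h3 : MemLp (fun y : E3 => k (x - y)) 2 volume := cc_memLp h2 2
  have h1 : Integrable (fun y => ‖k (x - y)‖ * ‖om A y‖) volume := h3.norm.integrable_mul ho.norm
  refine h1.mono' (h3.1.smul ho.1) (Eventually.of_forall fun y => ?_)
  rw [norm_smul]

theorem Rep_q (hNl : StNl) {k : E3 → ℝ} (hk : Cc k) {w : E3 → E3} {A : Fin 3 → E3 → E3}
    (h : H1 w A) (hd : dv A =ᵐ[volume] 0) (x : E3) (j : Fin 3) :
    nl (curl (Rep_phi k x j)) w = -(qf k A w x) j := by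
  have hc := Rep_cc hk x j
  have ht : TestField univ (curl (Rep_phi k x j)) :=
    ⟨(cc_curl hc).smooth, (cc_curl hc).comp, subset_univ _,
      fun y => divg_curl (hc.smooth.of_le (by norm_cast)) y⟩
  rw [hNl w A h hd _ ht]
  congr 1
  simp_rw [Rep_inner hk]
  exact (EuclideanSpace.proj (𝕜 := ℝ) j : E3 →L[ℝ] ℝ).integral_comp_comm (Rep_int1 hk h x)

theorem Rep_b (hCu : StCu) {k : E3 → ℝ} (hk : Cc k) {w : E3 → E3} {A : Fin 3 → E3 → E3}
    (h : H1 w A) (x : E3) (j : Fin 3) :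
    ip w (curl (Rep_phi k x j)) = (mo k (om A) x) j := by
  rw [(hCu w A h).1 _ (Rep_cc hk x j)]
  have h1 := (EuclideanSpace.proj (𝕜 := ℝ) j : E3 →L[ℝ] ℝ).integral_comp_comm (Rep_int2 hk h x)
  unfold ip mo
  refine Eq.trans (integral_congr_ae (Eventually.of_forall fun y => ?_)) h1
  simp only [Rep_phi]
  rw [inner_smul_right, EuclideanSpace.inner_single_right]
  simp

theorem Rep_m1 {k : E3 → ℝ} {A : ℝ → Fin 3 → E3 → E3} {v : ℝ → E3 → E3}
    (m : Measurable fun q : ℝ × E3 => qf k (A q.1) (v q.1) q.2) (x : E3) :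
    Measurable (fun τ => qf k (A τ) (v τ) x) := by
  have h : Measurable (fun τ : ℝ => (τ, x)) := measurable_prodMk_right
  have h2 := m.comp h
  have e : (fun q : ℝ × E3 => qf k (A q.1) (v q.1) q.2) ∘ (fun τ : ℝ => (τ, x)) =
      (fun τ => qf k (A τ) (v τ) x) := by
    funext τ
    simp only [Function.comp]
  rw [e] at h2
  exact h2

theorem Rep_m2 {k : E3 → ℝ} {A : ℝ → Fin 3 → E3 → E3}
    (m : Measurable fun q : ℝ × E3 => mo k (om (A q.1)) q.2) (x : E3) :
    Measurable (fun τ => mo k (om (A τ)) x) := by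
  have h : Measurable (fun τ : ℝ => (τ, x)) := measurable_prodMk_right
  have h2 := m.comp h
  have e : (fun q : ℝ × E3 => mo k (om (A q.1)) q.2) ∘ (fun τ : ℝ => (τ, x)) =
      (fun τ => mo k (om (A τ)) x) := by
    funext τ
    simp only [Function.comp]
  rw [e] at h2
  exact h2

theorem hRep (hNl : StNl) (hMoA : StMoA) (hCu : StCu) (hQf : StQf) (hFu : StFu)
    (hDbr : StDbr) : StRep := by
  intro v A hE k hk
  obtain ⟨⟨M, hM0, hM⟩, hmeas⟩ := hQf k hk
  obtain ⟨_, _, m3, m4, _⟩ := hmeas v A hE.meas hE.gmeas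
  obtain ⟨f1, f2, _, _⟩ := hFu v A hE.toCls
  have hgs0 : ∀ B : Fin 3 → E3 → E3, 0 ≤ gs B := fun B => integral_nonneg fun x => by positivity
  have hg : Integrable (fun τ => M * (Real.sqrt (gs (A τ)) *
      Real.sqrt (Pool.Agent.Helper60.EC.sq (v τ)))) mI := by
    refine Integrable.const_mul ?_ M
    refine (f2.add f1).mono' ?_ (Eventually.of_forall fun τ => ?_)
    · exact (Real.continuous_sqrt.comp_aestronglyMeasurable f2.1).mul
        (Real.continuous_sqrt.comp_aestronglyMeasurable f1.1)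
    · have h1 := Real.sq_sqrt (hgs0 (A τ))
      have h2 := Real.sq_sqrt (sq_nonneg' (v τ))
      have h3 := Real.sqrt_nonneg (gs (A τ))
      have h4 := Real.sqrt_nonneg (Pool.Agent.Helper60.EC.sq (v τ))
      rw [Real.norm_of_nonneg (mul_nonneg h3 h4)]
      simp only [Pi.add_apply]
      nlinarith [sq_nonneg (Real.sqrt (gs (A τ)) - Real.sqrt (Pool.Agent.Helper60.EC.sq (v τ))),
        hgs0 (A τ), sq_nonneg' (v τ)]
  have hbd : ∀ᵐ τ ∂mI, ∀ x, ‖qf k (A τ) (v τ) x‖ ≤ M * (Real.sqrt (gs (A τ)) *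
      Real.sqrt (Pool.Agent.Helper60.EC.sq (v τ))) := by
    filter_upwards [hE.h1] with τ h1
    exact (hM _ _ h1).2
  have hcont : ∀ᵐ τ ∂mI, Continuous (qf k (A τ) (v τ)) := by
    filter_upwards [hE.h1] with τ h1
    exact (hM _ _ h1).1
  have hqm : ∀ x, Measurable (fun τ => qf k (A τ) (v τ) x) := fun x => Rep_m1 m4 x
  have hqi : ∀ x, IntegrableOn (fun τ => qf k (A τ) (v τ) x) (Ioo (-1) 0) := fun x =>
    hg.mono' (hqm x).aestronglyMeasurable (hbd.mono fun τ h => h x)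
  refine ⟨hqi, ?_⟩
  have hbi : ∀ x, IntegrableOn (fun t => mo k (om (A t)) x) (Ioo (-1) 0) := by
    intro x
    have hm : Measurable (fun t => mo k (om (A t)) x) := Rep_m2 m3 x
    have hi : Integrable (fun τ => Real.sqrt (Pool.Agent.Helper60.EC.sq k) *
        (1 + 2 * gs (A τ))) mI := by
      refine Integrable.const_mul ?_ _
      exact (integrable_const 1).add (f2.const_mul 2)
    refine hi.mono' hm.aestronglyMeasurable ?_
    filter_upwards [hE.h1] with τ h1
    refine (((hMoA k hk).1 _ (Rep_om_memLp h1)).2.2 x).trans ?_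
    refine mul_le_mul_of_nonneg_left ?_ (Real.sqrt_nonneg _)
    refine (Real.sqrt_le_sqrt (Rep_om_le h1)).trans ?_
    have h2 := hgs0 (A τ)
    rw [Real.sqrt_le_left (by positivity)]
    nlinarith
  have key : ∀ x j, ∀ᵐ s ∂mI, (mo k (om (A s)) x) j =
      ∫ τ in s..0, (qf k (A τ) (v τ) x) j := by
    intro x j
    refine hDbr (fun s => (mo k (om (A s)) x) j) (fun s => (qf k (A s) (v s) x) j) ?_ ?_ ?_
    · exact (EuclideanSpace.proj (𝕜 := ℝ) j : E3 →L[ℝ] ℝ).integrable_comp (hbi x)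
    · exact (EuclideanSpace.proj (𝕜 := ℝ) j : E3 →L[ℝ] ℝ).integrable_comp (hqi x)
    · intro θ hθ
      have h0 := hE.eqn θ hθ _ (Rep_cc hk x j)
      refine Eq.trans ?_ h0
      refine integral_congr_ae ?_
      filter_upwards [hE.h1, hE.div] with t h1 h2
      rw [Rep_b hCu hk h1 x j, Rep_q hNl hk h1 h2 x j]
      ring
  obtain ⟨S, hS1, hS2⟩ := TopologicalSpace.exists_countable_dense E3
  have key2 : ∀ᵐ s ∂mI, ∀ x ∈ S, ∀ j, (mo k (om (A s)) x) j =
      ∫ τ in s..0, (qf k (A τ) (v τ) x) j :=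
    (ae_ball_iff hS1).2 fun x _ => ae_all_iff.2 fun j => key x j
  filter_upwards [key2, hE.h1, ae_restrict_mem measurableSet_Ioo] with s h1 h2 h3
  have c1 : Continuous (mo k (om (A s))) :=
    ((hMoA k hk).1 _ (Rep_om_memLp h2)).1.continuous
  have e : ∀ x, (∫ τ in s..0, qf k (A τ) (v τ) x) = ∫ τ in Ioo s 0, qf k (A τ) (v τ) x := by
    intro x
    rw [intervalIntegral.integral_of_le h3.2.le, integral_Ioc_eq_integral_Ioo]
  have hsub : Ioo s 0 ⊆ Ioo (-1) 0 := Ioo_subset_Ioo_left h3.1.le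
  have hle : volume.restrict (Ioo s 0) ≤ mI := Measure.restrict_mono hsub le_rfl
  have c2 : Continuous (fun x => ∫ τ in s..0, qf k (A τ) (v τ) x) := by
    simp_rw [e]
    refine continuous_of_dominated (bound := fun τ => M * (Real.sqrt (gs (A τ)) *
      Real.sqrt (Pool.Agent.Helper60.EC.sq (v τ)))) (fun x => (hqm x).aestronglyMeasurable)
      (fun x => ?_) (hg.mono_measure hle) (ae_mono hle hcont)
    have h7 : ∀ᵐ τ ∂(volume.restrict (Ioo s 0)), ∀ x, ‖qf k (A τ) (v τ) x‖ ≤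
        M * (Real.sqrt (gs (A τ)) * Real.sqrt (Pool.Agent.Helper60.EC.sq (v τ))) :=
      ae_mono hle hbd
    exact h7.mono fun τ h => h x
  have h5 : ∀ x ∈ S, mo k (om (A s)) x = ∫ τ in s..0, qf k (A τ) (v τ) x := by
    intro x hx
    have h6 : IntervalIntegrable (fun τ => qf k (A τ) (v τ) x) volume s 0 := by
      rw [intervalIntegrable_iff_integrableOn_Ioo_of_le h3.2.le]
      exact (hqi x).mono_set hsub
    ext j
    rw [h1 x hx j]
    exact (EuclideanSpace.proj (𝕜 := ℝ) j : E3 →L[ℝ] ℝ).intervalIntegral_comp_comm h6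
  have h4 := c1.ext_on hS2 c2 h5
  exact fun x => congrFun h4 x

end Pool.Agent.Helper83.CR
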