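import Pool.Agent.Helper83.CR.St
import Pool.Agent.Helper60.EC.G7a

/-! Project CR, module Sc: strong local compactness -/

set_option autoImplicit false

open MeasureTheory Set Filter Topology
open scoped ENNReal ContDiff

noncomputable section

namespace Pool.Agent.Helper83.CR

open Pool.Agent.Helper52.NSE (E3 pd divg TestField MemH1s MemL2s IsWeakSolution gradSq kin
  IsSmoothBoundedDomain)
open Pool.Agent.Helper60.EC (D Cc curl grad cr ip sq nl adv sm gsq fn Hs)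

/-- the time weight -/
def Sc_f (h : ℝ) : ℝ → ℝ := (Ioo 0 h).indicator fun _ => h⁻¹

/-- the weight -/
def Sc_w (h : ℝ) (κ : E3 → ℝ) (p q : ℝ × E3) : ℝ := Sc_f h (q.1 - p.1) * κ (p.2 - q.2)

/-- the average -/
def Sc_G (h : ℝ) (κ : E3 → ℝ) (F : ℝ × E3 → E3) (p : ℝ × E3) : E3 :=
  ∫ q, Sc_w h κ p q • F q ∂mQ

theorem Sc_f_nn {h : ℝ} (hh : 0 < h) (t : ℝ) : 0 ≤ Sc_f h t :=
  indicator_nonneg (fun _ _ => (inv_pos.2 hh).le) _

theorem Sc_f_le {h : ℝ} (hh : 0 < h) (t : ℝ) : Sc_f h t ≤ h⁻¹ :=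
  indicator_le' (fun _ _ => le_refl _) (fun _ _ => (inv_pos.2 hh).le) _

theorem Sc_f_int (h : ℝ) : Integrable (Sc_f h) volume :=
  (integrable_indicator_iff measurableSet_Ioo).2 (integrableOn_const (by simp))

theorem Sc_f_one {h : ℝ} (hh : 0 < h) : ∫ t, Sc_f h t = 1 := by
  unfold Sc_f
  rw [integral_indicator measurableSet_Ioo, setIntegral_const]
  simp [Measure.real, hh.le, hh.ne']

theorem Sc_f_meas (h : ℝ) : Measurable (Sc_f h) := measurable_const.indicator measurableSet_Ioo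

theorem Sc_w_meas (h : ℝ) {κ : E3 → ℝ} (hκ : Continuous κ) :
    Measurable fun z : (ℝ × E3) × (ℝ × E3) => Sc_w h κ z.1 z.2 := by
  unfold Sc_w
  refine ((Sc_f_meas h).comp ?_).mul (hκ.measurable.comp ?_)
  · exact (measurable_fst.comp measurable_snd).sub (measurable_fst.comp measurable_fst)
  · exact (measurable_snd.comp measurable_fst).sub (measurable_snd.comp measurable_snd)

/-- the hypotheses on the kernel -/
structure Sc_K (h : ℝ) (κ : E3 → ℝ) : Prop where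
  pos : 0 < h
  cont : Continuous κ
  int : Integrable κ volume
  nn : ∀ z, 0 ≤ κ z
  one : ∫ z, κ z = 1

theorem Sc_K_of {C h : ℝ} {κ : E3 → ℝ} (hh : 0 < h) (hk : Mol C h κ) : Sc_K h κ :=
  ⟨hh, hk.cc.smooth.continuous, hk.cc.smooth.continuous.integrable_of_hasCompactSupport hk.cc.comp,
    hk.nn, hk.one⟩

theorem Sc_w_nn {h : ℝ} {κ : E3 → ℝ} (H : Sc_K h κ) (p q : ℝ × E3) : 0 ≤ Sc_w h κ p q :=
  mul_nonneg (Sc_f_nn H.pos _) (H.nn _)

theorem Sc_int1 {h : ℝ} {κ : E3 → ℝ} (H : Sc_K h κ) (p : ℝ × E3) :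
    Integrable (Sc_w h κ p) mQ ∧ ∫ q, Sc_w h κ p q ∂mQ ≤ 1 := by
  have h1 : Integrable (fun t : ℝ => Sc_f h (t - p.1)) volume := (Sc_f_int h).comp_sub_right _
  have h2 : Integrable (fun y : E3 => κ (p.2 - y)) volume := H.int.comp_sub_left _
  refine ⟨(h1.restrict (s := Ioo (-1) 0)).mul_prod h2, ?_⟩
  unfold Sc_w
  rw [integral_prod_mul (fun t : ℝ => Sc_f h (t - p.1)) (fun y : E3 => κ (p.2 - y)),
    integral_sub_left_eq_self κ volume p.2, H.one, mul_one]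
  calc ∫ t in Ioo (-1 : ℝ) 0, Sc_f h (t - p.1) ≤ ∫ t, Sc_f h (t - p.1) :=
        setIntegral_le_integral h1 (Eventually.of_forall fun t => Sc_f_nn H.pos _)
    _ = 1 := by rw [integral_sub_right_eq_self (Sc_f h), Sc_f_one H.pos]

theorem Sc_int2 {h : ℝ} {κ : E3 → ℝ} (H : Sc_K h κ) (q : ℝ × E3) :
    Integrable (fun p => Sc_w h κ p q) mQ ∧ ∫ p, Sc_w h κ p q ∂mQ ≤ 1 := by
  have h1 : Integrable (fun t : ℝ => Sc_f h (q.1 - t)) volume := (Sc_f_int h).comp_sub_left _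
  have h2 : Integrable (fun y : E3 => κ (y - q.2)) volume := H.int.comp_sub_right _
  refine ⟨(h1.restrict (s := Ioo (-1) 0)).mul_prod h2, ?_⟩
  unfold Sc_w
  rw [integral_prod_mul (fun t : ℝ => Sc_f h (q.1 - t)) (fun y : E3 => κ (y - q.2)),
    integral_sub_right_eq_self κ q.2, H.one, mul_one]
  calc ∫ t in Ioo (-1 : ℝ) 0, Sc_f h (q.1 - t) ≤ ∫ t, Sc_f h (q.1 - t) :=
        setIntegral_le_integral h1 (Eventually.of_forall fun t => Sc_f_nn H.pos _)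
    _ = 1 := by rw [integral_sub_left_eq_self (Sc_f h), Sc_f_one H.pos]

/-- the kernel is bounded -/
structure Sc_B (h : ℝ) (κ : E3 → ℝ) (W : ℝ) : Prop extends Sc_K h κ where
  bd : ∀ p q, Sc_w h κ p q ≤ W

theorem Sc_B_of {C h : ℝ} {κ : E3 → ℝ} (hh : 0 < h) (hk : Mol C h κ) :
    ∃ W, 0 ≤ W ∧ Sc_B h κ W := by
  obtain ⟨M, hM⟩ := hk.cc.comp.exists_bound_of_continuous hk.cc.smooth.continuous
  have hM0 : 0 ≤ M := (norm_nonneg _).trans (hM 0)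
  refine ⟨h⁻¹ * M, mul_nonneg (inv_pos.2 hh).le hM0, Sc_K_of hh hk, fun p q => ?_⟩
  exact mul_le_mul (Sc_f_le hh _) ((le_abs_self _).trans (hM _)) (hk.nn _) (inv_pos.2 hh).le

theorem Sc_w_aesm {h : ℝ} {κ : E3 → ℝ} (H : Sc_K h κ) (p : ℝ × E3) :
    AEStronglyMeasurable (Sc_w h κ p) mQ := (Sc_int1 H p).1.1

variable {h : ℝ} {κ : E3 → ℝ} {W : ℝ}

theorem Sc_sqi {F : ℝ × E3 → E3} (hF : MemLp F 2 mQ) : Integrable (fun q => ‖F q‖ ^ 2) mQ :=
  (memLp_two_iff_integrable_sq_norm hF.1).1 hF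

theorem Sc_intw2 (H : Sc_B h κ W) (p : ℝ × E3) {F : ℝ × E3 → E3} (hF : MemLp F 2 mQ) :
    Integrable (fun q => Sc_w h κ p q * ‖F q‖ ^ 2) mQ := by
  refine (Sc_sqi hF).bdd_mul (c := W) (Sc_w_aesm H.toSc_K p) (Eventually.of_forall fun q => ?_)
  rw [Real.norm_of_nonneg (Sc_w_nn H.toSc_K p q)]
  exact H.bd p q

theorem Sc_intw1 (H : Sc_B h κ W) (p : ℝ × E3) {F : ℝ × E3 → E3} (hF : MemLp F 2 mQ) :
    Integrable (fun q => Sc_w h κ p q • F q) mQ := by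
  refine ((Sc_int1 H.toSc_K p).1.add (Sc_intw2 H p hF)).mono'
    ((Sc_w_aesm H.toSc_K p).smul hF.1) (Eventually.of_forall fun q => ?_)
  have hw := Sc_w_nn H.toSc_K p q
  rw [norm_smul, Real.norm_of_nonneg hw, Pi.add_apply]
  nlinarith [mul_nonneg hw (sq_nonneg (‖F q‖ - 1)), mul_nonneg hw (sq_nonneg ‖F q‖)]

/-- Jensen's inequality -/
theorem Sc_jen (H : Sc_B h κ W) (p : ℝ × E3) {F : ℝ × E3 → E3} (hF : MemLp F 2 mQ) :
    ‖Sc_G h κ F p‖ ^ 2 ≤ ∫ q, Sc_w h κ p q * ‖F q‖ ^ 2 ∂mQ := by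
  have hi := (Sc_intw1 H p hF).norm
  have e : (fun q => ‖Sc_w h κ p q • F q‖) = fun q => Sc_w h κ p q * ‖F q‖ := by
    ext q; rw [norm_smul, Real.norm_of_nonneg (Sc_w_nn H.toSc_K p q)]
  rw [e] at hi
  set a := ∫ q, Sc_w h κ p q * ‖F q‖ ∂mQ with ha
  have h0 : 0 ≤ a := integral_nonneg fun q => mul_nonneg (Sc_w_nn H.toSc_K p q) (norm_nonneg _)
  have h1 : ‖Sc_G h κ F p‖ ≤ a := by
    refine (norm_integral_le_integral_norm _).trans ?_
    rw [e]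
  have h2 : 0 ≤ ∫ q, (Sc_w h κ p q * ‖F q‖ ^ 2 - 2 * a * (Sc_w h κ p q * ‖F q‖) +
      a ^ 2 * Sc_w h κ p q) ∂mQ := by
    refine integral_nonneg fun q => ?_
    have : Sc_w h κ p q * ‖F q‖ ^ 2 - 2 * a * (Sc_w h κ p q * ‖F q‖) + a ^ 2 * Sc_w h κ p q =
        Sc_w h κ p q * (‖F q‖ - a) ^ 2 := by ring
    show 0 ≤ Sc_w h κ p q * ‖F q‖ ^ 2 - 2 * a * (Sc_w h κ p q * ‖F q‖) + a ^ 2 * Sc_w h κ p q
    rw [this]
    exact mul_nonneg (Sc_w_nn H.toSc_K p q) (sq_nonneg _)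
  have hs : Integrable (fun q => Sc_w h κ p q * ‖F q‖ ^ 2 - 2 * a * (Sc_w h κ p q * ‖F q‖)) mQ :=
    (Sc_intw2 H p hF).sub (hi.const_mul _)
  rw [integral_add hs ((Sc_int1 H.toSc_K p).1.const_mul _),
    integral_sub (Sc_intw2 H p hF) (hi.const_mul _), integral_const_mul, integral_const_mul,
    ← ha] at h2
  have h3 := (Sc_int1 H.toSc_K p).2
  have h4 : a ^ 2 * ∫ q, Sc_w h κ p q ∂mQ ≤ a ^ 2 := by
    have := mul_le_mul_of_nonneg_left h3 (sq_nonneg a)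
    linarith
  have h5 : ‖Sc_G h κ F p‖ ^ 2 ≤ a ^ 2 := pow_le_pow_left₀ (norm_nonneg _) h1 2
  nlinarith

theorem Sc_G_bd (H : Sc_B h κ W) (p : ℝ × E3) {F : ℝ × E3 → E3} (hF : MemLp F 2 mQ) :
    ‖Sc_G h κ F p‖ ^ 2 ≤ W * ∫ q, ‖F q‖ ^ 2 ∂mQ := by
  refine (Sc_jen H p hF).trans ?_
  rw [← integral_const_mul]
  exact integral_mono (Sc_intw2 H p hF) ((Sc_sqi hF).const_mul _)
    fun q => mul_le_mul_of_nonneg_right (H.bd p q) (sq_nonneg _)

theorem Sc_G_aesm (H : Sc_K h κ) {F : ℝ × E3 → E3} (hF : AEStronglyMeasurable F mQ) :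
    AEStronglyMeasurable (Sc_G h κ F) mQ := by
  have h1 : AEStronglyMeasurable (fun z : (ℝ × E3) × (ℝ × E3) => Sc_w h κ z.1 z.2 • F z.2)
      (Measure.prod mQ mQ) :=
    (Sc_w_meas h H.cont).aestronglyMeasurable.smul hF.comp_snd
  exact h1.integral_prod_right'

theorem Sc_G_memLp (H : Sc_B h κ W) {F : ℝ × E3 → E3} (hF : MemLp F 2 mQ) :
    MemLp (Sc_G h κ F) 2 mQ := by
  have hm := Sc_G_aesm H.toSc_K hF.1
  rw [memLp_two_iff_integrable_sq_norm hm]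
  have h1 : AEStronglyMeasurable
      (fun z : (ℝ × E3) × (ℝ × E3) => Sc_w h κ z.1 z.2 * ‖F z.2‖ ^ 2) (Measure.prod mQ mQ) :=
    (Sc_w_meas h H.cont).aestronglyMeasurable.mul ((hF.1.norm.pow 2).comp_snd)
  have h2 : Integrable (fun z : (ℝ × E3) × (ℝ × E3) => Sc_w h κ z.1 z.2 * ‖F z.2‖ ^ 2)
      (Measure.prod mQ mQ) := by
    rw [integrable_prod_iff' h1]
    refine ⟨Eventually.of_forall fun q => ?_, ?_⟩
    · show Integrable (fun p => Sc_w h κ p q * ‖F q‖ ^ 2) mQ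
      exact (Sc_int2 H.toSc_K q).1.mul_const _
    refine (Sc_sqi hF).mono' h1.norm.prod_swap.integral_prod_right'
      (Eventually.of_forall fun q => ?_)
    have e : ∀ p, ‖Sc_w h κ p q * ‖F q‖ ^ 2‖ = Sc_w h κ p q * ‖F q‖ ^ 2 := fun p =>
      Real.norm_of_nonneg (mul_nonneg (Sc_w_nn H.toSc_K p q) (sq_nonneg _))
    simp only [e]
    rw [integral_mul_const, Real.norm_of_nonneg (mul_nonneg
      (integral_nonneg fun p => Sc_w_nn H.toSc_K p q) (sq_nonneg _))]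
    have := mul_le_mul_of_nonneg_right (Sc_int2 H.toSc_K q).2 (sq_nonneg ‖F q‖)
    linarith
  refine h2.integral_prod_left.mono' (hm.norm.pow 2) (Eventually.of_forall fun p => ?_)
  rw [Real.norm_of_nonneg (sq_nonneg _)]
  exact Sc_jen H p hF

/-- weak convergence makes the averages converge pointwise -/
theorem Sc_wk (H : Sc_B h κ W) {u : ℕ → ℝ → E3 → E3} {v : ℝ → E3 → E3}
    (hu : ∀ k, MemLp (fun q : ℝ × E3 => u k q.1 q.2) 2 mQ)
    (hv : MemLp (fun q : ℝ × E3 => v q.1 q.2) 2 mQ) (hw : Wk u v) (p : ℝ × E3) :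
    Tendsto (fun k => Sc_G h κ (fun q : ℝ × E3 => u k q.1 q.2) p) atTop
      (𝓝 (Sc_G h κ (fun q : ℝ × E3 => v q.1 q.2) p)) := by
  have key : ∀ e : E3, Tendsto
      (fun k => (inner ℝ e (Sc_G h κ (fun q : ℝ × E3 => u k q.1 q.2) p) : ℝ)) atTop
      (𝓝 (inner ℝ e (Sc_G h κ (fun q : ℝ × E3 => v q.1 q.2) p))) := by
    intro e
    have hm : MemLp (fun q => Sc_w h κ p q • e) 2 mQ := by
      have hm1 : AEStronglyMeasurable (fun q => Sc_w h κ p q • e) mQ :=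
        (Sc_w_aesm H.toSc_K p).smul_const e
      rw [memLp_two_iff_integrable_sq_norm hm1]
      refine ((Sc_int1 H.toSc_K p).1.mul_const (W * ‖e‖ ^ 2)).mono' (hm1.norm.pow 2)
        (Eventually.of_forall fun q => ?_)
      have h1 := Sc_w_nn H.toSc_K p q
      have h2 := H.bd p q
      rw [Real.norm_of_nonneg (sq_nonneg _), norm_smul, mul_pow, Real.norm_of_nonneg h1, pow_two,
        mul_assoc]
      exact mul_le_mul_of_nonneg_left (mul_le_mul_of_nonneg_right h2 (sq_nonneg _)) h1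
    have e1 : ∀ F : ℝ × E3 → E3, MemLp F 2 mQ →
        ∫ q, (inner ℝ (F q) (Sc_w h κ p q • e) : ℝ) ∂mQ = inner ℝ e (Sc_G h κ F p) := by
      intro F hF
      rw [Sc_G, ← integral_inner (Sc_intw1 H p hF)]
      refine integral_congr_ae (Eventually.of_forall fun q => ?_)
      simp only [real_inner_smul_right, real_inner_comm]
    have := hw _ hm
    rw [e1 (fun q : ℝ × E3 => v q.1 q.2) hv] at this
    refine this.congr fun k => ?_
    exact e1 (fun q : ℝ × E3 => u k q.1 q.2) (hu k)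
  have b := EuclideanSpace.basisFun (Fin 3) ℝ
  have := tendsto_finsetSum (Finset.univ : Finset (Fin 3))
    fun i _ => (key (b i)).smul_const (b i)
  simpa only [b.sum_repr'] using this

/-- identification of the average -/
theorem Sc_id (H : Sc_B h κ W) {u : ℝ → E3 → E3}
    (hu : MemLp (fun q : ℝ × E3 => u q.1 q.2) 2 mQ) {s : ℝ} (hs : s ∈ Ioo (-1 : ℝ) (-h))
    (x : E3) :
    h⁻¹ • (∫ t in s..(s + h), mo κ (u t) x) = Sc_G h κ (fun q : ℝ × E3 => u q.1 q.2) (s, x) := by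
  unfold Sc_G
  rw [integral_prod _ (Sc_intw1 H (s, x) hu)]
  have e1 : ∀ t : ℝ, ∫ y : E3, Sc_w h κ (s, x) (t, y) • u t y =
      (Ioo s (s + h)).indicator (fun t => h⁻¹ • mo κ (u t) x) t := by
    intro t
    unfold Sc_w Sc_f mo
    by_cases ht : t ∈ Ioo s (s + h)
    · have ht' : t - s ∈ Ioo 0 h := ⟨by linarith [ht.1], by linarith [ht.2]⟩
      simp only [indicator_of_mem ht, indicator_of_mem ht', mul_smul]
      rw [integral_smul]
    · have ht' : t - s ∉ Ioo 0 h := fun h' => ht ⟨by linarith [h'.1], by linarith [h'.2]⟩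
      simp only [indicator_of_notMem ht, indicator_of_notMem ht', zero_mul, zero_smul,
        integral_zero]
  simp only [e1]
  rw [setIntegral_indicator measurableSet_Ioo, intervalIntegral.integral_of_le
    (by linarith [H.pos]), integral_Ioc_eq_integral_Ioo, integral_smul]
  congr 3
  ext t
  simp only [mem_inter_iff, mem_Ioo]
  have := hs.1
  have := hs.2
  constructor
  · rintro ⟨h1, h2⟩
    exact ⟨⟨by linarith, by linarith⟩, h1, h2⟩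
  · exact fun h1 => h1.2

theorem Sc_ae : ∀ᵐ q ∂mQ, q.1 ∈ Ioo (-1 : ℝ) 0 :=
  Measure.quasiMeasurePreserving_fst.ae (ae_restrict_mem measurableSet_Ioo)

/-- the averages are close, on the early times -/
theorem Sc_near (H : Sc_B h κ W) (R : ℝ) {u : ℝ → E3 → E3}
    (hu : MemLp (fun q : ℝ × E3 => u q.1 q.2) 2 mQ) {B : ℝ}
    (hB : ∫ q in (Ioo (-1 : ℝ) (-h)) ×ˢ (univ : Set E3),
        ‖(h⁻¹ • ∫ t in q.1..(q.1 + h), mo κ (u t) q.2) - u q.1 q.2‖ ^ 2 ∂mQ ≤ B) :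
    ∫ q in Iio (-h) ×ˢ Metric.ball (0 : E3) R,
      ‖Sc_G h κ (fun q : ℝ × E3 => u q.1 q.2) q - u q.1 q.2‖ ^ 2 ∂mQ ≤ B := by
  refine le_trans ?_ hB
  have e1 : ∫ q in (Ioo (-1 : ℝ) (-h)) ×ˢ (univ : Set E3),
        ‖(h⁻¹ • ∫ t in q.1..(q.1 + h), mo κ (u t) q.2) - u q.1 q.2‖ ^ 2 ∂mQ =
      ∫ q in (Ioo (-1 : ℝ) (-h)) ×ˢ (univ : Set E3),
        ‖Sc_G h κ (fun q : ℝ × E3 => u q.1 q.2) q - u q.1 q.2‖ ^ 2 ∂mQ := by
    refine setIntegral_congr_fun (measurableSet_Ioo.prod MeasurableSet.univ) fun q hq => ?_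
    show ‖(h⁻¹ • ∫ t in q.1..(q.1 + h), mo κ (u t) q.2) - u q.1 q.2‖ ^ 2 = _
    rw [Sc_id H hu hq.1 q.2]
  rw [e1]
  refine setIntegral_mono_set (Sc_sqi ((Sc_G_memLp H hu).sub hu)).integrableOn
    (Eventually.of_forall fun q => sq_nonneg _) ?_
  filter_upwards [Sc_ae] with q hq hq'
  exact ⟨⟨hq.1, hq'.1⟩, mem_univ _⟩

theorem Sc_late {h K : ℝ} (hh : 0 < h) (hK : 0 ≤ K) (R : ℝ) {u : ℝ → E3 → E3}
    (hu : MemLp (fun q : ℝ × E3 => u q.1 q.2) 2 mQ) (h1 : ∀ᵐ s ∂mI, MemLp (u s) 2 volume)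
    (he : ∀ᵐ s ∂mI, sq (u s) ≤ K) :
    ∫ q in Ici (-h) ×ˢ Metric.ball (0 : E3) R, ‖u q.1 q.2‖ ^ 2 ∂mQ ≤ h * K := by
  rw [setIntegral_prod _ (Sc_sqi hu).integrableOn]
  have hI : mI.real (Ici (-h)) ≤ h := by
    have h3 : mI (Ici (-h)) ≤ ENNReal.ofReal h := by
      rw [Measure.restrict_apply measurableSet_Ici]
      calc volume (Ici (-h) ∩ Ioo (-1) 0) ≤ volume (Ico (-h) 0) :=
            measure_mono fun t ht => ⟨ht.1, ht.2.2⟩
        _ = ENNReal.ofReal h := by rw [Real.volume_Ico]; congr 1; ring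
    exact ENNReal.toReal_le_of_le_ofReal hh.le h3
  calc ∫ s in Ici (-h), (∫ y in Metric.ball (0 : E3) R, ‖u s y‖ ^ 2) ∂mI
      ≤ ∫ _ in Ici (-h), K ∂mI := by
        refine integral_mono_of_nonneg (Eventually.of_forall fun s => integral_nonneg
          fun y => sq_nonneg _) (integrable_const _) (ae_restrict_of_ae ?_)
        filter_upwards [h1, he] with s h1 h2
        refine le_trans ?_ h2
        exact setIntegral_le_integral ((memLp_two_iff_integrable_sq_norm h1.1).1 h1)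
          (Eventually.of_forall fun y => sq_nonneg _)
    _ = mI.real (Ici (-h)) * K := by rw [setIntegral_const, smul_eq_mul]
    _ ≤ h * K := mul_le_mul_of_nonneg_right hI hK

theorem Sc_four (T : Set (ℝ × E3)) {a b c d e : ℝ × E3 → E3} (ha : MemLp a 2 mQ)
    (hb : MemLp b 2 mQ) (hc : MemLp c 2 mQ) (hd : MemLp d 2 mQ) (he : MemLp e 2 mQ) :
    ∫ q in T, ‖a q - e q‖ ^ 2 ∂mQ ≤ 4 * (∫ q in T, ‖b q - a q‖ ^ 2 ∂mQ) +
      4 * (∫ q in T, ‖b q - c q‖ ^ 2 ∂mQ) + 4 * (∫ q in T, ‖d q - c q‖ ^ 2 ∂mQ) +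
        4 * (∫ q in T, ‖d q - e q‖ ^ 2 ∂mQ) := by
  have i1 : Integrable (fun q => 4 * ‖b q - a q‖ ^ 2) (mQ.restrict T) :=
    ((Sc_sqi (hb.sub ha)).integrableOn (s := T)).const_mul 4
  have i2 : Integrable (fun q => 4 * ‖b q - c q‖ ^ 2) (mQ.restrict T) :=
    ((Sc_sqi (hb.sub hc)).integrableOn (s := T)).const_mul 4
  have i3 : Integrable (fun q => 4 * ‖d q - c q‖ ^ 2) (mQ.restrict T) :=
    ((Sc_sqi (hd.sub hc)).integrableOn (s := T)).const_mul 4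
  have i4 : Integrable (fun q => 4 * ‖d q - e q‖ ^ 2) (mQ.restrict T) :=
    ((Sc_sqi (hd.sub he)).integrableOn (s := T)).const_mul 4
  have i0 : Integrable (fun q => ‖a q - e q‖ ^ 2) (mQ.restrict T) :=
    (Sc_sqi (ha.sub he)).integrableOn (s := T)
  have i12 : Integrable (fun q => 4 * ‖b q - a q‖ ^ 2 + 4 * ‖b q - c q‖ ^ 2) (mQ.restrict T) :=
    i1.add i2
  have i123 : Integrable (fun q => 4 * ‖b q - a q‖ ^ 2 + 4 * ‖b q - c q‖ ^ 2 +
      4 * ‖d q - c q‖ ^ 2) (mQ.restrict T) := i12.add i3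
  have i1234 : Integrable (fun q => 4 * ‖b q - a q‖ ^ 2 + 4 * ‖b q - c q‖ ^ 2 +
      4 * ‖d q - c q‖ ^ 2 + 4 * ‖d q - e q‖ ^ 2) (mQ.restrict T) := i123.add i4
  calc ∫ q in T, ‖a q - e q‖ ^ 2 ∂mQ ≤ ∫ q in T, (4 * ‖b q - a q‖ ^ 2 + 4 * ‖b q - c q‖ ^ 2 +
      4 * ‖d q - c q‖ ^ 2 + 4 * ‖d q - e q‖ ^ 2) ∂mQ := by
        refine integral_mono i0 i1234 fun q => ?_
        have h1 : ‖a q - e q‖ ≤ ‖b q - a q‖ + ‖b q - c q‖ + ‖d q - c q‖ + ‖d q - e q‖ := by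
          have e1 : a q - e q = -(b q - a q) + (b q - c q) + -(d q - c q) + (d q - e q) := by abel
          rw [e1]
          refine (norm_add_le _ _).trans (add_le_add_left ?_ _)
          refine (norm_add_le _ _).trans ?_
          rw [norm_neg]
          refine add_le_add_left ?_ _
          refine (norm_add_le _ _).trans ?_
          rw [norm_neg]
        have h2 := pow_le_pow_left₀ (norm_nonneg _) h1 2
        show ‖a q - e q‖ ^ 2 ≤ 4 * ‖b q - a q‖ ^ 2 + 4 * ‖b q - c q‖ ^ 2 +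
          4 * ‖d q - c q‖ ^ 2 + 4 * ‖d q - e q‖ ^ 2
        nlinarith [sq_nonneg (‖b q - a q‖ - ‖b q - c q‖), sq_nonneg (‖b q - a q‖ - ‖d q - c q‖),
          sq_nonneg (‖b q - a q‖ - ‖d q - e q‖), sq_nonneg (‖b q - c q‖ - ‖d q - c q‖),
          sq_nonneg (‖b q - c q‖ - ‖d q - e q‖), sq_nonneg (‖d q - c q‖ - ‖d q - e q‖)]
    _ = _ := by
        rw [integral_add i123 i4, integral_add i12 i3, integral_add i1 i2, integral_const_mul,
          integral_const_mul, integral_const_mul, integral_const_mul]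

theorem Sc_two (T : Set (ℝ × E3)) {a e : ℝ × E3 → E3} (ha : MemLp a 2 mQ)
    (he : MemLp e 2 mQ) :
    ∫ q in T, ‖a q - e q‖ ^ 2 ∂mQ ≤ 2 * (∫ q in T, ‖a q‖ ^ 2 ∂mQ) +
      2 * (∫ q in T, ‖e q‖ ^ 2 ∂mQ) := by
  have i1 : Integrable (fun q => 2 * ‖a q‖ ^ 2) (mQ.restrict T) :=
    ((Sc_sqi ha).integrableOn (s := T)).const_mul 2
  have i2 : Integrable (fun q => 2 * ‖e q‖ ^ 2) (mQ.restrict T) :=
    ((Sc_sqi he).integrableOn (s := T)).const_mul 2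
  have i0 : Integrable (fun q => ‖a q - e q‖ ^ 2) (mQ.restrict T) :=
    (Sc_sqi (ha.sub he)).integrableOn (s := T)
  have i12 : Integrable (fun q => 2 * ‖a q‖ ^ 2 + 2 * ‖e q‖ ^ 2) (mQ.restrict T) := i1.add i2
  calc ∫ q in T, ‖a q - e q‖ ^ 2 ∂mQ ≤ ∫ q in T, (2 * ‖a q‖ ^ 2 + 2 * ‖e q‖ ^ 2) ∂mQ := by
        refine integral_mono i0 i12 fun q => ?_
        have h2 := pow_le_pow_left₀ (norm_nonneg _) (norm_sub_le (a q) (e q)) 2
        show ‖a q - e q‖ ^ 2 ≤ 2 * ‖a q‖ ^ 2 + 2 * ‖e q‖ ^ 2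
        nlinarith [sq_nonneg (‖a q‖ - ‖e q‖)]
    _ = _ := by
        rw [integral_add i1 i2, integral_const_mul, integral_const_mul]

theorem Sc_inn {a e : ℝ × E3 → E3} (ha : MemLp a 2 mQ) (he : MemLp e 2 mQ) :
    Integrable (fun q => (inner ℝ (a q) (e q) : ℝ)) mQ := by
  refine ((Sc_sqi ha).add (Sc_sqi he)).mono' (ha.1.inner he.1) (Eventually.of_forall fun q => ?_)
  refine (norm_inner_le_norm _ _).trans ?_
  rw [Pi.add_apply]
  nlinarith [sq_nonneg (‖a q‖ - ‖e q‖), sq_nonneg ‖a q‖, sq_nonneg ‖e q‖]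

/-- dominated convergence of the averages -/
theorem Sc_dom (H : Sc_B h κ W) (hW : 0 ≤ W) (R K : ℝ) {u : ℕ → ℝ → E3 → E3} {v : ℝ → E3 → E3}
    (hu : ∀ k, MemLp (fun q : ℝ × E3 => u k q.1 q.2) 2 mQ)
    (hK : ∀ k, ∫ q : ℝ × E3, ‖u k q.1 q.2‖ ^ 2 ∂mQ ≤ K)
    (hv : MemLp (fun q : ℝ × E3 => v q.1 q.2) 2 mQ) (hw : Wk u v) :
    Tendsto (fun k => ∫ q in Iio (-h) ×ˢ Metric.ball (0 : E3) R,
      ‖Sc_G h κ (fun q : ℝ × E3 => u k q.1 q.2) q -
        Sc_G h κ (fun q : ℝ × E3 => v q.1 q.2) q‖ ^ 2 ∂mQ) atTop (𝓝 0) := by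
  have hfin : mQ (Iio (-h) ×ˢ Metric.ball (0 : E3) R) < (⊤ : ℝ≥0∞) := by
    rw [Measure.prod_prod]
    exact ENNReal.mul_lt_top (measure_lt_top _ _) measure_ball_lt_top
  have hcst : IntegrableOn (fun _ : ℝ × E3 => 2 * (W * K) + 2 * (W * ∫ q : ℝ × E3,
      ‖v q.1 q.2‖ ^ 2 ∂mQ)) (Iio (-h) ×ˢ Metric.ball (0 : E3) R) mQ :=
    integrableOn_const hfin.ne
  have e0 : (0 : ℝ) = ∫ q in Iio (-h) ×ˢ Metric.ball (0 : E3) R, (0 : ℝ) ∂mQ := by simp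
  rw [e0]
  refine tendsto_integral_of_dominated_convergence
    (fun _ => 2 * (W * K) + 2 * (W * ∫ q : ℝ × E3, ‖v q.1 q.2‖ ^ 2 ∂mQ)) (fun k => ?_)
    hcst (fun k => Eventually.of_forall fun q => ?_)
    (Eventually.of_forall fun q => ?_)
  · exact ((((Sc_G_aesm H.toSc_K (hu k).1).sub (Sc_G_aesm H.toSc_K hv.1)).norm.pow 2)).restrict
  · rw [Real.norm_of_nonneg (sq_nonneg _)]
    have h1 := Sc_G_bd H q (hu k)
    have h2 := Sc_G_bd H q hv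
    have h3 := mul_le_mul_of_nonneg_left (hK k) hW
    have h4 := pow_le_pow_left₀ (norm_nonneg _)
      (norm_sub_le (Sc_G h κ (fun q : ℝ × E3 => u k q.1 q.2) q)
        (Sc_G h κ (fun q : ℝ × E3 => v q.1 q.2) q)) 2
    nlinarith [sq_nonneg (‖Sc_G h κ (fun q : ℝ × E3 => u k q.1 q.2) q‖ -
      ‖Sc_G h κ (fun q : ℝ × E3 => v q.1 q.2) q‖)]
  · have h1 := Sc_wk H hu hv hw q
    have h2 := ((h1.sub_const (Sc_G h κ (fun q : ℝ × E3 => v q.1 q.2) q)).norm.pow 2)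
    simpa using h2

/-- weak lower semicontinuity -/
theorem Sc_lsc {u : ℕ → ℝ → E3 → E3} {v : ℝ → E3 → E3}
    (hu : ∀ k, MemLp (fun q : ℝ × E3 => u k q.1 q.2) 2 mQ)
    (hv : MemLp (fun q : ℝ × E3 => v q.1 q.2) 2 mQ) (hw : Wk u v) {S : Set (ℝ × E3)}
    (hS : MeasurableSet S) {a : ℕ → ℝ} {L b : ℝ} (ha : Tendsto a atTop (𝓝 L))
    (hX : ∀ k l, ∫ q in S, ‖u k q.1 q.2 - u l q.1 q.2‖ ^ 2 ∂mQ ≤ a k + a l + b) (k : ℕ) :
    ∫ q in S, ‖u k q.1 q.2 - v q.1 q.2‖ ^ 2 ∂mQ ≤ a k + L + b := by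
  set Ψ : ℝ × E3 → E3 := S.indicator (fun q : ℝ × E3 => u k q.1 q.2 - v q.1 q.2) with hΨ
  have hm : MemLp Ψ 2 mQ := ((hu k).sub hv).indicator hS
  have hs : MemLp (fun q : ℝ × E3 => u k q.1 q.2 - v q.1 q.2) 2 mQ := (hu k).sub hv
  have e1 : ∀ F : ℝ × E3 → E3, ∫ q, (inner ℝ (F q) (Ψ q) : ℝ) ∂mQ =
      ∫ q in S, (inner ℝ (F q) (u k q.1 q.2 - v q.1 q.2) : ℝ) ∂mQ := by
    intro F
    rw [← integral_indicator hS]
    refine integral_congr_ae (Eventually.of_forall fun q => ?_)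
    by_cases hq : q ∈ S
    · simp only [hΨ, indicator_of_mem hq]
    · simp only [hΨ, indicator_of_notMem hq, inner_zero_right]
  set D := ∫ q in S, ‖u k q.1 q.2 - v q.1 q.2‖ ^ 2 ∂mQ with hD
  set c0 := ∫ q : ℝ × E3, (inner ℝ (u k q.1 q.2) (Ψ q) : ℝ) ∂mQ with hc0
  have h1 : Tendsto (fun l => c0 - ∫ q : ℝ × E3, (inner ℝ (u l q.1 q.2) (Ψ q) : ℝ) ∂mQ) atTop
      (𝓝 (c0 - ∫ q : ℝ × E3, (inner ℝ (v q.1 q.2) (Ψ q) : ℝ) ∂mQ)) := (hw Ψ hm).const_sub c0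
  have e2 : c0 - ∫ q : ℝ × E3, (inner ℝ (v q.1 q.2) (Ψ q) : ℝ) ∂mQ = D := by
    rw [hc0, e1 (fun q : ℝ × E3 => u k q.1 q.2), e1 (fun q : ℝ × E3 => v q.1 q.2),
      ← integral_sub (Sc_inn (hu k) hs).integrableOn (Sc_inn hv hs).integrableOn]
    refine integral_congr_ae (Eventually.of_forall fun q => ?_)
    simp only [← inner_sub_left, real_inner_self_eq_norm_sq]
  rw [e2] at h1
  have h2 : Tendsto (fun l => (a k + a l + b + D) / 2) atTop (𝓝 ((a k + L + b + D) / 2)) :=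
    (((ha.const_add (a k)).add_const b).add_const D).div_const 2
  have h3 : ∀ l, c0 - ∫ q : ℝ × E3, (inner ℝ (u l q.1 q.2) (Ψ q) : ℝ) ∂mQ ≤
      (a k + a l + b + D) / 2 := by
    intro l
    rw [hc0, e1 (fun q : ℝ × E3 => u k q.1 q.2), e1 (fun q : ℝ × E3 => u l q.1 q.2),
      ← integral_sub (Sc_inn (hu k) hs).integrableOn (Sc_inn (hu l) hs).integrableOn]
    have i1 : Integrable (fun q : ℝ × E3 => ‖u k q.1 q.2 - u l q.1 q.2‖ ^ 2) (mQ.restrict S) :=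
      (Sc_sqi ((hu k).sub (hu l))).integrableOn
    have i2 : Integrable (fun q : ℝ × E3 => ‖u k q.1 q.2 - v q.1 q.2‖ ^ 2) (mQ.restrict S) :=
      (Sc_sqi hs).integrableOn
    have h4 : ∫ q in S, ((inner ℝ (u k q.1 q.2) (u k q.1 q.2 - v q.1 q.2) : ℝ) -
        inner ℝ (u l q.1 q.2) (u k q.1 q.2 - v q.1 q.2)) ∂mQ ≤
        ∫ q in S, (‖u k q.1 q.2 - u l q.1 q.2‖ ^ 2 + ‖u k q.1 q.2 - v q.1 q.2‖ ^ 2) / 2 ∂mQ := by
      refine integral_mono ((Sc_inn (hu k) hs).integrableOn.sub (Sc_inn (hu l) hs).integrableOn)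
        ((i1.add i2).div_const 2) fun q => ?_
      show (inner ℝ (u k q.1 q.2) (u k q.1 q.2 - v q.1 q.2) : ℝ) -
        inner ℝ (u l q.1 q.2) (u k q.1 q.2 - v q.1 q.2) ≤
        (‖u k q.1 q.2 - u l q.1 q.2‖ ^ 2 + ‖u k q.1 q.2 - v q.1 q.2‖ ^ 2) / 2
      rw [← inner_sub_left]
      have := real_inner_le_norm (u k q.1 q.2 - u l q.1 q.2) (u k q.1 q.2 - v q.1 q.2)
      nlinarith [sq_nonneg (‖u k q.1 q.2 - u l q.1 q.2‖ - ‖u k q.1 q.2 - v q.1 q.2‖)]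
    refine h4.trans ?_
    rw [integral_div, integral_add i1 i2, ← hD]
    have := hX k l
    linarith
  have h5 := le_of_tendsto_of_tendsto' h1 h2 h3
  linarith

/-- **Sc** -/
theorem hSc (h1 : StBb) (h2 : StAv) : StSc := by
  intro O u A K c e hB hK v hv hw R
  have hF := fun k => ((h1 O u A K c e hB).1 k).1
  have hFK := fun k => ((h1 O u A K c e hB).1 k).2
  have hS : MeasurableSet ((univ : Set ℝ) ×ˢ Metric.ball (0 : E3) R) :=
    MeasurableSet.univ.prod measurableSet_ball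
  obtain ⟨C, hC, hker⟩ := Pool.Agent.Helper60.EC.G7a_kernel
  have core : ∀ h : ℝ, 0 < h → h < 1 → ∃ a : ℕ → ℝ, Tendsto a atTop
      (𝓝 (4 * (2 * K * (1 + 2 * Real.sqrt K) * h ^ (1 / 4 : ℝ) + 2 * h ^ 2 * K))) ∧
      ∀ k, ∫ q in (univ : Set ℝ) ×ˢ Metric.ball (0 : E3) R,
        ‖u k q.1 q.2 - v q.1 q.2‖ ^ 2 ∂mQ ≤
          a k + 4 * (2 * K * (1 + 2 * Real.sqrt K) * h ^ (1 / 4 : ℝ) + 2 * h ^ 2 * K) +
            4 * h * K := by
    intro h hh hh1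
    obtain ⟨κ, k1, k2, k3, k4, k5⟩ := hker h hh
    have hk : Mol C h κ := ⟨k1, k2, k3, k4, k5⟩
    obtain ⟨W, hW, H⟩ := Sc_B_of hh hk
    set T : Set (ℝ × E3) := Iio (-h) ×ˢ Metric.ball (0 : E3) R with hT
    set T' : Set (ℝ × E3) := Ici (-h) ×ˢ Metric.ball (0 : E3) R with hT'
    set δ : ℕ → ℝ := fun k => ∫ q in T, ‖Sc_G h κ (fun q : ℝ × E3 => u k q.1 q.2) q -
        Sc_G h κ (fun q : ℝ × E3 => v q.1 q.2) q‖ ^ 2 ∂mQ with hδ
    have hδ0 : Tendsto δ atTop (𝓝 0) := Sc_dom H hW R K hF hFK hv hw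
    refine ⟨fun k => 4 * (2 * K * (1 + 2 * Real.sqrt K) * (e k + h ^ (1 / 4 : ℝ)) +
      2 * h ^ 2 * K) + 4 * δ k, ?_, ?_⟩
    · have := ((((hB.e0.add_const (h ^ (1 / 4 : ℝ))).const_mul
        (2 * K * (1 + 2 * Real.sqrt K))).add_const (2 * h ^ 2 * K)).const_mul 4).add
        (hδ0.const_mul 4)
      simpa using this
    · have hlim : Tendsto (fun k => 4 * (2 * K * (1 + 2 * Real.sqrt K) *
          (e k + h ^ (1 / 4 : ℝ)) + 2 * h ^ 2 * K) + 4 * δ k) atTop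
          (𝓝 (4 * (2 * K * (1 + 2 * Real.sqrt K) * h ^ (1 / 4 : ℝ) + 2 * h ^ 2 * K))) := by
        have := ((((hB.e0.add_const (h ^ (1 / 4 : ℝ))).const_mul
          (2 * K * (1 + 2 * Real.sqrt K))).add_const (2 * h ^ 2 * K)).const_mul 4).add
          (hδ0.const_mul 4)
        simpa using this
      refine Sc_lsc hF hv hw hS hlim fun k l => ?_
      have hST : (univ : Set ℝ) ×ˢ Metric.ball (0 : E3) R = T ∪ T' := by
        rw [hT, hT', ← union_prod, Iio_union_Ici]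
      have hdis : Disjoint T T' := by
        rw [Set.disjoint_left]
        intro q hq hq'
        exact not_lt.2 (mem_Ici.1 hq'.1) (mem_Iio.1 hq.1)
      have hmT' : MeasurableSet T' := measurableSet_Ici.prod measurableSet_ball
      have hi := Sc_sqi ((hF k).sub (hF l))
      have hun : ∫ q in (univ : Set ℝ) ×ˢ Metric.ball (0 : E3) R,
          ‖u k q.1 q.2 - u l q.1 q.2‖ ^ 2 ∂mQ =
          (∫ q in T, ‖u k q.1 q.2 - u l q.1 q.2‖ ^ 2 ∂mQ) +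
            ∫ q in T', ‖u k q.1 q.2 - u l q.1 q.2‖ ^ 2 ∂mQ := by
        rw [hST]
        exact setIntegral_union hdis hmT' hi.integrableOn hi.integrableOn
      rw [hun]
      have f1 := Sc_four T (hF k) (Sc_G_memLp H (hF k)) (Sc_G_memLp H hv)
        (Sc_G_memLp H (hF l)) (hF l)
      have n1 := Sc_near H R (hF k) (h2 O u A K c e hB hK C h κ hh hh1 hk k)
      have n2 := Sc_near H R (hF l) (h2 O u A K c e hB hK C h κ hh hh1 hk l)
      have g1 := Sc_two T' (hF k) (hF l)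
      have l1 := Sc_late hh hK R (hF k) ((hB.h1 k).mono fun s hs => hs.l2) (hB.energy k)
      have l2 := Sc_late hh hK R (hF l) ((hB.h1 l).mono fun s hs => hs.l2) (hB.energy l)
      simp only [hδ]
      linarith
  have hD0 : ∀ k, 0 ≤ ∫ q in (univ : Set ℝ) ×ˢ Metric.ball (0 : E3) R,
      ‖u k q.1 q.2 - v q.1 q.2‖ ^ 2 ∂mQ := fun k => integral_nonneg fun q => sq_nonneg _
  have hφ : Tendsto (fun h : ℝ => 8 * (2 * K * (1 + 2 * Real.sqrt K) * h ^ (1 / 4 : ℝ) +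
      2 * h ^ 2 * K) + 4 * h * K) (𝓝[>] 0) (𝓝 0) := by
    have hc : Continuous (fun h : ℝ => 8 * (2 * K * (1 + 2 * Real.sqrt K) * h ^ (1 / 4 : ℝ) +
      2 * h ^ 2 * K) + 4 * h * K) := by
      have : Continuous fun h : ℝ => h ^ (1 / 4 : ℝ) := Real.continuous_rpow_const (by norm_num)
      fun_prop
    have := (hc.tendsto 0).mono_left (nhdsWithin_le_nhds (s := Ioi 0))
    have e0 : (8 * (2 * K * (1 + 2 * Real.sqrt K) * (0 : ℝ) ^ (1 / 4 : ℝ) +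
      2 * (0 : ℝ) ^ 2 * K) + 4 * 0 * K) = 0 := by
      rw [Real.zero_rpow (by norm_num)]; ring
    rwa [e0] at this
  rw [Metric.tendsto_atTop]
  intro ε hε
  have ev : ∀ᶠ h : ℝ in 𝓝[>] 0, 8 * (2 * K * (1 + 2 * Real.sqrt K) * h ^ (1 / 4 : ℝ) +
      2 * h ^ 2 * K) + 4 * h * K < ε ∧ (0 < h ∧ h < 1) :=
    (hφ.eventually (gt_mem_nhds hε)).and (Ioo_mem_nhdsGT one_pos)
  obtain ⟨h, hhε, hh, hh1⟩ := ev.exists
  obtain ⟨a, ha, hb⟩ := core h hh hh1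
  have h3 : Tendsto (fun k => a k + 4 * (2 * K * (1 + 2 * Real.sqrt K) * h ^ (1 / 4 : ℝ) +
      2 * h ^ 2 * K) + 4 * h * K) atTop
      (𝓝 (4 * (2 * K * (1 + 2 * Real.sqrt K) * h ^ (1 / 4 : ℝ) + 2 * h ^ 2 * K) +
        4 * (2 * K * (1 + 2 * Real.sqrt K) * h ^ (1 / 4 : ℝ) + 2 * h ^ 2 * K) + 4 * h * K)) :=
    (ha.add_const _).add_const _
  have h4 := h3.eventually (gt_mem_nhds (show _ < ε by linarith))
  obtain ⟨N, hN⟩ := eventually_atTop.1 h4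
  refine ⟨N, fun k hk => ?_⟩
  rw [Real.dist_eq, sub_zero, abs_of_nonneg (hD0 k)]
  exact (hb k).trans_lt (hN k hk)

end Pool.Agent.Helper83.CR
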