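import Pool.Agent.Helper83.CR.M_CmtI
import Pool.Agent.Helper83.CR.M_Ineq

/-! Project CR, module Sl: the renormalised inequality at one time -/

set_option autoImplicit false

open MeasureTheory Set Filter Topology
open scoped ENNReal ContDiff

noncomputable section

namespace Pool.Agent.Helper83.CR

open Pool.Agent.Helper52.NSE (E3 pd divg TestField MemH1s MemL2s IsWeakSolution gradSq kin
  IsSmoothBoundedDomain)
open Pool.Agent.Helper60.EC (D Cc curl grad cr ip sq nl adv sm gsq fn Hs cc_memLp Calc2b_cs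
  Calc2b_int sqrt_sq_sub_le Calc3b_nsq sq_nonneg' norm_grad_sq cc_grad Calc1c_bound Calc2a_int
  ip_adv Calc3b_inner Calc3b_grad cc_D D_smooth norm_adv_le)

theorem Sl_bt_smooth {κ : ℝ} (hκ : 0 < κ) : ContDiff ℝ ∞ (bt κ) := by
  unfold bt
  refine contDiff_const.mul (ContDiff.log ?_ fun y => ?_)
  · exact contDiff_const.add ((contDiff_norm_sq ℝ).div_const _)
  · positivity

/-- the mollified field is divergence free -/
theorem Sl_div (h1 : StMoA) (h3 : StCu) {k : E3 → ℝ} (hk : Cc k) {w : E3 → E3}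
    {A : Fin 3 → E3 → E3} (hH : H1 w A) (hd : dv A =ᵐ[volume] 0) (x : E3) :
    divg (mo k w) x = 0 := by
  have e := ((h3 w A hH).2 k hk x).2.2 hd
  have hi : ∀ i, Integrable (fun y => D i k (x - y) • w y) volume := by
    intro i
    have hc : Cc (fun y => D i k (x - y)) :=
      ⟨(cc_D hk i).smooth.comp (by fun_prop),
        (cc_D hk i).comp.comp_homeomorph (Homeomorph.subLeft x)⟩
    exact CmtI_int_smul (cc_memLp hc 2) hH.l2
  have hD : ∀ i, D i (mo k w) x = mo (D i k) w x := fun i => ((h1 k hk).1 w hH.l2).2.1 i x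
  have hc : ∀ i : Fin 3, (mo (D i k) w x) i = ∫ y, D i k (x - y) * (w y) i := by
    intro i
    have := (EuclideanSpace.proj (𝕜 := ℝ) i : E3 →L[ℝ] ℝ).integral_comp_comm (hi i)
    have e2 : (mo (D i k) w x) i =
        (EuclideanSpace.proj (𝕜 := ℝ) i : E3 →L[ℝ] ℝ) (∫ y, D i k (x - y) • w y) := rfl
    rw [e2, ← this]
    rfl
  have hci : ∀ i : Fin 3, Integrable (fun y => D i k (x - y) * (w y) i) volume := by
    intro i
    have := (EuclideanSpace.proj (𝕜 := ℝ) i : E3 →L[ℝ] ℝ).integrable_comp (hi i)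
    exact this
  have e3 : divg (mo k w) x = ∑ i : Fin 3, (mo (D i k) w x) i := by
    unfold divg
    refine Finset.sum_congr rfl fun i _ => ?_
    have : pd (mo k w) i x = D i (mo k w) x := rfl
    rw [this, hD i]
  rw [e3]
  simp_rw [hc]
  rw [← integral_finsetSum _ fun i _ => hci i, ← e]
  refine integral_congr_ae (Eventually.of_forall fun y => ?_)
  show ∑ i : Fin 3, D i k (x - y) * (w y) i = (inner ℝ (grad k (x - y)) (w y) : ℝ)
  rw [Calc3b_inner, Fin.sum_univ_three, Calc3b_grad, Calc3b_grad, Calc3b_grad]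

/-- the chain rule for `bt κ (W x)` -/
theorem Sl_chain (h6 : StBt) {κ : ℝ} (hκ : 0 < κ) {W : E3 → E3} (hW : ContDiff ℝ ∞ W)
    (V : E3 → E3) (x : E3) :
    (inner ℝ (gb κ (W x)) (adv V W x) : ℝ) = adv V (fun y => bt κ (W y)) x := by
  obtain ⟨-, -, -, -, -, -, b6, -⟩ := h6.1 κ hκ
  have hd : DifferentiableAt ℝ W x := hW.differentiable (by simp) x
  have hD : ∀ i, D i (fun y => bt κ (W y)) x = (inner ℝ (gb κ (W x)) (D i W x) : ℝ) := by
    intro i
    have h := (b6 (W x)).comp x hd.hasFDerivAt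
    have h' : fderiv ℝ (fun y => bt κ (W y)) x =
      (innerSL ℝ (gb κ (W x))).comp (fderiv ℝ W x) := h.fderiv
    unfold D
    rw [h']
    rfl
  unfold adv
  rw [inner_sum]
  refine Finset.sum_congr rfl fun i _ => ?_
  rw [hD i, real_inner_smul_right, smul_eq_mul]

theorem Sl_adv_cont {F : Type} [NormedAddCommGroup F] [InnerProductSpace ℝ F] {V : E3 → E3}
    {f : E3 → F} (hV : ContDiff ℝ ∞ V) (hf : ContDiff ℝ ∞ f) : Continuous (adv V f) :=
  (Helper60.EC.adv_smooth hV hf).continuous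

theorem hSl (h1 : StMoA) (h2 : StMoB) (h3 : StCu) (h4 : StCmtI) (h5 : StCmtB) (h6 : StBt) :
    StSl := by
  intro C ε k hε hk w A hH hd κ hκ φ hφ h0
  have hom : MemLp (om A) 2 volume := CmtI_om_l2 hH.gl2
  have hV : ContDiff ℝ ∞ (mo k w) := ((h1 k hk.cc).1 w hH.l2).1
  have hW : ContDiff ℝ ∞ (mo k (om A)) := ((h1 k hk.cc).1 (om A) hom).1
  have hA : ∀ i, ContDiff ℝ ∞ (mo k (A i)) := fun i => ((h1 k hk.cc).1 (A i) (hH.gl2 i)).1
  have hDV : ∀ i x, D i (mo k w) x = mo k (A i) x := (h1 k hk.cc).2 w A hH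
  have hN := (Ineq_cmt h5 hε hk hH).1
  have hq := h4 k hk.cc w A hH hd
  have hdiv := Sl_div h1 h3 hk.cc hH hd
  obtain ⟨b0, b1, b2, b3, b4, b5, b6, b7⟩ := h6.1 κ hκ
  set V : E3 → E3 := mo k w with hVdef
  set W : E3 → E3 := mo k (om A) with hWdef
  set N : E3 → E3 := cmt k (om A) w with hNdef
  have hh : ContDiff ℝ ∞ (fun y => bt κ (W y)) := (Sl_bt_smooth hκ).comp hW
  have cφ : Continuous φ := hφ.smooth.continuous
  have cg : Continuous (fun x => gb κ (W x)) := (Ineq_gb_cont hκ).comp hW.continuous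
  obtain ⟨Φ, hΦ0, hΦ⟩ := Calc1c_bound φ cφ hφ.comp
  -- the three terms of the left-hand side
  have i1 : Integrable (fun x => φ x * adv V (fun y => bt κ (W y)) x) volume :=
    Calc2a_int (cφ.mul (Sl_adv_cont hV hh)) hφ.comp.mul_right
  have i2 : Integrable (fun x => φ x * (inner ℝ (gb κ (W x)) (adv W V x) : ℝ)) volume :=
    Calc2a_int (cφ.mul (cg.inner (Sl_adv_cont hW hV))) hφ.comp.mul_right
  have i3 : Integrable (fun x => φ x * (inner ℝ (gb κ (W x)) (N x) : ℝ)) volume := by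
    refine (hN.norm.const_mul (Φ * (1 / (2 * κ)))).mono'
      (cφ.aestronglyMeasurable.mul (cg.aestronglyMeasurable.inner hN.1))
      (Eventually.of_forall fun x => ?_)
    rw [norm_mul, mul_assoc]
    refine mul_le_mul (hΦ x) ((norm_inner_le_norm _ _).trans ?_) (norm_nonneg _) hΦ0
    exact mul_le_mul_of_nonneg_right (b3 _) (norm_nonneg _)
  have hpt : ∀ x, φ x * (inner ℝ (gb κ (W x)) (qf k A w x) : ℝ) =
      φ x * adv V (fun y => bt κ (W y)) x - φ x * (inner ℝ (gb κ (W x)) (adv W V x) : ℝ) +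
        φ x * (inner ℝ (gb κ (W x)) (N x) : ℝ) := by
    intro x
    rw [hq x, inner_add_right, inner_sub_right, Sl_chain h6 hκ hW V x]
    ring
  -- the three terms of the right-hand side
  have hgφ := cc_grad hφ
  have j1 : Integrable (fun x => ‖V x‖ * ‖grad φ x‖ * bt κ (W x)) volume := by
    refine Calc2a_int ((hV.continuous.norm.mul hgφ.smooth.continuous.norm).mul
      hh.continuous) ?_
    exact (hgφ.comp.norm.mul_left).mul_right
  have j2 : Integrable (fun x => φ x * Real.sqrt (∑ i, ‖mo k (A i) x‖ ^ 2)) volume := by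
    refine Calc2a_int (cφ.mul (Real.continuous_sqrt.comp ?_)) hφ.comp.mul_right
    exact continuous_finsetSum _ fun i _ => (hA i).continuous.norm.pow 2
  have j3 : Integrable (fun x => φ x * (‖N x‖ / (2 * κ))) volume := by
    refine (hN.norm.const_mul (Φ * (1 / (2 * κ)))).mono'
      (cφ.aestronglyMeasurable.mul ((hN.norm.div_const (2 * κ)).1))
      (Eventually.of_forall fun x => ?_)
    rw [norm_mul, Real.norm_of_nonneg (by positivity : 0 ≤ ‖N x‖ / (2 * κ)), mul_assoc]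
    refine mul_le_mul (hΦ x) (le_of_eq ?_) (by positivity) hΦ0
    ring
  have hrh : rh k κ φ A w = fun x => (‖V x‖ * ‖grad φ x‖ * bt κ (W x) +
      φ x * Real.sqrt (∑ i, ‖mo k (A i) x‖ ^ 2)) + φ x * (‖N x‖ / (2 * κ)) := rfl
  have t1 : ∫ x, φ x * adv V (fun y => bt κ (W y)) x ≤
      ∫ x, ‖V x‖ * ‖grad φ x‖ * bt κ (W x) := by
    have e1 := ip_adv (F := ℝ) (hV.of_le (by simp)) hdiv
      (hφ.smooth.of_le (by simp) : ContDiff ℝ 1 φ)
      (hh.of_le (by simp) : ContDiff ℝ 1 (fun y => bt κ (W y))) (Or.inr (Or.inl hφ.comp))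
    have e2 : ∫ x, φ x * adv V (fun y => bt κ (W y)) x =
        ip φ (adv V (fun y => bt κ (W y))) := by
      refine integral_congr_ae (Eventually.of_forall fun x => ?_)
      simp only [RCLike.inner_apply, conj_trivial]
      ring
    have e3 : ∫ x, φ x * adv V (fun y => bt κ (W y)) x =
        ∫ x, -(adv V φ x * bt κ (W x)) := by
      rw [e2, ← neg_neg (ip φ _), ← e1, integral_neg]
      refine congrArg Neg.neg (integral_congr_ae (Eventually.of_forall fun x => ?_))
      simp only [RCLike.inner_apply, conj_trivial]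
      ring
    have i4 : Integrable (fun x => -(adv V φ x * bt κ (W x))) volume := by
      refine Calc2a_int ((Sl_adv_cont hV hφ.smooth).mul hh.continuous).neg ?_
      refine HasCompactSupport.neg (HasCompactSupport.mul_right ?_)
      refine HasCompactSupport.intro hφ.comp fun x hx => ?_
      have h : ∀ i, D i φ x = 0 := fun i => by
        have : x ∉ tsupport (D i φ) := fun h => hx (Helper60.EC.D_tsupport φ i h)
        exact image_eq_zero_of_notMem_tsupport this
      simp [adv, h]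
    rw [e3]
    refine integral_mono i4 j1 fun x => ?_
    have e5 : |adv V φ x| ≤ ‖V x‖ * ‖grad φ x‖ := by
      have e6 := norm_adv_le V φ x
      rw [← norm_grad_sq, ← mul_pow] at e6
      rw [← Real.norm_eq_abs]
      exact le_of_sq_le_sq e6 (by positivity)
    have e7 := b0 (W x)
    show -(adv V φ x * bt κ (W x)) ≤ ‖V x‖ * ‖grad φ x‖ * bt κ (W x)
    nlinarith [neg_abs_le (adv V φ x), mul_le_mul_of_nonneg_right e5 e7,
      mul_le_mul_of_nonneg_right (neg_abs_le (adv V φ x)) e7]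
  have t2 : -∫ x, φ x * (inner ℝ (gb κ (W x)) (adv W V x) : ℝ) ≤
      ∫ x, φ x * Real.sqrt (∑ i, ‖mo k (A i) x‖ ^ 2) := by
    rw [← integral_neg]
    refine integral_mono i2.neg j2 fun x => ?_
    have e1 : ‖adv W V x‖ ≤ ‖W x‖ * Real.sqrt (∑ i, ‖mo k (A i) x‖ ^ 2) := by
      have e6 := norm_adv_le W V x
      have e7 : ∑ i, ‖D i V x‖ ^ 2 = ∑ i, ‖mo k (A i) x‖ ^ 2 :=
        Finset.sum_congr rfl fun i _ => by rw [hDV i x]
      rw [e7] at e6
      refine le_of_sq_le_sq ?_ (by positivity)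
      rw [mul_pow, Real.sq_sqrt (Finset.sum_nonneg fun i _ => by positivity)]
      exact e6
    have e2 : -(inner ℝ (gb κ (W x)) (adv W V x) : ℝ) ≤
        Real.sqrt (∑ i, ‖mo k (A i) x‖ ^ 2) := by
      have e3 := (abs_real_inner_le_norm (gb κ (W x)) (adv W V x))
      have e4 : ‖gb κ (W x)‖ * ‖adv W V x‖ ≤ Real.sqrt (∑ i, ‖mo k (A i) x‖ ^ 2) := by
        calc ‖gb κ (W x)‖ * ‖adv W V x‖
            ≤ ‖gb κ (W x)‖ * (‖W x‖ * Real.sqrt (∑ i, ‖mo k (A i) x‖ ^ 2)) :=
              mul_le_mul_of_nonneg_left e1 (norm_nonneg _)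
          _ = (‖gb κ (W x)‖ * ‖W x‖) * Real.sqrt (∑ i, ‖mo k (A i) x‖ ^ 2) := by ring
          _ ≤ 1 * Real.sqrt (∑ i, ‖mo k (A i) x‖ ^ 2) :=
              mul_le_mul_of_nonneg_right (b4 _) (Real.sqrt_nonneg _)
          _ = _ := one_mul _
      exact (neg_le_abs _).trans (e3.trans e4)
    show -(φ x * (inner ℝ (gb κ (W x)) (adv W V x) : ℝ)) ≤ _
    rw [← mul_neg]
    exact mul_le_mul_of_nonneg_left e2 (h0 x)
  have t3 : ∫ x, φ x * (inner ℝ (gb κ (W x)) (N x) : ℝ) ≤ ∫ x, φ x * (‖N x‖ / (2 * κ)) := by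
    refine integral_mono i3 j3 fun x => ?_
    refine mul_le_mul_of_nonneg_left ?_ (h0 x)
    refine (real_inner_le_norm _ _).trans ?_
    refine (mul_le_mul_of_nonneg_right (b3 _) (norm_nonneg _)).trans (le_of_eq ?_)
    ring
  refine ⟨?_, ?_, ?_⟩
  · simp_rw [hpt]
    exact (i1.sub i2).add i3
  · rw [hrh]
    exact (j1.add j2).add j3
  · simp_rw [hpt]
    have L : ∫ x, (φ x * adv V (fun y => bt κ (W y)) x -
        φ x * (inner ℝ (gb κ (W x)) (adv W V x) : ℝ) +
          φ x * (inner ℝ (gb κ (W x)) (N x) : ℝ)) =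
        (∫ x, φ x * adv V (fun y => bt κ (W y)) x) -
          (∫ x, φ x * (inner ℝ (gb κ (W x)) (adv W V x) : ℝ)) +
            ∫ x, φ x * (inner ℝ (gb κ (W x)) (N x) : ℝ) := by
      rw [← integral_sub i1 i2]
      exact integral_add (i1.sub i2) i3
    have R : ∫ x, rh k κ φ A w x = (∫ x, ‖V x‖ * ‖grad φ x‖ * bt κ (W x)) +
        (∫ x, φ x * Real.sqrt (∑ i, ‖mo k (A i) x‖ ^ 2)) + ∫ x, φ x * (‖N x‖ / (2 * κ)) := by
      rw [hrh, ← integral_add j1 j2]
      exact integral_add (j1.add j2) j3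
    rw [L, R]
    linarith

end Pool.Agent.Helper83.CR
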