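import Pool.Agent.Helper83.CR.St
import Pool.Agent.Helper60.EC.G1b
import Pool.Agent.Helper60.EC.Calc2

/-! # Project CR, module Strip -/

set_option autoImplicit false

open MeasureTheory Set Filter Topology
open scoped ENNReal ContDiff

noncomputable section

namespace Pool.Agent.Helper83.CR

open Pool.Agent.Helper52.NSE (E3 pd divg TestField)
open Pool.Agent.Helper60.EC (D Cc curl grad cr ip sq nl adv sm gsq fn Hs)

theorem Strip_pt (φ : E3 → E3) (v x : E3) :
    ‖fderiv ℝ φ x v‖ ^ 2 ≤ ‖v‖ ^ 2 * ∑ i, ‖D i φ x‖ ^ 2 := by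
  rw [Pool.Agent.Helper60.EC.fderiv_eq_sum]
  have h1 : ‖∑ i, v i • D i φ x‖ ≤ ∑ i, |v i| * ‖D i φ x‖ := by
    refine (norm_sum_le _ _).trans (le_of_eq ?_)
    apply Finset.sum_congr rfl
    intro i _
    rw [norm_smul, Real.norm_eq_abs]
  have h2 : (∑ i, |v i| * ‖D i φ x‖) ^ 2 ≤ (∑ i, |v i| ^ 2) * ∑ i, ‖D i φ x‖ ^ 2 :=
    Finset.sum_mul_sq_le_sq_mul_sq _ _ _
  have h3 : ‖v‖ ^ 2 = ∑ i, |v i| ^ 2 := by
    rw [EuclideanSpace.norm_sq_eq]
    rfl
  rw [h3]
  exact (pow_le_pow_left₀ (norm_nonneg _) h1 2).trans h2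

theorem Strip_smooth {φ : E3 → E3} (hφ : Cc φ) (v : E3) {T : Set E3} (hT : MeasurableSet T)
    (hTv : ∀ t : ℝ, 0 ≤ t → ∀ y ∈ T, y + t • v ∈ T) :
    ∫ y in T, ‖φ (y + v) - φ y‖ ^ 2 ≤ ‖v‖ ^ 2 * ∫ y in T, ∑ i, ‖D i φ y‖ ^ 2 := by
  have hφ1 : ContDiff ℝ 1 φ := hφ.smooth.of_le (by exact_mod_cast le_top)
  have hfc : Continuous (fderiv ℝ φ) := hφ1.continuous_fderiv (by norm_num)
  have hDc : Continuous fun x => ‖fderiv ℝ φ x v‖ ^ 2 :=
    ((hfc.clm_apply continuous_const).norm).pow 2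
  have hDs : HasCompactSupport fun x => ‖fderiv ℝ φ x v‖ ^ 2 := by
    have h1 : HasCompactSupport fun x => fderiv ℝ φ x := hφ.comp.fderiv ℝ
    exact h1.comp_left (g := fun L : E3 →L[ℝ] E3 => ‖L v‖ ^ 2) (by simp)
  have hDi : Integrable (fun x => ‖fderiv ℝ φ x v‖ ^ 2) (volume.restrict T) :=
    (hDc.integrable_of_hasCompactSupport hDs).restrict
  have hφc : Continuous φ := hφ.smooth.continuous
  have hLc : Continuous fun x => ‖φ (x + v) - φ x‖ ^ 2 := by fun_prop
  have hLs : HasCompactSupport fun x => ‖φ (x + v) - φ x‖ ^ 2 := by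
    have h1 : HasCompactSupport fun x => φ (x + v) :=
      hφ.comp.comp_homeomorph (Homeomorph.addRight v)
    have h2 : HasCompactSupport fun x => φ (x + v) - φ x := h1.sub hφ.comp
    exact h2.comp_left (g := fun v : E3 => ‖v‖ ^ 2) (by simp)
  have hLi : Integrable (fun x => ‖φ (x + v) - φ x‖ ^ 2) (volume.restrict T) :=
    (hLc.integrable_of_hasCompactSupport hLs).restrict
  have key : ∫⁻ x in T, ENNReal.ofReal (‖φ (x + v) - φ x‖ ^ 2) ≤
      ∫⁻ x in T, ENNReal.ofReal (‖fderiv ℝ φ x v‖ ^ 2) := by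
    calc ∫⁻ x in T, ENNReal.ofReal (‖φ (x + v) - φ x‖ ^ 2)
        ≤ ∫⁻ x in T, ∫⁻ t in Ioc (0 : ℝ) 1,
            ENNReal.ofReal (‖fderiv ℝ φ (x + t • v) v‖ ^ 2) := by
          apply lintegral_mono
          intro x
          show ENNReal.ofReal (‖φ (x + v) - φ x‖ ^ 2) ≤
            ∫⁻ t in Ioc (0 : ℝ) 1, ENNReal.ofReal (‖fderiv ℝ φ (x + t • v) v‖ ^ 2)
          have h1 := Pool.Agent.Helper60.EC.G1b_pt hφ1 v x
          rw [intervalIntegral.integral_of_le zero_le_one] at h1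
          have hc : Continuous fun t : ℝ => ‖fderiv ℝ φ (x + t • v) v‖ ^ 2 :=
            hDc.comp (by fun_prop : Continuous fun t : ℝ => x + t • v)
          have hi : Integrable (fun t : ℝ => ‖fderiv ℝ φ (x + t • v) v‖ ^ 2)
              (volume.restrict (Ioc (0 : ℝ) 1)) :=
            (hc.integrableOn_Icc (a := 0) (b := 1)).mono_set Ioc_subset_Icc_self
          rw [← ofReal_integral_eq_lintegral_ofReal hi (ae_of_all _ fun t => by positivity)]
          exact ENNReal.ofReal_le_ofReal h1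
      _ = ∫⁻ t in Ioc (0 : ℝ) 1, ∫⁻ x in T,
            ENNReal.ofReal (‖fderiv ℝ φ (x + t • v) v‖ ^ 2) := by
          apply lintegral_lintegral_swap
          apply Measurable.aemeasurable
          apply Measurable.ennreal_ofReal
          apply Continuous.measurable
          exact hDc.comp (by fun_prop : Continuous fun q : E3 × ℝ => q.1 + q.2 • v)
      _ ≤ ∫⁻ _t in Ioc (0 : ℝ) 1, ∫⁻ x in T, ENNReal.ofReal (‖fderiv ℝ φ x v‖ ^ 2) := by
          refine setLIntegral_mono' measurableSet_Ioc fun t ht => ?_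
          rw [← lintegral_indicator hT, ← lintegral_indicator hT]
          rw [← lintegral_add_right_eq_self (fun x => T.indicator
            (fun x => ENNReal.ofReal (‖fderiv ℝ φ x v‖ ^ 2)) x) (t • v)]
          refine lintegral_mono fun x => ?_
          by_cases hx : x ∈ T
          · rw [indicator_of_mem hx, indicator_of_mem (hTv t ht.1.le x hx)]
          · rw [indicator_of_notMem hx]
            exact zero_le
      _ = ∫⁻ x in T, ENNReal.ofReal (‖fderiv ℝ φ x v‖ ^ 2) := by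
          rw [lintegral_const]
          simp
  have key2 : ∫ x in T, ‖φ (x + v) - φ x‖ ^ 2 ≤ ∫ x in T, ‖fderiv ℝ φ x v‖ ^ 2 := by
    rw [← ofReal_integral_eq_lintegral_ofReal hLi (ae_of_all _ fun t => by positivity),
      ← ofReal_integral_eq_lintegral_ofReal hDi (ae_of_all _ fun t => by positivity)] at key
    rwa [ENNReal.ofReal_le_ofReal_iff (integral_nonneg fun x => by positivity)] at key
  refine key2.trans ?_
  rw [← integral_const_mul]
  have hGi : Integrable (fun x => ‖v‖ ^ 2 * ∑ i, ‖D i φ x‖ ^ 2) (volume.restrict T) := by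
    apply Integrable.restrict
    apply Integrable.const_mul
    apply integrable_finsetSum
    intro i _
    exact Pool.Agent.Helper60.EC.Calc2b_int
      (Pool.Agent.Helper60.EC.cc_memLp (Pool.Agent.Helper60.EC.cc_D hφ i) 2)
  exact integral_mono hDi hGi fun x => Strip_pt φ v x

theorem Strip_tendsto {μ : Measure E3} {f : ℕ → E3 → E3} {f' : E3 → E3}
    (hf : ∀ n, MemLp (f n) 2 μ) (hf' : MemLp f' 2 μ)
    (h : Tendsto (fun n => ∫ x, ‖f n x - f' x‖ ^ 2 ∂μ) atTop (𝓝 0)) :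
    Tendsto (fun n => ∫ x, ‖f n x‖ ^ 2 ∂μ) atTop (𝓝 (∫ x, ‖f' x‖ ^ 2 ∂μ)) := by
  have hs : Tendsto (fun n => Real.sqrt (∫ x, ‖f n x - f' x‖ ^ 2 ∂μ)) atTop (𝓝 0) := by
    have := (Real.continuous_sqrt.tendsto 0).comp h
    rwa [Real.sqrt_zero] at this
  have h1 : Tendsto (fun n => Real.sqrt (∫ x, ‖f n x‖ ^ 2 ∂μ)) atTop
      (𝓝 (Real.sqrt (∫ x, ‖f' x‖ ^ 2 ∂μ))) := by
    rw [tendsto_iff_norm_sub_tendsto_zero]
    refine squeeze_zero (fun n => norm_nonneg _) (fun n => ?_) hs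
    have hd : MemLp (fun x => f n x - f' x) 2 μ := (hf n).sub hf'
    have a1 := Pool.Agent.Helper60.EC.Calc2b_add hf' hd
    have a2 := Pool.Agent.Helper60.EC.Calc2b_sub (hf n) hd
    have e1 : ∀ x, f' x + (f n x - f' x) = f n x := fun x => by abel
    have e2 : ∀ x, f n x - (f n x - f' x) = f' x := fun x => by abel
    simp_rw [e1] at a1
    simp_rw [e2] at a2
    rw [Real.norm_eq_abs, abs_le]
    constructor <;> linarith
  have h2 := h1.pow 2
  have e : ∀ g : E3 → E3, Real.sqrt (∫ x, ‖g x‖ ^ 2 ∂μ) ^ 2 = ∫ x, ‖g x‖ ^ 2 ∂μ := fun g =>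
    Real.sq_sqrt (integral_nonneg fun x => by positivity)
  simp_rw [e] at h2
  exact h2

theorem hStrip (h₁ : StApx) : StStrip := by
  intro n d hn w A hw hw0 h hh
  obtain ⟨φ, hφ, hφw, hφA⟩ := h₁ w A hw
  obtain ⟨T, hTd⟩ : ∃ T : Set E3, T = {y : E3 | d - h < inner ℝ n y} := ⟨_, rfl⟩
  obtain ⟨v, hv⟩ : ∃ v : E3, v = h • n := ⟨_, rfl⟩
  have hnv : ∀ t : ℝ, ∀ y : E3, (inner ℝ n (y + t • v) : ℝ) = inner ℝ n y + t * h := by
    intro t y
    rw [hv, inner_add_right, inner_smul_right, inner_smul_right, real_inner_self_eq_norm_sq, hn]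
    ring
  have hvn : ‖v‖ = h := by
    rw [hv, norm_smul, hn, mul_one, Real.norm_eq_abs, abs_of_pos hh]
  have hT : MeasurableSet T := by
    rw [hTd]
    exact (isOpen_lt continuous_const (continuous_const.inner continuous_id)).measurableSet
  have hTv : ∀ t : ℝ, 0 ≤ t → ∀ y ∈ T, y + t • v ∈ T := by
    intro t ht y hy
    rw [hTd] at hy ⊢
    have hy' : d - h < inner ℝ n y := hy
    show d - h < inner ℝ n (y + t • v)
    rw [hnv]
    have : 0 ≤ t * h := mul_nonneg ht hh.le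
    linarith
  rw [← hTd]
  have hφ2 : ∀ k, MemLp (φ k) 2 volume := fun k => Pool.Agent.Helper60.EC.cc_memLp (hφ k) 2
  have hDφ : ∀ k i, MemLp (D i (φ k)) 2 volume := fun k i =>
    Pool.Agent.Helper60.EC.cc_memLp (Pool.Agent.Helper60.EC.cc_D (hφ k) i) 2
  have hmp : MeasurePreserving (fun y : E3 => y + v) volume volume :=
    measurePreserving_add_right volume v
  have htr : ∀ f : E3 → E3, MemLp f 2 volume → MemLp (fun y => f (y + v)) 2 volume :=
    fun f hf => hf.comp_measurePreserving hmp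
  have htrs : ∀ f : E3 → E3, (∫ y, ‖f (y + v)‖ ^ 2) = sq f := fun f =>
    integral_add_right_eq_self (fun y => ‖f y‖ ^ 2) v
  -- convergence of the right-hand side
  have hR : Tendsto (fun k => h ^ 2 * ∫ y in T, ∑ i, ‖D i (φ k) y‖ ^ 2) atTop
      (𝓝 (h ^ 2 * ∫ y in T, ∑ i, ‖A i y‖ ^ 2)) := by
    refine Tendsto.const_mul _ ?_
    have e1 : ∀ k, ∫ y in T, ∑ i, ‖D i (φ k) y‖ ^ 2 = ∑ i, ∫ y in T, ‖D i (φ k) y‖ ^ 2 := by
      intro k
      exact integral_finsetSum _ fun i _ =>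
        Pool.Agent.Helper60.EC.Calc2b_int ((hDφ k i).restrict T)
    have e2 : ∫ y in T, ∑ i, ‖A i y‖ ^ 2 = ∑ i, ∫ y in T, ‖A i y‖ ^ 2 :=
      integral_finsetSum _ fun i _ => Pool.Agent.Helper60.EC.Calc2b_int ((hw.gl2 i).restrict T)
    simp_rw [e1]
    rw [e2]
    refine tendsto_finsetSum _ fun i _ => ?_
    refine Strip_tendsto (fun k => (hDφ k i).restrict T) ((hw.gl2 i).restrict T) ?_
    refine squeeze_zero (fun k => integral_nonneg fun x => by positivity) (fun k => ?_) (hφA i)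
    exact setIntegral_le_integral
      (Pool.Agent.Helper60.EC.Calc2b_int ((hDφ k i).sub (hw.gl2 i)))
      (ae_of_all _ fun x => by positivity)
  -- convergence of the left-hand side
  have hL : Tendsto (fun k => ∫ y in T, ‖φ k (y + v) - φ k y‖ ^ 2) atTop
      (𝓝 (∫ y in T, ‖w (y + v) - w y‖ ^ 2)) := by
    refine Strip_tendsto (f := fun k y => φ k (y + v) - φ k y) (f' := fun y => w (y + v) - w y)
      (fun k => ((htr _ (hφ2 k)).sub (hφ2 k)).restrict T)
      (((htr _ hw.l2).sub hw.l2).restrict T) ?_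
    have hb : Tendsto (fun k => 4 * sq (fun x => φ k x - w x)) atTop (𝓝 0) := by
      have := hφw.const_mul 4
      simpa using this
    refine squeeze_zero (fun k => integral_nonneg fun x => by positivity) (fun k => ?_) hb
    have m1 : MemLp (fun y => φ k y - w y) 2 volume := (hφ2 k).sub hw.l2
    have m2 : MemLp (fun y => φ k (y + v) - w (y + v)) 2 volume := htr _ m1
    have i1 := Pool.Agent.Helper60.EC.Calc2b_int m1
    have i2 := Pool.Agent.Helper60.EC.Calc2b_int m2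
    have i3 : Integrable (fun y => ‖(φ k (y + v) - φ k y) - (w (y + v) - w y)‖ ^ 2) volume :=
      Pool.Agent.Helper60.EC.Calc2b_int
        (((htr _ (hφ2 k)).sub (hφ2 k)).sub ((htr _ hw.l2).sub hw.l2))
    refine (setIntegral_le_integral i3 (ae_of_all _ fun x => by positivity)).trans ?_
    have e3 : 4 * sq (fun x => φ k x - w x) =
        ∫ y, (2 * ‖φ k (y + v) - w (y + v)‖ ^ 2 + 2 * ‖φ k y - w y‖ ^ 2) := by
      rw [integral_add (i2.const_mul 2) (i1.const_mul 2), integral_const_mul, integral_const_mul,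
        htrs (fun y => φ k y - w y)]
      unfold Pool.Agent.Helper60.EC.sq
      ring
    rw [e3]
    refine integral_mono i3 ((i2.const_mul 2).add (i1.const_mul 2)) fun y => ?_
    show ‖(φ k (y + v) - φ k y) - (w (y + v) - w y)‖ ^ 2 ≤
      2 * ‖φ k (y + v) - w (y + v)‖ ^ 2 + 2 * ‖φ k y - w y‖ ^ 2
    have e4 : (φ k (y + v) - φ k y) - (w (y + v) - w y) =
        (φ k (y + v) - w (y + v)) - (φ k y - w y) := by abel
    rw [e4]
    have h5 := norm_sub_le (φ k (y + v) - w (y + v)) (φ k y - w y)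
    have h6 := norm_nonneg ((φ k (y + v) - w (y + v)) - (φ k y - w y))
    nlinarith [sq_nonneg (‖φ k (y + v) - w (y + v)‖ - ‖φ k y - w y‖),
      norm_nonneg (φ k (y + v) - w (y + v)), norm_nonneg (φ k y - w y)]
  have hle := le_of_tendsto_of_tendsto' hL hR fun k => by
    have := Strip_smooth (hφ k) v hT hTv
    rwa [hvn] at this
  refine le_trans (le_of_eq ?_) hle
  have ha : ∀ᵐ y : E3, d ≤ inner ℝ n (y + v) → w (y + v) = 0 :=
    hmp.quasiMeasurePreserving.ae (hw0.mono fun y hy hd => (hy hd).1)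
  refine setIntegral_congr_ae hT ?_
  filter_upwards [ha] with y hy hyT
  have h7 : d ≤ inner ℝ n (y + v) := by
    have h8 := hnv 1 y
    rw [one_smul, one_mul] at h8
    rw [h8]
    rw [hTd] at hyT
    have : d - h < inner ℝ n y := hyT
    linarith
  rw [hy h7, zero_sub, norm_neg]

end Pool.Agent.Helper83.CR
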