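import Pool.Agent.Helper83.CR.St

/-! # Project CR, module Wc: weak sequential compactness in `L²(mQ)` -/

set_option autoImplicit false

open MeasureTheory Set Filter Topology
open scoped ENNReal ContDiff

noncomputable section

namespace Pool.Agent.Helper83.CR

open Pool.Agent.Helper52.NSE (E3 pd divg TestField)
open Pool.Agent.Helper60.EC (D Cc curl grad cr ip sq nl adv sm gsq fn Hs)

/-- the inner product of the classes -/
theorem Wc_inner {f g : ℝ × E3 → E3} (hf : MemLp f 2 mQ) (hg : MemLp g 2 mQ) :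
    (inner ℝ (hf.toLp f) (hg.toLp g) : ℝ) = ∫ q, (inner ℝ (f q) (g q) : ℝ) ∂mQ := by
  rw [L2.inner_def]
  refine integral_congr_ae ?_
  filter_upwards [hf.coeFn_toLp, hg.coeFn_toLp] with q h1 h2
  rw [h1, h2]

theorem Wc_norm {f : ℝ × E3 → E3} (hf : MemLp f 2 mQ) :
    ‖hf.toLp f‖ ^ 2 = ∫ q, ‖f q‖ ^ 2 ∂mQ := by
  rw [← real_inner_self_eq_norm_sq, Wc_inner hf hf]
  exact integral_congr_ae (Eventually.of_forall fun q => real_inner_self_eq_norm_sq _)

theorem hWc : StWc := by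
  intro F K hF hK
  let f : ℕ → Lp E3 2 mQ := fun k => (hF k).toLp _
  have hn : ∀ k, ‖f k‖ ≤ Real.sqrt K := by
    intro k
    refine Real.le_sqrt_of_sq_le ?_
    rw [Wc_norm (hF k)]
    exact hK k
  let T : ℕ → WeakDual ℝ (Lp E3 2 mQ) := fun k =>
    StrongDual.toWeakDual (InnerProductSpace.toDual ℝ (Lp E3 2 mQ) (f k))
  have hT : ∀ k, T k ∈ WeakDual.toStrongDual ⁻¹'
      Metric.closedBall (0 : StrongDual ℝ (Lp E3 2 mQ)) (Real.sqrt K) := by
    intro k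
    rw [mem_preimage, mem_closedBall_zero_iff]
    change ‖InnerProductSpace.toDual ℝ (Lp E3 2 mQ) (f k)‖ ≤ _
    rw [LinearIsometryEquiv.norm_map]
    exact hn k
  have hp : Fact ((2 : ℝ≥0∞) ≠ ⊤) := ⟨by norm_num⟩
  have hsec : SecondCountableTopology (Lp E3 2 mQ) := Lp.SecondCountableTopology
  obtain ⟨T', -, ρ, hρ, hlim⟩ := WeakDual.isSeqCompact_closedBall ℝ (Lp E3 2 mQ) 0 (Real.sqrt K) hT
  let f' : Lp E3 2 mQ := (InnerProductSpace.toDual ℝ (Lp E3 2 mQ)).symm (WeakDual.toStrongDual T')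
  refine ⟨ρ, hρ, fun s y => (f' : ℝ × E3 → E3) (s, y), ?_, ?_, ?_⟩
  · exact (Lp.stronglyMeasurable f').measurable
  · exact Lp.memLp f'
  · intro Ψ hΨ
    have h1 : Tendsto (fun k => T (ρ k) (hΨ.toLp Ψ)) atTop (𝓝 (T' (hΨ.toLp Ψ))) :=
      tendsto_iff_forall_eval_tendsto_topDualPairing.1 hlim _
    have h2 : ∀ k, T (ρ k) (hΨ.toLp Ψ) =
        ∫ q : ℝ × E3, (inner ℝ (F (ρ k) q.1 q.2) (Ψ q) : ℝ) ∂mQ := fun k =>
      Wc_inner (hF (ρ k)) hΨ
    have h3 : T' (hΨ.toLp Ψ) = ∫ q : ℝ × E3, (inner ℝ ((f' : ℝ × E3 → E3) q) (Ψ q) : ℝ) ∂mQ := by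
      have h4 : T' (hΨ.toLp Ψ) = (inner ℝ f' (hΨ.toLp Ψ) : ℝ) := by
        have h5 := InnerProductSpace.toDual_apply_apply (𝕜 := ℝ) (x := f') (y := hΨ.toLp Ψ)
        rw [← h5]
        change _ = (InnerProductSpace.toDual ℝ (Lp E3 2 mQ)
          ((InnerProductSpace.toDual ℝ (Lp E3 2 mQ)).symm (WeakDual.toStrongDual T'))) _
        rw [LinearIsometryEquiv.apply_symm_apply]
        rfl
      rw [h4]
      have h6 := Wc_inner (Lp.memLp f') hΨ
      rw [Lp.toLp_coeFn] at h6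
      exact h6
    rw [h3] at h1
    exact h1.congr h2

end Pool.Agent.Helper83.CR
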