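import Pool.Agent.Helper83.CR.St
import Pool.Agent.Helper60.EC.Calc2
import Pool.Agent.Helper60.EC.G3b

/-!
# Project CR, module Wt: time differences and the drop of the energy
-/

set_option autoImplicit false

open MeasureTheory Set Filter Topology
open scoped ENNReal ContDiff

noncomputable section

namespace Pool.Agent.Helper83.CR

open Pool.Agent.Helper52.NSE (E3 pd divg TestField MemH1s MemL2s IsWeakSolution gradSq kin
  IsSmoothBoundedDomain)
open Pool.Agent.Helper60.EC (D Cc curl grad cr ip nl adv sm gsq fn Hs)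
open Pool.Agent.Helper60

/-- the triangle inequality for gradients -/
theorem Wt_tri {Ω : Set E3} {G A : Fin 3 → E3 → E3}
    (hG : ∀ i, MemLp (G i) 2 (volume.restrict Ω)) (hA : ∀ i, MemLp (A i) 2 (volume.restrict Ω)) :
    Real.sqrt (gradSq Ω (fun i x => G i x - A i x)) ≤
      Real.sqrt (gradSq Ω G) + Real.sqrt (gradSq Ω A) := by
  have i1 : Integrable (fun x => ∑ i, ‖G i x‖ ^ 2) (volume.restrict Ω) :=
    integrable_finsetSum _ fun i _ => Pool.Agent.Helper52.NSE.sq_int (hG i)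
  have i2 : Integrable (fun x => ∑ i, ‖A i x‖ ^ 2) (volume.restrict Ω) :=
    integrable_finsetSum _ fun i _ => Pool.Agent.Helper52.NSE.sq_int (hA i)
  have i3 := Pool.Agent.Helper7.NT.gp_int hG hA
  have e : gradSq Ω (fun i x => G i x - A i x) =
      gradSq Ω G - 2 * Pool.Agent.Helper7.NT.gp Ω G A + gradSq Ω A := by
    unfold gradSq Pool.Agent.Helper7.NT.gp
    have i4 : Integrable (fun x => (∑ i, ‖G i x‖ ^ 2) - 2 * ∑ i, (inner ℝ (G i x) (A i x) : ℝ))
        (volume.restrict Ω) := i1.sub (i3.const_mul 2)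
    rw [← integral_const_mul, ← integral_sub i1 (i3.const_mul 2), ← integral_add i4 i2]
    refine integral_congr_ae (Eventually.of_forall fun x => ?_)
    simp only []
    rw [Finset.mul_sum, ← Finset.sum_sub_distrib, ← Finset.sum_add_distrib]
    refine Finset.sum_congr rfl fun i _ => ?_
    exact norm_sub_sq_real _ _
  have h1 := Pool.Agent.Helper7.NT.gp_le hG hA
  have h2 : Pool.Agent.Helper52.NSE.gsq Ω G = gradSq Ω G := rfl
  have h3 : Pool.Agent.Helper52.NSE.gsq Ω A = gradSq Ω A := rfl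
  rw [h2, h3] at h1
  have hg : 0 ≤ gradSq Ω G := integral_nonneg fun x => Finset.sum_nonneg fun i _ => by positivity
  have ha : 0 ≤ gradSq Ω A := integral_nonneg fun x => Finset.sum_nonneg fun i _ => by positivity
  refine Real.sqrt_le_iff.2 ⟨by positivity, ?_⟩
  rw [e, add_sq, Real.sq_sqrt hg, Real.sq_sqrt ha]
  have h4 := neg_abs_le (Pool.Agent.Helper7.NT.gp Ω G A)
  nlinarith

/-- the trilinear form -/
theorem Wt_Bf {Ω : Set E3} (hO : IsOpen Ω) {v : E3 → E3} {A : Fin 3 → E3 → E3}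
    (hv : AEStronglyMeasurable v (volume.restrict Ω))
    (hv4 : Integrable (fun x => ‖ze Ω v x‖ ^ 4) volume)
    (hA : ∀ i, MemLp (A i) 2 (volume.restrict Ω)) :
    |Pool.Agent.Helper7.NT.Bf Ω v A v| ≤ q4 (ze Ω v) * Real.sqrt (gradSq Ω A) := by
  have hms := hO.measurableSet
  have e1 : (fun x => ‖ze Ω v x‖ ^ 4) = Ω.indicator (fun x => ‖v x‖ ^ 4) := by
    funext x
    unfold ze
    by_cases hx : x ∈ Ω
    · rw [indicator_of_mem hx, indicator_of_mem hx]
    · rw [indicator_of_notMem hx, indicator_of_notMem hx, norm_zero]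
      norm_num
  have hi4 : Integrable (fun x => ‖v x‖ ^ 4) (volume.restrict Ω) := by
    rw [e1] at hv4
    exact (integrable_indicator_iff hms).1 hv4
  have e2 : q4 (ze Ω v) = Real.sqrt (∫ x in Ω, ‖v x‖ ^ 4) := by
    unfold q4
    rw [e1, integral_indicator hms]
  have iA : Integrable (fun x => ∑ i, ‖A i x‖ ^ 2) (volume.restrict Ω) :=
    integrable_finsetSum _ fun i _ => Pool.Agent.Helper52.NSE.sq_int (hA i)
  have m1 : MemLp (fun x => ‖v x‖ ^ 2) 2 (volume.restrict Ω) := by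
    refine (memLp_two_iff_integrable_sq (μ := volume.restrict Ω)
      (f := fun x : E3 => ‖v x‖ ^ 2) (hv.norm.pow 2)).2 ?_
    refine hi4.congr (Eventually.of_forall fun x => ?_)
    show ‖v x‖ ^ 4 = (‖v x‖ ^ 2) ^ 2
    ring
  have m2 : MemLp (fun x => Real.sqrt (∑ i, ‖A i x‖ ^ 2)) 2 (volume.restrict Ω) := by
    refine (memLp_two_iff_integrable_sq (μ := volume.restrict Ω)
      (f := fun x : E3 => Real.sqrt (∑ i, ‖A i x‖ ^ 2))
      (Real.continuous_sqrt.comp_aestronglyMeasurable iA.1)).2 ?_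
    refine iA.congr (Eventually.of_forall fun x => ?_)
    show _ = (Real.sqrt (∑ i, ‖A i x‖ ^ 2)) ^ 2
    rw [Real.sq_sqrt (Finset.sum_nonneg fun i _ => by positivity)]
  have hcs := EC.Calc2b_cs m1 m2
  have i3 : Integrable (fun x => ‖v x‖ ^ 2 * Real.sqrt (∑ i, ‖A i x‖ ^ 2))
      (volume.restrict Ω) := m1.integrable_mul m2
  have hpt : ∀ x, ‖∑ i, (v x) i * (inner ℝ (v x) (A i x) : ℝ)‖ ≤
      ‖v x‖ ^ 2 * Real.sqrt (∑ i, ‖A i x‖ ^ 2) := by
    intro x
    have h1 : ‖∑ i, (v x) i * (inner ℝ (v x) (A i x) : ℝ)‖ ≤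
        ∑ i, |(v x) i| * (‖v x‖ * ‖A i x‖) := by
      refine (norm_sum_le _ _).trans (Finset.sum_le_sum fun i _ => ?_)
      rw [norm_mul, Real.norm_eq_abs]
      exact mul_le_mul_of_nonneg_left (norm_inner_le_norm _ _) (abs_nonneg _)
    refine h1.trans ?_
    have h2 : ∑ i, |(v x) i| * (‖v x‖ * ‖A i x‖) = ‖v x‖ * ∑ i, |(v x) i| * ‖A i x‖ := by
      rw [Finset.mul_sum]
      exact Finset.sum_congr rfl fun i _ => by ring
    rw [h2, pow_two, mul_assoc]
    refine mul_le_mul_of_nonneg_left ?_ (norm_nonneg _)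
    have h3 := Real.sum_mul_le_sqrt_mul_sqrt Finset.univ (fun i => |(v x) i|) (fun i => ‖A i x‖)
    have h4 : Real.sqrt (∑ i, |(v x) i| ^ 2) = ‖v x‖ := by
      rw [EuclideanSpace.norm_eq]
      congr 1
    rw [h4] at h3
    exact h3
  have h5 : |Pool.Agent.Helper7.NT.Bf Ω v A v| ≤
      ∫ x in Ω, ‖v x‖ ^ 2 * Real.sqrt (∑ i, ‖A i x‖ ^ 2) :=
    norm_integral_le_of_norm_le i3 (Eventually.of_forall hpt)
  refine h5.trans ?_
  have e3 : (∫ x in Ω, (inner ℝ (‖v x‖ ^ 2) (Real.sqrt (∑ i, ‖A i x‖ ^ 2)) : ℝ)) =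
      ∫ x in Ω, ‖v x‖ ^ 2 * Real.sqrt (∑ i, ‖A i x‖ ^ 2) := by
    refine integral_congr_ae (Eventually.of_forall fun x => ?_)
    simp only [RCLike.inner_apply, conj_trivial]
    ring
  have e4 : (∫ x in Ω, ‖(‖v x‖ ^ 2 : ℝ)‖ ^ 2) = ∫ x in Ω, ‖v x‖ ^ 4 := by
    refine integral_congr_ae (Eventually.of_forall fun x => ?_)
    show ‖(‖v x‖ ^ 2 : ℝ)‖ ^ 2 = ‖v x‖ ^ 4
    rw [Real.norm_of_nonneg (by positivity)]
    ring
  have e5 : (∫ x in Ω, ‖Real.sqrt (∑ i, ‖A i x‖ ^ 2)‖ ^ 2) = gradSq Ω A := by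
    unfold gradSq
    refine integral_congr_ae (Eventually.of_forall fun x => ?_)
    show ‖Real.sqrt (∑ i, ‖A i x‖ ^ 2)‖ ^ 2 = ∑ i, ‖A i x‖ ^ 2
    rw [Real.norm_of_nonneg (Real.sqrt_nonneg _),
      Real.sq_sqrt (Finset.sum_nonneg fun i _ => by positivity)]
  rw [e3, e4, e5] at hcs
  rw [e2]
  exact (le_abs_self _).trans hcs

/-- the integrated bound for the right-hand side -/
theorem Wt_rhs (hQ4 : StQ4) (hLady : StLady) (hEx : StEx) {Ω : Set E3} {ν T : ℝ} {u₀ : E3 → E3}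
    {f u : ℝ → E3 → E3} {G : ℝ → Fin 3 → E3 → E3} (hO : IsOpen Ω) (hb : Bornology.IsBounded Ω)
    (hν : 0 < ν) (h : IsWeakSolution Ω ν T u₀ f u G) {s t : ℝ} (hs : 0 ≤ s) (hst : s < t)
    (ht : t ≤ T) {a : E3 → E3} {A : Fin 3 → E3 → E3} (hm : MemH1s Ω a A) {g0 na : ℝ}
    (hg0 : Real.sqrt (gradSq Ω A) ≤ g0) (hna : Real.sqrt (∫ x in Ω, ‖a x‖ ^ 2) ≤ na) :
    |∫ τ in s..t, Pool.Agent.Helper7.NT.rhsE Ω ν (f τ) (u τ) (G τ) a A| ≤
      g0 * (ν * (∫ τ in s..t, Real.sqrt (gradSq Ω (G τ))) + ∫ τ in s..t, q4 (ze Ω (u τ))) +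
        na * ∫ τ in s..t, fn Ω f τ := by
  have ha2 := hm.toL2.memLp
  have hA2 := hm.grad_memLp
  have hg00 : 0 ≤ g0 := (Real.sqrt_nonneg _).trans hg0
  have hna0 : 0 ≤ na := (Real.sqrt_nonneg _).trans hna
  have igs : IntervalIntegrable (fun τ => Real.sqrt (gradSq Ω (G τ))) volume s t :=
    Pool.Agent.Helper52.NSE.ii_of
      (Pool.Agent.Helper52.NSE.sqrt_int h.gsq_int fun t => Pool.Agent.Helper52.NSE.gsq_nonneg Ω _)
      hs hst.le ht
  have ifn : IntervalIntegrable (fun τ => fn Ω f τ) volume s t :=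
    Pool.Agent.Helper52.NSE.ii_of h.nmf_int hs hst.le ht
  have iq4 : IntervalIntegrable (fun τ => q4 (ze Ω (u τ))) volume s t :=
    Pool.Agent.Helper52.NSE.ii_of (hQ4 Ω ν T u₀ f u G hO hb h) hs hst.le ht
  obtain ⟨CL, hCL, hL⟩ := hLady
  have g1 := (ae_restrict_iff' measurableSet_Icc).1 h.grad_mem
  have g2 := (ae_restrict_iff' measurableSet_Icc).1 h.force_mem
  have hbound : ∀ᵐ τ ∂volume, τ ∈ Ioc s t →
      ‖Pool.Agent.Helper7.NT.rhsE Ω ν (f τ) (u τ) (G τ) a A‖ ≤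
        g0 * (ν * Real.sqrt (gradSq Ω (G τ)) + q4 (ze Ω (u τ))) + na * fn Ω f τ := by
    filter_upwards [g1, g2] with τ h1 h2 hτ
    have hτT : τ ∈ Icc 0 T := ⟨hs.trans hτ.1.le, hτ.2.trans ht⟩
    have hmτ := h1 hτT
    have hf := (h2 hτT).memLp
    have b1 : |(-ν) * Pool.Agent.Helper7.NT.gp Ω (G τ) A| ≤
        g0 * (ν * Real.sqrt (gradSq Ω (G τ))) := by
      rw [abs_mul, abs_neg, abs_of_pos hν]
      have h4 := Pool.Agent.Helper7.NT.gp_le hmτ.grad_memLp hA2
      have h5 : Real.sqrt (Pool.Agent.Helper52.NSE.gsq Ω A) ≤ g0 := hg0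
      have h6 := h4.trans (mul_le_mul_of_nonneg_left h5 (Real.sqrt_nonneg _))
      refine (mul_le_mul_of_nonneg_left h6 hν.le).trans (le_of_eq ?_)
      unfold gradSq Pool.Agent.Helper52.NSE.gsq
      ring
    have b2 : |Pool.Agent.Helper7.NT.Bf Ω (u τ) A (u τ)| ≤ g0 * q4 (ze Ω (u τ)) := by
      have h4 := (hL _ _ (hEx Ω hO _ _ hmτ).1).1
      have h5 := Wt_Bf hO (v := u τ) (A := A) hmτ.1 h4 hA2
      refine h5.trans ?_
      rw [mul_comm]
      exact mul_le_mul_of_nonneg_right hg0 (Real.sqrt_nonneg _)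
    have b3 : |∫ x in Ω, inner ℝ (f τ x) (a x)| ≤ na * fn Ω f τ := by
      refine (Pool.Agent.Helper52.NSE.cs hf ha2).trans ?_
      have h4 := mul_le_mul_of_nonneg_left (show Pool.Agent.Helper52.NSE.nm Ω a ≤ na from hna)
        (Pool.Agent.Helper52.NSE.nm_nonneg Ω (f τ))
      refine h4.trans (le_of_eq ?_)
      rw [mul_comm]
      rfl
    unfold Pool.Agent.Helper7.NT.rhsE
    rw [Real.norm_eq_abs]
    refine (abs_add_le _ _).trans ((add_le_add ((abs_add_le _ _).trans (add_le_add b1 b2))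
      b3).trans (le_of_eq ?_))
    ring
  have ib : IntervalIntegrable (fun τ => g0 * (ν * Real.sqrt (gradSq Ω (G τ)) +
      q4 (ze Ω (u τ))) + na * fn Ω f τ) volume s t :=
    (((igs.const_mul ν).add iq4).const_mul g0).add (ifn.const_mul na)
  have hmain : |∫ τ in s..t, Pool.Agent.Helper7.NT.rhsE Ω ν (f τ) (u τ) (G τ) a A| ≤
      ∫ τ in s..t, (g0 * (ν * Real.sqrt (gradSq Ω (G τ)) + q4 (ze Ω (u τ))) + na * fn Ω f τ) :=
    intervalIntegral.norm_integral_le_of_norm_le hst.le hbound ib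
  refine hmain.trans (le_of_eq ?_)
  rw [intervalIntegral.integral_add (((igs.const_mul ν).add iq4).const_mul g0)
    (ifn.const_mul na), intervalIntegral.integral_const_mul, intervalIntegral.integral_const_mul,
    intervalIntegral.integral_add (igs.const_mul ν) iq4, intervalIntegral.integral_const_mul]

/-- **Wt** -/
theorem hWt (hQ4 : StQ4) (hLady : StLady) (hEx : StEx) : StWt := by
  intro Ω ν T u₀ f u G hO hb hν h K hK s t hs hst ht hms
  have hsT : s ∈ Icc 0 T := ⟨hs, hst.le.trans ht⟩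
  have htT : t ∈ Icc 0 T := ⟨hs.trans hst.le, ht⟩
  have hus := (h.mem s hsT).memLp
  have hut := (h.mem t htT).memLp
  have hK0 : 0 ≤ K := (integral_nonneg fun x => by positivity).trans (hK s hsT)
  constructor
  · have h1 := EC.G3b_kin hus hut
    have hself : (∫ x in Ω, inner ℝ (u s x) (u s x)) = ∫ x in Ω, ‖u s x‖ ^ 2 := by
      refine integral_congr_ae (Eventually.of_forall fun x => ?_)
      exact real_inner_self_eq_norm_sq _
    have hweak := Pool.Agent.Helper7.NT.weak_ext hO hb h hms hs hst.le ht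
    rw [hself] at hweak
    have h2 := Wt_rhs hQ4 hLady hEx hO hb hν h hs hst ht hms le_rfl
      (Real.sqrt_le_sqrt (hK s hsT))
    rw [← hweak] at h2
    have h3 := neg_abs_le ((∫ x in Ω, inner ℝ (u t x) (u s x)) - ∫ x in Ω, ‖u s x‖ ^ 2)
    linarith
  · intro hmt
    have hms' := hms.grad_memLp
    have hmt' := hmt.grad_memLp
    have hm := Pool.Agent.Helper7.NT.memH1s_sub hmt hms
    have hweak := Pool.Agent.Helper7.NT.weak_ext hO hb h hm hs hst.le ht
    have hd2 : MemLp (fun x => u t x - u s x) 2 (volume.restrict Ω) := hut.sub hus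
    have hself : (∫ x in Ω, inner ℝ (u t x) (u t x - u s x)) -
        (∫ x in Ω, inner ℝ (u s x) (u t x - u s x)) = ∫ x in Ω, ‖u t x - u s x‖ ^ 2 := by
      rw [← integral_sub (Pool.Agent.Helper52.NSE.inner_int hut hd2)
        (Pool.Agent.Helper52.NSE.inner_int hus hd2)]
      refine integral_congr_ae (Eventually.of_forall fun x => ?_)
      show inner ℝ (u t x) (u t x - u s x) - inner ℝ (u s x) (u t x - u s x) = _
      rw [← inner_sub_left]
      exact real_inner_self_eq_norm_sq _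
    rw [hself] at hweak
    have hg0 : Real.sqrt (gradSq Ω (fun i x => G t i x - G s i x)) ≤
        Real.sqrt (gradSq Ω (G s)) + Real.sqrt (gradSq Ω (G t)) := by
      rw [add_comm]
      exact Wt_tri hmt' hms'
    have hna : Real.sqrt (∫ x in Ω, ‖u t x - u s x‖ ^ 2) ≤ 2 * Real.sqrt K := by
      have h1 := EC.Calc2b_sub hut hus
      have h2 := Real.sqrt_le_sqrt (hK s hsT)
      have h3 := Real.sqrt_le_sqrt (hK t htT)
      linarith
    have h2 := Wt_rhs hQ4 hLady hEx hO hb hν h hs hst ht hm hg0 hna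
    rw [← hweak] at h2
    exact (le_abs_self _).trans h2

end Pool.Agent.Helper83.CR
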