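import Pool.Agent.Helper83.CR.St
import Pool.Agent.Helper60.EC.Calc2a
import Pool.Agent.Helper60.EC.Calc2b
import Pool.Agent.Helper60.EC.Calc3a
import Pool.Agent.Helper60.EC.Calc3b

/-! Project CR: module Zero -/

set_option autoImplicit false

open MeasureTheory Set Filter Topology
open scoped ENNReal ContDiff

noncomputable section

namespace Pool.Agent.Helper83.CR

open Pool.Agent.Helper52.NSE (E3 pd divg TestField MemH1s MemL2s IsWeakSolution gradSq kin
  IsSmoothBoundedDomain)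
open Pool.Agent.Helper60.EC (D Cc curl grad cr ip sq nl adv sm gsq fn Hs)

/-- `∫ |∇φ|² = ∫ |curl φ|² + ∫ (div φ)²` -/
theorem Zero_gsq {φ : E3 → E3} (hφ : Cc φ) :
    gsq φ = sq (curl φ) + ∫ x, (divg φ x) ^ 2 := by
  have h1 : ContDiff ℝ 1 φ := hφ.smooth.of_le (by norm_num)
  have h2 : ContDiff ℝ 2 φ := hφ.smooth.of_le ENat.LEInfty.out
  have hc : Cc (curl φ) := Pool.Agent.Helper60.EC.cc_curl hφ
  have hd : Cc (divg φ) := Pool.Agent.Helper60.EC.cc_divg hφ
  have hc1 : ContDiff ℝ 1 (curl φ) := hc.smooth.of_le (by norm_num)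
  have hd1 : ContDiff ℝ 1 (divg φ) := hd.smooth.of_le (by norm_num)
  have e1 : sq (curl φ) = ip (curl φ) (curl φ) := by
    unfold Pool.Agent.Helper60.EC.sq Pool.Agent.Helper60.EC.ip
    exact integral_congr_ae (Eventually.of_forall fun x => (real_inner_self_eq_norm_sq _).symm)
  have e2 : ip (curl φ) (curl φ) = ip φ (curl (curl φ)) :=
    Pool.Agent.Helper60.EC.ip_curl h1 hc1 (Or.inl hφ.comp)
  have e3 : ip φ (curl (curl φ)) = ip (grad (divg φ)) φ - ip (Pool.Agent.Helper60.EC.lap φ) φ := by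
    unfold Pool.Agent.Helper60.EC.ip
    rw [← integral_sub]
    · refine integral_congr_ae (Eventually.of_forall fun x => ?_)
      simp only
      rw [Pool.Agent.Helper60.EC.curl_curl h2, inner_sub_right,
        real_inner_comm (grad (divg φ) x), real_inner_comm (Pool.Agent.Helper60.EC.lap φ x)]
    · have a1 := Pool.Agent.Helper60.EC.cc_inner_left (Pool.Agent.Helper60.EC.cc_grad hd) hφ.smooth
      exact a1.smooth.continuous.integrable_of_hasCompactSupport a1.comp
    · have a1 := Pool.Agent.Helper60.EC.cc_inner_left (Pool.Agent.Helper60.EC.cc_lap hφ) hφ.smooth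
      exact a1.smooth.continuous.integrable_of_hasCompactSupport a1.comp
  have e4 := Pool.Agent.Helper60.EC.ip_grad hd1 h1 (Or.inl hd.comp)
  have e5 := Pool.Agent.Helper60.EC.ip_lap h2 h1 (Or.inl hφ.comp)
  have e6 : (∫ x, ∑ i, inner ℝ (D i φ x) (D i φ x)) = gsq φ := by
    unfold Pool.Agent.Helper60.EC.gsq
    refine integral_congr_ae (Eventually.of_forall fun x => ?_)
    simp only
    exact Finset.sum_congr rfl fun i _ => real_inner_self_eq_norm_sq _
  have e7 : (∫ x, divg φ x * divg φ x) = ∫ x, (divg φ x) ^ 2 :=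
    integral_congr_ae (Eventually.of_forall fun x => (pow_two _).symm)
  rw [e1, e2, e3, e4, e5, e6, e7]
  ring

/-- a square integrable field which is invariant under translations vanishes -/
theorem Zero_inv {w : E3 → E3} (hw : MemLp w 2 volume)
    (h : ∀ z : E3, (fun x => w (x + z)) =ᵐ[volume] w) : w =ᵐ[volume] 0 := by
  obtain ⟨g, hg⟩ : ∃ g : E3 → ℝ≥0∞, g = fun x => ‖w x‖ₑ ^ 2 := ⟨_, rfl⟩
  have hgm : AEMeasurable g volume := by
    rw [hg]
    exact (hw.1.enorm).pow_const 2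
  have hgi : ∫⁻ x, g x < ⊤ := by
    have h1 := hw.2
    rw [eLpNorm_lt_top_iff_lintegral_rpow_enorm_lt_top (by norm_num) (by norm_num)] at h1
    rw [hg]
    simpa using h1
  have hgz : ∀ z : E3, (fun x => g (z + x)) =ᵐ[volume] g := by
    intro z
    filter_upwards [h z] with x hx
    rw [hg]
    simp only
    rw [add_comm z x, hx]
  set μ : Measure E3 := volume.withDensity g with hμ
  have hfin : IsFiniteMeasure μ := isFiniteMeasure_withDensity hgi.ne
  have hinv : μ.IsAddLeftInvariant := by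
    refine ⟨fun z => ?_⟩
    ext s hs
    rw [Measure.map_apply (measurable_const_add z) hs, hμ,
      withDensity_apply _ (measurable_const_add z hs), withDensity_apply _ hs,
      ← lintegral_indicator (measurable_const_add z hs), ← lintegral_indicator hs,
      ← lintegral_add_left_eq_self (fun x => s.indicator g x) z]
    refine lintegral_congr_ae ?_
    filter_upwards [hgz z] with x hx
    by_cases hxs : z + x ∈ s
    · rw [indicator_of_mem hxs, indicator_of_mem (show x ∈ (fun x => z + x) ⁻¹' s from hxs), hx]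
    · rw [indicator_of_notMem hxs,
        indicator_of_notMem (show x ∉ (fun x => z + x) ⁻¹' s from hxs)]
  have hμ0 : μ = 0 := by
    by_contra hne
    have : NeZero μ := ⟨hne⟩
    have h1 := measure_univ_of_isAddLeftInvariant μ
    exact (measure_lt_top μ univ).ne h1
  have h2 : g =ᵐ[volume] 0 := by
    rw [hμ] at hμ0
    exact (withDensity_eq_zero_iff hgm).1 hμ0
  filter_upwards [h2] with x hx
  rw [hg] at hx
  simpa using hx

theorem Zero_om (a : E3 → E3) (A : Fin 3 → E3 → E3) (x : E3) :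
    ‖curl a x - om A x‖ ^ 2 ≤ 2 * ∑ i, ‖D i a x - A i x‖ ^ 2 := by
  rw [Fin.sum_univ_three, Pool.Agent.Helper60.EC.Calc3b_nsq, Pool.Agent.Helper60.EC.Calc3b_nsq,
    Pool.Agent.Helper60.EC.Calc3b_nsq, Pool.Agent.Helper60.EC.Calc3b_nsq]
  simp only [PiLp.sub_apply, Pool.Agent.Helper60.EC.Calc3b_curl0,
    Pool.Agent.Helper60.EC.Calc3b_curl1, Pool.Agent.Helper60.EC.Calc3b_curl2]
  have o0 : om A x 0 = (A 1 x) 2 - (A 2 x) 1 := rfl
  have o1 : om A x 1 = (A 2 x) 0 - (A 0 x) 2 := rfl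
  have o2 : om A x 2 = (A 0 x) 1 - (A 1 x) 0 := rfl
  rw [o0, o1, o2]
  nlinarith [sq_nonneg (((D 1 a x) 2 - (A 1 x) 2) + ((D 2 a x) 1 - (A 2 x) 1)),
    sq_nonneg (((D 2 a x) 0 - (A 2 x) 0) + ((D 0 a x) 2 - (A 0 x) 2)),
    sq_nonneg (((D 0 a x) 1 - (A 0 x) 1) + ((D 1 a x) 0 - (A 1 x) 0)),
    sq_nonneg ((D 0 a x) 0 - (A 0 x) 0), sq_nonneg ((D 1 a x) 1 - (A 1 x) 1),
    sq_nonneg ((D 2 a x) 2 - (A 2 x) 2)]

theorem Zero_dv (a : E3 → E3) (A : Fin 3 → E3 → E3) (x : E3) :
    (divg a x - dv A x) ^ 2 ≤ 3 * ∑ i, ‖D i a x - A i x‖ ^ 2 := by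
  rw [Fin.sum_univ_three, Pool.Agent.Helper60.EC.Calc3b_nsq, Pool.Agent.Helper60.EC.Calc3b_nsq,
    Pool.Agent.Helper60.EC.Calc3b_nsq, Pool.Agent.Helper60.EC.Calc3b_divg]
  simp only [PiLp.sub_apply]
  have o0 : dv A x = (A 0 x) 0 + (A 1 x) 1 + (A 2 x) 2 := by
    unfold dv
    rw [Fin.sum_univ_three]
  rw [o0]
  nlinarith [sq_nonneg (((D 0 a x) 0 - (A 0 x) 0) - ((D 1 a x) 1 - (A 1 x) 1)),
    sq_nonneg (((D 1 a x) 1 - (A 1 x) 1) - ((D 2 a x) 2 - (A 2 x) 2)),
    sq_nonneg (((D 0 a x) 0 - (A 0 x) 0) - ((D 2 a x) 2 - (A 2 x) 2)),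
    sq_nonneg ((D 0 a x) 1 - (A 0 x) 1), sq_nonneg ((D 0 a x) 2 - (A 0 x) 2),
    sq_nonneg ((D 1 a x) 0 - (A 1 x) 0), sq_nonneg ((D 1 a x) 2 - (A 1 x) 2),
    sq_nonneg ((D 2 a x) 0 - (A 2 x) 0), sq_nonneg ((D 2 a x) 1 - (A 2 x) 1)]

theorem hZero (h1 : StApx) (h2 : StTr) : StZero := by
  intro w A hw hom hdv
  obtain ⟨φ, hφ, -, hA⟩ := h1 w A hw
  have hDm : ∀ n i, MemLp (D i (φ n)) 2 volume := fun n i =>
    Pool.Agent.Helper60.EC.cc_memLp (Pool.Agent.Helper60.EC.cc_D (hφ n) i) 2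
  have hdm : ∀ n i, MemLp (fun x => D i (φ n) x - A i x) 2 volume := fun n i =>
    (hDm n i).sub (hw.gl2 i)
  have hsum : ∀ n, ∫ x, ∑ i, ‖D i (φ n) x - A i x‖ ^ 2 =
      ∑ i, sq (fun x => D i (φ n) x - A i x) := fun n =>
    integral_finsetSum _ fun i _ => Pool.Agent.Helper60.EC.Calc2b_int (hdm n i)
  have hint : ∀ n, Integrable (fun x => ∑ i, ‖D i (φ n) x - A i x‖ ^ 2) volume := fun n =>
    integrable_finsetSum _ fun i _ => Pool.Agent.Helper60.EC.Calc2b_int (hdm n i)
  have hS : Tendsto (fun n => ∑ i, sq (fun x => D i (φ n) x - A i x)) atTop (𝓝 0) := by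
    have := tendsto_finsetSum (Finset.univ : Finset (Fin 3)) fun i _ => hA i
    simpa using this
  have hg1 : ∀ n, gsq (φ n) ≤ 5 * ∑ i, sq (fun x => D i (φ n) x - A i x) := by
    intro n
    rw [Zero_gsq (hφ n)]
    have b1 : sq (curl (φ n)) ≤ 2 * ∫ x, ∑ i, ‖D i (φ n) x - A i x‖ ^ 2 := by
      unfold Pool.Agent.Helper60.EC.sq
      rw [← integral_const_mul]
      refine integral_mono_of_nonneg (Eventually.of_forall fun x => by positivity)
        ((hint n).const_mul 2) ?_
      filter_upwards [hom] with x hx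
      have := Zero_om (φ n) A x
      rw [hx] at this
      simpa using this
    have b2 : ∫ x, (divg (φ n) x) ^ 2 ≤ 3 * ∫ x, ∑ i, ‖D i (φ n) x - A i x‖ ^ 2 := by
      rw [← integral_const_mul]
      refine integral_mono_of_nonneg (Eventually.of_forall fun x => by positivity)
        ((hint n).const_mul 3) ?_
      filter_upwards [hdv] with x hx
      have := Zero_dv (φ n) A x
      rw [hx] at this
      simpa using this
    rw [hsum n] at b1 b2
    linarith
  have hg0 : Tendsto (fun n => gsq (φ n)) atTop (𝓝 0) := by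
    have a1 := hS.const_mul 5
    rw [mul_zero] at a1
    exact tendsto_of_tendsto_of_tendsto_of_le_of_le tendsto_const_nhds a1
      (fun n => Pool.Agent.Helper60.EC.gsq_nonneg _) hg1
  have hAi : ∀ i, sq (A i) = 0 := by
    intro i
    have a1 : ∀ n, Real.sqrt (sq (A i)) ≤
        Real.sqrt (gsq (φ n)) + Real.sqrt (sq (fun x => D i (φ n) x - A i x)) := by
      intro n
      have b1 := Pool.Agent.Helper60.EC.sqrt_sq_sub_le (hDm n i) (hdm n i)
      have b2 : (fun x => D i (φ n) x - (D i (φ n) x - A i x)) = A i := by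
        funext x
        abel
      rw [b2] at b1
      refine b1.trans (add_le_add (Real.sqrt_le_sqrt ?_) le_rfl)
      exact Pool.Agent.Helper60.EC.sq_D_le (hDm n) i
    have a2 : Tendsto (fun n => Real.sqrt (gsq (φ n)) +
        Real.sqrt (sq (fun x => D i (φ n) x - A i x))) atTop (𝓝 0) := by
      have b1 := ((Real.continuous_sqrt.tendsto 0).comp hg0).add
        ((Real.continuous_sqrt.tendsto 0).comp (hA i))
      rw [Real.sqrt_zero, add_zero] at b1
      exact b1
    have a3 : Real.sqrt (sq (A i)) ≤ 0 := ge_of_tendsto' a2 a1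
    have a4 := Real.sqrt_eq_zero'.1 (le_antisymm a3 (Real.sqrt_nonneg _))
    exact le_antisymm a4 (Pool.Agent.Helper60.EC.sq_nonneg' _)
  have hgs : gs A = 0 := by
    have a1 : gs A = ∑ i, sq (A i) :=
      integral_finsetSum _ fun i _ => Pool.Agent.Helper60.EC.Calc2b_int (hw.gl2 i)
    rw [a1]
    exact Finset.sum_eq_zero fun i _ => hAi i
  refine Zero_inv hw.l2 fun z => ?_
  have a1 := h2 w A hw z
  rw [hgs, mul_zero] at a1
  have hwz : MemLp (fun x => w (x + z)) 2 volume :=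
    hw.l2.comp_measurePreserving (measurePreserving_add_right volume z)
  have hm : MemLp (fun x => w (x + z) - w x) 2 volume := hwz.sub hw.l2
  have a2 : ∫ x, ‖w (x + z) - w x‖ ^ 2 = 0 :=
    le_antisymm a1 (integral_nonneg fun x => by positivity)
  have a3 := (integral_eq_zero_iff_of_nonneg (fun x => by positivity)
    (Pool.Agent.Helper60.EC.Calc2b_int hm)).1 a2
  filter_upwards [a3] with x hx
  have : ‖w (x + z) - w x‖ = 0 := by simpa using hx
  exact sub_eq_zero.1 (norm_eq_zero.1 this)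

end Pool.Agent.Helper83.CR
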