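import Pool.Agent.Helper83.CR.M_Apx
import Pool.Agent.Helper83.CR.M_Av
import Pool.Agent.Helper83.CR.M_Bb
import Pool.Agent.Helper83.CR.M_Bt
import Pool.Agent.Helper83.CR.M_Bus
import Pool.Agent.Helper83.CR.M_Cen
import Pool.Agent.Helper83.CR.M_Chain
import Pool.Agent.Helper83.CR.M_CmtB
import Pool.Agent.Helper83.CR.M_CmtI
import Pool.Agent.Helper83.CR.M_Ct
import Pool.Agent.Helper83.CR.M_Cu
import Pool.Agent.Helper83.CR.M_Dbr
import Pool.Agent.Helper83.CR.M_Eps
import Pool.Agent.Helper83.CR.M_Ex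
import Pool.Agent.Helper83.CR.M_Fin
import Pool.Agent.Helper83.CR.M_Fr
import Pool.Agent.Helper83.CR.M_FrA
import Pool.Agent.Helper83.CR.M_FrB
import Pool.Agent.Helper83.CR.M_FrC
import Pool.Agent.Helper83.CR.M_FrT
import Pool.Agent.Helper83.CR.M_Fu
import Pool.Agent.Helper83.CR.M_Ha
import Pool.Agent.Helper83.CR.M_Ineq
import Pool.Agent.Helper83.CR.M_Iter
import Pool.Agent.Helper83.CR.M_Kap
import Pool.Agent.Helper83.CR.M_LV
import Pool.Agent.Helper83.CR.M_Lady
import Pool.Agent.Helper83.CR.M_Lc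
import Pool.Agent.Helper83.CR.M_Le
import Pool.Agent.Helper83.CR.M_Lions
import Pool.Agent.Helper83.CR.M_Low
import Pool.Agent.Helper83.CR.M_MoA
import Pool.Agent.Helper83.CR.M_MoB
import Pool.Agent.Helper83.CR.M_Nl
import Pool.Agent.Helper83.CR.M_Of
import Pool.Agent.Helper83.CR.M_Q4
import Pool.Agent.Helper83.CR.M_Qf
import Pool.Agent.Helper83.CR.M_Rep
import Pool.Agent.Helper83.CR.M_Sc
import Pool.Agent.Helper83.CR.M_Sl
import Pool.Agent.Helper83.CR.M_Strip
import Pool.Agent.Helper83.CR.M_Tr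
import Pool.Agent.Helper83.CR.M_Wc
import Pool.Agent.Helper83.CR.M_Wt
import Pool.Agent.Helper83.CR.M_Zero

/-! # Project CR: assembly -/

set_option autoImplicit false

open MeasureTheory Set Filter Topology
open scoped ENNReal

noncomputable section

namespace Pool.Agent.Helper83.CR

open Pool.Agent.Helper52.NSE (E3 IsSmoothBoundedDomain IsWeakSolution)
open Pool.Agent.Helper7.NT (NoLoss)

theorem pEx : StEx := hEx 
theorem pFrA : StFrA := hFrA pEx
theorem pApx : StApx := hApx 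
theorem pLady : StLady := hLady pApx
theorem pQ4 : StQ4 := hQ4 pLady pEx
theorem pWt : StWt := hWt pQ4 pLady pEx
theorem pFrB : StFrB := hFrB pWt pFrA
theorem pLow : StLow := hLow pFrA pFrB pQ4
theorem pFrC : StFrC := hFrC pFrA
theorem pFr : StFr := hFr pFrA pFrB pFrC
theorem pFrT : StFrT := hFrT pLady
theorem pLions : StLions := hLions pLady
theorem pCen : StCen := hCen pLions
theorem pBus : StBus := hBus pLow pFr pFrT pCen
theorem pNl : StNl := hNl pApx
theorem pMoA : StMoA := hMoA 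
theorem pCu : StCu := hCu 
theorem pQf : StQf := hQf 
theorem pFu : StFu := hFu 
theorem pDbr : StDbr := hDbr 
theorem pRep : StRep := hRep pNl pMoA pCu pQf pFu pDbr
theorem pBt : StBt := hBt 
theorem pChain : StChain := hChain pBt
theorem pMoB : StMoB := hMoB 
theorem pCmtI : StCmtI := hCmtI pMoA pCu
theorem pTr : StTr := hTr pApx
theorem pCmtB : StCmtB := hCmtB pTr pMoB
theorem pSl : StSl := hSl pMoA pMoB pCu pCmtI pCmtB pBt
theorem pIneq : StIneq := hIneq pRep pChain pSl pQf pFu pCmtB pBt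
theorem pEps : StEps := hEps pIneq pMoB pCmtB pBt pFu pQf
theorem pKap : StKap := hKap pEps pBt pFu
theorem pIter : StIter := hIter 
theorem pZero : StZero := hZero pApx pTr
theorem pLV : StLV := hLV pKap pIter pZero
theorem pWc : StWc := hWc 
theorem pBb : StBb := hBb 
theorem pAv : StAv := hAv pTr pMoB
theorem pSc : StSc := hSc pBb pAv
theorem pCt : StCt := hCt 
theorem pLc : StLc := hLc pCt pBb
theorem pLe : StLe := hLe pBb
theorem pOf : StOf := hOf pBb
theorem pStrip : StStrip := hStrip pApx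
theorem pHa : StHa := hHa pStrip pNl pCu pFu
theorem pFin : StFin := hFin pLV pWc pBb pSc pLc pLe pOf pHa

/-- no kinetic energy is lost at a time at which the dissipation is of the critical order -/
theorem noLoss_of_dissipationCritical {Ω : Set E3} {ν T : ℝ} {u₀ : E3 → E3} {f u : ℝ → E3 → E3}
    {G : ℝ → Fin 3 → E3 → E3} (hΩ : IsSmoothBoundedDomain Ω) (hν : 0 < ν)
    (h : IsWeakSolution Ω ν T u₀ f u G) {t₀ : ℝ} (ht₀ : t₀ ∈ Ioc 0 T)
    (hc : DissipationCritical Ω G t₀) : NoLoss Ω u t₀ := by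
  by_contra hl
  obtain ⟨x, r, v, B, K, c, e, hx, hr, hr0, hK, hc0, hb⟩ :=
    pBus Ω ν T u₀ f u G hΩ.isOpen hΩ.bdd hν h t₀ ht₀ hl hc
  exact pFin Ω hΩ x r hx hr hr0 v B K c e hK hc0 hb

end Pool.Agent.Helper83.CR
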