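import Pool.Agent.Helper60.EC.GDefs

/-!
# Project CR (MP_a38b17_an): definitions

No kinetic energy is lost by a Leray-Hopf solution at a time `t₀` with
`liminf_{s → t₀-} (t₀ - s)^(-1/5) ∫_s^{t₀} ‖∇u‖² < ∞`.
Plan: `team-store get MP_a38b17-CR-idea.md` and the statements in `St.lean`.
-/

set_option autoImplicit false

open MeasureTheory Set Filter Topology
open scoped ENNReal ContDiff

noncomputable section

namespace Pool.Agent.Helper83.CR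

open Pool.Agent.Helper52.NSE (E3 pd divg TestField MemH1s MemL2s IsWeakSolution gradSq kin
  IsSmoothBoundedDomain)
open Pool.Agent.Helper60.EC (D Cc curl grad cr ip sq nl adv sm gsq fn Hs)

/-- the time interval `(-1, 0)` -/
abbrev mI : Measure ℝ := volume.restrict (Ioo (-1 : ℝ) 0)

/-- space-time: `(-1, 0) × ℝ³` -/
abbrev mQ : Measure (ℝ × E3) := (volume.restrict (Ioo (-1 : ℝ) 0)).prod volume

/-- `∫ |A|²` -/
def gs (A : Fin 3 → E3 → E3) : ℝ := ∫ x, ∑ i, ‖A i x‖ ^ 2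

/-- `‖w‖²_{L⁴}` -/
def q4 (w : E3 → E3) : ℝ := Real.sqrt (∫ x, ‖w x‖ ^ 4)

/-- the vorticity, computed from the gradient `A i = ∂_i w` -/
def om (A : Fin 3 → E3 → E3) (x : E3) : E3 :=
  !₂[(A 1 x) 2 - (A 2 x) 1, (A 2 x) 0 - (A 0 x) 2, (A 0 x) 1 - (A 1 x) 0]

/-- the divergence, computed from the gradient -/
def dv (A : Fin 3 → E3 → E3) (x : E3) : ℝ := ∑ i, (A i x) i

/-- `w ∈ H¹(ℝ³; ℝ³)` with weak gradient `A i = ∂_i w` -/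
structure H1 (w : E3 → E3) (A : Fin 3 → E3 → E3) : Prop where
  l2 : MemLp w 2 volume
  gl2 : ∀ i, MemLp (A i) 2 volume
  weak : ∀ ψ : E3 → ℝ, Cc ψ → ∀ i, ∫ x, D i ψ x • w x = -∫ x, ψ x • A i x

/-- the time factors of the test fields; they need not vanish at the time `0` -/
structure Tc (θ : ℝ → ℝ) : Prop where
  smooth : ContDiff ℝ ∞ θ
  comp : HasCompactSupport θ
  supp : tsupport θ ⊆ Ioo (-1) 1

/-- the integrated form of the Euler equations on `(-1, 0) × U`, with final value `0` -/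
def EqU (U : Set E3) (v : ℝ → E3 → E3) : Prop :=
  ∀ θ : ℝ → ℝ, Tc θ → ∀ φ : E3 → E3, TestField U φ →
    ∫ t in Ioo (-1 : ℝ) 0, (deriv θ t * ip (v t) φ + θ t * nl φ (v t)) = 0

/-- divergence-free fields in `L²((-1, 0); H¹(ℝ³))` -/
structure Cls (v : ℝ → E3 → E3) (A : ℝ → Fin 3 → E3 → E3) : Prop where
  meas : Measurable fun q : ℝ × E3 => v q.1 q.2
  gmeas : ∀ i, Measurable fun q : ℝ × E3 => A q.1 i q.2
  h1 : ∀ᵐ t ∂mI, H1 (v t) (A t)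
  div : ∀ᵐ t ∂mI, dv (A t) =ᵐ[volume] 0
  int : MemLp (fun q : ℝ × E3 => v q.1 q.2) 2 mQ
  gint : ∀ i, MemLp (fun q : ℝ × E3 => A q.1 i q.2) 2 mQ

/-- the integrated form of the Euler equations on `(-1, 0) × ℝ³`, with final value `0`, tested
with curls -/
def EqC (v : ℝ → E3 → E3) : Prop :=
  ∀ θ : ℝ → ℝ, Tc θ → ∀ φ : E3 → E3, Cc φ →
    ∫ t in Ioo (-1 : ℝ) 0, (deriv θ t * ip (v t) (curl φ) + θ t * nl (curl φ) (v t)) = 0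

/-- Euler flows on `(-1, 0) × ℝ³` in the energy class, with final value `0` -/
structure EF (v : ℝ → E3 → E3) (A : ℝ → Fin 3 → E3 → E3) : Prop extends Cls v A where
  eqn : EqC v

/-- `f * k` -/
def mo (k : E3 → ℝ) (f : E3 → E3) (x : E3) : E3 := ∫ y, k (x - y) • f y

/-- a mollifier at scale `ε` -/
structure Mol (C ε : ℝ) (k : E3 → ℝ) : Prop where
  cc : Cc k
  nn : ∀ z, 0 ≤ k z
  supp : ∀ z, ε ≤ ‖z‖ → k z = 0
  one : ∫ z, k z = 1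
  d : ∀ i, ∫ z, ‖D i k z‖ ≤ C / ε

/-- `curl ((ω × w) * k)` -/
def qf (k : E3 → ℝ) (A : Fin 3 → E3 → E3) (w : E3 → E3) (x : E3) : E3 :=
  ∫ y, cr (grad k (x - y)) (cr (om A y) (w y))

/-- the commutator: `curl` of `(ω × w) * k - (ω * k) × (w * k)` -/
def cmt (k : E3 → ℝ) (o w : E3 → E3) (x : E3) : E3 :=
  ∫ y, cr (grad k (x - y)) (cr (o y - mo k o x) (w y - mo k w x))

/-- the renormalising function `½ log (1 + |y|²/κ²)` -/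
def bt (κ : ℝ) (y : E3) : ℝ := 1 / 2 * Real.log (1 + ‖y‖ ^ 2 / κ ^ 2)

/-- its gradient -/
def gb (κ : ℝ) (y : E3) : E3 := (κ ^ 2 + ‖y‖ ^ 2)⁻¹ • y

/-- the indicator function of `y ≠ 0` -/
def iz (y : E3) : ℝ := if y = 0 then 0 else 1

/-- the right-hand side of the renormalised vorticity inequality, mollified with `k` -/
def rh (k : E3 → ℝ) (κ : ℝ) (φ : E3 → ℝ) (A : Fin 3 → E3 → E3) (w : E3 → E3) (x : E3) : ℝ :=
  ‖mo k w x‖ * ‖grad φ x‖ * bt κ (mo k (om A) x) + φ x * Real.sqrt (∑ i, ‖mo k (A i) x‖ ^ 2) +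
    φ x * (‖cmt k (om A) w x‖ / (2 * κ))

/-- the right-hand side of the renormalised vorticity inequality -/
def rl (κ : ℝ) (φ : E3 → ℝ) (A : Fin 3 → E3 → E3) (w : E3 → E3) (x : E3) : ℝ :=
  ‖w x‖ * ‖grad φ x‖ * bt κ (om A x) + φ x * Real.sqrt (∑ i, ‖A i x‖ ^ 2)

/-- a rescaled Leray-Hopf solution on `(-1, 0)` in the domain `O`: `K` bounds the energy, `n` is
the viscosity, `F` bounds the force in `L¹L²` -/
structure Fr (O : Set E3) (K n F : ℝ) (v : ℝ → E3 → E3) (B : ℝ → Fin 3 → E3 → E3) : Prop where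
  meas : AEStronglyMeasurable (fun q : ℝ × E3 => v q.1 q.2) mQ
  gmeas : ∀ i, AEStronglyMeasurable (fun q : ℝ × E3 => B q.1 i q.2) mQ
  off : ∀ s y, y ∉ O → v s y = 0
  goff : ∀ s i y, y ∉ O → B s i y = 0
  h1 : ∀ᵐ s ∂mI, H1 (v s) (B s)
  div : ∀ᵐ s ∂mI, dv (B s) =ᵐ[volume] 0
  energy : ∀ s ∈ Icc (-1 : ℝ) 0, MemLp (v s) 2 volume ∧ sq (v s) ≤ K
  gint : Integrable (fun s => gs (B s)) mI
  time : ∀ᵐ s ∂mI, ∀ᵐ t ∂mI, s < t → sq (fun y => v t y - v s y) ≤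
    (Real.sqrt (gs (B s)) + Real.sqrt (gs (B t))) *
      (n * (∫ τ in s..t, Real.sqrt (gs (B τ))) + ∫ τ in s..t, q4 (v τ)) + 2 * Real.sqrt K * F
  eqn : ∀ θ : ℝ → ℝ, Tc θ → ∀ M : ℝ, (∀ s, |θ s| ≤ M) → ∀ φ, TestField O φ →
    |(∫ s in Ioo (-1 : ℝ) 0, (deriv θ s * ip (v s) φ + θ s * nl φ (v s))) - θ 0 * ip (v 0) φ| ≤
      M * (n * Real.sqrt (gsq φ) * Real.sqrt (∫ s in Ioo (-1 : ℝ) 0, gs (B s)) +
        Real.sqrt (sq φ) * F)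

/-- a bounded sequence of rescaled flows in the domains `O k`, with vanishing viscosity, force and
final value, which stays away from zero -/
structure BUS (O : ℕ → Set E3) (u : ℕ → ℝ → E3 → E3) (A : ℕ → ℝ → Fin 3 → E3 → E3) (K c : ℝ)
    (e : ℕ → ℝ) : Prop where
  meas : ∀ k, AEStronglyMeasurable (fun q : ℝ × E3 => u k q.1 q.2) mQ
  gmeas : ∀ k i, AEStronglyMeasurable (fun q : ℝ × E3 => A k q.1 i q.2) mQ
  off : ∀ k s y, y ∉ O k → u k s y = 0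
  goff : ∀ k s i y, y ∉ O k → A k s i y = 0
  h1 : ∀ k, ∀ᵐ s ∂mI, H1 (u k s) (A k s)
  div : ∀ k, ∀ᵐ s ∂mI, dv (A k s) =ᵐ[volume] 0
  energy : ∀ k, ∀ᵐ s ∂mI, sq (u k s) ≤ K
  gint : ∀ k, Integrable (fun s => gs (A k s)) mI
  gbd : ∀ k, ∫ s in Ioo (-1 : ℝ) 0, gs (A k s) ≤ K
  enn : ∀ k, 0 ≤ e k
  e0 : Tendsto e atTop (𝓝 0)
  time : ∀ k, ∀ᵐ s ∂mI, ∀ᵐ t ∂mI, s < t → sq (fun y => u k t y - u k s y) ≤
    K * (1 + Real.sqrt (gs (A k s)) + Real.sqrt (gs (A k t))) * (e k + (t - s) ^ (1 / 4 : ℝ))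
  eqn : ∀ θ : ℝ → ℝ, Tc θ → ∀ φ : E3 → E3, ∃ ε : ℕ → ℝ, Tendsto ε atTop (𝓝 0) ∧
    ∀ k, TestField (O k) φ →
      |∫ s in Ioo (-1 : ℝ) 0, (deriv θ s * ip (u k s) φ + θ s * nl φ (u k s))| ≤ ε k
  mass : ∀ k, c ≤ ∫ s in Ioo (-1 : ℝ) 0, ∫ y in Metric.ball (0 : E3) 2, ‖u k s y‖ ^ 2

/-- `F k → F'` weakly in `L²((-1, 0) × ℝ³)` -/
def Wk (F : ℕ → ℝ → E3 → E3) (F' : ℝ → E3 → E3) : Prop :=
  ∀ Ψ : ℝ × E3 → E3, MemLp Ψ 2 mQ → Tendsto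
    (fun k => ∫ q : ℝ × E3, (inner ℝ (F k q.1 q.2) (Ψ q) : ℝ) ∂mQ) atTop
      (𝓝 (∫ q : ℝ × E3, (inner ℝ (F' q.1 q.2) (Ψ q) : ℝ) ∂mQ))

/-- `F k → F'` strongly in `L²((-1, 0) × B_R)` for every `R` -/
def Sg (F : ℕ → ℝ → E3 → E3) (F' : ℝ → E3 → E3) : Prop :=
  ∀ R : ℝ, Tendsto (fun k => ∫ q in (univ : Set ℝ) ×ˢ Metric.ball (0 : E3) R,
    ‖F k q.1 q.2 - F' q.1 q.2‖ ^ 2 ∂mQ) atTop (𝓝 0)

/-- extension by zero -/
def ze (Ω : Set E3) (w : E3 → E3) : E3 → E3 := Ω.indicator w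

/-- the rescaled velocity -/
def sv (Ω : Set E3) (u : ℝ → E3 → E3) (t₀ r : ℝ) (x₀ : E3) (s : ℝ) (y : E3) : E3 :=
  r ^ (3 / 2 : ℝ) • ze Ω (u (t₀ + r ^ (5 / 2 : ℝ) * s)) (x₀ + r • y)

/-- the rescaled gradient -/
def sA (Ω : Set E3) (G : ℝ → Fin 3 → E3 → E3) (t₀ r : ℝ) (x₀ : E3) (s : ℝ) (i : Fin 3)
    (y : E3) : E3 :=
  r ^ (5 / 2 : ℝ) • ze Ω (G (t₀ + r ^ (5 / 2 : ℝ) * s) i) (x₀ + r • y)

/-- `liminf_{s → t₀-} (t₀ - s)^(-1/5) ∫_s^{t₀} ‖∇u‖² < ∞` -/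
def DissipationCritical (Ω : Set E3) (G : ℝ → Fin 3 → E3 → E3) (t₀ : ℝ) : Prop :=
  ∃ M : ℝ, ∀ δ : ℝ, 0 < δ → ∃ s ∈ Ioo (t₀ - δ) t₀, 0 ≤ s ∧
    ∫ τ in s..t₀, gradSq Ω (G τ) ≤ M * (t₀ - s) ^ (1 / 5 : ℝ)

end Pool.Agent.Helper83.CR
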