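import Pool.Agent.Helper83.CR.St
import Pool.Agent.Helper60.EC.Mol

/-!
# Project CR, module Apx: `H¹` pairs are limits of smooth compactly supported fields
-/

set_option autoImplicit false

open MeasureTheory Set Filter Topology
open scoped ENNReal ContDiff

noncomputable section

namespace Pool.Agent.Helper83.CR

open Pool.Agent.Helper52.NSE (E3 pd divg TestField)
open Pool.Agent.Helper60.EC (D Cc sq sm Cut exists_cut Mol_M Mol_K Mol_l2 Mol_smooth Mol_loc Mol_D
  Mol_lint D_comp_affine D_smooth D_sm sqrt_sq_add_le sq_nonneg' cc_sm Mol_exists)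

/-! ### Mollification along a fixed sequence of kernels -/

/-- the bump functions -/
def Apx_b (n : ℕ) : ContDiffBump (0 : E3) :=
  ⟨1 / ((n : ℝ) + 1), 2 * (1 / ((n : ℝ) + 1)), by positivity, by
    have : (0 : ℝ) < 1 / ((n : ℝ) + 1) := by positivity
    linarith⟩

/-- the mollifiers -/
def Apx_k (n : ℕ) : E3 → ℝ := (Apx_b n).normed volume

theorem Apx_K (n : ℕ) : Mol_K (Apx_k n) :=
  ⟨⟨(Apx_b n).contDiff_normed, (Apx_b n).hasCompactSupport_normed⟩,
    fun x => (Apx_b n).nonneg_normed x, (Apx_b n).integral_normed⟩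

theorem Apx_ae {w : E3 → E3} (hw : MemLp w 2 volume) :
    ∀ᵐ x, Tendsto (fun n => Mol_M (Apx_k n) w x) atTop (𝓝 (w x)) := by
  have hr : Tendsto (fun n => (Apx_b n).rOut) atTop (𝓝 0) := by
    have := (tendsto_one_div_add_atTop_nhds_zero_nat (𝕜 := ℝ)).const_mul 2
    rw [mul_zero] at this
    exact this
  exact ContDiffBump.ae_convolution_tendsto_right_of_locallyIntegrable (K := 2)
    (μ := (volume : Measure E3)) hr (Filter.Eventually.of_forall fun n => le_rfl) (Mol_loc hw)

/-- convergence in `L²` along the sequence of mollifiers -/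
theorem Apx_conv {w : E3 → E3} (hw : MemLp w 2 volume) {ε : ℝ} (hε : 0 < ε) :
    ∀ᶠ n in atTop, sq (fun x => w x - Mol_M (Apx_k n) w x) ≤ ε := by
  by_contra hcon0
  rw [Filter.not_eventually] at hcon0
  obtain ⟨ψ, hψ, hcon⟩ := Filter.extraction_of_frequently_atTop hcon0
  set v : ℕ → E3 → E3 := fun n => Mol_M (Apx_k (ψ n)) w with hv
  have hvm : ∀ n, MemLp (v n) 2 volume ∧ sq (v n) ≤ sq w := fun n => Mol_l2 (Apx_K _) hw
  have hae : ∀ᵐ x, Tendsto (fun n => v n x) atTop (𝓝 (w x)) := by
    filter_upwards [Apx_ae hw] with x hx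
    exact hx.comp hψ.tendsto_atTop
  have hw2 := hw
  rw [memLp_two_iff_integrable_sq_norm hw.1] at hw2
  have hpar : ∀ n, sq (fun x => w x + v n x) ≤ 4 * sq w - ε := by
    intro n
    have h1 := hcon n
    rw [not_le] at h1
    have m1 : MemLp (fun x => w x + v n x) 2 volume := hw.add (hvm n).1
    have m2 : MemLp (fun x => w x - v n x) 2 volume := hw.sub (hvm n).1
    have m3 := (hvm n).1
    rw [memLp_two_iff_integrable_sq_norm m1.1] at m1
    rw [memLp_two_iff_integrable_sq_norm m2.1] at m2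
    rw [memLp_two_iff_integrable_sq_norm m3.1] at m3
    have h2 : sq (fun x => w x + v n x) + sq (fun x => w x - v n x) = 2 * sq w + 2 * sq (v n) := by
      unfold Pool.Agent.Helper60.EC.sq
      rw [← integral_add m1 m2, ← integral_const_mul, ← integral_const_mul,
        ← integral_add (hw2.const_mul 2) (m3.const_mul 2)]
      congr 1
      funext x
      have := parallelogram_law_with_norm ℝ (w x) (v n x)
      nlinarith
    have h3 := (hvm n).2
    linarith
  have hpos : 0 ≤ 4 * sq w - ε := (integral_nonneg fun x => by positivity).trans (hpar 0)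
  have hF := lintegral_liminf_le' (μ := (volume : Measure E3)) (u := atTop)
    (f := fun n x => ‖w x + v n x‖ₑ ^ 2) (fun n => ((hw.add (hvm n).1).1.enorm.pow_const 2))
  have e1 : ∀ᵐ x, liminf (fun n => ‖w x + v n x‖ₑ ^ 2) atTop = ‖(2 : ℝ) • w x‖ₑ ^ 2 := by
    filter_upwards [hae] with x hx
    have h0 : Tendsto (fun n => w x + v n x) atTop (𝓝 ((2 : ℝ) • w x)) := by
      rw [two_smul]
      exact tendsto_const_nhds.add hx
    have h1 : Tendsto (fun n => ‖w x + v n x‖ₑ) atTop (𝓝 (‖(2 : ℝ) • w x‖ₑ)) := h0.enorm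
    exact (((ENNReal.continuous_pow 2).tendsto _).comp h1).liminf_eq
  rw [lintegral_congr_ae e1] at hF
  have h2w : MemLp (fun x => (2 : ℝ) • w x) 2 volume := hw.const_smul (2 : ℝ)
  rw [Mol_lint h2w] at hF
  have e2 : sq (fun x => (2 : ℝ) • w x) = 4 * sq w := by
    unfold Pool.Agent.Helper60.EC.sq
    rw [← integral_const_mul]
    congr 1
    funext x
    rw [norm_smul, mul_pow]
    norm_num
  have h5 : ENNReal.ofReal (sq (fun x => (2 : ℝ) • w x)) ≤ ENNReal.ofReal (4 * sq w - ε) := by
    refine hF.trans ?_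
    refine liminf_le_of_le (by isBoundedDefault) ?_
    intro b hb
    obtain ⟨n, hn⟩ := hb.exists
    refine hn.trans ?_
    have m1 : MemLp (fun x => w x + v n x) 2 volume := hw.add (hvm n).1
    rw [Mol_lint m1]
    exact ENNReal.ofReal_le_ofReal (hpar n)
  rw [ENNReal.ofReal_le_ofReal_iff hpos, e2] at h5
  linarith

/-! ### The derivatives of the mollification -/

theorem Apx_D {w : E3 → E3} {A : Fin 3 → E3 → E3} (h : H1 w A) {ρ : E3 → ℝ} (hρ : Cc ρ)
    (i : Fin 3) (x : E3) : D i (Mol_M ρ w) x = Mol_M ρ (A i) x := by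
  rw [Mol_D hρ (Mol_loc h.l2)]
  have h3 : ∀ (k : E3 → ℝ) (g : E3 → E3), ∫ t, k t • g (x - t) = ∫ t, k (x - t) • g t := by
    intro k g
    rw [← integral_sub_left_eq_self (fun t => k t • g (x - t)) volume x]
    simp
  have h4 : Mol_M ρ (A i) x = ∫ t, ρ t • A i (x - t) := rfl
  rw [h4, h3, h3]
  have hφ : Cc (fun t => ρ (x - t)) := by
    refine ⟨hρ.smooth.comp (contDiff_const.sub contDiff_id), ?_⟩
    exact hρ.comp.comp_homeomorph (Homeomorph.subLeft x)
  have hD : ∀ t, D i (fun t => ρ (x - t)) t = -D i ρ (x - t) := by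
    intro t
    have h := D_comp_affine (hρ.smooth.differentiable (by simp)) (-1) x i t
    have e1 : (fun y => ρ (x + (-1 : ℝ) • y)) = fun y => ρ (x - y) := by
      funext y
      rw [neg_one_smul, sub_eq_add_neg]
    rw [e1] at h
    rw [h, neg_one_smul, neg_one_smul, ← sub_eq_add_neg]
  have h5 := h.weak _ hφ i
  simp_rw [hD, neg_smul] at h5
  rw [integral_neg] at h5
  exact neg_injective h5

/-! ### Elementary inequalities -/

theorem Apx_add {f g : E3 → E3} (hf : MemLp f 2 volume) (hg : MemLp g 2 volume) :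
    sq (fun x => f x + g x) ≤ 2 * sq f + 2 * sq g := by
  have h1 := sqrt_sq_add_le hf hg
  have h2 := Real.sq_sqrt (sq_nonneg' (fun x => f x + g x))
  have h3 := Real.sq_sqrt (sq_nonneg' f)
  have h4 := Real.sq_sqrt (sq_nonneg' g)
  have h5 := pow_le_pow_left₀ (Real.sqrt_nonneg _) h1 2
  rw [h2] at h5
  nlinarith [sq_nonneg (Real.sqrt (sq f) - Real.sqrt (sq g))]

/-- removing a cutoff -/
theorem Apx_cut {g : E3 → E3} (hg : MemLp g 2 volume) {χ : ℕ → E3 → ℝ}
    (hc : ∀ n, Continuous (χ n)) (h01 : ∀ n x, 0 ≤ χ n x ∧ χ n x ≤ 1)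
    (h1 : ∀ (n : ℕ) x, ‖x‖ ≤ ((n : ℝ) + 1) / 2 → χ n x = 1) :
    Tendsto (fun n => sq (fun x => (χ n x - 1) • g x)) atTop (𝓝 0) := by
  have h2 : Tendsto (fun n => ∫ x, ‖(χ n x - 1) • g x‖ ^ 2) atTop (𝓝 (∫ x : E3, (0 : ℝ))) := by
    refine tendsto_integral_of_dominated_convergence (fun x => ‖g x‖ ^ 2) (fun n => ?_) ?_
      (fun n => ?_) ?_
    · exact ((((hc n).sub continuous_const).aestronglyMeasurable.smul hg.1).norm.pow 2)
    · have := hg
      rwa [memLp_two_iff_integrable_sq_norm hg.1] at this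
    · refine Eventually.of_forall fun x => ?_
      rw [Real.norm_of_nonneg (by positivity)]
      refine pow_le_pow_left₀ (norm_nonneg _) ?_ 2
      rw [norm_smul]
      have h3 : ‖χ n x - 1‖ ≤ 1 := by
        rw [Real.norm_eq_abs, abs_le]
        constructor <;> linarith [(h01 n x).1, (h01 n x).2]
      calc ‖χ n x - 1‖ * ‖g x‖ ≤ 1 * ‖g x‖ := mul_le_mul_of_nonneg_right h3 (norm_nonneg _)
        _ = ‖g x‖ := one_mul _
    · refine Eventually.of_forall fun x => ?_
      refine tendsto_const_nhds.congr' ?_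
      obtain ⟨N, hN⟩ := exists_nat_gt (2 * ‖x‖)
      filter_upwards [eventually_ge_atTop N] with n hn
      have h4 : (N : ℝ) ≤ n := by exact_mod_cast hn
      rw [h1 n x (by linarith), sub_self, zero_smul, norm_zero]
      norm_num
  rw [integral_zero] at h2
  exact h2

/-- cutting off a smooth field -/
theorem Apx_smooth {f : E3 → E3} (hf : ContDiff ℝ ∞ f) (h0 : MemLp f 2 volume)
    (hD : ∀ i, MemLp (D i f) 2 volume) {δ : ℝ} (hδ : 0 < δ) :
    ∃ φ : E3 → E3, Cc φ ∧ sq (fun x => φ x - f x) ≤ δ ∧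
      ∀ i, sq (fun x => D i φ x - D i f x) ≤ δ := by
  obtain ⟨K, hK, hcut⟩ := exists_cut
  choose χ hχ h01 h1 using fun n : ℕ => hcut 0 ((n : ℝ) + 1) (by positivity)
  have h1' : ∀ (n : ℕ) x, ‖x‖ ≤ ((n : ℝ) + 1) / 2 → χ n x = 1 := fun n x hx => h1 n x (by rwa [sub_zero])
  have hc : ∀ n, Continuous (χ n) := fun n => (hχ n).cc.smooth.continuous
  have ha := Apx_cut h0 hc h01 h1'
  have hb := fun i => Apx_cut (hD i) hc h01 h1'
  have hz : Tendsto (fun n : ℕ => (K / ((n : ℝ) + 1)) ^ 2 * sq f) atTop (𝓝 0) := by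
    have h2 : Tendsto (fun n : ℕ => K * (1 / ((n : ℝ) + 1))) atTop (𝓝 (K * 0)) :=
      (tendsto_one_div_add_atTop_nhds_zero_nat (𝕜 := ℝ)).const_mul K
    have h3 := (h2.pow 2).mul_const (sq f)
    simp only [mul_one_div, mul_zero, zero_pow two_ne_zero, zero_mul] at h3
    exact h3
  have hev : ∀ᶠ n in atTop, sq (fun x => (χ n x - 1) • f x) ≤ δ ∧
      (∀ i, sq (fun x => (χ n x - 1) • D i f x) ≤ δ / 4) ∧
      (K / ((n : ℝ) + 1)) ^ 2 * sq f ≤ δ / 4 := by
    refine (ha.eventually (ge_mem_nhds hδ)).and (Filter.Eventually.and ?_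
      (hz.eventually (ge_mem_nhds (by linarith))))
    rw [eventually_all]
    exact fun i => (hb i).eventually (ge_mem_nhds (by linarith))
  obtain ⟨n, hn1, hn2, hn3⟩ := hev.exists
  refine ⟨sm (χ n) f, cc_sm (hχ n).cc hf, ?_, fun i => ?_⟩
  · have e : (fun x => sm (χ n) f x - f x) = fun x => (χ n x - 1) • f x := by
      funext x
      rw [sub_smul, one_smul]
      rfl
    rw [e]
    exact hn1
  · have e : (fun x => D i (sm (χ n) f) x - D i f x) =
        fun x => D i (χ n) x • f x + (χ n x - 1) • D i f x := by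
      funext x
      rw [D_sm ((hχ n).cc.smooth.differentiable (by simp) x) (hf.differentiable (by simp) x),
        sub_smul, one_smul]
      abel
    have hbd : ∀ x, ‖D i (χ n) x • f x‖ ≤ K / ((n : ℝ) + 1) * ‖f x‖ := fun x => by
      rw [norm_smul, Real.norm_eq_abs]
      exact mul_le_mul_of_nonneg_right ((hχ n).d1 i x) (norm_nonneg _)
    have m1 : MemLp (fun x => D i (χ n) x • f x) 2 volume := by
      refine (h0.norm.const_mul (K / ((n : ℝ) + 1))).mono ?_ (Eventually.of_forall fun x => ?_)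
      · exact ((D_smooth (hχ n).cc.smooth i).continuous.smul hf.continuous).aestronglyMeasurable
      · refine (hbd x).trans (le_abs_self _)
    have m2 : MemLp (fun x => (χ n x - 1) • D i f x) 2 volume := by
      refine (hD i).mono ?_ (Eventually.of_forall fun x => ?_)
      · exact (((hc n).sub continuous_const).smul (D_smooth hf i).continuous).aestronglyMeasurable
      · rw [norm_smul]
        have h3 : ‖χ n x - 1‖ ≤ 1 := by
          rw [Real.norm_eq_abs, abs_le]
          constructor <;> linarith [(h01 n x).1, (h01 n x).2]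
        calc ‖χ n x - 1‖ * ‖D i f x‖ ≤ 1 * ‖D i f x‖ :=
              mul_le_mul_of_nonneg_right h3 (norm_nonneg _)
          _ = ‖D i f x‖ := one_mul _
    have h5 : sq (fun x => D i (χ n) x • f x) ≤ (K / ((n : ℝ) + 1)) ^ 2 * sq f := by
      have i1 := h0
      rw [memLp_two_iff_integrable_sq_norm h0.1] at i1
      have i2 := m1
      rw [memLp_two_iff_integrable_sq_norm m1.1] at i2
      unfold Pool.Agent.Helper60.EC.sq
      rw [← integral_const_mul]
      refine integral_mono i2 (i1.const_mul _) fun x => ?_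
      have := pow_le_pow_left₀ (norm_nonneg _) (hbd x) 2
      rwa [mul_pow] at this
    rw [e]
    have h6 := Apx_add m1 m2
    have h7 := hn2 i
    linarith

theorem hApx : StApx := by
  intro w A h
  have key : ∀ δ : ℝ, 0 < δ → ∃ φ : E3 → E3, Cc φ ∧ sq (fun x => φ x - w x) ≤ δ ∧
      ∀ i, sq (fun x => D i φ x - A i x) ≤ δ := by
    intro δ hδ
    have hev : ∀ᶠ n in atTop, sq (fun x => w x - Mol_M (Apx_k n) w x) ≤ δ / 4 ∧
        ∀ i, sq (fun x => A i x - Mol_M (Apx_k n) (A i) x) ≤ δ / 4 := by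
      refine (Apx_conv h.l2 (by linarith)).and ?_
      rw [eventually_all]
      exact fun i => Apx_conv (h.gl2 i) (by linarith)
    obtain ⟨n, hn1, hn2⟩ := hev.exists
    have hK := Apx_K n
    set f : E3 → E3 := Mol_M (Apx_k n) w with hf
    have hfs : ContDiff ℝ ∞ f := Mol_smooth hK.cc (Mol_loc h.l2)
    have hDf : ∀ i, D i f = Mol_M (Apx_k n) (A i) := fun i => funext fun x => Apx_D h hK.cc i x
    have hDm : ∀ i, MemLp (D i f) 2 volume := fun i => by
      rw [hDf i]
      exact (Mol_l2 hK (h.gl2 i)).1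
    have hfm : MemLp f 2 volume := (Mol_l2 hK h.l2).1
    obtain ⟨φ, hφ, h1, h2⟩ := Apx_smooth hfs hfm hDm (show 0 < δ / 4 by linarith)
    have hflip : ∀ a b : E3 → E3, sq (fun x => a x - b x) = sq (fun x => b x - a x) := by
      intro a b
      unfold Pool.Agent.Helper60.EC.sq
      simp_rw [norm_sub_rev]
    have hφm : MemLp φ 2 volume := hφ.smooth.continuous.memLp_of_hasCompactSupport hφ.comp
    have hDφ : ∀ i, MemLp (D i φ) 2 volume := fun i =>
      Pool.Agent.Helper60.EC.cc_memLp (Pool.Agent.Helper60.EC.cc_D hφ i) 2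
    refine ⟨φ, hφ, ?_, fun i => ?_⟩
    · have e : (fun x => φ x - w x) = fun x => (φ x - f x) + (f x - w x) := by
        funext x
        abel
      rw [e]
      have h3 := Apx_add (hφm.sub hfm) (hfm.sub h.l2)
      have h4 := hflip f w
      have h5 : sq (fun x => f x - w x) ≤ δ / 4 := by rw [h4]; exact hn1
      have h6 : sq (fun x => (φ x - f x) + (f x - w x)) ≤
        2 * sq (fun x => φ x - f x) + 2 * sq (fun x => f x - w x) := h3
      linarith
    · have e : (fun x => D i φ x - A i x) = fun x => (D i φ x - D i f x) + (D i f x - A i x) := by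
        funext x
        abel
      rw [e]
      have h3 := Apx_add ((hDφ i).sub (hDm i)) ((hDm i).sub (h.gl2 i))
      have h4 := hflip (D i f) (A i)
      have h5 : sq (fun x => D i f x - A i x) ≤ δ / 4 := by
        rw [h4, hDf i]
        exact hn2 i
      have h6 : sq (fun x => (D i φ x - D i f x) + (D i f x - A i x)) ≤
        2 * sq (fun x => D i φ x - D i f x) + 2 * sq (fun x => D i f x - A i x) := h3
      have h7 := h2 i
      linarith
  choose φ hφ h1 h2 using fun n : ℕ => key (1 / ((n : ℝ) + 1)) (by positivity)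
  refine ⟨φ, hφ, ?_, fun i => ?_⟩
  · exact squeeze_zero (fun n => sq_nonneg' _) h1 tendsto_one_div_add_atTop_nhds_zero_nat
  · exact squeeze_zero (fun n => sq_nonneg' _) (fun n => h2 n i)
      tendsto_one_div_add_atTop_nhds_zero_nat

end Pool.Agent.Helper83.CR
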