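import Pool.Agent.Helper83.CR.St
import Pool.Agent.Helper60.EC.G1b

/-!
# Project CR, module Ex: extension by zero
-/

set_option autoImplicit false

open MeasureTheory Set Filter Topology
open scoped ENNReal ContDiff

noncomputable section

namespace Pool.Agent.Helper83.CR

open Pool.Agent.Helper52.NSE (E3 pd divg TestField MemH1s MemL2s IsWeakSolution gradSq kin
  IsSmoothBoundedDomain)
open Pool.Agent.Helper60.EC (D Cc curl grad cr ip sq nl adv sm gsq fn Hs cc_memLp cc_D G1b_cc
  G1b_sq G1b_int G1b_off G1b_ext G1b_memLp G1b_memw ip_le pd_eq D_tsupport ibp D_smooth)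

theorem Ex_off {Ω : Set E3} {w : E3 → E3} {x : E3} (hx : x ∉ Ω) : ze Ω w x = 0 :=
  indicator_of_notMem hx _

theorem Ex_ae {Ω : Set E3} (hO : IsOpen Ω) (w : E3 → E3) : ze Ω w =ᵐ[volume.restrict Ω] w := by
  filter_upwards [ae_restrict_mem hO.measurableSet] with x hx
  exact indicator_of_mem hx _

/-- the norm of the difference, as a real number -/
theorem Ex_norm {Ω : Set E3} (hO : IsOpen Ω) {w φ : E3 → E3} {ε : ℝ} (hε : 0 < ε)
    (hw : MemLp (ze Ω w) 2 volume) (hφ : MemLp φ 2 volume) (h0 : ∀ x, x ∉ Ω → φ x = 0)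
    (h : eLpNorm (fun x => w x - φ x) 2 (volume.restrict Ω) < ENNReal.ofReal ε) :
    Real.sqrt (sq (fun x => ze Ω w x - φ x)) ≤ ε := by
  have hd : MemLp (fun x => ze Ω w x - φ x) 2 volume := hw.sub hφ
  have h5 : sq (fun x => ze Ω w x - φ x) =
      (eLpNorm (fun x => ze Ω w x - φ x) 2 volume).toReal ^ 2 := G1b_sq hd
  rw [h5, Real.sqrt_sq ENNReal.toReal_nonneg,
    G1b_ext hO (Ex_ae hO w) (fun x hx => Ex_off hx) h0]
  have h6 := ENNReal.toReal_mono ENNReal.ofReal_ne_top h.le
  rwa [ENNReal.toReal_ofReal hε.le] at h6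

theorem Ex_sub {f φ g : E3 → E3} (hf : MemLp f 2 volume) (hφ : MemLp φ 2 volume)
    (hg : MemLp g 2 volume) : ip (fun x => f x - φ x) g = ip f g - ip φ g := by
  unfold ip
  rw [← integral_sub (G1b_int hf hg) (G1b_int hφ hg)]
  apply integral_congr_ae
  filter_upwards with x
  rw [inner_sub_left]

theorem hEx : StEx := by
  intro Ω hO w G h
  obtain ⟨hm, hmG, happ⟩ := h
  have hwL : MemLp w 2 (volume.restrict Ω) := by
    obtain ⟨φ, hφ, h1, _⟩ := happ 1 one_pos
    exact G1b_memw hm ((cc_memLp (G1b_cc hφ) 2).restrict Ω) h1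
  have hGL : ∀ i, MemLp (G i) 2 (volume.restrict Ω) := by
    intro i
    obtain ⟨φ, hφ, _, h1⟩ := happ 1 one_pos
    exact G1b_memw (hmG i) ((cc_memLp (cc_D (G1b_cc hφ) i) 2).restrict Ω) (h1 i)
  have hU : MemLp (ze Ω w) 2 volume := G1b_memLp hO hwL (Ex_ae hO w) fun x hx => Ex_off hx
  have hV : ∀ i, MemLp (ze Ω (G i)) 2 volume := fun i =>
    G1b_memLp hO (hGL i) (Ex_ae hO (G i)) fun x hx => Ex_off hx
  -- the weak formulation, for vector fields
  have key : ∀ g : E3 → E3, Cc g → ∀ i, ip (ze Ω w) (D i g) + ip (ze Ω (G i)) g = 0 := by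
    intro g hg i
    have hgL : MemLp g 2 volume := cc_memLp hg 2
    have hDg : MemLp (D i g) 2 volume := cc_memLp (cc_D hg i) 2
    have h1 : ∀ ε : ℝ, 0 < ε → |ip (ze Ω w) (D i g) + ip (ze Ω (G i)) g| ≤
        ε * Real.sqrt (sq (D i g)) + ε * Real.sqrt (sq g) := by
      intro ε hε
      obtain ⟨φ, hφ, e1, e2⟩ := happ (ENNReal.ofReal ε) (ENNReal.ofReal_pos.2 hε)
      have hcc := G1b_cc hφ
      have hφL : MemLp φ 2 volume := cc_memLp hcc 2
      have hDL : MemLp (D i φ) 2 volume := cc_memLp (cc_D hcc i) 2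
      have e3 : ip φ (D i g) + ip (D i φ) g = 0 := by
        have := ibp (hcc.smooth.of_le (by exact_mod_cast le_top))
          (hg.smooth.of_le (by exact_mod_cast le_top)) (Or.inl hcc.comp) i
        unfold ip
        linarith
      have e4 : ip (ze Ω w) (D i g) + ip (ze Ω (G i)) g =
          ip (fun x => ze Ω w x - φ x) (D i g) + ip (fun x => ze Ω (G i) x - D i φ x) g := by
        rw [Ex_sub hU hφL hDg, Ex_sub (hV i) hDL hgL]
        linarith
      rw [e4]
      refine (abs_add_le _ _).trans (add_le_add ?_ ?_)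
      · refine (ip_le (hU.sub hφL) hDg).trans ?_
        refine mul_le_mul_of_nonneg_right ?_ (Real.sqrt_nonneg _)
        exact Ex_norm hO hε hU hφL (fun x hx => G1b_off hφ.supp hx) e1
      · refine (ip_le ((hV i).sub hDL) hgL).trans ?_
        refine mul_le_mul_of_nonneg_right ?_ (Real.sqrt_nonneg _)
        refine Ex_norm hO hε (hV i) hDL (fun x hx => ?_) (e2 i)
        exact G1b_off ((D_tsupport φ i).trans hφ.supp) hx
    have h2 : |ip (ze Ω w) (D i g) + ip (ze Ω (G i)) g| ≤ 0 := by
      have h8 : Tendsto (fun ε : ℝ => ε * Real.sqrt (sq (D i g)) + ε * Real.sqrt (sq g)) (𝓝[>] 0)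
          (𝓝 (0 * Real.sqrt (sq (D i g)) + 0 * Real.sqrt (sq g))) := by
        apply Tendsto.mono_left _ nhdsWithin_le_nhds
        apply Continuous.tendsto
        fun_prop
      rw [zero_mul, zero_mul, add_zero] at h8
      apply ge_of_tendsto h8
      filter_upwards [self_mem_nhdsWithin] with ε hε
      exact h1 ε hε
    exact abs_eq_zero.1 (le_antisymm h2 (abs_nonneg _))
  refine ⟨⟨hU, hV, ?_⟩, ?_, ?_, ?_⟩
  · -- weak gradient
    intro ψ hψ i
    have hψs : MemLp ψ 2 volume := cc_memLp hψ 2
    have hDψ : MemLp (D i ψ) 2 volume := cc_memLp (cc_D hψ i) 2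
    have hI1 : Integrable (fun x => D i ψ x • ze Ω w x) := by
      have := hU.smul (p := 2) (q := 2) (r := 1) hDψ
      exact memLp_one_iff_integrable.1 this
    have hI2 : Integrable (fun x => ψ x • ze Ω (G i) x) := by
      have := (hV i).smul (p := 2) (q := 2) (r := 1) hψs
      exact memLp_one_iff_integrable.1 this
    have hz : ∀ e : E3, inner ℝ e ((∫ x, D i ψ x • ze Ω w x) + ∫ x, ψ x • ze Ω (G i) x) = 0 := by
      intro e
      obtain ⟨g, hgdef⟩ : ∃ g : E3 → E3, g = fun x => ψ x • e := ⟨_, rfl⟩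
      have hg : Cc g := by
        rw [hgdef]
        exact ⟨hψ.smooth.smul contDiff_const, hψ.comp.smul_right⟩
      have hDg : ∀ x, D i g x = D i ψ x • e := by
        intro x
        rw [hgdef]
        unfold D
        have h9 : HasFDerivAt (fun x => ψ x • e) ((fderiv ℝ ψ x).smulRight e) x :=
          ((hψ.smooth.differentiable (by norm_num) x).hasFDerivAt).smul_const e
        rw [h9.fderiv]
        rfl
      have h1 := key g hg i
      have h2 : ip (ze Ω w) (D i g) = inner ℝ e (∫ x, D i ψ x • ze Ω w x) := by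
        rw [← integral_inner hI1]
        unfold ip
        apply integral_congr_ae
        filter_upwards with x
        rw [hDg x, inner_smul_right, inner_smul_right, real_inner_comm]
      have h3 : ip (ze Ω (G i)) g = inner ℝ e (∫ x, ψ x • ze Ω (G i) x) := by
        rw [← integral_inner hI2]
        unfold ip
        apply integral_congr_ae
        filter_upwards with x
        rw [hgdef]
        simp only
        rw [inner_smul_right, inner_smul_right, real_inner_comm]
      rw [inner_add_right, ← h2, ← h3]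
      exact h1
    have h4 := hz ((∫ x, D i ψ x • ze Ω w x) + ∫ x, ψ x • ze Ω (G i) x)
    rw [inner_self_eq_zero] at h4
    exact eq_neg_of_add_eq_zero_left h4
  · -- divergence
    have hdm : AEStronglyMeasurable (dv fun i => ze Ω (G i)) volume := by
      have h1 : dv (fun i => ze Ω (G i)) = fun x => ∑ i, (ze Ω (G i) x) i := rfl
      rw [h1]
      refine Finset.aestronglyMeasurable_fun_sum _ fun i _ => ?_
      exact (EuclideanSpace.proj (𝕜 := ℝ) i : E3 →L[ℝ] ℝ).continuous.comp_aestronglyMeasurable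
        (hV i).1
    have h1 : ∀ ε : ℝ≥0∞, 0 < ε → eLpNorm (dv fun i => ze Ω (G i)) 2 volume ≤ 3 * ε := by
      intro ε hε
      obtain ⟨φ, hφ, _, e2⟩ := happ ε hε
      have hcc := G1b_cc hφ
      have h2 : (dv fun i => ze Ω (G i)) = ∑ i : Fin 3, fun x => (ze Ω (G i) x - D i φ x) i := by
        funext x
        have h3 : ∑ i, (D i φ x) i = 0 := hφ.div x
        simp only [Finset.sum_apply, PiLp.sub_apply, Finset.sum_sub_distrib, h3, sub_zero]
        rfl
      rw [h2]
      refine (eLpNorm_sum_le (fun i _ => ?_) (by norm_num)).trans ?_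
      · exact (EuclideanSpace.proj (𝕜 := ℝ) i : E3 →L[ℝ] ℝ).continuous.comp_aestronglyMeasurable
          ((hV i).sub (cc_memLp (cc_D hcc i) 2)).1
      · have h4 : ∀ i : Fin 3, eLpNorm (fun x => (ze Ω (G i) x - D i φ x) i) 2 volume ≤ ε := by
          intro i
          have h5 : eLpNorm (fun x => (ze Ω (G i) x - D i φ x) i) 2 volume ≤
              eLpNorm (fun x => ze Ω (G i) x - D i φ x) 2 volume := by
            apply eLpNorm_mono
            intro x
            exact PiLp.norm_apply_le _ i
          refine h5.trans ?_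
          rw [G1b_ext hO (Ex_ae hO (G i)) (fun x hx => Ex_off hx)
            (fun x hx => G1b_off ((D_tsupport φ i).trans hφ.supp) hx)]
          exact (e2 i).le
        calc ∑ i : Fin 3, eLpNorm (fun x => (ze Ω (G i) x - D i φ x) i) 2 volume
            ≤ ∑ _i : Fin 3, ε := Finset.sum_le_sum fun i _ => h4 i
          _ = 3 * ε := by simp
    have h2 : eLpNorm (dv fun i => ze Ω (G i)) 2 volume = 0 := by
      by_contra hne
      have hpos : 0 < eLpNorm (dv fun i => ze Ω (G i)) 2 volume := pos_iff_ne_zero.2 hne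
      have hfin : eLpNorm (dv fun i => ze Ω (G i)) 2 volume ≠ ⊤ := by
        refine ne_top_of_le_ne_top ?_ (h1 1 one_pos)
        norm_num
      have h3 := h1 (eLpNorm (dv fun i => ze Ω (G i)) 2 volume / 6)
        (ENNReal.div_pos hpos.ne' (by norm_num))
      have h4 := ENNReal.toReal_mono (by finiteness) h3
      rw [ENNReal.toReal_mul, ENNReal.toReal_div] at h4
      have h5 : 0 < (eLpNorm (dv fun i => ze Ω (G i)) 2 volume).toReal :=
        ENNReal.toReal_pos hne hfin
      norm_num at h4
      linarith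
    exact (eLpNorm_eq_zero_iff hdm (by norm_num)).1 h2
  · -- gs
    unfold gs gradSq
    rw [← setIntegral_eq_integral_of_forall_compl_eq_zero (s := Ω)]
    · apply setIntegral_congr_fun hO.measurableSet
      intro x hx
      simp only [ze, indicator_of_mem hx]
    · intro x hx
      simp only [ze, indicator_of_notMem hx]
      simp
  · unfold Pool.Agent.Helper60.EC.sq
    rw [← setIntegral_eq_integral_of_forall_compl_eq_zero (s := Ω)]
    · apply setIntegral_congr_fun hO.measurableSet
      intro x hx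
      simp only [ze, indicator_of_mem hx]
    · intro x hx
      simp only [ze, indicator_of_notMem hx]
      simp

end Pool.Agent.Helper83.CR
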