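import Pool.Agent.Helper83.CR.St
import Pool.Agent.Helper60.EC.Calc1b

/-!
# Project CR, module Lc: weak limits stay in the class
-/

set_option autoImplicit false

open MeasureTheory Set Filter Topology
open scoped ENNReal ContDiff

noncomputable section

namespace Pool.Agent.Helper83.CR

open Pool.Agent.Helper52.NSE (E3 pd divg TestField MemH1s MemL2s IsWeakSolution gradSq kin
  IsSmoothBoundedDomain)
open Pool.Agent.Helper60.EC (D Cc curl grad cr ip sq nl adv sm gsq fn Hs cc_D cc_memLp)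

/-- a function of `x` alone is in `L²(mQ)` -/
theorem Lc_snd {g : E3 → ℝ} (hg : MemLp g 2 volume) :
    MemLp (fun q : ℝ × E3 => g q.2) 2 mQ := by
  have h := hg.comp_snd mI
  exact h

theorem Lc_prod {F : ℝ → E3 → E3} {g : E3 → ℝ} (hg : MemLp g 2 volume)
    (hF : MemLp (fun q : ℝ × E3 => F q.1 q.2) 2 mQ) :
    Integrable (fun q : ℝ × E3 => g q.2 • F q.1 q.2) mQ := by
  have h := hF.smul (Lc_snd hg) (r := 1)
  rw [memLp_one_iff_integrable] at h
  exact h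

/-- the test function with values `1_s(t) g(x) e` -/
def Lc_T (s : Set ℝ) (g : E3 → ℝ) (e : E3) : ℝ × E3 → E3 :=
  (s ×ˢ (univ : Set E3)).indicator fun q => g q.2 • e

theorem Lc_T_memLp {s : Set ℝ} (hs : MeasurableSet s) {g : E3 → ℝ} (hg : MemLp g 2 volume) (e : E3) :
    MemLp (Lc_T s g e) 2 mQ := by
  refine MemLp.indicator (hs.prod MeasurableSet.univ) ?_
  have h1 := Lc_snd hg
  have h := (ContinuousLinearMap.toSpanSingleton ℝ e).comp_memLp' h1
  exact h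

theorem Lc_pair {s : Set ℝ} (hs : MeasurableSet s) {F : ℝ → E3 → E3} {g : E3 → ℝ}
    (hg : MemLp g 2 volume) (hF : MemLp (fun q : ℝ × E3 => F q.1 q.2) 2 mQ) (e : E3) :
    ∫ q : ℝ × E3, (inner ℝ (F q.1 q.2) (Lc_T s g e q) : ℝ) ∂mQ =
      inner ℝ e (∫ t in s, (∫ x, g x • F t x) ∂mI) := by
  have h1 : ∀ q : ℝ × E3, (inner ℝ (F q.1 q.2) (Lc_T s g e q) : ℝ) =
      (s ×ˢ (univ : Set E3)).indicator (fun q : ℝ × E3 => (inner ℝ e (g q.2 • F q.1 q.2) : ℝ)) q := by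
    intro q
    unfold Lc_T
    by_cases hq : q ∈ s ×ˢ (univ : Set E3)
    · rw [indicator_of_mem hq, indicator_of_mem hq, real_inner_smul_right, real_inner_smul_right,
        real_inner_comm]
    · rw [indicator_of_notMem hq, indicator_of_notMem hq, inner_zero_right]
  rw [integral_congr_ae (Eventually.of_forall h1), integral_indicator (hs.prod MeasurableSet.univ)]
  have h2 := (Lc_prod hg hF).integrableOn (s := s ×ˢ (univ : Set E3))
  rw [integral_inner h2 e, setIntegral_prod _ h2]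
  simp only [Measure.restrict_univ]

theorem Lc_int {F : ℝ → E3 → E3} {g : E3 → ℝ}
    (hg : MemLp g 2 volume) (hF : MemLp (fun q : ℝ × E3 => F q.1 q.2) 2 mQ) :
    Integrable (fun t => ∫ x, g x • F t x) mI := (Lc_prod hg hF).integral_prod_left

/-- weak convergence of the averages -/
theorem Lc_lim {s : Set ℝ} (hs : MeasurableSet s) {F : ℕ → ℝ → E3 → E3} {F' : ℝ → E3 → E3}
    {g : E3 → ℝ} (hg : MemLp g 2 volume)
    (hF : ∀ k, MemLp (fun q : ℝ × E3 => F k q.1 q.2) 2 mQ)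
    (hF' : MemLp (fun q : ℝ × E3 => F' q.1 q.2) 2 mQ) (hw : Wk F F') (e : E3) :
    Tendsto (fun k => (inner ℝ e (∫ t in s, (∫ x, g x • F k t x) ∂mI) : ℝ)) atTop
      (𝓝 (inner ℝ e (∫ t in s, (∫ x, g x • F' t x) ∂mI))) := by
  have h := hw (Lc_T s g e) (Lc_T_memLp hs hg e)
  rw [Lc_pair hs hg hF' e] at h
  refine h.congr fun k => ?_
  rw [Lc_pair hs hg (hF k) e]

theorem Lc_weak {O : ℕ → Set E3} {u : ℕ → ℝ → E3 → E3} {A : ℕ → ℝ → Fin 3 → E3 → E3} {K c : ℝ}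
    {e : ℕ → ℝ} (hb : BUS O u A K c e) (h2 : StBb) {v : ℝ → E3 → E3} {A' : ℝ → Fin 3 → E3 → E3}
    (hv : MemLp (fun q : ℝ × E3 => v q.1 q.2) 2 mQ)
    (hA : ∀ i, MemLp (fun q : ℝ × E3 => A' q.1 i q.2) 2 mQ)
    (hw : Wk u v) (hwA : ∀ i, Wk (fun k s => A k s i) (fun s => A' s i)) {ψ : E3 → ℝ} (hψ : Cc ψ)
    (i : Fin 3) :
    ∀ᵐ t ∂mI, ∫ x, D i ψ x • v t x = -∫ x, ψ x • A' t i x := by
  obtain ⟨hu, hAk⟩ := h2 O u A K c e hb
  have hψ2 : MemLp ψ 2 volume := cc_memLp hψ 2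
  have hD2 : MemLp (D i ψ) 2 volume := cc_memLp (cc_D hψ i) 2
  have hi1 := Lc_int hD2 hv
  have hi2 := Lc_int (F := fun t => A' t i) hψ2 (hA i)
  have hB : Integrable (fun t => (∫ x, D i ψ x • v t x) + ∫ x, ψ x • A' t i x) mI := hi1.add hi2
  have key : ∀ s, MeasurableSet s → mI s < ⊤ →
      ∫ t in s, ((∫ x, D i ψ x • v t x) + ∫ x, ψ x • A' t i x) ∂mI = 0 := by
    intro s hs _
    rw [integral_add hi1.integrableOn hi2.integrableOn]
    refine ext_inner_left ℝ fun z => ?_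
    rw [inner_zero_right, inner_add_right]
    have l1 := Lc_lim hs hD2 (fun k => (hu k).1) hv hw z
    have l2 := Lc_lim (F := fun k s => A k s i) (F' := fun s => A' s i) hs hψ2
      (fun k => (hAk k i).1) (hA i) (hwA i) z
    have l3 := l1.add l2
    refine tendsto_nhds_unique l3 ?_
    refine tendsto_const_nhds.congr fun k => ?_
    rw [← inner_add_right, ← integral_add (Lc_int hD2 (hu k).1).integrableOn
      (Lc_int (F := fun s => A k s i) hψ2 (hAk k i).1).integrableOn]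
    have h0 : ∫ t in s, ((∫ x, D i ψ x • u k t x) + ∫ x, ψ x • A k t i x) ∂mI = 0 := by
      refine integral_eq_zero_of_ae ?_
      refine (ae_restrict_of_ae (hb.h1 k)).mono fun t ht => ?_
      have h6 := ht.weak ψ hψ i
      simp only [Pi.zero_apply]
      rw [h6, neg_add_cancel]
    rw [h0, inner_zero_right]
  have h := hB.ae_eq_zero_of_forall_setIntegral_eq_zero key
  refine h.mono fun t ht => ?_
  exact eq_neg_of_add_eq_zero_left ht

theorem Lc_div {O : ℕ → Set E3} {u : ℕ → ℝ → E3 → E3} {A : ℕ → ℝ → Fin 3 → E3 → E3} {K c : ℝ}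
    {e : ℕ → ℝ} (hb : BUS O u A K c e) (h2 : StBb) {A' : ℝ → Fin 3 → E3 → E3}
    (hA : ∀ i, MemLp (fun q : ℝ × E3 => A' q.1 i q.2) 2 mQ)
    (hwA : ∀ i, Wk (fun k s => A k s i) (fun s => A' s i)) :
    ∀ᵐ t ∂mI, dv (A' t) =ᵐ[volume] 0 := by
  obtain ⟨-, hAk⟩ := h2 O u A K c e hb
  have hdv : ∀ {B : ℝ → Fin 3 → E3 → E3}, (∀ i, MemLp (fun q : ℝ × E3 => B q.1 i q.2) 2 mQ) →
      MemLp (fun q : ℝ × E3 => dv (B q.1) q.2) 2 mQ := by
    intro B hB
    unfold dv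
    refine memLp_finsetSum _ fun i _ => ?_
    exact (EuclideanSpace.proj (𝕜 := ℝ) i : E3 →L[ℝ] ℝ).comp_memLp' (hB i)
  set χ : ℝ × E3 → ℝ := fun q => dv (A' q.1) q.2 with hχ
  have hχ2 : MemLp χ 2 mQ := hdv hA
  set Ψ : Fin 3 → ℝ × E3 → E3 := fun i q => χ q • EuclideanSpace.single i (1 : ℝ) with hΨ
  have hΨ2 : ∀ i, MemLp (Ψ i) 2 mQ := fun i =>
    (ContinuousLinearMap.toSpanSingleton ℝ (EuclideanSpace.single i (1 : ℝ))).comp_memLp' hχ2
  have hsum : ∀ {B : ℝ → Fin 3 → E3 → E3}, (∀ i, MemLp (fun q : ℝ × E3 => B q.1 i q.2) 2 mQ) →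
      ∑ i, ∫ q : ℝ × E3, (inner ℝ (B q.1 i q.2) (Ψ i q) : ℝ) ∂mQ =
        ∫ q : ℝ × E3, χ q * dv (B q.1) q.2 ∂mQ := by
    intro B hB
    have hpt : ∀ (i : Fin 3) (q : ℝ × E3), (inner ℝ (B q.1 i q.2) (Ψ i q) : ℝ) =
        χ q * (B q.1 i q.2) i := by
      intro i q
      simp only [hΨ]
      rw [real_inner_smul_right]
      congr 1
      rw [real_inner_comm, EuclideanSpace.inner_single_left]
      simp
    simp only [hpt]
    rw [← integral_finsetSum]
    · refine integral_congr_ae (Eventually.of_forall fun q => ?_)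
      simp only [dv, Finset.mul_sum]
    · intro i _
      exact hχ2.integrable_mul
        ((EuclideanSpace.proj (𝕜 := ℝ) i : E3 →L[ℝ] ℝ).comp_memLp' (hB i))
  have hk : ∀ k, ∫ q : ℝ × E3, χ q * dv (A k q.1) q.2 ∂mQ = 0 := by
    intro k
    have hi : Integrable (fun q : ℝ × E3 => χ q * dv (A k q.1) q.2) mQ :=
      hχ2.integrable_mul (hdv fun i => (hAk k i).1)
    rw [integral_prod _ hi]
    refine integral_eq_zero_of_ae ?_
    refine (hb.div k).mono fun t ht => ?_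
    refine integral_eq_zero_of_ae ?_
    refine ht.mono fun x hx => ?_
    simp only [Pi.zero_apply] at hx ⊢
    rw [hx, mul_zero]
  have hlim : Tendsto (fun k => ∑ i, ∫ q : ℝ × E3, (inner ℝ (A k q.1 i q.2) (Ψ i q) : ℝ) ∂mQ) atTop
      (𝓝 (∑ i, ∫ q : ℝ × E3, (inner ℝ (A' q.1 i q.2) (Ψ i q) : ℝ) ∂mQ)) :=
    tendsto_finsetSum _ fun i _ => hwA i (Ψ i) (hΨ2 i)
  have h0 : ∫ q : ℝ × E3, χ q * χ q ∂mQ = 0 := by
    have h3 : ∑ i, ∫ q : ℝ × E3, (inner ℝ (A' q.1 i q.2) (Ψ i q) : ℝ) ∂mQ = 0 := by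
      refine tendsto_nhds_unique hlim ?_
      refine tendsto_const_nhds.congr fun k => ?_
      rw [(hsum fun i => (hAk k i).1).trans (hk k)]
    rw [hsum hA] at h3
    exact h3
  have h4 : χ =ᵐ[mQ] 0 := by
    have h5 := (integral_eq_zero_iff_of_nonneg (fun q => mul_self_nonneg (χ q))
      (hχ2.integrable_mul hχ2)).1 h0
    refine h5.mono fun q hq => ?_
    simpa using hq
  exact Measure.ae_ae_of_ae_prod h4

theorem Lc_slice {F : ℝ → E3 → E3} (hm : Measurable fun q : ℝ × E3 => F q.1 q.2)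
    (hF : MemLp (fun q : ℝ × E3 => F q.1 q.2) 2 mQ) : ∀ᵐ t ∂mI, MemLp (F t) 2 volume := by
  have h1 : Integrable (fun q : ℝ × E3 => ‖F q.1 q.2‖ ^ 2) mQ := by
    have := hF.integrable_norm_pow (by norm_num)
    simpa using this
  refine h1.prod_right_ae.mono fun t ht => ?_
  have h2 : AEStronglyMeasurable (F t) volume := by
    have h3 : Measurable fun x : E3 => F t x := hm.comp measurable_prodMk_left
    exact h3.aestronglyMeasurable
  rw [memLp_two_iff_integrable_sq_norm h2]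
  exact ht

/-- **Lc**: weak limits stay in the class -/
theorem hLc (h1 : StCt) (h2 : StBb) : StLc := by
  intro O u A K c e hb v A' hvm hAm hv hA hw hwA
  obtain ⟨ψ, hψ, hct⟩ := h1
  have hv2 : ∀ᵐ t ∂mI, MemLp (v t) 2 volume := Lc_slice hvm hv
  have hA2 : ∀ᵐ t ∂mI, ∀ i, MemLp (A' t i) 2 volume := by
    rw [ae_all_iff]
    exact fun i => Lc_slice (F := fun t => A' t i) (hAm i) (hA i)
  refine ⟨hvm, hAm, ?_, Lc_div hb h2 hA hwA, hv, hA⟩
  have hweak : ∀ᵐ t ∂mI, ∀ n i, ∫ x, D i (ψ n) x • v t x = -∫ x, ψ n x • A' t i x := by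
    rw [ae_all_iff]
    intro n
    rw [ae_all_iff]
    intro i
    exact Lc_weak hb h2 hv hA hw hwA (hψ n) i
  filter_upwards [hv2, hA2, hweak] with t t1 t2 t3
  exact hct (v t) (A' t) t1 t2 t3

end Pool.Agent.Helper83.CR
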