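import Pool.Agent.Helper83.CR.St
import Pool.Agent.Helper60.EC.G1b

/-! # Project CR, module Tr -/

set_option autoImplicit false

open MeasureTheory Set Filter Topology
open scoped ENNReal ContDiff

noncomputable section

namespace Pool.Agent.Helper83.CR

open Pool.Agent.Helper52.NSE (E3 pd divg TestField)
open Pool.Agent.Helper60.EC (D Cc curl grad cr ip sq nl adv sm gsq fn Hs)
open Pool.Agent.Helper60.EC (sqrt_sq_add_le sqrt_sq_sub_le cc_memLp cc_D gsq_eq_sum G1b_tr
  sq_nonneg')

/-- `gs A = ∑ ‖A i‖²` -/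
theorem Tr_gs {A : Fin 3 → E3 → E3} (hA : ∀ i, MemLp (A i) 2 volume) :
    gs A = ∑ i, sq (A i) := by
  unfold gs Helper60.EC.sq
  exact integral_finsetSum _ fun i _ => (hA i).integrable_norm_pow (by norm_num)

/-- convergence in `L²` gives convergence of the norms -/
theorem Tr_norm {f : ℕ → E3 → E3} {g : E3 → E3} (hf : ∀ n, MemLp (f n) 2 volume)
    (hg : MemLp g 2 volume) (h : Tendsto (fun n => sq (fun x => f n x - g x)) atTop (𝓝 0)) :
    Tendsto (fun n => Real.sqrt (sq (f n))) atTop (𝓝 (Real.sqrt (sq g))) := by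
  have h0 : Tendsto (fun n => Real.sqrt (sq (fun x => f n x - g x))) atTop (𝓝 0) := by
    have := (Real.continuous_sqrt.tendsto 0).comp h
    rwa [Real.sqrt_zero] at this
  rw [tendsto_iff_dist_tendsto_zero]
  refine squeeze_zero (fun n => dist_nonneg) (fun n => ?_) h0
  rw [Real.dist_eq, abs_sub_le_iff]
  constructor
  · have h1 := sqrt_sq_add_le ((hf n).sub hg) hg
    have h2 : (fun x => (f n - g) x + g x) = f n := by
      funext x
      simp
    rw [h2] at h1
    have h3 : sq (f n - g) = sq (fun x => f n x - g x) := rfl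
    rw [h3] at h1
    linarith
  · have h1 := sqrt_sq_sub_le (hf n) ((hf n).sub hg)
    have h2 : (fun x => f n x - (f n - g) x) = g := by
      funext x
      simp
    rw [h2] at h1
    have h3 : sq (f n - g) = sq (fun x => f n x - g x) := rfl
    rw [h3] at h1
    linarith

theorem Tr_shift (f : E3 → E3) (z : E3) : sq (fun x => f (x + z)) = sq f := by
  unfold Helper60.EC.sq
  exact integral_add_right_eq_self (fun x => ‖f x‖ ^ 2) z

theorem hTr (h₁ : StApx) : StTr := by
  intro w A h z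
  obtain ⟨φ, hc, hw, hA⟩ := h₁ w A h
  have hm : ∀ n, MemLp (φ n) 2 volume := fun n => cc_memLp (hc n) 2
  have hmD : ∀ n i, MemLp (D i (φ n)) 2 volume := fun n i => cc_memLp (cc_D (hc n) i) 2
  -- the gradients
  have hg : Tendsto (fun n => gsq (φ n)) atTop (𝓝 (gs A)) := by
    rw [Tr_gs h.gl2]
    have e : (fun n => gsq (φ n)) = fun n => ∑ i, Real.sqrt (sq (D i (φ n))) ^ 2 := by
      funext n
      rw [gsq_eq_sum (hmD n)]
      exact Finset.sum_congr rfl fun i _ => (Real.sq_sqrt (sq_nonneg' _)).symm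
    have e' : ∑ i, sq (A i) = ∑ i, Real.sqrt (sq (A i)) ^ 2 :=
      Finset.sum_congr rfl fun i _ => (Real.sq_sqrt (sq_nonneg' _)).symm
    rw [e, e']
    exact tendsto_finsetSum _ fun i _ =>
      (Tr_norm (fun n => hmD n i) (h.gl2 i) (hA i)).pow 2
  have h0 : Tendsto (fun n => Real.sqrt (sq (fun x => φ n x - w x))) atTop (𝓝 0) := by
    have := (Real.continuous_sqrt.tendsto 0).comp hw
    rwa [Real.sqrt_zero] at this
  have hlim : Tendsto (fun n => 2 * Real.sqrt (sq (fun x => φ n x - w x)) +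
      ‖z‖ * Real.sqrt (gsq (φ n))) atTop (𝓝 (2 * 0 + ‖z‖ * Real.sqrt (gs A))) :=
    (h0.const_mul 2).add (((Real.continuous_sqrt.tendsto _).comp hg).const_mul ‖z‖)
  have hmz : ∀ {f : E3 → E3}, MemLp f 2 volume → MemLp (fun x => f (x + z)) 2 volume :=
    fun {f} hf => hf.comp_measurePreserving (measurePreserving_add_right volume z)
  have hle : ∀ n, Real.sqrt (sq (fun x => w (x + z) - w x)) ≤
      2 * Real.sqrt (sq (fun x => φ n x - w x)) + ‖z‖ * Real.sqrt (gsq (φ n)) := by
    intro n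
    have m1 : MemLp (fun x => φ n x - w x) 2 volume := (hm n).sub h.l2
    have m2 : MemLp (fun x => φ n (x + z) - w (x + z)) 2 volume := hmz m1
    have m3 : MemLp (fun x => φ n (x + z) - φ n x) 2 volume := (hmz (hm n)).sub (hm n)
    have a1 := sqrt_sq_sub_le m3 m2
    have a2 := sqrt_sq_add_le (m3.sub m2) m1
    have e1 : (fun x => ((fun x => φ n (x + z) - φ n x) - fun x => φ n (x + z) - w (x + z)) x +
        (φ n x - w x)) = fun x => w (x + z) - w x := by
      funext x
      simp only [Pi.sub_apply]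
      abel
    rw [e1] at a2
    have e2 : sq ((fun x => φ n (x + z) - φ n x) - fun x => φ n (x + z) - w (x + z)) =
        sq (fun x => φ n (x + z) - φ n x - (φ n (x + z) - w (x + z))) := rfl
    rw [e2] at a2
    have e3 : sq (fun x => φ n (x + z) - w (x + z)) = sq (fun x => φ n x - w x) :=
      Tr_shift (fun x => φ n x - w x) z
    rw [e3] at a1
    have a3 : Real.sqrt (sq (fun x => φ n (x + z) - φ n x)) ≤ ‖z‖ * Real.sqrt (gsq (φ n)) := by
      rw [← Real.sqrt_sq (norm_nonneg z), ← Real.sqrt_mul (by positivity)]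
      exact Real.sqrt_le_sqrt (G1b_tr (hc n) z)
    linarith
  have hfin := ge_of_tendsto' hlim hle
  rw [mul_zero, zero_add] at hfin
  have h1 : sq (fun x => w (x + z) - w x) = Real.sqrt (sq (fun x => w (x + z) - w x)) ^ 2 :=
    (Real.sq_sqrt (sq_nonneg' _)).symm
  have hgs : 0 ≤ gs A := by
    rw [Tr_gs h.gl2]
    exact Finset.sum_nonneg fun i _ => sq_nonneg' _
  rw [h1]
  calc Real.sqrt (sq (fun x => w (x + z) - w x)) ^ 2 ≤ (‖z‖ * Real.sqrt (gs A)) ^ 2 :=
        pow_le_pow_left₀ (Real.sqrt_nonneg _) hfin 2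
    _ = ‖z‖ ^ 2 * gs A := by rw [mul_pow, Real.sq_sqrt hgs]

end Pool.Agent.Helper83.CR
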