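import Pool.Agent.Helper83.CR.Defs

/-!
# Project CR (MP_a38b17_an): the statements of the modules, with their proofs in words

Every `StXyz` is a proposition; a module proves `theorem hXyz (h₁ : StA) (h₂ : StB) … : StXyz` in
the file `Pool/Agent/Helper83/CR/M_Xyz.lean`, namespace `Pool.Agent.Helper83.CR`.

Useful files (no sorries): `Helper60/EC/Calc1a, Calc1b, Calc1c, Calc2a, Calc2b, Calc3a, Calc3b`
(calculus of `D i`, `curl`, `grad`, `cr`, `sq`, `ip`, integration by parts, cutoffs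
`exists_cut`), `Helper60/EC/Mol` (mollification in `L²`), `Helper60/EC/Z5` (`Z5_dense`: `Cc` is
dense in `L²`), `Helper60/EC/G7a` (`G7a_kernel`: mollifiers as in `Mol`), `Helper60/EC/G1b`
(`G1b_tr`: translations of `Cc` fields), `Helper60/EC/G4a, G4b` (scaling, `G4b_ball`),
`Helper60/EC/G6` (`G6_pt`, `G6_nl_sub`), `Helper60/EC/G2c, G3a, G3b`, `Helper60/EC/G5`
(`domains`), `Helper7/NT` (`weak_ext`, `memH1s_sub`, `gp_le`, `sobolev`, `Ext_rhs_int`),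
`Helper52/NSE`.
-/

set_option autoImplicit false

open MeasureTheory Set Filter Topology
open scoped ENNReal ContDiff

noncomputable section

namespace Pool.Agent.Helper83.CR

open Pool.Agent.Helper52.NSE (E3 pd divg TestField MemH1s MemL2s IsWeakSolution gradSq kin
  IsSmoothBoundedDomain)
open Pool.Agent.Helper60.EC (D Cc curl grad cr ip sq nl adv sm gsq fn Hs)

/-! ## Part L: Euler flows in the energy class with final value zero vanish -/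

/-- **Apx** (about 150 lines). `H¹` pairs are limits of smooth compactly supported fields.
Proof. Let `ρ_n` be mollifiers (`Mol_exists`, `Mol_approx`, or `G7a_kernel` with `ε = 1/(n+1)`) and
`w_n = ρ_n * w`. It is smooth with `D i w_n = ρ_n * A i` (take `ψ = ρ_n (x - ·)` in the weak
formulation: `D i ψ (y) = -(D i ρ_n)(x - y)`, and `Mol_D`), so `w_n → w` and `D i w_n → A i` in `L²`.
Take `χ` from `exists_cut` (`χ = 1` on `B_{R/2}`, supported in `B_R`, `|D i χ| ≤ K / R`); then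
`D i (χ w_n) = (D i χ) w_n + χ D i w_n` tends to `D i w_n` in `L²` as `R → ∞` (dominated convergence
and `K / R → 0`), and `χ w_n → w_n`. Choose `R = R_n` so that the errors are `≤ 1/(n+1)`. -/
def StApx : Prop :=
  ∀ (w : E3 → E3) (A : Fin 3 → E3 → E3), H1 w A → ∃ φ : ℕ → E3 → E3, (∀ n, Cc (φ n)) ∧
    Tendsto (fun n => sq (fun x => φ n x - w x)) atTop (𝓝 0) ∧
      ∀ i, Tendsto (fun n => sq (fun x => D i (φ n) x - A i x)) atTop (𝓝 0)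

/-- **Tr** (60 lines, from `StApx`). Translations of `H¹` fields. Proof: `G1b_tr` for `φ n` of
`StApx` (`gsq (φ n) → gs A`), and pass to the limit. -/
def StTr : Prop :=
  ∀ (w : E3 → E3) (A : Fin 3 → E3 → E3), H1 w A → ∀ z : E3,
    sq (fun x => w (x + z) - w x) ≤ ‖z‖ ^ 2 * gs A

/-- **Strip** (120 lines, from `StApx`). An `H¹` field which vanishes on `d ≤ ⟨n, y⟩` is small near
the hyperplane. Proof. Let `S = {y | d - h < ⟨n, y⟩ < d}`. For a `Cc` field `φ` (as in `G1b_pt`,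
`G1b_tr`) `|φ (y + h n) - φ y|² ≤ h² ∫_0^1 ∑ |D i φ (y + σ h n)|² dσ`, so, integrating over `S`
(`S + σ h n ⊆ {d - h < ⟨n, y⟩}`), `∫_S |φ (y + h n) - φ y|² ≤ h² ∫_{d - h < ⟨n, y⟩} ∑ |D i φ|²`.
Take `φ = φ_k` of `StApx` and `k → ∞`. Since `w (y + h n) = 0` for almost all `y ∈ S` this is
`∫_S |w|² ≤ h² ∫_{d - h < ⟨n, y⟩} ∑ |A i|²`, and `w = 0` on `d ≤ ⟨n, y⟩`. -/
def StStrip : Prop :=
  ∀ (n : E3) (d : ℝ), ‖n‖ = 1 → ∀ (w : E3 → E3) (A : Fin 3 → E3 → E3), H1 w A →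
    (∀ᵐ y : E3, d ≤ inner ℝ n y → w y = 0 ∧ ∀ i, A i y = 0) → ∀ h : ℝ, 0 < h →
      ∫ y in {y : E3 | d - h < inner ℝ n y}, ‖w y‖ ^ 2 ≤
        h ^ 2 * ∫ y in {y : E3 | d - h < inner ℝ n y}, ∑ i, ‖A i y‖ ^ 2

/-- **Nl** (150 lines, from `StApx`). `∫ w ⊗ w : ∇C = -∫ (ω × w) · C` for divergence-free `w, C`.
Proof. For a `Cc` field `w` (not necessarily divergence-free), integration by parts (`ibp`) gives
`∫ ∑ w_i ⟨w, D i C⟩ = -∫ (divg w) ⟨w, C⟩ - ∫ ⟨adv w w, C⟩`, and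
`adv w w = cr (curl w) w + ½ ∇|w|²` (`adv_self`), `∫ ⟨∇|w|², C⟩ = 0` (`ip_grad_zero`). So
`nl C w = -∫ (divg w) ⟨w, C⟩ - ∫ ⟨cr (curl w) w, C⟩`. Apply this to `φ n` of `StApx` and let
`n → ∞`: `φ n → w`, `D i (φ n) → A i`, so `curl (φ n) → om A`, `divg (φ n) → dv A = 0` in `L²`,
and `C`, `D i C` are bounded (`G6_nl_sub` for the left-hand side). -/
def StNl : Prop :=
  ∀ (w : E3 → E3) (A : Fin 3 → E3 → E3), H1 w A → dv A =ᵐ[volume] 0 →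
    ∀ C : E3 → E3, TestField univ C → nl C w = -∫ x, (inner ℝ (cr (om A x) (w x)) (C x) : ℝ)

/-- **Zero** (100 lines, from `StApx`, `StTr`). Proof. For `Cc` fields
`gsq φ = sq (curl φ) + ∫ (divg φ)²` (`curl_curl`, `ip_curl`, `ip_grad`, `ip_lap`). For `φ n` of
`StApx` the right-hand side tends to `sq (om A) + ∫ (dv A)² = 0`, so `gs A = lim gsq (φ n) = 0`.
By `StTr` `w (x + z) = w x` for almost every `x`, for every `z`, and `w ∈ L²`, so `w = 0` (for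
example: `∫_{B_1(z)} |w|²` does not depend on `z`, and infinitely many disjoint balls; or Sobolev's
inequality as in `Helper7/NT/Sob.lean`, `‖φ n‖_6 ≤ C ‖∇ φ n‖_2 → 0`). -/
def StZero : Prop :=
  ∀ (w : E3 → E3) (A : Fin 3 → E3 → E3), H1 w A → om A =ᵐ[volume] 0 → dv A =ᵐ[volume] 0 →
    w =ᵐ[volume] 0

/-- **MoA** (80 lines). Mollification is smooth; derivatives. Proof: `mo k f = Mol_M k f` (change of
variables `y ↦ x - y`), `Mol_smooth`, `Mol_D`; the bound is the Cauchy-Schwarz inequality; the last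
claim is the weak formulation with `ψ = k (x - ·)`, `D i ψ (y) = -(D i k) (x - y)`. -/
def StMoA : Prop :=
  ∀ k : E3 → ℝ, Cc k → (∀ f : E3 → E3, MemLp f 2 volume → ContDiff ℝ ∞ (mo k f) ∧
    (∀ i x, D i (mo k f) x = mo (D i k) f x) ∧
    ∀ x, ‖mo k f x‖ ≤ Real.sqrt (sq k) * Real.sqrt (sq f)) ∧
    ∀ (w : E3 → E3) (A : Fin 3 → E3 → E3), H1 w A → ∀ i x, D i (mo k w) x = mo k (A i) x

/-- **MoB** (120 lines). Continuity of translations in `L²`, and mollification in `L²`. Proof. The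
first claim: true for `Cc` fields (uniform continuity and compact supports), and they are dense
(`Z5_dense`); `sqrt (sq ·)` is a seminorm, invariant under translations. The others: Jensen
(`Mol_l2`), and `|mo k f x - f x|² ≤ ∫ k z |f (x - z) - f x|² dz`, `k z = 0` for `ε ≤ ‖z‖`. -/
def StMoB : Prop :=
  ∀ f : E3 → E3, MemLp f 2 volume →
    Tendsto (fun z : E3 => sq (fun x => f (x - z) - f x)) (𝓝 0) (𝓝 0) ∧
    ∀ (C ε : ℝ) (k : E3 → ℝ), Mol C ε k → MemLp (mo k f) 2 volume ∧ sq (mo k f) ≤ sq f ∧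
      ∀ S : ℝ, (∀ z : E3, ‖z‖ < ε → sq (fun x => f (x - z) - f x) ≤ S) →
        sq (fun x => mo k f x - f x) ≤ S

/-- **Cu** (120 lines). Weak curl and divergence. Proof. All claims are combinations of the
coordinates of the weak formulation of `H1`. (1) `ψ = k (x - ·)`: `∇k(x - y) × w(y)` integrates to
`∫ k (x - y) ω(y) dy`. (2) `∫ ⟨∇ψ, ω⟩ = 0` for `ψ ∈ Cc`: `∫ ∑ (D i ψ) ω_i` is a sum of terms
`∫ (D i ψ) (A j)_l = -∫ (D j (D i ψ)) w_l`, which cancel since second derivatives commute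
(`D_comm`). (3) `∫ ⟨∇ψ, w⟩ = -∫ ψ dv A = 0`. (4) coordinates of `φ` as `ψ`. -/
def StCu : Prop :=
  ∀ (w : E3 → E3) (A : Fin 3 → E3 → E3), H1 w A →
    (∀ φ : E3 → E3, Cc φ → ip w (curl φ) = ip (om A) φ) ∧
    ∀ k : E3 → ℝ, Cc k → ∀ x : E3,
      (∫ y, cr (grad k (x - y)) (w y)) = mo k (om A) x ∧
      (∫ y, (inner ℝ (grad k (x - y)) (om A y) : ℝ)) = 0 ∧
      (dv A =ᵐ[volume] 0 → ∫ y, (inner ℝ (grad k (x - y)) (w y) : ℝ) = 0)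

/-- **CmtI** (120 lines, from `StMoA`, `StCu`). The commutator identity
`curl ((ω × w) * k) = V · ∇W - W · ∇V + N`, where `V = w * k`, `W = ω * k`. Proof. Expand
`N(x) = ∫ ∇k(x-y) × ((ω(y) - W(x)) × (w(y) - V(x))) dy` into four terms, using
`a × (b × c) = ⟨a, c⟩ b - ⟨a, b⟩ c`: `I₁ = ∫ ∇k × (ω × w) = qf k A w x`;
`I₂ = ∫ ∇k × (ω(y) × V) = ∫ ⟨∇k, V⟩ ω(y) - ⟨∇k, ω(y)⟩ V = ∑ V_i D i W(x) - 0`
(`D i W x = ∫ D i k (x - y) ω(y) dy`, and `∫ ⟨∇k(x - y), ω(y)⟩ dy = 0`);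
`I₃ = ∫ ∇k × (W × w(y)) = ∫ ⟨∇k, w(y)⟩ W - ⟨∇k, W⟩ w(y) = 0 - ∑ W_i D i V(x)`;
`I₄ = ∫ ∇k × (W × V) = 0` since `∫ ∇k = 0` (`integral_D_eq_zero`). `N = I₁ - I₂ - I₃ + I₄`. All
integrands are integrable (`∇k(x - ·)` is bounded with compact support, `ω, w ∈ L²`). -/
def StCmtI : Prop :=
  ∀ k : E3 → ℝ, Cc k → ∀ (w : E3 → E3) (A : Fin 3 → E3 → E3), H1 w A → dv A =ᵐ[volume] 0 →
    ∀ x, qf k A w x = adv (mo k w) (mo k (om A)) x - adv (mo k (om A)) (mo k w) x +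
      cmt k (om A) w x

/-- **CmtB** (150 lines, from `StTr`, `StMoB`). The commutator is bounded in `L¹`. Proof. `|cmt (x)| ≤
∫ |∇k(z)| |ω(x-z) - W(x)| |w(x-z) - V(x)| dz` (`norm_cr_le`), so by Tonelli and Cauchy-Schwarz
`∫ |cmt| ≤ ∫ |∇k(z)| ‖ω(·-z) - W‖₂ ‖w(·-z) - V‖₂ dz`; `∇k(z) = 0` for `ε < ‖z‖` (and `‖z‖ = ε` is a
null set); for `‖z‖ < ε`: `‖ω(·-z) - W‖₂ ≤ ‖ω(·-z) - ω‖₂ + ‖ω - W‖₂ ≤ 2 S` (`StMoB`),
`‖w(·-z) - V‖₂ ≤ 2 ε √(gs A)` (`StTr`, `StMoB`), and `∫ |∇k| ≤ ∑ ∫ |D i k| ≤ 3 C / ε`. -/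
def StCmtB : Prop :=
  ∀ (C ε : ℝ) (k : E3 → ℝ), 0 < ε → Mol C ε k → ∀ (w : E3 → E3) (A : Fin 3 → E3 → E3), H1 w A →
    ∀ S : ℝ, 0 ≤ S → (∀ z : E3, ‖z‖ < ε → sq (fun x => om A (x - z) - om A x) ≤ S ^ 2) →
      Integrable (cmt k (om A) w) volume ∧
        ∫ x, ‖cmt k (om A) w x‖ ≤ 12 * C * S * Real.sqrt (gs A)

/-- **Bt** (120 lines). Calculus of `bt κ y = ½ log (1 + |y|²/κ²)`, `gb κ y = y / (κ² + |y|²)`.
Proof. `|y| / (κ² + |y|²) ≤ 1/(2κ)` (AM-GM) and the mean value inequality give the Lipschitz bound.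
The derivative of `gb` is bounded by `1/(κ²+r²) + 2r²/(κ²+r²)² ≤ 3/κ²` (or estimate directly). For
`κ ≤ 1/3`: `1 + r²/κ² ≤ (1 + r²)/κ² ≤ (1 + r)²/κ²`, so `bt ≤ log (1 + r) + log (1/κ) ≤
r + log (1/κ) ≤ log (1/κ) (1 + r)` since `log (1/κ) ≥ log 3 ≥ 1`. Limit: for `y ≠ 0`,
`κ = 1/(n+3)`: `bt / log (n+3) = log (1 + |y|²(n+3)²) / (2 log (n+3))`, between
`(log |y|² + 2 log (n+3)) / (2 log (n+3))` and the same with `|y|² + 1`. -/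
def StBt : Prop :=
  (∀ κ : ℝ, 0 < κ → (∀ y, 0 ≤ bt κ y) ∧ (∀ y, bt κ y ≤ ‖y‖ / (2 * κ)) ∧
    (∀ y y', |bt κ y - bt κ y'| ≤ ‖y - y'‖ / (2 * κ)) ∧
    (∀ y, ‖gb κ y‖ ≤ 1 / (2 * κ)) ∧ (∀ y, ‖gb κ y‖ * ‖y‖ ≤ 1) ∧
    (∀ y y', ‖gb κ y - gb κ y'‖ ≤ 3 / κ ^ 2 * ‖y - y'‖) ∧
    (∀ y, HasFDerivAt (bt κ) (innerSL ℝ (gb κ y)) y) ∧
    (κ ≤ 1 / 3 → ∀ y, bt κ y ≤ Real.log (1 / κ) * (1 + ‖y‖))) ∧
  ∀ y, Tendsto (fun n : ℕ => bt (1 / ((n : ℝ) + 3)) y / Real.log ((n : ℝ) + 3)) atTop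
    (𝓝 (iz y))

/-- **Chain** (100 lines, from `StBt`). The chain rule for the absolutely continuous function
`W(s) = ∫_s^0 q`. Proof. If `q` is continuous on `ℝ`, `W' = -q` and this is the fundamental theorem
of calculus. In general take continuous `q_n → q` in `L¹(-1, 0)` (with compact support:
`Integrable.exists_hasCompactSupport_integral_sub_le` or `MemLp` density for the function extended
by zero); `W_n → W` uniformly on `[-1, 0]`, `bt` is Lipschitz, `gb` is bounded and Lipschitz, so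
both sides converge. -/
def StChain : Prop :=
  ∀ κ : ℝ, 0 < κ → ∀ q : ℝ → E3, IntegrableOn q (Ioo (-1) 0) → ∀ s ∈ Ioo (-1 : ℝ) 0,
    bt κ (∫ τ in s..0, q τ) = ∫ τ in s..0, (inner ℝ (gb κ (∫ σ in τ..0, q σ)) (q τ) : ℝ)

/-- **Sl** (200 lines, from `StMoA`, `StMoB`, `StCu`, `StCmtI`, `StCmtB`, `StBt`). The inequality at
one time. With `V = mo k w`, `W = mo k (om A)`, `N = cmt k (om A) w`. Proof. By `StCmtI`
`⟨gb(W), qf⟩ = ⟨gb(W), V·∇W⟩ - ⟨gb(W), W·∇V⟩ + ⟨gb(W), N⟩`. First term: `⟨gb(W), V·∇W⟩ =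
⟨V, ∇(bt∘W)⟩` (chain rule with `StBt`), `div V = 0` (`StCu`(3), `D i V = ∫ D i k(x - ·) w`), so
`∫ φ ⟨V, ∇(bt∘W)⟩ = -∫ ⟨V, ∇φ⟩ bt(W) ≤ ∫ |V| |∇φ| bt(W)`. Second: `|gb(W)| |W| ≤ 1` and
`|∑ a_i D i V| ≤ |a| √(∑ |D i V|²)`, `D i V = mo k (A i)`. Third: `|gb(W)| ≤ 1/(2κ)`. The
integrability: `φ`, `∇φ` have compact supports, `V, W, mo k (A i), qf` are continuous (`qf` is
smooth, as `qf = V·∇W - …` or as a convolution), `N` is integrable by `StCmtB` with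
`S = 2 √(sq (om A))`. -/
def StSl : Prop :=
  ∀ (C ε : ℝ) (k : E3 → ℝ), 0 < ε → Mol C ε k → ∀ (w : E3 → E3) (A : Fin 3 → E3 → E3), H1 w A →
    dv A =ᵐ[volume] 0 → ∀ κ : ℝ, 0 < κ → ∀ φ : E3 → ℝ, Cc φ → (∀ x, 0 ≤ φ x) →
      Integrable (fun x => φ x * (inner ℝ (gb κ (mo k (om A) x)) (qf k A w x) : ℝ)) volume ∧
      Integrable (rh k κ φ A w) volume ∧
      ∫ x, φ x * (inner ℝ (gb κ (mo k (om A) x)) (qf k A w x) : ℝ) ≤ ∫ x, rh k κ φ A w x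

/-- **Qf** (100 lines). Bounds for `qf`. Proof: `|qf| ≤ ∫ |∇k(x-y)| |ω(y)| |w(y)| dy ≤
M ‖ω‖₂ ‖w‖₂` and `‖ω‖₂² ≤ 2 gs A`; continuity in `x`: `ω × w ∈ L¹`, `∇k` is continuous and bounded
(dominated convergence). Measurability in `(t, x)`: `StronglyMeasurable.integral_prod_right`
(Mathlib) for the jointly measurable integrands. -/
def StQf : Prop :=
  ∀ k : E3 → ℝ, Cc k → (∃ M : ℝ, 0 ≤ M ∧ ∀ (w : E3 → E3) (A : Fin 3 → E3 → E3), H1 w A →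
    Continuous (qf k A w) ∧ ∀ x, ‖qf k A w x‖ ≤ M * (Real.sqrt (gs A) * Real.sqrt (sq w))) ∧
    ∀ (v : ℝ → E3 → E3) (A : ℝ → Fin 3 → E3 → E3),
      (Measurable fun q : ℝ × E3 => v q.1 q.2) → (∀ i, Measurable fun q : ℝ × E3 => A q.1 i q.2) →
        (Measurable fun q : ℝ × E3 => mo k (v q.1) q.2) ∧
        (∀ i, Measurable fun q : ℝ × E3 => mo k (A q.1 i) q.2) ∧
        (Measurable fun q : ℝ × E3 => mo k (om (A q.1)) q.2) ∧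
        (Measurable fun q : ℝ × E3 => qf k (A q.1) (v q.1) q.2) ∧
        Measurable fun q : ℝ × E3 => cmt k (om (A q.1)) (v q.1) q.2

/-- **Fu** (80 lines). Fubini for the class. -/
def StFu : Prop :=
  ∀ (v : ℝ → E3 → E3) (A : ℝ → Fin 3 → E3 → E3), Cls v A →
    Integrable (fun t => sq (v t)) mI ∧ Integrable (fun t => gs (A t)) mI ∧
    (∫ t in Ioo (-1 : ℝ) 0, sq (v t)) = (∫ q : ℝ × E3, ‖v q.1 q.2‖ ^ 2 ∂mQ) ∧
    (∫ t in Ioo (-1 : ℝ) 0, gs (A t)) = ∫ q : ℝ × E3, (∑ i, ‖A q.1 i q.2‖ ^ 2) ∂mQ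

/-- **Dbr** (100 lines). Du Bois-Reymond with a free final value. Proof. `B(s) = ∫_s^0 q`; by Fubini
`∫_{-1}^0 θ' B = ∫_{-1}^0 q θ` (`θ(-1) = 0`), so `∫_{-1}^0 θ' (b - B) = 0` for all `θ` with `Tc θ`.
Given `ψ ∈ C_c^∞(-1, 0)` take `θ(s) = λ(s) ∫_{-1}^s ψ` with a smooth cutoff `λ = 1` for `s ≤ 0`,
`λ = 0` for `s ≥ 1/2` (`Real.smoothTransition`); then `Tc θ` and `θ' = ψ` on `(-1, 0)`. So
`∫_{-1}^0 ψ (b - B) = 0` for all `ψ ∈ C_c^∞(-1, 0)` and `b = B` almost everywhere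
(`IsOpen.ae_eq_zero_of_integral_contDiff_smul_eq_zero`). -/
def StDbr : Prop :=
  ∀ b q : ℝ → ℝ, IntegrableOn b (Ioo (-1) 0) → IntegrableOn q (Ioo (-1) 0) →
    (∀ θ : ℝ → ℝ, Tc θ → ∫ t in Ioo (-1 : ℝ) 0, (deriv θ t * b t - θ t * q t) = 0) →
      ∀ᵐ s ∂mI, b s = ∫ τ in s..0, q τ

/-- **Rep** (180 lines, from `StNl`, `StMoA`, `StCu`, `StQf`, `StFu`, `StDbr`). The mollified
vorticity equation, integrated in time. Proof. Fix `x` and a coordinate `j`, and test with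
`φ = k (x - ·) e_j ∈ Cc`. `curl φ (y) = -∇k(x-y) × e_j`, so by `StCu` `ip (v t) (curl φ) =
(mo k (om (A t)) x)_j =: b(t)`, and by `StNl` (`curl φ` is a test field on `univ`) `nl (curl φ) (v t) =
-∫ ⟨ω × v, curl φ⟩ = -(qf k (A t) (v t) x)_j =: -q(t)` (`⟨a, b × c⟩ = ⟨a × b, c⟩`), for almost every
`t`. The equation is the hypothesis of `StDbr` (`b`, `q` are integrable by `StMoA`, `StQf`, `StFu`).
So for every `x` and almost every `s` the identity holds. Take a countable dense set of `x`: for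
almost every `s` it holds for all these `x`, and both sides are continuous in `x` (`StMoA`; dominated
convergence with the bound of `StQf`). -/
def StRep : Prop :=
  ∀ (v : ℝ → E3 → E3) (A : ℝ → Fin 3 → E3 → E3), EF v A → ∀ k : E3 → ℝ, Cc k →
    (∀ x, IntegrableOn (fun τ => qf k (A τ) (v τ) x) (Ioo (-1) 0)) ∧
      ∀ᵐ s ∂mI, ∀ x, mo k (om (A s)) x = ∫ τ in s..0, qf k (A τ) (v τ) x

/-- **Ineq** (200 lines, from `StRep`, `StChain`, `StSl`, `StQf`, `StFu`, `StCmtB`, `StBt`). The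
renormalised inequality with a fixed mollifier. Proof. Let `q(τ, x) = qf k (A τ) (v τ) x`,
`W(τ, x) = mo k (om (A τ)) x`. For almost every `s`, for all `x`: `W(s, x) = ∫_s^0 q(·, x)`, so by
`StChain` `bt κ (W(s, x)) = ∫_s^0 ⟨gb κ (∫_τ^0 q(·, x)), q(τ, x)⟩ dτ = ∫_s^0 ⟨gb κ (W(τ, x)), q⟩ dτ`
(by `StRep` again, for almost every `τ`). Multiply by `φ`, integrate in `x` and use Fubini
(`|φ gb q| ≤ |φ| M √(gs A) √(sq v) / (2κ)`): `∫ φ bt κ (W(s)) = ∫_s^0 ∫ φ ⟨gb κ (W), q⟩ dx dτ ≤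
∫_s^0 ∫ rh dx dτ ≤ ∫_{-1}^0 ∫ rh dx dτ` by `StSl` and `rh ≥ 0`. Integrability of `rh` on `mQ`:
measurable (`StQf`), and for almost every `t` `∫ rh dx ≤ C (sq v + gs A)` with `C` depending on `k`,
`κ`, `φ` (`StMoA` and `StMoB` bounds, `StBt`, `StCmtB` with `S = 2 √(sq (om A)) ≤ 3 √(gs A)`). -/
def StIneq : Prop :=
  ∀ (v : ℝ → E3 → E3) (A : ℝ → Fin 3 → E3 → E3), EF v A → ∀ (C ε : ℝ) (k : E3 → ℝ), 0 < ε →
    Mol C ε k → ∀ κ : ℝ, 0 < κ → ∀ φ : E3 → ℝ, Cc φ → (∀ x, 0 ≤ φ x) →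
      Integrable (fun q : ℝ × E3 => rh k κ φ (A q.1) (v q.1) q.2) mQ ∧
      ∀ᵐ s ∂mI, ∫ x, φ x * bt κ (mo k (om (A s)) x) ≤
        ∫ q : ℝ × E3, rh k κ φ (A q.1) (v q.1) q.2 ∂mQ

/-- **Eps** (200 lines, from `StIneq`, `StMoB`, `StCmtB`, `StBt`, `StFu`, `StQf`). The mollifier is
removed. Proof. `Mol C ε_n k_n` with `ε_n = 1/(n+1)` and fixed `C` (`G7a_kernel`). For almost every
`s` the inequalities of `StIneq` hold for all `n`. Left-hand side: `|∫ φ (bt(W_n) - bt(ω))| ≤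
‖φ‖₂ ‖W_n(s) - ω(s)‖₂ / (2κ) → 0` (`StMoB`). Right-hand side: in `L²(mQ)` `V_n → v`,
`mo k_n (A i) → A i`, `W_n → ω` (for almost every `t` in `L²(ℝ³)`, dominated by `4 sq (v t)` etc.),
so `bt κ (W_n) → bt κ (ω)` in `L²(mQ)`, and `φ`, `∇φ` are bounded with compact supports; the
commutator term: `∫ φ |N_n| dx ≤ sup φ · 12 C S_n(t) √(gs (A t))` with
`S_n(t)² = sup_{|z| < ε_n} sq (ω(t)(·-z) - ω(t)) ≤ 4 sq (ω(t))`, which tends to `0` for almost every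
`t` and is dominated by `C' gs (A t)`. So `∫ rh → ∫ rl`. -/
def StEps : Prop :=
  ∀ (v : ℝ → E3 → E3) (A : ℝ → Fin 3 → E3 → E3), EF v A → ∀ κ : ℝ, 0 < κ →
    ∀ φ : E3 → ℝ, Cc φ → (∀ x, 0 ≤ φ x) →
      Integrable (fun q : ℝ × E3 => rl κ φ (A q.1) (v q.1) q.2) mQ ∧
      ∀ᵐ s ∂mI, ∫ x, φ x * bt κ (om (A s) x) ≤ ∫ q : ℝ × E3, rl κ φ (A q.1) (v q.1) q.2 ∂mQ

/-- **Kap** (130 lines, from `StEps`, `StBt`, `StFu`). `κ → 0`. Proof. Take `κ = 1/(n+3)`, divide by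
`log (n+3) = log (1/κ) ≥ 1` and let `n → ∞` with dominated convergence: `bt κ (ω) / log (1/κ) → iz ω`
and is bounded by `1 + |ω|` (`StBt`); the left-hand side is dominated by `φ (1 + |ω(s)|)`, the first
term on the right by `|v| |∇φ| (1 + |ω|)`, integrable on `mQ`; and
`∫ φ √(∑ |A i|²) / log (n+3) → 0`. -/
def StKap : Prop :=
  ∀ (v : ℝ → E3 → E3) (A : ℝ → Fin 3 → E3 → E3), EF v A → ∀ φ : E3 → ℝ, Cc φ →
    (∀ x, 0 ≤ φ x) → ∀ᵐ s ∂mI, ∫ x, φ x * iz (om (A s) x) ≤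
      ∫ q : ℝ × E3, ‖v q.1 q.2‖ * ‖grad φ q.2‖ * iz (om (A q.1) q.2) ∂mQ

/-- **Iter** (150 lines). Proof. `g(R) = ∫_{(-1,0) × B_R} iz(ω)` is finite (`≤ |B_R| ≤ C₀ R³`) and
nondecreasing. With `φ` from `exists_cut` (`Cut 0 (2R) K φ`, `φ = 1` on `B_R`), `|∇φ| ≤ C₁ / R`,
supported in `B_{2R}`, integrating the hypothesis over `s ∈ (-1, 0)`:
`g(R) ≤ ∫ |v| |∇φ| iz(ω) ≤ (C₁/R) ‖v‖_{L²(mQ)} g(2R)^{1/2}`. So `g(R) ≤ C R^{1/2}`, then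
`g(R) ≤ C R^{-3/4}`; as `g` is nondecreasing and `R^{-3/4} → 0`, `g = 0`. -/
def StIter : Prop :=
  ∀ (v : ℝ → E3 → E3) (A : ℝ → Fin 3 → E3 → E3), Cls v A →
    (∀ φ : E3 → ℝ, Cc φ → (∀ x, 0 ≤ φ x) → ∀ᵐ s ∂mI, ∫ x, φ x * iz (om (A s) x) ≤
      ∫ q : ℝ × E3, ‖v q.1 q.2‖ * ‖grad φ q.2‖ * iz (om (A q.1) q.2) ∂mQ) →
    ∀ᵐ s ∂mI, om (A s) =ᵐ[volume] 0

/-- **LV** (20 lines, from `StKap`, `StIter`, `StZero`). -/
def StLV : Prop :=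
  ∀ (v : ℝ → E3 → E3) (A : ℝ → Fin 3 → E3 → E3), EF v A → ∀ᵐ t ∂mI, v t =ᵐ[volume] 0

/-! ## Part C: compactness -/

/-- **Wc** (120 lines). Weak sequential compactness of balls of the separable Hilbert space
`L²(mQ)`. Proof. `Lp E3 2 mQ` is separable (second countable) and a Hilbert space; take the
functions `f_k(Ψ) = ⟨F_k, Ψ⟩` on the closed unit ball (equicontinuous, bounded) and
`Cpt.exists_subseq` (`Helper60/EC/Cpt.lean`, for example with values `(⟨F_k, Ψ⟩) • e₀`), or Mathlib's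
sequential Banach-Alaoglu theorem; the limit is a bounded linear functional, represented by the Riesz
theorem (`InnerProductSpace.toDual`). Take the strongly measurable representative
(`Lp.stronglyMeasurable`), which is Borel measurable on `ℝ × E3`. -/
def StWc : Prop :=
  ∀ (F : ℕ → ℝ → E3 → E3) (K : ℝ), (∀ k, MemLp (fun q : ℝ × E3 => F k q.1 q.2) 2 mQ) →
    (∀ k, ∫ q : ℝ × E3, ‖F k q.1 q.2‖ ^ 2 ∂mQ ≤ K) →
    ∃ ρ : ℕ → ℕ, StrictMono ρ ∧ ∃ F' : ℝ → E3 → E3,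
      (Measurable fun q : ℝ × E3 => F' q.1 q.2) ∧ MemLp (fun q : ℝ × E3 => F' q.1 q.2) 2 mQ ∧
        Wk (fun k => F (ρ k)) F'

/-- **Bb** (80 lines). Elementary consequences of `BUS`: bounds in `L²(mQ)`. Proof: Fubini. -/
def StBb : Prop :=
  ∀ (O : ℕ → Set E3) (u : ℕ → ℝ → E3 → E3) (A : ℕ → ℝ → Fin 3 → E3 → E3) (K c : ℝ)
    (e : ℕ → ℝ), BUS O u A K c e →
      (∀ k, MemLp (fun q : ℝ × E3 => u k q.1 q.2) 2 mQ ∧
        ∫ q : ℝ × E3, ‖u k q.1 q.2‖ ^ 2 ∂mQ ≤ K) ∧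
      ∀ k i, MemLp (fun q : ℝ × E3 => A k q.1 i q.2) 2 mQ ∧
        ∫ q : ℝ × E3, ‖A k q.1 i q.2‖ ^ 2 ∂mQ ≤ K

/-- **Av** (200 lines, from `StTr`, `StMoB`). The averages
`M_h u (s, x) = h⁻¹ ∫_s^{s+h} (k * u(t))(x) dt` approximate `u_k` uniformly in `k`. Here `Mol C h κ`.
Proof. For almost every `s ∈ (-1, -h)` (using `‖a + b‖² ≤ 2 ‖a‖² + 2 ‖b‖²`, and Jensen in `t`)
`sq (M_h u(s) - u(s)) ≤ 2 h⁻¹ ∫_s^{s+h} sq (κ * (u(t) - u(s))) dt + 2 sq (κ * u(s) - u(s))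
≤ 2 h⁻¹ ∫_s^{s+h} sq (u(t) - u(s)) dt + 2 h² gs (A s)` (`StMoB`, `StTr`), and
`sq (u(t) - u(s)) ≤ K (1 + g(s) + g(t)) (e k + h^{1/4})`, `g = √gs`. Integrate over `s ∈ (-1, -h)`:
`∫ g ≤ √K`, `∫_{-1}^{-h} h⁻¹ ∫_s^{s+h} g(t) dt ds ≤ ∫ g ≤ √K`. -/
def StAv : Prop :=
  ∀ (O : ℕ → Set E3) (u : ℕ → ℝ → E3 → E3) (A : ℕ → ℝ → Fin 3 → E3 → E3) (K c : ℝ)
    (e : ℕ → ℝ), BUS O u A K c e → 0 ≤ K → ∀ (C h : ℝ) (κ : E3 → ℝ), 0 < h → h < 1 →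
      Mol C h κ → ∀ k, ∫ q in (Ioo (-1 : ℝ) (-h)) ×ˢ (univ : Set E3),
        ‖(h⁻¹ • ∫ t in q.1..(q.1 + h), mo κ (u k t) q.2) - u k q.1 q.2‖ ^ 2 ∂mQ ≤
          2 * K * (1 + 2 * Real.sqrt K) * (e k + h ^ (1 / 4 : ℝ)) + 2 * h ^ 2 * K

/-- **Sc** (250 lines, from `StBb`, `StAv`). Strong local compactness. Proof. Fix `R` and `h ∈ (0, 1)`,
`κ = κ_h` with `Mol C h κ` (`G7a_kernel`). For every `(s, x)` with `s ∈ (-1, -h)` the value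
`M_h u_k (s, x) = ∫ ⟨…⟩` is a pairing (in each coordinate) of `u_k` with the function
`(t, y) ↦ h⁻¹ 1_{s<t<s+h} κ(x - y) e_j ∈ L²(mQ)`, so it converges to `M_h v (s, x)`, and it is bounded
by a constant `C_h` uniformly in `k, s, x`. By dominated convergence
`∫_{(-1,-h) × B_R} |M_h u_k - M_h v|² → 0`. The function `v` satisfies the same bound as in `StAv`
with `e k` replaced by `0`, by lower semicontinuity: for fixed `h`, `u_k - M_h u_k` converges weakly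
to `v - M_h v` on `(-1,-h) × B_R` (or: the `u_k` are a Cauchy sequence in `L²((-1,-h) × B_R)` since
`‖u_k - u_l‖ ≤ ‖u_k - M_h u_k‖ + ‖M_h u_k - M_h u_l‖ + ‖M_h u_l - u_l‖`; together with
`∫_{(-h,0) × B_R} |u_k|² ≤ h K` this makes `u_k` a Cauchy sequence in `L²((-1,0) × B_R)`, and its
strong limit is the weak limit `v`; this second way avoids the estimate for `v`). -/
def StSc : Prop :=
  ∀ (O : ℕ → Set E3) (u : ℕ → ℝ → E3 → E3) (A : ℕ → ℝ → Fin 3 → E3 → E3) (K c : ℝ)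
    (e : ℕ → ℝ), BUS O u A K c e → 0 ≤ K → ∀ v : ℝ → E3 → E3,
      MemLp (fun q : ℝ × E3 => v q.1 q.2) 2 mQ → Wk u v → Sg u v

/-- **Ct** (100 lines). A countable family of test functions suffices for weak derivatives. Proof.
The set `S = {(ψ, D 0 ψ, D 1 ψ, D 2 ψ) | Cc ψ}` in `L²(ℝ³)⁴` (scalar) is a subset of a separable
metric space, hence has a countable dense subset; take its `ψ`'s (repeated, as a sequence). If `ψ_n →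
ψ` and `D i ψ_n → D i ψ` in `L²` then both sides of the weak formulation converge. -/
def StCt : Prop :=
  ∃ ψ : ℕ → E3 → ℝ, (∀ n, Cc (ψ n)) ∧ ∀ (w : E3 → E3) (A : Fin 3 → E3 → E3), MemLp w 2 volume →
    (∀ i, MemLp (A i) 2 volume) →
      (∀ n i, ∫ x, D i (ψ n) x • w x = -∫ x, ψ n x • A i x) → H1 w A

/-- **Lc** (200 lines, from `StCt`, `StBb`). Weak limits stay in the class. Proof. For `ψ ∈ Cc`,
`i`, a coordinate `j` and a bounded measurable `θ` the function `Ψ(t, x) = θ(t) D i ψ(x) e_j` is in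
`L²(mQ)`, so `∫ θ(t) (∫ D i ψ v_j + ψ (A' i)_j dx) dt = lim (the same with u_k, A_k) = 0` (Fubini and
`H1` for almost every time). As `θ` is arbitrary, for almost every `t` the bracket vanishes; do this
for the countable family of `StCt`. Divergence: `Ψ = χ e_i` with scalar `χ ∈ L²(mQ)`, summed over `i`:
`∫ χ dv A' = lim ∫ χ dv A_k = 0`, so `dv A' = 0` almost everywhere on `mQ`. -/
def StLc : Prop :=
  ∀ (O : ℕ → Set E3) (u : ℕ → ℝ → E3 → E3) (A : ℕ → ℝ → Fin 3 → E3 → E3) (K c : ℝ)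
    (e : ℕ → ℝ), BUS O u A K c e → ∀ (v : ℝ → E3 → E3) (A' : ℝ → Fin 3 → E3 → E3),
      (Measurable fun q : ℝ × E3 => v q.1 q.2) → (∀ i, Measurable fun q : ℝ × E3 => A' q.1 i q.2) →
      MemLp (fun q : ℝ × E3 => v q.1 q.2) 2 mQ →
      (∀ i, MemLp (fun q : ℝ × E3 => A' q.1 i q.2) 2 mQ) →
      Wk u v → (∀ i, Wk (fun k s => A k s i) (fun s => A' s i)) → Cls v A'

/-- **Le** (200 lines, from `StBb`). The limit equation. Proof. Fix `θ`, `φ` with support in `B_R`,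
`|φ|, |D i φ| ≤ M`. `|ip (u_k s) φ - ip (v s) φ| ≤ ∫_{B_R} |u_k - v| M` and (`G6_pt`)
`|nl φ (u_k s) - nl φ (v s)| ≤ 3 M ∫_{B_R} |u_k - v| (|u_k| + |v|)` for almost every `s`; integrate in
`s` (Fubini, Cauchy-Schwarz on `(-1,0) × B_R`, `StBb`): the difference of the integrals tends to `0`
by `Sg u v`, and the integrals for `u_k` tend to `0` by `BUS.eqn`. -/
def StLe : Prop :=
  ∀ (O : ℕ → Set E3) (u : ℕ → ℝ → E3 → E3) (A : ℕ → ℝ → Fin 3 → E3 → E3) (K c : ℝ)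
    (e : ℕ → ℝ), BUS O u A K c e → ∀ v : ℝ → E3 → E3,
      (Measurable fun q : ℝ × E3 => v q.1 q.2) → MemLp (fun q : ℝ × E3 => v q.1 q.2) 2 mQ →
      Sg u v → ∀ U : Set E3, (∀ φ, TestField U φ → ∀ᶠ k in atTop, TestField (O k) φ) → EqU U v

/-- **Of** (150 lines, from `StBb`). The limit vanishes outside the limit domain. Proof. For every
`R`, a subsequence of `u_k` converges to `v` almost everywhere on `(-1,0) × B_R`, and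
`u_k (s, y) = 0` for large `k` if `d < ⟨n, y⟩`; so `v = 0` almost everywhere on `d < ⟨n, y⟩`, and the
hyperplane `⟨n, y⟩ = d` is a null set. For almost every `t` (`H1 (v t) (A' t)`): if `ψ ∈ Cc` has
support in the open set `d < ⟨n, y⟩` then `∫ ψ A' i = -∫ D i ψ v = 0`, so `A' i = 0` almost everywhere
there (`IsOpen.ae_eq_zero_of_integral_contDiff_smul_eq_zero`). -/
def StOf : Prop :=
  ∀ (O : ℕ → Set E3) (u : ℕ → ℝ → E3 → E3) (A : ℕ → ℝ → Fin 3 → E3 → E3) (K c : ℝ)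
    (e : ℕ → ℝ), BUS O u A K c e → ∀ (v : ℝ → E3 → E3) (A' : ℝ → Fin 3 → E3 → E3), Cls v A' →
      Sg u v → ∀ (n : E3) (d : ℝ), ‖n‖ = 1 →
        (∀ y, d < inner ℝ n y → ∀ᶠ k in atTop, y ∉ O k) →
          ∀ᵐ t ∂mI, ∀ᵐ y : E3, d ≤ inner ℝ n y → v t y = 0 ∧ ∀ i, A' t i y = 0

/-- **Ha** (250 lines, from `StStrip`, `StNl`, `StCu`, `StFu`). No boundary term in the half-space.
Proof. Let `φ ∈ Cc`, `θ` with `Tc θ`, and `ζ_h (y) = λ((d - ⟨n, y⟩)/h - 1)` with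
`λ = Real.smoothTransition`: smooth, `0 ≤ ζ_h ≤ 1`, `ζ_h = 0` if `⟨n, y⟩ ≥ d - h`, `ζ_h = 1` if
`⟨n, y⟩ ≤ d - 2h`, `|∇ζ_h| ≤ S/h`. Then `C_h = curl (ζ_h φ)` is a test field in `Hs n d`, so the
equation holds for it. (1) `ip (v t) C_h = ip (om (A t)) (ζ_h φ) → ip (om (A t)) φ = ip (v t) (curl φ)`
for almost every `t`, dominated by `√(2 gs (A t)) √(sq φ)`: `om (A t) = 0` on `⟨n, y⟩ ≥ d`, dominated
convergence. (2) `nl C_h (v t) = -∫ ⟨ω × v, C_h⟩` and `C_h = ∇ζ_h × φ + ζ_h curl φ` (`curl_sm`). The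
second part tends to `-∫ ⟨ω × v, curl φ⟩ = nl (curl φ) (v t)`. The first part is bounded by
`(S/h) sup|φ| ∫_{d-2h < ⟨n, y⟩} |ω| |v| ≤ (S/h) sup|φ| · √2 (∫_{d-2h<⟨n,y⟩} ∑|A i|²)^{1/2} · 2h
(∫_{d-2h<⟨n,y⟩} ∑|A i|²)^{1/2}` by `StStrip`, which tends to `0` (`A = 0` on `⟨n, y⟩ ≥ d`) and is
dominated by `C gs (A t)`. Dominated convergence in `t` gives the equation for `curl φ`. -/
def StHa : Prop :=
  ∀ (n : E3) (d : ℝ), ‖n‖ = 1 → ∀ (v : ℝ → E3 → E3) (A : ℝ → Fin 3 → E3 → E3), Cls v A →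
    (∀ᵐ t ∂mI, ∀ᵐ y : E3, d ≤ inner ℝ n y → v t y = 0 ∧ ∀ i, A t i y = 0) →
      EqU (Hs n d) v → EqC v

/-- **Fin** (200 lines, from `StLV`, `StWc`, `StBb`, `StSc`, `StLc`, `StLe`, `StOf`, `StHa`).
Proof. Take the subsequence and the alternative of `EC.domains`; `BUS` passes to subsequences. By
`StWc` (four times) a further subsequence converges weakly, `u_k ⇀ v`, `A_k i ⇀ A' i`; `Cls v A'`
(`StLc`), `Sg u v` (`StSc`). Whole space: a test field `φ` on `univ` is one on `O k` for large `k`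
(`K = tsupport φ` compact), so `EqU univ v` (`StLe`) and `EqC v` (`curl φ` is a test field). Half
space: `EqU (Hs n d) v`, `StOf`, `StHa` give `EqC v`. So `EF v A'` and `v = 0` (`StLV`). But `Sg u v`
with `R = 2` and the mass bound give `c ≤ ∫_{(-1,0) × B_2} |v|² = 0`. -/
def StFin : Prop :=
  ∀ Ω : Set E3, IsSmoothBoundedDomain Ω → ∀ (x : ℕ → E3) (r : ℕ → ℝ), (∀ j, x j ∈ Ω) →
    (∀ j, 0 < r j) → Tendsto r atTop (𝓝 0) → ∀ (u : ℕ → ℝ → E3 → E3)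
      (A : ℕ → ℝ → Fin 3 → E3 → E3) (K c : ℝ) (e : ℕ → ℝ), 0 ≤ K → 0 < c →
        BUS (fun j => {y | x j + r j • y ∈ Ω}) u A K c e → False

/-! ## Part N: from a loss of energy to the sequence of flows -/

/-- **Lady** (100 lines, from `StApx`). Ladyzhenskaya's inequality. Proof. Sobolev
(`sob_test isOpen_univ`, or Mathlib's Gagliardo-Nirenberg-Sobolev inequality, for `Cc` fields; the
proof of `sob_test` does not use the divergence): `‖φ‖_6 ≤ C √(gsq φ)`; by `StApx` and Fatou (a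
subsequence of `φ n` converges a.e.) `‖w‖_6 ≤ C √(gs A)`. Hölder:
`∫ |w|⁴ ≤ (∫ |w|²)^{1/2} (∫ |w|⁶)^{1/2}`. -/
def StLady : Prop :=
  ∃ C : ℝ, 0 < C ∧ ∀ (w : E3 → E3) (A : Fin 3 → E3 → E3), H1 w A →
    Integrable (fun x => ‖w x‖ ^ 4) volume ∧
      q4 w ≤ C * (sq w) ^ (1 / 4 : ℝ) * (gs A) ^ (3 / 4 : ℝ)

/-- **Lions** (200 lines, from `StApx`, `StLady`). Proof. Let `χ ∈ C_c^∞(B_1)`, `0 ≤ χ ≤ 1`, `∫ χ⁴ =
m > 0` (`exists_cut`). For a `Cc` field `φ` and `χ_y = χ(· - y)`, Tonelli gives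
`m ∫ |φ|⁴ = ∫ ∫ |χ_y φ|⁴ dx dy`. By `StLady` for `χ_y φ ∈ Cc` (`H1` with its classical gradient)
`∫ |χ_y φ|⁴ ≤ C² (∫ |χ_y φ|²)^{1/2} (gsq (χ_y φ))^{3/2} ≤ C² λ_φ^{1/2} (gsq (χ_y φ))^{1/2}
gsq (χ_y φ)`, `λ_φ = sup_y ∫_{B_1(y)} |φ|²`, `gsq (χ_y φ) ≤ C' ∫_{B_1(y)} (|φ|² + |∇φ|²) ≤
C' (sq φ + gsq φ)` and `∫ gsq (χ_y φ) dy ≤ C'' (sq φ + gsq φ)`. So
`∫ |φ|⁴ ≤ C λ_φ^{1/2} (sq φ + gsq φ)^{3/2}`. Apply it to `φ n` of `StApx`
(`√(∫_{B_1(y)} |φ n|²) ≤ √λ + √(sq (φ n - w))`) and let `n → ∞` (Fatou on the left). -/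
def StLions : Prop :=
  ∃ C : ℝ, 0 < C ∧ ∀ (w : E3 → E3) (A : Fin 3 → E3 → E3) (lam : ℝ), H1 w A →
    (∀ y, ∫ x in Metric.ball y 1, ‖w x‖ ^ 2 ≤ lam) →
      q4 w ≤ C * lam ^ (1 / 4 : ℝ) * (sq w + gs A) ^ (3 / 4 : ℝ)

/-- **Ex** (120 lines). Extension by zero. Proof. `ze Ω w` is the `L²(ℝ³)` limit of the test fields
`φ n` (which vanish outside `Ω`), and `ze Ω (G i)` of `pd (φ n) i` (`G1b_ext`, `G1b_memLp`), so the weak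
formulation follows from integration by parts (`ibp`) and the divergence of the limit is the limit of
`divg (φ n) = 0`. The rest: `setIntegral`s of indicators. -/
def StEx : Prop :=
  ∀ Ω : Set E3, IsOpen Ω → ∀ (w : E3 → E3) (G : Fin 3 → E3 → E3), MemH1s Ω w G →
    H1 (ze Ω w) (fun i => ze Ω (G i)) ∧ dv (fun i => ze Ω (G i)) =ᵐ[volume] 0 ∧
      gs (fun i => ze Ω (G i)) = gradSq Ω G ∧ sq (ze Ω w) = ∫ x in Ω, ‖w x‖ ^ 2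

/-- **Q4** (100 lines, from `StLady`, `StEx`). Proof. `τ ↦ ∫ |u τ|⁴` is measurable
(`AEStronglyMeasurable.integral_prod_right'` for the jointly measurable `u`); for almost every `τ`
`q4 ≤ C (sq)^{1/4} (gradSq)^{3/4} ≤ C' (1 + gradSq Ω (G τ))`. -/
def StQ4 : Prop :=
  ∀ (Ω : Set E3) (ν T : ℝ) (u₀ : E3 → E3) (f u : ℝ → E3 → E3) (G : ℝ → Fin 3 → E3 → E3),
    IsOpen Ω → Bornology.IsBounded Ω → IsWeakSolution Ω ν T u₀ f u G →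
      IntegrableOn (fun τ => q4 (ze Ω (u τ))) (Icc 0 T)

/-- **Wt** (150 lines, from `StQ4`, `StLady`, `StEx`). Time differences, and the drop of the energy.
Proof. (1) Test with `a = u t - u s` (`weak_ext`, `memH1s_sub`): `∫_Ω |u t - u s|² =
∫_s^t rhsE(τ; a)`, and `|rhsE| ≤ ν √(gradSq (G τ)) √(gradSq a) + |Bf Ω (u τ) ∇a (u τ)| +
fn Ω f τ ‖a‖` with `√(gradSq a) ≤ √(gradSq (G s)) + √(gradSq (G t))`, `‖a‖ ≤ 2 √K`,
`|Bf Ω v A v| ≤ q4 (ze Ω v) √(gradSq A)` since pointwise `|∑ v_i ⟨v, A_i⟩| ≤ |v|² √(∑ |A_i|²)`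
(Cauchy-Schwarz; `u τ ∈ L⁴` for almost every `τ` by `StLady`). (2) Test with `a = u s`; `G3b_kin`. -/
def StWt : Prop :=
  ∀ (Ω : Set E3) (ν T : ℝ) (u₀ : E3 → E3) (f u : ℝ → E3 → E3) (G : ℝ → Fin 3 → E3 → E3),
    IsOpen Ω → Bornology.IsBounded Ω → 0 < ν → IsWeakSolution Ω ν T u₀ f u G → ∀ K : ℝ,
      (∀ t ∈ Icc 0 T, ∫ x in Ω, ‖u t x‖ ^ 2 ≤ K) → ∀ s t : ℝ, 0 ≤ s → s < t → t ≤ T →
        MemH1s Ω (u s) (G s) →
        (kin Ω (u s) - kin Ω (u t) ≤ Real.sqrt (gradSq Ω (G s)) *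
          (ν * (∫ τ in s..t, Real.sqrt (gradSq Ω (G τ))) + ∫ τ in s..t, q4 (ze Ω (u τ))) +
            Real.sqrt K * ∫ τ in s..t, fn Ω f τ) ∧
        (MemH1s Ω (u t) (G t) → ∫ x in Ω, ‖u t x - u s x‖ ^ 2 ≤
          (Real.sqrt (gradSq Ω (G s)) + Real.sqrt (gradSq Ω (G t))) *
            (ν * (∫ τ in s..t, Real.sqrt (gradSq Ω (G τ))) + ∫ τ in s..t, q4 (ze Ω (u τ))) +
              2 * Real.sqrt K * ∫ τ in s..t, fn Ω f τ)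

/-- **FrA** (250 lines, from `StEx`). The rescaled solution: measurability, `H¹`, bounds. Proof. The
map `(s, y) ↦ (t₀ + r^{5/2} s, x₀ + r y)` is a homeomorphism with constant Jacobian, so it pulls back
null sets to null sets; `(-1, 0)` goes to `(t₀ - r^{5/2}, t₀) ⊆ [0, T]`. Scaling of `H1`: if `H1 w A`
then `H1 (a • w(x₀ + r ·)) (a r • A i (x₀ + r ·))` (change of variables in the weak formulation),
`r^{3/2} r = r^{5/2}`. `sq (sv s) = r³ r⁻³ sq (ze Ω (u _))`, `gs (sA s) = r⁵ r⁻³ gradSq Ω (G _)`, and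
`ds = r^{-5/2} dτ`. (`EC.G4a`: `G4a_cov`, `G4a_rpow1`, … .) -/
def StFrA : Prop :=
  ∀ (Ω : Set E3) (ν T : ℝ) (u₀ : E3 → E3) (f u : ℝ → E3 → E3) (G : ℝ → Fin 3 → E3 → E3),
    IsOpen Ω → Bornology.IsBounded Ω → IsWeakSolution Ω ν T u₀ f u G → ∀ K : ℝ,
      (∀ t ∈ Icc 0 T, ∫ x in Ω, ‖u t x‖ ^ 2 ≤ K) → ∀ t₀ ∈ Ioc 0 T, ∀ r : ℝ, 0 < r →
        r ^ (5 / 2 : ℝ) ≤ t₀ → ∀ x₀ : E3,
        AEStronglyMeasurable (fun q : ℝ × E3 => sv Ω u t₀ r x₀ q.1 q.2) mQ ∧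
        (∀ i, AEStronglyMeasurable (fun q : ℝ × E3 => sA Ω G t₀ r x₀ q.1 i q.2) mQ) ∧
        (∀ᵐ s ∂mI, H1 (sv Ω u t₀ r x₀ s) (sA Ω G t₀ r x₀ s) ∧
          dv (sA Ω G t₀ r x₀ s) =ᵐ[volume] 0) ∧
        (∀ s ∈ Icc (-1 : ℝ) 0, MemLp (sv Ω u t₀ r x₀ s) 2 volume ∧
          sq (sv Ω u t₀ r x₀ s) ≤ K) ∧
        (∀ s, gs (sA Ω G t₀ r x₀ s) = r ^ 2 * gradSq Ω (G (t₀ + r ^ (5 / 2 : ℝ) * s))) ∧
        (∀ s, q4 (sv Ω u t₀ r x₀ s) =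
          r ^ (3 / 2 : ℝ) * q4 (ze Ω (u (t₀ + r ^ (5 / 2 : ℝ) * s)))) ∧
        Integrable (fun s => gs (sA Ω G t₀ r x₀ s)) mI ∧
        ∫ s in Ioo (-1 : ℝ) 0, gs (sA Ω G t₀ r x₀ s) =
          r ^ (-(1 / 2) : ℝ) * ∫ τ in (t₀ - r ^ (5 / 2 : ℝ))..t₀, gradSq Ω (G τ)

/-- **FrB** (200 lines, from `StWt`, `StFrA`, `StQ4`, `StEx`). The time estimate and the drop of the
energy for the rescaled solution. Proof. Apply `StWt` at `s' = t₀ + r^{5/2} s`, `t' = t₀ + r^{5/2} t`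
(almost all `s` are such that `MemH1s Ω (u s') (G s')`). `√(gradSq (G s')) = r⁻¹ √(gs (sA s))`,
`∫_{s'}^{t'} √(gradSq (G τ')) dτ' = r^{5/2} r⁻¹ ∫_s^t √(gs (sA τ)) dτ`,
`∫_{s'}^{t'} q4 (ze Ω (u τ')) dτ' = r^{5/2} r^{-3/2} ∫_s^t q4 (sv τ) dτ`, so the product is
`√(gs (sA s)) (ν r^{1/2} ∫ √gs + ∫ q4)`; `∫_{s'}^{t'} fn ≤ ∫_{t₀ - r^{5/2}}^{t₀} fn`. The left-hand
side: `sq (sv t - sv s) = ∫_Ω |u t' - u s'|²`. For the drop take `t = 0`. -/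
def StFrB : Prop :=
  ∀ (Ω : Set E3) (ν T : ℝ) (u₀ : E3 → E3) (f u : ℝ → E3 → E3) (G : ℝ → Fin 3 → E3 → E3),
    IsOpen Ω → Bornology.IsBounded Ω → 0 < ν → IsWeakSolution Ω ν T u₀ f u G → ∀ K : ℝ,
      (∀ t ∈ Icc 0 T, ∫ x in Ω, ‖u t x‖ ^ 2 ≤ K) → ∀ t₀ ∈ Ioc 0 T, ∀ r : ℝ, 0 < r →
        r ^ (5 / 2 : ℝ) ≤ t₀ → ∀ x₀ : E3,
        (∀ᵐ s ∂mI, kin Ω (u (t₀ + r ^ (5 / 2 : ℝ) * s)) - kin Ω (u t₀) ≤
          Real.sqrt (gs (sA Ω G t₀ r x₀ s)) *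
            (ν * r ^ (1 / 2 : ℝ) * (∫ τ in s..0, Real.sqrt (gs (sA Ω G t₀ r x₀ τ))) +
              ∫ τ in s..0, q4 (sv Ω u t₀ r x₀ τ)) +
          Real.sqrt K * ∫ τ in (t₀ - r ^ (5 / 2 : ℝ))..t₀, fn Ω f τ) ∧
        ∀ᵐ s ∂mI, ∀ᵐ t ∂mI, s < t →
          sq (fun y => sv Ω u t₀ r x₀ t y - sv Ω u t₀ r x₀ s y) ≤
            (Real.sqrt (gs (sA Ω G t₀ r x₀ s)) + Real.sqrt (gs (sA Ω G t₀ r x₀ t))) *
              (ν * r ^ (1 / 2 : ℝ) * (∫ τ in s..t, Real.sqrt (gs (sA Ω G t₀ r x₀ τ))) +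
                ∫ τ in s..t, q4 (sv Ω u t₀ r x₀ τ)) +
            2 * Real.sqrt K * ∫ τ in (t₀ - r ^ (5 / 2 : ℝ))..t₀, fn Ω f τ

/-- **FrC** (250 lines, from `StFrA`). The equation for the rescaled solution, tested with `θ φ`,
`TestField O φ`. Proof. `Φ(x) = φ((x - x₀)/r)` is a test field in `Ω` (`EC.G4a_D`, `G4a_smooth`,
`G4a_comp`, `G4a_tsupport`). With `b(s) = ip (sv s) φ = r^{-3/2} ∫_Ω u(t₀ + r^{5/2} s) · Φ`,
`IsWeakSolution.eqn` and the substitution `τ' = t₀ + r^{5/2} τ` give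
`b(0) - b(s) = ∫_s^0 R(τ) dτ`, `R(τ) = -ν r^{1/2} ∫ ∑ ⟨sA τ i, D i φ⟩ + nl φ (sv τ) +
r^{5/2 - 3/2} ∫_Ω f · Φ`, for `s ∈ (-1, 0)` (compare `EC.G4b`, `G2c_split`, `G2c_force`). Multiply by
`θ'(s)` and integrate over `(-1, 0)`, Fubini, `θ(-1) = 0`:
`∫ θ' b = θ(0) b(0) - ∫ θ R`. Hence the left-hand side is `|∫ θ (R - nl φ (sv τ)) dτ| ≤
M (ν r^{1/2} √(gsq φ) ∫ √(gs (sA τ)) dτ + √(sq φ) ∫_{t₀ - r^{5/2}}^{t₀} fn)`:
`|∫_Ω f(τ') · Φ| ≤ fn Ω f τ' · r^{3/2} √(sq φ)` and `r · r^{3/2} dτ = dτ'`;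
`∫ √gs ≤ √(∫ gs)` on `(-1, 0)`. -/
def StFrC : Prop :=
  ∀ (Ω : Set E3) (ν T : ℝ) (u₀ : E3 → E3) (f u : ℝ → E3 → E3) (G : ℝ → Fin 3 → E3 → E3),
    IsOpen Ω → Bornology.IsBounded Ω → 0 < ν → IsWeakSolution Ω ν T u₀ f u G →
      ∀ t₀ ∈ Ioc 0 T, ∀ r : ℝ, 0 < r → r ^ (5 / 2 : ℝ) ≤ t₀ → ∀ x₀ : E3,
        ∀ θ : ℝ → ℝ, Tc θ → ∀ M : ℝ, (∀ s, |θ s| ≤ M) →
          ∀ φ, TestField {y | x₀ + r • y ∈ Ω} φ →
          |(∫ s in Ioo (-1 : ℝ) 0, (deriv θ s * ip (sv Ω u t₀ r x₀ s) φ +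
              θ s * nl φ (sv Ω u t₀ r x₀ s))) - θ 0 * ip (sv Ω u t₀ r x₀ 0) φ| ≤
            M * (ν * r ^ (1 / 2 : ℝ) * Real.sqrt (gsq φ) *
              Real.sqrt (∫ s in Ioo (-1 : ℝ) 0, gs (sA Ω G t₀ r x₀ s)) +
              Real.sqrt (sq φ) * ∫ τ in (t₀ - r ^ (5 / 2 : ℝ))..t₀, fn Ω f τ)

/-- **Fr** (40 lines, from `StFrA`, `StFrB`, `StFrC`). -/
def StFr : Prop :=
  ∀ (Ω : Set E3) (ν T : ℝ) (u₀ : E3 → E3) (f u : ℝ → E3 → E3) (G : ℝ → Fin 3 → E3 → E3),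
    IsOpen Ω → Bornology.IsBounded Ω → 0 < ν → IsWeakSolution Ω ν T u₀ f u G → ∀ K : ℝ,
      (∀ t ∈ Icc 0 T, ∫ x in Ω, ‖u t x‖ ^ 2 ≤ K) → ∀ t₀ ∈ Ioc 0 T, ∀ r : ℝ, 0 < r →
        r ^ (5 / 2 : ℝ) ≤ t₀ → ∀ x₀ : E3,
        Fr {y | x₀ + r • y ∈ Ω} K (ν * r ^ (1 / 2 : ℝ))
          (∫ τ in (t₀ - r ^ (5 / 2 : ℝ))..t₀, fn Ω f τ) (sv Ω u t₀ r x₀) (sA Ω G t₀ r x₀)

/-- **FrT** (100 lines, from `StLady`). The time estimate in its final form. Proof. For almost every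
`τ`, `q4 (v τ) ≤ C K^{1/4} (gs (B τ))^{3/4}`, and Hölder: `∫_s^t (gs)^{3/4} ≤ (t - s)^{1/4}
(∫ gs)^{3/4}`; `∫_s^t √gs ≤ √M`. So the right-hand side of `Fr.time` is at most
`(g_s + g_t) (n √M + C K^{1/4} M^{3/4} (t - s)^{1/4}) + 2 √K F`, `g = √gs`. -/
def StFrT : Prop :=
  ∃ C : ℝ, 0 < C ∧ ∀ (O : Set E3) (K n F : ℝ) (v : ℝ → E3 → E3) (B : ℝ → Fin 3 → E3 → E3)
    (M : ℝ), Fr O K n F v B → 0 ≤ K → 0 ≤ n → 0 ≤ F → 0 ≤ M →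
      ∫ s in Ioo (-1 : ℝ) 0, gs (B s) ≤ M →
      ∀ᵐ s ∂mI, ∀ᵐ t ∂mI, s < t → sq (fun y => v t y - v s y) ≤
        (1 + C * K ^ (1 / 4 : ℝ) * M ^ (3 / 4 : ℝ)) *
          (1 + Real.sqrt (gs (B s)) + Real.sqrt (gs (B t))) *
          (n * Real.sqrt M + 2 * Real.sqrt K * F + (t - s) ^ (1 / 4 : ℝ))

/-- **Cen** (250 lines, from `StLions`). The centre of the concentration. Proof. Suppose that
`∫_{-1}^0 ∫_{B_1(y)} |u|² < δ` for all `y`. Let `h ∈ (0, 1/2)`, `g = √(gs (A ·))`. For almost every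
`s ∈ (-1, -h)` and every `y`, averaging `∫_{B_1(y)} |u s|² ≤ 2 ∫_{B_1(y)} |u t|² + 2 sq (u t - u s)`
over `t ∈ (s, s+h)`: `∫_{B_1(y)} |u s|² ≤ 2 δ / h + 2 K (h^{1/4} + e) (1 + g(s) + h⁻¹ ∫_s^{s+h} g) =:
Λ(s)`; for `s ∈ (-h, 0)` put `Λ(s) = K`. `Λ` is integrable with `∫_{-1}^0 Λ ≤ 2 δ / h +
2 K (h^{1/4} + e) (1 + 2 √K) + K h`. By `StLions` and Hölder `c ≤ ∫ q4 (u s) ds ≤
C ∫ Λ^{1/4} (K + gs)^{3/4} ≤ C (∫ Λ)^{1/4} (2K)^{3/4}`. Choose `h` so small that the `h`-terms are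
less than a quarter of the bound this gives for `∫ Λ`, then `e₀` and `δ`: contradiction. -/
def StCen : Prop :=
  ∀ K c : ℝ, 0 < K → 0 < c → ∃ e₀ δ : ℝ, 0 < e₀ ∧ 0 < δ ∧
    ∀ (u : ℝ → E3 → E3) (A : ℝ → Fin 3 → E3 → E3) (e : ℝ), 0 ≤ e → e ≤ e₀ →
      AEStronglyMeasurable (fun q : ℝ × E3 => u q.1 q.2) mQ → (∀ᵐ s ∂mI, H1 (u s) (A s)) →
      (∀ᵐ s ∂mI, sq (u s) ≤ K) → Integrable (fun s => gs (A s)) mI →
      ∫ s in Ioo (-1 : ℝ) 0, gs (A s) ≤ K →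
      (∀ᵐ s ∂mI, ∀ᵐ t ∂mI, s < t → sq (fun y => u t y - u s y) ≤
        K * (1 + Real.sqrt (gs (A s)) + Real.sqrt (gs (A t))) * (e + (t - s) ^ (1 / 4 : ℝ))) →
      c ≤ ∫ s in Ioo (-1 : ℝ) 0, q4 (u s) →
        ∃ y, δ ≤ ∫ s in Ioo (-1 : ℝ) 0, ∫ x in Metric.ball y 1, ‖u s x‖ ^ 2

/-- **Low** (200 lines, from `StFrA`, `StFrB`). A loss of energy makes `∫ ‖u_k‖_4²` large. Proof.
`¬ NoLoss`: there are `η, δ > 0` with `kin Ω (u s) > kin Ω (u t₀) + η` for all `s ∈ (t₀ - δ, t₀)`,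
`0 ≤ s`. Take `s_j ∈ (t₀ - min δ (1/(j+1)), t₀)`, `0 ≤ s_j`, from `DissipationCritical`,
`τ_j = t₀ - s_j`, `r_j = τ_j^{2/5}`, so `r_j^{5/2} = τ_j ≤ t₀` and
`∫_{s_j}^{t₀} gradSq ≤ M τ_j^{1/5} = M r_j^{1/2}`, i.e. `∫_{-1}^0 gs (sA) ≤ M`. There is a
`s ∈ (-1, -1/2)` with `gs (sA s) ≤ 2 M + 1` for which the drop inequality of `StFrB` holds:
`η ≤ √(2M+1) (ν r_j^{1/2} √M + ∫_{-1}^0 q4 (sv)) + √K ∫_{t₀-τ_j}^{t₀} fn`. The first and the last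
term tend to `0` (`EC.G3b_small`), so `∫ q4 (sv) ≥ η / (2 √(2M+1))` for large `j`; drop the other
`j`. (`M` may be assumed nonnegative.) -/
def StLow : Prop :=
  ∀ (Ω : Set E3) (ν T : ℝ) (u₀ : E3 → E3) (f u : ℝ → E3 → E3) (G : ℝ → Fin 3 → E3 → E3),
    IsOpen Ω → Bornology.IsBounded Ω → 0 < ν → IsWeakSolution Ω ν T u₀ f u G →
      ∀ t₀ ∈ Ioc 0 T, ¬ Pool.Agent.Helper7.NT.NoLoss Ω u t₀ → DissipationCritical Ω G t₀ →
        ∃ (r : ℕ → ℝ) (M c : ℝ), (∀ j, 0 < r j ∧ (r j) ^ (5 / 2 : ℝ) ≤ t₀) ∧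
          Tendsto r atTop (𝓝 0) ∧ 0 < c ∧ 0 ≤ M ∧
          ∀ j, ∫ s in Ioo (-1 : ℝ) 0, gs (sA Ω G t₀ (r j) 0 s) ≤ M ∧
            c ≤ ∫ s in Ioo (-1 : ℝ) 0, q4 (sv Ω u t₀ (r j) 0 s)

/-- **Bus** (250 lines, from `StLow`, `StFr`, `StFrT`, `StCen`). Proof. Let `r, M, c` be as in `StLow`
and `K` a bound for the energy; `K' = max` of `K`, `M`, `1 + C K^{1/4} M^{3/4}` and `1`; `e_j =
ν r_j^{1/2} √M + 2 √K F_j → 0` (`F_j = ∫_{t₀ - r_j^{5/2}}^{t₀} fn`). For large `j` `StCen` gives `y_j`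
with mass `≥ δ` in `B_1(y_j)`; the field vanishes outside `{y | r_j y ∈ Ω}`, so there is
`y'_j ∈ B_1(y_j)` with `x_j := r_j y'_j ∈ Ω`. `sv Ω u t₀ r_j x_j s y = sv Ω u t₀ r_j 0 s (y + y'_j)`
(same for `sA`), so the mass of `sv Ω u t₀ r_j x_j` in `B_2(0) ⊇ B_1(y_j - y'_j)` is `≥ δ`, and
`∫ gs` is the same. All fields of `BUS` come from `StFr` at `x_j`, `StFrT`; `eqn` (if `φ` has
compact support; otherwise there is nothing to prove): the right-hand side of `Fr.eqn` tends to `0`,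
and `|ip (sv 0) φ| ≤ √(sq φ) (∫_{B_ρ} |sv 0|²)^{1/2}`,
`∫_{B_ρ} |sv 0|² = ∫_{Ω ∩ B(x_j, r_j ρ)} |u t₀|² → 0` (`EC.G4b_ball`). -/
def StBus : Prop :=
  ∀ (Ω : Set E3) (ν T : ℝ) (u₀ : E3 → E3) (f u : ℝ → E3 → E3) (G : ℝ → Fin 3 → E3 → E3),
    IsOpen Ω → Bornology.IsBounded Ω → 0 < ν → IsWeakSolution Ω ν T u₀ f u G →
      ∀ t₀ ∈ Ioc 0 T, ¬ Pool.Agent.Helper7.NT.NoLoss Ω u t₀ → DissipationCritical Ω G t₀ →
        ∃ (x : ℕ → E3) (r : ℕ → ℝ) (v : ℕ → ℝ → E3 → E3) (B : ℕ → ℝ → Fin 3 → E3 → E3)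
          (K c : ℝ) (e : ℕ → ℝ), (∀ j, x j ∈ Ω) ∧ (∀ j, 0 < r j) ∧ Tendsto r atTop (𝓝 0) ∧
            0 ≤ K ∧ 0 < c ∧ BUS (fun j => {y | x j + r j • y ∈ Ω}) v B K c e

end Pool.Agent.Helper83.CR
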